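import Pool.Agent.W_a51130_h62.NSep

/-!
The wall bijection preserves adjacency.

PROOF.  Suppose `Adj g₁ g₂` and not `Adj (F g₁) (F g₂)`, where `F` is the wall map of `f` and `F'` that of the
quasi-inverse `f'`.  `F g₁`, `F g₂` are different walls (`near_inv`: `F' (F g)` is the wall of `g`; use `near_unique`), so
`side ((F g₁)⁻¹ F g₂) ≠ none` and `exists_sep` gives `g₃'` with sides of `g₃'⁻¹F g₁`, `g₃'⁻¹F g₂` different and not `none`.  Let
`g₃ = F' g₃'`; `F g₃` is the wall of `g₃'` (`near_inv` for `f'`, `f`), so `g₃` is a different wall from `g₁`, `g₂`.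
There is `R₂` such that `dW' (g₃'⁻¹ f x) ≤ R₁` implies `dW (g₃⁻¹x) ≤ R₂`, where `R₁` is large (below): `f x` is within `R₁` of
some `g₃' ba w`, so `f'(f x)` is within a constant of `f'(g₃' ba w)`, within `R` of `g₃Λ`.  Let `p` be the path of `nsep` for
`R₂`.  Then `dW' (g₃'⁻¹ f(p_k)) > R₁` for all `k`.  `wd (f p_k) (f p_(k+1)) ≤ K C + K ≤ R₁`, so by `Gl.cross` the side of
`g₃'⁻¹ f(p_k)` is constant (it is never `none`).  At `k = 0`, `f(p_0)` is within `R ≤ R₁` of `F g₁ * ba w`; if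
`side (g₃'⁻¹ f(p_0)) ≠ side (g₃'⁻¹ F g₁ ba w) = side (g₃'⁻¹F g₁)`, `Gl.cross` gives `dW' (g₃'⁻¹f(p_0)) ≤ R ≤ R₁`, contradiction.
The same at `k = n`.  So the two sides agree, contradiction.
-/

namespace QIG

variable {m : ℕ}

theorem AdjMap_qi_mono {G G' : Type} [Group G] [Group G'] {S : Set G} {S' : Set G'} {f : G → G'}
    {K L : ℕ} (h : QI S S' f K) (hKL : K ≤ L) : QI S S' f L := by
  refine ⟨fun x y => (h.up x y).trans ?_, fun x y => (h.low x y).trans ?_, fun z => ?_⟩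
  · exact Nat.add_le_add (Nat.mul_le_mul_right _ hKL) hKL
  · exact Nat.add_le_add (Nat.mul_le_mul_right _ hKL) hKL
  · obtain ⟨x, hx⟩ := h.surj z
    exact ⟨x, hx.trans hKL⟩

/-- `NearW` only depends on the walls. -/
theorem AdjMap_near_right {D D' : Gl m} {S' : Set D'.G} (hS' : GSet S') {f : D.G → D'.G} {R : ℕ}
    {g : D.G} {g' : D'.G} (h : NearW D D' S' f R g g') (w : (D'.P 0).lat) :
    NearW D D' S' f R g (g' * D'.ba w) := by
  intro v
  have e : (g' * D'.ba w)⁻¹ * f (g * D.ba v) = D'.ba (-w) * (g'⁻¹ * f (g * D.ba v)) := by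
    rw [D'.ba_neg]
    group
  rw [e, D'.dW_ba_mul hS']
  exact h v

theorem AdjMap_near_left {D D' : Gl m} {S' : Set D'.G} {f : D.G → D'.G} {R : ℕ}
    {g : D.G} {g' : D'.G} (h : NearW D D' S' f R g g') (w : (D.P 0).lat) :
    NearW D D' S' f R (g * D.ba w) g' := by
  intro v
  rw [mul_assoc, ← D.ba_add]
  exact h _

/-- A point far from the wall is on the same side as a point close to it. -/
theorem AdjMap_side_eq {D : Gl m} (X : Full D) {R : ℕ} {h h' : D.G} (hh : R < D.dW X.S h)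
    (hd : wd X.S h h' ≤ R) : X.A.side h = X.A.side h' := by
  have h0 : X.A.side h ≠ none := by
    intro h0
    obtain ⟨v, hv⟩ := (D.side_none X.A h).1 h0
    rw [hv, D.dW_ba X.hS] at hh
    omega
  obtain ⟨a, ha⟩ := Option.ne_none_iff_exists'.1 h0
  by_contra hne
  have hh' : X.A.side h' ≠ some a := by
    intro h1
    exact hne (by rw [ha, h1])
  obtain ⟨v, hv⟩ := D.cross X.hS X.A X.hgen ha hh'
  have h1 := D.dW_le X.hS v h
  rw [wd_comm X.hS] at h1
  omega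

theorem adj_map (hm : 2 ≤ m) {D D' : Gl m} (X : Full D) (X' : Full D') {f : D.G → D'.G}
    {f' : D'.G → D.G} {K K' R : ℕ} (hf : QI X.S X'.S f K) (hf' : QI X'.S X.S f' K')
    (h1 : ∀ x, wd X.S x (f' (f x)) ≤ K') (h2 : ∀ y, wd X'.S y (f (f' y)) ≤ K')
    {F : D.G → D'.G} {F' : D'.G → D.G} (hF : ∀ g, NearW D D' X'.S f R g (F g))
    (hF' : ∀ g, NearW D' D X.S f' R g (F' g)) {g₁ g₂ : D.G} (h : D.Adj g₁ g₂) :
    D'.Adj (F g₁) (F g₂) := by
  have hS := X.hS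
  have hS' := X'.hS
  have hm1 : 1 ≤ m := by omega
  by_contra hA
  -- the images are different walls
  have hne : X'.A.side ((F g₁)⁻¹ * F g₂) ≠ none := by
    intro h0
    obtain ⟨w, hw⟩ := (D'.side_none X'.A _).1 h0
    have e : F g₂ = F g₁ * D'.ba w := by
      rw [← hw]
      group
    have a1 : NearW D D' X'.S f R g₁ (F g₂) := by
      rw [e]
      exact AdjMap_near_right hS' (hF g₁) w
    obtain ⟨w1, hw1⟩ := near_inv hm1 X X' hf hf' h1 a1 (hF' (F g₂))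
    obtain ⟨w2, hw2⟩ := near_inv hm1 X X' hf hf' h1 (hF g₂) (hF' (F g₂))
    obtain ⟨i, γ, hγ, hg⟩ := h
    have h3 : X.A.side (g₁⁻¹ * g₂) = some i := by
      rw [hg]
      exact D.side_of X.A hγ
    have h4 : g₁⁻¹ * g₂ = D.ba (w1 - w2) := by
      have h5 : g₁ * D.ba w1 = g₂ * D.ba w2 := by rw [← hw1, ← hw2]
      have h6 : g₂ = g₁ * D.ba w1 * (D.ba w2)⁻¹ := by
        rw [h5]
        group
      rw [h6, ← D.ba_neg, sub_eq_add_neg, D.ba_add]
      group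
    rw [(D.side_none X.A _).2 ⟨_, h4⟩] at h3
    exact Option.some_ne_none i h3.symm
  obtain ⟨g₃', s1, s2, s3⟩ := exists_sep X' hne hA
  set g₃ : D.G := F' g₃' with hg₃
  -- `F g₃` is the wall of `g₃'`
  obtain ⟨w3, hw3⟩ := near_inv hm1 X' X hf' (AdjMap_qi_mono hf (Nat.le_add_right K K'))
    (fun y => (h2 y).trans (Nat.le_add_left K' K)) (hF' g₃') (hF g₃)
  have hside : ∀ g : D.G, X'.A.side (g₃'⁻¹ * F g) ≠ none → X.A.side (g₃⁻¹ * g) ≠ none := by
    intro g hg h0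
    obtain ⟨w, hw⟩ := (D.side_none X.A _).1 h0
    have e : g = g₃ * D.ba w := by
      rw [← hw]
      group
    have a1 : NearW D D' X'.S f R g (F g₃) := by
      rw [e]
      exact AdjMap_near_left (hF g₃) w
    obtain ⟨w', hw'⟩ := near_unique hm1 X X' hf (hF g) a1
    apply hg
    refine (D'.side_none X'.A _).2 ⟨w3 - w', ?_⟩
    have h5 : g₃' * D'.ba w3 = F g * D'.ba w' := by rw [← hw3, ← hw']
    have h6 : F g = g₃' * D'.ba w3 * (D'.ba w')⁻¹ := by
      rw [h5]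
      group
    rw [h6, ← D'.ba_neg, sub_eq_add_neg, D'.ba_add]
    group
  have t1 := hside g₁ s1
  have t2 := hside g₂ s2
  obtain ⟨C, hC⟩ := nsep hm X
  set R₁ : ℕ := R + (K * C + K) with hR₁
  set R₂ : ℕ := R + (K' + (K' * R₁ + K')) with hR₂
  have hR12 : ∀ x, R₂ < D.dW X.S (g₃⁻¹ * x) → R₁ < D'.dW X'.S (g₃'⁻¹ * f x) := by
    intro x hx
    by_contra hcon
    push Not at hcon
    obtain ⟨w, hw⟩ := D'.exists_dW hS' (g₃'⁻¹ * f x)
    have a1 : wd X'.S (g₃' * D'.ba w) (f x) ≤ R₁ := by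
      rw [← wd_mul_left X'.S g₃'⁻¹]
      have e : g₃'⁻¹ * (g₃' * D'.ba w) = D'.ba w := by group
      rw [e, hw]
      exact hcon
    have a2 : wd X.S (f' (g₃' * D'.ba w)) (f' (f x)) ≤ K' * R₁ + K' :=
      (hf'.up _ _).trans (Nat.add_le_add_right (Nat.mul_le_mul_left _ a1) _)
    have a3 : D.dW X.S (g₃⁻¹ * f' (g₃' * D'.ba w)) ≤ R := hF' g₃' w
    have a4 := D.dW_lip hS (g₃⁻¹ * x) (g₃⁻¹ * f' (g₃' * D'.ba w))
    rw [wd_mul_left] at a4
    have a5 := wd_triangle hS x (f' (f x)) (f' (g₃' * D'.ba w))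
    have a6 := h1 x
    rw [wd_comm hS (f' (f x))] at a5
    omega
  obtain ⟨n, p, ⟨v0, hv0⟩, ⟨vn, hvn⟩, hstep, hfar⟩ := hC R₂ g₁ g₂ g₃ h t1 t2
  have hfar' : ∀ i ≤ n, R₁ < D'.dW X'.S (g₃'⁻¹ * f (p i)) := fun i hi => hR12 _ (hfar i hi)
  have hconst : ∀ i ≤ n, X'.A.side (g₃'⁻¹ * f (p 0)) = X'.A.side (g₃'⁻¹ * f (p i)) := by
    intro i
    induction i with
    | zero => intro _; rfl
    | succ i ih =>
      intro hi
      rw [ih (by omega)]
      refine AdjMap_side_eq X' (hfar' i (by omega)) ?_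
      rw [wd_mul_left]
      have a1 := hf.up (p i) (p (i + 1))
      have a2 : K * wd X.S (p i) (p (i + 1)) ≤ K * C := Nat.mul_le_mul_left _ (hstep i (by omega))
      omega
  have hend : ∀ (g : D.G) (v : (D.P 0).lat), R₁ < D'.dW X'.S (g₃'⁻¹ * f (g * D.ba v)) →
      X'.A.side (g₃'⁻¹ * f (g * D.ba v)) = X'.A.side (g₃'⁻¹ * F g) := by
    intro g v hv
    obtain ⟨w, hw⟩ := D'.exists_dW hS' ((F g)⁻¹ * f (g * D.ba v))
    have a1 : wd X'.S (g₃'⁻¹ * f (g * D.ba v)) (g₃'⁻¹ * (F g * D'.ba w)) ≤ R₁ := by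
      rw [wd_mul_left, wd_comm hS', ← wd_mul_left X'.S (F g)⁻¹]
      have e : (F g)⁻¹ * (F g * D'.ba w) = D'.ba w := by group
      rw [e, hw]
      have := hF g v
      omega
    have a2 : X'.A.side (g₃'⁻¹ * (F g * D'.ba w)) = X'.A.side (g₃'⁻¹ * F g) := by
      rw [← mul_assoc]
      exact D'.side_mul_ba X'.A _ w
    rw [← a2]
    exact AdjMap_side_eq X' hv a1
  apply s3
  have b1 := hend g₁ v0 (by rw [← hv0]; exact hfar' 0 (Nat.zero_le _))
  have b2 := hend g₂ vn (by rw [← hvn]; exact hfar' n le_rfl)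
  rw [← hv0] at b1
  rw [← hvn] at b2
  rw [← b1, ← b2]
  exact hconst n le_rfl

end QIG
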