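import Pool.Agent.W_a51130_h62.AmalDefs

/-!
Existence of the side and length functions on an amalgam.

PROOF.  Mathlib: `Monoid.PushoutI.transversal_nonempty`, `NormalWord d`, `NormalWord.equiv`
(`PushoutI φ ≃ NormalWord d`, `g ↦ g • empty`), `NormalWord.cons`, `NormalWord.cons_eq_smul`,
`NormalWord.consRecOn`.  With `w = g • empty`: `side g = w.fstIdx`, `len g = w.toList.length`.
`side_none`: the list is empty iff `w = (head) • empty`.  `side_base_mul`, `len_base_mul`: the base action only
changes `head`.  `side_cons`, `len_cons`: `cons_eq_smul` (`cons g w` has list `⟨i, _⟩ :: w.toList`).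
`exists_cons`: `consRecOn` (a word with first index `i` is a base element times `cons g w'`; absorb the base
element in `g`).
-/

namespace QIG

open Monoid Monoid.PushoutI

theorem exists_amalStr {ι : Type} [DecidableEq ι] {Γ : ι → Type} [∀ i, Group (Γ i)] {H : Type}
    [Group H] (φ : ∀ i, H →* Γ i) (hφ : ∀ i, Function.Injective (φ i)) :
    Nonempty (AmalStr φ) := by
  classical
  obtain ⟨d⟩ := PushoutI.NormalWord.transversal_nonempty φ hφ
  let nf : PushoutI φ → NormalWord d := fun g => g • NormalWord.empty
  have hprod : ∀ g, (nf g).prod = g := fun g => by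
    simp only [nf, NormalWord.prod_smul, NormalWord.prod_empty, mul_one]
  have hnf : ∀ w : NormalWord d, nf w.prod = w := fun w => NormalWord.prod_smul_empty w
  have hmul : ∀ g h, nf (g * h) = g • nf h := fun g h => mul_smul _ _ _
  have hcons : ∀ (i : ι) (g : Γ i) (hg : g ∉ (φ i).range) (h : PushoutI φ)
      (hh : (nf h).toWord.fstIdx ≠ some i),
      nf (of i g * h) = NormalWord.cons g (nf h) hh hg := fun i g hg h hh => by
    rw [hmul, NormalWord.cons_eq_smul]
  have hcidx : ∀ (i : ι) (g : Γ i) (w : NormalWord d) (hg : g ∉ (φ i).range)
      (hh : w.toWord.fstIdx ≠ some i),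
      (NormalWord.cons g w hh hg).toWord.fstIdx = some i := fun i g w hg hh => by
    simp [NormalWord.cons, CoprodI.Word.fstIdx, CoprodI.Word.cons]
  refine ⟨{ side := fun g => (nf g).toWord.fstIdx
            len := fun g => (nf g).toWord.toList.length
            side_none := ?_
            side_base_mul := ?_
            len_base_mul := ?_
            side_cons := ?_
            len_cons := ?_
            exists_cons := ?_ }⟩
  · intro h
    constructor
    · intro hs
      have hl : (nf h).toWord.toList = [] := by
        simpa [CoprodI.Word.fstIdx] using hs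
      have hw : (nf h).toWord = CoprodI.Word.empty := by
        apply CoprodI.Word.ext
        exact hl
      refine ⟨(nf h).head, ?_⟩
      conv_rhs => rw [← hprod h]
      rw [NormalWord.prod, hw]
      simp
    · rintro ⟨l, rfl⟩
      have : nf (PushoutI.base φ l) = PushoutI.base φ l • NormalWord.empty := rfl
      rw [this, NormalWord.base_smul_def]
      simp [CoprodI.Word.fstIdx, NormalWord.empty, CoprodI.Word.empty]
  · intro l h
    rw [hmul, NormalWord.base_smul_def]
  · intro l h
    rw [hmul, NormalWord.base_smul_def]
  · intro i g hg h hh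
    rw [hcons i g hg h hh]
    exact hcidx i g _ hg hh
  · intro i g hg h hh
    rw [hcons i g hg h hh]
    simp [NormalWord.cons, CoprodI.Word.cons]
  · intro i h hs
    have key : ∀ w : NormalWord d, w.toWord.fstIdx = some i →
        ∃ g : Γ i, g ∉ (φ i).range ∧ ∃ h', (nf h').toWord.fstIdx ≠ some i ∧
          w.prod = of i g * h' := by
      intro w
      induction w using NormalWord.consRecOn with
      | empty =>
        intro h0
        simp [CoprodI.Word.fstIdx, NormalWord.empty, CoprodI.Word.empty] at h0
      | cons j g w hmw hgn hgr hw1 ih =>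
        intro h0
        rw [hcidx j g w hgr hmw] at h0
        obtain rfl : j = i := Option.some.inj h0
        refine ⟨g, hgr, w.prod, ?_, ?_⟩
        · rw [hnf]
          exact hmw
        · exact NormalWord.prod_cons g w hmw hgr
      | base l w hw ih =>
        intro h0
        rw [NormalWord.base_smul_def] at h0
        obtain ⟨g, hg, h', hh', hp⟩ := ih h0
        refine ⟨φ i l * g, ?_, h', hh', ?_⟩
        · intro hmem
          apply hg
          have := (φ i).range.mul_mem ((φ i).range.inv_mem ⟨l, rfl⟩) hmem
          simpa using this
        · rw [NormalWord.prod_smul, hp, map_mul, of_apply_eq_base, mul_assoc]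
    obtain ⟨g, hg, h', hh', hp⟩ := key (nf h) hs
    refine ⟨g, hg, h', hh', ?_⟩
    rw [← hprod h]
    exact hp

end QIG
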