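import Pool.Agent.W_a51130_h62.Defs

/-! MP_a51130_gt: amalgams, abstract normal form interface. -/

namespace QIG

open Monoid

/-- Side (factor of the first syllable) and syllable length in an amalgam. -/
structure AmalStr {ι : Type} {Γ : ι → Type} [∀ i, Group (Γ i)] {H : Type} [Group H]
    (φ : ∀ i, H →* Γ i) where
  side : PushoutI φ → Option ι
  len : PushoutI φ → ℕ
  side_none : ∀ h, side h = none ↔ h ∈ (PushoutI.base φ).range
  side_base_mul : ∀ (l : H) h, side (PushoutI.base φ l * h) = side h
  len_base_mul : ∀ (l : H) h, len (PushoutI.base φ l * h) = len h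
  side_cons : ∀ (i : ι) (g : Γ i), g ∉ (φ i).range → ∀ h, side h ≠ some i →
    side (PushoutI.of i g * h) = some i
  len_cons : ∀ (i : ι) (g : Γ i), g ∉ (φ i).range → ∀ h, side h ≠ some i →
    len (PushoutI.of i g * h) = len h + 1
  exists_cons : ∀ (i : ι) h, side h = some i → ∃ g : Γ i, g ∉ (φ i).range ∧ ∃ h',
    side h' ≠ some i ∧ h = PushoutI.of i g * h'

end QIG
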