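import Pool.Agent.W_a51130_h62.AmalDefs

/-!
Consequences of the normal form interface: uniqueness, induction, recursion, right multiplication.

PROOFS.
`unique`: `of i g * h = of i g' * h'` gives `h = of i (g⁻¹g') * h'`.  If `g⁻¹g' ∉ range (φ i)` then
`side h = some i` by `side_cons`, a contradiction; so `g⁻¹g' = φ i l` and `PushoutI.of_apply_eq_base`.
`ind`: strong induction on `len h`; `side h = none` means `h = base l`; `side h = some i`: `exists_cons`.
`exists_rec`: define `f` by strong recursion on `len`: if `side h = none`, `h = base l` (choose `l`; `base` is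
injective when the `φ i` are, see `Monoid.PushoutI.base_injective`), `f h = l • x₀`; if `side h = some i`, choose
`g, h'` by `exists_cons` and put `f h = F i g (f h')`.  First prove `f (base l * h) = l • f h` by induction on
`len h`: if `side h = some i`, `h = g h'` and `base l * h = g₁ h₁` (chosen decompositions) then by `unique`
`g₁ = φ(l) g φ(μ)`, `h' = base μ * h₁`, so `f (base l * h) = F i (φ l * g * φ μ) (f h₁) = l • F i g (μ • f h₁) =
l • F i g (f (base μ * h₁)) = l • F i g (f h')` (induction hypothesis, `len h₁ = len h' < len h`).  The same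
computation gives the recursion formula for every decomposition.
`side_mul_of`: induction on `len h`.  `h = g h'`, `g ∈ Γ j`, `side h' ≠ some j`.  If `side h' = none`,
`h' = base l`: for `k = j`, `h s = of j (g φ(l) s) ∈ Γ j`, so its side is `some j` or `none`; for `k ≠ j`,
`base l * of k s = of k (φ l * s)` has side `none` or `some k ≠ some j`, so `side (h s) = some j`.
If `side h' = some i`, `i ≠ j`: by induction `side (h' s) ∈ {some i, none}`, so `side (g h' s) = some j`.
-/

namespace QIG

open Monoid

variable {ι : Type} {Γ : ι → Type} [∀ i, Group (Γ i)] {H : Type} [Group H] {φ : ∀ i, H →* Γ i}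

theorem AmalStr.unique (A : AmalStr φ) {i : ι} {g g' : Γ i} {h h' : PushoutI φ}
    (hg : g ∉ (φ i).range) (hg' : g' ∉ (φ i).range) (hh : A.side h ≠ some i)
    (hh' : A.side h' ≠ some i) (he : PushoutI.of i g * h = PushoutI.of i g' * h') :
    ∃ l : H, g' = g * φ i l ∧ h = PushoutI.base φ l * h' := by
  have h1 : h = PushoutI.of i (g⁻¹ * g') * h' := by
    rw [map_mul, map_inv, mul_assoc, ← he]
    group
  by_cases hr : g⁻¹ * g' ∈ (φ i).range
  · obtain ⟨l, hl⟩ := hr
    refine ⟨l, ?_, ?_⟩
    · rw [hl]; group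
    · rw [h1, ← hl, PushoutI.of_apply_eq_base]
  · exact absurd (by rw [h1]; exact A.side_cons i _ hr h' hh') hh

theorem AmalStr.ind (A : AmalStr φ) {p : PushoutI φ → Prop} (h0 : ∀ l, p (PushoutI.base φ l))
    (h1 : ∀ (i : ι) (g : Γ i), g ∉ (φ i).range → ∀ h, A.side h ≠ some i → p h →
      p (PushoutI.of i g * h)) : ∀ h, p h := by
  have key : ∀ n : ℕ, ∀ h, A.len h ≤ n → p h := by
    intro n
    induction n with
    | zero =>
      intro h hn
      cases hs : A.side h with
      | none =>
        obtain ⟨l, rfl⟩ := (A.side_none h).mp hs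
        exact h0 l
      | some i =>
        obtain ⟨g, hg, h', hh', rfl⟩ := A.exists_cons i h hs
        rw [A.len_cons i g hg h' hh'] at hn
        omega
    | succ n ih =>
      intro h hn
      cases hs : A.side h with
      | none =>
        obtain ⟨l, rfl⟩ := (A.side_none h).mp hs
        exact h0 l
      | some i =>
        obtain ⟨g, hg, h', hh', rfl⟩ := A.exists_cons i h hs
        rw [A.len_cons i g hg h' hh'] at hn
        exact h1 i g hg h' hh' (ih h' (by omega))
  exact fun h => key _ h le_rfl

/-- The graph of the function defined by recursion. -/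
inductive AmalRecGr (A : AmalStr φ) {X : Type} [MulAction H X] (x₀ : X) (F : ∀ i, Γ i → X → X) :
    PushoutI φ → X → Prop
  | base (l : H) : AmalRecGr A x₀ F (PushoutI.base φ l) (l • x₀)
  | cons (i : ι) (g : Γ i) (h : PushoutI φ) (x : X) (hg : g ∉ (φ i).range)
      (hh : A.side h ≠ some i) (hx : AmalRecGr A x₀ F h x) :
      AmalRecGr A x₀ F (PushoutI.of i g * h) (F i g x)

theorem AmalRecGr.inv {A : AmalStr φ} {X : Type} [MulAction H X] {x₀ : X}
    {F : ∀ i, Γ i → X → X} {k : PushoutI φ} {y : X} (hk : AmalRecGr A x₀ F k y) :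
    (∃ l : H, k = PushoutI.base φ l ∧ y = l • x₀) ∨
      ∃ (i : ι) (g : Γ i) (h : PushoutI φ) (x : X), g ∉ (φ i).range ∧ A.side h ≠ some i ∧
        AmalRecGr A x₀ F h x ∧ k = PushoutI.of i g * h ∧ y = F i g x := by
  cases hk with
  | base l => exact Or.inl ⟨l, rfl, rfl⟩
  | cons i g h x hg hh hx => exact Or.inr ⟨i, g, h, x, hg, hh, hx, rfl, rfl⟩

theorem AmalRecGr.smul {A : AmalStr φ} {X : Type} [MulAction H X] {x₀ : X}
    {F : ∀ i, Γ i → X → X}
    (hF2 : ∀ (i : ι) (g : Γ i), g ∉ (φ i).range → ∀ (l : H) (x : X),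
      F i (φ i l * g) x = l • F i g x) (l : H) {k : PushoutI φ} {y : X}
    (hk : AmalRecGr A x₀ F k y) : AmalRecGr A x₀ F (PushoutI.base φ l * k) (l • y) := by
  rcases hk.inv with ⟨m, rfl, rfl⟩ | ⟨i, g, h, x, hg, hh, hx, rfl, rfl⟩
  · rw [← map_mul, ← mul_smul]
    exact AmalRecGr.base _
  · have hg' : φ i l * g ∉ (φ i).range := by
      rintro ⟨m, hm⟩
      apply hg
      refine ⟨l⁻¹ * m, ?_⟩
      rw [map_mul, map_inv, hm]
      group
    have h1 : PushoutI.base φ l * (PushoutI.of i g * h) = PushoutI.of i (φ i l * g) * h := by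
      rw [map_mul, PushoutI.of_apply_eq_base, mul_assoc]
    rw [h1, ← hF2 i g hg l x]
    exact AmalRecGr.cons i _ h x hg' hh hx

theorem AmalRecGr.unique {A : AmalStr φ} (hφ : ∀ i, Function.Injective (φ i)) {X : Type}
    [MulAction H X] {x₀ : X} {F : ∀ i, Γ i → X → X}
    (hF1 : ∀ (i : ι) (g : Γ i), g ∉ (φ i).range → ∀ (l : H) (x : X),
      F i (g * φ i l) x = F i g (l • x))
    (hF2 : ∀ (i : ι) (g : Γ i), g ∉ (φ i).range → ∀ (l : H) (x : X),
      F i (φ i l * g) x = l • F i g x) {k : PushoutI φ} {y : X}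
    (hk : AmalRecGr A x₀ F k y) : ∀ z, AmalRecGr A x₀ F k z → y = z := by
  induction hk with
  | base l =>
    intro z hz
    rcases hz.inv with ⟨m, hm, rfl⟩ | ⟨i, g, h, x, hg, hh, hx, he, rfl⟩
    · rw [PushoutI.base_injective hφ hm]
    · have h1 := A.side_cons i g hg h hh
      rw [← he, (A.side_none _).mpr ⟨l, rfl⟩] at h1
      simp at h1
  | cons i g h x hg hh hx ih =>
    intro z hz
    rcases hz.inv with ⟨m, hm, rfl⟩ | ⟨i', g', h', x', hg', hh', hx', he, rfl⟩
    · have h1 := A.side_cons i g hg h hh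
      rw [hm, (A.side_none _).mpr ⟨m, rfl⟩] at h1
      simp at h1
    · have h1 := A.side_cons i g hg h hh
      rw [he, A.side_cons i' g' hg' h' hh'] at h1
      have h2 : i' = i := by simpa using h1
      subst h2
      obtain ⟨l, hl1, hl2⟩ := A.unique hg hg' hh hh' he
      have h3 := hx'.smul hF2 l
      rw [← hl2] at h3
      rw [ih _ h3, hl1, hF1 i' g hg]

theorem AmalStr.exists_rec (A : AmalStr φ) (hφ : ∀ i, Function.Injective (φ i)) {X : Type}
    [MulAction H X] (x₀ : X) (F : ∀ i, Γ i → X → X)
    (hF1 : ∀ (i : ι) (g : Γ i), g ∉ (φ i).range → ∀ (l : H) (x : X),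
      F i (g * φ i l) x = F i g (l • x))
    (hF2 : ∀ (i : ι) (g : Γ i), g ∉ (φ i).range → ∀ (l : H) (x : X),
      F i (φ i l * g) x = l • F i g x) :
    ∃ f : PushoutI φ → X, (∀ l, f (PushoutI.base φ l) = l • x₀) ∧
      (∀ l h, f (PushoutI.base φ l * h) = l • f h) ∧
      ∀ (i : ι) (g : Γ i), g ∉ (φ i).range → ∀ h, A.side h ≠ some i →
        f (PushoutI.of i g * h) = F i g (f h) := by
  have htot : ∀ h, ∃ x, AmalRecGr A x₀ F h x := by
    refine A.ind (fun l => ⟨_, AmalRecGr.base l⟩) ?_
    rintro i g hg h hh ⟨x, hx⟩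
    exact ⟨_, AmalRecGr.cons i g h x hg hh hx⟩
  choose f hf using htot
  refine ⟨f, ?_, ?_, ?_⟩
  · intro l
    exact AmalRecGr.unique hφ hF1 hF2 (hf _) _ (AmalRecGr.base l)
  · intro l h
    exact AmalRecGr.unique hφ hF1 hF2 (hf _) _ ((hf h).smul hF2 l)
  · intro i g hg h hh
    exact AmalRecGr.unique hφ hF1 hF2 (hf _) _ (AmalRecGr.cons i g h _ hg hh (hf h))

theorem AmalStr.side_base (A : AmalStr φ) (l : H) : A.side (PushoutI.base φ l) = none :=
  (A.side_none _).mpr ⟨l, rfl⟩

theorem AmalStr.side_of (A : AmalStr φ) {i : ι} {g : Γ i} (hg : g ∉ (φ i).range) :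
    A.side (PushoutI.of i g) = some i := by
  have h1 : A.side (1 : PushoutI φ) = none := by
    have := A.side_base 1
    rwa [map_one] at this
  have h2 := A.side_cons i g hg 1 (by rw [h1]; simp)
  rwa [mul_one] at h2

theorem AmalStr.side_of_ne (A : AmalStr φ) {k j : ι} (hkj : k ≠ j) (s : Γ k) :
    A.side (PushoutI.of k s) ≠ some j := by
  by_cases hs : s ∈ (φ k).range
  · obtain ⟨l, rfl⟩ := hs
    rw [PushoutI.of_apply_eq_base, A.side_base]
    simp
  · rw [A.side_of hs]
    simpa using hkj

theorem AmalStr.side_mul_of (A : AmalStr φ) {j : ι} {h : PushoutI φ} (hj : A.side h = some j)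
    (k : ι) (s : Γ k) :
    A.side (h * PushoutI.of k s) = some j ∨ A.side (h * PushoutI.of k s) = none := by
  revert j
  refine A.ind (p := fun h => ∀ {j : ι}, A.side h = some j →
    A.side (h * PushoutI.of k s) = some j ∨ A.side (h * PushoutI.of k s) = none) ?_ ?_ h
  · intro l j hj
    rw [A.side_base] at hj
    simp at hj
  · intro i g hg h' hh' ih j hj
    rw [A.side_cons i g hg h' hh'] at hj
    have hij : i = j := by simpa using hj
    subst hij
    rw [mul_assoc]
    cases hs : A.side h' with
    | none =>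
      obtain ⟨l, rfl⟩ := (A.side_none h').mp hs
      have e1 : PushoutI.base φ l * PushoutI.of k s = PushoutI.of k (φ k l * s) := by
        rw [map_mul, PushoutI.of_apply_eq_base]
      rw [e1]
      by_cases hk : k = i
      · subst hk
        rw [← map_mul]
        by_cases hr : g * (φ k l * s) ∈ (φ k).range
        · obtain ⟨m, hm⟩ := hr
          right
          rw [← hm, PushoutI.of_apply_eq_base, A.side_base]
        · left
          exact A.side_of hr
      · left
        exact A.side_cons i g hg _ (A.side_of_ne hk _)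
    | some i' =>
      left
      apply A.side_cons i g hg
      have hne : i' ≠ i := by
        intro h
        apply hh'
        rw [hs, h]
      rcases ih hs with h1 | h1
      · rw [h1]
        simpa using hne
      · rw [h1]
        simp

theorem AmalStr.side_mul_base (A : AmalStr φ) [Nonempty ι] (h : PushoutI φ) (l : H) :
    A.side (h * PushoutI.base φ l) = A.side h := by
  cases hs : A.side h with
  | none =>
    obtain ⟨m, rfl⟩ := (A.side_none h).mp hs
    rw [← map_mul, A.side_base]
  | some j =>
    have h1 := A.side_mul_of hs j (φ j l)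
    rw [PushoutI.of_apply_eq_base] at h1
    rcases h1 with h1 | h1
    · exact h1
    · exfalso
      obtain ⟨m, hm⟩ := (A.side_none _).mp h1
      have h2 : h = PushoutI.base φ (m * l⁻¹) := by
        rw [map_mul, hm, map_inv]
        group
      rw [h2, A.side_base] at hs
      simp at hs

end QIG
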