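import Pool.Agent.W_a51130_h62.Defs

/-! MP_a51130_gt, analysis part: common definitions. -/

namespace QIG

open MeasureTheory Metric Set Filter Topology

variable {m : ℕ}

/-- Weak quasisymmetry with constant `H`. -/
def WQS (f : E m → E m) (H : ℝ) : Prop :=
  ∀ x y z, ‖y - x‖ ≤ ‖z - x‖ → ‖f y - f x‖ ≤ H * ‖f z - f x‖

/-- `L` is a similarity (or zero). -/
def Sim (L : E m →L[ℝ] E m) : Prop := ∃ σ : ℝ, 0 ≤ σ ∧ ∀ v, ‖L v‖ = σ * ‖v‖

/-- Inversion in the unit sphere. -/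
noncomputable def inv1 (v : E m) : E m := (‖v‖ ^ 2)⁻¹ • v

/-- `T_L w = |w|² L w / |L w|²`, the linear map `L` conjugated by the inversion. -/
noncomputable def TL (L : E m →L[ℝ] E m) (w : E m) : E m := (‖w‖ ^ 2 / ‖L w‖ ^ 2) • L w

end QIG
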