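import Pool.Agent.W_a51130_h62.GeoBasic

/-!
Morse lemma for vertical lines.

`sec2 p x = (‖x.u-p‖² + x.t²)/x.t²` is the square of `cosh` of the distance from `x` to the vertical line over `p`.

`sec2_le`: put `a = (x.u-p, x.t)`, `b = (y.u-p, y.t)` in `E × R` with Euclidean norms `|a|² = ‖x.u-p‖²+x.t²`, etc.
`q x y = (|a-b|² + 2 x.t y.t)/(x.t y.t)`.  If `hd x y ≤ r`: `|a-b|² ≤ e^r x.t y.t ≤ e^(2r) x.t²`; so
`||b|-|a|| ≤ e^r x.t = e^r |a|/√(sec2 p x)`; in particular `|b| ≤ (1+e^r)|a|`, `y.t ≥ e^(-r) x.t`, so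
`sec2 p y ≤ (1+e^r)² e^(2r) sec2 p x`.

`morse_vert`: let `N x = ‖x.u-p‖²+x.t²`, `s x = √(sec2 p x)`.
(1) `hd x y ≤ log 6 + |log N x - log N y|/2 + log (s x) + log (s y)`: `q x y ≤ (2|a|²+2|b|²+2tt')/(tt') ≤
6 max(|a|/|b|,|b|/|a|) s x s y`.
(2) if `hd x y ≤ r` then `|log N x - log N y|/2 ≤ log(1+e^r)`, and if moreover `s x ≥ 2e^r`, it is `≤ 2e^r/s x`.
(3) let `r = 2K` (`hd (c i)(c (i+1)) ≤ 2K`) and `S₀ = 2 e^r (2K+1)·2`, so `2e^r/S₀ ≤ 1/(4K)`... any `S₀` with
`2e^r/S₀ ≤ 1/(2K)`, `S₀ ≥ 2e^r`.  On a maximal interval `(a,b)` of integers on which `s(c_j) > S₀`: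
`|log N(c_a) - log N(c_b)|/2 ≤ 2 log(1+e^r) + (b-a)/(2K)`, hence by (1)
`(b-a)/K - 1 ≤ hd (c_a)(c_b) ≤ log 6 + 2 log S₀ + 2 log(1+e^r) + (b-a)/(2K)`, so `b - a ≤ B(K)`, and for `i` in the
interval `s(c_i) ≤ S₀ (e^r(1+e^r))^B`.
(4) both endpoints exist: if `s(c_j) > S₀` for all `j ≥ i`, then by (1) and (2)
`(j-i)/K - 1 ≤ hd (c_i)(c_j) ≤ log 6 + 2 log M + (j-i)/(2K)`, false for large `j` (here the a priori bound `M` is
used); similarly to the left.
-/

namespace QIG

variable {m : ℕ}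

/-- Square of `cosh` of the distance to the vertical line over `p`. -/
noncomputable def sec2 (p : E m) (x : HPt m) : ℝ := (‖x.u - p‖ ^ 2 + x.t ^ 2) / x.t ^ 2

theorem one_le_sec2 (p : E m) (x : HPt m) : 1 ≤ sec2 p x := by
  have h := x.pos
  unfold sec2
  rw [le_div_iff₀ (by positivity)]
  have : 0 ≤ ‖x.u - p‖ ^ 2 := by positivity
  linarith

/-- Euclidean norm of `(x.u - p, x.t)`. -/
noncomputable def moN (p : E m) (x : HPt m) : ℝ := Real.sqrt (‖x.u - p‖ ^ 2 + x.t ^ 2)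

/-- `cosh` of the distance to the vertical line over `p`. -/
noncomputable def moS (p : E m) (x : HPt m) : ℝ := moN p x / x.t

theorem moN_sq (p : E m) (x : HPt m) : moN p x ^ 2 = ‖x.u - p‖ ^ 2 + x.t ^ 2 :=
  Real.sq_sqrt (by positivity)

theorem t_le_moN (p : E m) (x : HPt m) : x.t ≤ moN p x := by
  have h := x.pos
  refine Real.le_sqrt_of_sq_le ?_
  have : 0 ≤ ‖x.u - p‖ ^ 2 := by positivity
  linarith

theorem moN_pos (p : E m) (x : HPt m) : 0 < moN p x := lt_of_lt_of_le x.pos (t_le_moN p x)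

theorem one_le_moS (p : E m) (x : HPt m) : 1 ≤ moS p x := by
  unfold moS
  rw [le_div_iff₀ x.pos, one_mul]
  exact t_le_moN p x

theorem moS_sq (p : E m) (x : HPt m) : moS p x ^ 2 = sec2 p x := by
  unfold moS sec2
  rw [div_pow, moN_sq]

theorem moN_le {r : ℝ} (p : E m) {x y : HPt m} (h : hd x y ≤ r) :
    moN p y ≤ moN p x + Real.exp r * x.t := by
  have hx := x.pos
  have hy := y.pos
  have hN := moN_pos p x
  have h1 : q x y ≤ Real.exp r := q_le_of_hd h
  have h2 : y.t ≤ Real.exp r * x.t := t_le_of_hd h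
  have h3 : ‖x.u - y.u‖ ^ 2 + x.t ^ 2 + y.t ^ 2 = q x y * (x.t * y.t) := by
    unfold q
    field_simp
  have hB : ‖y.u - p‖ ≤ ‖x.u - p‖ + ‖x.u - y.u‖ := by
    have h4 : y.u - p = (x.u - p) - (x.u - y.u) := by abel
    rw [h4]
    exact norm_sub_le _ _
  obtain ⟨A, hA⟩ : ∃ A, A = ‖x.u - p‖ := ⟨_, rfl⟩
  obtain ⟨B, hBd⟩ : ∃ B, B = ‖y.u - p‖ := ⟨_, rfl⟩
  obtain ⟨D, hD⟩ : ∃ D, D = ‖x.u - y.u‖ := ⟨_, rfl⟩
  have hA0 : 0 ≤ A := by rw [hA]; positivity
  have hB0 : 0 ≤ B := by rw [hBd]; positivity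
  have hD0 : 0 ≤ D := by rw [hD]; positivity
  rw [← hA, ← hBd, ← hD] at hB
  rw [← hD] at h3
  have hNx : moN p x ^ 2 = A ^ 2 + x.t ^ 2 := by rw [moN_sq, hA]
  have hNy : moN p y ^ 2 = B ^ 2 + y.t ^ 2 := by rw [moN_sq, hBd]
  have hR : 0 < Real.exp r := Real.exp_pos r
  obtain ⟨R, hRd⟩ : ∃ R, R = Real.exp r := ⟨_, rfl⟩
  rw [← hRd] at h1 h2 hR ⊢
  -- the distance
  have h5 : D ^ 2 + (y.t - x.t) ^ 2 ≤ (R * x.t) ^ 2 := by
    have h6 : q x y * (x.t * y.t) ≤ R * (x.t * y.t) :=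
      mul_le_mul_of_nonneg_right h1 (by positivity)
    have h7 : R * (x.t * y.t) ≤ R * (x.t * (R * x.t)) := by gcongr
    nlinarith
  have h8 : (A * D + x.t * (y.t - x.t)) ≤ moN p x * (R * x.t) := by
    refine le_of_sq_le_sq ?_ (by positivity)
    rw [mul_pow, hNx]
    have h9 : (A * D + x.t * (y.t - x.t)) ^ 2 ≤ (A ^ 2 + x.t ^ 2) * (D ^ 2 + (y.t - x.t) ^ 2) := by
      nlinarith [sq_nonneg (A * (y.t - x.t) - x.t * D)]
    refine h9.trans ?_
    gcongr
  refine le_of_sq_le_sq ?_ (by positivity)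
  rw [hNy]
  have h10 : B ^ 2 ≤ (A + D) ^ 2 := by gcongr
  nlinarith

theorem moN_log_le {r : ℝ} (p : E m) {x y : HPt m} (h : hd x y ≤ r) :
    Real.log (moN p y) - Real.log (moN p x) ≤ Real.exp r / moS p x := by
  have hx := x.pos
  have hN := moN_pos p x
  have hNy := moN_pos p y
  have hS := one_le_moS p x
  have h1 : moN p y ≤ moN p x * (1 + Real.exp r / moS p x) := by
    refine (moN_le p h).trans (le_of_eq ?_)
    unfold moS
    field_simp
  have h2 : 0 < 1 + Real.exp r / moS p x := by positivity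
  have h3 := Real.log_le_log hNy h1
  rw [Real.log_mul hN.ne' h2.ne'] at h3
  have h4 := Real.log_le_sub_one_of_pos h2
  linarith

theorem moN_log_abs {r S : ℝ} (p : E m) {x y : HPt m} (h : hd x y ≤ r) (hS : 0 < S)
    (hx : S ≤ moS p x) (hy : S ≤ moS p y) :
    |Real.log (moN p x) - Real.log (moN p y)| ≤ Real.exp r / S := by
  have h1 := moN_log_le p h
  have h' : hd y x ≤ r := by rwa [hd_comm]
  have h2 := moN_log_le p h'
  have h3 : Real.exp r / moS p x ≤ Real.exp r / S := by gcongr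
  have h4 : Real.exp r / moS p y ≤ Real.exp r / S := by gcongr
  rw [abs_le]
  constructor <;> linarith

theorem hd_le_mo (p : E m) (x y : HPt m) :
    hd x y ≤ Real.log 4 + |Real.log (moN p x) - Real.log (moN p y)| +
      (Real.log (sec2 p x) + Real.log (sec2 p y)) / 2 := by
  have hx := x.pos
  have hy := y.pos
  have ha := moN_pos p x
  have hb := moN_pos p y
  have hsx : Real.log (sec2 p x) = 2 * Real.log (moS p x) := by
    rw [← moS_sq, Real.log_pow]
    norm_num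
  have hsy : Real.log (sec2 p y) = 2 * Real.log (moS p y) := by
    rw [← moS_sq, Real.log_pow]
    norm_num
  have hSx : 0 < moS p x := lt_of_lt_of_le one_pos (one_le_moS p x)
  have hSy : 0 < moS p y := lt_of_lt_of_le one_pos (one_le_moS p y)
  obtain ⟨e, he⟩ : ∃ e, e = Real.exp |Real.log (moN p x) - Real.log (moN p y)| := ⟨_, rfl⟩
  have he0 : 0 < e := he ▸ Real.exp_pos _
  have h1 : moN p x ≤ e * moN p y := by
    have h2 : moN p x / moN p y = Real.exp (Real.log (moN p x) - Real.log (moN p y)) := by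
      rw [Real.exp_sub, Real.exp_log ha, Real.exp_log hb]
    have h3 : moN p x / moN p y ≤ e := by
      rw [h2, he]
      exact Real.exp_le_exp.mpr (le_abs_self _)
    rwa [div_le_iff₀ hb] at h3
  have h1' : moN p y ≤ e * moN p x := by
    have h2 : moN p y / moN p x = Real.exp (Real.log (moN p y) - Real.log (moN p x)) := by
      rw [Real.exp_sub, Real.exp_log ha, Real.exp_log hb]
    have h3 : moN p y / moN p x ≤ e := by
      rw [h2, he]
      refine Real.exp_le_exp.mpr ?_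
      rw [abs_sub_comm]
      exact le_abs_self _
    rwa [div_le_iff₀ ha] at h3
  have h4 : q x y ≤ 4 * e * (moS p x * moS p y) := by
    have h5 : ‖x.u - y.u‖ ≤ ‖x.u - p‖ + ‖y.u - p‖ := by
      have h6 : x.u - y.u = (x.u - p) - (y.u - p) := by abel
      rw [h6]
      exact norm_sub_le _ _
    have h7 : ‖x.u - y.u‖ ^ 2 ≤ 2 * ‖x.u - p‖ ^ 2 + 2 * ‖y.u - p‖ ^ 2 := by
      have h8 : ‖x.u - y.u‖ ^ 2 ≤ (‖x.u - p‖ + ‖y.u - p‖) ^ 2 := by gcongr
      nlinarith [sq_nonneg (‖x.u - p‖ - ‖y.u - p‖)]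
    have h9 : ‖x.u - y.u‖ ^ 2 + x.t ^ 2 + y.t ^ 2 ≤ 2 * moN p x ^ 2 + 2 * moN p y ^ 2 := by
      rw [moN_sq, moN_sq]
      nlinarith [sq_nonneg x.t, sq_nonneg y.t]
    have h10 : 2 * moN p x ^ 2 + 2 * moN p y ^ 2 ≤ 4 * e * (moN p x * moN p y) := by
      have h11 : moN p x ^ 2 ≤ e * moN p y * moN p x := by
        rw [sq]
        exact mul_le_mul_of_nonneg_right h1 ha.le
      have h12 : moN p y ^ 2 ≤ e * moN p x * moN p y := by
        rw [sq]
        exact mul_le_mul_of_nonneg_right h1' hb.le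
      nlinarith
    have h13 : moS p x * moS p y = (moN p x * moN p y) / (x.t * y.t) := by
      unfold moS
      rw [div_mul_div_comm]
    rw [h13]
    unfold q
    rw [mul_div_assoc', div_le_div_iff_of_pos_right (by positivity)]
    exact h9.trans h10
  have h14 := Real.log_le_log (q_pos x y) h4
  rw [Real.log_mul (by positivity) (by positivity), Real.log_mul (by norm_num) he0.ne',
    Real.log_mul hSx.ne' hSy.ne', he, Real.log_exp] at h14
  unfold hd
  rw [hsx, hsy]
  linarith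

theorem sec2_le (r : ℝ) : ∃ C : ℝ, 0 < C ∧ ∀ {m : ℕ} (p : E m) (x y : HPt m), hd x y ≤ r →
    sec2 p y ≤ C * sec2 p x := by
  refine ⟨((1 + Real.exp r) * Real.exp r) ^ 2, by positivity, ?_⟩
  intro m p x y h
  have hx := x.pos
  have hy := y.pos
  have h1 := moN_le p h
  have h2 : x.t ≤ Real.exp r * y.t := t_le_of_hd (by rwa [hd_comm])
  have h3 := t_le_moN p x
  have hR := Real.exp_pos r
  have hN := moN_pos p x
  have h4 : moN p y ≤ (1 + Real.exp r) * moN p x := by
    have : Real.exp r * x.t ≤ Real.exp r * moN p x := by gcongr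
    linarith
  have h5 : moS p y ≤ ((1 + Real.exp r) * Real.exp r) * moS p x := by
    unfold moS
    rw [div_le_iff₀ hy]
    have h6 : ((1 + Real.exp r) * Real.exp r) * (moN p x / x.t) * y.t =
        (1 + Real.exp r) * moN p x * ((Real.exp r * y.t) / x.t) := by ring
    rw [h6]
    have h7 : 1 ≤ (Real.exp r * y.t) / x.t := by
      rw [le_div_iff₀ hx, one_mul]
      exact h2
    calc moN p y ≤ (1 + Real.exp r) * moN p x := h4
      _ = (1 + Real.exp r) * moN p x * 1 := (mul_one _).symm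
      _ ≤ _ := by gcongr
  rw [← moS_sq, ← moS_sq, ← mul_pow]
  have h8 := one_le_moS p y
  gcongr

/-- Sum of steps, all but the first and last of which are small. -/
theorem mo_chain (f : ℕ → ℝ) (R δ : ℝ) (hR : 0 ≤ R) (hδ : 0 ≤ δ) (good : ℕ → Prop)
    (h1 : ∀ k, |f k - f (k + 1)| ≤ R)
    (h2 : ∀ k, good k → good (k + 1) → |f k - f (k + 1)| ≤ δ) (n : ℕ)
    (hg : ∀ k, 0 < k → k < n → good k) : |f 0 - f n| ≤ 2 * R + n * δ := by
  have key : ∀ k, k < n → |f 0 - f k| ≤ R + k * δ := by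
    intro k
    induction k with
    | zero =>
      intro _
      simpa using hR
    | succ k ih =>
      intro hk
      have h3 := ih (by omega)
      have h4 : |f 0 - f (k + 1)| ≤ |f 0 - f k| + |f k - f (k + 1)| := abs_sub_le _ _ _
      rcases Nat.eq_zero_or_pos k with rfl | hk0
      · have h5 := h1 0
        simp only [Nat.zero_add] at h5 ⊢
        push_cast
        linarith
      · have h5 := h2 k (hg k hk0 (by omega)) (hg (k + 1) (by omega) hk)
        push_cast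
        linarith
  cases n with
  | zero =>
    simp only [sub_self, abs_zero, Nat.cast_zero, zero_mul, add_zero]
    linarith
  | succ n =>
    have h3 := key n (by omega)
    have h4 : |f 0 - f (n + 1)| ≤ |f 0 - f n| + |f n - f (n + 1)| := abs_sub_le _ _ _
    have h5 := h1 n
    push_cast
    linarith

/-- An excursion away from the line between two points with `sec2 ≤ M` is short. -/
theorem mo_short {K : ℝ} (hK : 1 ≤ K) {S : ℝ} (hS : S = 2 * K * Real.exp (2 * K)) (p : E m)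
    (c : ℤ → HPt m) (hup : ∀ i j : ℤ, hd (c i) (c j) ≤ K * (|(i : ℝ) - j| + 1))
    (hlow : ∀ i j : ℤ, |(i : ℝ) - j| ≤ K * (hd (c i) (c j) + 1)) (a : ℤ) (n : ℕ)
    (hn : ∀ k : ℕ, 0 < k → k < n → S < moS p (c (a + k))) {M : ℝ} (hM : 0 < M)
    (h0 : sec2 p (c a) ≤ M) (h1 : sec2 p (c (a + n)) ≤ M) :
    (n : ℝ) ≤ 2 * K * (Real.log 4 + 2 * Real.exp (2 * K) + Real.log M + 1) := by
  have hK0 : 0 < K := by linarith
  have hR : 0 < Real.exp (2 * K) := Real.exp_pos _
  have hS0 : 0 < S := by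
    rw [hS]
    positivity
  have hstep : ∀ k : ℤ, hd (c k) (c (k + 1)) ≤ 2 * K := by
    intro k
    have h := hup k (k + 1)
    have h2 : |(k : ℝ) - ((k + 1 : ℤ) : ℝ)| = 1 := by
      push_cast
      rw [show (k : ℝ) - (k + 1) = -1 by ring]
      norm_num
    rw [h2] at h
    linarith
  have hδ : Real.exp (2 * K) / S = 1 / (2 * K) := by
    rw [hS]
    field_simp
  have hch := mo_chain (fun k : ℕ => Real.log (moN p (c (a + k)))) (Real.exp (2 * K))
    (1 / (2 * K)) hR.le (by positivity) (fun k => S < moS p (c (a + k))) (fun k => by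
      have h2 := hstep (a + k)
      have h3 := moN_log_abs p h2 one_pos (one_le_moS p _) (one_le_moS p _)
      rw [div_one] at h3
      have h4 : a + ((k + 1 : ℕ) : ℤ) = a + k + 1 := by
        push_cast
        ring
      simp only [h4]
      exact h3) (fun k hk hk' => by
      have h2 := hstep (a + k)
      have h4 : a + ((k + 1 : ℕ) : ℤ) = a + k + 1 := by
        push_cast
        ring
      simp only [h4] at hk' ⊢
      have h3 := moN_log_abs p h2 hS0 hk.le hk'.le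
      rw [hδ] at h3
      exact h3) n hn
  simp only [Nat.cast_zero, add_zero] at hch
  have h2 := hd_le_mo p (c a) (c (a + n))
  have h3 : Real.log (sec2 p (c a)) ≤ Real.log M :=
    Real.log_le_log (lt_of_lt_of_le one_pos (one_le_sec2 p _)) h0
  have h4 : Real.log (sec2 p (c (a + n))) ≤ Real.log M :=
    Real.log_le_log (lt_of_lt_of_le one_pos (one_le_sec2 p _)) h1
  have h5 := hlow a (a + n)
  have h6 : |(a : ℝ) - ((a + n : ℤ) : ℝ)| = n := by
    push_cast
    rw [show (a : ℝ) - (a + n) = -(n : ℝ) by ring, abs_neg]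
    exact abs_of_nonneg (Nat.cast_nonneg n)
  rw [h6] at h5
  have h7 : hd (c a) (c (a + n)) ≤ Real.log 4 + (2 * Real.exp (2 * K) + n * (1 / (2 * K))) +
      Real.log M := by linarith
  have h8 : (n : ℝ) ≤ K * (Real.log 4 + (2 * Real.exp (2 * K) + n * (1 / (2 * K))) +
      Real.log M + 1) := by
    refine h5.trans ?_
    gcongr
  have h9 : K * (Real.log 4 + (2 * Real.exp (2 * K) + n * (1 / (2 * K))) + Real.log M + 1) =
      K * (Real.log 4 + 2 * Real.exp (2 * K) + Real.log M + 1) + n / 2 := by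
    field_simp
    ring
  rw [h9] at h8
  linarith

theorem morse_vert {K : ℝ} (hK : 1 ≤ K) : ∃ C : ℝ, ∀ {m : ℕ} (p : E m) (c : ℤ → HPt m),
    (∀ i j : ℤ, hd (c i) (c j) ≤ K * (|(i : ℝ) - j| + 1)) →
    (∀ i j : ℤ, |(i : ℝ) - j| ≤ K * (hd (c i) (c j) + 1)) →
    (∃ M : ℝ, ∀ i, sec2 p (c i) ≤ M) → ∀ i, sec2 p (c i) ≤ C := by
  have hK0 : 0 < K := by linarith
  obtain ⟨S, hS⟩ : ∃ S, S = 2 * K * Real.exp (2 * K) := ⟨_, rfl⟩
  have hS0 : 0 < S := by
    rw [hS]
    positivity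
  obtain ⟨B, hB⟩ : ∃ B, B = 2 * K * (Real.log 4 + 2 * Real.exp (2 * K) + Real.log (S ^ 2) + 1) :=
    ⟨_, rfl⟩
  obtain ⟨C', hC'0, hC'⟩ := sec2_le (K * (B + 1))
  refine ⟨max (S ^ 2) (C' * S ^ 2), ?_⟩
  intro m p c hup hlow hM i
  by_cases hi : moS p (c i) ≤ S
  · refine le_trans ?_ (le_max_left _ _)
    rw [← moS_sq]
    have := one_le_moS p (c i)
    gcongr
  push Not at hi
  obtain ⟨M, hM⟩ := hM
  have hM0 : 0 < M := lt_of_lt_of_le one_pos ((one_le_sec2 p _).trans (hM i))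
  -- reflected curve
  have hup' : ∀ i j : ℤ, hd (c (-i)) (c (-j)) ≤ K * (|(i : ℝ) - j| + 1) := by
    intro i j
    have h := hup (-i) (-j)
    have h2 : |((-i : ℤ) : ℝ) - ((-j : ℤ) : ℝ)| = |(i : ℝ) - j| := by
      push_cast
      rw [show -(i : ℝ) - -(j : ℝ) = -((i : ℝ) - j) by ring, abs_neg]
    rwa [h2] at h
  have hlow' : ∀ i j : ℤ, |(i : ℝ) - j| ≤ K * (hd (c (-i)) (c (-j)) + 1) := by
    intro i j
    have h := hlow (-i) (-j)
    have h2 : |((-i : ℤ) : ℝ) - ((-j : ℤ) : ℝ)| = |(i : ℝ) - j| := by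
      push_cast
      rw [show -(i : ℝ) - -(j : ℝ) = -((i : ℝ) - j) by ring, abs_neg]
    rwa [h2] at h
  -- the curve comes back on both sides
  have hex : ∃ n : ℕ, moS p (c (i + n)) ≤ S := by
    by_contra hcon
    push Not at hcon
    obtain ⟨n, hn⟩ := exists_nat_gt (2 * K * (Real.log 4 + 2 * Real.exp (2 * K) + Real.log M + 1))
    have h := mo_short hK hS p c hup hlow i n (fun k _ _ => hcon k) hM0 (hM _) (hM _)
    linarith
  have hex' : ∃ n : ℕ, moS p (c (i - n)) ≤ S := by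
    by_contra hcon
    push Not at hcon
    obtain ⟨n, hn⟩ := exists_nat_gt (2 * K * (Real.log 4 + 2 * Real.exp (2 * K) + Real.log M + 1))
    have h := mo_short hK hS p (fun k => c (-k)) hup' hlow' (-i) n (fun k _ _ => by
      have h1 := hcon k
      have h2 : -(-i + (k : ℤ)) = i - k := by ring
      simp only [h2]
      exact h1) hM0 (hM _) (hM _)
    linarith
  classical
  obtain ⟨b, hb, hbmin⟩ : ∃ b : ℕ, moS p (c (i + b)) ≤ S ∧
      ∀ k < b, S < moS p (c (i + k)) := by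
    refine ⟨Nat.find hex, Nat.find_spec hex, fun k hk => ?_⟩
    have := Nat.find_min hex hk
    push Not at this
    exact this
  obtain ⟨a, ha, hamin⟩ : ∃ a : ℕ, moS p (c (i - a)) ≤ S ∧
      ∀ k < a, S < moS p (c (i - k)) := by
    refine ⟨Nat.find hex', Nat.find_spec hex', fun k hk => ?_⟩
    have := Nat.find_min hex' hk
    push Not at this
    exact this
  have hsec : ∀ j, moS p (c j) ≤ S → sec2 p (c j) ≤ S ^ 2 := by
    intro j hj
    rw [← moS_sq]
    have := one_le_moS p (c j)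
    gcongr
  have hab := mo_short hK hS p c hup hlow (i - a) (a + b) (fun k hk0 hk => by
    rcases lt_or_ge k a with h1 | h1
    · have h2 := hamin (a - k) (by omega)
      have h3 : i - ((a - k : ℕ) : ℤ) = i - a + k := by
        rw [Nat.cast_sub h1.le]
        ring
      rwa [h3] at h2
    · have h2 := hbmin (k - a) (by omega)
      have h3 : i + ((k - a : ℕ) : ℤ) = i - a + k := by
        rw [Nat.cast_sub h1]
        ring
      rwa [h3] at h2) (M := S ^ 2) (by positivity) (hsec _ ha) (by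
    have h3 : i - (a : ℤ) + ((a + b : ℕ) : ℤ) = i + b := by
      push_cast
      ring
    rw [h3]
    exact hsec _ hb)
  rw [← hB] at hab
  have h4 : (a : ℝ) ≤ B := by
    have h5 : (a : ℝ) ≤ ((a + b : ℕ) : ℝ) := by exact_mod_cast Nat.le_add_right a b
    linarith
  have h5 : hd (c (i - a)) (c i) ≤ K * (B + 1) := by
    refine (hup _ _).trans ?_
    have h6 : |((i - (a : ℤ) : ℤ) : ℝ) - (i : ℝ)| = a := by
      push_cast
      rw [show (i : ℝ) - a - i = -(a : ℝ) by ring, abs_neg]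
      exact abs_of_nonneg (Nat.cast_nonneg a)
    rw [h6]
    gcongr
  refine le_trans ?_ (le_max_right _ _)
  refine (hC' p _ _ h5).trans ?_
  have := hsec _ ha
  gcongr

end QIG
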