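import Pool.Agent.W_a51130_h62.VMap
import Pool.Agent.W_a51130_h62.Morse

/-!
Images of vertical lines over base points are uniformly close to vertical lines.

PROOF.  Let `p = bp γ`, `γ` not parabolic, `g' = F γ` (not parabolic, `PieceMap.par_iff`), `p' = bp g'`.  Let
`c_n = Φ (p, e^n)`, `n ∈ ℤ`.  `hd ((p,e^i),(p,e^j))` is between `|i-j|` and `|i-j| + log 2`, so `c` satisfies the two
quasi-geodesic hypotheses of `morse_vert`, with a constant depending on `K` only.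
A priori bound `M` (may depend on `γ`): `n ≥ 0`: let `v` be a lattice vector near `p`; `(p,e^n)` is within bounded `hd`
of `P.vx (tr v) n = (v, e^n)`, so `c_n` is near `P'.vx (F (tr v)) n = (w, e^n)` (`F (tr v)` is parabolic, `= transl w`);
`sec2 p' (w,e^n) ≤ 1 + ‖w-p'‖²`; use `sec2_le`.  `n < 0`: `γ⁻¹(p,e^n) = (b, s e^(-n))`, `b = bb γ`, `s = bs γ` (normal form
of the inverse).  Let `μ` be a lattice vector near `b`.  If `s e^(-n) ≥ 1`, `k = ⌊log(s e^(-n))⌋`, the point is within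
bounded `hd` of `P.vx (γ tr μ) k`, so `c_n` is near `P'.vx (F(γ tr μ)) k = g'(μ', e^k)` with `F(γ tr μ) = F γ tr μ'`
(`PieceMap.lat`).  By the normal form of `g'`: `sec2 p' (g'(μ',e^k)) = 1 + ‖μ'-b'‖²/e^(2k) ≤ 1 + ‖μ'-b'‖²`, `b' = bb g'`.
The finitely many remaining `n` are no problem (a finite maximum).
Then `morse_vert` gives a uniform bound at the points `(p,e^n)`, and `sec2_le` for all `(p,t)`.
-/

namespace QIG

variable {m : ℕ}

/-- `sec2` of a point at height `e^k`, `k ≥ 0`. -/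
theorem bdl_sec2_le (p w : E m) (k : ℕ) :
    sec2 p ⟨w, Real.exp k, Real.exp_pos _⟩ ≤ 1 + ‖w - p‖ ^ 2 := by
  unfold sec2
  simp only
  have h1 : (1 : ℝ) ≤ Real.exp k := Real.one_le_exp (Nat.cast_nonneg k)
  have h2 : (1 : ℝ) ≤ Real.exp k ^ 2 := one_le_pow₀ h1
  have h3 : 0 ≤ ‖w - p‖ ^ 2 := sq_nonneg _
  rw [div_le_iff₀ (by linarith)]
  nlinarith

/-- `sec2` of the image of a point at height `e^k`, `k ≥ 0`, under an isometry in normal form. -/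
theorem bdl_sec2_inv {g : Equiv.Perm (HPt m)} {p b : E m} {s : ℝ} {A : E m ≃ₗᵢ[ℝ] E m}
    (h : IsInv g p b s A) (w : E m) (k : ℕ) :
    sec2 p (g ⟨w, Real.exp k, Real.exp_pos _⟩) ≤ 1 + ‖w - b‖ ^ 2 := by
  have hs := h.pos
  have ht := h.t_eq ⟨w, Real.exp k, Real.exp_pos _⟩
  have hu := h.u_eq ⟨w, Real.exp k, Real.exp_pos _⟩
  simp only at ht hu
  have h1 : (1 : ℝ) ≤ Real.exp k := Real.one_le_exp (Nat.cast_nonneg k)
  have h2 : (1 : ℝ) ≤ Real.exp k ^ 2 := one_le_pow₀ h1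
  have h3 : 0 ≤ ‖w - b‖ ^ 2 := sq_nonneg _
  set N : ℝ := ‖w - b‖ ^ 2 + Real.exp k ^ 2 with hN
  have hNpos : 0 < N := by linarith
  unfold sec2
  rw [ht, hu, add_sub_cancel_left, norm_smul, Real.norm_of_nonneg (by positivity),
    LinearIsometryEquiv.norm_map]
  rw [div_le_iff₀ (by positivity)]
  have e1 : (s / N * ‖w - b‖) ^ 2 + (s * Real.exp k / N) ^ 2 = (s / N) ^ 2 * N := by
    rw [hN]
    ring
  have e2 : (s * Real.exp k / N) ^ 2 = (s / N) ^ 2 * Real.exp k ^ 2 := by ring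
  rw [e1, e2]
  have h4 : N ≤ (1 + ‖w - b‖ ^ 2) * Real.exp k ^ 2 := by
    rw [hN]
    nlinarith
  have h5 : 0 ≤ (s / N) ^ 2 := sq_nonneg _
  calc (s / N) ^ 2 * N ≤ (s / N) ^ 2 * ((1 + ‖w - b‖ ^ 2) * Real.exp k ^ 2) :=
        mul_le_mul_of_nonneg_left h4 h5
    _ = _ := by ring

/-- The point of the vertical line over `g ∞` at height `s/τ`. -/
theorem bdl_inv_vert {g : Equiv.Perm (HPt m)} {p b : E m} {s : ℝ} {A : E m ≃ₗᵢ[ℝ] E m}
    (h : IsInv g p b s A) {τ t : ℝ} (hτ : 0 < τ) (ht : 0 < t) (e : τ * t = s) :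
    g ⟨b, τ, hτ⟩ = ⟨p, t, ht⟩ := by
  have h1 := h.t_eq ⟨b, τ, hτ⟩
  have h2 := h.u_eq ⟨b, τ, hτ⟩
  simp only [sub_self, norm_zero] at h1 h2
  apply HPt.ext
  · rw [h2, map_zero, smul_zero, add_zero]
  · rw [h1]
    simp only
    rw [← e]
    field_simp
    ring

/-- A priori bound on the upper half of the line. -/
theorem bdl_upper {P P' : Piece m} {F : P.Γ → P'.Γ} {F' : P'.Γ → P.Γ}
    (hF : PieceMap P P' F F') {Φ : HPt m → HPt m} {K : ℝ}
    (h1 : ∀ x y, hd (Φ x) (Φ y) ≤ K * (hd x y + 1)) (hK : 1 ≤ K)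
    (h3 : ∀ g n, hd (Φ (P.vx g n)) (P'.vx (F g) n) ≤ K) (p p' : E m) :
    ∃ M : ℝ, ∀ n : ℕ, sec2 p' (Φ ⟨p, Real.exp n, Real.exp_pos _⟩) ≤ M := by
  obtain ⟨ρ, hρ, hcov⟩ := P.lat_cover
  obtain ⟨v, hv⟩ := hcov p
  obtain ⟨r0, hr0, hr0'⟩ := exists_hd_le (max ρ 1)
  have hpar : P'.Par (F (P.tr v)) := (hF.par_iff _).2 (P.par_tr v)
  obtain ⟨w, hw⟩ := (P'.par_iff _).1 hpar
  obtain ⟨C, hC, hC'⟩ := sec2_le (K * (r0 + 2))
  refine ⟨C * (1 + ‖(w : E m) - p'‖ ^ 2), fun n => ?_⟩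
  have e1 : P.vx (P.tr v) n = ⟨(v : E m), Real.exp n, Real.exp_pos _⟩ := by
    rw [pcv_vx, pcv_tr P 1]
  have e2 : P'.vx (F (P.tr v)) n = ⟨(w : E m), Real.exp n, Real.exp_pos _⟩ := by
    rw [hw, pcv_vx, pcv_tr P' 1]
  have hexp : (1 : ℝ) ≤ Real.exp n := Real.one_le_exp (Nat.cast_nonneg n)
  have d1 : hd (⟨p, Real.exp n, Real.exp_pos _⟩ : HPt m) (P.vx (P.tr v) n) ≤ r0 := by
    rw [e1]
    apply hr0'
    · simp only
      have h2 : ρ ≤ max ρ 1 := le_max_left _ _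
      have h3 : (0 : ℝ) < max ρ 1 := lt_of_lt_of_le hρ h2
      nlinarith
    · simp only
      have h2 : (1 : ℝ) ≤ max ρ 1 := le_max_right _ _
      nlinarith
    · simp only
      have h2 : (1 : ℝ) ≤ max ρ 1 := le_max_right _ _
      nlinarith
  have d2 : hd (Φ ⟨p, Real.exp n, Real.exp_pos _⟩) (P'.vx (F (P.tr v)) n) ≤ K * (r0 + 2) := by
    have := hd_triangle (Φ ⟨p, Real.exp n, Real.exp_pos _⟩) (Φ (P.vx (P.tr v) n))
      (P'.vx (F (P.tr v)) n)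
    have a1 := h1 ⟨p, Real.exp n, Real.exp_pos _⟩ (P.vx (P.tr v) n)
    have a2 := h3 (P.tr v) n
    have a3 : K * (hd ⟨p, Real.exp n, Real.exp_pos _⟩ (P.vx (P.tr v) n) + 1) ≤ K * (r0 + 1) := by
      apply mul_le_mul_of_nonneg_left _ (by linarith)
      linarith
    linarith
  rw [hd_comm] at d2
  refine (hC' p' _ _ d2).trans ?_
  apply mul_le_mul_of_nonneg_left _ hC.le
  rw [e2]
  exact bdl_sec2_le p' w n

/-- A priori bound on the lower half of the line. -/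
theorem bdl_lower {P P' : Piece m} {F : P.Γ → P'.Γ} {F' : P'.Γ → P.Γ}
    (hF : PieceMap P P' F F') {Φ : HPt m → HPt m} {K : ℝ}
    (h1 : ∀ x y, hd (Φ x) (Φ y) ≤ K * (hd x y + 1)) (hK : 1 ≤ K)
    (h3 : ∀ g n, hd (Φ (P.vx g n)) (P'.vx (F g) n) ≤ K) (γ : P.Γ) (hγ : ¬ P.Par γ) :
    ∃ M : ℝ, ∀ n : ℕ, sec2 (bp (F γ).1) (Φ ⟨bp γ.1, Real.exp (-(n : ℝ)), Real.exp_pos _⟩) ≤ M := by
  have hγ' : ¬ P'.Par (F γ) := fun h => hγ ((hF.par_iff _).1 h)
  have hI := P.isInv hγ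
  have hI' := P'.isInv hγ'
  obtain ⟨ρ, hρ, hcov⟩ := P.lat_cover
  obtain ⟨μ, hμ⟩ := hcov (bb γ.1)
  obtain ⟨K2, hK2⟩ := hF.lat
  obtain ⟨μ', hμ', -⟩ := hK2 γ μ
  set s : ℝ := bs γ.1 with hs
  have hspos : 0 < s := hI.pos
  set A : ℝ := max (Real.exp 1) (max (1 / s) (ρ / s)) with hA
  have hA1 : Real.exp 1 ≤ A := le_max_left _ _
  have hA2 : 1 / s ≤ A := (le_max_left _ _).trans (le_max_right _ _)
  have hA3 : ρ / s ≤ A := (le_max_right _ _).trans (le_max_right _ _)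
  have hA0 : 1 ≤ A := (Real.one_le_exp zero_le_one).trans hA1
  obtain ⟨r0, hr0, hr0'⟩ := exists_hd_le A
  obtain ⟨C, hC, hC'⟩ := sec2_le (K * (r0 + 2))
  refine ⟨C * (1 + ‖(μ' : E m) - bb (F γ).1‖ ^ 2), fun n => ?_⟩
  set T : ℝ := s * Real.exp n with hT
  have hTpos : 0 < T := by positivity
  have hexp : (1 : ℝ) ≤ Real.exp n := Real.one_le_exp (Nat.cast_nonneg n)
  have hTs : s ≤ T := by nlinarith
  set k : ℕ := ⌊Real.log T⌋₊ with hk
  have e1 : γ.1 ⟨bb γ.1, T, hTpos⟩ = ⟨bp γ.1, Real.exp (-(n : ℝ)), Real.exp_pos _⟩ := by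
    apply bdl_inv_vert hI
    rw [hT, mul_assoc, ← Real.exp_add, add_neg_cancel, Real.exp_zero, mul_one]
  have e2 : P.vx (γ * P.tr μ) k = γ.1 ⟨(μ : E m), Real.exp k, Real.exp_pos _⟩ := by
    rw [pcv_vx]
    have : (γ * P.tr μ).1 = γ.1 * (P.tr μ).1 := rfl
    rw [this, Equiv.Perm.mul_apply, pcv_tr P 1]
  have e3 : P'.vx (F (γ * P.tr μ)) k = (F γ).1 ⟨(μ' : E m), Real.exp k, Real.exp_pos _⟩ := by
    rw [hμ', pcv_vx]
    have : (F γ * P'.tr μ').1 = (F γ).1 * (P'.tr μ').1 := rfl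
    rw [this, Equiv.Perm.mul_apply, pcv_tr P' 1]
  have b1 : Real.exp k ≤ A * T ∧ T ≤ A * Real.exp k := by
    rcases le_or_gt 0 (Real.log T) with hl | hl
    · have c1 : (k : ℝ) ≤ Real.log T := Nat.floor_le hl
      have c2 : Real.log T < k + 1 := Nat.lt_floor_add_one _
      have c3 : Real.exp k ≤ T := by
        have := Real.exp_le_exp.2 c1
        rwa [Real.exp_log hTpos] at this
      have c4 : T ≤ Real.exp 1 * Real.exp k := by
        have := Real.exp_le_exp.2 c2.le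
        rw [Real.exp_log hTpos, Real.exp_add] at this
        linarith
      constructor
      · nlinarith
      · exact c4.trans (mul_le_mul_of_nonneg_right hA1 (Real.exp_pos _).le)
    · have c1 : k = 0 := Nat.floor_of_nonpos hl.le
      have c2 : T < 1 := by
        by_contra hc
        push Not at hc
        exact absurd (Real.log_nonneg hc) (not_le.2 hl)
      rw [c1]
      simp only [Nat.cast_zero, Real.exp_zero, mul_one]
      constructor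
      · have c3 : 1 / s * s ≤ A * T := mul_le_mul hA2 hTs hspos.le (by linarith)
        rwa [one_div_mul_cancel hspos.ne'] at c3
      · linarith
  have d1 : hd (⟨bp γ.1, Real.exp (-(n : ℝ)), Real.exp_pos _⟩ : HPt m)
      (P.vx (γ * P.tr μ) k) ≤ r0 := by
    rw [← e1, e2, hd_isom (P.isom' γ)]
    apply hr0'
    · simp only
      have c3 : ρ / s * s ≤ A * T := mul_le_mul hA3 hTs hspos.le (by linarith)
      rw [div_mul_cancel₀ _ hspos.ne'] at c3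
      exact hμ.trans c3
    · exact b1.1
    · exact b1.2
  have d2 : hd (Φ ⟨bp γ.1, Real.exp (-(n : ℝ)), Real.exp_pos _⟩)
      (P'.vx (F (γ * P.tr μ)) k) ≤ K * (r0 + 2) := by
    have := hd_triangle (Φ ⟨bp γ.1, Real.exp (-(n : ℝ)), Real.exp_pos _⟩)
      (Φ (P.vx (γ * P.tr μ) k)) (P'.vx (F (γ * P.tr μ)) k)
    have a1 := h1 ⟨bp γ.1, Real.exp (-(n : ℝ)), Real.exp_pos _⟩ (P.vx (γ * P.tr μ) k)
    have a2 := h3 (γ * P.tr μ) k
    have a3 : K * (hd ⟨bp γ.1, Real.exp (-(n : ℝ)), Real.exp_pos _⟩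
        (P.vx (γ * P.tr μ) k) + 1) ≤ K * (r0 + 1) := by
      apply mul_le_mul_of_nonneg_left _ (by linarith)
      linarith
    linarith
  rw [hd_comm] at d2
  refine (hC' (bp (F γ).1) _ _ d2).trans ?_
  apply mul_le_mul_of_nonneg_left _ hC.le
  rw [e3]
  exact bdl_sec2_inv hI' μ' k

theorem line_image {P P' : Piece m} {F : P.Γ → P'.Γ} {F' : P'.Γ → P.Γ}
    (hF : PieceMap P P' F F') {Φ : HPt m → HPt m} {K : ℝ} (hK : 1 ≤ K)
    (h1 : ∀ x y, hd (Φ x) (Φ y) ≤ K * (hd x y + 1))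
    (h2 : ∀ x y, hd x y ≤ K * (hd (Φ x) (Φ y) + 1))
    (h3 : ∀ g n, hd (Φ (P.vx g n)) (P'.vx (F g) n) ≤ K) :
    ∃ C : ℝ, ∀ γ : P.Γ, ¬ P.Par γ → ∀ (t : ℝ) (ht : 0 < t),
      sec2 (bp (F γ).1) (Φ ⟨bp γ.1, t, ht⟩) ≤ C := by
  obtain ⟨C, hC⟩ := morse_vert (K := 2 * K) (by linarith)
  obtain ⟨C1, hC1, hC1'⟩ := sec2_le (K * 3)
  have hlog2 : Real.log 2 ≤ 1 := by
    have := Real.log_two_lt_d9
    linarith
  refine ⟨C1 * C, fun γ hγ t ht => ?_⟩
  let c : ℤ → HPt m := fun n => Φ ⟨bp γ.1, Real.exp n, Real.exp_pos _⟩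
  have hc : ∀ i, sec2 (bp (F γ).1) (c i) ≤ C := by
    apply hC
    · intro i j
      refine (h1 _ _).trans ?_
      have a1 := hd_vert (bp γ.1) (Real.exp_pos (i : ℝ)) (Real.exp_pos (j : ℝ))
      rw [Real.log_exp, Real.log_exp, abs_sub_comm] at a1
      have a2 : 0 ≤ |(i : ℝ) - j| := abs_nonneg _
      nlinarith
    · intro i j
      have a1 := log_sub_log_le_hd (⟨bp γ.1, Real.exp (i : ℝ), Real.exp_pos _⟩ : HPt m)
        ⟨bp γ.1, Real.exp (j : ℝ), Real.exp_pos _⟩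
      simp only [Real.log_exp] at a1
      rw [abs_sub_comm] at a1
      have a2 := h2 ⟨bp γ.1, Real.exp (i : ℝ), Real.exp_pos _⟩
        ⟨bp γ.1, Real.exp (j : ℝ), Real.exp_pos _⟩
      have a3 := (hd_pos (c i) (c j)).le
      have a4 : hd (c i) (c j) = hd (Φ ⟨bp γ.1, Real.exp (i : ℝ), Real.exp_pos _⟩)
        (Φ ⟨bp γ.1, Real.exp (j : ℝ), Real.exp_pos _⟩) := rfl
      rw [a4] at a3 ⊢
      nlinarith
    · obtain ⟨M1, hM1⟩ := bdl_upper hF h1 hK h3 (bp γ.1) (bp (F γ).1)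
      obtain ⟨M2, hM2⟩ := bdl_lower hF h1 hK h3 γ hγ
      refine ⟨max M1 M2, fun i => ?_⟩
      rcases Int.eq_nat_or_neg i with ⟨n, rfl | rfl⟩
      · refine le_trans ?_ (le_max_left _ _)
        have := hM1 n
        have e : c (n : ℤ) = Φ ⟨bp γ.1, Real.exp n, Real.exp_pos _⟩ := by
          simp [c]
        rw [e]
        exact this
      · refine le_trans ?_ (le_max_right _ _)
        have := hM2 n
        have e : c (-(n : ℤ)) = Φ ⟨bp γ.1, Real.exp (-(n : ℝ)), Real.exp_pos _⟩ := by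
          simp [c]
        rw [e]
        exact this
  have b1 : hd (c ⌊Real.log t⌋) (Φ ⟨bp γ.1, t, ht⟩) ≤ K * 3 := by
    refine (h1 _ _).trans ?_
    have a1 := hd_vert (bp γ.1) (Real.exp_pos ((⌊Real.log t⌋ : ℤ) : ℝ)) ht
    rw [Real.log_exp] at a1
    have a2 : |Real.log t - (⌊Real.log t⌋ : ℝ)| ≤ 1 := by
      rw [abs_le]
      have := Int.floor_le (Real.log t)
      have := Int.lt_floor_add_one (Real.log t)
      constructor <;> linarith
    apply mul_le_mul_of_nonneg_left _ (by linarith)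
    linarith
  exact (hC1' _ _ _ b1).trans (mul_le_mul_of_nonneg_left (hc _) hC1.le)

end QIG
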