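import Pool.Agent.W_a51130_h62.PcDefs

/-!
The cusp lattice.

PROOFS.  `lat_finite`: `chd o (transl v o) = ‖v‖²/2`, so `P.discrete`.  Hence the lattice is discrete, and spans by
`P.toric`: it is a `ZLattice` (`IsZLattice ℝ`), which gives a `ℤ`-basis that is an `ℝ`-basis
(`ZLattice` API: `Module.Basis.ofZLatticeBasis`, `ZLattice.rank`, reindex to `Fin m`).
`lat_cover`: round the coordinates.  `exists_extension`: the image of a `ℤ`-basis of `P.lat` under `ψ` is a
`ℤ`-basis of `P'.lat`; for two lattices of full rank it is an `ℝ`-basis (its `ℤ`-span is `P'.lat`, whose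
`ℝ`-span is everything, and it has `m` elements).
-/

namespace QIG

variable {m : ℕ} (P : Piece m)

theorem Piece.lat_finite (r : ℝ) : {v : P.lat | ‖(v : E m)‖ ≤ r}.Finite := by
  refine Set.Finite.of_finite_image (f := fun v : P.lat => transl (v : E m)) ?_ ?_
  · refine (P.discrete (r ^ 2 / 2)).subset ?_
    rintro _ ⟨v, hv, rfl⟩
    refine ⟨v.2, ?_⟩
    have hv' : ‖(v : E m)‖ ≤ r := hv
    have h1 : chd (base m) (transl (v : E m) (base m)) = ‖(v : E m)‖ ^ 2 / 2 := by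
      unfold chd
      simp [base]
    rw [h1]
    have h2 := norm_nonneg (v : E m)
    gcongr
  · intro v _ w _ h
    exact Subtype.ext (transl_injective h)

/-- The cusp lattice as a submodule. -/
def Piece.latZ : Submodule ℤ (E m) := AddSubgroup.toIntSubmodule P.lat

theorem Piece.mem_latZ (v : E m) : v ∈ P.latZ ↔ v ∈ P.lat := Iff.rfl

theorem Piece.discrete_latZ : DiscreteTopology P.latZ := by
  refine discreteTopology_of_isOpen_singleton_zero ?_
  -- the nonzero vectors of norm at most one are finitely many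
  have hfin : {v : E m | v ∈ P.lat ∧ ‖v‖ ≤ 1 ∧ v ≠ 0}.Finite := by
    refine ((P.lat_finite 1).image (fun v : P.lat => (v : E m))).subset ?_
    rintro v ⟨hv, hn, _⟩
    exact ⟨⟨v, hv⟩, hn, rfl⟩
  have hcl : IsClosed {v : E m | v ∈ P.lat ∧ ‖v‖ ≤ 1 ∧ v ≠ 0} := hfin.isClosed
  have hopen : IsOpen (Metric.ball (0 : E m) 1 ∩ {v : E m | v ∈ P.lat ∧ ‖v‖ ≤ 1 ∧ v ≠ 0}ᶜ) :=
    Metric.isOpen_ball.inter hcl.isOpen_compl
  have heq : ({0} : Set P.latZ) = (fun v : P.latZ => (v : E m)) ⁻¹'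
      (Metric.ball (0 : E m) 1 ∩ {v : E m | v ∈ P.lat ∧ ‖v‖ ≤ 1 ∧ v ≠ 0}ᶜ) := by
    ext v
    constructor
    · rintro rfl
      refine ⟨?_, ?_⟩
      · simp
      · rintro ⟨_, _, h⟩
        exact h rfl
    · rintro ⟨h1, h2⟩
      rw [mem_ball_zero_iff] at h1
      by_contra hne
      exact h2 ⟨v.2, h1.le, fun h => hne (Subtype.ext h)⟩
  rw [heq]
  exact hopen.preimage continuous_subtype_val

theorem Piece.exists_basis : ∃ b : Module.Basis (Fin m) ℝ (E m), P.IsBasis b := by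
  have h1 : DiscreteTopology P.latZ := P.discrete_latZ
  have h2 : IsZLattice ℝ P.latZ := ⟨by
    have := P.toric
    exact this⟩
  have hfr : Module.finrank ℤ P.latZ = m := by
    rw [ZLattice.rank ℝ P.latZ]
    simp
  have hfree : Module.Free ℤ P.latZ := ZLattice.module_free ℝ P.latZ
  have hfin : Module.Finite ℤ P.latZ := ZLattice.module_finite ℝ P.latZ
  let b' : Module.Basis (Fin m) ℤ P.latZ := Module.finBasisOfFinrankEq ℤ P.latZ hfr
  refine ⟨b'.ofZLatticeBasis ℝ P.latZ, fun v => ?_⟩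
  constructor
  · intro hv
    obtain ⟨w, hw⟩ : ∃ w : P.latZ, (w : E m) = v := ⟨⟨v, hv⟩, rfl⟩
    have h3 := b'.sum_repr w
    refine ⟨fun i => b'.repr w i, ?_⟩
    have h4 := congrArg (fun w : P.latZ => (w : E m)) h3
    simp only [Module.Basis.ofZLatticeBasis_apply]
    simp only [Submodule.coe_sum, Submodule.coe_smul] at h4
    simp only [Int.cast_smul_eq_zsmul]
    rw [← hw]
    exact h4.symm
  · rintro ⟨k, rfl⟩
    have h5 : ∑ i, ((k i : ℝ)) • (b'.ofZLatticeBasis ℝ P.latZ) i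
        = ((∑ i, k i • b' i : P.latZ) : E m) := by
      simp [Int.cast_smul_eq_zsmul]
    rw [h5]
    exact (∑ i, k i • b' i : P.latZ).2

theorem Piece.lat_cover : ∃ ρ : ℝ, 0 < ρ ∧ ∀ x : E m, ∃ v : P.lat, ‖x - v‖ ≤ ρ := by
  obtain ⟨b, hb⟩ := P.exists_basis
  refine ⟨∑ i, ‖b i‖ + 1, by positivity, fun x => ?_⟩
  have hv : ∑ i, ((round (b.repr x i) : ℤ) : ℝ) • b i ∈ P.lat := (hb _).2 ⟨_, rfl⟩
  refine ⟨⟨_, hv⟩, ?_⟩
  have h1 : x - ∑ i, ((round (b.repr x i) : ℤ) : ℝ) • b i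
      = ∑ i, (b.repr x i - ((round (b.repr x i) : ℤ) : ℝ)) • b i := by
    simp only [sub_smul, Finset.sum_sub_distrib, b.sum_repr]
  change ‖x - ∑ i, ((round (b.repr x i) : ℤ) : ℝ) • b i‖ ≤ _
  rw [h1]
  refine (norm_sum_le _ _).trans ?_
  have h2 : ∀ i, ‖(b.repr x i - ((round (b.repr x i) : ℤ) : ℝ)) • b i‖ ≤ ‖b i‖ := by
    intro i
    rw [norm_smul, Real.norm_eq_abs]
    have h3 := abs_sub_round (b.repr x i)
    have h4 := norm_nonneg (b i)
    nlinarith
  refine (Finset.sum_le_sum fun i _ => h2 i).trans ?_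
  linarith

theorem Piece.IsBasis.mem {P : Piece m} {b : Module.Basis (Fin m) ℝ (E m)} (hb : P.IsBasis b)
    (i : Fin m) : b i ∈ P.lat := by
  refine (hb _).2 ⟨fun j => if j = i then 1 else 0, ?_⟩
  simp

theorem Piece.span_lat : Submodule.span ℝ (P.lat : Set (E m)) = ⊤ := P.toric

theorem exists_extension (P P' : Piece m) (ψ : P.lat ≃+ P'.lat) :
    ∃ Ψ : E m ≃L[ℝ] E m, ∀ v : P.lat, Ψ (v : E m) = (ψ v : E m) := by
  obtain ⟨b, hb⟩ := P.exists_basis
  let L : E m →ₗ[ℝ] E m := b.constr ℝ (fun i => ((ψ ⟨b i, hb.mem i⟩ : P'.lat) : E m))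
  have hL : ∀ v : P.lat, L (v : E m) = (ψ v : E m) := by
    intro v
    obtain ⟨k, hk⟩ := (hb v).1 v.2
    have h1 : v = ∑ i, k i • (⟨b i, hb.mem i⟩ : P.lat) := by
      apply Subtype.ext
      rw [hk]
      simp [Int.cast_smul_eq_zsmul]
    have h2 : ψ v = ∑ i, k i • ψ ⟨b i, hb.mem i⟩ := by
      conv_lhs => rw [h1]
      rw [map_sum]
      simp only [map_zsmul]
    rw [h2, hk, map_sum]
    simp only [map_smul, L, Module.Basis.constr_basis]
    simp [Int.cast_smul_eq_zsmul]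
  have hsurj : Function.Surjective L := by
    rw [← LinearMap.range_eq_top, ← top_le_iff, ← P'.span_lat, Submodule.span_le]
    intro w hw
    refine ⟨((ψ.symm ⟨w, hw⟩ : P.lat) : E m), ?_⟩
    rw [hL]
    simp
  have hinj : Function.Injective L := LinearMap.injective_iff_surjective.2 hsurj
  refine ⟨(LinearEquiv.ofBijective L ⟨hinj, hsurj⟩).toContinuousLinearEquiv, fun v => ?_⟩
  exact hL v

theorem exists_lat_iso (P P' : Piece m) : Nonempty (P.lat ≃+ P'.lat) := by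
  obtain ⟨b, hb⟩ := P.exists_basis
  obtain ⟨b', hb'⟩ := P'.exists_basis
  let e : E m ≃ₗ[ℝ] E m := b.equiv b' (Equiv.refl _)
  have h1 : ∀ v ∈ P.lat, e v ∈ P'.lat := by
    intro v hv
    obtain ⟨k, hk⟩ := (hb v).1 hv
    refine (hb' _).2 ⟨k, ?_⟩
    rw [hk, map_sum]
    simp [e]
  have h2 : ∀ v ∈ P'.lat, e.symm v ∈ P.lat := by
    intro v hv
    obtain ⟨k, hk⟩ := (hb' v).1 hv
    refine (hb _).2 ⟨k, ?_⟩
    rw [LinearEquiv.symm_apply_eq, hk, map_sum]
    simp [e]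
  exact ⟨{ toFun := fun v => ⟨e v, h1 v v.2⟩
           invFun := fun v => ⟨e.symm v, h2 v v.2⟩
           left_inv := fun v => Subtype.ext (e.symm_apply_apply _)
           right_inv := fun v => Subtype.ext (e.apply_symm_apply _)
           map_add' := fun v w => Subtype.ext (map_add e _ _) }⟩

end QIG
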