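import Pool.Agent.W_a51130_h62.PcBasic
import Pool.Agent.W_a51130_h62.PcLat

/-!
The packing of base points of a piece.

NOTATION: for `g` not parabolic, `p = bp g`, `s = bs g`, `b = bb g`, `A = bA g`.  If `γ` is not parabolic and `g γ` is
not parabolic, `q = bp (gγ)`, then by `bp_ne` (for `g, gγ`): `‖q-p‖² = bs g bs (gγ)/bs γ` and
`wc sz p q = A (bp γ - bb g)`  (*).

PROOFS.
`shift`: fix `δ` not parabolic (`exists_not_par`), `D₀ = 1/bs δ`.  Given `p = bp g`; choose `λ₀` with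
`‖λ₀ + bp δ - bb g‖ ≤ ρ` (covering radius), `w₀ = A(λ₀ + bp δ - bb g)`.  For `k`, `λ = ∑ k_i b_i ∈ lat`, put
`γ = tr (λ₀+λ) δ`: `bp γ = bp δ + λ₀ + λ`, `bs γ = bs δ` (`IsInv.transl_mul`).  If `gγ` were parabolic then
`bp γ = bp (g⁻¹ · transl) = bp g⁻¹ = bb g`, i.e. `w₀ + A λ = 0`, excluded.  So (*) applies.
`thick`: fix `δ` as before.  Let `x ∉ Q`, `r₀ > 0`.  First: for all small `t` there is `t' ≤ t` with `(x,t')` in no horoball
`{(g⁻¹y).t > 1}`: if `(x,t)` (`t < 1`) is in the horoball of `g`, with base `p ≠ x` and size `s`, let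
`0 < α < t` be the smaller root of `t'² - s t' + ‖x-p‖² = 0`; `(g⁻¹(x,α)).t = 1`, and any other horoball would contain a point
at height `> 1/2` in two ways (`par_of_deep`).  By `near_or_deep 1`, `hd (x,t') (g o) ≤ R` for some `g`, which is not parabolic
if `t'` is small.  Let `M₁ = max (‖bp δ‖+1) (‖bb δ‖+bs δ)`.  If `‖bb g‖ ≤ M₁` put `g' = g`; otherwise `g' = gδ`:
by `IsInv.mul`, `gδ` is not parabolic and `‖bb (gδ) - bb δ‖ ≤ bs δ/‖bp δ - bb g‖ ≤ bs δ`.  So `‖bb g'‖ ≤ M₁` and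
`hd (g' o) (x,t') ≤ R'`.  `t(g' o) = s'/(‖bb g'‖²+1)` is comparable with `t'`, so `s' = bs g'` is too, and
`‖u(g' o) - bp g'‖ ≤ s'/2` (`IsInv.norm_u_sub`).
`gap`: let `p = bp g`, `q_i = bp g_i`, `γ_i = g⁻¹g_i`; not parabolic (`coset`, `q_i ≠ p`), `bs γ_i ≥ 1/D` (if `D ≤ 0` there are no
neighbours).  By (*) the expression is `A (bp γ₁ + bp γ₂ - 2 bp γ₃)`.  The set `{bp γ : bs γ ≥ 1/D}` is contained in
`F + lat` with `F` finite: multiply `γ` on both sides by lattice elements such that `‖bp‖, ‖bb‖ ≤ ρ`; then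
`t(γ o) = bs γ/(‖bb γ‖²+1)` is bounded below and `u(γ o)` is bounded, so `γ` is in a finite set.  So
`bp γ₁ + bp γ₂ - 2 bp γ₃ ∈ F' + lat`, `F'` finite, and the nonzero norms are bounded below by some `μ > 0`
(`lat_finite`: only finitely many elements of `F' + lat` have norm `≤ 1`).
`dense`: `thick` shows that points of `Q` are within `M r`, `r` arbitrarily small, of any `x ∉ Q`.
-/

namespace QIG

variable {m : ℕ} (P : Piece m)

theorem Piece.pcpk_notPar_of_isInv {g : P.Γ} {p b : E m} {s : ℝ} {A : E m ≃ₗᵢ[ℝ] E m}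
    (h : IsInv g.1 p b s A) : ¬ P.Par g := by
  rintro ⟨v, hv⟩
  have h1 := h.t_eq ⟨b, 1, one_pos⟩
  have h2 := h.t_eq ⟨b, 2, two_pos⟩
  rw [hv] at h1 h2
  simp only [transl_t, sub_self, norm_zero, ne_eq, OfNat.ofNat_ne_zero, not_false_eq_true,
    zero_pow, zero_add] at h1 h2
  have hs := h.pos
  norm_num at h1 h2
  linarith

theorem Piece.pcpk_sz_pos {p : E m} (hp : p ∈ P.Q) : 0 < P.sz p := by
  obtain ⟨g, hg, rfl⟩ := hp
  rw [P.sz_eq hg]
  exact (P.isInv hg).pos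

/-- Formula (*) of the docstring. -/
theorem Piece.pcpk_star {g γ : P.Γ} (hg : ¬ P.Par g) (hγ : ¬ P.Par γ) (hgγ : ¬ P.Par (g * γ)) :
    bp (g * γ).1 ≠ bp g.1 ∧
      ‖bp (g * γ).1 - bp g.1‖ ^ 2 * bs γ.1 = P.sz (bp g.1) * P.sz (bp (g * γ).1) ∧
      wc P.sz (bp g.1) (bp (g * γ).1) = bA g.1 (bp γ.1 - bb g.1) := by
  have h1 : g⁻¹ * (g * γ) = γ := by group
  have h2 := P.bp_ne hg hgγ (by rw [h1]; exact hγ)
  rw [h1] at h2
  obtain ⟨h3, h4, h5⟩ := h2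
  have h6 : 0 < ‖bp (g * γ).1 - bp g.1‖ := norm_pos_iff.mpr (sub_ne_zero.mpr h3)
  refine ⟨h3, ?_, ?_⟩
  · rw [P.sz_eq hg, P.sz_eq hgγ, h4]
    field_simp
  · rw [h5, add_sub_cancel_left, map_smul, LinearIsometryEquiv.apply_symm_apply]
    unfold wc inv1
    rw [P.sz_eq hg, smul_smul, div_eq_mul_inv]

theorem Piece.pcpk_tr_val (v : P.lat) : (P.tr v).1 = transl (v : E m) := rfl

theorem Piece.pcpk_shift (b : Module.Basis (Fin m) ℝ (E m)) (hb : P.IsBasis b) :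
    ∃ D₀ C₀ : ℝ, ∀ p ∈ P.Q, ∃ (A : E m ≃ₗᵢ[ℝ] E m) (w₀ : E m), ‖w₀‖ ≤ C₀ ∧
    ∀ k : Fin m → ℤ, w₀ + A (∑ i, (k i : ℝ) • b i) ≠ 0 →
      ∃ q ∈ P.Q, Nbr P.sz D₀ p q ∧ wc P.sz p q = w₀ + A (∑ i, (k i : ℝ) • b i) := by
  obtain ⟨δ, hδ⟩ := P.exists_not_par
  obtain ⟨ρ, hρ, hcov⟩ := P.lat_cover
  refine ⟨1 / bs δ.1, ρ, ?_⟩
  rintro p ⟨g, hg, rfl⟩
  obtain ⟨l0, hl0⟩ := hcov (bb g.1 - bp δ.1)
  have hδi := P.isInv hδ
  have hgi := P.isInv hg
  refine ⟨bA g.1, bA g.1 ((l0 : E m) + bp δ.1 - bb g.1), ?_, ?_⟩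
  · rw [LinearIsometryEquiv.norm_map]
    have e : (l0 : E m) + bp δ.1 - bb g.1 = -(bb g.1 - bp δ.1 - l0) := by abel
    rw [e, norm_neg]
    exact hl0
  · intro k hk
    set lam : E m := ∑ i, (k i : ℝ) • b i with hlam
    have hlamL : lam ∈ P.lat := (hb lam).2 ⟨k, hlam⟩
    set L : P.lat := l0 + ⟨lam, hlamL⟩ with hL
    have hLv : (L : E m) = l0 + lam := rfl
    set γ : P.Γ := P.tr L * δ with hγdef
    have hγi : IsInv γ.1 (bp δ.1 + (l0 + lam)) (bb δ.1) (bs δ.1) (bA δ.1) := by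
      have := hδi.transl_mul (L : E m)
      rw [hLv] at this
      exact this
    have hγ : ¬ P.Par γ := P.pcpk_notPar_of_isInv hγi
    obtain ⟨hγp, -, hγs, -⟩ := hγi.nf_eq
    have hw : bA g.1 ((l0 : E m) + bp δ.1 - bb g.1) + bA g.1 lam = bA g.1 (bp γ.1 - bb g.1) := by
      rw [← map_add, hγp]
      congr 1
      abel
    have hgγ : ¬ P.Par (g * γ) := by
      intro hpar
      obtain ⟨v, hv⟩ := (P.par_iff _).1 hpar
      have h1 : γ = g⁻¹ * P.tr v := by rw [← hv]; group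
      have h2 : IsInv γ.1 (bb g.1) (bp g.1 - v) (bs g.1) (bA g.1).symm := by
        rw [h1]
        exact hgi.inv.mul_transl (v : E m)
      have h3 := h2.nf_eq.1
      apply hk
      rw [hw, h3, sub_self, map_zero]
    obtain ⟨h1, h2, h3⟩ := P.pcpk_star hg hγ hgγ
    refine ⟨bp (g * γ).1, ⟨g * γ, hgγ, rfl⟩, ⟨h1, ?_⟩, ?_⟩
    · rw [← h2, hγs]
      have := hδi.pos
      apply le_of_eq
      field_simp
    · rw [h3, hw]

theorem Piece.pcpk_low {x : E m} (hx : x ∉ P.Q) {t : ℝ} (ht : 0 < t) (ht1 : t < 1) :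
    ∃ t' : ℝ, ∃ h' : 0 < t', t' ≤ t ∧ ∀ g : P.Γ, (g.1 ⟨x, t', h'⟩).t ≤ 1 := by
  by_cases hall : ∀ g : P.Γ, (g.1 ⟨x, t, ht⟩).t ≤ 1
  · exact ⟨t, ht, le_refl _, hall⟩
  · push Not at hall
    obtain ⟨g, hg1⟩ := hall
    have hg : ¬ P.Par g := by
      rintro ⟨v, hv⟩
      rw [hv] at hg1
      simp only [transl_t] at hg1
      linarith
    have hgi := P.isInv hg
    have hs := hgi.pos
    have hxb : x ≠ bb g.1 := by
      intro h
      apply hx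
      refine ⟨g⁻¹, ?_, ?_⟩
      · exact P.pcpk_notPar_of_isInv (g := g⁻¹) hgi.inv
      · rw [h]
        exact hgi.inv.nf_eq.1
    have hD : 0 < ‖x - bb g.1‖ ^ 2 := by
      have : 0 < ‖x - bb g.1‖ := norm_pos_iff.mpr (sub_ne_zero.mpr hxb)
      positivity
    rw [hgi.t_eq] at hg1
    simp only at hg1
    rw [lt_div_iff₀ (by positivity), one_mul] at hg1
    set D := ‖x - bb g.1‖ ^ 2 with hDdef
    set s := bs g.1 with hsdef
    -- root of the quadratic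
    have hcont : ContinuousOn (fun τ : ℝ => τ ^ 2 - s * τ + D) (Set.Icc 0 t) := by fun_prop
    have hivt := intermediate_value_Icc' ht.le hcont
    have h0 : (0 : ℝ) ∈ Set.Icc (t ^ 2 - s * t + D) ((0 : ℝ) ^ 2 - s * 0 + D) := by
      constructor
      · linarith
      · simp only [ne_eq, OfNat.ofNat_ne_zero, not_false_eq_true, zero_pow, mul_zero, sub_zero,
          zero_add]
        exact hD.le
    obtain ⟨α, hα, hα0⟩ := hivt h0
    simp only at hα0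
    have hαpos : 0 < α := by
      rcases lt_or_eq_of_le hα.1 with h | h
      · exact h
      · exfalso
        rw [← h] at hα0
        simp at hα0
        linarith
    have hone : (g.1 ⟨x, α, hαpos⟩).t = 1 := by
      rw [hgi.t_eq]
      simp only
      rw [div_eq_one_iff_eq (by positivity)]
      linarith
    refine ⟨α, hαpos, hα.2, ?_⟩
    intro g'
    by_contra hcon
    push Not at hcon
    have hp : P.Par ((g⁻¹)⁻¹ * g'⁻¹) := by
      apply P.par_of_deep (x := ⟨x, α, hαpos⟩)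
      · change 1 / 2 < ((g.1⁻¹)⁻¹ ⟨x, α, hαpos⟩).t
        rw [inv_inv, hone]
        norm_num
      · change 1 / 2 < ((g'.1⁻¹)⁻¹ ⟨x, α, hαpos⟩).t
        rw [inv_inv]
        linarith
    rw [inv_inv] at hp
    obtain ⟨v, hv⟩ := hp
    have h1 : g.1 = transl v * g'.1 := by
      rw [← hv]
      change g.1 = (g.1 * g'.1⁻¹) * g'.1
      group
    rw [h1] at hone
    rw [Equiv.Perm.mul_apply, transl_t] at hone
    linarith

theorem Piece.pcpk_near {δ : P.Γ} (hδ : ¬ P.Par δ) {R : ℝ} {x : E m} {t' : ℝ} (ht' : 0 < t')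
    (hlow : ∀ g : P.Γ, (g.1 ⟨x, t', ht'⟩).t ≤ 1)
    (hnear : ∀ x : HPt m, (∃ g : P.Γ, hd x (P.orb g) ≤ R) ∨ ∃ g : P.Γ, 1 < (g.1⁻¹ x).t)
    (hsmall : Real.exp R * t' < 1) :
    ∃ g' : P.Γ, ¬ P.Par g' ∧ ‖bb g'.1‖ ≤ max (‖bp δ.1‖ + 1) (‖bb δ.1‖ + bs δ.1) ∧
      hd ⟨x, t', ht'⟩ (P.orb g') ≤ R + hd (base m) (δ.1 (base m)) := by
  have hδi := P.isInv hδ
  have hδs := hδi.pos
  have hhd := hd_pos (base m) (δ.1 (base m))
  have hn : ∃ g : P.Γ, hd ⟨x, t', ht'⟩ (P.orb g) ≤ R := by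
    rcases hnear ⟨x, t', ht'⟩ with h | ⟨g, hg⟩
    · exact h
    · exfalso
      have h1 := hlow g⁻¹
      have h2 : (g⁻¹ : P.Γ).1 = g.1⁻¹ := rfl
      rw [h2] at h1
      linarith
  obtain ⟨g, hg⟩ := hn
  have hgnp : ¬ P.Par g := by
    rintro ⟨v, hv⟩
    have h1 := t_le_of_hd hg
    have h2 : (P.orb g).t = 1 := by
      unfold Piece.orb
      rw [hv]
      rfl
    rw [h2] at h1
    simp only at h1
    linarith
  have hgi := P.isInv hgnp
  by_cases hb : ‖bb g.1‖ ≤ max (‖bp δ.1‖ + 1) (‖bb δ.1‖ + bs δ.1)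
  · exact ⟨g, hgnp, hb, by linarith⟩
  · push Not at hb
    have hb' : ‖bp δ.1‖ + 1 < ‖bb g.1‖ := lt_of_le_of_lt (le_max_left _ _) hb
    have h1 : 1 ≤ ‖bp δ.1 - bb g.1‖ := by
      have h2 : ‖bb g.1‖ - ‖bp δ.1‖ ≤ ‖bb g.1 - bp δ.1‖ := norm_sub_norm_le _ _
      rw [norm_sub_rev] at h2
      linarith
    have hne : bp δ.1 ≠ bb g.1 := by
      intro h
      rw [h, sub_self, norm_zero] at h1
      linarith
    obtain ⟨A'', hA''⟩ := IsInv.mul (P.isom' g) (P.isom' δ) hgi hδi hne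
    have hmul : (g * δ : P.Γ).1 = g.1 * δ.1 := rfl
    rw [← hmul] at hA''
    refine ⟨g * δ, P.pcpk_notPar_of_isInv hA'', ?_, ?_⟩
    · rw [hA''.nf_eq.2.1]
      refine (norm_add_le _ _).trans ?_
      refine le_trans ?_ (le_max_right _ _)
      rw [norm_smul, LinearIsometryEquiv.norm_map, norm_sub_rev (bb g.1) (bp δ.1),
        Real.norm_eq_abs, abs_of_pos (by positivity)]
      have h3 : bs δ.1 / ‖bp δ.1 - bb g.1‖ ^ 2 * ‖bp δ.1 - bb g.1‖ ≤ bs δ.1 := by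
        rw [div_mul_eq_mul_div, div_le_iff₀ (by positivity)]
        apply mul_le_mul_of_nonneg_left _ hδs.le
        nlinarith
      linarith
    · have h4 : hd ⟨x, t', ht'⟩ (P.orb (g * δ)) ≤
          hd ⟨x, t', ht'⟩ (P.orb g) + hd (P.orb g) (P.orb (g * δ)) := hd_triangle _ _ _
      have h5 : hd (P.orb g) (P.orb (g * δ)) = hd (base m) (δ.1 (base m)) := by
        unfold Piece.orb
        rw [hmul, Equiv.Perm.mul_apply]
        exact hd_isom (P.isom' g) _ _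
      rw [h5] at h4
      linarith

theorem pcpk_arith {K M₁ t' s n2 ot nb : ℝ} (hK : 0 < K) (ht' : 0 < t')
    (hs : 0 < s) (hn0 : 0 ≤ nb) (hnb : nb ≤ M₁) (hot : ot = s / (nb ^ 2 + 1)) (h1 : ot ≤ K * t')
    (h2 : t' ≤ K * ot) (h3 : n2 ≤ K * t' + s / 2) :
    n2 ≤ K * (M₁ ^ 2 + 2) * t' ∧ t' ≤ K * (M₁ ^ 2 + 2) * s ∧ s ≤ K * (M₁ ^ 2 + 2) * t' := by
  have hnn : 0 < nb ^ 2 + 1 := by positivity
  have hbb2 : nb ^ 2 + 1 ≤ M₁ ^ 2 + 1 := by nlinarith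
  have hKt : 0 < K * t' := by positivity
  have h4 : s ≤ (M₁ ^ 2 + 1) * (K * t') := by
    rw [hot, div_le_iff₀ hnn] at h1
    refine h1.trans ?_
    rw [mul_comm]
    exact mul_le_mul_of_nonneg_right hbb2 hKt.le
  have h5 : ot ≤ s := by
    rw [hot]
    apply div_le_self hs.le
    have := sq_nonneg nb
    linarith
  have h6 : t' ≤ K * s := h2.trans (mul_le_mul_of_nonneg_left h5 hK.le)
  have hM := sq_nonneg M₁
  have h7 : 0 ≤ M₁ ^ 2 * (K * t') := by positivity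
  have h8 : 0 ≤ M₁ ^ 2 * (K * s) := by positivity
  have h9 : 0 < K * s := by positivity
  have e1 : K * (M₁ ^ 2 + 2) * t' = M₁ ^ 2 * (K * t') + 2 * (K * t') := by ring
  have e2 : K * (M₁ ^ 2 + 2) * s = M₁ ^ 2 * (K * s) + 2 * (K * s) := by ring
  have e3 : (M₁ ^ 2 + 1) * (K * t') = M₁ ^ 2 * (K * t') + K * t' := by ring
  rw [e1, e2]
  rw [e3] at h4
  refine ⟨?_, ?_, ?_⟩
  · linarith
  · linarith
  · linarith

theorem Piece.pcpk_orb_t {g : P.Γ} (hg : ¬ P.Par g) :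
    (P.orb g).t = bs g.1 / (‖bb g.1‖ ^ 2 + 1) := by
  unfold Piece.orb
  rw [(P.isInv hg).t_eq]
  simp [base]

theorem Piece.pcpk_orb_u {g : P.Γ} (hg : ¬ P.Par g) :
    ‖(P.orb g).u - bp g.1‖ ≤ bs g.1 / 2 := by
  have h := (P.isInv hg).norm_u_sub (base m)
  have e : (base m).t = 1 := rfl
  rw [e, mul_one] at h
  exact h

theorem Piece.pcpk_thick : ∃ M : ℝ, 0 < M ∧ ∀ x, x ∉ P.Q → ∀ r₀ : ℝ, 0 < r₀ →
    ∃ r, 0 < r ∧ r < r₀ ∧ ∃ p ∈ P.Q, ‖p - x‖ ≤ M * r ∧ r ≤ M * P.sz p ∧ P.sz p ≤ M * r := by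
  obtain ⟨δ, hδ⟩ := P.exists_not_par
  obtain ⟨R, hR, hnear⟩ := P.near_or_deep 1 (le_refl _)
  obtain ⟨M₁, hM₁⟩ : ∃ M₁ : ℝ, M₁ = max (‖bp δ.1‖ + 1) (‖bb δ.1‖ + bs δ.1) := ⟨_, rfl⟩
  obtain ⟨R', hR'⟩ : ∃ R' : ℝ, R' = R + hd (base m) (δ.1 (base m)) := ⟨_, rfl⟩
  obtain ⟨K, hK, hKe⟩ : ∃ K : ℝ, 0 < K ∧ K = Real.exp R' := ⟨_, Real.exp_pos _, rfl⟩
  refine ⟨K * (M₁ ^ 2 + 2), by positivity, ?_⟩
  intro x hx r₀ hr₀
  obtain ⟨t, htpos, ht1, htr, hte⟩ : ∃ t : ℝ, 0 < t ∧ t < 1 ∧ t < r₀ ∧ t < Real.exp (-R) := by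
    have h1 := Real.exp_pos (-R)
    refine ⟨min (min (1 / 2) (r₀ / 2)) (Real.exp (-R) / 2), by positivity, ?_, ?_, ?_⟩
    · have : min (min (1 / 2) (r₀ / 2)) (Real.exp (-R) / 2) ≤ 1 / 2 :=
        (min_le_left _ _).trans (min_le_left _ _)
      linarith
    · have : min (min (1 / 2) (r₀ / 2)) (Real.exp (-R) / 2) ≤ r₀ / 2 :=
        (min_le_left _ _).trans (min_le_right _ _)
      linarith
    · have : min (min (1 / 2) (r₀ / 2)) (Real.exp (-R) / 2) ≤ Real.exp (-R) / 2 :=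
        min_le_right _ _
      linarith
  obtain ⟨t', ht'pos, ht't, hlow⟩ := P.pcpk_low hx htpos ht1
  have hsmall : Real.exp R * t' < 1 := by
    have h3 : Real.exp R * t' < Real.exp R * Real.exp (-R) :=
      mul_lt_mul_of_pos_left (lt_of_le_of_lt ht't hte) (Real.exp_pos _)
    rw [← Real.exp_add, add_neg_cancel, Real.exp_zero] at h3
    exact h3
  obtain ⟨g', hg'np, hg'b, hg'hd⟩ := P.pcpk_near hδ ht'pos hlow hnear hsmall
  rw [← hM₁] at hg'b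
  rw [← hR'] at hg'hd
  have h1 : (P.orb g').t ≤ K * t' := by
    have h := t_le_of_hd hg'hd
    rw [← hKe] at h
    exact h
  have h3 : ‖x - (P.orb g').u‖ ≤ K * t' := by
    have h := norm_le_of_hd hg'hd
    rw [← hKe] at h
    exact h
  have h2 : t' ≤ K * (P.orb g').t := by
    rw [hd_comm] at hg'hd
    have h := t_le_of_hd hg'hd
    rw [← hKe] at h
    exact h
  have h7 : ‖bp g'.1 - x‖ ≤ K * t' + bs g'.1 / 2 := by
    have e : bp g'.1 - x = -(((P.orb g').u - bp g'.1) + (x - (P.orb g').u)) := by abel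
    rw [e, norm_neg]
    have := P.pcpk_orb_u hg'np
    exact (norm_add_le _ _).trans (by linarith)
  obtain ⟨a1, a2, a3⟩ := pcpk_arith hK ht'pos (P.isInv hg'np).pos (norm_nonneg _) hg'b
    (P.pcpk_orb_t hg'np) h1 h2 h7
  refine ⟨t', ht'pos, lt_of_le_of_lt ht't htr, bp g'.1, ⟨g', hg'np, rfl⟩, a1, ?_, ?_⟩
  · rw [P.sz_eq hg'np]
    exact a2
  · rw [P.sz_eq hg'np]
    exact a3

theorem Piece.shiftPack (hm : 1 ≤ m) (b : Module.Basis (Fin m) ℝ (E m)) (hb : P.IsBasis b) :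
    ShiftPack P.Q P.sz b :=
  ⟨fun _ hp => P.pcpk_sz_pos hp, P.pcpk_shift b hb, P.pcpk_thick⟩

/-- The base points of elements of size at least `ε` are in finitely many classes modulo the lattice. -/
theorem Piece.pcpk_classes {ε : ℝ} (hε : 0 < ε) : ∃ F : Set (E m), F.Finite ∧
    ∀ γ : P.Γ, ¬ P.Par γ → ε ≤ bs γ.1 → ∃ f ∈ F, ∃ v : P.lat, bp γ.1 = f + v := by
  obtain ⟨ρ, hρ, hcov⟩ := P.lat_cover
  obtain ⟨r, -, hr⟩ := exists_hd_le (max (max (ρ + 1) 1) ((ρ ^ 2 + 1) / ε))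
  refine ⟨(fun γ : P.Γ => bp γ.1) '' {g : P.Γ | hd (g.1 (base m)) (base m) ≤ r},
    (P.finite_hd (base m) (base m) r).image _, ?_⟩
  intro γ hγ hγε
  obtain ⟨v, hv⟩ := hcov (bp γ.1)
  obtain ⟨w, hw⟩ := hcov (bb γ.1)
  have hγi := P.isInv hγ
  have hγ4 := P.bs_le hγ
  set η : P.Γ := P.tr (-v) * (γ * P.tr w) with hη
  have hηi : IsInv η.1 (bp γ.1 - v) (bb γ.1 - w) (bs γ.1) (bA γ.1) := by
    have h1 := (hγi.mul_transl (w : E m)).transl_mul (-(v : E m))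
    rw [← sub_eq_add_neg] at h1
    exact h1
  have hηp := hηi.nf_eq.1
  refine ⟨bp η.1, ⟨η, ?_, rfl⟩, v, ?_⟩
  · simp only [Set.mem_ofPred_eq]
    rw [hd_comm]
    have hs := hγi.pos
    have hot : (η.1 (base m)).t = bs γ.1 / (‖bb γ.1 - w‖ ^ 2 + 1) := by
      rw [hηi.t_eq]
      simp only [base, zero_sub, norm_neg, one_pow, mul_one]
    have hou : ‖(η.1 (base m)).u - (bp γ.1 - v)‖ ≤ bs γ.1 / 2 := by
      have := hηi.norm_u_sub (base m)
      simpa [base] using this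
    have hsq : ‖bb γ.1 - w‖ ^ 2 + 1 ≤ ρ ^ 2 + 1 := by
      have := norm_nonneg (bb γ.1 - (w : E m))
      nlinarith
    apply hr
    · have hb1 : (base m).t = 1 := rfl
      have hb0 : (base m).u = 0 := rfl
      rw [hb1, hb0, zero_sub, norm_neg, mul_one]
      have h1 : ‖(η.1 (base m)).u‖ ≤ ρ + 1 := by
        have h2 : ‖(η.1 (base m)).u‖ ≤ ‖(η.1 (base m)).u - (bp γ.1 - v)‖ + ‖bp γ.1 - v‖ := by
          have e : (η.1 (base m)).u = ((η.1 (base m)).u - (bp γ.1 - v)) + (bp γ.1 - v) := by abel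
          calc ‖(η.1 (base m)).u‖ = ‖((η.1 (base m)).u - (bp γ.1 - v)) + (bp γ.1 - v)‖ := by
                rw [← e]
            _ ≤ _ := norm_add_le _ _
        linarith
      exact h1.trans ((le_max_left _ _).trans (le_max_left _ _))
    · have hb1 : (base m).t = 1 := rfl
      rw [hb1, mul_one, hot]
      have h1 : bs γ.1 / (‖bb γ.1 - (w : E m)‖ ^ 2 + 1) ≤ 1 := by
        rw [div_le_one (by positivity)]
        have := sq_nonneg ‖bb γ.1 - (w : E m)‖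
        linarith
      exact h1.trans ((le_max_right _ _).trans (le_max_left _ _))
    · have hb1 : (base m).t = 1 := rfl
      rw [hb1, hot]
      have h1 : (1 : ℝ) ≤ (ρ ^ 2 + 1) / ε * (bs γ.1 / (‖bb γ.1 - (w : E m)‖ ^ 2 + 1)) := by
        rw [div_mul_div_comm, le_div_iff₀ (by positivity), one_mul]
        calc ε * (‖bb γ.1 - (w : E m)‖ ^ 2 + 1) ≤ bs γ.1 * (ρ ^ 2 + 1) := by
              apply mul_le_mul hγε hsq (by positivity) hs.le
          _ = (ρ ^ 2 + 1) * bs γ.1 := by ring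
      refine h1.trans ?_
      apply mul_le_mul_of_nonneg_right (le_max_right _ _)
      positivity
  · rw [hηp]
    abel

theorem pcpk_finite_min {S : Set (E m)} (hS : {z | z ∈ S ∧ ‖z‖ ≤ 1}.Finite) :
    ∃ μ : ℝ, 0 < μ ∧ ∀ z ∈ S, z = 0 ∨ μ ≤ ‖z‖ := by
  classical
  set T := (hS.toFinset.filter (fun z => z ≠ 0)).image (fun z : E m => ‖z‖) with hT
  by_cases hne : T.Nonempty
  · have hmem := T.min'_mem hne
    have hTpos : ∀ y ∈ T, 0 < y := by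
      intro y hy
      rw [hT, Finset.mem_image] at hy
      obtain ⟨z, hz, hz2⟩ := hy
      rw [Finset.mem_filter] at hz
      have h1 : 0 < ‖z‖ := norm_pos_iff.mpr hz.2
      rw [hz2] at h1
      exact h1
    have hpos : 0 < T.min' hne := hTpos _ hmem
    refine ⟨min 1 (T.min' hne), lt_min one_pos hpos, ?_⟩
    intro z hz
    by_cases h0 : z = 0
    · exact Or.inl h0
    · right
      by_cases h1 : ‖z‖ ≤ 1
      · have h2 : ‖z‖ ∈ T := by
          rw [hT, Finset.mem_image]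
          refine ⟨z, ?_, rfl⟩
          rw [Finset.mem_filter]
          refine ⟨?_, h0⟩
          rw [Set.Finite.mem_toFinset]
          exact ⟨hz, h1⟩
        exact (min_le_right _ _).trans (T.min'_le _ h2)
      · push Not at h1
        exact (min_le_left _ _).trans h1.le
  · refine ⟨1, one_pos, ?_⟩
    intro z hz
    by_cases h0 : z = 0
    · exact Or.inl h0
    · right
      by_contra h1
      push Not at h1
      apply hne
      refine ⟨‖z‖, ?_⟩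
      rw [hT, Finset.mem_image]
      refine ⟨z, ?_, rfl⟩
      rw [Finset.mem_filter]
      refine ⟨?_, h0⟩
      rw [Set.Finite.mem_toFinset]
      exact ⟨hz, h1.le⟩

theorem Piece.gapPack : GapPack P.Q P.sz := by
  refine ⟨fun _ hp => P.pcpk_sz_pos hp, ?_⟩
  intro D
  by_cases hD : D ≤ 0
  · refine ⟨1, one_pos, ?_⟩
    intro p hp q₁ hq₁ q₂ hq₂ q₃ hq₃ h1 h2 h3
    exfalso
    obtain ⟨h4, h5⟩ := h1
    have h6 : 0 < ‖q₁ - p‖ := norm_pos_iff.mpr (sub_ne_zero.mpr h4)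
    have h7 : 0 < P.sz p * P.sz q₁ := mul_pos (P.pcpk_sz_pos hp) (P.pcpk_sz_pos hq₁)
    have h8 : 0 < ‖q₁ - p‖ ^ 2 := by positivity
    nlinarith
  · push Not at hD
    obtain ⟨F, hF, hcl⟩ := P.pcpk_classes (ε := 1 / D) (by positivity)
    set F2 : Set (E m) := (fun z : E m × E m × E m => z.1 + z.2.1 - (2 : ℝ) • z.2.2) ''
      (F ×ˢ (F ×ˢ F)) with hF2
    have hF2fin : F2.Finite := (hF.prod (hF.prod hF)).image _
    obtain ⟨B, hB⟩ : ∃ B : ℝ, ∀ f ∈ F2, ‖f‖ ≤ B := by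
      obtain ⟨B, hB⟩ := (hF2fin.image (fun f => ‖f‖)).bddAbove
      exact ⟨B, fun f hf => hB (Set.mem_image_of_mem _ hf)⟩
    set S : Set (E m) := {z | ∃ f ∈ F2, ∃ v : P.lat, z = f + v} with hS
    have hSfin : {z | z ∈ S ∧ ‖z‖ ≤ 1}.Finite := by
      have h1 : {z | z ∈ S ∧ ‖z‖ ≤ 1} ⊆ (fun y : E m × P.lat => y.1 + (y.2 : E m)) ''
          (F2 ×ˢ {v : P.lat | ‖(v : E m)‖ ≤ 1 + B}) := by
        rintro z ⟨⟨f, hf, v, rfl⟩, hz⟩
        refine ⟨(f, v), ⟨hf, ?_⟩, rfl⟩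
        simp only [Set.mem_ofPred_eq]
        have e : (v : E m) = (f + v) - f := by abel
        calc ‖(v : E m)‖ = ‖(f + v) - f‖ := by rw [← e]
          _ ≤ ‖f + (v : E m)‖ + ‖f‖ := norm_sub_le _ _
          _ ≤ 1 + B := add_le_add hz (hB f hf)
      exact ((hF2fin.prod (P.lat_finite (1 + B))).image _).subset h1
    obtain ⟨μ, hμ, hmin⟩ := pcpk_finite_min hSfin
    refine ⟨μ, hμ, ?_⟩
    rintro p ⟨g, hg, rfl⟩ q₁ hq₁ q₂ hq₂ q₃ hq₃ n1 n2 n3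
    have key : ∀ q ∈ P.Q, Nbr P.sz D (bp g.1) q → ∃ f ∈ F, ∃ v : P.lat,
        wc P.sz (bp g.1) q = bA g.1 (f + v - bb g.1) := by
      rintro q ⟨g', hg', rfl⟩ ⟨hne, hle⟩
      set γ : P.Γ := g⁻¹ * g' with hγdef
      have hg'eq : g' = g * γ := by rw [hγdef]; group
      have hγ : ¬ P.Par γ := fun h => hne (P.coset hg h).2.1
      have hgγ : ¬ P.Par (g * γ) := by rw [← hg'eq]; exact hg'
      obtain ⟨h1, h2, h3⟩ := P.pcpk_star hg hγ hgγ
      rw [← hg'eq] at h1 h2 h3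
      have h6 : 0 < ‖bp g'.1 - bp g.1‖ ^ 2 := by
        have : 0 < ‖bp g'.1 - bp g.1‖ := norm_pos_iff.mpr (sub_ne_zero.mpr h1)
        positivity
      have h7 : 1 / D ≤ bs γ.1 := by
        rw [div_le_iff₀ hD]
        have h8 : ‖bp g'.1 - bp g.1‖ ^ 2 * 1 ≤ ‖bp g'.1 - bp g.1‖ ^ 2 * (bs γ.1 * D) := by
          calc ‖bp g'.1 - bp g.1‖ ^ 2 * 1 ≤ D * (P.sz (bp g.1) * P.sz (bp g'.1)) := by
                rw [mul_one]; exact hle
            _ = D * (‖bp g'.1 - bp g.1‖ ^ 2 * bs γ.1) := by rw [h2]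
            _ = _ := by ring
        exact le_of_mul_le_mul_left h8 h6
      obtain ⟨f, hf, v, hv⟩ := hcl γ hγ h7
      exact ⟨f, hf, v, by rw [h3, hv]⟩
    obtain ⟨f₁, hf₁, v₁, e₁⟩ := key q₁ hq₁ n1
    obtain ⟨f₂, hf₂, v₂, e₂⟩ := key q₂ hq₂ n2
    obtain ⟨f₃, hf₃, v₃, e₃⟩ := key q₃ hq₃ n3
    have hz : wc P.sz (bp g.1) q₁ + wc P.sz (bp g.1) q₂ - (2 : ℝ) • wc P.sz (bp g.1) q₃ =
        bA g.1 ((f₁ + f₂ - (2 : ℝ) • f₃) + ((v₁ + v₂ - (v₃ + v₃) : P.lat) : E m)) := by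
      rw [e₁, e₂, e₃, ← map_smul, ← map_add, ← map_sub]
      congr 1
      simp only [AddSubgroup.coe_sub, AddSubgroup.coe_add]
      module
    rw [hz, LinearIsometryEquiv.norm_map]
    have hzS : (f₁ + f₂ - (2 : ℝ) • f₃) + ((v₁ + v₂ - (v₃ + v₃) : P.lat) : E m) ∈ S :=
      ⟨_, ⟨(f₁, f₂, f₃), ⟨hf₁, hf₂, hf₃⟩, rfl⟩, _, rfl⟩
    rcases hmin _ hzS with h | h
    · left
      rw [h, map_zero]
    · right
      exact h

theorem Piece.Q_countable : P.Q.Countable := by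
  have := P.countable_Γ
  have h1 : P.Q ⊆ Set.range (fun g : P.Γ => bp g.1) := by
    rintro p ⟨g, -, rfl⟩
    exact ⟨g, rfl⟩
  exact (Set.countable_range _).mono h1

theorem Piece.Q_dense (hm : 1 ≤ m) : Dense P.Q := by
  intro x
  by_cases hx : x ∈ P.Q
  · exact subset_closure hx
  · rw [Metric.mem_closure_iff]
    intro ε hε
    obtain ⟨M, hM, hth⟩ := P.pcpk_thick
    obtain ⟨r, hr, hrr, p, hp, h1, -, -⟩ := hth x hx (ε / M) (by positivity)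
    refine ⟨p, hp, ?_⟩
    rw [dist_comm, dist_eq_norm]
    refine lt_of_le_of_lt h1 ?_
    calc M * r < M * (ε / M) := mul_lt_mul_of_pos_left hrr hM
      _ = ε := by field_simp

end QIG
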