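import Pool.Agent.W_a51130_h62.PackDefs

/-!
Extension of a power quasisymmetric bijection between dense sets to a homeomorphism of `R^m`.

PROOF.  (1) `h` is locally uniformly continuous on `Q`: fix `R`; choose `b₀ ∈ Q` with `‖b₀‖ ≥ 2R + 2` and
`a₀ ∈ Q`, `‖a₀‖ ≤ 1`, `R ≥ 1` (density, `m ≥ 1`).  For `a ∈ Q`, `‖a‖ ≤ R`:
`‖a - b₀‖` is between `1` and `‖b₀‖ + R`, so PQS at `p = b₀` (points `a`, `a₀`) gives
`‖h a - h b₀‖ ≤ C_R ‖h a₀ - h b₀‖`, i.e. `h` is bounded on `Q ∩ closedBall 0 R`.  For `a, a' ∈ Q` in that ball,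
`‖a' - a‖ ≤ σ ‖b₀ - a‖` with `σ = ‖a'-a‖`, so `‖h a' - h a‖ ≤ C max(σ^(1/K), σ^K) ‖h b₀ - h a‖`, small with `σ`.
(2) Hence `h` extends to a continuous `f : E m → E m` (limits of Cauchy sequences; e.g.
`IsDenseInducing.extend` / `continuousOn` arguments).  The same for `h'`, with extension `f'`.
`f' ∘ f = id` on `Q`, so everywhere by continuity, and `f ∘ f' = id`.  So `f` is a homeomorphism.
(3) WQS with `H = 2^K C + C + 1` or similar: for `z ≠ x` and `‖y - x‖ ≤ ‖z - x‖`, approximate by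
`p → x`, `a → y`, `b → z` in `Q`; for good approximations `‖a - p‖ ≤ 2‖b - p‖`, so
`‖h a - h p‖ ≤ C 2^K ‖h b - h p‖`; pass to the limit.  `z = x` is trivial.
-/

namespace QIG

open Filter Topology Set

/-- The modulus of power quasisymmetry is small for small arguments. -/
theorem qse_modulus {C K M : ℝ} (hK : 1 ≤ K) {ε : ℝ} (hε : 0 < ε) :
    ∃ σ : ℝ, 0 < σ ∧ σ < 1 ∧ C * max (σ ^ (1 / K)) (σ ^ K) * M < ε := by
  have hK0 : 0 < K := lt_of_lt_of_le one_pos hK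
  have hc : Continuous fun σ : ℝ => C * max (σ ^ (1 / K)) (σ ^ K) * M :=
    (continuous_const.mul ((Real.continuous_rpow_const (by positivity)).max
      (Real.continuous_rpow_const hK0.le))).mul continuous_const
  have h0 : C * max ((0 : ℝ) ^ (1 / K)) ((0 : ℝ) ^ K) * M = 0 := by
    rw [Real.zero_rpow (by positivity), Real.zero_rpow hK0.ne']
    simp
  have h1 : ∀ᶠ σ in 𝓝 (0 : ℝ), C * max (σ ^ (1 / K)) (σ ^ K) * M < ε := by
    have h2 := hc.continuousAt (x := (0 : ℝ))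
    refine h2.eventually_lt_const ?_
    change C * max ((0 : ℝ) ^ (1 / K)) ((0 : ℝ) ^ K) * M < ε
    rw [h0]
    exact hε
  obtain ⟨r, hr, hr'⟩ := Metric.eventually_nhds_iff.1 h1
  refine ⟨min (r / 2) (1 / 2), by positivity, ?_, ?_⟩
  · exact (min_le_right _ _).trans_lt (by norm_num)
  · apply hr'
    rw [Real.dist_eq, sub_zero, abs_of_pos (by positivity)]
    exact (min_le_left _ _).trans_lt (by linarith)

/-- Local uniform continuity. -/
theorem qse_local {m : ℕ} (hm : 1 ≤ m) {Q : Set (E m)} (hQ : Dense Q) {h : E m → E m} {C K : ℝ}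
    (hC : 1 ≤ C) (hK : 1 ≤ K) (hq : PQS Q h C K) (x : E m) {ε : ℝ} (hε : 0 < ε) :
    ∃ δ : ℝ, 0 < δ ∧ ∀ a ∈ Q, ∀ a' ∈ Q, ‖a - x‖ < δ → ‖a' - x‖ < δ → ‖h a - h a'‖ < ε := by
  have hC0 : 0 < C := lt_of_lt_of_le one_pos hC
  -- a far point
  obtain ⟨b, hbQ, hb⟩ : ∃ b ∈ Q, 2 ≤ ‖b - x‖ := by
    let e : E m := EuclideanSpace.single ⟨0, hm⟩ 1
    have he : ‖e‖ = 1 := by
      simp [e]
    obtain ⟨b, hb, hbQ⟩ := hQ.inter_open_nonempty (Metric.ball (x + (3 : ℝ) • e) 1)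
      Metric.isOpen_ball ⟨_, Metric.mem_ball_self one_pos⟩
    refine ⟨b, hbQ, ?_⟩
    rw [Metric.mem_ball, dist_eq_norm] at hb
    have h1 : (3 : ℝ) • e = (b - x) - (b - (x + (3 : ℝ) • e)) := by abel
    have h2 : ‖(3 : ℝ) • e‖ = 3 := by
      rw [norm_smul, he]
      norm_num
    have h3 := norm_sub_le (b - x) (b - (x + (3 : ℝ) • e))
    rw [← h1, h2] at h3
    linarith
  obtain ⟨a₀, ha₀, ha₀Q⟩ := hQ.inter_open_nonempty (Metric.ball x 1)
    Metric.isOpen_ball ⟨_, Metric.mem_ball_self one_pos⟩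
  rw [Metric.mem_ball, dist_eq_norm] at ha₀
  have hfar : ∀ a : E m, ‖a - x‖ < 1 → 1 ≤ ‖b - a‖ := by
    intro a ha
    have h1 : b - x = (b - a) + (a - x) := by abel
    have h2 := norm_add_le (b - a) (a - x)
    rw [← h1] at h2
    linarith
  set D := ‖b - x‖ + 1 with hD
  have hD0 : 0 < D := by
    rw [hD]
    positivity
  set M := C * max (D ^ (1 / K)) (D ^ K) * ‖h a₀ - h b‖ with hM
  have hbd : ∀ a ∈ Q, ‖a - x‖ < 1 → ‖h b - h a‖ ≤ M := by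
    intro a haQ ha
    rw [norm_sub_rev]
    refine hq b hbQ a haQ a₀ ha₀Q D hD0 ?_
    have h1 : 1 ≤ ‖a₀ - b‖ := by
      rw [norm_sub_rev]
      exact hfar a₀ ha₀
    have h2 : ‖a - b‖ ≤ D := by
      have h3 : a - b = (a - x) - (b - x) := by abel
      have h4 := norm_sub_le (a - x) (b - x)
      rw [← h3] at h4
      rw [hD]
      linarith
    calc ‖a - b‖ ≤ D * 1 := by rw [mul_one]; exact h2
      _ ≤ D * ‖a₀ - b‖ := mul_le_mul_of_nonneg_left h1 hD0.le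
  obtain ⟨σ, hσ, hσ1, hσε⟩ := qse_modulus (C := C) (M := M) hK hε
  refine ⟨σ / 2, by positivity, ?_⟩
  intro a haQ a' ha'Q ha ha'
  rw [norm_sub_rev]
  have h1 : ‖a' - a‖ ≤ σ * ‖b - a‖ := by
    have h2 : a' - a = (a' - x) - (a - x) := by abel
    have h3 := norm_sub_le (a' - x) (a - x)
    rw [← h2] at h3
    have h4 := hfar a (by linarith)
    nlinarith
  refine (hq a haQ a' ha'Q b hbQ σ hσ h1).trans_lt (lt_of_le_of_lt ?_ hσε)
  have h5 : 0 ≤ C * max (σ ^ (1 / K)) (σ ^ K) :=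
    mul_nonneg hC0.le ((Real.rpow_nonneg hσ.le _).trans (le_max_left _ _))
  exact mul_le_mul_of_nonneg_left (hbd a haQ (by linarith)) h5

/-- Extension of a locally uniformly continuous map from a dense set. -/
theorem qse_extend {m : ℕ} {Q : Set (E m)} (hQ : Dense Q) {h : E m → E m}
    (hA : ∀ x : E m, ∀ ε : ℝ, 0 < ε →
      ∃ δ : ℝ, 0 < δ ∧ ∀ a ∈ Q, ∀ a' ∈ Q, ‖a - x‖ < δ → ‖a' - x‖ < δ → ‖h a - h a'‖ < ε) :
    ∃ f : E m → E m, Continuous f ∧ ∀ p ∈ Q, f p = h p := by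
  have di : IsDenseInducing (Subtype.val : Q → E m) := hQ.isDenseInducing_val
  refine ⟨di.extend (fun q : Q => h q), ?_, ?_⟩
  · refine di.continuous_extend fun x => ?_
    have hne : NeBot (comap (Subtype.val : Q → E m) (𝓝 x)) := di.comap_nhds_neBot x
    rw [← cauchy_map_iff_exists_tendsto, Metric.cauchy_iff]
    refine ⟨hne.map _, fun ε hε => ?_⟩
    obtain ⟨δ, hδ, hδ'⟩ := hA x ε hε
    refine ⟨(fun q : Q => h q) '' (Subtype.val ⁻¹' Metric.ball x δ), ?_, ?_⟩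
    · exact image_mem_map (preimage_mem_comap (Metric.ball_mem_nhds x hδ))
    · rintro _ ⟨a, ha, rfl⟩ _ ⟨a', ha', rfl⟩
      rw [mem_preimage, Metric.mem_ball, dist_eq_norm] at ha ha'
      rw [dist_eq_norm]
      exact hδ' a a.2 a' a'.2 ha ha'
  · intro p hp
    refine di.extend_eq_at (a := (⟨p, hp⟩ : Q)) (f := fun q : Q => h q) ?_
    rw [Metric.continuousAt_iff]
    intro ε hε
    obtain ⟨δ, hδ, hδ'⟩ := hA p ε hε
    refine ⟨δ, hδ, ?_⟩
    intro q hq'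
    rw [Subtype.dist_eq, dist_eq_norm] at hq'
    rw [dist_eq_norm]
    exact hδ' q q.2 p hp hq' (by simpa using hδ)

/-- Weak quasisymmetry of the extension. -/
theorem qse_wqs {m : ℕ} {Q : Set (E m)} (hQ : Dense Q) {h f : E m → E m} {C K : ℝ}
    (hq : PQS Q h C K) (hf : Continuous f) (hfh : ∀ p ∈ Q, f p = h p) :
    WQS f (C * max ((2 : ℝ) ^ (1 / K)) ((2 : ℝ) ^ K)) := by
  intro x y z hxyz
  by_cases hzx : z = x
  · have h1 : y = x := by
      rw [hzx, sub_self, norm_zero] at hxyz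
      exact sub_eq_zero.1 (norm_le_zero_iff.1 hxyz)
    rw [hzx, h1, sub_self, norm_zero, mul_zero]
  · have hz : 0 < ‖z - x‖ := norm_pos_iff.2 (sub_ne_zero.2 hzx)
    set U : Set (E m × E m × E m) := {t | ‖t.2.1 - t.1‖ < 2 * ‖t.2.2 - t.1‖} with hU
    have hUo : IsOpen U := isOpen_lt (by fun_prop) (by fun_prop)
    have hmem : (x, y, z) ∈ U := by
      change ‖y - x‖ < 2 * ‖z - x‖
      linarith
    have hd : Dense (Q ×ˢ (Q ×ˢ Q)) := hQ.prod (hQ.prod hQ)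
    have h1 := hd.open_subset_closure_inter hUo hmem
    set V : Set (E m × E m × E m) := {t | ‖f t.2.1 - f t.1‖ ≤
      C * max ((2 : ℝ) ^ (1 / K)) ((2 : ℝ) ^ K) * ‖f t.2.2 - f t.1‖} with hV
    have hVc : IsClosed V := isClosed_le (by fun_prop) (by fun_prop)
    have h2 : U ∩ (Q ×ˢ (Q ×ˢ Q)) ⊆ V := by
      rintro ⟨p, a, b⟩ ⟨hUm, hpQ, haQ, hbQ⟩
      have hUm' : ‖a - p‖ < 2 * ‖b - p‖ := hUm
      change ‖f a - f p‖ ≤ C * max ((2 : ℝ) ^ (1 / K)) ((2 : ℝ) ^ K) * ‖f b - f p‖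
      have h6 := hq p hpQ a haQ b hbQ 2 two_pos hUm'.le
      rw [← hfh a haQ, ← hfh b hbQ, ← hfh p hpQ] at h6
      exact h6
    have h7 : (x, y, z) ∈ V := closure_minimal h2 hVc h1
    exact h7

theorem exists_homeo_ext {m : ℕ} (hm : 1 ≤ m) {Q Q' : Set (E m)} (hQ : Dense Q) (hQ' : Dense Q')
    {h h' : E m → E m} (h1 : ∀ p ∈ Q, h p ∈ Q') (h2 : ∀ q ∈ Q', h' q ∈ Q)
    (h3 : ∀ p ∈ Q, h' (h p) = p) (h4 : ∀ q ∈ Q', h (h' q) = q)
    {C K : ℝ} (hC : 1 ≤ C) (hK : 1 ≤ K) (hq : PQS Q h C K) (hq' : PQS Q' h' C K) :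
    ∃ (f : E m ≃ₜ E m) (H : ℝ), 1 ≤ H ∧ WQS f H ∧ ∀ p ∈ Q, f p = h p := by
  obtain ⟨f, hf, hfh⟩ := qse_extend hQ (fun x ε hε => qse_local hm hQ hC hK hq x hε)
  obtain ⟨f', hf', hfh'⟩ := qse_extend hQ' (fun x ε hε => qse_local hm hQ' hC hK hq' x hε)
  have e1 : f' ∘ f = id := by
    refine Continuous.ext_on hQ (hf'.comp hf) continuous_id ?_
    intro p hp
    simp only [Function.comp_apply, id_eq]
    rw [hfh p hp, hfh' _ (h1 p hp), h3 p hp]
  have e2 : f ∘ f' = id := by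
    refine Continuous.ext_on hQ' (hf.comp hf') continuous_id ?_
    intro p hp
    simp only [Function.comp_apply, id_eq]
    rw [hfh' p hp, hfh _ (h2 p hp), h4 p hp]
  refine ⟨⟨⟨f, f', fun x => congrFun e1 x, fun x => congrFun e2 x⟩, hf, hf'⟩,
    C * max ((2 : ℝ) ^ (1 / K)) ((2 : ℝ) ^ K), ?_, qse_wqs hQ hq hf hfh, hfh⟩
  have h5 : (1 : ℝ) ≤ 2 ^ K := Real.one_le_rpow (by norm_num) (by linarith)
  have h6 : (1 : ℝ) ≤ max ((2 : ℝ) ^ (1 / K)) ((2 : ℝ) ^ K) := h5.trans (le_max_right _ _)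
  nlinarith

end QIG
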