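import Pool.Agent.W_a51130_h62.BdQS
import Pool.Agent.W_a51130_h62.QSExt
import Pool.Agent.W_a51130_h62.PcPack

/-!
The boundary homeomorphism of a piece map.

PROOF.  Choose `h : E m → E m` with `h (bp γ) = bp (F γ)` (well defined on `P.Q`: `bp γ = bp γ'` implies `γ⁻¹γ'` parabolic
(`bp_ne`), so `F γ⁻¹F γ'` parabolic (`PieceMap.coset_iff`), `coset`), and `h'` in the same way from `F'`
(`PieceMap.symm`).  `h' (h (bp γ)) = bp (F'(F γ)) = bp γ` (`PieceMap.inv`, `coset`).  `exists_hmap`, `bd_pqs` for `F` and `F'`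
(common constants), `Q_dense`, `exists_homeo_ext`: the homeomorphism `f`, WQS.
`PackMap`: `maps` clear.
`nbr`: let `p = bp γ`, `q = bp γ'`, `Nbr sz D p q`; `γ⁻¹γ'` is not parabolic, and `bs (γ⁻¹γ') = s_p s_q/‖q-p‖² ≥ 1/D`
(`bp_ne`, `D > 0`).  There are lattice vectors `λ, λ'` with `δ = tr(-λ) γ⁻¹γ' tr λ'` having `‖bp δ‖, ‖bb δ‖ ≤ ρ`,
`bs δ = bs(γ⁻¹γ')`; `t(δ o) = bs δ/(‖bb δ‖²+1)` is bounded below and `‖u(δ o)‖` above, so `δ ∈ bal r_D`.  With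
`γ₁ = γ tr λ`, `γ₂ = γ' tr λ'` (same cosets) `(F γ₁)⁻¹F γ₂ ∈ bal r'`, a finite set, so
`bs ((F γ₁)⁻¹F γ₂) ≥ c > 0` (it is not parabolic by `coset_iff`), and
`‖h q - h p‖² = sz' sz'/bs(..) ≤ (1/c) sz'(h p) sz'(h q)` (`bp_ne` in `P'`).
`size`: first, `(Φ(p,s_p)).t` is comparable with `sz' (h p)`: `γ⁻¹(p,s_p) = (bb γ, 1)`, near `P.vx (γ tr μ) 0`, so
`Φ(p,s_p)` is near `P'.vx (F(γ tr μ)) 0 = g'(μ',1)`, `g' = F γ`, whose depth `(g'⁻¹·).t` is `1`; hence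
`(g'⁻¹x').t` is bounded above and below for `x' = Φ(p,s_p)`, and `(g'⁻¹x').t = s'/(x'.t · sec2 p' x')`, with
`sec2 ≤ C` by `line_image`.  Now let `‖x-p‖ = s_p`; for `a ∈ Q` close to `x`, `‖a-p‖` is between `s_p/2` and `2s_p`, so
`‖h a-h p‖` is comparable with `(Φ(p,‖a-p‖)).t` (`bd_dist`), which is comparable with `(Φ(p,s_p)).t` (`bd_height`); let
`a → x`.
Last property: let `‖x-v‖ ≤ ρ`; for `a = bp γ ∈ Q` close to `x`, `hd ((a,1),(v,1)) ≤ C`, `(v,1) = P.vx (tr v) 0`, so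
`Φ(a,1)` is near `P'.vx (F (tr v)) 0 = (w,1)` and `sec2 (h a) (Φ(a,1)) ≤ C`: `‖w - h a‖ ≤ C`; let `a → x`.
-/

namespace QIG

open Set

variable {m : ℕ}

theorem bdpk_pqs_mono {Q : Set (E m)} {h : E m → E m} {C C' K : ℝ} (hCC : C ≤ C')
    (hq : PQS Q h C K) : PQS Q h C' K := by
  intro p hp a ha b hb σ hσ hab
  refine (hq p hp a ha b hb σ hσ hab).trans ?_
  have h1 : 0 ≤ max (σ ^ (1 / K)) (σ ^ K) :=
    le_max_of_le_left (Real.rpow_nonneg hσ.le _)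
  exact mul_le_mul_of_nonneg_right (mul_le_mul_of_nonneg_right hCC h1) (norm_nonneg _)

/-- The coset of the image. -/
theorem bdpk_coset {P P' : Piece m} {F : P.Γ → P'.Γ} {F' : P'.Γ → P.Γ}
    (hF : PieceMap P P' F F') {γ γ' : P.Γ} (hγ : ¬ P.Par γ) (h : P.Par (γ⁻¹ * γ')) :
    ¬ P'.Par (F γ') ∧ bp (F γ').1 = bp (F γ).1 ∧ bs (F γ').1 = bs (F γ).1 :=
  P'.coset (fun h1 => hγ ((hF.par_iff γ).1 h1)) ((hF.coset_iff γ γ').2 h)

theorem bdpk_par_of_bp {P : Piece m} {γ γ' : P.Γ} (hγ : ¬ P.Par γ) (hγ' : ¬ P.Par γ')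
    (h : bp γ'.1 = bp γ.1) : P.Par (γ⁻¹ * γ') := by
  by_contra hno
  exact (P.bp_ne hγ hγ' hno).1 h

/-- The map of base points. -/
theorem bdpk_exists_h {P P' : Piece m} {F : P.Γ → P'.Γ} {F' : P'.Γ → P.Γ}
    (hF : PieceMap P P' F F') :
    ∃ h : E m → E m, ∀ γ : P.Γ, ¬ P.Par γ → h (bp γ.1) = bp (F γ).1 := by
  classical
  refine ⟨fun p => if hp : ∃ γ : P.Γ, ¬ P.Par γ ∧ bp γ.1 = p then bp (F hp.choose).1 else 0, ?_⟩
  intro γ hγ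
  have hp : ∃ γ' : P.Γ, ¬ P.Par γ' ∧ bp γ'.1 = bp γ.1 := ⟨γ, hγ, rfl⟩
  simp only [dif_pos hp]
  have h1 := hp.choose_spec
  exact (bdpk_coset hF hγ (bdpk_par_of_bp hγ h1.1 h1.2)).2.1

theorem bdpk_bal_lower (P : Piece m) (r : ℝ) :
    ∃ c : ℝ, 0 < c ∧ ∀ g ∈ P.bal r, ¬ P.Par g → c ≤ bs g.1 := by
  classical
  have hfin : {g : P.Γ | g ∈ P.bal r ∧ ¬ P.Par g}.Finite :=
    (P.bal_finite r).subset fun g hg => hg.1
  rcases Set.eq_empty_or_nonempty {g : P.Γ | g ∈ P.bal r ∧ ¬ P.Par g} with he | hne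
  · refine ⟨1, one_pos, fun g hg hg' => ?_⟩
    have : g ∈ ({g : P.Γ | g ∈ P.bal r ∧ ¬ P.Par g}) := ⟨hg, hg'⟩
    rw [he] at this
    exact this.elim
  · obtain ⟨g0, hg0, hmin⟩ := Set.exists_min_image _ (fun g : P.Γ => bs g.1) hfin hne
    exact ⟨bs g0.1, (P.isInv hg0.2).pos, fun g hg hg' => hmin g ⟨hg, hg'⟩⟩

/-- Neighbours are mapped to neighbours. -/
theorem bdpk_nbr {P P' : Piece m} {F : P.Γ → P'.Γ} {F' : P'.Γ → P.Γ}
    (hF : PieceMap P P' F F') (D : ℝ) : ∃ D' : ℝ, ∀ γ γ' : P.Γ, ¬ P.Par γ → ¬ P.Par γ' →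
      bp γ'.1 ≠ bp γ.1 → ‖bp γ'.1 - bp γ.1‖ ^ 2 ≤ D * (bs γ.1 * bs γ'.1) →
      bp (F γ').1 ≠ bp (F γ).1 ∧
        ‖bp (F γ').1 - bp (F γ).1‖ ^ 2 ≤ D' * (bs (F γ).1 * bs (F γ').1) := by
  obtain ⟨ρ, hρ, hcov⟩ := P.lat_cover
  obtain ⟨r, -, hr⟩ := exists_hd_le (max (max (ρ + 1) 1) (D * (ρ ^ 2 + 1)))
  obtain ⟨r', hr'⟩ := hF.bal r
  obtain ⟨c, hc, hcm⟩ := bdpk_bal_lower P' r'
  refine ⟨1 / c, ?_⟩
  intro γ γ' hγ hγ' hne hD
  have hI := P.isInv hγ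
  have hI' := P.isInv hγ'
  have hs := hI.pos
  have hs' := hI'.pos
  have hnn : 0 < ‖bp γ'.1 - bp γ.1‖ ^ 2 := by
    have : 0 < ‖bp γ'.1 - bp γ.1‖ := norm_pos_iff.mpr (sub_ne_zero.mpr hne)
    positivity
  have hss : 0 < bs γ.1 * bs γ'.1 := by positivity
  have hD0 : 0 < D := by
    by_contra hno
    push Not at hno
    have : D * (bs γ.1 * bs γ'.1) ≤ 0 := mul_nonpos_of_nonpos_of_nonneg hno hss.le
    linarith
  have hpar : ¬ P.Par (γ⁻¹ * γ') := fun h => hne (P.coset hγ h).2.1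
  obtain ⟨-, hbs, -⟩ := P.bp_ne hγ hγ' hpar
  have hbs1 : 1 / D ≤ bs (γ⁻¹ * γ').1 := by
    rw [hbs, div_le_div_iff₀ hD0 hnn]
    linarith
  obtain ⟨v, hv⟩ := hcov (bp (γ⁻¹ * γ').1)
  obtain ⟨w, hw⟩ := hcov (bb (γ⁻¹ * γ').1)
  have hδ0 := P.isInv hpar
  set δ : P.Γ := P.tr (-v) * (γ⁻¹ * γ') * P.tr w with hδ
  have hδv : δ.1 = transl (-(v : E m)) * (γ⁻¹ * γ').1 * transl (w : E m) := rfl
  have hδI : IsInv δ.1 (bp (γ⁻¹ * γ').1 + -(v : E m)) (bb (γ⁻¹ * γ').1 - w)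
      (bs (γ⁻¹ * γ').1) (bA (γ⁻¹ * γ').1) := by
    rw [hδv]
    exact (hδ0.transl_mul _).mul_transl _
  have hδpar : ¬ P.Par δ := P.pcpk_notPar_of_isInv hδI
  have hball : δ ∈ P.bal r := by
    change hd (P.orb δ) (base m) ≤ r
    rw [hd_comm]
    have hbt : (base m).t = 1 := rfl
    have hbu : (base m).u = 0 := rfl
    have hot := hδI.t_eq (base m)
    have hou := hδI.norm_u_sub (base m)
    rw [hbt, hbu] at hot
    rw [hbt] at hou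
    have hle1 := P.orb_t_le_one δ
    have hbsle := P.bs_le hpar
    have hA1 : ρ + 1 ≤ max (max (ρ + 1) 1) (D * (ρ ^ 2 + 1)) :=
      (le_max_left _ _).trans (le_max_left _ _)
    have hA2 : (1 : ℝ) ≤ max (max (ρ + 1) 1) (D * (ρ ^ 2 + 1)) :=
      (le_max_right _ _).trans (le_max_left _ _)
    have hA3 : D * (ρ ^ 2 + 1) ≤ max (max (ρ + 1) 1) (D * (ρ ^ 2 + 1)) := le_max_right _ _
    apply hr
    · rw [hbt, hbu, zero_sub, norm_neg, mul_one]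
      refine le_trans ?_ hA1
      have h1 : (P.orb δ).u = ((P.orb δ).u - (bp (γ⁻¹ * γ').1 + -(v : E m))) +
          (bp (γ⁻¹ * γ').1 - (v : E m)) := by abel
      have h2 := norm_add_le ((P.orb δ).u - (bp (γ⁻¹ * γ').1 + -(v : E m)))
        (bp (γ⁻¹ * γ').1 - (v : E m))
      rw [← h1] at h2
      have h3 : ‖(P.orb δ).u - (bp (γ⁻¹ * γ').1 + -(v : E m))‖ ≤ bs (γ⁻¹ * γ').1 / (2 * 1) := hou
      linarith
    · rw [hbt, mul_one]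
      exact hle1.trans hA2
    · rw [hbt]
      have h1 : (P.orb δ).t = bs (γ⁻¹ * γ').1 * 1 /
          (‖(0 : E m) - (bb (γ⁻¹ * γ').1 - w)‖ ^ 2 + 1 ^ 2) := hot
      have h2 : ‖(0 : E m) - (bb (γ⁻¹ * γ').1 - w)‖ ^ 2 ≤ ρ ^ 2 := by
        rw [zero_sub, norm_neg]
        exact pow_le_pow_left₀ (norm_nonneg _) hw 2
      have h3 : 1 / (D * (ρ ^ 2 + 1)) ≤ (P.orb δ).t := by
        rw [h1, div_le_div_iff₀ (by positivity) (by positivity)]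
        have h4 : 1 ≤ bs (γ⁻¹ * γ').1 * D := by
          rw [div_le_iff₀ hD0] at hbs1
          exact hbs1
        nlinarith
      have h5 : 1 = (D * (ρ ^ 2 + 1)) * (1 / (D * (ρ ^ 2 + 1))) := by
        field_simp
      calc (1 : ℝ) = (D * (ρ ^ 2 + 1)) * (1 / (D * (ρ ^ 2 + 1))) := h5
        _ ≤ (D * (ρ ^ 2 + 1)) * (P.orb δ).t :=
          mul_le_mul_of_nonneg_left h3 (by positivity)
        _ ≤ _ := mul_le_mul_of_nonneg_right hA3 (P.orb δ).pos.le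
  have hδ12 : (γ * P.tr v)⁻¹ * (γ' * P.tr w) = δ := by
    rw [hδ, P.tr_neg]
    group
  have hb := hr' (γ * P.tr v) (γ' * P.tr w) (by rw [hδ12]; exact hball)
  have hnp : ¬ P'.Par ((F (γ * P.tr v))⁻¹ * F (γ' * P.tr w)) := by
    rw [hF.coset_iff, hδ12]
    exact hδpar
  have hc1 := bdpk_coset hF hγ (γ' := γ * P.tr v) (by
    have : γ⁻¹ * (γ * P.tr v) = P.tr v := by group
    rw [this]
    exact P.par_tr v)
  have hc2 := bdpk_coset hF hγ' (γ' := γ' * P.tr w) (by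
    have : γ'⁻¹ * (γ' * P.tr w) = P.tr w := by group
    rw [this]
    exact P.par_tr w)
  have hlow := hcm _ hb hnp
  obtain ⟨h1, h2, -⟩ := P'.bp_ne hc1.1 hc2.1 hnp
  rw [hc1.2.1, hc2.2.1] at h1 h2
  rw [hc1.2.2, hc2.2.2] at h2
  refine ⟨h1, ?_⟩
  have h3 : 0 < ‖bp (F γ').1 - bp (F γ).1‖ ^ 2 := by
    have : 0 < ‖bp (F γ').1 - bp (F γ).1‖ := norm_pos_iff.mpr (sub_ne_zero.mpr h1)
    positivity
  rw [h2, le_div_iff₀ h3] at hlow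
  rw [one_div, ← div_eq_inv_mul, le_div_iff₀ hc]
  linarith

/-- The height of the image of the top of the horoball. -/
theorem bdpk_top {P P' : Piece m} {F : P.Γ → P'.Γ} {F' : P'.Γ → P.Γ}
    (hF : PieceMap P P' F F') {Φ : HPt m → HPt m} {K : ℝ} (hK : 1 ≤ K)
    (h1 : ∀ x y, hd (Φ x) (Φ y) ≤ K * (hd x y + 1))
    (h2 : ∀ x y, hd x y ≤ K * (hd (Φ x) (Φ y) + 1))
    (h3 : ∀ g n, hd (Φ (P.vx g n)) (P'.vx (F g) n) ≤ K) :
    ∃ C : ℝ, 0 < C ∧ ∀ γ : P.Γ, ¬ P.Par γ → ∀ hs : 0 < bs γ.1,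
      (Φ ⟨bp γ.1, bs γ.1, hs⟩).t ≤ C * bs (F γ).1 ∧
      bs (F γ).1 ≤ C * (Φ ⟨bp γ.1, bs γ.1, hs⟩).t := by
  obtain ⟨C₀, hC₀⟩ := line_image hF hK h1 h2 h3
  obtain ⟨ρ, hρ, hcov⟩ := P.lat_cover
  obtain ⟨r1, -, hr1⟩ := exists_hd_le (max ρ 1)
  set r2 : ℝ := K * (r1 + 1) + K with hr2
  refine ⟨(max C₀ 1) * Real.exp r2, by positivity, ?_⟩
  intro γ hγ hs
  have hγ' : ¬ P'.Par (F γ) := fun h => hγ ((hF.par_iff γ).1 h)
  have hI := P.isInv hγ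
  have hI' := P'.isInv hγ'
  obtain ⟨μ, hμ⟩ := hcov (bb γ.1)
  obtain ⟨K₀, hK₀⟩ := hF.lat
  obtain ⟨μ', hμ', -⟩ := hK₀ γ μ
  have hx : hd (⟨bp γ.1, bs γ.1, hs⟩ : HPt m) (P.vx (γ * P.tr μ) 0) ≤ r1 := by
    have e1 : P.vx (γ * P.tr μ) 0 = γ.1 ⟨(μ : E m), 1, one_pos⟩ := by
      change γ.1 (transl (μ : E m) ⟨0, Real.exp ((0 : ℕ) : ℝ), _⟩) = _
      congr 1
      apply HPt.ext
      · simp
      · simp
    have e2 : (⟨bp γ.1, bs γ.1, hs⟩ : HPt m) = γ.1 ⟨bb γ.1, 1, one_pos⟩ := by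
      apply HPt.ext
      · rw [hI.u_eq]
        simp
      · rw [hI.t_eq]
        simp
    rw [e1, e2, hd_isom (P.isom' γ)]
    apply hr1
    · rw [mul_one]
      exact hμ.trans (le_max_left _ _)
    · simp
    · simp
  have hx' : hd (Φ ⟨bp γ.1, bs γ.1, hs⟩) (P'.vx (F (γ * P.tr μ)) 0) ≤ r2 := by
    refine (hd_triangle _ (Φ (P.vx (γ * P.tr μ) 0)) _).trans ?_
    refine add_le_add ?_ (h3 _ _)
    refine (h1 _ _).trans ?_
    exact mul_le_mul_of_nonneg_left (by linarith) (by linarith)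
  set x' : HPt m := Φ ⟨bp γ.1, bs γ.1, hs⟩ with hx'd
  have hsec := hC₀ γ hγ (bs γ.1) hs
  rw [← hx'd] at hsec
  have hsec1 := one_le_sec2 (bp (F γ).1) x'
  have e3 : P'.vx (F (γ * P.tr μ)) 0 = (F γ).1 ⟨(μ' : E m), 1, one_pos⟩ := by
    rw [hμ']
    change (F γ).1 (transl (μ' : E m) ⟨0, Real.exp ((0 : ℕ) : ℝ), _⟩) = _
    congr 1
    apply HPt.ext
    · simp
    · simp
  rw [e3, hd_comm, ← P'.pcbInv] at hx'
  have ht1 := t_le_of_hd hx'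
  rw [hd_comm] at hx'
  have ht2 := t_le_of_hd hx'
  have ht3 : ((F γ).1⁻¹ x').t = bs (F γ).1 * x'.t / (‖x'.u - bp (F γ).1‖ ^ 2 + x'.t ^ 2) :=
    hI'.inv.t_eq x'
  have hxt := x'.pos
  have hN : 0 < ‖x'.u - bp (F γ).1‖ ^ 2 + x'.t ^ 2 := nfaux_pos _
  have hs'pos := hI'.pos
  have hprod : x'.t * sec2 (bp (F γ).1) x' * ((F γ).1⁻¹ x').t = bs (F γ).1 := by
    rw [ht3, sec2]
    field_simp
  have htp := ((F γ).1⁻¹ x').pos
  have hexp : 0 < Real.exp r2 := Real.exp_pos _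
  have ht1' : ((F γ).1⁻¹ x').t ≤ Real.exp r2 := by
    have : ((F γ).1⁻¹ x').t ≤ Real.exp r2 * 1 := ht1
    linarith
  have ht2' : 1 ≤ Real.exp r2 * ((F γ).1⁻¹ x').t := ht2
  have hM : C₀ ≤ max C₀ 1 := le_max_left _ _
  have hM1 : 1 ≤ max C₀ 1 := le_max_right _ _
  constructor
  · -- x'.t ≤ C s'
    have h5 : x'.t ≤ Real.exp r2 * bs (F γ).1 := by
      calc x'.t = x'.t * 1 := (mul_one _).symm
        _ ≤ x'.t * (Real.exp r2 * ((F γ).1⁻¹ x').t) := mul_le_mul_of_nonneg_left ht2' hxt.le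
        _ ≤ x'.t * (Real.exp r2 * ((F γ).1⁻¹ x').t) * sec2 (bp (F γ).1) x' :=
          le_mul_of_one_le_right (by positivity) hsec1
        _ = Real.exp r2 * (x'.t * sec2 (bp (F γ).1) x' * ((F γ).1⁻¹ x').t) := by ring
        _ = Real.exp r2 * bs (F γ).1 := by rw [hprod]
    refine h5.trans ?_
    refine mul_le_mul_of_nonneg_right ?_ hs'pos.le
    exact le_mul_of_one_le_left hexp.le hM1
  · rw [← hprod]
    calc x'.t * sec2 (bp (F γ).1) x' * ((F γ).1⁻¹ x').t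
        ≤ x'.t * max C₀ 1 * Real.exp r2 := by
          refine mul_le_mul ?_ ht1' htp.le (by positivity)
          exact mul_le_mul_of_nonneg_left (hsec.trans hM) hxt.le
      _ = _ := by ring

theorem bdpk_ratio {K t t' : ℝ} (hK : 1 ≤ K) (ht : 0 < t) (ht' : 0 < t') (h : t ≤ 2 * t') :
    max ((t / t') ^ (1 / K)) ((t / t') ^ K) ≤ 2 ^ K := by
  have hK0 : 0 < K := by linarith
  have h1 : t / t' ≤ 2 := by
    rw [div_le_iff₀ ht']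
    exact h
  have h0 : 0 ≤ t / t' := by positivity
  apply max_le
  · refine (Real.rpow_le_rpow h0 h1 (by positivity)).trans ?_
    apply Real.rpow_le_rpow_of_exponent_le (by norm_num)
    rw [div_le_iff₀ hK0]
    nlinarith
  · exact Real.rpow_le_rpow h0 h1 hK0.le

theorem exists_boundary (hm : 1 ≤ m) {P P' : Piece m} {F : P.Γ → P'.Γ} {F' : P'.Γ → P.Γ}
    (hF : PieceMap P P' F F') : ∃ (f : E m ≃ₜ E m) (H : ℝ), 1 ≤ H ∧ WQS f H ∧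
      PackMap P.Q P.sz P'.Q P'.sz f ∧
      ∀ ρ : ℝ, ∃ C : ℝ, ∀ (v : P.lat) (x : E m), ‖x - v‖ ≤ ρ → ∀ w : E m,
        (F (P.tr v)).1 = transl w → ‖f x - w‖ ≤ C := by
  have hF' := hF.symm
  obtain ⟨h, hh⟩ := bdpk_exists_h hF
  obtain ⟨h', hh'⟩ := bdpk_exists_h hF'
  obtain ⟨Φ, K, hK, hΦ1, hΦ2, hΦ3⟩ := exists_hmap hF
  obtain ⟨Φ', K', hK', hΦ1', hΦ2', hΦ3'⟩ := exists_hmap hF'
  obtain ⟨C1, K1, hC1, hK1, hq1⟩ := bd_pqs hF hK hΦ1 hΦ2 hΦ3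
  obtain ⟨C2, K2, hC2, hK2, hq2⟩ := bd_pqs hF' hK' hΦ1' hΦ2' hΦ3'
  have hpq := bdpk_pqs_mono (le_max_left C1 C2) (hq1 h hh (max K1 K2) (le_max_left _ _))
  have hpq' := bdpk_pqs_mono (le_max_right C1 C2) (hq2 h' hh' (max K1 K2) (le_max_right _ _))
  have hQd := P.Q_dense hm
  have hQd' := P'.Q_dense hm
  have hnp : ∀ γ : P.Γ, ¬ P.Par γ → ¬ P'.Par (F γ) := fun γ hγ h => hγ ((hF.par_iff γ).1 h)
  have hnp' : ∀ γ : P'.Γ, ¬ P'.Par γ → ¬ P.Par (F' γ) := fun γ hγ h => hγ ((hF'.par_iff γ).1 h)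
  obtain ⟨f, H, hH, hW, hfh⟩ := exists_homeo_ext hm hQd hQd' (h := h) (h' := h')
    (by
      rintro p ⟨γ, hγ, rfl⟩
      rw [hh γ hγ]
      exact ⟨F γ, hnp γ hγ, rfl⟩)
    (by
      rintro p ⟨γ, hγ, rfl⟩
      rw [hh' γ hγ]
      exact ⟨F' γ, hnp' γ hγ, rfl⟩)
    (by
      rintro p ⟨γ, hγ, rfl⟩
      rw [hh γ hγ, hh' _ (hnp γ hγ)]
      obtain ⟨r, hr⟩ := hF.inv
      exact (P.coset hγ (hr γ).1).2.1)
    (by
      rintro p ⟨γ, hγ, rfl⟩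
      rw [hh' γ hγ, hh _ (hnp' γ hγ)]
      obtain ⟨r, hr⟩ := hF.inv'
      exact (P'.coset hγ (hr γ).1).2.1)
    (hC1.trans (le_max_left _ _)) (hK1.trans (le_max_left _ _)) hpq hpq'
  have hf : ∀ γ : P.Γ, ¬ P.Par γ → f (bp γ.1) = bp (F γ).1 := by
    intro γ hγ
    rw [hfh _ ⟨γ, hγ, rfl⟩, hh γ hγ]
  refine ⟨f, H, hH, hW, ⟨?_, ?_, ?_⟩, ?_⟩
  · rintro p ⟨γ, hγ, rfl⟩
    rw [hf γ hγ]
    exact ⟨F γ, hnp γ hγ, rfl⟩
  · intro D
    obtain ⟨D', hD'⟩ := bdpk_nbr hF D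
    refine ⟨D', ?_⟩
    rintro p ⟨γ, hγ, rfl⟩ q ⟨γ', hγ', rfl⟩ ⟨hne, hle⟩
    rw [P.sz_eq hγ, P.sz_eq hγ'] at hle
    obtain ⟨h5, h6⟩ := hD' γ γ' hγ hγ' hne hle
    refine ⟨?_, ?_⟩
    · rw [hf γ hγ, hf γ' hγ']
      exact h5
    · rw [hf γ hγ, hf γ' hγ', P'.sz_eq (hnp γ hγ), P'.sz_eq (hnp γ' hγ')]
      exact h6
  · obtain ⟨A, hA, hAd⟩ := bd_dist hF hK hΦ1 hΦ2 hΦ3
    obtain ⟨B, K₂, hB, hK₂, hBh⟩ := bd_height hF hK hΦ1 hΦ2 hΦ3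
    obtain ⟨T, hT, hTt⟩ := bdpk_top hF hK hΦ1 hΦ2 hΦ3
    have h2K : (0 : ℝ) < 2 ^ K₂ := by positivity
    refine ⟨A * (B * 2 ^ K₂) * T, by positivity, ?_⟩
    rintro p ⟨γ, hγ, rfl⟩ x hx
    rw [P.sz_eq hγ] at hx
    rw [hf γ hγ, P'.sz_eq (hnp γ hγ)]
    have hs := (P.isInv hγ).pos
    obtain ⟨hT1, hT2⟩ := hTt γ hγ hs
    set U : Set (E m) := {a | bs γ.1 / 2 < ‖a - bp γ.1‖ ∧ ‖a - bp γ.1‖ < 2 * bs γ.1} with hU
    have hUo : IsOpen U := by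
      apply IsOpen.inter
      · exact isOpen_lt continuous_const ((continuous_id.sub continuous_const).norm)
      · exact isOpen_lt ((continuous_id.sub continuous_const).norm) continuous_const
    have hxU : x ∈ U := ⟨by rw [hx]; linarith, by rw [hx]; linarith⟩
    have hxc : x ∈ closure (U ∩ P.Q) := hQd.open_subset_closure_inter hUo hxU
    set V : Set (E m) := {a | ‖f a - bp (F γ).1‖ ≤ A * (B * 2 ^ K₂) * T * bs (F γ).1 ∧
      bs (F γ).1 ≤ A * (B * 2 ^ K₂) * T * ‖f a - bp (F γ).1‖} with hV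
    have hcf : Continuous fun a : E m => ‖f a - bp (F γ).1‖ :=
      (f.continuous.sub continuous_const).norm
    have hVc : IsClosed V := by
      apply IsClosed.inter
      · exact isClosed_le hcf continuous_const
      · exact isClosed_le continuous_const (continuous_const.mul hcf)
    have hsub : U ∩ P.Q ⊆ V := by
      rintro a ⟨⟨ha1, ha2⟩, γ', hγ', rfl⟩
      have ht : 0 < ‖bp γ'.1 - bp γ.1‖ := by linarith
      obtain ⟨hd1, hd2⟩ := hAd γ γ' hγ hγ' ht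
      have hb1 := hBh γ hγ _ _ ht hs
      have hb2 := hBh γ hγ _ _ hs ht
      have hm1 := bdpk_ratio hK₂ ht hs (by linarith)
      have hm2 := bdpk_ratio hK₂ hs ht (by linarith)
      have hp1 := (Φ ⟨bp γ.1, bs γ.1, hs⟩).pos
      have hp2 := (Φ ⟨bp γ.1, ‖bp γ'.1 - bp γ.1‖, ht⟩).pos
      have hc1 : (Φ ⟨bp γ.1, ‖bp γ'.1 - bp γ.1‖, ht⟩).t ≤
          B * 2 ^ K₂ * (Φ ⟨bp γ.1, bs γ.1, hs⟩).t :=
        hb1.trans (mul_le_mul_of_nonneg_right (mul_le_mul_of_nonneg_left hm1 hB.le) hp1.le)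
      have hc2 : (Φ ⟨bp γ.1, bs γ.1, hs⟩).t ≤
          B * 2 ^ K₂ * (Φ ⟨bp γ.1, ‖bp γ'.1 - bp γ.1‖, ht⟩).t :=
        hb2.trans (mul_le_mul_of_nonneg_right (mul_le_mul_of_nonneg_left hm2 hB.le) hp2.le)
      have hBK : 0 ≤ B * 2 ^ K₂ := by positivity
      constructor
      · rw [hf γ' hγ']
        calc ‖bp (F γ').1 - bp (F γ).1‖
            ≤ A * (Φ ⟨bp γ.1, ‖bp γ'.1 - bp γ.1‖, ht⟩).t := hd1
          _ ≤ A * (B * 2 ^ K₂ * (Φ ⟨bp γ.1, bs γ.1, hs⟩).t) :=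
            mul_le_mul_of_nonneg_left hc1 hA.le
          _ ≤ A * (B * 2 ^ K₂ * (T * bs (F γ).1)) :=
            mul_le_mul_of_nonneg_left (mul_le_mul_of_nonneg_left hT1 hBK) hA.le
          _ = _ := by ring
      · rw [hf γ' hγ']
        calc bs (F γ).1 ≤ T * (Φ ⟨bp γ.1, bs γ.1, hs⟩).t := hT2
          _ ≤ T * (B * 2 ^ K₂ * (Φ ⟨bp γ.1, ‖bp γ'.1 - bp γ.1‖, ht⟩).t) :=
            mul_le_mul_of_nonneg_left hc2 hT.le
          _ ≤ T * (B * 2 ^ K₂ * (A * ‖bp (F γ').1 - bp (F γ).1‖)) :=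
            mul_le_mul_of_nonneg_left (mul_le_mul_of_nonneg_left hd2 hBK) hT.le
          _ = _ := by ring
    exact (closure_minimal hsub hVc) hxc
  · intro ρ
    obtain ⟨C₀, hC₀⟩ := line_image hF hK hΦ1 hΦ2 hΦ3
    obtain ⟨r, -, hr⟩ := exists_hd_le (max (ρ + 1) 1)
    set r2 : ℝ := K * (r + 1) + K with hr2
    refine ⟨Real.exp r2 + (max C₀ 1) * Real.exp r2, ?_⟩
    intro v x hx w hw
    have hxc : x ∈ closure (Metric.ball x 1 ∩ P.Q) :=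
      hQd.open_subset_closure_inter Metric.isOpen_ball (Metric.mem_ball_self one_pos)
    have hVc : IsClosed {a : E m | ‖f a - w‖ ≤ Real.exp r2 + (max C₀ 1) * Real.exp r2} :=
      isClosed_le ((f.continuous.sub continuous_const).norm) continuous_const
    refine (closure_minimal ?_ hVc) hxc
    rintro a ⟨ha, γ, hγ, rfl⟩
    rw [Metric.mem_ball, dist_eq_norm] at ha
    change ‖f (bp γ.1) - w‖ ≤ _
    rw [hf γ hγ]
    have hav : ‖bp γ.1 - (v : E m)‖ ≤ ρ + 1 := by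
      have e1 : bp γ.1 - (v : E m) = (bp γ.1 - x) + (x - v) := by abel
      have e2 := norm_add_le (bp γ.1 - x) (x - (v : E m))
      rw [← e1] at e2
      linarith
    have hd1 : hd (⟨bp γ.1, 1, one_pos⟩ : HPt m) (P.vx (P.tr v) 0) ≤ r := by
      have e1 : P.vx (P.tr v) 0 = ⟨(v : E m), 1, one_pos⟩ := by
        change transl (v : E m) ⟨0, Real.exp ((0 : ℕ) : ℝ), _⟩ = _
        apply HPt.ext
        · simp
        · simp
      rw [e1]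
      apply hr
      · rw [mul_one]
        exact hav.trans (le_max_left _ _)
      · simp
      · simp
    have hd2 : hd (Φ ⟨bp γ.1, 1, one_pos⟩) (⟨w, 1, one_pos⟩ : HPt m) ≤ r2 := by
      have e1 : P'.vx (F (P.tr v)) 0 = ⟨w, 1, one_pos⟩ := by
        change (F (P.tr v)).1 ⟨0, Real.exp ((0 : ℕ) : ℝ), _⟩ = _
        rw [hw]
        apply HPt.ext
        · simp
        · simp
      rw [← e1]
      refine (hd_triangle _ (Φ (P.vx (P.tr v) 0)) _).trans ?_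
      refine add_le_add ?_ (hΦ3 _ _)
      refine (hΦ1 _ _).trans ?_
      exact mul_le_mul_of_nonneg_left (by linarith) (by linarith)
    set y : HPt m := Φ ⟨bp γ.1, 1, one_pos⟩ with hy
    rw [hd_comm] at hd2
    have hyt' := t_le_of_hd hd2
    have hyu' := norm_le_of_hd hd2
    have hyt : y.t ≤ Real.exp r2 * 1 := hyt'
    have hyu : ‖w - y.u‖ ≤ Real.exp r2 * 1 := hyu'
    have hsec := hC₀ γ hγ 1 one_pos
    rw [← hy] at hsec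
    have hyp := y.pos
    have h5 : ‖y.u - bp (F γ).1‖ ≤ max C₀ 1 * y.t := by
      have h6 : ‖y.u - bp (F γ).1‖ ^ 2 + y.t ^ 2 ≤ C₀ * y.t ^ 2 := by
        unfold sec2 at hsec
        rw [div_le_iff₀ (by positivity)] at hsec
        exact hsec
      have h7 : C₀ * y.t ^ 2 ≤ (max C₀ 1 * y.t) ^ 2 := by
        have h8 : C₀ ≤ max C₀ 1 := le_max_left _ _
        have h9 : (1 : ℝ) ≤ max C₀ 1 := le_max_right _ _
        have h10 : C₀ ≤ max C₀ 1 ^ 2 := by nlinarith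
        rw [mul_pow]
        exact mul_le_mul_of_nonneg_right h10 (by positivity)
      have h11 : ‖y.u - bp (F γ).1‖ ^ 2 ≤ (max C₀ 1 * y.t) ^ 2 := by
        have : 0 ≤ y.t ^ 2 := by positivity
        linarith
      exact abs_le_of_sq_le_sq' h11 (by positivity) |>.2
    have h12 : bp (F γ).1 - w = -(y.u - bp (F γ).1) - (w - y.u) := by abel
    have h13 := norm_sub_le (-(y.u - bp (F γ).1)) (w - y.u)
    rw [← h12, norm_neg] at h13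
    have h14 : max C₀ 1 * y.t ≤ max C₀ 1 * Real.exp r2 :=
      mul_le_mul_of_nonneg_left (by linarith) (by positivity)
    linarith

end QIG
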