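import Mathlib

/-!
Coarsely bi-Lipschitz functions of a real variable tending to infinity are coarsely increasing.

PROOF.  Let `s ≤ s'`.  If `τ s' ≥ τ s`: `s'-s ≤ K(τ s'-τ s)+K`, so `τ s'-τ s ≥ (s'-s)/K - 1`.  If `τ s' < τ s`: the sequence
`τ (s'+j)`, `j = 0,1,…`, starts below `τ s`, tends to infinity, and has steps `≤ 2K`; let `j` be the first index with
`τ(s'+j) ≥ τ s`; then `|τ(s'+j) - τ s| ≤ 2K`, so `s'+j-s ≤ 2K²+K`, `s'-s ≤ 2K²+K` and
`|τ s'-τ s| ≤ K(2K²+K)+K`.  Take `C` accordingly.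
-/

namespace QIG

theorem coarse_mono {K : ℝ} (hK : 1 ≤ K) : ∃ C : ℝ, ∀ τ : ℝ → ℝ,
    (∀ s s', |τ s - τ s'| ≤ K * |s - s'| + K) → (∀ s s', |s - s'| ≤ K * |τ s - τ s'| + K) →
    (∀ B : ℝ, ∃ s₀ : ℝ, ∀ s, s₀ ≤ s → B ≤ τ s) →
      ∀ s s', s ≤ s' → (s' - s) / K - C ≤ τ s' - τ s := by
  refine ⟨(2 * K ^ 2 + K) + (K * (2 * K ^ 2 + K) + K) + 1, ?_⟩
  intro τ h1 h2 h3 s s' hss
  have hK0 : 0 < K := by linarith
  have hKK : 0 ≤ 2 * K ^ 2 + K := by positivity
  have hKK' : 0 ≤ K * (2 * K ^ 2 + K) + K := by positivity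
  by_cases hc : τ s ≤ τ s'
  · have h := h2 s' s
    rw [abs_of_nonneg (by linarith), abs_of_nonneg (by linarith)] at h
    have h' : (s' - s) / K ≤ (τ s' - τ s) + 1 := by
      rw [div_le_iff₀ hK0]
      nlinarith
    linarith
  · push Not at hc
    classical
    have hex : ∃ j : ℕ, τ s ≤ τ (s' + j) := by
      obtain ⟨s₀, hs₀⟩ := h3 (τ s)
      obtain ⟨j, hj⟩ := exists_nat_ge (s₀ - s')
      exact ⟨j, hs₀ _ (by linarith)⟩
    have hj1 := Nat.find_spec hex
    have hj0 : Nat.find hex ≠ 0 := by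
      intro h0
      rw [h0] at hj1
      simp only [Nat.cast_zero, add_zero] at hj1
      linarith
    obtain ⟨m, hm⟩ := Nat.exists_eq_succ_of_ne_zero hj0
    have hlt : ¬ (τ s ≤ τ (s' + m)) := Nat.find_min hex (by omega)
    push Not at hlt
    rw [hm] at hj1
    push_cast [Nat.succ_eq_add_one] at hj1
    have hstep := h1 (s' + (m + 1)) (s' + m)
    have e1 : |s' + ((m : ℝ) + 1) - (s' + m)| = 1 := by
      rw [show s' + ((m : ℝ) + 1) - (s' + m) = 1 by ring, abs_one]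
    rw [e1] at hstep
    have hstep' := le_trans (le_abs_self _) hstep
    have hback := h2 (s' + (m + 1)) s
    have hm0 : (0 : ℝ) ≤ m := Nat.cast_nonneg m
    rw [abs_of_nonneg (by linarith), abs_of_nonneg (by linarith)] at hback
    have hd : s' - s ≤ 2 * K ^ 2 + K := by nlinarith
    have h5 := h1 s s'
    have e2 : |s - s'| = s' - s := by
      rw [abs_sub_comm, abs_of_nonneg (by linarith)]
    rw [e2] at h5
    have h5' := le_trans (le_abs_self _) h5
    have h6 : K * (s' - s) ≤ K * (2 * K ^ 2 + K) := mul_le_mul_of_nonneg_left hd hK0.le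
    have h7 : (s' - s) / K ≤ s' - s := div_le_self (by linarith) hK
    linarith

end QIG
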