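import Pool.Agent.W_a51130_h62.BdLine
import Pool.Agent.W_a51130_h62.CMono

/-!
The boundary map is power quasisymmetric.

For `γ` not parabolic, `p = bp γ`, put `h p = bp (F γ)` and `τ_γ(s) = log (Φ (p, e^s)).t`.  By `line_image`,
`Φ(p,e^s) = (u,t)` with `‖u - h p‖² ≤ C t²`.

`tau_facts`: `hd (Φ(p,e^s)) (Φ(p,e^s'))` differs from `|τ(s)-τ(s')|` by a bounded amount (both points are near the
vertical line over `h p`), so `τ` satisfies the two hypotheses of `coarse_mono` with uniform constants; and it tends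
to infinity: for `n ≥ 0`, `Φ(p,e^n)` is near `P'.vx (F (tr v)) n = (w,e^n)`, `v` near `p`, so `τ(n) ≥ n - C` for `n ∈ ℕ`.

`bd_dist`: let `a = bp γ'` be another base point, `s = log ‖a - p‖`, `x = (p, e^s)`, `y = (a, e^s)`: `hd x y ≤ C`, so
`hd (Φ x)(Φ y) ≤ C`.  Upper bound: `Φ x` is near `(h p, e^τ(s))`, `Φ y` near `(h a, ·)`: `‖h p - h a‖ ≤ C e^(τ_γ(s))`.
Lower bound: let `σ = ‖h p - h a‖ > 0`; suppose `σ ≤ e^(τ_γ(s))` (otherwise nothing to prove).  The function `τ_γ` has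
bounded jumps on `s - j`, `j ∈ ℕ`, and tends to `-∞` at `-∞` (by `coarse_mono`, `τ(s) - τ(s-j) ≥ j/K - C`); so there is
`s₁ ≤ s` with `|τ_γ(s₁) - log σ| ≤ C`; similarly (for `γ'`, `|τ_γ'(s) - τ_γ(s)| ≤ C`) `s₂` with
`|τ_γ'(s₂) - log σ| ≤ C`.  Then `Φ(p,e^s₁)` and `Φ(a,e^s₂)` are both within bounded `hd` of `(h p, σ)`; so
`hd ((p,e^s₁),(a,e^s₂)) ≤ C`, hence `‖p-a‖ ≤ C e^s₁` (`norm_le_of_hd`), `s₁ ≥ s - C`, and
`τ_γ(s) ≤ τ_γ(s₁) + C ≤ log σ + C`.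

`bd_pqs`: `‖a-p‖ ≤ σ‖b-p‖`; `s_a = log ‖a-p‖`, `s_b = log ‖b-p‖`, `δ = s_a - s_b ≤ log σ`; by `bd_dist`,
`log ‖h a-h p‖ - log ‖h b-h p‖ ≤ τ(s_a) - τ(s_b) + C`.  If `δ ≤ 0`: `≤ δ/K + C` (`coarse_mono`), which is
`≤ (log σ)/K + C` if `σ ≤ 1` and `≤ C` if `σ > 1`.  If `δ > 0`: `σ > 1`, `≤ Kδ + C ≤ K log σ + C`.
(`a = p` is trivial.)
-/

namespace QIG

variable {m : ℕ}

/-- Logarithm of the height of the image of the point of height `e^s` over `p`. -/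
noncomputable def bqTau (Φ : HPt m → HPt m) (p : E m) (s : ℝ) : ℝ :=
  Real.log (Φ ⟨p, Real.exp s, Real.exp_pos s⟩).t

theorem bq_pt (p : E m) (t : ℝ) (ht : 0 < t) :
    (⟨p, t, ht⟩ : HPt m) = ⟨p, Real.exp (Real.log t), Real.exp_pos _⟩ := by
  apply HPt.ext
  · rfl
  · exact (Real.exp_log ht).symm

theorem bq_exp (Φ : HPt m → HPt m) (p : E m) (t : ℝ) (ht : 0 < t) :
    (Φ ⟨p, t, ht⟩).t = Real.exp (bqTau Φ p (Real.log t)) := by
  unfold bqTau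
  rw [← bq_pt p t ht, Real.exp_log (Φ ⟨p, t, ht⟩).pos]

theorem bq_near {C : ℝ} (p : E m) (x : HPt m) (h : sec2 p x ≤ C) :
    hd x ⟨p, x.t, x.pos⟩ ≤ Real.log (C + 1) := by
  have hx := x.pos
  refine Real.log_le_log (q_pos _ _) ?_
  have h1 : q x ⟨p, x.t, x.pos⟩ = sec2 p x + 1 := by
    unfold q sec2
    simp only
    field_simp
  rw [h1]
  linarith

theorem bq_norm {C : ℝ} (p : E m) (x : HPt m) (h : sec2 p x ≤ C) :
    ‖x.u - p‖ ≤ Real.sqrt C * x.t := by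
  have hx := x.pos
  have hC : 0 ≤ C := le_trans (le_trans zero_le_one (one_le_sec2 p x)) h
  have h1 : ‖x.u - p‖ ^ 2 ≤ C * x.t ^ 2 := by
    unfold sec2 at h
    rw [div_le_iff₀ (by positivity)] at h
    nlinarith [sq_nonneg x.t]
  apply abs_le_of_sq_le_sq' _ (by positivity) |>.2
  rw [mul_pow, Real.sq_sqrt hC]
  exact h1

theorem bq_hd_le {C : ℝ} (p : E m) (x y : HPt m) (hx : sec2 p x ≤ C) (hy : sec2 p y ≤ C) :
    hd x y ≤ |Real.log y.t - Real.log x.t| + (2 * Real.log (C + 1) + Real.log 2) := by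
  have h1 := bq_near p x hx
  have h2 := bq_near p y hy
  have h3 := hd_vert p x.pos y.pos
  have h4 := hd_triangle x ⟨p, x.t, x.pos⟩ y
  have h5 := hd_triangle ⟨p, x.t, x.pos⟩ ⟨p, y.t, y.pos⟩ y
  rw [hd_comm ⟨p, y.t, y.pos⟩ y] at h5
  linarith

/-- The facts on the height function used below. -/
theorem bq_facts {P P' : Piece m} {F : P.Γ → P'.Γ} {F' : P'.Γ → P.Γ}
    (hF : PieceMap P P' F F') {Φ : HPt m → HPt m} {K : ℝ} (hK : 1 ≤ K)
    (h1 : ∀ x y, hd (Φ x) (Φ y) ≤ K * (hd x y + 1))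
    (h2 : ∀ x y, hd x y ≤ K * (hd (Φ x) (Φ y) + 1))
    (h3 : ∀ g n, hd (Φ (P.vx g n)) (P'.vx (F g) n) ≤ K) :
    ∃ C₁ K₁ C₂ : ℝ, 1 ≤ C₁ ∧ 1 ≤ K₁ ∧ 0 ≤ C₂ ∧ ∀ γ : P.Γ, ¬ P.Par γ →
      (∀ (t : ℝ) (ht : 0 < t), sec2 (bp (F γ).1) (Φ ⟨bp γ.1, t, ht⟩) ≤ C₁) ∧
      (∀ s s', |bqTau Φ (bp γ.1) s - bqTau Φ (bp γ.1) s'| ≤ K₁ * |s - s'| + K₁) ∧
      (∀ s s', s ≤ s' → (s' - s) / K₁ - C₂ ≤ bqTau Φ (bp γ.1) s' - bqTau Φ (bp γ.1) s) := by
  obtain ⟨C₀, hC₀⟩ := line_image hF hK h1 h2 h3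
  set C₁ : ℝ := max C₀ 1 with hC₁
  set r₀ : ℝ := 2 * Real.log (C₁ + 1) + Real.log 2 with hr₀
  have hlog2 : 0 < Real.log 2 := Real.log_pos one_lt_two
  have hlog2' : Real.log 2 ≤ 1 := by
    have := Real.log_le_sub_one_of_pos (zero_lt_two' ℝ)
    linarith
  have hC₁1 : 1 ≤ C₁ := le_max_right _ _
  have hr₀0 : 0 ≤ r₀ := by
    have : 0 ≤ Real.log (C₁ + 1) := Real.log_nonneg (by linarith)
    linarith
  set K₁ : ℝ := K * (r₀ + 3) with hK₁
  have hKpos : 0 < K := by linarith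
  have hK₁1 : 1 ≤ K₁ := by nlinarith
  obtain ⟨C₂, hC₂⟩ := coarse_mono hK₁1
  refine ⟨C₁, K₁, max C₂ 0, hC₁1, hK₁1, le_max_right _ _, fun γ hγ => ?_⟩
  have hsec : ∀ (t : ℝ) (ht : 0 < t), sec2 (bp (F γ).1) (Φ ⟨bp γ.1, t, ht⟩) ≤ C₁ :=
    fun t ht => (hC₀ γ hγ t ht).trans (le_max_left _ _)
  have hvert : ∀ s s' : ℝ, hd (⟨bp γ.1, Real.exp s, Real.exp_pos s⟩ : HPt m)
      ⟨bp γ.1, Real.exp s', Real.exp_pos s'⟩ ≤ |s - s'| + 1 := by
    intro s s'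
    have := hd_vert (bp γ.1) (Real.exp_pos s) (Real.exp_pos s')
    rw [Real.log_exp, Real.log_exp, abs_sub_comm] at this
    linarith
  have ha : ∀ s s', |bqTau Φ (bp γ.1) s - bqTau Φ (bp γ.1) s'| ≤ K₁ * |s - s'| + K₁ := by
    intro s s'
    have e1 := log_sub_log_le_hd (Φ ⟨bp γ.1, Real.exp s', Real.exp_pos s'⟩)
      (Φ ⟨bp γ.1, Real.exp s, Real.exp_pos s⟩)
    have e2 := h1 ⟨bp γ.1, Real.exp s', Real.exp_pos s'⟩ ⟨bp γ.1, Real.exp s, Real.exp_pos s⟩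
    have e3 := hvert s' s
    rw [abs_sub_comm s' s] at e3
    have e4 : K * (hd (⟨bp γ.1, Real.exp s', Real.exp_pos s'⟩ : HPt m)
      ⟨bp γ.1, Real.exp s, Real.exp_pos s⟩ + 1) ≤ K * (|s - s'| + 1 + 1) := by gcongr
    have e5 : K * (|s - s'| + 1 + 1) ≤ K₁ * |s - s'| + K₁ := by
      have : 0 ≤ K * (r₀ + 2) * |s - s'| + K * (r₀ + 1) := by positivity
      rw [hK₁]
      nlinarith
    exact e1.trans (e2.trans (e4.trans e5))
  have hb : ∀ s s', |s - s'| ≤ K₁ * |bqTau Φ (bp γ.1) s - bqTau Φ (bp γ.1) s'| + K₁ := by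
    intro s s'
    have e1 := log_sub_log_le_hd (⟨bp γ.1, Real.exp s', Real.exp_pos s'⟩ : HPt m)
      ⟨bp γ.1, Real.exp s, Real.exp_pos s⟩
    simp only [Real.log_exp] at e1
    have e2 := h2 ⟨bp γ.1, Real.exp s', Real.exp_pos s'⟩ ⟨bp γ.1, Real.exp s, Real.exp_pos s⟩
    have e3 := bq_hd_le _ _ _ (hsec _ (Real.exp_pos s')) (hsec _ (Real.exp_pos s))
    have e4 : K * (hd (Φ ⟨bp γ.1, Real.exp s', Real.exp_pos s'⟩)
      (Φ ⟨bp γ.1, Real.exp s, Real.exp_pos s⟩) + 1) ≤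
        K * (|bqTau Φ (bp γ.1) s - bqTau Φ (bp γ.1) s'| + r₀ + 1) := by
      have : hd (Φ ⟨bp γ.1, Real.exp s', Real.exp_pos s'⟩)
        (Φ ⟨bp γ.1, Real.exp s, Real.exp_pos s⟩) ≤
          |bqTau Φ (bp γ.1) s - bqTau Φ (bp γ.1) s'| + r₀ := e3
      gcongr
    have e5 : K * (|bqTau Φ (bp γ.1) s - bqTau Φ (bp γ.1) s'| + r₀ + 1) ≤
        K₁ * |bqTau Φ (bp γ.1) s - bqTau Φ (bp γ.1) s'| + K₁ := by
      have h0 := abs_nonneg (bqTau Φ (bp γ.1) s - bqTau Φ (bp γ.1) s')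
      have : 0 ≤ K * (r₀ + 2) * |bqTau Φ (bp γ.1) s - bqTau Φ (bp γ.1) s'| + K * 2 := by
        positivity
      rw [hK₁]
      nlinarith
    exact e1.trans (e2.trans (e4.trans e5))
  have hinf : ∀ B : ℝ, ∃ s₀ : ℝ, ∀ s, s₀ ≤ s → B ≤ bqTau Φ (bp γ.1) s := by
    obtain ⟨ρ, hρ, hcov⟩ := P.lat_cover
    obtain ⟨v, hv⟩ := hcov (bp γ.1)
    obtain ⟨r, hr0, hr⟩ := exists_hd_le (max ρ 1)
    -- the lower bound at the integers
    have hint : ∀ n : ℕ, (n : ℝ) - (K * (r + 1) + K) ≤ bqTau Φ (bp γ.1) n := by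
      intro n
      have hexp : 1 ≤ Real.exp (n : ℝ) := Real.one_le_exp (Nat.cast_nonneg n)
      have hvx : P.vx (P.tr v) n = ⟨(v : E m), Real.exp n, Real.exp_pos _⟩ := by
        apply HPt.ext
        · change (transl (v : E m) ⟨0, Real.exp n, Real.exp_pos _⟩).u = v
          simp
        · rfl
      obtain ⟨K₀, hlat⟩ := hF.lat
      obtain ⟨v', hv', -⟩ := hlat 1 v
      rw [one_mul] at hv'
      have hpar : P'.Par (F (P.tr v)) := by
        rw [hv']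
        exact P'.par_mul hF.par (P'.par_tr v')
      obtain ⟨w, hw⟩ := hpar
      have ht' : (P'.vx (F (P.tr v)) n).t = Real.exp n := by
        unfold Piece.vx
        rw [hw]
        rfl
      have hmax : 1 ≤ max ρ 1 := le_max_right _ _
      have e1 : hd (⟨bp γ.1, Real.exp n, Real.exp_pos _⟩ : HPt m) (P.vx (P.tr v) n) ≤ r := by
        rw [hvx]
        apply hr
        · change ‖bp γ.1 - (v : E m)‖ ≤ max ρ 1 * Real.exp n
          have : max ρ 1 * 1 ≤ max ρ 1 * Real.exp n := by gcongr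
          linarith [le_max_left ρ 1]
        · change Real.exp n ≤ max ρ 1 * Real.exp n
          nlinarith
        · change Real.exp n ≤ max ρ 1 * Real.exp n
          nlinarith
      have e2 := h1 ⟨bp γ.1, Real.exp n, Real.exp_pos _⟩ (P.vx (P.tr v) n)
      have e3 := h3 (P.tr v) n
      have e4 := hd_triangle (Φ ⟨bp γ.1, Real.exp n, Real.exp_pos _⟩) (Φ (P.vx (P.tr v) n))
        (P'.vx (F (P.tr v)) n)
      have e5 := log_sub_log_le_hd (Φ ⟨bp γ.1, Real.exp n, Real.exp_pos _⟩)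
        (P'.vx (F (P.tr v)) n)
      rw [ht', Real.log_exp] at e5
      have e6 : K * (hd (⟨bp γ.1, Real.exp n, Real.exp_pos _⟩ : HPt m) (P.vx (P.tr v) n) + 1) ≤
        K * (r + 1) := by gcongr
      have e7 := (abs_le.1 e5).2
      change (n : ℝ) - (K * (r + 1) + K) ≤
        Real.log (Φ ⟨bp γ.1, Real.exp n, Real.exp_pos _⟩).t
      linarith
    intro B
    refine ⟨max 0 (B + (K * (r + 1) + K) + 2 * K₁ + 1), fun s hs => ?_⟩
    have hs0 : 0 ≤ s := (le_max_left _ _).trans hs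
    have hs1 := (le_max_right _ _).trans hs
    have e1 := hint ⌊s⌋₊
    have e2 := ha s (⌊s⌋₊ : ℝ)
    have e3 := Nat.floor_le hs0
    have e4 := Nat.lt_floor_add_one s
    have e5 : |s - (⌊s⌋₊ : ℝ)| ≤ 1 := by
      rw [abs_le]
      constructor <;> linarith
    have e6 : K₁ * |s - (⌊s⌋₊ : ℝ)| ≤ K₁ * 1 := by gcongr
    have e7 := (abs_le.1 e2).1
    linarith
  refine ⟨hsec, ha, fun s s' hss => ?_⟩
  have := hC₂ (bqTau Φ (bp γ.1)) ha hb hinf s s' hss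
  have h5 := le_max_left C₂ 0
  linarith

theorem bq_desc {τ : ℝ → ℝ} {K₁ C₂ : ℝ} (hK₁ : 1 ≤ K₁)
    (ha : ∀ s s', |τ s - τ s'| ≤ K₁ * |s - s'| + K₁)
    (hb : ∀ s s', s ≤ s' → (s' - s) / K₁ - C₂ ≤ τ s' - τ s) (s L A : ℝ) (hA : 0 ≤ A)
    (hs : L - A ≤ τ s) : ∃ s₁ ≤ s, |τ s₁ - L| ≤ A + 2 * K₁ := by
  have hK0 : 0 < K₁ := by linarith
  by_cases hL : τ s ≤ L
  · refine ⟨s, le_refl s, ?_⟩
    rw [abs_le]
    constructor <;> linarith
  push Not at hL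
  have hex : ∃ j : ℕ, τ (s - j) ≤ L := by
    obtain ⟨j, hj⟩ := exists_nat_ge (K₁ * (τ s - L + C₂))
    refine ⟨j, ?_⟩
    have e1 := hb (s - j) s (by linarith [(Nat.cast_nonneg j : (0 : ℝ) ≤ j)])
    have e2 : τ s - L + C₂ ≤ (s - (s - j)) / K₁ := by
      rw [le_div_iff₀ hK0]
      linarith
    linarith
  classical
  set j := Nat.find hex with hj
  have hj1 : τ (s - j) ≤ L := Nat.find_spec hex
  have hj0 : j ≠ 0 := by
    intro h0
    rw [h0] at hj1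
    simp only [Nat.cast_zero, sub_zero] at hj1
    linarith
  obtain ⟨i, hi⟩ := Nat.exists_eq_succ_of_ne_zero hj0
  have hi1 : L < τ (s - i) := by
    have : ¬ τ (s - i) ≤ L := Nat.find_min hex (by omega)
    exact not_le.1 this
  refine ⟨s - j, by linarith [(Nat.cast_nonneg j : (0 : ℝ) ≤ j)], ?_⟩
  have e1 := ha (s - i) (s - j)
  have e2 : |s - (i : ℝ) - (s - j)| = 1 := by
    rw [hi]
    push_cast
    rw [show s - (i : ℝ) - (s - (i + 1)) = 1 by ring, abs_one]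
  rw [e2] at e1
  have e3 := (abs_le.1 e1).2
  rw [abs_le]
  constructor <;> linarith

theorem bd_dist {P P' : Piece m} {F : P.Γ → P'.Γ} {F' : P'.Γ → P.Γ}
    (hF : PieceMap P P' F F') {Φ : HPt m → HPt m} {K : ℝ} (hK : 1 ≤ K)
    (h1 : ∀ x y, hd (Φ x) (Φ y) ≤ K * (hd x y + 1))
    (h2 : ∀ x y, hd x y ≤ K * (hd (Φ x) (Φ y) + 1))
    (h3 : ∀ g n, hd (Φ (P.vx g n)) (P'.vx (F g) n) ≤ K) :
    ∃ C : ℝ, 0 < C ∧ ∀ γ γ' : P.Γ, ¬ P.Par γ → ¬ P.Par γ' → ∀ (ht : 0 < ‖bp γ'.1 - bp γ.1‖),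
      ‖bp (F γ').1 - bp (F γ).1‖ ≤ C * (Φ ⟨bp γ.1, ‖bp γ'.1 - bp γ.1‖, ht⟩).t ∧
      (Φ ⟨bp γ.1, ‖bp γ'.1 - bp γ.1‖, ht⟩).t ≤ C * ‖bp (F γ').1 - bp (F γ).1‖ := by
  obtain ⟨C₁, K₁, C₂, hC₁, hK₁, hC₂, hfacts⟩ := bq_facts hF hK h1 h2 h3
  have hK0 : 0 < K := by linarith
  have hK₁0 : 0 < K₁ := by linarith
  -- the distance of the two points
  set r₂ : ℝ := K * (Real.log 3 + 1) with hr₂
  have hlog3 : 0 ≤ Real.log 3 := Real.log_nonneg (by norm_num)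
  have hr₂0 : 0 ≤ r₂ := by positivity
  -- constants for the lower bound
  set B : ℝ := r₂ + 2 * K₁ with hB
  have hB0 : 0 ≤ B := by positivity
  set A : ℝ := Real.exp B * (Real.sqrt C₁ + 1) with hA
  obtain ⟨r₃, hr₃0, hr₃⟩ := exists_hd_le A
  set r₄ : ℝ := K * (2 * r₃ + 1) with hr₄
  have hr₄0 : 0 ≤ r₄ := by positivity
  set CU : ℝ := Real.sqrt C₁ + Real.exp r₂ + Real.sqrt C₁ * Real.exp r₂ with hCU
  set CL : ℝ := Real.exp (B + K₁ * r₄ + K₁) with hCL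
  have hsq0 : 0 ≤ Real.sqrt C₁ := Real.sqrt_nonneg _
  have hCU0 : 0 < CU := by positivity
  have hCL0 : 0 < CL := Real.exp_pos _
  refine ⟨max CU CL, lt_max_of_lt_left hCU0, fun γ γ' hγ hγ' ht => ?_⟩
  obtain ⟨f1, f2, f3⟩ := hfacts γ hγ
  obtain ⟨g1, g2, g3⟩ := hfacts γ' hγ'
  set d : ℝ := ‖bp γ'.1 - bp γ.1‖ with hd'
  set X : HPt m := Φ ⟨bp γ.1, d, ht⟩ with hX
  set Y : HPt m := Φ ⟨bp γ'.1, d, ht⟩ with hY
  have hXpos := X.pos
  have hxy : hd (⟨bp γ.1, d, ht⟩ : HPt m) ⟨bp γ'.1, d, ht⟩ ≤ Real.log 3 := by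
    refine Real.log_le_log (q_pos _ _) ?_
    have : q (⟨bp γ.1, d, ht⟩ : HPt m) ⟨bp γ'.1, d, ht⟩ = 3 := by
      unfold q
      simp only
      rw [norm_sub_rev, ← hd']
      field_simp
      ring
    rw [this]
  have hXY : hd X Y ≤ r₂ := by
    refine (h1 _ _).trans ?_
    rw [hr₂]
    gcongr
  have hnX := bq_norm _ _ (f1 d ht)
  have hnY := bq_norm _ _ (g1 d ht)
  have hn := norm_le_of_hd hXY
  have hYt := t_le_of_hd hXY
  have htri : ‖bp (F γ').1 - bp (F γ).1‖ ≤ ‖Y.u - bp (F γ').1‖ + ‖X.u - Y.u‖ +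
      ‖X.u - bp (F γ).1‖ := by
    have : bp (F γ').1 - bp (F γ).1 =
        -(Y.u - bp (F γ').1) + -(X.u - Y.u) + (X.u - bp (F γ).1) := by abel
    rw [this]
    refine (norm_add_le _ _).trans ?_
    have := norm_add_le (-(Y.u - bp (F γ').1)) (-(X.u - Y.u))
    rw [norm_neg, norm_neg] at this
    linarith
  constructor
  · have e1 : ‖Y.u - bp (F γ').1‖ ≤ Real.sqrt C₁ * (Real.exp r₂ * X.t) :=
      hnY.trans (by gcongr)
    have e2 : ‖bp (F γ').1 - bp (F γ).1‖ ≤ CU * X.t := by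
      rw [hCU]
      have : (Real.sqrt C₁ + Real.exp r₂ + Real.sqrt C₁ * Real.exp r₂) * X.t =
        Real.sqrt C₁ * X.t + Real.exp r₂ * X.t + Real.sqrt C₁ * (Real.exp r₂ * X.t) := by ring
      rw [this]
      linarith
    refine e2.trans ?_
    gcongr
    exact le_max_left _ _
  · -- it is enough to bound by every positive number above the distance
    suffices hσ : ∀ σ : ℝ, 0 < σ → ‖bp (F γ').1 - bp (F γ).1‖ ≤ σ → X.t ≤ CL * σ by
      have e1 : X.t / CL ≤ ‖bp (F γ').1 - bp (F γ).1‖ := by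
        by_contra hc
        push Not at hc
        obtain ⟨σ, hσ1, hσ2⟩ := exists_between hc
        have e2 := hσ σ (lt_of_le_of_lt (norm_nonneg _) hσ1) hσ1.le
        rw [lt_div_iff₀ hCL0] at hσ2
        linarith
      rw [div_le_iff₀ hCL0] at e1
      calc X.t ≤ ‖bp (F γ').1 - bp (F γ).1‖ * CL := e1
        _ ≤ ‖bp (F γ').1 - bp (F γ).1‖ * max CU CL := by
            gcongr
            exact le_max_right _ _
        _ = max CU CL * ‖bp (F γ').1 - bp (F γ).1‖ := mul_comm _ _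
    intro σ hσ hle
    set s : ℝ := Real.log d with hs
    have hXtau : X.t = Real.exp (bqTau Φ (bp γ.1) s) := bq_exp Φ _ d ht
    have hYtau : Y.t = Real.exp (bqTau Φ (bp γ'.1) s) := bq_exp Φ _ d ht
    by_cases hcase : X.t ≤ σ
    · refine hcase.trans ?_
      have : 1 ≤ CL := Real.one_le_exp (by positivity)
      nlinarith
    push Not at hcase
    have hlogX : Real.log σ < bqTau Φ (bp γ.1) s := by
      rw [hXtau] at hcase
      rwa [Real.log_lt_iff_lt_exp hσ]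
    have hlogY : Real.log σ - r₂ ≤ bqTau Φ (bp γ'.1) s := by
      have e1 := (log_sub_log_le_hd X Y).trans hXY
      rw [hXtau, hYtau, Real.log_exp, Real.log_exp] at e1
      have := (abs_le.1 e1).1
      linarith
    obtain ⟨s₁, hs₁, hs₁'⟩ := bq_desc hK₁ f2 f3 s (Real.log σ) r₂ hr₂0 (by linarith)
    obtain ⟨s₂, hs₂, hs₂'⟩ := bq_desc hK₁ g2 g3 s (Real.log σ) r₂ hr₂0 hlogY
    -- the two image points
    have hnear : ∀ (δ : P.Γ) (s' : ℝ), ¬ P.Par δ →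
        (∀ (t : ℝ) (ht : 0 < t), sec2 (bp (F δ).1) (Φ ⟨bp δ.1, t, ht⟩) ≤ C₁) →
        |bqTau Φ (bp δ.1) s' - Real.log σ| ≤ B → ‖bp (F δ).1 - bp (F γ).1‖ ≤ σ →
        hd (Φ ⟨bp δ.1, Real.exp s', Real.exp_pos s'⟩) ⟨bp (F γ).1, σ, hσ⟩ ≤ r₃ := by
      intro δ s' _ hsec hτ hdist
      set Z : HPt m := Φ ⟨bp δ.1, Real.exp s', Real.exp_pos s'⟩ with hZ
      have hZpos := Z.pos
      have hZt : Real.log Z.t = bqTau Φ (bp δ.1) s' := rfl
      rw [← hZt] at hτ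
      obtain ⟨hτ1, hτ2⟩ := abs_le.1 hτ
      have hZ1 : Z.t ≤ Real.exp B * σ := by
        have : Real.log Z.t ≤ Real.log (Real.exp B * σ) := by
          rw [Real.log_mul (Real.exp_pos _).ne' hσ.ne', Real.log_exp]
          linarith
        exact (Real.log_le_log_iff hZpos (by positivity)).1 this
      have hZ2 : σ ≤ Real.exp B * Z.t := by
        have : Real.log σ ≤ Real.log (Real.exp B * Z.t) := by
          rw [Real.log_mul (Real.exp_pos _).ne' hZpos.ne', Real.log_exp]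
          linarith
        exact (Real.log_le_log_iff hσ (by positivity)).1 this
      have hnZ := bq_norm _ _ (hsec (Real.exp s') (Real.exp_pos s'))
      have hexpB : 1 ≤ Real.exp B := Real.one_le_exp hB0
      apply hr₃
      · change ‖Z.u - bp (F γ).1‖ ≤ A * Z.t
        have e1 : ‖Z.u - bp (F γ).1‖ ≤ ‖Z.u - bp (F δ).1‖ + ‖bp (F δ).1 - bp (F γ).1‖ :=
          norm_sub_le_norm_sub_add_norm_sub _ _ _
        have e2 : A * Z.t = Real.exp B * (Real.sqrt C₁ * Z.t) + Real.exp B * Z.t := by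
          rw [hA]
          ring
        have e3 : Real.sqrt C₁ * Z.t ≤ Real.exp B * (Real.sqrt C₁ * Z.t) :=
          le_mul_of_one_le_left (by positivity) hexpB
        rw [e2]
        linarith
      · change σ ≤ A * Z.t
        have : Real.exp B * Z.t ≤ A * Z.t := by
          rw [hA]
          have : Real.exp B * 1 ≤ Real.exp B * (Real.sqrt C₁ + 1) := by
            gcongr
            linarith
          rw [mul_one] at this
          gcongr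
        linarith
      · change Z.t ≤ A * σ
        have : Real.exp B * σ ≤ A * σ := by
          rw [hA]
          have : Real.exp B * 1 ≤ Real.exp B * (Real.sqrt C₁ + 1) := by
            gcongr
            linarith
          rw [mul_one] at this
          gcongr
        linarith
    have n1 := hnear γ s₁ hγ f1 hs₁' (by rw [sub_self, norm_zero]; exact hσ.le)
    have n2 := hnear γ' s₂ hγ' g1 hs₂' hle
    have n3 : hd (Φ ⟨bp γ.1, Real.exp s₁, Real.exp_pos s₁⟩)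
        (Φ ⟨bp γ'.1, Real.exp s₂, Real.exp_pos s₂⟩) ≤ 2 * r₃ := by
      have := hd_triangle (Φ ⟨bp γ.1, Real.exp s₁, Real.exp_pos s₁⟩) ⟨bp (F γ).1, σ, hσ⟩
        (Φ ⟨bp γ'.1, Real.exp s₂, Real.exp_pos s₂⟩)
      rw [hd_comm ⟨bp (F γ).1, σ, hσ⟩ _] at this
      linarith
    have n4 : hd (⟨bp γ.1, Real.exp s₁, Real.exp_pos s₁⟩ : HPt m)
        ⟨bp γ'.1, Real.exp s₂, Real.exp_pos s₂⟩ ≤ r₄ := by
      refine (h2 _ _).trans ?_
      rw [hr₄]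
      gcongr
    have n5 := norm_le_of_hd n4
    change ‖bp γ.1 - bp γ'.1‖ ≤ Real.exp r₄ * Real.exp s₁ at n5
    rw [norm_sub_rev, ← hd', ← Real.exp_add] at n5
    have n6 : s ≤ r₄ + s₁ := by
      rw [hs, Real.log_le_iff_le_exp ht]
      exact n5
    have n7 := f2 s s₁
    have n8 : |s - s₁| ≤ r₄ := by
      rw [abs_le]
      constructor <;> linarith
    have n9 : K₁ * |s - s₁| ≤ K₁ * r₄ := by gcongr
    have n10 := (abs_le.1 n7).2
    have n11 := (abs_le.1 hs₁').2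
    have n12 : bqTau Φ (bp γ.1) s ≤ (B + K₁ * r₄ + K₁) + Real.log σ := by
      rw [hB]
      linarith
    rw [hXtau]
    calc Real.exp (bqTau Φ (bp γ.1) s) ≤ Real.exp ((B + K₁ * r₄ + K₁) + Real.log σ) :=
          Real.exp_le_exp.2 n12
      _ = CL * σ := by rw [Real.exp_add, Real.exp_log hσ]

/-- Heights along the image of a vertical line. -/
theorem bd_height {P P' : Piece m} {F : P.Γ → P'.Γ} {F' : P'.Γ → P.Γ}
    (hF : PieceMap P P' F F') {Φ : HPt m → HPt m} {K : ℝ} (hK : 1 ≤ K)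
    (h1 : ∀ x y, hd (Φ x) (Φ y) ≤ K * (hd x y + 1))
    (h2 : ∀ x y, hd x y ≤ K * (hd (Φ x) (Φ y) + 1))
    (h3 : ∀ g n, hd (Φ (P.vx g n)) (P'.vx (F g) n) ≤ K) :
    ∃ C K' : ℝ, 0 < C ∧ 1 ≤ K' ∧ ∀ γ : P.Γ, ¬ P.Par γ → ∀ (t t' : ℝ) (ht : 0 < t) (ht' : 0 < t'),
      (Φ ⟨bp γ.1, t, ht⟩).t ≤
        C * max ((t / t') ^ (1 / K')) ((t / t') ^ K') * (Φ ⟨bp γ.1, t', ht'⟩).t := by
  obtain ⟨C₁, K₁, C₂, hC₁, hK₁, hC₂, hfacts⟩ := bq_facts hF hK h1 h2 h3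
  have hK₁0 : 0 < K₁ := by linarith
  refine ⟨Real.exp (C₂ + K₁), K₁, Real.exp_pos _, hK₁, fun γ hγ t t' ht ht' => ?_⟩
  obtain ⟨-, f2, f3⟩ := hfacts γ hγ
  rw [bq_exp Φ _ t ht, bq_exp Φ _ t' ht']
  have hr : 0 < t / t' := by positivity
  have hlog : Real.log (t / t') = Real.log t - Real.log t' := Real.log_div ht.ne' ht'.ne'
  have hpow : ∀ c : ℝ, (t / t') ^ c = Real.exp ((Real.log t - Real.log t') * c) := by
    intro c
    rw [Real.rpow_def_of_pos hr, hlog]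
  -- it suffices to treat the exponents
  have key : ∀ c : ℝ, bqTau Φ (bp γ.1) (Real.log t) - bqTau Φ (bp γ.1) (Real.log t') ≤
      (C₂ + K₁) + (Real.log t - Real.log t') * c →
      Real.exp (bqTau Φ (bp γ.1) (Real.log t)) ≤ Real.exp (C₂ + K₁) * (t / t') ^ c *
        Real.exp (bqTau Φ (bp γ.1) (Real.log t')) := by
    intro c hc
    rw [hpow, ← Real.exp_add, ← Real.exp_add]
    exact Real.exp_le_exp.2 (by linarith)
  rcases le_total (Real.log t) (Real.log t') with hle | hle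
  · refine (key (1 / K₁) ?_).trans ?_
    · have := f3 _ _ hle
      have e : (Real.log t - Real.log t') * (1 / K₁) = -((Real.log t' - Real.log t) / K₁) := by
        ring
      rw [e]
      linarith
    · gcongr
      exact le_max_left _ _
  · refine (key K₁ ?_).trans ?_
    · have e1 := (abs_le.1 (f2 (Real.log t) (Real.log t'))).2
      rw [abs_of_nonneg (by linarith)] at e1
      linarith
    · gcongr
      exact le_max_right _ _

theorem bq_max_mono {σ r K' K'' : ℝ} (hr : 0 < r) (hrσ : r ≤ σ) (hK' : 1 ≤ K') (hK : K' ≤ K'') :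
    max (r ^ (1 / K')) (r ^ K') ≤ max (σ ^ (1 / K'')) (σ ^ K'') := by
  have hσ : 0 < σ := lt_of_lt_of_le hr hrσ
  have hK'0 : 0 < K' := by linarith
  have hK''0 : 0 < K'' := by linarith
  have h1K : 1 / K'' ≤ 1 / K' := one_div_le_one_div_of_le hK'0 hK
  have h1K' : 1 / K' ≤ 1 := by
    rw [div_le_one hK'0]
    exact hK'
  have a1 : r ^ (1 / K') ≤ σ ^ (1 / K') := Real.rpow_le_rpow hr.le hrσ (by positivity)
  have a2 : r ^ K' ≤ σ ^ K' := Real.rpow_le_rpow hr.le hrσ hK'0.le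
  rcases le_total σ 1 with h | h
  · have b1 : σ ^ (1 / K') ≤ σ ^ (1 / K'') := Real.rpow_le_rpow_of_exponent_ge hσ h h1K
    have b2 : σ ^ K' ≤ σ ^ (1 / K'') := Real.rpow_le_rpow_of_exponent_ge hσ h (by linarith)
    exact max_le ((a1.trans b1).trans (le_max_left _ _)) ((a2.trans b2).trans (le_max_left _ _))
  · have b1 : σ ^ (1 / K') ≤ σ ^ K'' := Real.rpow_le_rpow_of_exponent_le h (by linarith)
    have b2 : σ ^ K' ≤ σ ^ K'' := Real.rpow_le_rpow_of_exponent_le h hK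
    exact max_le ((a1.trans b1).trans (le_max_right _ _)) ((a2.trans b2).trans (le_max_right _ _))

theorem bd_pqs {P P' : Piece m} {F : P.Γ → P'.Γ} {F' : P'.Γ → P.Γ}
    (hF : PieceMap P P' F F') {Φ : HPt m → HPt m} {K : ℝ} (hK : 1 ≤ K)
    (h1 : ∀ x y, hd (Φ x) (Φ y) ≤ K * (hd x y + 1))
    (h2 : ∀ x y, hd x y ≤ K * (hd (Φ x) (Φ y) + 1))
    (h3 : ∀ g n, hd (Φ (P.vx g n)) (P'.vx (F g) n) ≤ K) :
    ∃ C K' : ℝ, 1 ≤ C ∧ 1 ≤ K' ∧ ∀ h : E m → E m, (∀ γ : P.Γ, ¬ P.Par γ → h (bp γ.1) = bp (F γ).1) →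
      ∀ K'', K' ≤ K'' → PQS P.Q h C K'' := by
  obtain ⟨C₃, hC₃, hdist⟩ := bd_dist hF hK h1 h2 h3
  obtain ⟨C₄, K', hC₄, hK', hheight⟩ := bd_height hF hK h1 h2 h3
  refine ⟨max (C₃ * C₄ * C₃) 1, K', le_max_right _ _, hK', ?_⟩
  intro h hh K'' hK''
  rintro p ⟨γ, hγ, rfl⟩ a ⟨γa, hγa, rfl⟩ b ⟨γb, hγb, rfl⟩ σ hσ hab
  rw [hh γ hγ, hh γa hγa, hh γb hγb]
  have hσ1 : 0 < σ ^ (1 / K'') := Real.rpow_pos_of_pos hσ _
  have hM : 0 < max (σ ^ (1 / K'')) (σ ^ K'') := lt_max_of_lt_left hσ1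
  by_cases hap : bp γa.1 = bp γ.1
  · -- the same point
    have e1 : bp (F γa).1 = bp (F γ).1 := by rw [← hh γa hγa, ← hh γ hγ, hap]
    rw [e1, sub_self, norm_zero]
    positivity
  have hta : 0 < ‖bp γa.1 - bp γ.1‖ := norm_pos_iff.2 (sub_ne_zero.2 hap)
  have htb : 0 < ‖bp γb.1 - bp γ.1‖ := by
    by_contra hc
    have : ‖bp γb.1 - bp γ.1‖ ≤ 0 := not_lt.1 hc
    nlinarith
  have e1 := (hdist γ γa hγ hγa hta).1
  have e2 := (hdist γ γb hγ hγb htb).2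
  have e3 := hheight γ hγ _ _ hta htb
  have hr : 0 < ‖bp γa.1 - bp γ.1‖ / ‖bp γb.1 - bp γ.1‖ := by positivity
  have hrσ : ‖bp γa.1 - bp γ.1‖ / ‖bp γb.1 - bp γ.1‖ ≤ σ := by
    rw [div_le_iff₀ htb]
    exact hab
  have e4 := bq_max_mono hr hrσ hK' hK''
  have hXb := (Φ ⟨bp γ.1, ‖bp γb.1 - bp γ.1‖, htb⟩).pos
  calc ‖bp (F γa).1 - bp (F γ).1‖ ≤ C₃ * (Φ ⟨bp γ.1, ‖bp γa.1 - bp γ.1‖, hta⟩).t := e1
    _ ≤ C₃ * (C₄ * max (σ ^ (1 / K'')) (σ ^ K'') *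
          (C₃ * ‖bp (F γb).1 - bp (F γ).1‖)) := by
        gcongr
        refine e3.trans ?_
        gcongr
    _ = (C₃ * C₄ * C₃) * max (σ ^ (1 / K'')) (σ ^ K'') * ‖bp (F γb).1 - bp (F γ).1‖ := by ring
    _ ≤ max (C₃ * C₄ * C₃) 1 * max (σ ^ (1 / K'')) (σ ^ K'') *
          ‖bp (F γb).1 - bp (F γ).1‖ := by
        gcongr
        exact le_max_left _ _

end QIG
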