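import Pool.Agent.W_a51130_h62.PcLat

/-!
Condition numbers.

PROOFS.
`cond_eq`: if `A₁ Ψ = Ψ' A₀` with similarities: `‖A₁ Ψ‖ = σ₁‖Ψ‖`, `‖Ψ' A₀‖ = σ₀‖Ψ'‖` (`A₀` is onto: finite dimension), and for the
inverses `‖Ψ⁻¹A₁⁻¹‖ = ‖Ψ⁻¹‖/σ₁`, `‖A₀⁻¹Ψ'⁻¹‖ = ‖Ψ'⁻¹‖/σ₀`.
`cond_symm`: clear.
`exists_cond_gt`: let `ψ₀` (with extension `Ψ₀`) be any isomorphism, `b` a `ℤ`-basis of `P.lat` (`exists_basis`), `m ≥ 2`;
the shear `σ_k : b_0 ↦ b_0 + k b_1`, other `b_j` fixed, is an automorphism of `P.lat` with linear extension `Σ_k`.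
`Σ_k = Ψ₀⁻¹(Ψ₀ Σ_k)`, so `cond Σ_k ≤ cond Ψ₀ · cond (Ψ₀ Σ_k)`; and `cond Σ_k ≥ ‖Σ_k b_0‖/‖b_0‖ · ‖Σ_k⁻¹ b_1‖/‖b_1‖ =
‖b_0 + k b_1‖/‖b_0‖ → ∞`.
`exists_seq`: choose recursively `ψ_(n+1)` with `cond > max` of the previous ones.
-/

namespace QIG

variable {m : ℕ}

/-- Condition number. -/
noncomputable def cnd (Ψ : E m ≃L[ℝ] E m) : ℝ :=
  ‖(Ψ : E m →L[ℝ] E m)‖ * ‖(Ψ.symm : E m →L[ℝ] E m)‖

theorem cnd_symm (Ψ : E m ≃L[ℝ] E m) : cnd Ψ.symm = cnd Ψ := by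
  unfold cnd
  rw [ContinuousLinearEquiv.symm_symm, mul_comm]

theorem condN_surj {A : E m →L[ℝ] E m} {σ : ℝ} (h0 : 0 < σ) (hA : ∀ x, ‖A x‖ = σ * ‖x‖) :
    Function.Surjective A := by
  have hinj : Function.Injective (A : E m →ₗ[ℝ] E m) := by
    rw [injective_iff_map_eq_zero]
    intro x hx
    have h1 := hA x
    have h2 : A x = 0 := hx
    rw [h2, norm_zero] at h1
    have h3 : ‖x‖ = 0 := by
      rcases mul_eq_zero.1 h1.symm with h | h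
      · exact absurd h h0.ne'
      · exact h
    exact norm_eq_zero.1 h3
  exact LinearMap.injective_iff_surjective.1 hinj

theorem cnd_eq (Ψ Ψ' : E m ≃L[ℝ] E m) {A₀ A₁ : E m →L[ℝ] E m} {σ₀ σ₁ : ℝ} (h0 : 0 < σ₀)
    (h1 : 0 < σ₁) (hA₀ : ∀ x, ‖A₀ x‖ = σ₀ * ‖x‖) (hA₁ : ∀ x, ‖A₁ x‖ = σ₁ * ‖x‖)
    (h : ∀ x, Ψ' (A₀ x) = A₁ (Ψ x)) : cnd Ψ' = cnd Ψ := by
  have s0 := condN_surj h0 hA₀
  have s1 := condN_surj h1 hA₁
  have p0 : 0 < σ₁ / σ₀ := by positivity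
  have p1 : 0 < σ₀ / σ₁ := by positivity
  have a : ‖(Ψ' : E m →L[ℝ] E m)‖ ≤ σ₁ / σ₀ * ‖(Ψ : E m →L[ℝ] E m)‖ := by
    refine ContinuousLinearMap.opNorm_le_bound _ (by positivity) fun y => ?_
    obtain ⟨x, rfl⟩ := s0 y
    have e1 : (Ψ' : E m →L[ℝ] E m) (A₀ x) = A₁ (Ψ x) := h x
    rw [e1, hA₁, hA₀]
    have e2 := (Ψ : E m →L[ℝ] E m).le_opNorm x
    have e3 : (Ψ : E m →L[ℝ] E m) x = Ψ x := rfl
    rw [e3] at e2
    calc σ₁ * ‖Ψ x‖ ≤ σ₁ * (‖(Ψ : E m →L[ℝ] E m)‖ * ‖x‖) := mul_le_mul_of_nonneg_left e2 h1.le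
      _ = _ := by field_simp
  have b : ‖(Ψ : E m →L[ℝ] E m)‖ ≤ σ₀ / σ₁ * ‖(Ψ' : E m →L[ℝ] E m)‖ := by
    refine ContinuousLinearMap.opNorm_le_bound _ (by positivity) fun x => ?_
    have e2 := (Ψ' : E m →L[ℝ] E m).le_opNorm (A₀ x)
    have e1 : (Ψ' : E m →L[ℝ] E m) (A₀ x) = A₁ (Ψ x) := h x
    rw [e1, hA₁, hA₀] at e2
    have e3 : (Ψ : E m →L[ℝ] E m) x = Ψ x := rfl
    rw [e3, div_mul_eq_mul_div, div_mul_eq_mul_div, le_div_iff₀ h1]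
    linarith
  have c : ‖(Ψ'.symm : E m →L[ℝ] E m)‖ ≤ σ₀ / σ₁ * ‖(Ψ.symm : E m →L[ℝ] E m)‖ := by
    refine ContinuousLinearMap.opNorm_le_bound _ (by positivity) fun z => ?_
    obtain ⟨w, rfl⟩ := s1 z
    have e1 : (Ψ'.symm : E m →L[ℝ] E m) (A₁ w) = A₀ (Ψ.symm w) := by
      have := h (Ψ.symm w)
      rw [ContinuousLinearEquiv.apply_symm_apply] at this
      rw [← this]
      exact Ψ'.symm_apply_apply _
    rw [e1, hA₁, hA₀]
    have e2 := (Ψ.symm : E m →L[ℝ] E m).le_opNorm w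
    have e3 : (Ψ.symm : E m →L[ℝ] E m) w = Ψ.symm w := rfl
    rw [e3] at e2
    calc σ₀ * ‖Ψ.symm w‖ ≤ σ₀ * (‖(Ψ.symm : E m →L[ℝ] E m)‖ * ‖w‖) :=
          mul_le_mul_of_nonneg_left e2 h0.le
      _ = _ := by field_simp
  have d : ‖(Ψ.symm : E m →L[ℝ] E m)‖ ≤ σ₁ / σ₀ * ‖(Ψ'.symm : E m →L[ℝ] E m)‖ := by
    refine ContinuousLinearMap.opNorm_le_bound _ (by positivity) fun w => ?_
    have e1 : (Ψ'.symm : E m →L[ℝ] E m) (A₁ w) = A₀ (Ψ.symm w) := by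
      have := h (Ψ.symm w)
      rw [ContinuousLinearEquiv.apply_symm_apply] at this
      rw [← this]
      exact Ψ'.symm_apply_apply _
    have e2 := (Ψ'.symm : E m →L[ℝ] E m).le_opNorm (A₁ w)
    rw [e1, hA₁, hA₀] at e2
    have e3 : (Ψ.symm : E m →L[ℝ] E m) w = Ψ.symm w := rfl
    rw [e3, div_mul_eq_mul_div, div_mul_eq_mul_div, le_div_iff₀ h0]
    linarith
  unfold cnd
  apply le_antisymm
  · calc ‖(Ψ' : E m →L[ℝ] E m)‖ * ‖(Ψ'.symm : E m →L[ℝ] E m)‖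
        ≤ (σ₁ / σ₀ * ‖(Ψ : E m →L[ℝ] E m)‖) * (σ₀ / σ₁ * ‖(Ψ.symm : E m →L[ℝ] E m)‖) :=
          mul_le_mul a c (norm_nonneg _) (by positivity)
      _ = _ := by field_simp
  · calc ‖(Ψ : E m →L[ℝ] E m)‖ * ‖(Ψ.symm : E m →L[ℝ] E m)‖
        ≤ (σ₀ / σ₁ * ‖(Ψ' : E m →L[ℝ] E m)‖) * (σ₁ / σ₀ * ‖(Ψ'.symm : E m →L[ℝ] E m)‖) :=
          mul_le_mul b d (norm_nonneg _) (by positivity)
      _ = _ := by field_simp

/-- The map `b i ↦ b' i`, composed with a shear. -/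
theorem condN_shear (b b' : Module.Basis (Fin m) ℝ (E m)) {i0 i1 : Fin m} (h01 : i0 ≠ i1) (k : ℝ) :
    ∃ Ψ : E m ≃L[ℝ] E m,
      (∀ x, Ψ x = ∑ i, b.repr x i • b' i + (k * b.repr x i0) • b' i1) ∧
      (∀ y, Ψ.symm y = ∑ i, b'.repr y i • b i - (k * b'.repr y i0) • b i1) := by
  have key : ∀ (b b' : Module.Basis (Fin m) ℝ (E m)) (k : ℝ) (x : E m) (i : Fin m),
      b'.repr (∑ i, b.repr x i • b' i + (k * b.repr x i0) • b' i1) i =
        b.repr x i + (if i = i1 then k * b.repr x i0 else 0) := by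
    intro b b' k x i
    rw [map_add, Finsupp.add_apply, map_smul, Finsupp.smul_apply, Module.Basis.repr_self,
      Finsupp.single_apply, smul_eq_mul]
    congr 1
    · rw [map_sum, Finsupp.finsetSum_apply, Finset.sum_eq_single i]
      · rw [map_smul, Finsupp.smul_apply, Module.Basis.repr_self, Finsupp.single_eq_same,
          smul_eq_mul, mul_one]
      · intro j _ hj
        rw [map_smul, Finsupp.smul_apply, Module.Basis.repr_self, Finsupp.single_eq_of_ne hj.symm,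
          smul_eq_mul, mul_zero]
      · intro hi
        exact absurd (Finset.mem_univ i) hi
    · by_cases h : i = i1
      · simp [h]
      · simp [h, Ne.symm h]
  have inv : ∀ (b b' : Module.Basis (Fin m) ℝ (E m)) (k : ℝ) (x : E m),
      (∑ i, b'.repr (∑ i, b.repr x i • b' i + (k * b.repr x i0) • b' i1) i • b i +
        ((-k) * b'.repr (∑ i, b.repr x i • b' i + (k * b.repr x i0) • b' i1) i0) • b i1) = x := by
    intro b b' k x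
    simp only [key]
    rw [if_neg h01, add_zero]
    simp only [add_smul, Finset.sum_add_distrib, b.sum_repr, ite_smul, zero_smul]
    rw [Finset.sum_ite_eq' Finset.univ i1, if_pos (Finset.mem_univ _), neg_mul, neg_smul]
    abel
  let L : (b b' : Module.Basis (Fin m) ℝ (E m)) → (k : ℝ) → E m →ₗ[ℝ] E m := fun b b' k =>
    { toFun := fun x => ∑ i, b.repr x i • b' i + (k * b.repr x i0) • b' i1
      map_add' := by
        intro x y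
        simp only [map_add, Finsupp.add_apply, add_smul, Finset.sum_add_distrib, mul_add]
        abel
      map_smul' := by
        intro c x
        simp only [map_smul, Finsupp.smul_apply, smul_eq_mul, RingHom.id_apply, smul_add,
          Finset.smul_sum, smul_smul]
        congr 2
        ring }
  let e : E m ≃ₗ[ℝ] E m := LinearEquiv.ofLinearMap (L b b' k) (L b' b (-k))
    (by
      apply LinearMap.ext
      intro y
      have := inv b' b (-k) y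
      rw [neg_neg] at this
      exact this)
    (by
      apply LinearMap.ext
      intro x
      exact inv b b' k x)
  refine ⟨e.toContinuousLinearEquiv, fun x => rfl, fun y => ?_⟩
  have : e.toContinuousLinearEquiv.symm y =
      ∑ i, b'.repr y i • b i + ((-k) * b'.repr y i0) • b i1 := rfl
  rw [this, neg_mul, neg_smul, sub_eq_add_neg]

/-- A linear equivalence preserving the lattices restricts to an isomorphism of the lattices. -/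
theorem condN_restrict {P P' : Piece m} (Ψ : E m ≃L[ℝ] E m) (h : ∀ v ∈ P.lat, Ψ v ∈ P'.lat)
    (h' : ∀ v ∈ P'.lat, Ψ.symm v ∈ P.lat) :
    ∃ ψ : P.lat ≃+ P'.lat, ∀ v : P.lat, Ψ (v : E m) = (ψ v : E m) := by
  refine ⟨{ toFun := fun v => ⟨Ψ v, h v v.2⟩
            invFun := fun w => ⟨Ψ.symm w, h' w w.2⟩
            left_inv := fun v => Subtype.ext (Ψ.symm_apply_apply _)
            right_inv := fun w => Subtype.ext (Ψ.apply_symm_apply _)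
            map_add' := fun v w => Subtype.ext (map_add Ψ _ _) }, fun v => rfl⟩

theorem condN_repr {P : Piece m} {b : Module.Basis (Fin m) ℝ (E m)} (hb : P.IsBasis b) {v : E m}
    (hv : v ∈ P.lat) : ∃ k : Fin m → ℤ, ∀ i, b.repr v i = k i := by
  obtain ⟨k, hk⟩ := (hb v).1 hv
  refine ⟨k, fun i => ?_⟩
  have h1 := b.repr_sum_self (fun i => (k i : ℝ))
  rw [hk]
  exact congrFun h1 i

theorem exists_cnd_gt (hm : 2 ≤ m) (P P' : Piece m) (C : ℝ) :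
    ∃ (ψ : P.lat ≃+ P'.lat) (Ψ : E m ≃L[ℝ] E m),
      (∀ v : P.lat, Ψ (v : E m) = (ψ v : E m)) ∧ C < cnd Ψ := by
  obtain ⟨b, hb⟩ := P.exists_basis
  obtain ⟨b', hb'⟩ := P'.exists_basis
  let i0 : Fin m := ⟨0, by omega⟩
  let i1 : Fin m := ⟨1, by omega⟩
  have h01 : i0 ≠ i1 := by
    intro h
    have := congrArg Fin.val h
    simp [i0, i1] at this
  have n0 : 0 < ‖b i0‖ := norm_pos_iff.2 (b.ne_zero i0)
  have n1 : 0 < ‖b i1‖ := norm_pos_iff.2 (b.ne_zero i1)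
  have n1' : 0 < ‖b' i1‖ := norm_pos_iff.2 (b'.ne_zero i1)
  obtain ⟨k, hk⟩ := exists_nat_gt
    ((|C| * (‖b' i1‖ * ‖b i0‖ / ‖b i1‖) + ‖b' i0‖) / ‖b' i1‖)
  rw [div_lt_iff₀ n1'] at hk
  obtain ⟨Ψ, h1, h2⟩ := condN_shear b b' h01 (k : ℝ)
  have r1 : ∀ v ∈ P.lat, Ψ v ∈ P'.lat := by
    intro v hv
    obtain ⟨n, hn⟩ := condN_repr hb hv
    refine (hb' _).2 ⟨fun i => n i + if i = i1 then (k : ℤ) * n i0 else 0, ?_⟩
    rw [h1]
    simp only [hn, Int.cast_add, add_smul, Finset.sum_add_distrib, Int.cast_ite, Int.cast_zero,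
      ite_smul, zero_smul]
    rw [Finset.sum_ite_eq' Finset.univ i1, if_pos (Finset.mem_univ _)]
    push_cast
    rfl
  have r2 : ∀ v ∈ P'.lat, Ψ.symm v ∈ P.lat := by
    intro v hv
    obtain ⟨n, hn⟩ := condN_repr hb' hv
    refine (hb _).2 ⟨fun i => n i + if i = i1 then -((k : ℤ) * n i0) else 0, ?_⟩
    rw [h2]
    simp only [hn, Int.cast_add, add_smul, Finset.sum_add_distrib, Int.cast_ite, Int.cast_zero,
      ite_smul, zero_smul]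
    rw [Finset.sum_ite_eq' Finset.univ i1, if_pos (Finset.mem_univ _)]
    push_cast
    rw [neg_smul, sub_eq_add_neg]
  obtain ⟨ψ, hψ⟩ := condN_restrict Ψ r1 r2
  refine ⟨ψ, Ψ, hψ, ?_⟩
  have e1 : Ψ (b i0) = b' i0 + (k : ℝ) • b' i1 := by
    rw [h1]
    simp [Finsupp.single_apply]
  have e2 : Ψ.symm (b' i1) = b i1 := by
    rw [h2]
    simp [Finsupp.single_apply, h01.symm]
  have f1 : (k : ℝ) * ‖b' i1‖ - ‖b' i0‖ ≤ ‖(Ψ : E m →L[ℝ] E m)‖ * ‖b i0‖ := by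
    have g1 := (Ψ : E m →L[ℝ] E m).le_opNorm (b i0)
    have g2 : (Ψ : E m →L[ℝ] E m) (b i0) = b' i0 + (k : ℝ) • b' i1 := e1
    rw [g2] at g1
    have g3 : ‖(k : ℝ) • b' i1‖ ≤ ‖b' i0 + (k : ℝ) • b' i1‖ + ‖b' i0‖ := by
      have g4 := norm_sub_le (b' i0 + (k : ℝ) • b' i1) (b' i0)
      rwa [add_sub_cancel_left] at g4
    rw [norm_smul, Real.norm_eq_abs, abs_of_nonneg (Nat.cast_nonneg k)] at g3
    linarith
  have f2 : ‖b i1‖ ≤ ‖(Ψ.symm : E m →L[ℝ] E m)‖ * ‖b' i1‖ := by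
    have g1 := (Ψ.symm : E m →L[ℝ] E m).le_opNorm (b' i1)
    have g2 : (Ψ.symm : E m →L[ℝ] E m) (b' i1) = b i1 := e2
    rwa [g2] at g1
  have f3 : |C| * (‖b' i1‖ * ‖b i0‖ / ‖b i1‖) < ‖(Ψ : E m →L[ℝ] E m)‖ * ‖b i0‖ := by linarith
  have f4 : |C| * (‖b' i1‖ / ‖b i1‖) < ‖(Ψ : E m →L[ℝ] E m)‖ := by
    have : |C| * (‖b' i1‖ * ‖b i0‖ / ‖b i1‖) = |C| * (‖b' i1‖ / ‖b i1‖) * ‖b i0‖ := by ring
    rw [this] at f3
    exact lt_of_mul_lt_mul_right f3 n0.le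
  have f5 : ‖b i1‖ / ‖b' i1‖ ≤ ‖(Ψ.symm : E m →L[ℝ] E m)‖ := by
    rwa [div_le_iff₀ n1']
  have f6 : 0 < ‖b i1‖ / ‖b' i1‖ := by positivity
  have f7 : 0 ≤ |C| * (‖b' i1‖ / ‖b i1‖) := by positivity
  unfold cnd
  calc C ≤ |C| := le_abs_self C
    _ = |C| * (‖b' i1‖ / ‖b i1‖) * (‖b i1‖ / ‖b' i1‖) := by field_simp
    _ < ‖(Ψ : E m →L[ℝ] E m)‖ * (‖b i1‖ / ‖b' i1‖) := mul_lt_mul_of_pos_right f4 f6
    _ ≤ _ := mul_le_mul_of_nonneg_left f5 (norm_nonneg _)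

theorem exists_seq_cnd (hm : 2 ≤ m) (P P' : Piece m) :
    ∃ (ψ : ℕ → (P.lat ≃+ P'.lat)) (Ψ : ℕ → (E m ≃L[ℝ] E m)),
      (∀ n (v : P.lat), Ψ n (v : E m) = (ψ n v : E m)) ∧ ∀ i j, i < j → cnd (Ψ i) < cnd (Ψ j) := by
  have key : ∀ C : ℝ, ∃ p : (P.lat ≃+ P'.lat) × (E m ≃L[ℝ] E m),
      (∀ v : P.lat, p.2 (v : E m) = (p.1 v : E m)) ∧ C < cnd p.2 := by
    intro C
    obtain ⟨ψ, Ψ, h1, h2⟩ := exists_cnd_gt hm P P' C
    exact ⟨(ψ, Ψ), h1, h2⟩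
  choose F hF1 hF2 using key
  let s : ℕ → (P.lat ≃+ P'.lat) × (E m ≃L[ℝ] E m) := fun n =>
    Nat.rec (F 0) (fun _ p => F (cnd p.2)) n
  have hs : ∀ n, s (n + 1) = F (cnd (s n).2) := fun n => rfl
  have hc : ∀ n (v : P.lat), (s n).2 (v : E m) = ((s n).1 v : E m) := by
    intro n
    cases n with
    | zero => exact hF1 0
    | succ n => rw [hs]; exact hF1 _
  have hlt : StrictMono fun n => cnd (s n).2 := by
    refine strictMono_nat_of_lt_succ fun n => ?_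
    rw [hs]
    exact hF2 _
  exact ⟨fun n => (s n).1, fun n => (s n).2, hc, fun i j hij => hlt hij⟩

end QIG
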