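import Pool.Agent.W_a51130_h62.AnDefs

/-!
`|A e|^m ≤ |det A|` for all unit vectors forces `A` to be a similarity (Hadamard inequality).

PROOF.  Let `M = ‖A‖`, attained at a unit vector (compactness), so `M^m ≤ |det A|`.  Let `e` be any unit
vector; extend it to an orthonormal basis `e = e_1, …, e_m`; Hadamard
(`Orientation.abs_volumeForm_apply_le`, or `LinearMap.det`/Gram determinant):
`|det A| ≤ ∏ ‖A e_i‖ ≤ ‖A e‖ M^(m-1)`.  `A` injective gives `M > 0`, so `M ≤ ‖A e‖ ≤ M`.
-/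

namespace QIG

/-- Hadamard inequality for the determinant with respect to an orthonormal basis. -/
theorem hadamard_abs_det_le {m : ℕ} (A : E m →L[ℝ] E m) (b : OrthonormalBasis (Fin m) ℝ (E m)) :
    |A.det| ≤ ∏ i, ‖A (b i)‖ := by
  have hfr : Fact (Module.finrank ℝ (E m) = m) := ⟨by simp⟩
  have h1 := (b.toBasis.orientation).abs_volumeForm_apply_le (fun i => A (b i))
  rw [(b.toBasis.orientation).volumeForm_robust b rfl] at h1
  have h2 : b.toBasis.det (fun i => A (b i)) = A.det := by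
    have h3 : (fun i => A (b i)) = (A : E m →ₗ[ℝ] E m) ∘ b.toBasis := by
      funext i
      simp
    rw [h3, Module.Basis.det_comp, Module.Basis.det_self, mul_one]
  rwa [h2] at h1

theorem sim_of_pow_le_det {m : ℕ} (hm : 2 ≤ m) (A : E m →L[ℝ] E m)
    (h : ∀ e : E m, ‖e‖ = 1 → ‖A e‖ ^ m ≤ |A.det|) (hA : Function.Injective A) :
    ∃ σ : ℝ, 0 < σ ∧ ∀ v, ‖A v‖ = σ * ‖v‖ := by
  have hm0 : m ≠ 0 := by omega
  have hdet : A.det ≠ 0 := by
    intro h0
    have h1 : LinearMap.det (A : E m →ₗ[ℝ] E m) = 0 := h0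
    have h2 := LinearMap.bot_lt_ker_of_det_eq_zero h1
    have h3 : LinearMap.ker (A : E m →ₗ[ℝ] E m) = ⊥ := LinearMap.ker_eq_bot.2 hA
    rw [h3] at h2
    exact lt_irrefl _ h2
  have hdet' : 0 < |A.det| := abs_pos.2 hdet
  set D : ℝ := |A.det| ^ ((m : ℝ)⁻¹) with hD
  have hD0 : 0 < D := Real.rpow_pos_of_pos hdet' _
  have hDm : D ^ m = |A.det| := Real.rpow_inv_natCast_pow hdet'.le hm0
  have hle : ∀ e : E m, ‖e‖ = 1 → ‖A e‖ ≤ D := by
    intro e he
    have h1 := h e he
    rw [← hDm] at h1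
    exact (pow_le_pow_iff_left₀ (norm_nonneg _) hD0.le hm0).1 h1
  have heq : ∀ e : E m, ‖e‖ = 1 → ‖A e‖ = D := by
    intro e he
    refine le_antisymm (hle e he) ?_
    let i0 : Fin m := ⟨0, by omega⟩
    obtain ⟨b, hb⟩ := Orthonormal.exists_orthonormalBasis_extension_of_card_eq
      (𝕜 := ℝ) (E := E m) (ι := Fin m) (by simp) (v := fun _ => e) (s := {i0}) (by
        rw [orthonormal_iff_ite]
        rintro ⟨i, hi⟩ ⟨j, hj⟩
        rw [Set.mem_singleton_iff] at hi hj
        subst hi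
        subst hj
        simp [he])
    have hb0 : b i0 = e := hb i0 rfl
    have h1 := hadamard_abs_det_le A b
    rw [← Finset.mul_prod_erase Finset.univ (fun i => ‖A (b i)‖) (Finset.mem_univ i0), hb0,
      ← hDm] at h1
    have h2 : ∏ i ∈ Finset.univ.erase i0, ‖A (b i)‖ ≤ D ^ (m - 1) := by
      have h3 : ∏ i ∈ Finset.univ.erase i0, ‖A (b i)‖ ≤
          ∏ _i ∈ (Finset.univ.erase i0 : Finset (Fin m)), D :=
        Finset.prod_le_prod (fun i _ => norm_nonneg _) (fun i _ => hle _ (b.norm_eq_one i))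
      rw [Finset.prod_const, Finset.card_erase_of_mem (Finset.mem_univ i0), Finset.card_univ,
        Fintype.card_fin] at h3
      exact h3
    have h4 : D ^ m ≤ ‖A e‖ * D ^ (m - 1) :=
      h1.trans (mul_le_mul_of_nonneg_left h2 (norm_nonneg _))
    have h5 : D ^ m = D * D ^ (m - 1) := by
      rw [← pow_succ']
      congr 1
      omega
    rw [h5] at h4
    exact le_of_mul_le_mul_right h4 (pow_pos hD0 _)
  refine ⟨D, hD0, fun v => ?_⟩
  by_cases hv : v = 0
  · simp [hv]
  · have hv' : ‖v‖ ≠ 0 := norm_ne_zero_iff.2 hv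
    have h1 := heq (‖v‖⁻¹ • v) (by rw [norm_smul, norm_inv, norm_norm, inv_mul_cancel₀ hv'])
    rw [map_smul, norm_smul, norm_inv, norm_norm] at h1
    field_simp at h1
    rw [h1, mul_comm]

end QIG
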