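import Pool.Agent.W_a51130_h62.QSBeta
import Pool.Agent.W_a51130_h62.Hadamard

/-!
Large scale linear approximations of an infinitesimally conformal quasisymmetric map are similarities.

PROOF.  By `sim_of_pow_le_det` it is enough that `‖A e‖^m ≤ |det A|` for every unit vector `e`.
Let `0 < ρ ≤ 1/4`, `δ = ρ²`, and take `x₀, c, R` from the hypothesis `happ δ`.  Apply `length_area` on
`Q = closedBall x₀ (R/2)` with displacement `ρ R`; all points involved are within `R` of `x₀`.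
For `x ∈ Q`: `‖f (x + ρ R e) - f x‖ ≥ ρ R ‖A e‖ - 2 δ R`, so the left side is at least
`(vol(Q) (‖A e‖ - 2 δ/ρ))^m = vol(Q)^m (‖A e‖ - 2ρ)^m` if `‖A e‖ ≥ 2ρ`.
Let `Q⁺ = closedBall x₀ (R/2 + ρ R)`.  `A` is a linear isomorphism; `f '' Q⁺ ⊆ c + A (Q⁺ - x₀) +
closedBall 0 (δ R) ⊆ c + A (closedBall 0 (R/2 + ρ R + ‖A⁻¹‖ δ R))`, whose volume is
`|det A| vol(B_1) (R/2 + ρ R + ‖A⁻¹‖ δ R)^m`.  With `vol(closedBall x r) = r^m vol(B_1)` we get, dividing
by `vol(Q)^m`, `(‖A e‖ - 2ρ)^m ≤ (1 + 2ρ)^(m(m-1)) (1 + 2ρ + 2‖A⁻¹‖ρ²)^m |det A|`.  Let `ρ → 0`.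
-/

namespace QIG

open MeasureTheory Metric Set Filter Topology

/-- the volume of a ball -/
theorem qsapprox_vol_ball {m : ℕ} (x : E m) {r : ℝ} (hr : 0 ≤ r) :
    (volume (closedBall x r)).toReal = r ^ m * (volume (closedBall (0 : E m) 1)).toReal := by
  have h := Measure.addHaar_real_closedBall' (volume : Measure (E m)) x hr
  rw [finrank_euclideanSpace_fin] at h
  exact h

/-- volume of the image of a ball under a map that is close to an affine map -/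
theorem qsapprox_image_vol {m : ℕ} (f : E m ≃ₜ E m) (A B : E m →L[ℝ] E m)
    (hAB : ∀ v, A (B v) = v) {x₀ c : E m} {r d : ℝ} (hr : 0 ≤ r) (hd : 0 ≤ d)
    (h : ∀ x, ‖x - x₀‖ ≤ r → ‖f x - c - A (x - x₀)‖ ≤ d) :
    (volume (f '' closedBall x₀ r)).toReal ≤
      |A.det| * ((r + ‖B‖ * d) ^ m * (volume (closedBall (0 : E m) 1)).toReal) := by
  have hsub : f '' closedBall x₀ r ⊆
      (fun y => c + y) '' (A '' closedBall 0 (r + ‖B‖ * d)) := by
    rintro _ ⟨x, hx, rfl⟩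
    have hx' : ‖x - x₀‖ ≤ r := by simpa [dist_eq_norm] using hx
    refine ⟨A ((x - x₀) + B (f x - c - A (x - x₀))), ⟨_, ?_, rfl⟩, ?_⟩
    · rw [mem_closedBall_zero_iff]
      refine (norm_add_le _ _).trans (add_le_add hx' ?_)
      exact (B.le_opNorm _).trans (mul_le_mul_of_nonneg_left (h x hx') (norm_nonneg _))
    · simp only [map_add, hAB]
      abel
  have h1 : volume (f '' closedBall x₀ r) ≤
      ENNReal.ofReal |A.det| * volume (closedBall (0 : E m) (r + ‖B‖ * d)) := by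
    refine (measure_mono hsub).trans ?_
    rw [image_add_left, measure_preimage_add, Measure.addHaar_image_continuousLinearMap]
  have hfin : ENNReal.ofReal |A.det| * volume (closedBall (0 : E m) (r + ‖B‖ * d)) ≠ ⊤ :=
    ENNReal.mul_ne_top ENNReal.ofReal_ne_top measure_closedBall_lt_top.ne
  have h2 := ENNReal.toReal_mono hfin h1
  rw [ENNReal.toReal_mul, ENNReal.toReal_ofReal (abs_nonneg _),
    qsapprox_vol_ball 0 (by positivity)] at h2
  exact h2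

theorem qsapprox_ineq {m : ℕ} (hm : 2 ≤ m) (f : E m ≃ₜ E m) {H : ℝ} (hH : 1 ≤ H)
    (hf : WQS f H) (hsim : ∀ᵐ x ∂(volume : Measure (E m)), Sim (fderiv ℝ f x))
    (A B : E m →L[ℝ] E m) (hAB : ∀ v, A (B v) = v)
    (happ : ∀ δ : ℝ, 0 < δ → ∃ (x₀ c : E m) (R : ℝ), 0 < R ∧
      ∀ x, ‖x - x₀‖ ≤ R → ‖f x - c - A (x - x₀)‖ ≤ δ * R)
    {e : E m} (he : ‖e‖ = 1) {ρ : ℝ} (hρ : 0 < ρ) (hρ' : ρ ≤ 1 / 4) (ha : 2 * ρ ≤ ‖A e‖) :
    (‖A e‖ - 2 * ρ) ^ m ≤
      (1 + 2 * ρ) ^ (m * (m - 1)) * (1 + 2 * ρ + 2 * ‖B‖ * ρ ^ 2) ^ m * |A.det| := by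
  obtain ⟨x₀, c, R, hR, hx⟩ := happ (ρ ^ 2) (by positivity)
  have hs : 0 < ρ * R := by positivity
  have hla := length_area hm f hH hf hsim x₀ (R := R / 2) (ρ := ρ * R) (by positivity) hs e he
  have hcont : Continuous fun x => ‖f (x + (ρ * R) • e) - f x‖ / (ρ * R) :=
    ((f.continuous.comp (continuous_id.add continuous_const)).sub f.continuous).norm.div_const _
  have hQ : (volume (closedBall x₀ (R / 2))).toReal * (‖A e‖ - 2 * ρ) ≤
      ∫ x in closedBall x₀ (R / 2), ‖f (x + (ρ * R) • e) - f x‖ / (ρ * R) := by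
    have h1 : (volume (closedBall x₀ (R / 2))).toReal * (‖A e‖ - 2 * ρ) =
        ∫ _x in closedBall x₀ (R / 2), (‖A e‖ - 2 * ρ) := by
      rw [setIntegral_const, smul_eq_mul]
      rfl
    rw [h1]
    refine setIntegral_mono_on (integrableOn_const measure_closedBall_lt_top.ne)
      (hcont.continuousOn.integrableOn_compact (isCompact_closedBall _ _))
      measurableSet_closedBall ?_
    intro x hxQ
    have hxQ' : ‖x - x₀‖ ≤ R / 2 := by simpa [dist_eq_norm] using hxQ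
    have e1 := hx x (hxQ'.trans (by linarith))
    have e2 := hx (x + (ρ * R) • e) (by
      have h2 : x + (ρ * R) • e - x₀ = (x - x₀) + (ρ * R) • e := by abel
      rw [h2]
      refine (norm_add_le _ _).trans ?_
      rw [norm_smul, he, Real.norm_eq_abs, abs_of_pos hs, mul_one]
      nlinarith)
    have e3 : (ρ * R) • A e = (f (x + (ρ * R) • e) - f x)
        - (f (x + (ρ * R) • e) - c - A (x + (ρ * R) • e - x₀)) + (f x - c - A (x - x₀)) := by
      have h3 : x + (ρ * R) • e - x₀ = (x - x₀) + (ρ * R) • e := by abel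
      rw [h3, A.map_add, A.map_smul]
      abel
    have e4 : ‖(ρ * R) • A e‖ ≤ ‖f (x + (ρ * R) • e) - f x‖ + ρ ^ 2 * R + ρ ^ 2 * R := by
      rw [e3]
      exact (norm_add_le _ _).trans (add_le_add ((norm_sub_le _ _).trans
        (add_le_add (le_refl _) e2)) e1)
    rw [norm_smul, Real.norm_eq_abs, abs_of_pos hs] at e4
    rw [le_div_iff₀ hs]
    nlinarith
  have himg := qsapprox_image_vol f A B hAB (x₀ := x₀) (c := c) (r := R / 2 + ρ * R)
    (d := ρ ^ 2 * R) (by positivity) (by positivity) (fun x hx' => hx x (hx'.trans (by nlinarith)))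
  have hv : 0 < (volume (closedBall (0 : E m) 1)).toReal :=
    ENNReal.toReal_pos (measure_closedBall_pos _ _ one_pos).ne' measure_closedBall_lt_top.ne
  rw [qsapprox_vol_ball x₀ (by positivity)] at hQ
  rw [qsapprox_vol_ball x₀ (r := R / 2 + ρ * R) (by positivity)] at hla
  set v : ℝ := (volume (closedBall (0 : E m) 1)).toReal with hvdef
  set q : ℝ := (R / 2) ^ m * v with hq
  have hqpos : 0 < q := by positivity
  have ha' : 0 ≤ ‖A e‖ - 2 * ρ := by linarith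
  have h1 : (q * (‖A e‖ - 2 * ρ)) ^ m ≤ ((R / 2 + ρ * R) ^ m * v) ^ (m - 1) *
      (|A.det| * ((R / 2 + ρ * R + ‖B‖ * (ρ ^ 2 * R)) ^ m * v)) := by
    refine (pow_le_pow_left₀ (by positivity) hQ m).trans (hla.trans ?_)
    exact mul_le_mul_of_nonneg_left himg (by positivity)
  have h2 : (R / 2 + ρ * R) ^ m * v = q * (1 + 2 * ρ) ^ m := by
    rw [hq]
    have : R / 2 + ρ * R = R / 2 * (1 + 2 * ρ) := by ring
    rw [this, mul_pow]; ring
  have h3 : (R / 2 + ρ * R + ‖B‖ * (ρ ^ 2 * R)) ^ m * v =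
      q * (1 + 2 * ρ + 2 * ‖B‖ * ρ ^ 2) ^ m := by
    rw [hq]
    have : R / 2 + ρ * R + ‖B‖ * (ρ ^ 2 * R) = R / 2 * (1 + 2 * ρ + 2 * ‖B‖ * ρ ^ 2) := by ring
    rw [this, mul_pow]; ring
  clear_value q
  rw [h2, h3, mul_pow, mul_pow, ← pow_mul] at h1
  have h4 : q ^ (m - 1) * q = q ^ m := by
    rw [← pow_succ]; congr 1; omega
  have h5 : q ^ (m - 1) * (1 + 2 * ρ) ^ (m * (m - 1)) *
      (|A.det| * (q * (1 + 2 * ρ + 2 * ‖B‖ * ρ ^ 2) ^ m)) =
      q ^ m * ((1 + 2 * ρ) ^ (m * (m - 1)) * (1 + 2 * ρ + 2 * ‖B‖ * ρ ^ 2) ^ m * |A.det|) := by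
    rw [← h4]; ring
  rw [h5] at h1
  exact le_of_mul_le_mul_left h1 (by positivity)

theorem conformal_of_approx {m : ℕ} (hm : 2 ≤ m) (f : E m ≃ₜ E m) {H : ℝ} (hH : 1 ≤ H)
    (hf : WQS f H) (hsim : ∀ᵐ x ∂(volume : Measure (E m)), Sim (fderiv ℝ f x))
    (A : E m →L[ℝ] E m) (hA : Function.Injective A)
    (happ : ∀ δ : ℝ, 0 < δ → ∃ (x₀ c : E m) (R : ℝ), 0 < R ∧
      ∀ x, ‖x - x₀‖ ≤ R → ‖f x - c - A (x - x₀)‖ ≤ δ * R) :
    ∃ σ : ℝ, 0 < σ ∧ ∀ v, ‖A v‖ = σ * ‖v‖ := by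
  have hinj : Function.Injective (A : E m →ₗ[ℝ] E m) := hA
  let eqv : E m ≃ₗ[ℝ] E m := LinearEquiv.ofInjectiveEndo (A : E m →ₗ[ℝ] E m) hinj
  let B : E m →L[ℝ] E m := LinearMap.toContinuousLinearMap (eqv.symm : E m →ₗ[ℝ] E m)
  have hAB : ∀ v, A (B v) = v := fun v => eqv.apply_symm_apply v
  refine sim_of_pow_le_det hm A ?_ hA
  intro e he
  have hm0 : m ≠ 0 := by omega
  rcases (norm_nonneg (A e)).eq_or_lt with h0 | hpos
  · rw [← h0, zero_pow hm0]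
    exact abs_nonneg _
  have hl : Tendsto (fun ρ : ℝ => (‖A e‖ - 2 * ρ) ^ m) (𝓝[>] 0) (𝓝 (‖A e‖ ^ m)) := by
    have hc : Continuous fun ρ : ℝ => (‖A e‖ - 2 * ρ) ^ m := by fun_prop
    have h1 := (hc.tendsto 0).mono_left (nhdsWithin_le_nhds (s := Set.Ioi (0 : ℝ)))
    simpa using h1
  have hr : Tendsto (fun ρ : ℝ => (1 + 2 * ρ) ^ (m * (m - 1)) *
      (1 + 2 * ρ + 2 * ‖B‖ * ρ ^ 2) ^ m * |A.det|) (𝓝[>] 0) (𝓝 |A.det|) := by
    have hc : Continuous fun ρ : ℝ => (1 + 2 * ρ) ^ (m * (m - 1)) *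
      (1 + 2 * ρ + 2 * ‖B‖ * ρ ^ 2) ^ m * |A.det| := by fun_prop
    have h1 := (hc.tendsto 0).mono_left (nhdsWithin_le_nhds (s := Set.Ioi (0 : ℝ)))
    simpa using h1
  refine le_of_tendsto_of_tendsto hl hr ?_
  have hmin : 0 < min (1 / 4) (‖A e‖ / 2) := lt_min (by norm_num) (by positivity)
  filter_upwards [Ioc_mem_nhdsGT hmin] with ρ hρ
  have h1 := hρ.2.trans (min_le_left _ _)
  have h2 := hρ.2.trans (min_le_right _ _)
  exact qsapprox_ineq hm f hH hf hsim A B hAB happ he hρ.1 h1 (by linarith)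

end QIG
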