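import Pool.Agent.W_a51130_h62.StepG2
import Pool.Agent.W_a51130_h62.QSApprox

/-!
Conformality theorem: large scale linear approximations of a quasisymmetric map compatible with
packings are similarities.

PROOF.  By `conformal_of_approx` it is enough that for a.e. `x`, `Sim (fderiv ℝ f x)`.  `Q` is countable, so
a.e. `x ∉ Q`.  If `f` is not differentiable at `x`, `fderiv = 0` (`σ = 0`).  Otherwise `L = fderiv ℝ f x`; by
`WQS`: `‖L v‖ ≤ H ‖L w‖` whenever `‖v‖ ≤ ‖w‖` (difference quotients at `x + t v`, `x + t w`), so `L = 0` or `L` is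
injective, and then `step_gamma`.
-/

namespace QIG

open MeasureTheory Metric Set Filter Topology

/-- The derivative of a weakly quasisymmetric map is weakly quasisymmetric. -/
theorem confThm_deriv_wqs {m : ℕ} {f : E m → E m} {H : ℝ} (hH : 1 ≤ H) (hf : WQS f H) {x : E m}
    {L : E m →L[ℝ] E m} (hL : HasFDerivAt f L x) {v w : E m} (hvw : ‖v‖ ≤ ‖w‖) :
    ‖L v‖ ≤ H * ‖L w‖ := by
  have h1 := (hL.hasLineDerivAt v).tendsto_slope_zero.norm
  have h2 := ((hL.hasLineDerivAt w).tendsto_slope_zero.norm).const_mul H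
  refine le_of_tendsto_of_tendsto h1 h2 (Eventually.of_forall fun t => ?_)
  have h3 := hf x (x + t • v) (x + t • w) (by
    rw [add_sub_cancel_left, add_sub_cancel_left, norm_smul, norm_smul]
    gcongr)
  simp only [norm_smul]
  calc ‖t⁻¹‖ * ‖f (x + t • v) - f x‖ ≤ ‖t⁻¹‖ * (H * ‖f (x + t • w) - f x‖) := by gcongr
    _ = H * (‖t⁻¹‖ * ‖f (x + t • w) - f x‖) := by ring

/-- A weakly quasisymmetric linear map is zero or injective. -/
theorem confThm_injective {m : ℕ} {H : ℝ} {L : E m →L[ℝ] E m}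
    (h : ∀ v w : E m, ‖v‖ ≤ ‖w‖ → ‖L v‖ ≤ H * ‖L w‖) (h0 : L ≠ 0) :
    Function.Injective L := by
  rw [injective_iff_map_eq_zero]
  intro w hw
  by_contra hwne
  apply h0
  ext1 v
  have hwpos : 0 < ‖w‖ := norm_pos_iff.mpr hwne
  by_cases hv : v = 0
  · simp [hv]
  · have hvpos : 0 < ‖v‖ := norm_pos_iff.mpr hv
    have h1 := h ((‖w‖ / ‖v‖) • v) w (by
      rw [norm_smul, Real.norm_eq_abs, abs_of_pos (by positivity), div_mul_cancel₀ _ hvpos.ne'])
    rw [hw, norm_zero, mul_zero, map_smul] at h1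
    have h2 : (‖w‖ / ‖v‖) • L v = 0 := norm_le_zero_iff.mp h1
    rcases smul_eq_zero.mp h2 with h3 | h3
    · exact absurd h3 (by positivity)
    · simpa using h3

theorem conformality {m : ℕ} (hm : 2 ≤ m) {Q Q' : Set (E m)} {s s' : E m → ℝ}
    (hc : Q.Countable)
    (b : Module.Basis (Fin m) ℝ (E m)) (hQ : ShiftPack Q s b) (hQ' : GapPack Q' s')
    (f : E m ≃ₜ E m) {H : ℝ} (hH : 1 ≤ H) (hf : WQS f H) (hp : PackMap Q s Q' s' f)
    (A : E m →L[ℝ] E m) (hA : Function.Injective A)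
    (happ : ∀ δ : ℝ, 0 < δ → ∃ (x₀ c : E m) (R : ℝ), 0 < R ∧
      ∀ x, ‖x - x₀‖ ≤ R → ‖f x - c - A (x - x₀)‖ ≤ δ * R) :
    ∃ σ : ℝ, 0 < σ ∧ ∀ v, ‖A v‖ = σ * ‖v‖ := by
  have : Nonempty (Fin m) := ⟨⟨0, by omega⟩⟩
  have : Nontrivial (E m) := by
    refine ⟨⟨EuclideanSpace.single ⟨0, by omega⟩ 1, 0, ?_⟩⟩
    intro h
    have := congrArg norm h
    simp at this
  refine conformal_of_approx hm f hH hf ?_ A hA happ
  have hae : ∀ᵐ x ∂(volume : Measure (E m)), x ∉ Q := by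
    rw [ae_iff]
    simp only [not_not]
    exact hc.measure_zero _
  filter_upwards [hae] with x hx
  by_cases hd : DifferentiableAt ℝ f x
  · have hL := hd.hasFDerivAt
    by_cases h0 : fderiv ℝ f x = 0
    · rw [h0]
      exact ⟨0, le_rfl, by simp⟩
    · obtain ⟨σ, hσ, hs⟩ := step_gamma hm b hQ hQ' hp hx hL
        (confThm_injective (H := H) (fun v w hvw => confThm_deriv_wqs hH hf hL hvw) h0)
      exact ⟨σ, hσ.le, hs⟩
  · rw [fderiv_zero_of_not_differentiableAt hd]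
    exact ⟨0, le_rfl, by simp⟩

end QIG
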