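import Mathlib

/-!
MP_a51130_gt: statement-level definitions.

Upper half space `HPt m` = hyperbolic space of dimension `m + 1`, one-cusped pieces, their gluings,
quasi-isometry of finitely generated groups.
-/

namespace QIG

/-- Euclidean space `R^m`. -/
abbrev E (m : ℕ) : Type := EuclideanSpace ℝ (Fin m)

/-- Points `(u, t)`, `t > 0`, of the upper half space model of hyperbolic `(m+1)`-space. -/
@[ext] structure HPt (m : ℕ) : Type where
  u : E m
  t : ℝ
  pos : 0 < t

/-- `cosh d(x, y) - 1` for the hyperbolic distance `d`. -/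
noncomputable def chd {m : ℕ} (x y : HPt m) : ℝ :=
  (‖x.u - y.u‖ ^ 2 + (x.t - y.t) ^ 2) / (2 * x.t * y.t)

/-- The base point `(0, 1)`. -/
def base (m : ℕ) : HPt m := ⟨0, 1, one_pos⟩

/-- Horizontal translation by `v`. -/
def transl {m : ℕ} (v : E m) : Equiv.Perm (HPt m) where
  toFun x := ⟨x.u + v, x.t, x.pos⟩
  invFun x := ⟨x.u - v, x.t, x.pos⟩
  left_inv x := by ext <;> simp
  right_inv x := by ext <;> simp

@[simp] theorem transl_u {m : ℕ} (v : E m) (x : HPt m) : (transl v x).u = x.u + v := rfl
@[simp] theorem transl_t {m : ℕ} (v : E m) (x : HPt m) : (transl v x).t = x.t := rfl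

theorem transl_zero {m : ℕ} : transl (0 : E m) = 1 := by
  apply Equiv.ext
  intro x
  apply HPt.ext <;> simp

theorem transl_add {m : ℕ} (v w : E m) : transl (v + w) = transl v * transl w := by
  apply Equiv.ext
  intro x
  apply HPt.ext
  · simp only [transl_u, Equiv.Perm.coe_mul, Function.comp_apply]
    abel
  · simp

theorem transl_neg {m : ℕ} (v : E m) : transl (-v) = (transl v)⁻¹ := by
  rw [eq_inv_iff_mul_eq_one, ← transl_add]
  simp [transl_zero]

theorem transl_injective {m : ℕ} : Function.Injective (transl (m := m)) := by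
  intro v w h
  have h1 := congrArg (fun g : Equiv.Perm (HPt m) => (g (base m)).u) h
  simpa [base] using h1

/-- A piece: the fundamental group `Γ` of a complete finite volume hyperbolic `(m+1)`-manifold with
exactly one cusp, and this cusp is toric, acting on the upper half space, the cusp being normalised at
infinity: `Γ` acts by isometries, freely and properly discontinuously, the horoball `t > 1/2` is
precisely invariant and its stabiliser acts by translations only, these translations span `R^m`, and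
`Γ` acts cocompactly on the complement of the orbit of the horoball `t > 1`. -/
structure Piece (m : ℕ) where
  Γ : Subgroup (Equiv.Perm (HPt m))
  isom : ∀ g ∈ Γ, ∀ x y, chd (g x) (g y) = chd x y
  free : ∀ g ∈ Γ, ∀ x, g x = x → g = 1
  discrete : ∀ r : ℝ, {g | g ∈ Γ ∧ chd (base m) (g (base m)) ≤ r}.Finite
  cusp : ∀ g ∈ Γ, ∀ x, 1 / 2 < x.t → 1 / 2 < (g x).t → ∃ v, g = transl v
  toric : Submodule.span ℝ {v | transl v ∈ Γ} = ⊤
  cocompact : ∃ r : ℝ, ∀ x, (∀ g ∈ Γ, (g x).t ≤ 1) → ∃ g ∈ Γ, chd (g x) (base m) ≤ r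

variable {m : ℕ}

/-- The cusp lattice of a piece: all `v` such that the translation by `v` is in `Γ`. -/
def Piece.lat (P : Piece m) : AddSubgroup (E m) where
  carrier := {v | transl v ∈ P.Γ}
  zero_mem' := by
    change transl (0 : E m) ∈ P.Γ
    rw [transl_zero]
    exact P.Γ.one_mem
  add_mem' := by
    intro v w hv hw
    change transl (v + w) ∈ P.Γ
    rw [transl_add]
    exact P.Γ.mul_mem hv hw
  neg_mem' := by
    intro v hv
    change transl (-v) ∈ P.Γ
    rw [transl_neg]
    exact P.Γ.inv_mem hv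

/-- The inclusion of the cusp subgroup `lat P` in the group of the piece. -/
def Piece.emb (P : Piece m) : Multiplicative P.lat →* P.Γ where
  toFun v := ⟨transl (Multiplicative.toAdd v).1, (Multiplicative.toAdd v).2⟩
  map_one' := by
    apply Subtype.ext
    exact transl_zero
  map_mul' v w := by
    apply Subtype.ext
    exact transl_add _ _

/-- The two inclusions of the wall group `lat (P 0)` defined by the gluing map `ψ`. -/
def glueMap (P : Fin 2 → Piece m) (ψ : (P 0).lat ≃+ (P 1).lat) :
    ∀ i : Fin 2, Multiplicative (P 0).lat →* (P i).Γ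
  | 0 => (P 0).emb
  | 1 => (P 1).emb.comp (AddEquiv.toMultiplicative ψ).toMonoidHom

/-- The amalgam `Γ₀ *_ψ Γ₁` = the fundamental group of the closed manifold obtained by gluing the two
truncated pieces along their boundary tori by `ψ`. -/
abbrev Glue (P : Fin 2 → Piece m) (ψ : (P 0).lat ≃+ (P 1).lat) : Type :=
  Monoid.PushoutI (glueMap P ψ)

/-- Word length of `g` with respect to `S`. -/
noncomputable def wordLen {G : Type} [Group G] (S : Set G) (g : G) : ℕ :=
  sInf {n | ∃ l : List G, l.length = n ∧ (∀ s ∈ l, s ∈ S ∨ s⁻¹ ∈ S) ∧ l.prod = g}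

/-- `G` and `G'` are finitely generated and quasi-isometric. -/
def QuasiIsom (G G' : Type) [Group G] [Group G'] : Prop :=
  ∃ (S : Set G) (S' : Set G'), S.Finite ∧ Subgroup.closure S = ⊤ ∧ S'.Finite ∧
    Subgroup.closure S' = ⊤ ∧ ∃ (f : G → G') (K : ℝ),
      (∀ x y, (wordLen S' ((f x)⁻¹ * f y) : ℝ) ≤ K * wordLen S (x⁻¹ * y) + K) ∧
      (∀ x y, (wordLen S (x⁻¹ * y) : ℝ) ≤ K * wordLen S' ((f x)⁻¹ * f y) + K) ∧
      ∀ z, ∃ x, (wordLen S' (z⁻¹ * f x) : ℝ) ≤ K

end QIG
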