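import Pool.Agent.W_a51130_h62.Main
import Pool.Agent.W_a51130_h68.Sister

/-! MP_a51130_gt: the explicit piece (figure-eight sister) and two explicit non quasi-isometric gluings
of two copies of it. -/

namespace QIG

open ComplexConjugate

/-- `ω = -1/2 + i √3/2`. -/
noncomputable def omg : ℂ := ⟨-1 / 2, √3 / 2⟩

/-- `z` is an Eisenstein integer. -/
def IsEis (z : ℂ) : Prop := ∃ p q : ℤ, z = p + q * omg

/-- The complex number of a point of the plane. -/
noncomputable def cpx (v : E 2) : ℂ := ⟨v 0, v 1⟩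

/-- `y` is the image of `x` under the Poincaré extension of the Moebius transformation with matrix
`(a, b; c, d)`, in coordinates divided by two. -/
def PoincareExt (a b c d : ℂ) (x y : HPt 2) : Prop :=
  2 * cpx y.u * (Complex.normSq (c * (2 * cpx x.u) + d) + Complex.normSq c * (2 * x.t) ^ 2 : ℝ) =
    (a * (2 * cpx x.u) + b) * conj (c * (2 * cpx x.u) + d) + a * conj c * (2 * x.t) ^ 2 ∧
  2 * y.t * (Complex.normSq (c * (2 * cpx x.u) + d) + Complex.normSq c * (2 * x.t) ^ 2) = 2 * x.t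

/-- The matrices `(a, b; c, d)` of determinant `1` over `ℤ[ω]` with `c = b` and `d = a + ω b` modulo `2`:
their Poincaré extensions are the elements of the group of `P`. -/
def IsSister (P : Piece 2) : Prop :=
  ∀ g : Equiv.Perm (HPt 2), g ∈ P.Γ ↔ ∃ a b c d : ℂ, IsEis a ∧ IsEis b ∧ IsEis c ∧ IsEis d ∧
    a * d - b * c = 1 ∧ IsEis ((c - b) / 2) ∧ IsEis ((d - a - omg * b) / 2) ∧
      ∀ x, PoincareExt a b c d x (g x)

theorem cpx_eq (v : E 2) : cpx v = Ex.cz v := rfl

theorem omg_eq : omg = Ex.om := rfl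

theorem isEis_iff (z : ℂ) : IsEis z ↔ ∃ y : Ex.Eis, z = Ex.iota y := by
  constructor
  · rintro ⟨p, q, h⟩
    exact ⟨⟨p, q⟩, by rw [Ex.iota_apply, h, omg_eq]⟩
  · rintro ⟨y, h⟩
    exact ⟨y.re, y.im, by rw [h, Ex.iota_apply, omg_eq]⟩

theorem iota_inj {x y : Ex.Eis} (h : Ex.iota x = Ex.iota y) : x = y := by
  by_contra hne
  have h1 := Ex.one_le_normSq (sub_ne_zero.2 hne)
  rw [map_sub, h, sub_self, map_zero] at h1
  norm_num at h1

theorem iota_w : Ex.iota Ex.w = omg := by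
  rw [Ex.iota_apply, omg_eq]
  simp [Ex.w]

theorem iota_two : Ex.iota 2 = 2 := by
  rw [show (2 : Ex.Eis) = 1 + 1 by norm_num, map_add, map_one]
  norm_num

theorem isSister_sister : IsSister Ex.sister := by
  intro g
  rw [Ex.mem_sister]
  constructor
  · rintro ⟨a, b, c, d, r, s, hdet, hc, hd, h⟩
    refine ⟨Ex.iota a, Ex.iota b, Ex.iota c, Ex.iota d, (isEis_iff _).2 ⟨a, rfl⟩,
      (isEis_iff _).2 ⟨b, rfl⟩, (isEis_iff _).2 ⟨c, rfl⟩, (isEis_iff _).2 ⟨d, rfl⟩, ?_,
      (isEis_iff _).2 ⟨r, ?_⟩, (isEis_iff _).2 ⟨s, ?_⟩, ?_⟩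
    · rw [← map_mul, ← map_mul, ← map_sub, hdet, map_one]
    · rw [hc, map_add, map_mul, iota_two]
      ring
    · rw [hd, map_add, map_add, map_mul, map_mul, iota_two, iota_w]
      ring
    · intro x
      obtain ⟨h1, h2⟩ := h x
      refine ⟨?_, ?_⟩
      · simp only [cpx_eq]
        exact h1
      · simp only [cpx_eq]
        linarith
  · rintro ⟨a, b, c, d, ha, hb, hc, hd, hdet, hr, hs, h⟩
    obtain ⟨a, rfl⟩ := (isEis_iff _).1 ha
    obtain ⟨b, rfl⟩ := (isEis_iff _).1 hb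
    obtain ⟨c, rfl⟩ := (isEis_iff _).1 hc
    obtain ⟨d, rfl⟩ := (isEis_iff _).1 hd
    obtain ⟨r, hr⟩ := (isEis_iff _).1 hr
    obtain ⟨s, hs⟩ := (isEis_iff _).1 hs
    refine ⟨a, b, c, d, r, s, ?_, ?_, ?_, ?_⟩
    · apply iota_inj
      rw [map_sub, map_mul, map_mul, hdet, map_one]
    · apply iota_inj
      rw [map_add, map_mul, iota_two, ← hr]
      ring
    · apply iota_inj
      rw [map_add, map_add, map_mul, map_mul, iota_two, iota_w, ← hs]
      ring
    · intro x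
      obtain ⟨h1, h2⟩ := h x
      simp only [cpx_eq] at h1 h2
      exact ⟨h1, by linarith⟩

/-- The lattice of a sister piece. -/
theorem isSister_ext {P P' : Piece 2} (h : IsSister P) (h' : IsSister P') : P.Γ = P'.Γ := by
  ext g
  rw [h g, h' g]

theorem lat_iff {P : Piece 2} (h : IsSister P) (v : E 2) : v ∈ P.lat ↔ IsEis (cpx v) := by
  have h1 : P.Γ = Ex.sister.Γ := isSister_ext h isSister_sister
  have h2 : v ∈ P.lat ↔ v ∈ Ex.sister.lat := by
    change transl v ∈ P.Γ ↔ transl v ∈ Ex.sister.Γ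
    rw [h1]
  rw [h2, Ex.sister_lat, isEis_iff]
  rfl

end QIG
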