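import Pool.Agent.W_a51130_h62.Example

/-! MP_a51130_gt: two explicit non quasi-isometric gluings of two copies of the sister piece. -/

namespace QIG

open ComplexConjugate

/-- `ψ` is the automorphism `p + q ω ↦ (p + q) + q ω` of the cusp lattice `ℤ[ω]`. -/
def IsShear (P : Piece 2) (ψ : P.lat ≃+ P.lat) : Prop :=
  ∀ (v : P.lat) (p q : ℤ), cpx (v : E 2) = p + q * omg →
    cpx (ψ v : E 2) = (p + q : ℤ) + q * omg

/-- The real shear `(x, y) ↦ (x + t y, y)`. -/
noncomputable def shr (t : ℝ) : E 2 →ₗ[ℝ] E 2 where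
  toFun v := WithLp.toLp 2 ![v 0 + t * v 1, v 1]
  map_add' v w := by
    ext i
    fin_cases i
    · simp
      ring
    · simp
  map_smul' c v := by
    ext i
    fin_cases i
    · simp
      ring
    · simp

theorem shr_zero (t : ℝ) (v : E 2) : shr t v 0 = v 0 + t * v 1 := rfl

theorem shr_one (t : ℝ) (v : E 2) : shr t v 1 = v 1 := rfl

theorem shr_shr (s t : ℝ) (v : E 2) : shr s (shr t v) = shr (s + t) v := by
  ext i
  fin_cases i
  · change shr t v 0 + s * shr t v 1 = v 0 + (s + t) * v 1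
    rw [shr_zero, shr_one]
    ring
  · rfl

theorem shr_id (v : E 2) : shr 0 v = v := by
  ext i
  fin_cases i
  · change v 0 + 0 * v 1 = v 0
    ring
  · rfl

noncomputable def shrE (t : ℝ) : E 2 ≃L[ℝ] E 2 :=
  (LinearEquiv.ofLinearMap (shr t) (shr (-t))
    (by
      apply LinearMap.ext
      intro v
      change shr t (shr (-t) v) = v
      rw [shr_shr, add_neg_cancel, shr_id])
    (by
      apply LinearMap.ext
      intro v
      change shr (-t) (shr t v) = v
      rw [shr_shr, neg_add_cancel, shr_id])).toContinuousLinearEquiv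

theorem shrE_apply (t : ℝ) (v : E 2) : shrE t v = shr t v := rfl

theorem cpx_shr {v : E 2} {p q : ℤ} (h : cpx v = p + q * omg) (k : ℤ) :
    cpx (shr (k * (2 / √3)) v) = ((p + k * q : ℤ) : ℂ) + q * omg := by
  have h3 : √3 ≠ 0 := by positivity
  have h1 := congrArg Complex.re h
  have h2 := congrArg Complex.im h
  simp only [cpx, omg, Complex.add_re, Complex.mul_re, Complex.intCast_re, Complex.intCast_im,
    Complex.add_im, Complex.mul_im] at h1 h2
  apply Complex.ext
  · simp only [cpx, omg, Complex.add_re, Complex.mul_re, Complex.intCast_re, Complex.intCast_im,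
      shr_zero]
    rw [h1, h2]
    push_cast
    field_simp
    ring
  · simp only [cpx, omg, Complex.add_im, Complex.mul_im, Complex.intCast_re, Complex.intCast_im,
      shr_one]
    rw [h2]

theorem exists_shear {P : Piece 2} (hP : IsSister P) : ∃ ψ : P.lat ≃+ P.lat, IsShear P ψ ∧
    ∀ v : P.lat, (ψ v : E 2) = shrE (2 / √3) v := by
  have key : ∀ (k : ℤ) (v : P.lat), shr (k * (2 / √3)) (v : E 2) ∈ P.lat := by
    intro k v
    obtain ⟨p, q, h⟩ := (lat_iff hP _).1 v.2
    exact (lat_iff hP _).2 ⟨_, _, cpx_shr h k⟩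
  let ψ : P.lat ≃+ P.lat :=
    { toFun := fun v => ⟨shr ((1 : ℤ) * (2 / √3)) (v : E 2), key 1 v⟩
      invFun := fun v => ⟨shr ((-1 : ℤ) * (2 / √3)) (v : E 2), key (-1) v⟩
      left_inv := by
        intro v
        apply Subtype.ext
        change shr _ (shr _ (v : E 2)) = v
        rw [shr_shr, show (((-1 : ℤ) : ℝ) * (2 / √3) + ((1 : ℤ) : ℝ) * (2 / √3)) = 0 by
          push_cast
          ring]
        exact shr_id _
      right_inv := by
        intro v
        apply Subtype.ext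
        change shr _ (shr _ (v : E 2)) = v
        rw [shr_shr, show (((1 : ℤ) : ℝ) * (2 / √3) + ((-1 : ℤ) : ℝ) * (2 / √3)) = 0 by
          push_cast
          ring]
        exact shr_id _
      map_add' := by
        intro v w
        apply Subtype.ext
        change shr _ ((v : E 2) + w) = shr _ (v : E 2) + shr _ (w : E 2)
        rw [map_add] }
  refine ⟨ψ, ?_, ?_⟩
  · intro v p q h
    have := cpx_shr h 1
    rw [one_mul] at this
    exact this
  · intro v
    change shr ((1 : ℤ) * (2 / √3)) (v : E 2) = shr (2 / √3) v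
    push_cast
    rw [one_mul]

theorem not_sim_shr {t c : ℝ} (ht : t ≠ 0) (h : ∀ v : E 2, ‖shr t v‖ = c * ‖v‖) : False := by
  have h1 := h (WithLp.toLp 2 ![1, 0])
  have h2 := h (WithLp.toLp 2 ![0, 1])
  have e1 : ‖shr t (WithLp.toLp 2 ![1, 0])‖ ^ 2 = 1 := by
    rw [EuclideanSpace.real_norm_sq_eq, Fin.sum_univ_two, shr_zero, shr_one]
    simp
  have e2 : ‖shr t (WithLp.toLp 2 ![0, 1])‖ ^ 2 = t ^ 2 + 1 := by
    rw [EuclideanSpace.real_norm_sq_eq, Fin.sum_univ_two, shr_zero, shr_one]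
    simp
  have e3 : ‖(WithLp.toLp 2 ![1, 0] : E 2)‖ ^ 2 = 1 := by
    rw [EuclideanSpace.real_norm_sq_eq, Fin.sum_univ_two]
    simp
  have e4 : ‖(WithLp.toLp 2 ![0, 1] : E 2)‖ ^ 2 = 1 := by
    rw [EuclideanSpace.real_norm_sq_eq, Fin.sum_univ_two]
    simp
  rw [h1, mul_pow, e3] at e1
  rw [h2, mul_pow, e4] at e2
  have : t ^ 2 = 0 := by linarith
  exact ht (pow_eq_zero_iff (two_ne_zero) |>.1 this)

theorem glue_ne {P : Piece 2} (ψ : P.lat ≃+ P.lat)
    {t : ℝ} (ht : t ≠ 0) (hψ : ∀ v : P.lat, (ψ v : E 2) = shrE t v) :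
    ¬ QuasiIsom (Glue (fun _ => P) (AddEquiv.refl P.lat)) (Glue (fun _ => P) ψ) := by
  intro h
  obtain ⟨A₀, A₁, σ₀, σ₁, h0, h1, hA₀, hA₁, hh⟩ := glue_rigid le_rfl (fun _ => P) (fun _ => P)
    (AddEquiv.refl P.lat) ψ (ContinuousLinearEquiv.refl ℝ (E 2)) (shrE t) (fun v => rfl)
    (fun v => (hψ v).symm) h
  have hsurj : Function.Surjective A₀ := by
    have hinj : Function.Injective A₀ := by
      intro x y hxy
      have := hA₀ (x - y)
      rw [map_sub, hxy, sub_self, norm_zero] at this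
      have h2 : ‖x - y‖ = 0 := by
        rcases mul_eq_zero.1 this.symm with h3 | h3
        · exact absurd h3 h0.ne'
        · exact h3
      exact sub_eq_zero.1 (norm_eq_zero.1 h2)
    exact LinearMap.surjective_of_injective (f := (A₀ : E 2 →ₗ[ℝ] E 2)) hinj
  have gen : ∀ B : E 2 → E 2, (∀ x, B (A₀ x) = A₁ x) → ∀ v, ‖B v‖ = σ₁ / σ₀ * ‖v‖ := by
    intro B hB v
    obtain ⟨x, rfl⟩ := hsurj v
    rw [hB, hA₁, hA₀]
    field_simp
  rcases hh with hh | hh
  · exact not_sim_shr ht (gen (shrE t) hh)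
  · have h2 := gen (shrE t).symm hh
    refine not_sim_shr (c := σ₁ / σ₀) (t := -t) (neg_ne_zero.2 ht) fun v => ?_
    have h3 := h2 v
    have h4 : (shrE t).symm v = shr (-t) v := rfl
    rwa [h4] at h3

theorem two_gluings : ∃ (P : Piece 2) (ψ : P.lat ≃+ P.lat), IsSister P ∧ IsShear P ψ ∧
    ¬ QuasiIsom (Glue (fun _ => P) (AddEquiv.refl P.lat)) (Glue (fun _ => P) ψ) := by
  obtain ⟨ψ, h1, h2⟩ := exists_shear isSister_sister
  exact ⟨Ex.sister, ψ, isSister_sister, h1, glue_ne ψ (by positivity) h2⟩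

end QIG
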