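import Pool.Agent.W_a51130_h62.Example2

/-! MP_a51130_gt: final statement-level notions. -/

namespace QIG

variable {m : ℕ}

/-- `A` is a similarity of `R^m`. -/
def IsSimil (A : E m →ₗ[ℝ] E m) : Prop := ∃ σ : ℝ, 0 < σ ∧ ∀ x, ‖A x‖ = σ * ‖x‖

/-- `Ψ` is the linear extension of the isomorphism `ψ` of cusp lattices. -/
def Extends {P Q : Piece m} (ψ : P.lat ≃+ Q.lat) (Ψ : E m ≃ₗ[ℝ] E m) : Prop :=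
  ∀ v : P.lat, Ψ (v : E m) = (ψ v : E m)

/-- `Ψ' = A₁ Ψ A₀⁻¹` or `Ψ'⁻¹ = A₁ Ψ A₀⁻¹` with similarities `A₀`, `A₁`. -/
def SimRel (Ψ Ψ' : E m ≃ₗ[ℝ] E m) : Prop :=
  ∃ A₀ A₁ : E m →ₗ[ℝ] E m, IsSimil A₀ ∧ IsSimil A₁ ∧
    ((∀ x, Ψ' (A₀ x) = A₁ (Ψ x)) ∨ ∀ x, Ψ'.symm (A₀ x) = A₁ (Ψ x))

theorem exists_ext (P Q : Piece m) (ψ : P.lat ≃+ Q.lat) : ∃ Ψ, Extends ψ Ψ := by
  obtain ⟨Ψ, h⟩ := exists_extension P Q ψ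
  exact ⟨Ψ.toLinearEquiv, h⟩

theorem simRel (hm : 2 ≤ m) (P P' : Fin 2 → Piece m) (ψ : (P 0).lat ≃+ (P 1).lat)
    (ψ' : (P' 0).lat ≃+ (P' 1).lat) (Ψ Ψ' : E m ≃ₗ[ℝ] E m) (hΨ : Extends ψ Ψ)
    (hΨ' : Extends ψ' Ψ') (h : QuasiIsom (Glue P ψ) (Glue P' ψ')) : SimRel Ψ Ψ' := by
  obtain ⟨A₀, A₁, σ₀, σ₁, h0, h1, hA₀, hA₁, hh⟩ := glue_rigid hm P P' ψ ψ'
    Ψ.toContinuousLinearEquiv Ψ'.toContinuousLinearEquiv hΨ hΨ' h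
  exact ⟨A₀, A₁, ⟨σ₀, h0, hA₀⟩, ⟨σ₁, h1, hA₁⟩, hh⟩

end QIG
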