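import Pool.Agent.W_a51130_h62.GeoDefs

/-!
Basic facts on `q` and `hd`.

PROOFS.
`q_eq`: expand.  `two_le_q`: AM-GM.  `q_triangle`: let `a = ‖x.u-y.u‖`, `b = ‖y.u-z.u‖`, `‖x.u-z.u‖ ≤ a+b`; the
claim `q x z ≤ q x y * q y z` follows from, with `t = x.t`, `k = y.t`, `r = z.t`,
`((a+b)² + t² + r²) k² ≤ (a²+t²+k²)(b²+k²+r²)`, whose difference is
`(ab - k²)² + a²r² + t²b² + t²r² ≥ 0` (check by `nlinarith`/`ring`).
`hd_triangle`: logarithm.  `q_isom`: `q = 2 chd + 2`.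
`t_le_of_hd`, `norm_le_of_hd`: from `q ≤ exp r`: `t'/t ≤ q`, `‖u-u'‖² ≤ q t t'`.
`exists_hd_le`: `q ≤ A² · A + A + A` etc. under the hypotheses.
`hd_vert`: `q = t/t' + t'/t ≤ 2 max`.  `hd_ge_log`: `q ≥ t'/t`, so `|log t' - log t| ≤ hd`.
-/

namespace QIG

variable {m : ℕ}

theorem q_eq (x y : HPt m) : q x y = 2 * chd x y + 2 := by
  have h1 := x.pos.ne'
  have h2 := y.pos.ne'
  unfold q chd
  field_simp
  ring

theorem chd_nonneg (x y : HPt m) : 0 ≤ chd x y := by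
  have h1 := x.pos
  have h2 := y.pos
  unfold chd
  positivity

theorem two_le_q (x y : HPt m) : 2 ≤ q x y := by
  have := chd_nonneg x y
  rw [q_eq]
  linarith

theorem q_comm (x y : HPt m) : q x y = q y x := by
  unfold q
  rw [norm_sub_rev, mul_comm x.t y.t]
  congr 1
  ring

theorem q_triangle (x y z : HPt m) : q x z ≤ q x y * q y z := by
  have ht := x.pos
  have hk := y.pos
  have hr := z.pos
  have hc : ‖x.u - z.u‖ ≤ ‖x.u - y.u‖ + ‖y.u - z.u‖ := norm_sub_le_norm_sub_add_norm_sub _ _ _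
  unfold q
  have ha0 := norm_nonneg (x.u - y.u)
  have hb0 := norm_nonneg (y.u - z.u)
  have hc0 := norm_nonneg (x.u - z.u)
  set a := ‖x.u - y.u‖
  set b := ‖y.u - z.u‖
  set c := ‖x.u - z.u‖
  set t := x.t
  set k := y.t
  set r := z.t
  rw [div_mul_div_comm, div_le_div_iff₀ (by positivity) (by positivity)]
  have h1 : c ^ 2 ≤ (a + b) ^ 2 := by gcongr
  have h2 : (c ^ 2 + t ^ 2 + r ^ 2) * k ^ 2 ≤ (a ^ 2 + t ^ 2 + k ^ 2) * (b ^ 2 + k ^ 2 + r ^ 2) := by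
    have h3 : (c ^ 2 + t ^ 2 + r ^ 2) * k ^ 2 ≤ ((a + b) ^ 2 + t ^ 2 + r ^ 2) * k ^ 2 := by
      gcongr
    have h4 : (a ^ 2 + t ^ 2 + k ^ 2) * (b ^ 2 + k ^ 2 + r ^ 2) -
        ((a + b) ^ 2 + t ^ 2 + r ^ 2) * k ^ 2 =
        (a * b - k ^ 2) ^ 2 + a ^ 2 * r ^ 2 + t ^ 2 * b ^ 2 + t ^ 2 * r ^ 2 := by ring
    have h5 : 0 ≤ (a * b - k ^ 2) ^ 2 + a ^ 2 * r ^ 2 + t ^ 2 * b ^ 2 + t ^ 2 * r ^ 2 := by
      positivity
    linarith
  have h6 : (c ^ 2 + t ^ 2 + r ^ 2) * (t * k * (k * r)) =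
      ((c ^ 2 + t ^ 2 + r ^ 2) * k ^ 2) * (t * r) := by ring
  rw [h6]
  have h7 : 0 ≤ t * r := by positivity
  exact mul_le_mul_of_nonneg_right h2 h7

theorem q_pos (x y : HPt m) : 0 < q x y := by
  have := two_le_q x y
  linarith

theorem exp_hd (x y : HPt m) : Real.exp (hd x y) = q x y := Real.exp_log (q_pos x y)

theorem hd_pos (x y : HPt m) : 0 < hd x y := Real.log_pos (by linarith [two_le_q x y])

theorem hd_self (x : HPt m) : hd x x = Real.log 2 := by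
  have h1 := x.pos.ne'
  have h2 : q x x = 2 := by
    unfold q
    rw [sub_self, norm_zero]
    field_simp
    ring
  rw [hd, h2]

theorem hd_comm (x y : HPt m) : hd x y = hd y x := by
  rw [hd, q_comm, hd]

theorem hd_triangle (x y z : HPt m) : hd x z ≤ hd x y + hd y z := by
  unfold hd
  rw [← Real.log_mul (q_pos x y).ne' (q_pos y z).ne']
  exact Real.log_le_log (q_pos x z) (q_triangle x y z)

theorem q_isom {g : Equiv.Perm (HPt m)} (hg : Isom g) (x y : HPt m) : q (g x) (g y) = q x y := by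
  rw [q_eq, q_eq, hg]

theorem hd_isom {g : Equiv.Perm (HPt m)} (hg : Isom g) (x y : HPt m) :
    hd (g x) (g y) = hd x y := by
  rw [hd, q_isom hg, hd]

theorem Isom.inv {g : Equiv.Perm (HPt m)} (hg : Isom g) : Isom g⁻¹ := by
  intro x y
  have h1 := hg (g⁻¹ x) (g⁻¹ y)
  have h2 : ∀ z, g (g⁻¹ z) = z := fun z => g.apply_symm_apply z
  rw [h2, h2] at h1
  exact h1.symm

theorem Isom.mul {g h : Equiv.Perm (HPt m)} (hg : Isom g) (hh : Isom h) : Isom (g * h) := by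
  intro x y
  rw [Equiv.Perm.mul_apply, Equiv.Perm.mul_apply, hg, hh]

theorem isom_transl (v : E m) : Isom (transl v) := by
  intro x y
  unfold chd
  simp only [transl_u, transl_t, add_sub_add_right_eq_sub]

theorem t_le_q (x y : HPt m) : y.t ≤ q x y * x.t := by
  have h1 := x.pos
  have h2 := y.pos
  have h3 : q x y * x.t = (‖x.u - y.u‖ ^ 2 + x.t ^ 2 + y.t ^ 2) / y.t := by
    unfold q
    field_simp
  rw [h3, le_div_iff₀ h2]
  nlinarith [sq_nonneg ‖x.u - y.u‖, sq_nonneg x.t]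

theorem norm_le_q (x y : HPt m) : ‖x.u - y.u‖ ≤ q x y * x.t := by
  have h1 := x.pos
  have h2 := y.pos
  have h3 := t_le_q x y
  have hq := q_pos x y
  apply abs_le_of_sq_le_sq' _ (by positivity) |>.2
  have h4 : ‖x.u - y.u‖ ^ 2 ≤ q x y * (x.t * y.t) := by
    have h5 : q x y * (x.t * y.t) = ‖x.u - y.u‖ ^ 2 + x.t ^ 2 + y.t ^ 2 := by
      unfold q
      field_simp
    rw [h5]
    nlinarith [sq_nonneg x.t, sq_nonneg y.t]
  have h6 : q x y * (x.t * y.t) ≤ q x y * (x.t * (q x y * x.t)) := by gcongr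
  calc ‖x.u - y.u‖ ^ 2 ≤ q x y * (x.t * (q x y * x.t)) := h4.trans h6
    _ = (q x y * x.t) ^ 2 := by ring

theorem q_le_of_hd {x y : HPt m} {r : ℝ} (h : hd x y ≤ r) : q x y ≤ Real.exp r := by
  rw [← exp_hd]
  exact Real.exp_le_exp.2 h

theorem t_le_of_hd {x y : HPt m} {r : ℝ} (h : hd x y ≤ r) : y.t ≤ Real.exp r * x.t :=
  (t_le_q x y).trans (mul_le_mul_of_nonneg_right (q_le_of_hd h) x.pos.le)

theorem norm_le_of_hd {x y : HPt m} {r : ℝ} (h : hd x y ≤ r) :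
    ‖x.u - y.u‖ ≤ Real.exp r * x.t :=
  (norm_le_q x y).trans (mul_le_mul_of_nonneg_right (q_le_of_hd h) x.pos.le)

theorem exists_hd_le (A : ℝ) : ∃ r : ℝ, 0 ≤ r ∧ ∀ {m : ℕ} (x y : HPt m), ‖x.u - y.u‖ ≤ A * x.t →
    y.t ≤ A * x.t → x.t ≤ A * y.t → hd x y ≤ r := by
  refine ⟨Real.log (|A| ^ 3 + 2 * |A| + 1), Real.log_nonneg ?_, ?_⟩
  · have := abs_nonneg A
    have h3 : 0 ≤ |A| ^ 3 := by positivity
    linarith
  · intro m x y h1 h2 h3
    have hx := x.pos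
    have hy := y.pos
    apply Real.log_le_log (q_pos x y)
    have hA : 0 < A := by
      by_contra hc
      have : A * y.t ≤ 0 := mul_nonpos_of_nonpos_of_nonneg (not_lt.1 hc) hy.le
      linarith
    rw [abs_of_pos hA]
    unfold q
    rw [div_le_iff₀ (by positivity)]
    have h4 : ‖x.u - y.u‖ ^ 2 ≤ (A * x.t) ^ 2 := by gcongr
    have h5 : (A * x.t) ^ 2 ≤ A ^ 3 * (x.t * y.t) := by
      have : A ^ 2 * x.t * x.t ≤ A ^ 2 * x.t * (A * y.t) := by gcongr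
      nlinarith
    have h6 : x.t ^ 2 ≤ A * (x.t * y.t) := by
      have : x.t * x.t ≤ x.t * (A * y.t) := by gcongr
      nlinarith
    have h7 : y.t ^ 2 ≤ A * (x.t * y.t) := by
      have : y.t * y.t ≤ y.t * (A * x.t) := by gcongr
      nlinarith
    have h8 : 0 < x.t * y.t := by positivity
    nlinarith

theorem hd_vert (u : E m) {t t' : ℝ} (ht : 0 < t) (ht' : 0 < t') :
    hd ⟨u, t, ht⟩ ⟨u, t', ht'⟩ ≤ |Real.log t' - Real.log t| + Real.log 2 := by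
  have h1 : t' / t ≤ Real.exp |Real.log t' - Real.log t| := by
    have : t' / t = Real.exp (Real.log t' - Real.log t) := by
      rw [Real.exp_sub, Real.exp_log ht, Real.exp_log ht']
    rw [this]
    exact Real.exp_le_exp.2 (le_abs_self _)
  have h2 : t / t' ≤ Real.exp |Real.log t' - Real.log t| := by
    have : t / t' = Real.exp (-(Real.log t' - Real.log t)) := by
      rw [neg_sub, Real.exp_sub, Real.exp_log ht, Real.exp_log ht']
    rw [this]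
    exact Real.exp_le_exp.2 (neg_le_abs _)
  have h3 : q ⟨u, t, ht⟩ ⟨u, t', ht'⟩ = t / t' + t' / t := by
    unfold q
    simp only [sub_self, norm_zero]
    field_simp
    ring
  have h4 : q ⟨u, t, ht⟩ ⟨u, t', ht'⟩ ≤ Real.exp |Real.log t' - Real.log t| * 2 := by
    rw [h3]
    linarith
  unfold hd
  refine (Real.log_le_log (q_pos _ _) h4).trans ?_
  rw [Real.log_mul (Real.exp_pos _).ne' two_ne_zero, Real.log_exp]

theorem log_sub_log_le_hd (x y : HPt m) : |Real.log y.t - Real.log x.t| ≤ hd x y := by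
  have key : ∀ x y : HPt m, Real.log y.t - Real.log x.t ≤ hd x y := by
    intro x y
    have h1 := t_le_of_hd (le_refl (hd x y))
    have h2 := Real.log_le_log y.pos h1
    rw [Real.log_mul (Real.exp_pos _).ne' x.pos.ne', Real.log_exp] at h2
    linarith
  rw [abs_le]
  constructor
  · have := key y x
    rw [hd_comm] at this
    linarith
  · exact key x y

/-- An isometry moves two points of equal height `τ` to points at horizontal distance
`≤ √(t t') ‖w-w'‖/τ`. -/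
theorem isom_horizontal {g : Equiv.Perm (HPt m)} (hg : Isom g) (w w' : E m) {τ : ℝ} (hτ : 0 < τ) :
    ‖(g ⟨w, τ, hτ⟩).u - (g ⟨w', τ, hτ⟩).u‖ ^ 2 ≤
      (g ⟨w, τ, hτ⟩).t * (g ⟨w', τ, hτ⟩).t * ‖w - w'‖ ^ 2 / τ ^ 2 := by
  have h1 := hg ⟨w, τ, hτ⟩ ⟨w', τ, hτ⟩
  have hx := (g ⟨w, τ, hτ⟩).pos
  have hy := (g ⟨w', τ, hτ⟩).pos
  unfold chd at h1
  simp only [sub_self] at h1
  rw [div_eq_iff (by positivity)] at h1
  have h2 : ‖w - w'‖ ^ 2 / τ ^ 2 * ((g ⟨w, τ, hτ⟩).t * (g ⟨w', τ, hτ⟩).t) =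
      (‖w - w'‖ ^ 2 + 0 ^ 2) / (2 * τ * τ) *
        (2 * (g ⟨w, τ, hτ⟩).t * (g ⟨w', τ, hτ⟩).t) := by
    field_simp
    ring
  have h3 : (g ⟨w, τ, hτ⟩).t * (g ⟨w', τ, hτ⟩).t * ‖w - w'‖ ^ 2 / τ ^ 2 =
      ‖w - w'‖ ^ 2 / τ ^ 2 * ((g ⟨w, τ, hτ⟩).t * (g ⟨w', τ, hτ⟩).t) := by ring
  rw [h3, h2, ← h1]
  nlinarith [sq_nonneg ((g ⟨w, τ, hτ⟩).t - (g ⟨w', τ, hτ⟩).t)]

end QIG
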