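import Pool.Agent.W_a51130_h62.GeoBasic

/-!
Classification of the isometries of the upper half space.

PROOF.  `chd (g x) (0,2)`, `chd (g x) (0,1)` determine `1 / (g x).t` linearly, so with
`y₂ = g⁻¹ (0,2)`, `y₁ = g⁻¹ (0,1)` one gets
`x.t / (g x).t = α(‖u‖²+t²) + ⟪w,u⟫ + γ` for constants `α, w, γ`.  Positivity for all `x` and
surjectivity of the height of `g` force `α = 0, w = 0, γ > 0` or `α > 0` and the right hand side is
`α(‖u-b‖²+t²)`.
Horizontal part: (a) if an isometry `f` multiplies heights by `c`, then `chd (f x)(f y) = chd x y` gives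
`‖u(fx) - u(fy)‖ = c‖x.u - y.u‖`; so `c⁻¹ u(fx)` depends only on `x.u` and is an isometry of `E m`, i.e.
`u(fx) = c A x.u + b`.
(c) heights of `g` are `s t/(‖u-b‖²+t²)`: let `J (u,t) = (s(u-b), s t)/(‖u-b‖²+t²)`, which is an isometry (compute
`chd`) and a bijection (`J⁻¹ (v,t) = (b + s v/(‖v‖²+t²), s t/(‖v‖²+t²))`).  `g ∘ J⁻¹` preserves heights, so by (a)
`g x = (A u(Jx) + p, t(Jx))`, which is the normal form.
-/

namespace QIG

variable {m : ℕ}

open scoped RealInnerProductSpace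

/-- The height of `g x` is determined by a quadratic polynomial. -/
theorem gc_height {g : Equiv.Perm (HPt m)} (hg : Isom g) :
    ∃ (α γ : ℝ) (w : E m), ∀ x : HPt m,
      x.t / (g x).t = α * (‖x.u‖ ^ 2 + x.t ^ 2) + ⟪w, x.u⟫ + γ := by
  obtain ⟨y2, hy2⟩ := g.surjective (⟨0, 2, two_pos⟩ : HPt m)
  obtain ⟨y1, hy1⟩ := g.surjective (⟨0, 1, one_pos⟩ : HPt m)
  refine ⟨(4 / 3) * (1 / (2 * y2.t) - 1 / (4 * y1.t)),
    (4 / 3) * ((‖y2.u‖ ^ 2 + y2.t ^ 2) / (2 * y2.t) - (‖y1.u‖ ^ 2 + y1.t ^ 2) / (4 * y1.t)),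
    (-(4 / 3) / y2.t) • y2.u + ((2 / 3) / y1.t) • y1.u, ?_⟩
  intro x
  have h2 := hg x y2
  have h1 := hg x y1
  rw [hy2] at h2
  rw [hy1] at h1
  unfold chd at h1 h2
  have e2 := norm_sub_sq_real x.u y2.u
  have e1 := norm_sub_sq_real x.u y1.u
  rw [e2] at h2
  rw [e1] at h1
  simp only [sub_zero] at h1 h2
  have p2 := y2.pos
  have p1 := y1.pos
  have pg := (g x).pos
  have px := x.pos
  rw [inner_add_left, inner_smul_left, inner_smul_left, real_inner_comm x.u y2.u,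
    real_inner_comm x.u y1.u]
  simp only [conj_trivial]
  generalize ⟪x.u, y2.u⟫ = I2 at *
  generalize ⟪x.u, y1.u⟫ = I1 at *
  generalize ‖(g x).u‖ ^ 2 = U at *
  generalize ‖x.u‖ ^ 2 = X at *
  generalize ‖y2.u‖ ^ 2 = A2 at *
  generalize ‖y1.u‖ ^ 2 = A1 at *
  generalize (g x).t = T at *
  generalize x.t = t at *
  generalize y2.t = s2 at *
  generalize y1.t = s1 at *
  have k2 : (U + T ^ 2 + 4) / (4 * T) = (X - 2 * I2 + A2 + t ^ 2 + s2 ^ 2) / (2 * t * s2) := by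
    have : (U + T ^ 2 + 4) / (4 * T) = (U + (T - 2) ^ 2) / (2 * T * 2) + 1 := by
      field_simp; ring
    rw [this, h2]
    field_simp; ring
  have k1 : (U + T ^ 2 + 1) / (2 * T) = (X - 2 * I1 + A1 + t ^ 2 + s1 ^ 2) / (2 * t * s1) := by
    have : (U + T ^ 2 + 1) / (2 * T) = (U + (T - 1) ^ 2) / (2 * T * 1) + 1 := by
      field_simp; ring
    rw [this, h1]
    field_simp; ring
  have k3 : t / T = (4 / 3) * t * ((U + T ^ 2 + 4) / (4 * T) - (1 / 2) * ((U + T ^ 2 + 1) / (2 * T))) := by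
    field_simp; ring
  rw [k3, k2, k1]
  field_simp
  ring

/-- Isometries multiplying the heights by a constant. -/
theorem gc_affine {g : Equiv.Perm (HPt m)} (hg : Isom g) {c : ℝ} (hc : 0 < c)
    (ht : ∀ x, (g x).t = c * x.t) :
    ∃ (A : E m ≃ₗᵢ[ℝ] E m) (b : E m), ∀ x, (g x).u = c • A x.u + b := by
  have key : ∀ x y, ‖(g x).u - (g y).u‖ = c * ‖x.u - y.u‖ := by
    intro x y
    have h := hg x y
    unfold chd at h
    rw [ht, ht] at h
    have px := x.pos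
    have py := y.pos
    have h1 : ‖(g x).u - (g y).u‖ ^ 2 = (c * ‖x.u - y.u‖) ^ 2 := by
      field_simp at h
      nlinarith [h]
    have h2 : 0 ≤ c * ‖x.u - y.u‖ := by positivity
    exact (sq_eq_sq₀ (norm_nonneg _) h2).1 h1
  let φ : E m → E m := fun u => c⁻¹ • (g ⟨u, 1, one_pos⟩).u
  have hφ : Isometry φ := by
    apply Isometry.of_dist_eq
    intro a b
    simp only [φ]
    rw [dist_eq_norm, dist_eq_norm, ← smul_sub, norm_smul, key]
    simp only [norm_inv, Real.norm_eq_abs, abs_of_pos hc]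
    field_simp
  let ψ := hφ.affineIsometryOfStrictConvexSpace
  let A : E m ≃ₗᵢ[ℝ] E m := ψ.linearIsometry.toLinearIsometryEquiv rfl
  refine ⟨A, (g ⟨0, 1, one_pos⟩).u, ?_⟩
  intro x
  have e1 : (g x).u = (g ⟨x.u, 1, one_pos⟩).u := by
    have := key x ⟨x.u, 1, one_pos⟩
    simp only [sub_self, norm_zero, mul_zero] at this
    exact sub_eq_zero.1 (norm_eq_zero.1 this)
  have e2 : A x.u = φ x.u - φ 0 := by
    have h1 : ψ x.u = ψ.linear x.u + ψ 0 := by
      have := ψ.map_vadd 0 x.u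
      simpa using this
    have h2 : ψ x.u = φ x.u := rfl
    have h3 : ψ 0 = φ 0 := rfl
    have h4 : A x.u = ψ.linear x.u := rfl
    rw [h4, ← h2, ← h3, h1]
    abel
  rw [e1, e2]
  simp only [φ]
  rw [← smul_sub, smul_smul, mul_inv_cancel₀ hc.ne', one_smul]
  abel

theorem gc_rho_pos (b : E m) (x : HPt m) : 0 < ‖x.u - b‖ ^ 2 + x.t ^ 2 := by
  have := x.pos
  positivity

/-- The model inversion. -/
noncomputable def gcJ (b : E m) (s : ℝ) (hs : 0 < s) : Equiv.Perm (HPt m) where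
  toFun x := ⟨(s / (‖x.u - b‖ ^ 2 + x.t ^ 2)) • (x.u - b), s * x.t / (‖x.u - b‖ ^ 2 + x.t ^ 2),
    div_pos (mul_pos hs x.pos) (gc_rho_pos b x)⟩
  invFun x := ⟨b + (s / (‖x.u‖ ^ 2 + x.t ^ 2)) • x.u, s * x.t / (‖x.u‖ ^ 2 + x.t ^ 2),
    div_pos (mul_pos hs x.pos) (by have := gc_rho_pos 0 x; rwa [sub_zero] at this)⟩
  left_inv x := by
    have h0 := gc_rho_pos b x
    have e : ‖(s / (‖x.u - b‖ ^ 2 + x.t ^ 2)) • (x.u - b)‖ ^ 2 +
        (s * x.t / (‖x.u - b‖ ^ 2 + x.t ^ 2)) ^ 2 = s ^ 2 / (‖x.u - b‖ ^ 2 + x.t ^ 2) := by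
      rw [norm_smul, Real.norm_eq_abs, mul_pow, sq_abs]
      field_simp
    apply HPt.ext
    · simp only [e, smul_smul]
      have : s / (s ^ 2 / (‖x.u - b‖ ^ 2 + x.t ^ 2)) * (s / (‖x.u - b‖ ^ 2 + x.t ^ 2)) = 1 := by
        field_simp
      rw [this, one_smul]
      abel
    · simp only [e]
      field_simp
  right_inv x := by
    have h0 := gc_rho_pos 0 x
    rw [sub_zero] at h0
    have e : ‖(s / (‖x.u‖ ^ 2 + x.t ^ 2)) • x.u‖ ^ 2 +
        (s * x.t / (‖x.u‖ ^ 2 + x.t ^ 2)) ^ 2 = s ^ 2 / (‖x.u‖ ^ 2 + x.t ^ 2) := by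
      rw [norm_smul, Real.norm_eq_abs, mul_pow, sq_abs]
      field_simp
    apply HPt.ext
    · simp only [add_sub_cancel_left, e, smul_smul]
      have : s / (s ^ 2 / (‖x.u‖ ^ 2 + x.t ^ 2)) * (s / (‖x.u‖ ^ 2 + x.t ^ 2)) = 1 := by
        field_simp
      rw [this, one_smul]
    · simp only [add_sub_cancel_left, e]
      field_simp

theorem gcJ_u (b : E m) (s : ℝ) (hs : 0 < s) (x : HPt m) :
    (gcJ b s hs x).u = (s / (‖x.u - b‖ ^ 2 + x.t ^ 2)) • (x.u - b) := rfl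

theorem gcJ_t (b : E m) (s : ℝ) (hs : 0 < s) (x : HPt m) :
    (gcJ b s hs x).t = s * x.t / (‖x.u - b‖ ^ 2 + x.t ^ 2) := rfl

theorem gcJ_isom (b : E m) (s : ℝ) (hs : 0 < s) : Isom (gcJ b s hs) := by
  intro x y
  unfold chd
  rw [gcJ_u, gcJ_u, gcJ_t, gcJ_t]
  have e0 : x.u - y.u = (x.u - b) - (y.u - b) := by abel
  rw [e0]
  have h1 := gc_rho_pos b x
  have h2 := gc_rho_pos b y
  generalize x.u - b = v at *
  generalize y.u - b = w at *
  have px := x.pos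
  have py := y.pos
  have e1 := norm_sub_sq_real ((s / (‖v‖ ^ 2 + x.t ^ 2)) • v) ((s / (‖w‖ ^ 2 + y.t ^ 2)) • w)
  rw [norm_smul, norm_smul, inner_smul_left, inner_smul_right, mul_pow, mul_pow] at e1
  simp only [conj_trivial, Real.norm_eq_abs, sq_abs] at e1
  rw [e1, norm_sub_sq_real v w]
  clear e1 e0
  generalize ⟪v, w⟫ = I at *
  generalize ‖v‖ ^ 2 = X at *
  generalize ‖w‖ ^ 2 = Y at *
  generalize x.t = t at *
  generalize y.t = r at *
  field_simp
  ring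

theorem isom_classify {g : Equiv.Perm (HPt m)} (hg : Isom g) :
    (∃ (c : ℝ) (A : E m ≃ₗᵢ[ℝ] E m) (b : E m), 0 < c ∧
      ∀ x, (g x).t = c * x.t ∧ (g x).u = c • A x.u + b) ∨
    ∃ (p b : E m) (s : ℝ) (A : E m ≃ₗᵢ[ℝ] E m), IsInv g p b s A := by
  obtain ⟨α, γ, w, hF⟩ := gc_height hg
  have hpos : ∀ x : HPt m, 0 < α * (‖x.u‖ ^ 2 + x.t ^ 2) + ⟪w, x.u⟫ + γ := by
    intro x
    rw [← hF]
    exact div_pos x.pos (g x).pos
  have hα : 0 ≤ α := by
    by_contra hneg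
    push Not at hneg
    have h1 := hpos ⟨0, |γ| / (-α) + 1, by
      have : 0 < -α := by linarith
      positivity⟩
    simp only [norm_zero, inner_zero_right] at h1
    have h2 : 0 < -α := by linarith
    have h3 : 0 ≤ |γ| / (-α) := by positivity
    have h4 : |γ| / (-α) + 1 ≤ (|γ| / (-α) + 1) ^ 2 := by nlinarith
    have h5 : (-α) * (|γ| / (-α)) = |γ| := mul_div_cancel₀ _ h2.ne'
    have h6 := le_abs_self γ
    nlinarith
  rcases hα.eq_or_lt with h0 | h0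
  · -- `α = 0`
    left
    subst h0
    have hw : w = 0 := by
      by_contra hne
      have hn : 0 < ‖w‖ ^ 2 := by positivity
      have h1 := hpos ⟨(-γ / ‖w‖ ^ 2) • w, 1, one_pos⟩
      simp only [inner_smul_right, real_inner_self_eq_norm_sq] at h1
      have : -γ / ‖w‖ ^ 2 * ‖w‖ ^ 2 = -γ := by field_simp
      rw [this] at h1
      linarith
    subst hw
    have hγ : 0 < γ := by
      have := hpos (base m)
      simpa [base] using this
    have ht : ∀ x, (g x).t = γ⁻¹ * x.t := by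
      intro x
      have h1 := hF x
      simp only [zero_mul, inner_zero_left, zero_add] at h1
      have := (g x).pos
      rw [div_eq_iff this.ne'] at h1
      rw [h1]
      field_simp
    obtain ⟨A, b, h⟩ := gc_affine hg (inv_pos.2 hγ) ht
    exact ⟨γ⁻¹, A, b, inv_pos.2 hγ, fun x => ⟨ht x, h x⟩⟩
  · -- `α > 0`
    right
    let b : E m := (-(1 / (2 * α))) • w
    have hsq : ∀ x : HPt m, x.t / (g x).t = α * (‖x.u - b‖ ^ 2 + x.t ^ 2) + (γ - α * ‖b‖ ^ 2) := by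
      intro x
      rw [hF, norm_sub_sq_real]
      have : ⟪x.u, b⟫ = -(1 / (2 * α)) * ⟪w, x.u⟫ := by
        simp only [b]
        rw [inner_smul_right, real_inner_comm]
      rw [this]
      field_simp
      ring
    have hκ1 : 0 ≤ γ - α * ‖b‖ ^ 2 := by
      by_contra hneg
      push Not at hneg
      have hp : 0 < -(γ - α * ‖b‖ ^ 2) / (2 * α) := by
        apply div_pos <;> linarith
      have h1 := hsq ⟨b, Real.sqrt (-(γ - α * ‖b‖ ^ 2) / (2 * α)), Real.sqrt_pos.2 hp⟩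
      have h2 : 0 < (⟨b, Real.sqrt (-(γ - α * ‖b‖ ^ 2) / (2 * α)), Real.sqrt_pos.2 hp⟩ : HPt m).t /
        (g ⟨b, Real.sqrt (-(γ - α * ‖b‖ ^ 2) / (2 * α)), Real.sqrt_pos.2 hp⟩).t :=
        div_pos (HPt.pos _) (HPt.pos _)
      rw [h1] at h2
      simp only [sub_self, norm_zero] at h2
      rw [Real.sq_sqrt hp.le] at h2
      have h3 : α * (0 ^ 2 + -(γ - α * ‖b‖ ^ 2) / (2 * α)) = -(γ - α * ‖b‖ ^ 2) / 2 := by
        field_simp
        ring
      rw [h3] at h2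
      linarith
    have hκ2 : γ - α * ‖b‖ ^ 2 ≤ 0 := by
      by_contra hpos'
      push Not at hpos'
      set κ := γ - α * ‖b‖ ^ 2 with hκ
      have hT : 0 < 1 + 1 / (4 * α * κ) := by positivity
      obtain ⟨x, hx⟩ := g.surjective (⟨0, 1 + 1 / (4 * α * κ), hT⟩ : HPt m)
      have h1 := hsq x
      rw [hx] at h1
      simp only at h1
      set T := 1 + 1 / (4 * α * κ) with hTdef
      have hT1 : 1 / (4 * α * κ) < T ^ 2 := by
        have : 0 < 1 / (4 * α * κ) := by positivity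
        nlinarith
      have hT2 : 1 < 4 * α * κ * T ^ 2 := by
        have h4 : 0 < 4 * α * κ := by positivity
        have := (mul_lt_mul_iff_right₀ h4).2 hT1
        rwa [mul_one_div_cancel h4.ne'] at this
      rw [div_eq_iff hT.ne'] at h1
      have h5 : 0 ≤ α * ‖x.u - b‖ ^ 2 * T := by positivity
      have h6 : α * T * x.t ^ 2 + κ * T ≤ x.t := by nlinarith
      have h7 : 0 ≤ (2 * T * α * x.t - 1) ^ 2 := sq_nonneg _
      have h8 : 0 < 4 * T * α := by positivity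
      nlinarith [mul_le_mul_of_nonneg_left h6 h8.le]
    have hκ : γ - α * ‖b‖ ^ 2 = 0 := le_antisymm hκ2 hκ1
    have hs : 0 < α⁻¹ := inv_pos.2 h0
    have ht : ∀ x, (g x).t = α⁻¹ * x.t / (‖x.u - b‖ ^ 2 + x.t ^ 2) := by
      intro x
      have h1 := hsq x
      rw [hκ, add_zero, div_eq_iff (g x).pos.ne'] at h1
      have h2 := gc_rho_pos b x
      rw [eq_div_iff h2.ne']
      have : α⁻¹ * x.t = α⁻¹ * (α * (‖x.u - b‖ ^ 2 + x.t ^ 2) * (g x).t) := by rw [← h1]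
      rw [this]
      field_simp
    have hk : Isom (g * (gcJ b α⁻¹ hs)⁻¹) := hg.mul (gcJ_isom b α⁻¹ hs).inv
    have hkt : ∀ y, ((g * (gcJ b α⁻¹ hs)⁻¹) y).t = 1 * y.t := by
      intro y
      obtain ⟨x, rfl⟩ := (gcJ b α⁻¹ hs).surjective y
      have : (g * (gcJ b α⁻¹ hs)⁻¹) (gcJ b α⁻¹ hs x) = g x := by simp
      rw [this, ht, gcJ_t, one_mul]
    obtain ⟨A, p, hA⟩ := gc_affine hk one_pos hkt
    refine ⟨p, b, α⁻¹, A, hs, ht, ?_⟩
    intro x
    have h1 := hA (gcJ b α⁻¹ hs x)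
    have h2 : (g * (gcJ b α⁻¹ hs)⁻¹) (gcJ b α⁻¹ hs x) = g x := by simp
    rw [h2, gcJ_u, one_smul, map_smul] at h1
    rw [h1]
    abel

end QIG
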