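import Pool.Agent.W_a51130_h62.Defs

/-! MP_a51130_gt: upper half space geometry, definitions. -/

namespace QIG

variable {m : ℕ}

/-- `q x y = 2 cosh d(x,y)`. -/
noncomputable def q (x y : HPt m) : ℝ := (‖x.u - y.u‖ ^ 2 + x.t ^ 2 + y.t ^ 2) / (x.t * y.t)

/-- A substitute for the hyperbolic distance: `hd x y = log (2 cosh d(x,y))`; satisfies the triangle
inequality, `hd x x = log 2`, and differs from `d` by at most `log 2`. -/
noncomputable def hd (x y : HPt m) : ℝ := Real.log (q x y)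

/-- Hyperbolic isometry. -/
def Isom (g : Equiv.Perm (HPt m)) : Prop := ∀ x y, chd (g x) (g y) = chd x y

/-- Normal form of an isometry `g` which does not fix infinity: `p = g ∞`, `b = g⁻¹ ∞`, `s` = Euclidean
diameter of the horoball `g {t > 1}`. -/
structure IsInv (g : Equiv.Perm (HPt m)) (p b : E m) (s : ℝ) (A : E m ≃ₗᵢ[ℝ] E m) : Prop where
  pos : 0 < s
  t_eq : ∀ x, (g x).t = s * x.t / (‖x.u - b‖ ^ 2 + x.t ^ 2)
  u_eq : ∀ x, (g x).u = p + (s / (‖x.u - b‖ ^ 2 + x.t ^ 2)) • A (x.u - b)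

open Classical in
/-- Chosen normal form data. -/
noncomputable def nf (g : Equiv.Perm (HPt m)) : E m × E m × ℝ × (E m ≃ₗᵢ[ℝ] E m) :=
  if h : ∃ d : E m × E m × ℝ × (E m ≃ₗᵢ[ℝ] E m), IsInv g d.1 d.2.1 d.2.2.1 d.2.2.2 then h.choose
  else (0, 0, 1, LinearIsometryEquiv.refl ℝ _)

/-- `g ∞`. -/
noncomputable def bp (g : Equiv.Perm (HPt m)) : E m := (nf g).1

/-- `g⁻¹ ∞`. -/
noncomputable def bb (g : Equiv.Perm (HPt m)) : E m := (nf g).2.1

/-- The size of the horoball `g {t > 1}`. -/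
noncomputable def bs (g : Equiv.Perm (HPt m)) : ℝ := (nf g).2.2.1

/-- The rotation part. -/
noncomputable def bA (g : Equiv.Perm (HPt m)) : E m ≃ₗᵢ[ℝ] E m := (nf g).2.2.2

theorem isInv_nf {g : Equiv.Perm (HPt m)} {p b : E m} {s : ℝ} {A : E m ≃ₗᵢ[ℝ] E m}
    (h : IsInv g p b s A) : IsInv g (bp g) (bb g) (bs g) (bA g) := by
  have h1 : ∃ d : E m × E m × ℝ × (E m ≃ₗᵢ[ℝ] E m), IsInv g d.1 d.2.1 d.2.2.1 d.2.2.2 :=
    ⟨(p, b, s, A), h⟩
  have h2 : nf g = h1.choose := by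
    unfold nf
    rw [dif_pos h1]
  unfold bp bb bs bA
  rw [h2]
  exact h1.choose_spec

end QIG
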