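import Pool.Agent.W_a51130_h62.GeoBasic

/-!
Four point hyperbolicity of `hd` and the logarithmic chain lemma.

PROOFS.  Let `a x y = ‖x.u-y.u‖ + x.t + y.t`.  `q x y ≤ (a x y)²/(x.t y.t) ≤ 3 q x y`.  `a` satisfies the triangle
inequality `a x y ≤ a x z + a z y`.  `a x y * a z w ≤ 4 max (a x z * a y w) (a x w * a y z)`: let the smallest of
the four numbers `a x z, a x w, a y z, a y w` be, say, `a x z`; then `a x y ≤ a x z + a z y ≤ 2 a y z`,
`a z w ≤ a z x + a x w ≤ 2 a x w`; the other cases are symmetric.  Taking logarithms gives `four_point` with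
`log (16·9) = log 144`.
`chain_log`: put `(x|y) = hd x w + hd w y - hd x y`.  `four_point` gives `(x|y) ≥ min (x|z) (z|y) - log 144`.
Induction on `N`, for intervals `[i, j]` of indices with `j - i ≤ 2^N`: if `(y i|y j) ≤ c'` then there is
`k ∈ [i,j]` with `hd w (y k) ≤ c' + c + N log 144 + ...`: split at the middle, one half has
`(·|·) ≤ c' + log 144`; when `j = i+1` or `j = i`: `(y i|y j) = hd (y i) w + hd w (y j) - hd (y i) (y j) ≥
2 hd w (y i) - 2c` (triangle).
-/

namespace QIG

variable {m : ℕ}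

/-- the auxiliary sum -/
noncomputable def aaFour (x y : HPt m) : ℝ := ‖x.u - y.u‖ + x.t + y.t

theorem aaFour_pos (x y : HPt m) : 0 < aaFour x y := by
  have h1 := x.pos
  have h2 := y.pos
  have h3 := norm_nonneg (x.u - y.u)
  unfold aaFour
  linarith

theorem aaFour_comm (x y : HPt m) : aaFour x y = aaFour y x := by
  unfold aaFour
  rw [norm_sub_rev]
  ring

theorem aaFour_tri (x y z : HPt m) : aaFour x y ≤ aaFour x z + aaFour z y := by
  have h1 := z.pos
  have h3 := norm_sub_le_norm_sub_add_norm_sub x.u z.u y.u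
  unfold aaFour
  linarith

theorem aaFour_four_aux {p q r s A B : ℝ} (hp : 0 < p) (hq : 0 < q) (hr : 0 < r) (hs : 0 < s)
    (hA0 : 0 < A) (hB0 : 0 < B)
    (h1 : A ≤ p + r) (h2 : A ≤ q + s) (h3 : B ≤ p + q) (h4 : B ≤ r + s) :
    A * B ≤ 4 * max (p * s) (q * r) := by
  have key1 : A ≤ 2 * r → B ≤ 2 * q → A * B ≤ 4 * max (p * s) (q * r) := by
    intro ha hb
    have h5 : A * B ≤ (2 * r) * (2 * q) := mul_le_mul ha hb hB0.le (by positivity)
    have h6 : q * r ≤ max (p * s) (q * r) := le_max_right _ _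
    nlinarith
  have key1' : A ≤ 2 * q → B ≤ 2 * r → A * B ≤ 4 * max (p * s) (q * r) := by
    intro ha hb
    have h5 : A * B ≤ (2 * q) * (2 * r) := mul_le_mul ha hb hB0.le (by positivity)
    have h6 : q * r ≤ max (p * s) (q * r) := le_max_right _ _
    nlinarith
  have key2 : A ≤ 2 * s → B ≤ 2 * p → A * B ≤ 4 * max (p * s) (q * r) := by
    intro ha hb
    have h5 : A * B ≤ (2 * s) * (2 * p) := mul_le_mul ha hb hB0.le (by positivity)
    have h6 : p * s ≤ max (p * s) (q * r) := le_max_left _ _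
    nlinarith
  have key2' : A ≤ 2 * p → B ≤ 2 * s → A * B ≤ 4 * max (p * s) (q * r) := by
    intro ha hb
    have h5 : A * B ≤ (2 * p) * (2 * s) := mul_le_mul ha hb hB0.le (by positivity)
    have h6 : p * s ≤ max (p * s) (q * r) := le_max_left _ _
    nlinarith
  rcases le_total p q with h5 | h5 <;> rcases le_total r s with h6 | h6
  · -- p ≤ q, r ≤ s
    rcases le_total p r with h7 | h7
    · exact key1 (by linarith) (by linarith)
    · exact key2' (by linarith) (by linarith)
  · -- p ≤ q, s ≤ r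
    rcases le_total p s with h7 | h7
    · exact key1 (by linarith) (by linarith)
    · exact key1' (by linarith) (by linarith)
  · -- q ≤ p, r ≤ s
    rcases le_total q r with h7 | h7
    · exact key2 (by linarith) (by linarith)
    · exact key2' (by linarith) (by linarith)
  · -- q ≤ p, s ≤ r
    rcases le_total q s with h7 | h7
    · exact key2 (by linarith) (by linarith)
    · exact key1' (by linarith) (by linarith)

theorem aaFour_four (x y z w : HPt m) :
    aaFour x y * aaFour z w ≤ 4 * max (aaFour x z * aaFour y w) (aaFour x w * aaFour y z) := by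
  have h1 := aaFour_tri x y z
  have h2 := aaFour_tri x y w
  have h3 := aaFour_tri z w x
  have h4 := aaFour_tri z w y
  rw [aaFour_comm z y] at h1 h4
  rw [aaFour_comm w y] at h2
  rw [aaFour_comm z x] at h3
  exact aaFour_four_aux (aaFour_pos x z) (aaFour_pos x w) (aaFour_pos y z) (aaFour_pos y w)
    (aaFour_pos x y) (aaFour_pos z w) h1 h2 h3 h4

theorem q_le_aaFour (x y : HPt m) : q x y * (x.t * y.t) ≤ aaFour x y ^ 2 := by
  have h1 := x.pos
  have h2 := y.pos
  have h3 := norm_nonneg (x.u - y.u)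
  unfold q aaFour
  rw [div_mul_cancel₀ _ (mul_pos h1 h2).ne']
  have h4 := mul_nonneg h3 h1.le
  have h5 := mul_nonneg h3 h2.le
  have h6 := mul_pos h1 h2
  nlinarith

theorem aaFour_le_q (x y : HPt m) : aaFour x y ^ 2 ≤ 3 * (q x y * (x.t * y.t)) := by
  have h1 := x.pos
  have h2 := y.pos
  have h3 := norm_nonneg (x.u - y.u)
  unfold q aaFour
  rw [div_mul_cancel₀ _ (mul_pos h1 h2).ne']
  nlinarith [sq_nonneg (‖x.u - y.u‖ - x.t), sq_nonneg (‖x.u - y.u‖ - y.t), sq_nonneg (x.t - y.t)]

theorem q_four (x y z w : HPt m) :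
    q x y * q z w ≤ 144 * max (q x z * q y w) (q x w * q y z) := by
  have hx := x.pos
  have hy := y.pos
  have hz := z.pos
  have hw := w.pos
  have hP : 0 < x.t * y.t * (z.t * w.t) := by positivity
  have q1 := two_le_q x y
  have q2 := two_le_q z w
  have q3 := two_le_q x z
  have q4 := two_le_q y w
  have q5 := two_le_q x w
  have q6 := two_le_q y z
  have e1 : (q x y * (x.t * y.t)) * (q z w * (z.t * w.t)) ≤
      (aaFour x y * aaFour z w) ^ 2 := by
    rw [mul_pow]
    exact mul_le_mul (q_le_aaFour x y) (q_le_aaFour z w) (by positivity) (by positivity)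
  have e2 : (aaFour x y * aaFour z w) ^ 2 ≤
      (4 * max (aaFour x z * aaFour y w) (aaFour x w * aaFour y z)) ^ 2 :=
    pow_le_pow_left₀ (mul_pos (aaFour_pos x y) (aaFour_pos z w)).le (aaFour_four x y z w) 2
  have e3 : (aaFour x z * aaFour y w) ^ 2 ≤
      9 * ((q x z * q y w) * (x.t * y.t * (z.t * w.t))) := by
    rw [mul_pow]
    calc aaFour x z ^ 2 * aaFour y w ^ 2 ≤
        (3 * (q x z * (x.t * z.t))) * (3 * (q y w * (y.t * w.t))) :=
          mul_le_mul (aaFour_le_q x z) (aaFour_le_q y w) (by positivity) (by positivity)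
      _ = _ := by ring
  have e4 : (aaFour x w * aaFour y z) ^ 2 ≤
      9 * ((q x w * q y z) * (x.t * y.t * (z.t * w.t))) := by
    rw [mul_pow]
    calc aaFour x w ^ 2 * aaFour y z ^ 2 ≤
        (3 * (q x w * (x.t * w.t))) * (3 * (q y z * (y.t * z.t))) :=
          mul_le_mul (aaFour_le_q x w) (aaFour_le_q y z) (by positivity) (by positivity)
      _ = _ := by ring
  have e5 : (max (aaFour x z * aaFour y w) (aaFour x w * aaFour y z)) ^ 2 ≤
      9 * (max (q x z * q y w) (q x w * q y z) * (x.t * y.t * (z.t * w.t))) := by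
    rcases le_total (aaFour x z * aaFour y w) (aaFour x w * aaFour y z) with h | h
    · rw [max_eq_right h]
      refine e4.trans ?_
      have := mul_le_mul_of_nonneg_right (le_max_right (q x z * q y w) (q x w * q y z)) hP.le
      linarith
    · rw [max_eq_left h]
      refine e3.trans ?_
      have := mul_le_mul_of_nonneg_right (le_max_left (q x z * q y w) (q x w * q y z)) hP.le
      linarith
  have e6 : (q x y * q z w) * (x.t * y.t * (z.t * w.t)) ≤
      (144 * max (q x z * q y w) (q x w * q y z)) * (x.t * y.t * (z.t * w.t)) := by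
    calc (q x y * q z w) * (x.t * y.t * (z.t * w.t)) =
        (q x y * (x.t * y.t)) * (q z w * (z.t * w.t)) := by ring
      _ ≤ (4 * max (aaFour x z * aaFour y w) (aaFour x w * aaFour y z)) ^ 2 := e1.trans e2
      _ = 16 * (max (aaFour x z * aaFour y w) (aaFour x w * aaFour y z)) ^ 2 := by ring
      _ ≤ 16 * (9 * (max (q x z * q y w) (q x w * q y z) * (x.t * y.t * (z.t * w.t)))) := by
          linarith
      _ = _ := by ring
  exact le_of_mul_le_mul_right e6 hP

theorem four_point (x y z w : HPt m) :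
    hd x y + hd z w ≤ max (hd x z + hd y w) (hd x w + hd y z) + Real.log 144 := by
  have q1 : 0 < q x y := by linarith [two_le_q x y]
  have q2 : 0 < q z w := by linarith [two_le_q z w]
  have q3 : 0 < q x z := by linarith [two_le_q x z]
  have q4 : 0 < q y w := by linarith [two_le_q y w]
  have q5 : 0 < q x w := by linarith [two_le_q x w]
  have q6 : 0 < q y z := by linarith [two_le_q y z]
  have h := q_four x y z w
  unfold hd
  rw [← Real.log_mul q1.ne' q2.ne', ← Real.log_mul q3.ne' q4.ne', ← Real.log_mul q5.ne' q6.ne']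
  rcases le_total (q x z * q y w) (q x w * q y z) with h1 | h1
  · rw [max_eq_right h1] at h
    rw [max_eq_right (Real.log_le_log (by positivity) h1), ← Real.log_mul (by positivity)
      (by norm_num)]
    exact Real.log_le_log (by positivity) (by linarith)
  · rw [max_eq_left h1] at h
    rw [max_eq_left (Real.log_le_log (by positivity) h1), ← Real.log_mul (by positivity)
      (by norm_num)]
    exact Real.log_le_log (by positivity) (by linarith)

theorem chain_log_aux (y : ℕ → HPt m) (w : HPt m) (c : ℝ) (n : ℕ) (hc : 0 ≤ c)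
    (hy : ∀ i < n, hd (y i) (y (i + 1)) ≤ c) (N : ℕ) : ∀ (c' : ℝ) (i j : ℕ), i ≤ j → j ≤ n →
    j - i ≤ 2 ^ N → hd (y i) w + hd w (y j) ≤ hd (y i) (y j) + c' →
    ∃ k, k ≤ n ∧ hd w (y k) ≤ c' + 2 * c + 1 + N * Real.log 144 := by
  have hl2 : Real.log 2 ≤ 1 := by
    have := Real.log_two_lt_d9
    linarith
  induction N with
  | zero =>
    intro c' i j hij hjn hN h
    rw [pow_zero] at hN
    refine ⟨i, hij.trans hjn, ?_⟩
    have h0 := (hd_pos w (y i)).le
    rw [hd_comm (y i) w] at h
    rcases Nat.eq_or_lt_of_le hij with h1 | h1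
    · subst h1
      rw [hd_self] at h
      push_cast
      linarith
    · have h2 : j = i + 1 := by omega
      subst h2
      have h3 := hy i (by omega)
      have h4 := hd_triangle w (y (i + 1)) (y i)
      rw [hd_comm (y (i + 1)) (y i)] at h4
      push_cast
      linarith
  | succ N ih =>
    intro c' i j hij hjn hN h
    obtain ⟨k, hik, hkj, hk1, hk2⟩ : ∃ k, i ≤ k ∧ k ≤ j ∧ k - i ≤ 2 ^ N ∧ j - k ≤ 2 ^ N := by
      refine ⟨(i + j) / 2, by omega, by omega, ?_, ?_⟩ <;> rw [pow_succ] at hN <;> omega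
    have h4 := four_point (y i) (y j) (y k) w
    have h5 : hd (y i) w + hd w (y k) ≤ hd (y i) (y k) + (c' + Real.log 144) ∨
        hd (y k) w + hd w (y j) ≤ hd (y k) (y j) + (c' + Real.log 144) := by
      rcases le_total (hd (y i) (y k) + hd (y j) w) (hd (y i) w + hd (y j) (y k)) with h6 | h6
      · rw [max_eq_right h6] at h4
        right
        rw [hd_comm (y k) (y j)]
        rw [hd_comm w (y j)] at h ⊢
        linarith
      · rw [max_eq_left h6] at h4
        left
        rw [hd_comm w (y j)] at h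
        rw [hd_comm w (y k)]
        linarith
    rcases h5 with h5 | h5
    · obtain ⟨l, hl, hl2⟩ := ih _ i k hik (hkj.trans hjn) hk1 h5
      refine ⟨l, hl, hl2.trans (le_of_eq ?_)⟩
      push_cast
      ring
    · obtain ⟨l, hl, hl2⟩ := ih _ k j hkj hjn hk2 h5
      refine ⟨l, hl, hl2.trans (le_of_eq ?_)⟩
      push_cast
      ring

theorem chain_log : ∃ C : ℝ, 0 < C ∧ ∀ {m : ℕ} (y : ℕ → HPt m) (w : HPt m) (c : ℝ) (n N : ℕ),
    0 ≤ c → (∀ i < n, hd (y i) (y (i + 1)) ≤ c) → hd (y 0) w + hd w (y n) ≤ hd (y 0) (y n) + c →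
    n ≤ 2 ^ N → ∃ i ≤ n, hd w (y i) ≤ C * (1 + c + N) := by
  have hL : 0 ≤ Real.log 144 := Real.log_nonneg (by norm_num)
  refine ⟨3 + Real.log 144, by linarith, ?_⟩
  intro m y w c n N hc hy h hN
  obtain ⟨k, hk, hk2⟩ := chain_log_aux y w c n hc hy N c 0 n (Nat.zero_le n) le_rfl
    (by rw [Nat.sub_zero]; exact hN) h
  refine ⟨k, hk, hk2.trans ?_⟩
  have h1 : (0 : ℝ) ≤ N := Nat.cast_nonneg N
  have h2 := mul_nonneg hc hL
  nlinarith

end QIG
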