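import Pool.Agent.W_a51130_h62.GeoClass

/-!
Algebra of normal forms.

PROOFS.  `inv`: compute.  `transl_mul`, `mul_transl`: immediate.  `unique`: heights
`s t/(‖u-b‖²+t²)` determine `b` (the ratio `t/t(gx)` as a function of `u` is `(‖u-b‖²+t²)/s`) and `s`, then
`u`-coordinates at `x.u = b` give `p`, and then `A`.
`mul`: `g * g'` is an isometry if both are (`Isom` hypotheses).  Heights: with `N' = ‖x.u-b'‖²+x.t²`,
`‖u(g'x)-b‖²+t(g'x)² = ‖p'-b‖² + (2s'⟪p'-b, A'(x.u-b')⟫ + s'²)/N'`, so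
`t(g g' x) = s s' t/(‖p'-b‖² N' + 2s'⟪A'⁻¹(p'-b), x.u-b'⟫ + s'²) = S t/(‖x.u-B‖²+t²)`, with
`S = s s'/‖p'-b‖²` and `B = b' + (s'/‖p'-b‖²) A'⁻¹(b-p')`.  By `isom_classify` (the first alternative is excluded by
this height formula; `m = 0` is impossible since `b ≠ p'`) `g g'` has a normal form, with these `B, S` by
uniqueness from heights, and its `p` is
`lim_{t→∞} u(g g' (0,t)) = p + (s/‖p'-b‖²) A(p'-b)` (`g' (0,t) → (p',0)`).
-/

namespace QIG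

variable {m : ℕ}

theorem nfaux_pos {x : HPt m} (b : E m) : 0 < ‖x.u - b‖ ^ 2 + x.t ^ 2 := by
  have := x.pos
  positivity

theorem IsInv.inv {g : Equiv.Perm (HPt m)} {p b : E m} {s : ℝ} {A : E m ≃ₗᵢ[ℝ] E m}
    (h : IsInv g p b s A) : IsInv g⁻¹ b p s A.symm := by
  have key : ∀ y : HPt m, ‖y.u - p‖ ^ 2 + y.t ^ 2 =
      s ^ 2 / (‖(g⁻¹ y).u - b‖ ^ 2 + (g⁻¹ y).t ^ 2) ∧
      y.t = s * (g⁻¹ y).t / (‖(g⁻¹ y).u - b‖ ^ 2 + (g⁻¹ y).t ^ 2) ∧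
      y.u - p = (s / (‖(g⁻¹ y).u - b‖ ^ 2 + (g⁻¹ y).t ^ 2)) • A ((g⁻¹ y).u - b) := by
    intro y
    set x := g⁻¹ y with hx
    have hy : g x = y := by simp [hx]
    have hN : 0 < ‖x.u - b‖ ^ 2 + x.t ^ 2 := nfaux_pos b
    have h1 : y.t = s * x.t / (‖x.u - b‖ ^ 2 + x.t ^ 2) := by rw [← hy]; exact h.t_eq x
    have h2 : y.u - p = (s / (‖x.u - b‖ ^ 2 + x.t ^ 2)) • A (x.u - b) := by
      rw [← hy, h.u_eq x]; abel
    refine ⟨?_, h1, h2⟩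
    rw [h2, h1, norm_smul, A.norm_map, Real.norm_eq_abs, mul_pow, sq_abs]
    field_simp
  refine ⟨h.pos, fun y => ?_, fun y => ?_⟩
  · obtain ⟨h1, h2, h3⟩ := key y
    have hN : 0 < ‖(g⁻¹ y).u - b‖ ^ 2 + (g⁻¹ y).t ^ 2 := nfaux_pos b
    have hs := h.pos
    rw [h1, h2]
    field_simp
  · obtain ⟨h1, h2, h3⟩ := key y
    have hN : 0 < ‖(g⁻¹ y).u - b‖ ^ 2 + (g⁻¹ y).t ^ 2 := nfaux_pos b
    have hs := h.pos
    rw [h1, h3, map_smul, LinearIsometryEquiv.symm_apply_apply, smul_smul]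
    have : s / (s ^ 2 / (‖(g⁻¹ y).u - b‖ ^ 2 + (g⁻¹ y).t ^ 2)) *
        (s / (‖(g⁻¹ y).u - b‖ ^ 2 + (g⁻¹ y).t ^ 2)) = 1 := by
      field_simp
    rw [this, one_smul]
    abel

theorem IsInv.transl_mul {g : Equiv.Perm (HPt m)} {p b : E m} {s : ℝ} {A : E m ≃ₗᵢ[ℝ] E m}
    (h : IsInv g p b s A) (v : E m) : IsInv (transl v * g) (p + v) b s A := by
  refine ⟨h.pos, fun x => ?_, fun x => ?_⟩
  · rw [Equiv.Perm.mul_apply, transl_t, h.t_eq]
  · rw [Equiv.Perm.mul_apply, transl_u, h.u_eq]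
    abel

theorem IsInv.mul_transl {g : Equiv.Perm (HPt m)} {p b : E m} {s : ℝ} {A : E m ≃ₗᵢ[ℝ] E m}
    (h : IsInv g p b s A) (v : E m) : IsInv (g * transl v) p (b - v) s A := by
  have e : ∀ x : HPt m, x.u + v - b = x.u - (b - v) := fun x => by abel
  refine ⟨h.pos, fun x => ?_, fun x => ?_⟩
  · rw [Equiv.Perm.mul_apply, h.t_eq, transl_t, transl_u, e]
  · rw [Equiv.Perm.mul_apply, h.u_eq, transl_t, transl_u, e]

theorem IsInv.unique {g : Equiv.Perm (HPt m)} {p b p' b' : E m} {s s' : ℝ}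
    {A A' : E m ≃ₗᵢ[ℝ] E m} (h : IsInv g p b s A) (h' : IsInv g p' b' s' A') :
    p = p' ∧ b = b' ∧ s = s' ∧ A = A' := by
  have hs := h.pos
  have hs' := h'.pos
  have ht : ∀ t : ℝ, 0 < t → s * (‖b - b'‖ ^ 2 + t ^ 2) = s' * t ^ 2 := by
    intro t ht
    have h1 := h.t_eq ⟨b, t, ht⟩
    have h2 := h'.t_eq ⟨b, t, ht⟩
    rw [h1] at h2
    simp only [sub_self, norm_zero, ne_eq, OfNat.ofNat_ne_zero, not_false_eq_true, zero_pow,
      zero_add] at h2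
    have hN : 0 < ‖b - b'‖ ^ 2 + t ^ 2 := by positivity
    field_simp at h2
    linarith
  have h1 := ht 1 one_pos
  have h2 := ht 2 two_pos
  have hD : ‖b - b'‖ ^ 2 = 0 := by
    have : s * (3 * ‖b - b'‖ ^ 2) = 0 := by nlinarith
    rcases mul_eq_zero.mp this with h | h
    · exact absurd h hs.ne'
    · linarith
  have hbb : b = b' := by
    have : ‖b - b'‖ = 0 := by
      rwa [sq_eq_zero_iff] at hD
    exact sub_eq_zero.mp (norm_eq_zero.mp this)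
  have hss : s = s' := by
    rw [hD] at h1
    linarith
  subst hbb hss
  have hpp : p = p' := by
    have h3 := h.u_eq ⟨b, 1, one_pos⟩
    have h4 := h'.u_eq ⟨b, 1, one_pos⟩
    rw [h3] at h4
    simpa using h4
  subst hpp
  refine ⟨rfl, rfl, rfl, ?_⟩
  ext1 v
  have h3 := h.u_eq ⟨b + v, 1, one_pos⟩
  have h4 := h'.u_eq ⟨b + v, 1, one_pos⟩
  rw [h3] at h4
  have h5 := add_left_cancel h4
  have e : b + v - b = v := by abel
  simp only [e] at h5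
  have hc : s / (‖v‖ ^ 2 + 1 ^ 2) ≠ 0 := by positivity
  exact smul_right_injective _ hc h5

theorem IsInv.nf_eq {g : Equiv.Perm (HPt m)} {p b : E m} {s : ℝ} {A : E m ≃ₗᵢ[ℝ] E m}
    (h : IsInv g p b s A) : bp g = p ∧ bb g = b ∧ bs g = s ∧ bA g = A :=
  IsInv.unique (isInv_nf h) h

/-- The reflection in the hyperplane orthogonal to `w`. -/
theorem nfaux_reflection (w v : E m) :
    (Submodule.reflection (Submodule.span ℝ {w})ᗮ) v = v - (2 * inner ℝ w v / ‖w‖ ^ 2) • w := by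
  rw [Submodule.reflection_orthogonal_apply, Submodule.reflection_singleton_apply]
  simp only [RCLike.ofReal_real_eq_id, id_eq, neg_sub]
  rw [two_smul, ← add_smul]
  congr 2
  ring

theorem IsInv.mul {g g' : Equiv.Perm (HPt m)} (hg : Isom g) (hg' : Isom g') {p b p' b' : E m}
    {s s' : ℝ} {A A' : E m ≃ₗᵢ[ℝ] E m} (h : IsInv g p b s A) (h' : IsInv g' p' b' s' A')
    (hne : p' ≠ b) : ∃ A'' : E m ≃ₗᵢ[ℝ] E m,
      IsInv (g * g') (p + (s / ‖p' - b‖ ^ 2) • A (p' - b))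
        (b' + (s' / ‖p' - b‖ ^ 2) • A'.symm (b - p')) (s * s' / ‖p' - b‖ ^ 2) A'' := by
  have hs := h.pos
  have hs' := h'.pos
  set w := p' - b with hw
  have hw0 : w ≠ 0 := sub_ne_zero.mpr hne
  have hwn : 0 < ‖w‖ := norm_pos_iff.mpr hw0
  have hbw : b - p' = -w := by rw [hw]; abel
  clear_value w
  set R : E m ≃ₗᵢ[ℝ] E m := Submodule.reflection (Submodule.span ℝ {w})ᗮ with hR
  have key : ∀ x : HPt m,
      (‖(g' x).u - b‖ ^ 2 + (g' x).t ^ 2) * (‖x.u - b'‖ ^ 2 + x.t ^ 2) =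
        ‖w‖ ^ 2 * (‖x.u - b'‖ ^ 2 + x.t ^ 2) + 2 * s' * inner ℝ w (A' (x.u - b')) + s' ^ 2 := by
    intro x
    have hN : 0 < ‖x.u - b'‖ ^ 2 + x.t ^ 2 := nfaux_pos b'
    have h1 : (g' x).u - b = w + (s' / (‖x.u - b'‖ ^ 2 + x.t ^ 2)) • A' (x.u - b') := by
      rw [h'.u_eq x, hw]; abel
    rw [h1, h'.t_eq x, @norm_add_sq_real, norm_smul, A'.norm_map, inner_smul_right,
      Real.norm_eq_abs, mul_pow, sq_abs]
    field_simp
    ring
  have key2 : ∀ x : HPt m,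
      ‖w‖ ^ 2 * (‖x.u - (b' + (s' / ‖w‖ ^ 2) • A'.symm (b - p'))‖ ^ 2 + x.t ^ 2) =
        ‖w‖ ^ 2 * (‖x.u - b'‖ ^ 2 + x.t ^ 2) + 2 * s' * inner ℝ w (A' (x.u - b')) + s' ^ 2 := by
    intro x
    have h1 : x.u - (b' + (s' / ‖w‖ ^ 2) • A'.symm (b - p')) =
        (x.u - b') + (s' / ‖w‖ ^ 2) • A'.symm w := by
      rw [hbw, map_neg, smul_neg]; abel
    have h2 : inner ℝ (x.u - b') (A'.symm w) = inner ℝ w (A' (x.u - b')) := by
      rw [← A'.inner_map_map, A'.apply_symm_apply, real_inner_comm]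
    rw [h1, @norm_add_sq_real, norm_smul, LinearIsometryEquiv.norm_map, inner_smul_right,
      Real.norm_eq_abs, mul_pow, sq_abs, h2]
    field_simp
    ring
  refine ⟨A'.trans (R.trans A), by positivity, fun x => ?_, fun x => ?_⟩
  · rw [Equiv.Perm.mul_apply, h.t_eq, h'.t_eq]
    have hN : 0 < ‖x.u - b'‖ ^ 2 + x.t ^ 2 := nfaux_pos b'
    have hN2 : 0 < ‖(g' x).u - b‖ ^ 2 + (g' x).t ^ 2 := nfaux_pos b
    have hN3 : 0 < ‖x.u - (b' + (s' / ‖w‖ ^ 2) • A'.symm (b - p'))‖ ^ 2 + x.t ^ 2 :=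
      nfaux_pos _
    have hk := (key x).trans (key2 x).symm
    rw [h'.t_eq] at hN2 hk
    rw [div_eq_div_iff hN2.ne' hN3.ne']
    have e1 : s * (s' * x.t / (‖x.u - b'‖ ^ 2 + x.t ^ 2)) *
        (‖x.u - (b' + (s' / ‖w‖ ^ 2) • A'.symm (b - p'))‖ ^ 2 + x.t ^ 2) =
        s * s' * x.t / ‖w‖ ^ 2 / (‖x.u - b'‖ ^ 2 + x.t ^ 2) * (‖w‖ ^ 2 *
        (‖x.u - (b' + (s' / ‖w‖ ^ 2) • A'.symm (b - p'))‖ ^ 2 + x.t ^ 2)) := by
      field_simp
    rw [e1, ← hk]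
    field_simp
  · have hN : 0 < ‖x.u - b'‖ ^ 2 + x.t ^ 2 := nfaux_pos b'
    have hN2 : 0 < ‖(g' x).u - b‖ ^ 2 + (g' x).t ^ 2 := nfaux_pos b
    have hN3 : 0 < ‖x.u - (b' + (s' / ‖w‖ ^ 2) • A'.symm (b - p'))‖ ^ 2 + x.t ^ 2 :=
      nfaux_pos _
    have hk1 := key x
    have hk2 := key2 x
    set z := x.u - b' with hz
    set N := ‖z‖ ^ 2 + x.t ^ 2 with hNdef
    set M := ‖(g' x).u - b‖ ^ 2 + (g' x).t ^ 2 with hMdef
    set K := ‖x.u - (b' + (s' / ‖w‖ ^ 2) • A'.symm (b - p'))‖ ^ 2 + x.t ^ 2 with hKdef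
    have h1 : (g' x).u - b = w + (s' / N) • A' z := by
      rw [h'.u_eq x, hw, hNdef, hz]; abel
    have h3 : x.u - (b' + (s' / ‖w‖ ^ 2) • A'.symm (b - p')) =
        z + (s' / ‖w‖ ^ 2) • A'.symm w := by
      rw [hbw, map_neg, smul_neg, hz]; abel
    rw [Equiv.Perm.mul_apply, h.u_eq, ← hMdef, h1, h3, add_assoc]
    congr 1
    have h4 : (A'.trans (R.trans A)) (z + (s' / ‖w‖ ^ 2) • A'.symm w) =
        A (A' z - (2 * inner ℝ w (A' z) / ‖w‖ ^ 2) • w - (s' / ‖w‖ ^ 2) • w) := by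
      simp only [LinearIsometryEquiv.trans_apply]
      congr 1
      rw [map_add, map_smul, A'.apply_symm_apply, map_add, map_smul, hR, nfaux_reflection,
        nfaux_reflection, real_inner_self_eq_norm_sq]
      have : 2 * ‖w‖ ^ 2 / ‖w‖ ^ 2 = 2 := by field_simp
      rw [this, two_smul]
      have e : w - (w + w) = -w := by abel
      rw [e, smul_neg]
      abel
    rw [h4, ← A.map_smul (s / M), ← A.map_smul (s / ‖w‖ ^ 2),
      ← A.map_smul (s * s' / ‖w‖ ^ 2 / K), ← map_add]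
    congr 1
    rw [smul_sub, smul_sub, smul_add, smul_smul, smul_smul, smul_smul]
    have hMN : M * N = ‖w‖ ^ 2 * K := hk1.trans hk2.symm
    have hI : 2 * s' * inner ℝ w (A' z) = M * N - ‖w‖ ^ 2 * N - s' ^ 2 := by linarith
    have c1 : s / M * (s' / N) = s * s' / ‖w‖ ^ 2 / K := by
      field_simp
      linarith
    have c2 : s / M = s / ‖w‖ ^ 2 - s * s' / ‖w‖ ^ 2 / K * (2 * inner ℝ w (A' z) / ‖w‖ ^ 2) -
        s * s' / ‖w‖ ^ 2 / K * (s' / ‖w‖ ^ 2) := by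
      have hw2 : 0 < ‖w‖ ^ 2 := by positivity
      have e1 : s * s' / ‖w‖ ^ 2 / K * (2 * inner ℝ w (A' z) / ‖w‖ ^ 2) =
          s / (‖w‖ ^ 2 * K) * (2 * s' * inner ℝ w (A' z)) / ‖w‖ ^ 2 := by
        field_simp
      rw [e1, hI, ← hMN]
      have e2 : s * s' / ‖w‖ ^ 2 / K = s * s' / (M * N) := by
        rw [hMN]; field_simp
      rw [e2]
      field_simp
      ring
    rw [c1]
    nth_rewrite 1 [c2]
    rw [sub_smul, sub_smul]
    abel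

theorem IsInv.norm_u_sub_sq {g : Equiv.Perm (HPt m)} {p b : E m} {s : ℝ}
    {A : E m ≃ₗᵢ[ℝ] E m} (h : IsInv g p b s A) (x : HPt m) :
    ‖(g x).u - p‖ ^ 2 ≤ s * (g x).t / x.t := by
  have hs := h.pos
  have hx := x.pos
  have hN : 0 < ‖x.u - b‖ ^ 2 + x.t ^ 2 := nfaux_pos b
  rw [h.u_eq, h.t_eq, add_sub_cancel_left, norm_smul, A.norm_map, Real.norm_eq_abs, mul_pow,
    sq_abs, div_pow]
  have e : s * (s * x.t / (‖x.u - b‖ ^ 2 + x.t ^ 2)) / x.t =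
      s ^ 2 / (‖x.u - b‖ ^ 2 + x.t ^ 2) ^ 2 * (‖x.u - b‖ ^ 2 + x.t ^ 2) := by
    field_simp
  rw [e]
  apply mul_le_mul_of_nonneg_left _ (by positivity)
  nlinarith [sq_nonneg x.t]

theorem IsInv.norm_u_sub {g : Equiv.Perm (HPt m)} {p b : E m} {s : ℝ}
    {A : E m ≃ₗᵢ[ℝ] E m} (h : IsInv g p b s A) (x : HPt m) :
    ‖(g x).u - p‖ ≤ s / (2 * x.t) := by
  have hs := h.pos
  have hx := x.pos
  have hN : 0 < ‖x.u - b‖ ^ 2 + x.t ^ 2 := nfaux_pos b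
  rw [h.u_eq, add_sub_cancel_left, norm_smul, A.norm_map, Real.norm_eq_abs,
    abs_of_pos (by positivity), div_mul_eq_mul_div, div_le_div_iff₀ hN (by positivity)]
  have := two_mul_le_add_sq ‖x.u - b‖ x.t
  nlinarith

end QIG
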