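import Pool.Agent.W_a51130_h62.GeoBasic

/-!
Rough geodesics: up, across, down.

PROOF.  Let `x = (u,t)`, `y = (u',t')`, `b = max ‖u-u'‖ (max t t')`.  `hd x y ≥ log (b²/(t t'))` because
`q x y` is at least each of `‖u-u'‖²/(tt')`, `t²/(tt')`, `t'²/(tt')`.  Path: `z_j = (u, e^j t)` for
`j ≤ n₁ = ⌊log (b/t)⌋`, then down `(u', e^k t')`, `k = n₂ = ⌊log (b/t')⌋, …, 0`.  Steps are `≤ C` (`hd_vert`,
and the horizontal jump from height in `(b/e, b]` to height in `(b/e, b]` has `q ≤ 3 e²`).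
The number of steps is `n = n₁ + n₂ + 1 ≤ hd x y + 1`.  For `z = (u,h)`, `t ≤ h ≤ b`:
`hd x z ≤ log (h/t) + log 2`, `q z y = (‖u-u'‖²+h²+t'²)/(h t') ≤ 3b²/(h t')`, so `hd x z + hd z y ≤
log (b²/(tt')) + log 6 ≤ hd x y + log 6`.  Symmetrically on the other side.
-/

namespace QIG

variable {m : ℕ}

theorem gp_hd_le (x z : HPt m) {b : ℝ} (hb : 0 < b) (h1 : ‖x.u - z.u‖ ≤ b) (h2 : x.t ≤ b)
    (h3 : z.t ≤ b) : hd x z ≤ Real.log 3 + 2 * Real.log b - Real.log x.t - Real.log z.t := by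
  have hx := x.pos
  have hz := z.pos
  have h4 : q x z ≤ 3 * b ^ 2 / (x.t * z.t) := by
    unfold q
    apply div_le_div_of_nonneg_right _ (mul_pos hx hz).le
    have e1 : ‖x.u - z.u‖ ^ 2 ≤ b ^ 2 := pow_le_pow_left₀ (norm_nonneg _) h1 2
    have e2 : x.t ^ 2 ≤ b ^ 2 := pow_le_pow_left₀ hx.le h2 2
    have e3 : z.t ^ 2 ≤ b ^ 2 := pow_le_pow_left₀ hz.le h3 2
    linarith
  have h5 : 0 < q x z := by linarith [two_le_q x z]
  unfold hd
  refine (Real.log_le_log h5 h4).trans (le_of_eq ?_)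
  rw [Real.log_div (by positivity) (by positivity), Real.log_mul (by norm_num) (by positivity),
    Real.log_mul hx.ne' hz.ne', Real.log_pow]
  push_cast
  ring

theorem gp_le_hd (x y : HPt m) {b : ℝ} (hb : 0 < b)
    (h : b ^ 2 ≤ ‖x.u - y.u‖ ^ 2 + x.t ^ 2 + y.t ^ 2) :
    2 * Real.log b - Real.log x.t - Real.log y.t ≤ hd x y := by
  have hx := x.pos
  have hy := y.pos
  have h4 : b ^ 2 / (x.t * y.t) ≤ q x y := by
    unfold q
    exact div_le_div_of_nonneg_right h (mul_pos hx hy).le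
  unfold hd
  refine le_trans (le_of_eq ?_) (Real.log_le_log (by positivity) h4)
  rw [Real.log_div (by positivity) (by positivity), Real.log_mul hx.ne' hy.ne', Real.log_pow]
  push_cast
  ring

/-- The rough geodesic. -/
noncomputable def gpPath (x y : HPt m) (n1 n : ℕ) (i : ℕ) : HPt m :=
  if i ≤ n1 then ⟨x.u, Real.exp i * x.t, mul_pos (Real.exp_pos _) x.pos⟩
  else ⟨y.u, Real.exp ((n : ℝ) - i) * y.t, mul_pos (Real.exp_pos _) y.pos⟩

theorem exists_rough_geod : ∃ C : ℝ, 0 < C ∧ ∀ {m : ℕ} (x y : HPt m), ∃ (n : ℕ) (z : ℕ → HPt m),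
    z 0 = x ∧ z n = y ∧ (∀ i < n, hd (z i) (z (i + 1)) ≤ C) ∧ (n : ℝ) ≤ hd x y + C ∧
    ∀ i ≤ n, hd x (z i) + hd (z i) y ≤ hd x y + C ∧ (i : ℝ) ≤ hd x (z i) + C ∧
      hd x (z i) ≤ C * (i + 1) := by
  refine ⟨10, by norm_num, ?_⟩
  intro m x y
  have hx := x.pos
  have hy := y.pos
  have hl2 : Real.log 2 ≤ 1 := by
    have := Real.log_two_lt_d9
    linarith
  have hl3 : Real.log 3 ≤ 2 := by
    have h3 : Real.log 3 ≤ Real.log (2 ^ 2) := Real.log_le_log (by norm_num) (by norm_num)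
    rw [Real.log_pow] at h3
    push_cast at h3
    linarith
  obtain ⟨b, hb, hb1, hb2, hb3, hb4⟩ : ∃ b : ℝ, 0 < b ∧ ‖x.u - y.u‖ ≤ b ∧ x.t ≤ b ∧ y.t ≤ b ∧
      b ^ 2 ≤ ‖x.u - y.u‖ ^ 2 + x.t ^ 2 + y.t ^ 2 := by
    have hn := norm_nonneg (x.u - y.u)
    rcases le_total x.t y.t with h1 | h1
    · rcases le_total ‖x.u - y.u‖ y.t with h2 | h2
      · exact ⟨y.t, hy, h2, h1, le_rfl, by nlinarith⟩
      · exact ⟨‖x.u - y.u‖, by linarith, le_rfl, by linarith, h2, by nlinarith⟩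
    · rcases le_total ‖x.u - y.u‖ x.t with h2 | h2
      · exact ⟨x.t, hx, h2, le_rfl, h1, by nlinarith⟩
      · exact ⟨‖x.u - y.u‖, by linarith, le_rfl, h2, by linarith, by nlinarith⟩
  have hLx : Real.log x.t ≤ Real.log b := Real.log_le_log hx hb2
  have hLy : Real.log y.t ≤ Real.log b := Real.log_le_log hy hb3
  have hlow := gp_le_hd x y hb hb4
  obtain ⟨n1, hn1, hn1'⟩ : ∃ n1 : ℕ, (n1 : ℝ) ≤ Real.log b - Real.log x.t ∧
      Real.log b - Real.log x.t < n1 + 1 :=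
    ⟨⌊Real.log b - Real.log x.t⌋₊, Nat.floor_le (by linarith), Nat.lt_floor_add_one _⟩
  obtain ⟨n2, hn2, hn2'⟩ : ∃ n2 : ℕ, (n2 : ℝ) ≤ Real.log b - Real.log y.t ∧
      Real.log b - Real.log y.t < n2 + 1 :=
    ⟨⌊Real.log b - Real.log y.t⌋₊, Nat.floor_le (by linarith), Nat.lt_floor_add_one _⟩
  -- heights
  have hup : ∀ i : ℕ, i ≤ n1 → Real.exp i * x.t ≤ b := by
    intro i hi
    have h1 : (i : ℝ) ≤ n1 := by exact_mod_cast hi
    have h2 : Real.exp i ≤ Real.exp (Real.log b - Real.log x.t) :=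
      Real.exp_le_exp.2 (by linarith)
    rw [Real.exp_sub, Real.exp_log hb, Real.exp_log hx] at h2
    rwa [le_div_iff₀ hx] at h2
  have hdown : ∀ r : ℝ, r ≤ n2 → Real.exp r * y.t ≤ b := by
    intro r hr
    have h2 : Real.exp r ≤ Real.exp (Real.log b - Real.log y.t) :=
      Real.exp_le_exp.2 (by linarith)
    rw [Real.exp_sub, Real.exp_log hb, Real.exp_log hy] at h2
    rwa [le_div_iff₀ hy] at h2
  have hlogx : ∀ i : ℝ, Real.log (Real.exp i * x.t) = i + Real.log x.t := by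
    intro i
    rw [Real.log_mul (Real.exp_pos _).ne' hx.ne', Real.log_exp]
  have hlogy : ∀ i : ℝ, Real.log (Real.exp i * y.t) = i + Real.log y.t := by
    intro i
    rw [Real.log_mul (Real.exp_pos _).ne' hy.ne', Real.log_exp]
  obtain ⟨n, hn⟩ : ∃ n : ℕ, n = n1 + n2 + 1 := ⟨_, rfl⟩
  have hnr : (n : ℝ) = n1 + n2 + 1 := by rw [hn]; push_cast; ring
  have zl : ∀ i, i ≤ n1 → gpPath x y n1 n i =
      ⟨x.u, Real.exp i * x.t, mul_pos (Real.exp_pos _) x.pos⟩ := by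
    intro i hi
    unfold gpPath
    rw [if_pos hi]
  have zr : ∀ i, n1 < i → gpPath x y n1 n i =
      ⟨y.u, Real.exp ((n : ℝ) - i) * y.t, mul_pos (Real.exp_pos _) y.pos⟩ := by
    intro i hi
    unfold gpPath
    rw [if_neg (by omega)]
  have hnle : (n : ℝ) ≤ hd x y + 1 := by
    rw [hnr]
    linarith
  refine ⟨n, gpPath x y n1 n, ?_, ?_, ?_, by linarith, ?_⟩
  · rw [zl 0 (Nat.zero_le _)]
    ext
    · rfl
    · simp
  · rw [zr n (by omega)]
    ext
    · rfl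
    · simp
  · intro i hi
    rcases Nat.lt_or_ge i n1 with h1 | h1
    · rw [zl i h1.le, zl (i + 1) h1]
      refine (hd_vert x.u _ _).trans ?_
      rw [hlogx, hlogx]
      push_cast
      have : (i : ℝ) + 1 + Real.log x.t - (i + Real.log x.t) = 1 := by ring
      rw [this, abs_one]
      linarith
    · rcases Nat.eq_or_lt_of_le h1 with h2 | h2
      · subst h2
        rw [zl n1 le_rfl, zr (n1 + 1) (Nat.lt_succ_self _)]
        have e1 : (n : ℝ) - ((n1 + 1 : ℕ) : ℝ) = n2 := by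
          rw [hnr]; push_cast; ring
        have e2 : Real.exp ((n : ℝ) - ((n1 + 1 : ℕ) : ℝ)) * y.t ≤ b := hdown _ (by rw [e1])
        have e3 := gp_hd_le (⟨x.u, Real.exp (n1 : ℝ) * x.t, mul_pos (Real.exp_pos _) x.pos⟩ : HPt m)
          ⟨y.u, Real.exp ((n : ℝ) - ((n1 + 1 : ℕ) : ℝ)) * y.t, mul_pos (Real.exp_pos _) y.pos⟩
          hb hb1 (hup n1 le_rfl) e2
        refine e3.trans ?_
        simp only [hlogx, hlogy]
        rw [e1]
        linarith
      · rw [zr i h2, zr (i + 1) (by omega)]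
        refine (hd_vert y.u _ _).trans ?_
        rw [hlogy, hlogy]
        push_cast
        have : (n : ℝ) - (i + 1) + Real.log y.t - (n - i + Real.log y.t) = -1 := by ring
        rw [this, abs_neg, abs_one]
        linarith
  · intro i hi
    have hir : (i : ℝ) ≤ n := by exact_mod_cast hi
    rcases Nat.lt_or_ge n1 i with h1 | h1
    · rw [zr i h1]
      have h1' : (n1 : ℝ) + 1 ≤ i := by exact_mod_cast h1
      have hr : (n : ℝ) - i ≤ n2 := by rw [hnr]; linarith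
      have a1 := gp_hd_le x (⟨y.u, Real.exp ((n : ℝ) - i) * y.t, mul_pos (Real.exp_pos _) y.pos⟩ :
        HPt m) hb hb1 hb2 (hdown _ hr)
      simp only [hlogy] at a1
      have a2 := hd_vert y.u (mul_pos (Real.exp_pos ((n : ℝ) - i)) hy) hy
      rw [hlogy] at a2
      have a3 : Real.log y.t - ((n : ℝ) - i + Real.log y.t) = -((n : ℝ) - i) := by ring
      rw [a3, abs_neg, abs_of_nonneg (by linarith)] at a2
      have a4 := hd_triangle x (⟨y.u, Real.exp ((n : ℝ) - i) * y.t,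
        mul_pos (Real.exp_pos _) y.pos⟩ : HPt m) y
      have a5 : (⟨y.u, y.t, hy⟩ : HPt m) = y := rfl
      rw [a5] at a2
      refine ⟨by linarith, by linarith, ?_⟩
      have a6 : hd x ⟨y.u, Real.exp ((n : ℝ) - i) * y.t, mul_pos (Real.exp_pos _) y.pos⟩ ≤
          i + 4 := by linarith
      have a7 : (0 : ℝ) ≤ i := Nat.cast_nonneg i
      linarith
    · rw [zl i h1]
      have h1' : (i : ℝ) ≤ n1 := by exact_mod_cast h1
      have a1 := gp_hd_le (⟨x.u, Real.exp i * x.t, mul_pos (Real.exp_pos _) x.pos⟩ : HPt m) y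
        hb hb1 (hup i h1) hb3
      simp only [hlogx] at a1
      have a2 := hd_vert x.u hx (mul_pos (Real.exp_pos (i : ℝ)) hx)
      rw [hlogx] at a2
      have a7 : (0 : ℝ) ≤ i := Nat.cast_nonneg i
      have a3 : (i : ℝ) + Real.log x.t - Real.log x.t = i := by ring
      rw [a3, abs_of_nonneg a7] at a2
      have a8 := log_sub_log_le_hd x (⟨x.u, Real.exp i * x.t, mul_pos (Real.exp_pos _) x.pos⟩ :
        HPt m)
      simp only [hlogx] at a8
      rw [a3, abs_of_nonneg a7] at a8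
      have a5 : (⟨x.u, x.t, hx⟩ : HPt m) = x := rfl
      rw [a5] at a2
      exact ⟨by linarith, by linarith, by linarith⟩

end QIG
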