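import Pool.Agent.W_a51130_h62.PcDefs
import Pool.Agent.W_a51130_h62.GeoNF

/-!
Basic facts on pieces.

PROOFS.
`isInv`: `isom_classify`.  In the first alternative `(g x).t = c x.t`; take `x.t` large: `x.t > 1/2` and
`(g x).t > 1/2`, so `g` is a translation by `P.cusp`, contradiction.  Then `isInv_nf`.
`bs_le`: at `x = (b,t)`, `t > 1/2`: `(g x).t = s/t`, which must be `≤ 1/2` (otherwise `P.cusp`); let `t → 1/2`.
`height_le`: `s x.t/(‖·‖²+x.t²) ≤ s/x.t ≤ 1/(4 x.t)`.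
`par_of_deep`: `P.cusp` for `g⁻¹ g'` at the point `g'⁻¹ x`.
`orb_t_le_one`: `Par` elements give height `1`, others `≤ 1/4`.
`near_or_deep`: if `(g x).t ≤ 1` for all `g`, `P.cocompact` gives `chd (g x) o ≤ r`, so `hd x (g⁻¹ o) ≤ log(2r+2)`.
Otherwise `y = g x` has `y.t > 1`; if `y.t > T` we are in the second alternative (with `g⁻¹`); otherwise
`1 < y.t ≤ T`, `y' = (y.u, 1)` satisfies `(g' y').t ≤ 1` for all `g'` (`height_le`), so it is near an orbit point, and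
`hd y y' ≤ log T + log 2`.
`exists_not_par`: otherwise all `(g x).t = x.t`; the points `(0,t)`, `t → 0`, satisfy the hypothesis of
`P.cocompact` but `chd (g x) o ≥ (1-t)²/(2t) → ∞`.
`coset`: `g' = g * transl v`, `IsInv.mul_transl`, `IsInv.nf_eq`.
`bp_ne`: if `bp g = bp g' = p` then at `x = (p,t)`, `t → 0`, `(g⁻¹x).t = s/t → ∞` and the same for `g'` (normal form of
the inverse: `IsInv.inv`), so `par_of_deep` gives `Par (g⁻¹ g')`.  The formulas: `IsInv.mul` for `g⁻¹` (normal form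
`(bb g, bp g, bs g, (bA g).symm)`) and `g'`.
`finite_hd`: `P.discrete`, triangle inequality, `hd (g x) y ≥ hd (g o) o - hd x o - hd y o`.
`sz_eq`: from `coset`/`bp_ne`, the size depends only on the base point.
-/

namespace QIG

variable {m : ℕ} (P : Piece m)

theorem Piece.isom' (g : P.Γ) : Isom g.1 := P.isom g.1 g.2

theorem Piece.par_one : P.Par 1 := ⟨0, by rw [transl_zero]; rfl⟩

theorem Piece.par_mul {g h : P.Γ} (hg : P.Par g) (hh : P.Par h) : P.Par (g * h) := by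
  obtain ⟨v, hv⟩ := hg
  obtain ⟨w, hw⟩ := hh
  exact ⟨v + w, by rw [transl_add, ← hv, ← hw]; rfl⟩

theorem Piece.par_inv {g : P.Γ} (hg : P.Par g) : P.Par g⁻¹ := by
  obtain ⟨v, hv⟩ := hg
  exact ⟨-v, by rw [transl_neg, ← hv]; rfl⟩

theorem Piece.par_tr (v : P.lat) : P.Par (P.tr v) := ⟨v.1, rfl⟩

theorem Piece.par_iff (g : P.Γ) : P.Par g ↔ ∃ v : P.lat, g = P.tr v := by
  constructor
  · rintro ⟨v, hv⟩
    have hm : v ∈ P.lat := by
      change transl v ∈ P.Γ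
      rw [← hv]
      exact g.2
    exact ⟨⟨v, hm⟩, Subtype.ext hv⟩
  · rintro ⟨v, rfl⟩
    exact P.par_tr v

theorem Piece.tr_add (v w : P.lat) : P.tr (v + w) = P.tr v * P.tr w := by
  unfold Piece.tr
  rw [ofAdd_add, map_mul]

theorem Piece.tr_neg (v : P.lat) : P.tr (-v) = (P.tr v)⁻¹ := by
  unfold Piece.tr
  rw [ofAdd_neg, map_inv]

theorem Piece.isInv {g : P.Γ} (hg : ¬ P.Par g) :
    IsInv g.1 (bp g.1) (bb g.1) (bs g.1) (bA g.1) := by
  rcases isom_classify (P.isom' g) with ⟨c, A, b, hc, h⟩ | ⟨p, b, s, A, h⟩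
  · exfalso
    apply hg
    have h0 : 0 < 1 / c := by positivity
    refine P.cusp g.1 g.2 ⟨0, 1 + 1 / c, by positivity⟩ ?_ ?_
    · change 1 / 2 < 1 + 1 / c
      linarith
    · rw [(h _).1]
      change 1 / 2 < c * (1 + 1 / c)
      have h1 : c * (1 + 1 / c) = c + 1 := by field_simp
      rw [h1]
      linarith
  · exact isInv_nf h

theorem Piece.bs_le {g : P.Γ} (hg : ¬ P.Par g) : bs g.1 ≤ 1 / 4 := by
  have h := P.isInv hg
  by_contra hlt
  push Not at hlt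
  apply hg
  obtain ⟨t, ht1, ht2⟩ : ∃ t, 1 / 2 < t ∧ t < 2 * bs g.1 := exists_between (by linarith)
  have ht : 0 < t := by linarith
  refine P.cusp g.1 g.2 ⟨bb g.1, t, ht⟩ ht1 ?_
  rw [h.t_eq]
  change 1 / 2 < bs g.1 * t / (‖bb g.1 - bb g.1‖ ^ 2 + t ^ 2)
  rw [sub_self, norm_zero, lt_div_iff₀ (by positivity)]
  nlinarith

theorem Piece.height_le {g : P.Γ} (hg : ¬ P.Par g) (x : HPt m) : (g.1 x).t ≤ 1 / (4 * x.t) := by
  have h := P.isInv hg
  have hs := P.bs_le hg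
  have hx := x.pos
  have hN : 0 < ‖x.u - bb g.1‖ ^ 2 + x.t ^ 2 := nfaux_pos _
  rw [h.t_eq, div_le_div_iff₀ hN (by positivity)]
  have h1 : 0 ≤ ‖x.u - bb g.1‖ ^ 2 := by positivity
  have h2 : bs g.1 * (x.t * x.t) ≤ 1 / 4 * (x.t * x.t) :=
    mul_le_mul_of_nonneg_right hs (by positivity)
  nlinarith

theorem Piece.par_of_deep {g g' : P.Γ} {x : HPt m} (h : 1 / 2 < (g.1⁻¹ x).t)
    (h' : 1 / 2 < (g'.1⁻¹ x).t) : P.Par (g⁻¹ * g') := by
  refine P.cusp (g⁻¹ * g').1 (g⁻¹ * g').2 (g'.1⁻¹ x) h' ?_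
  have h1 : (g⁻¹ * g').1 (g'.1⁻¹ x) = g.1⁻¹ x := by
    change g.1⁻¹ (g'.1 (g'.1⁻¹ x)) = _
    exact congrArg _ (g'.1.apply_symm_apply x)
  rw [h1]
  exact h

theorem Piece.orb_t_le_one (g : P.Γ) : (P.orb g).t ≤ 1 := by
  by_cases hg : P.Par g
  · obtain ⟨v, hv⟩ := hg
    unfold Piece.orb
    rw [hv, transl_t]
    exact le_refl _
  · have h := P.height_le hg (base m)
    unfold Piece.orb
    have h1 : (base m).t = 1 := rfl
    rw [h1] at h
    linarith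

theorem Piece.pcbInv (g : P.Γ) (x y : HPt m) : hd x (g.1⁻¹ y) = hd (g.1 x) y := by
  have h1 : g.1 (g.1⁻¹ y) = y := g.1.apply_symm_apply y
  rw [← hd_isom (P.isom' g) x (g.1⁻¹ y), h1]

theorem Piece.pcbNear : ∃ r : ℝ, 0 ≤ r ∧ ∀ x : HPt m, (∀ g : P.Γ, (g.1 x).t ≤ 1) →
    ∃ g : P.Γ, hd x (P.orb g) ≤ r := by
  obtain ⟨r, hr⟩ := P.cocompact
  refine ⟨Real.log (2 * |r| + 2), Real.log_nonneg (by linarith [abs_nonneg r]), fun x hx => ?_⟩
  obtain ⟨g, hg, h⟩ := hr x (fun g hg => hx ⟨g, hg⟩)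
  refine ⟨⟨g, hg⟩⁻¹, ?_⟩
  have h1 : P.orb (⟨g, hg⟩⁻¹) = g⁻¹ (base m) := rfl
  rw [h1, P.pcbInv ⟨g, hg⟩ x (base m)]
  unfold hd
  apply Real.log_le_log (q_pos _ _)
  rw [q_eq]
  linarith [le_abs_self r]

theorem Piece.near_or_deep (T : ℝ) (hT : 1 ≤ T) : ∃ r : ℝ, 0 ≤ r ∧ ∀ x : HPt m,
    (∃ g : P.Γ, hd x (P.orb g) ≤ r) ∨ ∃ g : P.Γ, T < (g.1⁻¹ x).t := by
  obtain ⟨r, hr0, hr⟩ := P.pcbNear
  have hlT : 0 ≤ Real.log T := Real.log_nonneg hT
  have hl2 : 0 ≤ Real.log 2 := Real.log_nonneg (by norm_num)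
  refine ⟨Real.log T + Real.log 2 + r, by positivity, fun x => ?_⟩
  by_cases hx : ∀ g : P.Γ, (g.1 x).t ≤ 1
  · left
    obtain ⟨g, hg⟩ := hr x hx
    exact ⟨g, by linarith⟩
  · push Not at hx
    obtain ⟨g, hg⟩ := hx
    by_cases hgT : T < (g.1 x).t
    · right
      refine ⟨g⁻¹, ?_⟩
      have h1 : ((g⁻¹ : P.Γ) : Equiv.Perm (HPt m))⁻¹ = g.1 := inv_inv g.1
      rw [h1]
      exact hgT
    · push Not at hgT
      left
      have hy' : ∀ g' : P.Γ, (g'.1 ⟨(g.1 x).u, 1, one_pos⟩).t ≤ 1 := by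
        intro g'
        by_cases hg' : P.Par g'
        · obtain ⟨v, hv⟩ := hg'
          rw [hv, transl_t]
        · have h := P.height_le hg' ⟨(g.1 x).u, 1, one_pos⟩
          refine h.trans ?_
          norm_num
      obtain ⟨h, hh⟩ := hr _ hy'
      refine ⟨g⁻¹ * h, ?_⟩
      have h1 : P.orb (g⁻¹ * h) = g.1⁻¹ (P.orb h) := rfl
      rw [h1, P.pcbInv g x]
      have h2 := hd_triangle (g.1 x) ⟨(g.1 x).u, 1, one_pos⟩ (P.orb h)
      have h3 : hd (g.1 x) ⟨(g.1 x).u, 1, one_pos⟩ ≤ Real.log T + Real.log 2 := by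
        have h4 := hd_vert (g.1 x).u (g.1 x).pos one_pos
        have h5 : Real.log (g.1 x).t ≤ Real.log T := Real.log_le_log (g.1 x).pos hgT
        have h6 : 0 ≤ Real.log (g.1 x).t := Real.log_nonneg hg.le
        rw [Real.log_one, zero_sub, abs_neg, abs_of_nonneg h6] at h4
        have h7 : hd (g.1 x) ⟨(g.1 x).u, 1, one_pos⟩ ≤ Real.log (g.1 x).t + Real.log 2 := h4
        linarith
      linarith

theorem Piece.exists_not_par : ∃ g : P.Γ, ¬ P.Par g := by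
  by_contra hno
  push Not at hno
  obtain ⟨r, hr⟩ := P.cocompact
  set t : ℝ := 1 / (2 * |r| + 4) with ht
  have hr0 : 0 ≤ |r| := abs_nonneg r
  have htp : 0 < t := by positivity
  have ht1 : t ≤ 1 / 4 := by
    rw [ht]
    apply one_div_le_one_div_of_le (by norm_num)
    linarith
  have hall : ∀ g ∈ P.Γ, ∀ x : HPt m, (g x).t = x.t := by
    intro g hg x
    obtain ⟨v, hv⟩ := hno ⟨g, hg⟩
    have hv' : g = transl v := hv
    rw [hv', transl_t]
  obtain ⟨g, hg, h⟩ := hr ⟨0, t, htp⟩ (fun g hg => by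
    rw [hall g hg]
    change t ≤ 1
    linarith)
  have h1 : (g ⟨0, t, htp⟩).t = t := hall g hg _
  unfold chd at h
  rw [h1] at h
  have h2 : (base m).t = 1 := rfl
  rw [h2, div_le_iff₀ (by positivity)] at h
  have h3 : 0 ≤ ‖(g ⟨0, t, htp⟩).u - (base m).u‖ ^ 2 := by positivity
  have h4 : t * (2 * |r| + 4) = 1 := by
    rw [ht]
    field_simp
  have h5 : r * (2 * t * 1) ≤ |r| * (2 * t * 1) :=
    mul_le_mul_of_nonneg_right (le_abs_self r) (by positivity)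
  nlinarith

theorem Piece.coset {g g' : P.Γ} (hg : ¬ P.Par g) (h : P.Par (g⁻¹ * g')) :
    ¬ P.Par g' ∧ bp g'.1 = bp g.1 ∧ bs g'.1 = bs g.1 := by
  refine ⟨fun hg' => hg ?_, ?_⟩
  · have h1 : g = g' * (g⁻¹ * g')⁻¹ := by group
    rw [h1]
    exact P.par_mul hg' (P.par_inv h)
  · obtain ⟨v, hv⟩ := h
    have h1 : g'.1 = g.1 * transl v := by
      rw [← hv]
      change g'.1 = g.1 * (g.1⁻¹ * g'.1)
      group
    have h2 := ((P.isInv hg).mul_transl v).nf_eq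
    rw [h1]
    exact ⟨h2.1, h2.2.2.1⟩

theorem Piece.bp_ne {g g' : P.Γ} (hg : ¬ P.Par g) (hg' : ¬ P.Par g') (h : ¬ P.Par (g⁻¹ * g')) :
    bp g'.1 ≠ bp g.1 ∧ bs (g⁻¹ * g').1 = bs g.1 * bs g'.1 / ‖bp g'.1 - bp g.1‖ ^ 2 ∧
      bp (g⁻¹ * g').1 = bb g.1 + (bs g.1 / ‖bp g'.1 - bp g.1‖ ^ 2) •
        (bA g.1).symm (bp g'.1 - bp g.1) := by
  have h1 := P.isInv hg
  have h2 := P.isInv hg'
  have h1' := h1.inv
  have h2' := h2.inv
  have hne : bp g'.1 ≠ bp g.1 := by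
    intro he
    apply h
    have hp1 := h1.pos
    have hp2 := h2.pos
    have htp : 0 < min (bs g.1) (bs g'.1) := lt_min hp1 hp2
    have key : ∀ (s t : ℝ), 0 < t → t ≤ s → 1 / 2 < s * t / (‖(0 : E m)‖ ^ 2 + t ^ 2) := by
      intro s t ht hst
      rw [norm_zero, lt_div_iff₀ (by positivity)]
      nlinarith
    apply P.par_of_deep (x := ⟨bp g.1, min (bs g.1) (bs g'.1), htp⟩)
    · rw [h1'.t_eq]
      have := key (bs g.1) _ htp (min_le_left _ _)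
      simpa using this
    · rw [h2'.t_eq, he]
      have := key (bs g'.1) _ htp (min_le_right _ _)
      simpa using this
  refine ⟨hne, ?_⟩
  obtain ⟨A'', hA⟩ := IsInv.mul (P.isom' g).inv (P.isom' g') h1' h2 hne
  have h3 := hA.nf_eq
  exact ⟨h3.2.2.1, h3.1⟩

theorem Piece.finite_hd (x y : HPt m) (r : ℝ) : {g : P.Γ | hd (g.1 x) y ≤ r}.Finite := by
  have h1 := P.discrete (Real.exp (hd (base m) y + r + hd x (base m)))
  refine (h1.preimage (f := (Subtype.val : P.Γ → Equiv.Perm (HPt m)))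
    Subtype.val_injective.injOn).subset ?_
  intro g hg
  refine ⟨g.2, ?_⟩
  have hg' : hd (g.1 x) y ≤ r := hg
  have h2 : hd (base m) (g.1 (base m)) ≤ hd (base m) y + r + hd x (base m) := by
    have e1 := hd_triangle (base m) y (g.1 (base m))
    have e2 := hd_triangle y (g.1 x) (g.1 (base m))
    have e3 := hd_isom (P.isom' g) x (base m)
    have e4 := hd_comm y (g.1 x)
    linarith
  have h3 := q_le_of_hd h2
  rw [q_eq] at h3
  have h4 := chd_nonneg (base m) (g.1 (base m))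
  linarith

theorem Piece.bal_finite (r : ℝ) : (P.bal r).Finite := P.finite_hd (base m) (base m) r

theorem Piece.bal_inv {r : ℝ} {g : P.Γ} (h : g ∈ P.bal r) : g⁻¹ ∈ P.bal r := by
  have h1 : hd (g.1 (base m)) (base m) ≤ r := h
  change hd (g.1⁻¹ (base m)) (base m) ≤ r
  rw [hd_comm, P.pcbInv]
  exact h1

theorem Piece.bal_mono {r r' : ℝ} (h : r ≤ r') : P.bal r ⊆ P.bal r' :=
  fun _ hg => le_trans hg h

theorem Piece.mem_bal_iff {r : ℝ} (g h : P.Γ) : g⁻¹ * h ∈ P.bal r ↔ hd (P.orb g) (P.orb h) ≤ r := by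
  change hd (g.1⁻¹ (P.orb h)) (base m) ≤ r ↔ _
  rw [hd_comm, P.pcbInv]
  exact Iff.rfl

theorem Piece.sz_eq {g : P.Γ} (hg : ¬ P.Par g) : P.sz (bp g.1) = bs g.1 := by
  have h : ∃ g' : P.Γ, ¬ P.Par g' ∧ bp g'.1 = bp g.1 := ⟨g, hg, rfl⟩
  have h1 : P.sz (bp g.1) = bs h.choose.1 := by
    unfold Piece.sz
    rw [dif_pos h]
  rw [h1]
  have h2 := h.choose_spec
  generalize h.choose = g0 at h2 ⊢
  have h3 : P.Par (g0⁻¹ * g) := by
    by_contra h4
    exact (P.bp_ne h2.1 hg h4).1 h2.2.symm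
  exact (P.coset h2.1 h3).2.2.symm

theorem Piece.countable_Γ : Countable P.Γ := by
  rw [← Set.countable_univ_iff]
  have h : (Set.univ : Set P.Γ) ⊆ ⋃ n : ℕ, P.bal n := by
    intro g _
    obtain ⟨n, hn⟩ := exists_nat_ge (hd (P.orb g) (base m))
    exact Set.mem_iUnion.2 ⟨n, hn⟩
  exact (Set.countable_iUnion fun n : ℕ => (P.bal_finite n).countable).mono h

end QIG
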