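import Pool.Agent.W_a51130_h62.WordDefs

/-!
Basic facts on word metrics.  All elementary: `S ^ n` is the pointwise power (products of `n` elements),
increasing in `n` because `1 ∈ S` (`Set.pow_subset_pow_right`), `Set.pow_add`/`pow_add`, `Set.mul_mem_mul`.
`exists_path`: a product of `n = wl S (x⁻¹y)` elements of `S`; prefixes have length exactly `i`
(at most `i` by construction, at least by the triangle inequality).
-/

namespace QIG

open scoped Pointwise

variable {G G' : Type} [Group G] [Group G']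

theorem mem_pow_iff {S : Set G} (hS : GSet S) (g : G) (n : ℕ) : g ∈ S ^ n ↔ wl S g ≤ n := by
  constructor
  · intro h
    exact Nat.sInf_le h
  · intro h
    have h1 : g ∈ S ^ wl S g := Nat.sInf_mem (hS.gen g)
    exact Set.pow_subset_pow_right hS.one h h1

theorem wl_one (S : Set G) : wl S (1 : G) = 0 := by
  refine Nat.le_zero.1 (Nat.sInf_le ?_)
  change (1 : G) ∈ S ^ 0
  rw [pow_zero]
  exact Set.mem_one.2 rfl

theorem wl_eq_zero {S : Set G} (hS : GSet S) {g : G} : wl S g = 0 ↔ g = 1 := by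
  constructor
  · intro h
    have h1 := (mem_pow_iff hS g 0).2 h.le
    rw [pow_zero] at h1
    exact Set.mem_one.1 h1
  · rintro rfl
    exact wl_one S

theorem word_mem_pow_inv {S : Set G} (hS : GSet S) {g : G} (n : ℕ) (h : g ∈ S ^ n) :
    g⁻¹ ∈ S ^ n := by
  induction n generalizing g with
  | zero =>
    rw [pow_zero, Set.mem_one] at h
    rw [h, pow_zero, inv_one]
    exact Set.mem_one.2 rfl
  | succ n ih =>
    rw [pow_succ] at h
    obtain ⟨a, ha, b, hb, rfl⟩ := Set.mem_mul.1 h
    rw [pow_succ', mul_inv_rev]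
    exact Set.mul_mem_mul (hS.inv b hb) (ih ha)

theorem wl_inv {S : Set G} (hS : GSet S) (g : G) : wl S g⁻¹ = wl S g := by
  have key : ∀ g : G, wl S g⁻¹ ≤ wl S g := fun g =>
    (mem_pow_iff hS _ _).1 (word_mem_pow_inv hS _ ((mem_pow_iff hS g _).2 le_rfl))
  refine le_antisymm (key g) ?_
  have := key g⁻¹
  rwa [inv_inv] at this

theorem wl_mul_le {S : Set G} (hS : GSet S) (g h : G) : wl S (g * h) ≤ wl S g + wl S h := by
  rw [← mem_pow_iff hS, pow_add]
  exact Set.mul_mem_mul ((mem_pow_iff hS g _).2 le_rfl) ((mem_pow_iff hS h _).2 le_rfl)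

theorem wl_le_one {S : Set G} {g : G} (hg : g ∈ S) : wl S g ≤ 1 := by
  refine Nat.sInf_le ?_
  change g ∈ S ^ 1
  rwa [pow_one]

theorem wd_self (S : Set G) (x : G) : wd S x x = 0 := by
  rw [wd, inv_mul_cancel]
  exact wl_one S

theorem wd_comm {S : Set G} (hS : GSet S) (x y : G) : wd S x y = wd S y x := by
  rw [wd, wd, ← wl_inv hS (x⁻¹ * y), mul_inv_rev, inv_inv]

theorem wd_triangle {S : Set G} (hS : GSet S) (x y z : G) : wd S x z ≤ wd S x y + wd S y z := by
  have h := wl_mul_le hS (x⁻¹ * y) (y⁻¹ * z)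
  rwa [show x⁻¹ * y * (y⁻¹ * z) = x⁻¹ * z by group] at h

theorem wd_mul_left (S : Set G) (g x y : G) : wd S (g * x) (g * y) = wd S x y := by
  rw [wd, wd, show (g * x)⁻¹ * (g * y) = x⁻¹ * y by group]

theorem wd_mul_right_le {S : Set G} (x : G) {s : G} (hs : s ∈ S) : wd S x (x * s) ≤ 1 := by
  rw [wd, show x⁻¹ * (x * s) = s by group]
  exact wl_le_one hs

theorem ball_finite {S : Set G} (hS : GSet S) (n : ℕ) : {g : G | wl S g ≤ n}.Finite := by
  have h : {g : G | wl S g ≤ n} = S ^ n := by
    ext g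
    exact (mem_pow_iff hS g n).symm
  rw [h]
  induction n with
  | zero =>
    rw [pow_zero]
    exact Set.finite_one
  | succ n ih =>
    rw [pow_succ]
    refine Set.Finite.mul (ih ?_) hS.fin
    ext g
    exact (mem_pow_iff hS g n).symm

theorem finite_bdd (S : Set G) {A : Set G} (hA : A.Finite) : ∃ n : ℕ, ∀ a ∈ A, wl S a ≤ n := by
  obtain ⟨n, hn⟩ := (hA.image (wl S)).bddAbove
  exact ⟨n, fun a ha => hn ⟨a, ha, rfl⟩⟩

theorem word_path {S : Set G} (hS : GSet S) (x : G) (n : ℕ) : ∀ y : G, x⁻¹ * y ∈ S ^ n →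
    ∃ p : ℕ → G, p 0 = x ∧ p n = y ∧ ∀ i, (p i)⁻¹ * p (i + 1) ∈ S := by
  induction n with
  | zero =>
    intro y hy
    rw [pow_zero, Set.mem_one, inv_mul_eq_one] at hy
    refine ⟨fun _ => x, rfl, hy, fun i => ?_⟩
    rw [inv_mul_cancel]
    exact hS.one
  | succ n ih =>
    intro y hy
    rw [pow_succ] at hy
    obtain ⟨a, ha, s, hs, has⟩ := Set.mem_mul.1 hy
    have hy' : y = x * a * s := by
      rw [mul_assoc, has]
      group
    obtain ⟨p, hp0, hpn, hp⟩ := ih (x * a) (by rwa [show x⁻¹ * (x * a) = a by group])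
    refine ⟨fun i => if i ≤ n then p i else y, ?_, ?_, fun i => ?_⟩
    · simp [hp0]
    · simp
    · rcases lt_trichotomy i n with h | h | h
      · have h1 : i ≤ n := h.le
        have h2 : i + 1 ≤ n := h
        simp only [h1, h2, if_true]
        exact hp i
      · subst h
        have h2 : ¬ i + 1 ≤ i := by omega
        simp only [le_refl, h2, if_true, if_false]
        rw [hpn, hy', show (x * a)⁻¹ * (x * a * s) = s by group]
        exact hs
      · have h1 : ¬ i ≤ n := by omega
        have h2 : ¬ i + 1 ≤ n := by omega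
        simp only [h1, h2, if_false]
        rw [inv_mul_cancel]
        exact hS.one

theorem word_step {S : Set G} (hS : GSet S) {p : ℕ → G} (hp : ∀ i, (p i)⁻¹ * p (i + 1) ∈ S)
    (i k : ℕ) : wd S (p i) (p (i + k)) ≤ k := by
  induction k with
  | zero =>
    rw [add_zero, wd_self]
  | succ k ih =>
    refine (wd_triangle hS _ (p (i + k)) _).trans ?_
    have h1 : wd S (p (i + k)) (p (i + (k + 1))) ≤ 1 := wl_le_one (hp (i + k))
    omega

theorem exists_path {S : Set G} (hS : GSet S) (x y : G) :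
    ∃ p : ℕ → G, p 0 = x ∧ p (wd S x y) = y ∧ (∀ i, (p i)⁻¹ * p (i + 1) ∈ S) ∧
      ∀ i ≤ wd S x y, wd S x (p i) = i ∧ wd S (p i) y = wd S x y - i := by
  obtain ⟨p, h0, h1, hp⟩ := word_path hS x (wd S x y) y ((mem_pow_iff hS _ _).2 le_rfl)
  refine ⟨p, h0, h1, hp, fun i hi => ?_⟩
  have ha : wd S x (p i) ≤ i := by
    have := word_step hS hp 0 i
    rwa [h0, zero_add] at this
  have hb : wd S (p i) y ≤ wd S x y - i := by
    have := word_step hS hp i (wd S x y - i)
    rwa [show i + (wd S x y - i) = wd S x y by omega, h1] at this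
  have hc := wd_triangle hS x (p i) y
  omega

/-- Changing the generating set. -/
theorem exists_wl_le {S T : Set G} (hS : GSet S) (hT : GSet T) :
    ∃ N : ℕ, ∀ g : G, wl T g ≤ N * wl S g := by
  obtain ⟨N, hN⟩ := finite_bdd T hS.fin
  refine ⟨N, fun g => ?_⟩
  have key : ∀ (n : ℕ) (g : G), g ∈ S ^ n → wl T g ≤ N * n := by
    intro n
    induction n with
    | zero =>
      intro g hg
      rw [pow_zero, Set.mem_one] at hg
      rw [hg, wl_one]
      exact Nat.zero_le _
    | succ n ih =>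
      intro g hg
      rw [pow_succ] at hg
      obtain ⟨a, ha, b, hb, rfl⟩ := Set.mem_mul.1 hg
      have h1 := wl_mul_le hT a b
      have h2 := ih a ha
      have h3 := hN b hb
      rw [mul_add, mul_one]
      omega
  exact key _ g ((mem_pow_iff hS g _).2 le_rfl)

theorem GSet.fg {S : Set G} (hS : GSet S) : Group.FG G := by
  refine Group.fg_iff.2 ⟨S, ?_, hS.fin⟩
  rw [eq_top_iff]
  intro g _
  obtain ⟨n, hn⟩ := hS.gen g
  have key : ∀ (n : ℕ) (g : G), g ∈ S ^ n → g ∈ Subgroup.closure S := by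
    intro n
    induction n with
    | zero =>
      intro g hg
      rw [pow_zero, Set.mem_one] at hg
      rw [hg]
      exact Subgroup.one_mem _
    | succ n ih =>
      intro g hg
      rw [pow_succ] at hg
      obtain ⟨a, ha, b, hb, rfl⟩ := Set.mem_mul.1 hg
      exact Subgroup.mul_mem _ (ih a ha) (Subgroup.subset_closure hb)
  exact key n g hn

end QIG
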