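import Pool.Agent.W_a51130_h62.GlDefs
import Pool.Agent.W_a51130_h62.PcBasic
import Pool.Agent.W_a51130_h62.PcLat
import Pool.Agent.W_a51130_h62.Amal
import Pool.Agent.W_a51130_h62.AmalRec
import Pool.Agent.W_a51130_h62.Word

/-!
Basic facts on gluings: everything follows from the definitions, from `AmalStr` and from Mathlib's
`Monoid.PushoutI.of_injective`, `of_apply_eq_base`.

`exists_Gl`: `Ψ 0 = refl`, `Ψ 1` from `exists_extension`; cases `i = 0, 1` by `rfl`/definition of `glueMap`.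
`mem_range_iff`: `(D.φ i).range` = parabolic elements of `(D.P i).Γ` (for `i = 1` because `ψ` is surjective).
`cross`: write a shortest path from `h` to `h'` (`exists_path`), its steps are `D.of k γ`; by `side_mul_of` the side
stays `some i` until it becomes `none`; at that vertex we are in the wall.
`low_far`: if `dW (of i γ) ≤ R` then `of i γ = ba v * s`, `wl s ≤ R`, and `s = of i γ'`, `γ' = (φ_i v)⁻¹ γ`; there are
finitely many such `γ'`, and `t(γ o) = t(γ' o)`.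
-/

namespace QIG

open Monoid
open scoped Pointwise

variable {m : ℕ}

theorem exists_Gl (P : Fin 2 → Piece m) (ψ : (P 0).lat ≃+ (P 1).lat) :
    ∃ Ψ : Fin 2 → (E m ≃L[ℝ] E m), (∀ (i : Fin 2) (v : (P 0).lat),
      (glueMap P ψ i (Multiplicative.ofAdd v)).1 = transl (Ψ i (v : E m))) ∧
      (∀ x, Ψ 0 x = x) ∧ ∀ v : (P 0).lat, Ψ 1 (v : E m) = (ψ v : E m) := by
  obtain ⟨Ψ₁, hΨ₁⟩ := exists_extension (P 0) (P 1) ψ
  refine ⟨fun i => if i = 0 then ContinuousLinearEquiv.refl ℝ (E m) else Ψ₁, ?_, ?_, ?_⟩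
  · intro i v
    fin_cases i
    · rfl
    · change transl (ψ v : E m) = transl (Ψ₁ (v : E m))
      rw [hΨ₁]
  · intro x
    rfl
  · intro v
    exact hΨ₁ v

variable (D : Gl m)

theorem Gl.φ_injective (i : Fin 2) : Function.Injective (D.φ i) := by
  have h0 : ∀ Q : Piece m, Function.Injective Q.emb := by
    intro Q a b h
    have h1 : transl ((Multiplicative.toAdd a : Q.lat) : E m) = transl (Multiplicative.toAdd b : Q.lat) :=
      congrArg Subtype.val h
    have h2 := transl_injective h1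
    exact Multiplicative.toAdd.injective (Subtype.ext h2)
  fin_cases i
  · exact h0 _
  · intro a b h
    have h1 : (AddEquiv.toMultiplicative D.ψ) a = (AddEquiv.toMultiplicative D.ψ) b := h0 _ h
    exact (AddEquiv.toMultiplicative D.ψ).injective h1

theorem Gl.mem_range_iff (i : Fin 2) (g : (D.P i).Γ) : g ∈ (D.φ i).range ↔ (D.P i).Par g := by
  constructor
  · rintro ⟨v, rfl⟩
    exact ⟨_, D.hΨ i (Multiplicative.toAdd v)⟩
  · rintro ⟨v, hv⟩
    have hmem : v ∈ (D.P i).lat := by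
      change transl v ∈ (D.P i).Γ
      rw [← hv]
      exact g.2
    fin_cases i
    · refine ⟨Multiplicative.ofAdd ⟨v, hmem⟩, Subtype.ext ?_⟩
      exact hv.symm
    · refine ⟨Multiplicative.ofAdd (D.ψ.symm ⟨v, hmem⟩), Subtype.ext ?_⟩
      change transl (D.ψ (D.ψ.symm ⟨v, hmem⟩) : E m) = _
      rw [D.ψ.apply_symm_apply]
      exact hv.symm

theorem Gl.of_injective (i : Fin 2) : Function.Injective (D.of i) := by
  exact PushoutI.of_injective (fun i => D.φ_injective i) i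

theorem Gl.ba_add (v w : (D.P 0).lat) : D.ba (v + w) = D.ba v * D.ba w := by
  unfold Gl.ba
  rw [ofAdd_add, map_mul]

theorem Gl.ba_zero : D.ba 0 = 1 := by
  unfold Gl.ba
  rw [ofAdd_zero, map_one]

theorem Gl.ba_neg (v : (D.P 0).lat) : D.ba (-v) = (D.ba v)⁻¹ := by
  unfold Gl.ba
  rw [ofAdd_neg, map_inv]

theorem Gl.ba_injective : Function.Injective D.ba := by
  intro v w h
  exact Multiplicative.ofAdd.injective
    (PushoutI.base_injective (fun i => D.φ_injective i) h)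

theorem Gl.of_par (i : Fin 2) (v : (D.P 0).lat) :
    D.of i (D.φ i (Multiplicative.ofAdd v)) = D.ba v := by
  exact PushoutI.of_apply_eq_base D.φ i _

/-- A parabolic element of a piece group is a wall element, translating by `Ψ i v`. -/
theorem Gl.exists_ba (i : Fin 2) {g : (D.P i).Γ} (hg : (D.P i).Par g) :
    ∃ v : (D.P 0).lat, D.of i g = D.ba v ∧ g = D.φ i (Multiplicative.ofAdd v) ∧
      g.1 = transl (D.Ψ i (v : E m)) := by
  obtain ⟨l, hl⟩ := (D.mem_range_iff i g).2 hg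
  refine ⟨Multiplicative.toAdd l, ?_, hl.symm, ?_⟩
  · rw [← hl]
    exact D.of_par i (Multiplicative.toAdd l)
  · rw [← hl]
    exact D.hΨ i (Multiplicative.toAdd l)

theorem Gl.mem_Wl (h : D.G) : h ∈ D.Wl ↔ ∃ v, h = D.ba v := by
  constructor
  · rintro ⟨l, rfl⟩
    exact ⟨Multiplicative.toAdd l, rfl⟩
  · rintro ⟨v, rfl⟩
    exact ⟨Multiplicative.ofAdd v, rfl⟩

theorem Gl.side_none (A : AmalStr D.φ) (h : D.G) : A.side h = none ↔ ∃ v, h = D.ba v := by
  rw [A.side_none]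
  exact D.mem_Wl h

theorem Gl.side_of (A : AmalStr D.φ) {i : Fin 2} {g : (D.P i).Γ} (hg : ¬ (D.P i).Par g) :
    A.side (D.of i g) = some i := by
  exact A.side_of (fun h => hg ((D.mem_range_iff i g).1 h))

theorem Gl.side_cons (A : AmalStr D.φ) {i : Fin 2} {g : (D.P i).Γ} (hg : ¬ (D.P i).Par g)
    {h : D.G} (hh : A.side h ≠ some i) :
    A.side (D.of i g * h) = some i ∧ A.len (D.of i g * h) = A.len h + 1 := by
  have hg' : g ∉ (D.φ i).range := fun h => hg ((D.mem_range_iff i g).1 h)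
  exact ⟨A.side_cons i g hg' h hh, A.len_cons i g hg' h hh⟩

theorem Gl.exists_cons (A : AmalStr D.φ) {i : Fin 2} {h : D.G} (hh : A.side h = some i) :
    ∃ (g : (D.P i).Γ) (h' : D.G), ¬ (D.P i).Par g ∧ A.side h' ≠ some i ∧ h = D.of i g * h' := by
  obtain ⟨g, hg, h', hh', he⟩ := A.exists_cons i h hh
  exact ⟨g, h', fun h => hg ((D.mem_range_iff i g).2 h), hh', he⟩

theorem Gl.side_mul_ba (A : AmalStr D.φ) (h : D.G) (v : (D.P 0).lat) :
    A.side (h * D.ba v) = A.side h := by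
  exact A.side_mul_base h (Multiplicative.ofAdd v)

theorem Gl.side_ba_mul (A : AmalStr D.φ) (h : D.G) (v : (D.P 0).lat) :
    A.side (D.ba v * h) = A.side h := by
  exact A.side_base_mul (Multiplicative.ofAdd v) h

theorem Gl.side_mul_of (A : AmalStr D.φ) {j : Fin 2} {h : D.G} (hj : A.side h = some j)
    (k : Fin 2) (s : (D.P k).Γ) :
    A.side (h * D.of k s) = some j ∨ A.side (h * D.of k s) = none := by
  exact A.side_mul_of hj k s

/-- A product of elements of the two factors, not parabolic, is in no factor. -/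
theorem Gl.of_mul_of_ne (A : AmalStr D.φ) {i j k : Fin 2} (hij : i ≠ j) {g : (D.P i).Γ}
    {g' : (D.P j).Γ} {g'' : (D.P k).Γ} (hg : ¬ (D.P i).Par g) (hg' : ¬ (D.P j).Par g') :
    D.of i g * D.of j g' ≠ D.of k g'' := by
  intro he
  have h1 : A.side (D.of j g') = some j := D.side_of A hg'
  have h2 := D.side_cons A hg (h := D.of j g') (by rw [h1]; simpa using hij.symm)
  have hl0 : A.len (1 : D.G) + 1 = A.len (D.of j g') := by
    have h3 := D.side_cons A hg' (h := (1 : D.G))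
      (by rw [(D.side_none A 1).2 ⟨0, D.ba_zero.symm⟩]; simp)
    rw [mul_one] at h3
    exact h3.2.symm
  have hk : A.len (D.of k g'') ≤ A.len (1 : D.G) + 1 := by
    by_cases hp : (D.P k).Par g''
    · obtain ⟨v, hv, -⟩ := D.exists_ba k hp
      have h4 := A.len_base_mul (Multiplicative.ofAdd v) 1
      rw [mul_one] at h4
      rw [hv]
      change A.len (PushoutI.base D.φ (Multiplicative.ofAdd v)) ≤ _
      rw [h4]
      omega
    · have h3 := D.side_cons A hp (h := (1 : D.G))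
        (by rw [(D.side_none A 1).2 ⟨0, D.ba_zero.symm⟩]; simp)
      rw [mul_one] at h3
      exact h3.2.le
  rw [← he, h2.2] at hk
  omega

theorem Gl.gen_fin (r : ℝ) : (D.gen r).Finite := by
  have h : D.gen r = ⋃ i : Fin 2, (D.of i) '' ((D.P i).bal r) := by
    ext g
    simp only [Gl.gen, Set.mem_ofPred_eq, Set.mem_iUnion, Set.mem_image]
    constructor
    · rintro ⟨i, γ, hγ, rfl⟩
      exact ⟨i, γ, hγ, rfl⟩
    · rintro ⟨i, γ, hγ, rfl⟩
      exact ⟨i, γ, hγ, rfl⟩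
  rw [h]
  exact Set.finite_iUnion (fun i => ((D.P i).bal_finite r).image _)

theorem Gl.gen_inv {r : ℝ} {g : D.G} (hg : g ∈ D.gen r) : g⁻¹ ∈ D.gen r := by
  obtain ⟨i, γ, hγ, rfl⟩ := hg
  exact ⟨i, γ⁻¹, (D.P i).bal_inv hγ, (map_inv _ _).symm⟩

theorem Gl.of_pow_mem {i : Fin 2} {r : ℝ} {γ : (D.P i).Γ} {n : ℕ} (h : γ ∈ ((D.P i).bal r) ^ n) :
    D.of i γ ∈ (D.gen r) ^ n := by
  induction n generalizing γ with
  | zero =>
    rw [pow_zero, Set.mem_one] at h
    rw [h, map_one, pow_zero]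
    exact Set.mem_one.2 rfl
  | succ n ih =>
    rw [pow_succ] at h
    obtain ⟨a, ha, b, hb, rfl⟩ := Set.mem_mul.1 h
    rw [map_mul, pow_succ]
    exact Set.mul_mem_mul (ih ha) ⟨i, b, hb, rfl⟩

variable {S : Set D.G} (hS : GSet S)

include hS

theorem Gl.dW_le (v : (D.P 0).lat) (h : D.G) : D.dW S h ≤ wd S (D.ba v) h := by
  exact Nat.sInf_le ⟨v, rfl⟩

theorem Gl.exists_dW (h : D.G) : ∃ v : (D.P 0).lat, wd S (D.ba v) h = D.dW S h := by
  have h1 : {n : ℕ | ∃ v : (D.P 0).lat, n = wd S (D.ba v) h}.Nonempty := ⟨_, 0, rfl⟩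
  obtain ⟨v, hv⟩ := Nat.sInf_mem h1
  exact ⟨v, hv.symm⟩

theorem Gl.dW_ba_mul (v : (D.P 0).lat) (h : D.G) : D.dW S (D.ba v * h) = D.dW S h := by
  apply le_antisymm
  · obtain ⟨w, hw⟩ := D.exists_dW hS h
    rw [← hw, ← wd_mul_left S (D.ba v) (D.ba w) h, ← D.ba_add]
    exact D.dW_le hS _ _
  · obtain ⟨w, hw⟩ := D.exists_dW hS (D.ba v * h)
    have e : D.ba w = D.ba v * D.ba (w - v) := by
      rw [← D.ba_add]
      congr 1
      abel
    rw [← hw, e, wd_mul_left S (D.ba v)]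
    exact D.dW_le hS _ _

theorem Gl.dW_lip (h h' : D.G) : D.dW S h ≤ D.dW S h' + wd S h h' := by
  obtain ⟨w, hw⟩ := D.exists_dW hS h'
  rw [← hw]
  refine (D.dW_le hS w h).trans ?_
  rw [wd_comm hS h h']
  exact wd_triangle hS _ _ _

theorem Gl.dW_ba (v : (D.P 0).lat) : D.dW S (D.ba v) = 0 := by
  have h1 := D.dW_le hS v (D.ba v)
  rw [wd_self] at h1
  omega

theorem Gl.dW_eq_zero {h : D.G} : D.dW S h = 0 ↔ ∃ v, h = D.ba v := by
  constructor
  · intro h0
    obtain ⟨v, hv⟩ := D.exists_dW hS h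
    rw [h0] at hv
    refine ⟨v, ?_⟩
    have h1 := (wl_eq_zero hS).1 hv
    rw [inv_mul_eq_one] at h1
    exact h1.symm
  · rintro ⟨v, rfl⟩
    exact D.dW_ba hS v

theorem Gl.cross (A : AmalStr D.φ) (hgen : ∀ s ∈ S, ∃ (i : Fin 2) (γ : (D.P i).Γ), s = D.of i γ)
    {i : Fin 2} {h h' : D.G} (hh : A.side h = some i) (hh' : A.side h' ≠ some i) :
    ∃ v : (D.P 0).lat, wd S h (D.ba v) + wd S (D.ba v) h' = wd S h h' := by
  classical
  obtain ⟨p, h0, h1, hp, hd⟩ := exists_path hS h h'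
  have hex : ∃ k, A.side (p k) ≠ some i := ⟨_, by rw [h1]; exact hh'⟩
  have hk1 : Nat.find hex ≤ wd S h h' := Nat.find_min' hex (by rw [h1]; exact hh')
  have hk2 : A.side (p (Nat.find hex)) ≠ some i := Nat.find_spec hex
  have hk3 : ∀ j < Nat.find hex, A.side (p j) = some i := by
    intro j hj
    have := Nat.find_min hex hj
    push Not at this
    exact this
  generalize Nat.find hex = k at hk1 hk2 hk3
  have hk0 : k ≠ 0 := by
    rintro rfl
    exact hk2 (by rw [h0]; exact hh)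
  obtain ⟨l, rfl⟩ := Nat.exists_eq_succ_of_ne_zero hk0
  have hl := hk3 l (Nat.lt_succ_self l)
  obtain ⟨j, γ, hγ⟩ := hgen _ (hp l)
  have e : p (l + 1) = p l * D.of j γ := by
    rw [← hγ]
    group
  have h2 := D.side_mul_of A hl j γ
  rw [← e] at h2
  have h3 : A.side (p (l + 1)) = none := by
    rcases h2 with h2 | h2
    · exact absurd h2 hk2
    · exact h2
  obtain ⟨v, hv⟩ := (D.side_none A _).1 h3
  refine ⟨v, ?_⟩
  obtain ⟨h4, h5⟩ := hd _ hk1
  have hv' : p l.succ = D.ba v := hv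
  rw [hv'] at h4 h5
  rw [h4, h5]
  omega

theorem Gl.low_far (R : ℕ) : ∃ ε : ℝ, 0 < ε ∧ ∀ (i : Fin 2) (γ : (D.P i).Γ),
    ((D.P i).orb γ).t ≤ ε → R < D.dW S (D.of i γ) := by
  have hfin : ∀ i : Fin 2, {γ : (D.P i).Γ | wl S (D.of i γ) ≤ R}.Finite := fun i =>
    (ball_finite hS R).preimage (D.of_injective i).injOn
  have hex : ∀ i : Fin 2, ∃ ε : ℝ, 0 < ε ∧ ∀ γ : (D.P i).Γ, wl S (D.of i γ) ≤ R →
      ε < ((D.P i).orb γ).t := by
    intro i
    obtain ⟨b, hb⟩ := ((hfin i).image (fun γ => (((D.P i).orb γ).t)⁻¹)).bddAbove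
    refine ⟨(|b| + 1)⁻¹, by positivity, fun γ hγ => ?_⟩
    have h1 : (((D.P i).orb γ).t)⁻¹ ≤ b := hb ⟨γ, hγ, rfl⟩
    have h2 := ((D.P i).orb γ).pos
    rw [inv_lt_comm₀ (by positivity) h2]
    linarith [le_abs_self b]
  choose ε hε hε' using hex
  refine ⟨min (ε 0) (ε 1), lt_min (hε 0) (hε 1), ?_⟩
  intro i γ hγ
  by_contra hcon
  push Not at hcon
  obtain ⟨v, hv⟩ := D.exists_dW hS (D.of i γ)
  have e : (D.ba v)⁻¹ * D.of i γ = D.of i ((D.φ i (Multiplicative.ofAdd v))⁻¹ * γ) := by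
    rw [map_mul, map_inv, D.of_par]
  have h1 : wl S (D.of i ((D.φ i (Multiplicative.ofAdd v))⁻¹ * γ)) ≤ R := by
    rw [← e]
    change wd S (D.ba v) (D.of i γ) ≤ R
    rw [hv]
    exact hcon
  have h2 := hε' i _ h1
  have h3 : ((D.P i).orb ((D.φ i (Multiplicative.ofAdd v))⁻¹ * γ)).t = ((D.P i).orb γ).t := by
    have h4 : ((D.φ i (Multiplicative.ofAdd v))⁻¹ * γ).1 = transl (-(D.Ψ i (v : E m))) * γ.1 := by
      rw [transl_neg, ← D.hΨ i v]
      rfl
    unfold Piece.orb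
    rw [h4, Equiv.Perm.mul_apply, transl_t]
  rw [h3] at h2
  have h5 : min (ε 0) (ε 1) ≤ ε i := by
    fin_cases i
    · exact min_le_left _ _
    · exact min_le_right _ _
  linarith

/-- The inclusions of the pieces are Lipschitz. -/
theorem Gl.wd_of_le {i : Fin 2} {r : ℝ} (hr : GSet ((D.P i).bal r)) : ∃ N : ℕ,
    ∀ γ γ' : (D.P i).Γ, wd S (D.of i γ) (D.of i γ') ≤ N * wd ((D.P i).bal r) γ γ' := by
  obtain ⟨N, hN⟩ := finite_bdd S ((((D.P i).bal_finite r)).image (D.of i))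
  refine ⟨N, fun γ γ' => ?_⟩
  have key : ∀ (n : ℕ) (g : (D.P i).Γ), g ∈ ((D.P i).bal r) ^ n → wl S (D.of i g) ≤ N * n := by
    intro n
    induction n with
    | zero =>
      intro g hg
      rw [pow_zero, Set.mem_one] at hg
      rw [hg, map_one, wl_one]
      omega
    | succ n ih =>
      intro g hg
      rw [pow_succ] at hg
      obtain ⟨a, ha, b, hb, rfl⟩ := Set.mem_mul.1 hg
      rw [map_mul]
      have h1 := wl_mul_le hS (D.of i a) (D.of i b)
      have h2 := ih a ha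
      have h3 := hN _ ⟨b, hb, rfl⟩
      rw [Nat.mul_add, Nat.mul_one]
      omega
  have h1 := key (wd ((D.P i).bal r) γ γ') (γ⁻¹ * γ') ((mem_pow_iff hr _ _).2 le_rfl)
  rw [map_mul, map_inv] at h1
  exact h1

/-- Bounded distance in the gluing gives bounded displacement in the piece. -/
theorem Gl.bal_of_wd (R : ℕ) : ∃ r : ℝ, ∀ (i : Fin 2) (γ γ' : (D.P i).Γ),
    wd S (D.of i γ) (D.of i γ') ≤ R → γ⁻¹ * γ' ∈ (D.P i).bal r := by
  have hfin : ∀ i : Fin 2, {γ : (D.P i).Γ | wl S (D.of i γ) ≤ R}.Finite := fun i =>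
    (ball_finite hS R).preimage (D.of_injective i).injOn
  have hex : ∀ i : Fin 2, ∃ b : ℝ, ∀ γ : (D.P i).Γ, wl S (D.of i γ) ≤ R →
      hd ((D.P i).orb γ) (base m) ≤ b := by
    intro i
    obtain ⟨b, hb⟩ := ((hfin i).image (fun γ => hd ((D.P i).orb γ) (base m))).bddAbove
    exact ⟨b, fun γ hγ => hb ⟨γ, hγ, rfl⟩⟩
  choose b hb using hex
  refine ⟨max (b 0) (b 1), ?_⟩
  intro i γ γ' h
  have h1 : wl S (D.of i (γ⁻¹ * γ')) ≤ R := by
    rw [map_mul, map_inv]
    exact h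
  have h2 := hb i _ h1
  refine h2.trans ?_
  fin_cases i
  · exact le_max_left _ _
  · exact le_max_right _ _

/-- Conversely. -/
theorem Gl.wd_of_bal (r : ℝ) : ∃ R : ℕ, ∀ (i : Fin 2) (γ γ' : (D.P i).Γ),
    γ⁻¹ * γ' ∈ (D.P i).bal r → wd S (D.of i γ) (D.of i γ') ≤ R := by
  obtain ⟨R, hR⟩ := finite_bdd S (D.gen_fin r)
  refine ⟨R, fun i γ γ' h => ?_⟩
  have h1 := hR (D.of i (γ⁻¹ * γ')) ⟨i, _, h, rfl⟩
  rw [map_mul, map_inv] at h1
  exact h1

end QIG
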