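import Pool.Agent.W_a51130_h62.PcDefs
import Pool.Agent.W_a51130_h62.AmalDefs

/-! MP_a51130_gt: gluings, definitions used in the proofs. -/

namespace QIG

open Monoid

variable {m : ℕ}

/-- Two pieces, a gluing map and the linear coordinate changes `Ψ 0 = id`, `Ψ 1 =` linear extension of the
gluing map. -/
structure Gl (m : ℕ) where
  P : Fin 2 → Piece m
  ψ : (P 0).lat ≃+ (P 1).lat
  Ψ : Fin 2 → (E m ≃L[ℝ] E m)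
  hΨ : ∀ (i : Fin 2) (v : (P 0).lat),
    (glueMap P ψ i (Multiplicative.ofAdd v)).1 = transl (Ψ i (v : E m))
  hΨ0 : ∀ x, Ψ 0 x = x

abbrev Gl.φ (D : Gl m) : ∀ i : Fin 2, Multiplicative (D.P 0).lat →* (D.P i).Γ :=
  glueMap D.P D.ψ

abbrev Gl.G (D : Gl m) : Type := Glue D.P D.ψ

/-- The inclusion of a piece group. -/
def Gl.of (D : Gl m) (i : Fin 2) : (D.P i).Γ →* D.G := PushoutI.of (φ := D.φ) i

/-- The wall group element of a lattice vector. -/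
def Gl.ba (D : Gl m) (v : (D.P 0).lat) : D.G := PushoutI.base D.φ (Multiplicative.ofAdd v)

/-- The wall subgroup. -/
def Gl.Wl (D : Gl m) : Subgroup D.G := (PushoutI.base D.φ).range

/-- Generating sets made of elements of the pieces moving the base point by at most `r`. -/
def Gl.gen (D : Gl m) (r : ℝ) : Set D.G := {g | ∃ (i : Fin 2), ∃ γ ∈ (D.P i).bal r, g = D.of i γ}

/-- Distance to the wall subgroup. -/
noncomputable def Gl.dW (D : Gl m) (S : Set D.G) (h : D.G) : ℕ :=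
  sInf {n : ℕ | ∃ v : (D.P 0).lat, n = wd S (D.ba v) h}

/-- Projection `Φ` to the wall and height `T`, defined by recursion on the syllables. -/
structure PT (D : Gl m) (A : AmalStr D.φ) where
  κ : ℝ
  hκ : 1 ≤ κ
  le1 : ∀ i x, ‖D.Ψ i x‖ ≤ κ * ‖x‖
  le2 : ∀ i x, ‖(D.Ψ i).symm x‖ ≤ κ * ‖x‖
  Φ : D.G → E m
  T : D.G → ℝ
  Φ_ba : ∀ v, Φ (D.ba v) = v
  T_ba : ∀ v, T (D.ba v) = 1
  Φ_mul : ∀ v h, Φ (D.ba v * h) = v + Φ h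
  T_mul : ∀ v h, T (D.ba v * h) = T h
  Φ_cons : ∀ (i : Fin 2) (g : (D.P i).Γ), ¬ (D.P i).Par g → ∀ h, A.side h ≠ some i →
    Φ (D.of i g * h) =
      (D.Ψ i).symm (g.1 ⟨D.Ψ i (Φ h), κ, lt_of_lt_of_le one_pos hκ⟩).u
  T_cons : ∀ (i : Fin 2) (g : (D.P i).Γ), ¬ (D.P i).Par g → ∀ h, A.side h ≠ some i →
    T (D.of i g * h) = T h * (κ * (g.1 ⟨D.Ψ i (Φ h), κ, lt_of_lt_of_le one_pos hκ⟩).t)

/-- The properties of the projection to the wall used later on. -/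
structure WallFn (D : Gl m) (A : AmalStr D.φ) (S : Set D.G) where
  Φ : D.G → E m
  C : ℝ
  hC : 1 ≤ C
  phi_ba : ∀ v, Φ (D.ba v) = v
  phi_mul : ∀ v h, Φ (D.ba v * h) = v + Φ h
  step : ∀ h, ∀ s ∈ S, ‖Φ h - Φ (h * s)‖ ≤ C / (1 + D.dW S h) ^ 2
  far : ∀ h h', (wd S h h' : ℝ) ≤ C * (1 + D.dW S h + D.dW S h' + ‖Φ h - Φ h'‖)
  piece : ∀ (i : Fin 2) (g : (D.P i).Γ), ‖Φ (D.of i g) - (D.Ψ i).symm ((D.P i).orb g).u‖ ≤ C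
  proj : ∀ h, A.side h ≠ none → ∀ v, ‖Φ (h * D.ba v) - Φ h‖ ≤ C

/-- `g₁Λ`, `g₂Λ` are different walls of a common piece. -/
def Gl.Adj (D : Gl m) (g₁ g₂ : D.G) : Prop :=
  ∃ (i : Fin 2) (γ : (D.P i).Γ), ¬ (D.P i).Par γ ∧ g₁⁻¹ * g₂ = D.of i γ

/-- Coarse equivalence of two pieces mapping walls to walls and the wall at infinity to itself. -/
structure PieceMap (P P' : Piece m) (F : P.Γ → P'.Γ) (F' : P'.Γ → P.Γ) : Prop where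
  bal : ∀ r : ℝ, ∃ r' : ℝ, ∀ g h, g⁻¹ * h ∈ P.bal r → (F g)⁻¹ * F h ∈ P'.bal r'
  bal' : ∀ r : ℝ, ∃ r' : ℝ, ∀ g h, g⁻¹ * h ∈ P'.bal r → (F' g)⁻¹ * F' h ∈ P.bal r'
  lat : ∃ K : ℝ, ∀ (g : P.Γ) (v : P.lat), ∃ v' : P'.lat, F (g * P.tr v) = F g * P'.tr v' ∧
    ‖(v' : E m)‖ ≤ K * (1 + ‖(v : E m)‖)
  lat' : ∃ K : ℝ, ∀ (g : P'.Γ) (v : P'.lat), ∃ v' : P.lat, F' (g * P'.tr v) = F' g * P.tr v' ∧
    ‖(v' : E m)‖ ≤ K * (1 + ‖(v : E m)‖)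
  par : P'.Par (F 1)
  par' : P.Par (F' 1)
  inv : ∃ r : ℝ, ∀ g, P.Par (g⁻¹ * F' (F g)) ∧ g⁻¹ * F' (F g) ∈ P.bal r
  inv' : ∃ r : ℝ, ∀ g, P'.Par (g⁻¹ * F (F' g)) ∧ g⁻¹ * F (F' g) ∈ P'.bal r

end QIG
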