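import Pool.Agent.W_a51130_h62.Defs

/-! MP_a51130_gt: the dichotomy lemma (Lemma Q), definitions. -/

namespace QIG

variable {m : ℕ}

/-- Hypotheses of the dichotomy lemma: `r` = distance from a wall, `φ` = projection to the wall. -/
structure QH (r : E m → ℝ) (φ : E m → E m) (K : ℝ) : Prop where
  nonneg : ∀ x, 0 ≤ r x
  lip : ∀ x y, |r x - r y| ≤ K * (‖x - y‖ + 1)
  phi : ∀ x y, ‖x - y‖ ≤ 1 → ‖φ x - φ y‖ ≤ K / (1 + r x) ^ 2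
  far : ∀ x y, ‖x - y‖ ≤ K * (1 + r x + r y + ‖φ x - φ y‖)

/-- The segment property: if `r ≤ ρ` at both ends of a segment of length `≥ C₃ ρ` then the segment contains
two points with `r ≤ R₁` at distance at least `c₂` times its length. -/
def SegProp (m : ℕ) (K R₁ C₃ c₂ : ℝ) : Prop :=
  ∀ (r : E m → ℝ) (φ : E m → E m), QH r φ K → ∀ (x y : E m) (ρ : ℝ), R₁ ≤ ρ → r x ≤ ρ → r y ≤ ρ →
    C₃ * ρ ≤ ‖y - x‖ → ∃ s t : ℝ, 0 ≤ s ∧ s ≤ t ∧ t ≤ 1 ∧ c₂ ≤ t - s ∧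
      r (x + s • (y - x)) ≤ R₁ ∧ r (x + t • (y - x)) ≤ R₁

/-- `a` is a touching point of `b` on `{r ≤ R₁}` (a nearest point up to `1`). -/
def Touch (r : E m → ℝ) (R₁ : ℝ) (a b : E m) : Prop :=
  r a ≤ R₁ ∧ ∀ a', r a' ≤ R₁ → ‖b - a‖ ≤ ‖b - a'‖ + 1

end QIG
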