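import Pool.Agent.W_a51130_h62.LQDefs

/-!
Lemma Q, step 3: the projection changes by a bounded amount from a point to its touching point.

PROOF.  Let `C₈ = max (C₃ R₁) (2/c₂)`.  Claim: if `y = a + λ(b-a)`, `0 ≤ λ ≤ 1`, and `ℓ = ‖y - a‖ ≥ C₈` then
`r y ≥ ℓ/C₃`.  Otherwise apply `SegProp` to the segment `[a,y]` with `ρ = ℓ/C₃ ≥ R₁` (`r a ≤ R₁ ≤ ρ`,
`r y ≤ ρ`, `‖y-a‖ = C₃ρ`): there is `z = a + t(y-a)`, `t ≥ c₂`, `r z ≤ R₁`, on the segment `[a,b]`, with
`‖b - z‖ = ‖b-a‖ - tℓ`; touching gives `tℓ ≤ 1`, so `c₂ ℓ ≤ 1`, contradiction.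
If `‖b-a‖ ≤ 1` then `‖φ a - φ b‖ ≤ K`.  Otherwise put `n = ⌈‖b-a‖⌉`, `x_j = a + (j/n)(b-a)`, steps of length in
`[1/2,1]`, `‖x_j - a‖ ≥ j/2`.  `‖φ x_j - φ x_(j+1)‖ ≤ K/(1+r x_j)²`: it is `≤ K` for the at most `2C₈+1` indices with
`‖x_j-a‖ < C₈`, and `≤ K C₃²/‖x_j-a‖² ≤ 4KC₃²/j²` for the others (`j ≥ 1`).
Sum: `C₄ = K(2C₈+1) + 8KC₃²` (`∑ 1/j² ≤ 2`).
-/

namespace QIG

theorem lqtouch_claim {m : ℕ} {K R₁ C₃ c₂ : ℝ} (hC : 1 ≤ C₃)
    (hc : 0 < c₂) (hS : SegProp m K R₁ C₃ c₂) {r : E m → ℝ} {φ : E m → E m} (hQ : QH r φ K)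
    {a b : E m} (hT : Touch r R₁ a b) {lam : ℝ} (h0 : 0 ≤ lam) (hl1 : lam ≤ 1)
    (h8 : max (C₃ * R₁) (2 / c₂) ≤ lam * ‖b - a‖) :
    lam * ‖b - a‖ / C₃ ≤ r (a + lam • (b - a)) := by
  by_contra hlt
  rw [not_le] at hlt
  have hC0 : 0 < C₃ := lt_of_lt_of_le one_pos hC
  set ℓ : ℝ := lam * ‖b - a‖ with hℓ
  have h81 : C₃ * R₁ ≤ ℓ := (le_max_left _ _).trans h8
  have h82 : 2 / c₂ ≤ ℓ := (le_max_right _ _).trans h8
  have hρ : R₁ ≤ ℓ / C₃ := by
    rw [le_div_iff₀ hC0, mul_comm]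
    exact h81
  have hy : ‖(a + lam • (b - a)) - a‖ = ℓ := by
    rw [add_sub_cancel_left, norm_smul, Real.norm_of_nonneg h0]
  obtain ⟨s, t, hs0, hst, ht1, hts, -, hrt⟩ := hS r φ hQ a (a + lam • (b - a)) (ℓ / C₃) hρ
    (hT.1.trans hρ) hlt.le (by rw [hy, mul_div_cancel₀ _ hC0.ne'])
  have htc : c₂ ≤ t := by linarith
  have ht0 : 0 ≤ t := hs0.trans hst
  have hℓ0 : 0 < ℓ := lt_of_lt_of_le (div_pos two_pos hc) h82
  have h3 := hT.2 _ hrt
  have hz : b - (a + t • ((a + lam • (b - a)) - a)) = (1 - t * lam) • (b - a) := by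
    rw [add_sub_cancel_left, smul_smul, sub_smul, one_smul]
    abel
  have htl : t * lam ≤ 1 := by
    calc t * lam ≤ 1 * 1 := mul_le_mul ht1 hl1 h0 zero_le_one
      _ = 1 := one_mul 1
  rw [hz, norm_smul, Real.norm_of_nonneg (by linarith)] at h3
  have h5 : 2 ≤ t * ℓ := by
    have h6 : 2 / c₂ * c₂ = 2 := div_mul_cancel₀ _ hc.ne'
    calc (2 : ℝ) = 2 / c₂ * c₂ := h6.symm
      _ ≤ ℓ * t := mul_le_mul h82 htc hc.le hℓ0.le
      _ = t * ℓ := mul_comm _ _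
  have h7 : t * ℓ ≤ 1 := by
    rw [hℓ]
    linarith [h3, show (1 - t * lam) * ‖b - a‖ = ‖b - a‖ - t * (lam * ‖b - a‖) by ring]
  linarith

/-- The numerical step: increments of `24 (1 - 1/(j+1))` dominate `4/j²`. -/
theorem lqtouch_num {j : ℝ} (hj : 1 ≤ j) :
    4 / j ^ 2 ≤ 24 * (1 - 1 / (j + 1 + 1)) - 24 * (1 - 1 / (j + 1)) := by
  have h1 : 0 < j := by linarith
  have h2 : 24 * (1 - 1 / (j + 1 + 1)) - 24 * (1 - 1 / (j + 1)) = 24 / ((j + 1) * (j + 1 + 1)) := by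
    field_simp
    ring
  rw [h2, div_le_div_iff₀ (by positivity) (by positivity)]
  nlinarith

theorem touch_bound {m : ℕ} {K R₁ C₃ c₂ : ℝ} (hK : 1 ≤ K) (hR : 1 ≤ R₁) (hC : 1 ≤ C₃)
    (hc : 0 < c₂) (hS : SegProp m K R₁ C₃ c₂) :
    ∃ C₄ : ℝ, 0 ≤ C₄ ∧ ∀ (r : E m → ℝ) (φ : E m → E m), QH r φ K → ∀ a b, Touch r R₁ a b →
      ‖φ a - φ b‖ ≤ C₄ := by
  have hK0 : 0 ≤ K := zero_le_one.trans hK
  have hC0 : 0 < C₃ := lt_of_lt_of_le one_pos hC
  set C8 : ℝ := max (C₃ * R₁) (2 / c₂) with hC8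
  have hC81 : 1 ≤ C8 := by
    refine le_trans ?_ (le_max_left _ _)
    calc (1 : ℝ) = 1 * 1 := (one_mul 1).symm
      _ ≤ C₃ * R₁ := mul_le_mul hC hR zero_le_one (zero_le_one.trans hC)
  set N : ℕ := ⌈2 * C8⌉₊ with hN
  have hN1 : 2 * C8 ≤ (N : ℝ) := Nat.le_ceil _
  refine ⟨K * N + K * C₃ ^ 2 * 24, by positivity, ?_⟩
  intro r φ hQ a b hT
  set d : ℝ := ‖b - a‖ with hd
  have hd0 : 0 ≤ d := norm_nonneg _
  have hstepK : ∀ x y : E m, ‖x - y‖ ≤ 1 → ‖φ x - φ y‖ ≤ K := by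
    intro x y hxy
    refine (hQ.phi x y hxy).trans (div_le_self hK0 ?_)
    have := hQ.nonneg x
    nlinarith
  rcases le_or_gt d 1 with hd1 | hd1
  · have h1 : ‖φ a - φ b‖ ≤ K := hstepK a b (by rw [norm_sub_rev]; exact hd1)
    have h2 : (1 : ℝ) ≤ N := by linarith
    have h3 : 0 ≤ K * C₃ ^ 2 * 24 := by positivity
    nlinarith
  · set n : ℕ := ⌈d⌉₊ with hn
    have hnd : d ≤ (n : ℝ) := Nat.le_ceil _
    have hnd' : (n : ℝ) < d + 1 := Nat.ceil_lt_add_one hd0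
    have hn0 : (0 : ℝ) < n := by linarith
    set x : ℕ → E m := fun j => a + ((j : ℝ) / n) • (b - a) with hx
    have hx0 : x 0 = a := by simp [hx]
    have hxn : x n = b := by
      simp only [hx]
      rw [div_self hn0.ne', one_smul]
      abel
    have hdn : d / n ≤ 1 := (div_le_one hn0).mpr hnd
    have hdn2 : 1 / 2 ≤ d / n := by
      rw [div_le_div_iff₀ two_pos hn0]
      linarith
    have hxstep : ∀ j, ‖x j - x (j + 1)‖ = d / n := by
      intro j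
      have h1 : x j - x (j + 1) = (-(1 / (n : ℝ))) • (b - a) := by
        simp only [hx]
        rw [add_sub_add_left_eq_sub, ← sub_smul]
        congr 1
        push_cast
        ring
      rw [h1, norm_smul, norm_neg, Real.norm_of_nonneg (by positivity), hd]
      ring
    have hterm : ∀ j : ℕ, j < n → N ≤ j → ‖φ (x j) - φ (x (j + 1))‖ ≤
        K * C₃ ^ 2 * (4 / (j : ℝ) ^ 2) := by
      intro j hjn hNj
      have hjN : (N : ℝ) ≤ j := by exact_mod_cast hNj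
      have hj0 : (0 : ℝ) < j := by linarith
      have hjn' : (j : ℝ) ≤ n := by exact_mod_cast hjn.le
      have hℓ : (j : ℝ) / 2 ≤ (j : ℝ) / n * d := by
        calc (j : ℝ) / 2 = j * (1 / 2) := by ring
          _ ≤ j * (d / n) := mul_le_mul_of_nonneg_left hdn2 hj0.le
          _ = (j : ℝ) / n * d := by ring
      have hr := lqtouch_claim hC hc hS hQ hT (lam := (j : ℝ) / n) (by positivity)
        ((div_le_one hn0).mpr hjn') (by
          show C8 ≤ (j : ℝ) / n * d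
          linarith)
      have hr2 : (j : ℝ) / (2 * C₃) ≤ r (x j) := by
        refine le_trans ?_ hr
        rw [div_le_div_iff₀ (by positivity) hC0]
        have : (j : ℝ) / n * ‖b - a‖ = (j : ℝ) / n * d := rfl
        nlinarith
      refine (hQ.phi _ _ (by rw [hxstep]; exact hdn)).trans ?_
      have h4 : ((j : ℝ) / (2 * C₃)) ^ 2 ≤ (1 + r (x j)) ^ 2 :=
        pow_le_pow_left₀ (by positivity) (by linarith) 2
      calc K / (1 + r (x j)) ^ 2 ≤ K / ((j : ℝ) / (2 * C₃)) ^ 2 :=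
            div_le_div_of_nonneg_left hK0 (by positivity) h4
        _ = K * C₃ ^ 2 * (4 / (j : ℝ) ^ 2) := by
            field_simp
            ring
    have hind : ∀ j : ℕ, j ≤ n → ‖φ a - φ (x j)‖ ≤
        K * ((min j N : ℕ) : ℝ) + K * C₃ ^ 2 * (24 * (1 - 1 / ((j : ℝ) + 1))) := by
      intro j
      induction j with
      | zero =>
        intro _
        rw [hx0]
        simp
      | succ j ih =>
        intro hj
        have h1 := ih (by omega)
        have h2 : ‖φ a - φ (x (j + 1))‖ ≤ ‖φ a - φ (x j)‖ + ‖φ (x j) - φ (x (j + 1))‖ := by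
          have : φ a - φ (x (j + 1)) = (φ a - φ (x j)) + (φ (x j) - φ (x (j + 1))) := by abel
          rw [this]
          exact norm_add_le _ _
        have hj1 : (0 : ℝ) < (j : ℝ) + 1 := by positivity
        have hmono : 24 * (1 - 1 / ((j : ℝ) + 1)) ≤ 24 * (1 - 1 / ((j : ℝ) + 1 + 1)) := by
          have : 1 / ((j : ℝ) + 1 + 1) ≤ 1 / ((j : ℝ) + 1) :=
            one_div_le_one_div_of_le hj1 (by linarith)
          linarith
        have hKC : 0 ≤ K * C₃ ^ 2 := by positivity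
        push_cast
        rcases lt_or_ge j N with hjN | hjN
        · have h3 : ‖φ (x j) - φ (x (j + 1))‖ ≤ K := hstepK _ _ (by rw [hxstep]; exact hdn)
          rw [min_eq_left hjN.le] at h1
          have h4 : min ((j : ℝ) + 1) (N : ℝ) = (j : ℝ) + 1 := by
            apply min_eq_left
            exact_mod_cast hjN
          rw [h4]
          nlinarith [mul_le_mul_of_nonneg_left hmono hKC]
        · have h3 := hterm j (by omega) hjN
          have hjN' : (N : ℝ) ≤ j := by exact_mod_cast hjN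
          rw [min_eq_right hjN] at h1
          have h4 : min ((j : ℝ) + 1) (N : ℝ) = (N : ℝ) := by
            apply min_eq_right
            linarith
          rw [h4]
          have h5 := lqtouch_num (j := (j : ℝ)) (by linarith)
          nlinarith [mul_le_mul_of_nonneg_left h5 hKC]
    have hfin := hind n le_rfl
    rw [hxn] at hfin
    refine hfin.trans ?_
    have h6 : ((min n N : ℕ) : ℝ) ≤ N := by exact_mod_cast min_le_right n N
    have h7 : 24 * (1 - 1 / ((n : ℝ) + 1)) ≤ 24 := by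
      have : 0 ≤ 1 / ((n : ℝ) + 1) := by positivity
      linarith
    have hKC : 0 ≤ K * C₃ ^ 2 := by positivity
    nlinarith [mul_le_mul_of_nonneg_left h6 hK0, mul_le_mul_of_nonneg_left h7 hKC]

end QIG
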