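import Pool.Agent.W_a51130_h62.LQSum
import Pool.Agent.W_a51130_h62.LQTouch

/-!
Lemma Q, step 5: one far point forces `A = {r ≤ R₁}` to be bounded.
-/

namespace QIG

/-- Touching points exist. -/
theorem far_exists_touch {m : ℕ} {r : E m → ℝ} {R₁ : ℝ} {a₀ : E m} (h0 : r a₀ ≤ R₁) (c : E m) :
    ∃ a', Touch r R₁ a' c := by
  set S : Set ℝ := {d | ∃ a', r a' ≤ R₁ ∧ d = ‖c - a'‖} with hS
  have hne : S.Nonempty := ⟨‖c - a₀‖, a₀, h0, rfl⟩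
  have hbd : BddBelow S := ⟨0, by rintro d ⟨a', _, rfl⟩; exact norm_nonneg _⟩
  obtain ⟨d, ⟨a', ha', rfl⟩, hd⟩ := exists_lt_of_csInf_lt hne (lt_add_one (sInf S))
  refine ⟨a', ha', fun a'' ha'' => ?_⟩
  have h1 : sInf S ≤ ‖c - a''‖ := csInf_le hbd ⟨a'', ha'', rfl⟩
  linarith

/-- (ii): every point of `A` is almost as far from `c` as `a₀`. -/
theorem far_two {m : ℕ} {K R₁ C₄ : ℝ} (hK : 1 ≤ K) {r : E m → ℝ} {φ : E m → E m} (hQ : QH r φ K)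
    (hT : ∀ a b, Touch r R₁ a b → ‖φ a - φ b‖ ≤ C₄) {a₀ b₀ : E m} (h0 : Touch r R₁ a₀ b₀)
    {c : E m} (hc : ‖φ c - φ b₀‖ ≤ 1) {a : E m} (ha : r a ≤ R₁) :
    ‖c - a₀‖ - (K * (2 + 2 * R₁ + 2 * C₄) + 1) ≤ ‖c - a‖ := by
  obtain ⟨a', ha'⟩ := far_exists_touch h0.1 c
  have h1 := hT _ _ ha'
  have h2 := hT _ _ h0
  have h3 : ‖φ a' - φ a₀‖ ≤ 2 * C₄ + 1 := by
    have e : φ a' - φ a₀ = (φ a' - φ c) + (φ c - φ b₀) - (φ a₀ - φ b₀) := by abel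
    calc ‖φ a' - φ a₀‖ ≤ ‖(φ a' - φ c) + (φ c - φ b₀)‖ + ‖φ a₀ - φ b₀‖ := by
          rw [e]; exact norm_sub_le _ _
      _ ≤ ‖φ a' - φ c‖ + ‖φ c - φ b₀‖ + ‖φ a₀ - φ b₀‖ := by gcongr; exact norm_add_le _ _
      _ ≤ 2 * C₄ + 1 := by linarith
  have h4 := hQ.far a' a₀
  have h5 : ‖a' - a₀‖ ≤ K * (2 + 2 * R₁ + 2 * C₄) := by
    refine h4.trans (mul_le_mul_of_nonneg_left ?_ (by linarith))
    linarith [ha'.1, h0.1]
  have h6 := ha'.2 a ha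
  have h7 : ‖c - a₀‖ ≤ ‖c - a'‖ + ‖a' - a₀‖ := by
    have e : c - a₀ = (c - a') + (a' - a₀) := by abel
    rw [e]; exact norm_add_le _ _
  linarith

/-- (iii): `r c ≥ ‖c-a₀‖/C₃`. -/
theorem far_three {m : ℕ} {K R₁ C₃ c₂ C₄ δ : ℝ} (hK : 1 ≤ K) (hC : 1 ≤ C₃)
    (hc : 0 < c₂) (hS : SegProp m K R₁ C₃ c₂) {r : E m → ℝ} {φ : E m → E m} (hQ : QH r φ K)
    (hT : ∀ a b, Touch r R₁ a b → ‖φ a - φ b‖ ≤ C₄) {a₀ b₀ : E m} (h0 : Touch r R₁ a₀ b₀)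
    (hδ1 : C₃ * R₁ ≤ δ) (hδ2 : K * (2 + 2 * R₁ + 2 * C₄) + 1 < c₂ * δ)
    {c : E m} (hcd : δ ≤ ‖c - a₀‖) (hcφ : ‖φ c - φ b₀‖ ≤ 1) :
    ‖c - a₀‖ / C₃ ≤ r c := by
  by_contra hcon
  push Not at hcon
  have hC0 : 0 < C₃ := by linarith
  have hρ : R₁ ≤ ‖c - a₀‖ / C₃ := by
    rw [le_div_iff₀ hC0]
    linarith
  obtain ⟨s, t, hs, hst, ht, hts, -, hz⟩ := hS r φ hQ a₀ c (‖c - a₀‖ / C₃) hρ
    (h0.1.trans hρ) hcon.le (by rw [mul_div_cancel₀ _ hC0.ne'])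
  have h1 := far_two hK hQ hT h0 hcφ hz
  have e : c - (a₀ + t • (c - a₀)) = (1 - t) • (c - a₀) := by
    rw [sub_smul, one_smul]; abel
  rw [e, norm_smul, Real.norm_eq_abs, abs_of_nonneg (by linarith)] at h1
  have h2 : c₂ * δ ≤ t * ‖c - a₀‖ :=
    (mul_le_mul_of_nonneg_left hcd hc.le).trans
      (mul_le_mul_of_nonneg_right (by linarith) (norm_nonneg _))
  nlinarith

/-- One step. -/
theorem far_step {m : ℕ} {K R₁ C₃ c₂ C₄ δ : ℝ} (hK : 1 ≤ K) (hC : 1 ≤ C₃)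
    (hc : 0 < c₂) (hS : SegProp m K R₁ C₃ c₂) {r : E m → ℝ} {φ : E m → E m} (hQ : QH r φ K)
    (hT : ∀ a b, Touch r R₁ a b → ‖φ a - φ b‖ ≤ C₄) {a₀ b₀ : E m} (h0 : Touch r R₁ a₀ b₀)
    (hδ : 1 ≤ δ)
    (hδ1 : C₃ * R₁ ≤ δ) (hδ2 : K * (2 + 2 * R₁ + 2 * C₄) + 1 < c₂ * δ)
    {c : E m} (hcd : δ ≤ ‖c - a₀‖) (hcφ : ‖φ c - φ b₀‖ ≤ 1) {v : E m} (hv : ‖v‖ ≤ 1) :
    ‖φ (c + v) - φ c‖ ≤ K * C₃ ^ 2 * (1 / ‖c - a₀‖ ^ 2) := by
  have h1 := far_three hK hC hc hS hQ hT h0 hδ1 hδ2 hcd hcφ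
  have h2 := hQ.phi c (c + v) (by simpa using hv)
  rw [norm_sub_rev] at h2
  refine h2.trans ?_
  have hC0 : 0 < C₃ := by linarith
  have hd : 0 < ‖c - a₀‖ := by linarith
  have hpos : 0 < ‖c - a₀‖ / C₃ := div_pos hd hC0
  have e : K * C₃ ^ 2 * (1 / ‖c - a₀‖ ^ 2) = K / (‖c - a₀‖ / C₃) ^ 2 := by
    field_simp
  rw [e]
  refine div_le_div_of_nonneg_left (by linarith) (by positivity) ?_
  refine pow_le_pow_left₀ hpos.le (by linarith) 2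

/-- Moving along a segment far from `a₀`. -/
theorem far_segment {m : ℕ} {K R₁ C₃ c₂ C₄ δ : ℝ} (hK : 1 ≤ K) (hC : 1 ≤ C₃)
    (hc : 0 < c₂) (hS : SegProp m K R₁ C₃ c₂) {r : E m → ℝ} {φ : E m → E m} (hQ : QH r φ K)
    (hT : ∀ a b, Touch r R₁ a b → ‖φ a - φ b‖ ≤ C₄) {a₀ b₀ : E m} (h0 : Touch r R₁ a₀ b₀)
    (hδ : 1 ≤ δ)
    (hδ1 : C₃ * R₁ ≤ δ) (hδ2 : K * (2 + 2 * R₁ + 2 * C₄) + 1 < c₂ * δ)
    (hδ3 : K * C₃ ^ 2 * (40 / δ) ≤ 1 / 2)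
    {c₀ c₁ : E m} (hcd : ∀ s : ℝ, 0 ≤ s → s ≤ 1 → δ ≤ ‖c₀ + s • (c₁ - c₀) - a₀‖)
    (hcφ : ‖φ c₀ - φ b₀‖ ≤ 1 / 2) :
    ‖φ c₁ - φ c₀‖ ≤ 1 / 2 := by
  have hδ0 : 0 < δ := by linarith
  have hK0 : 0 ≤ K := by linarith
  have hKC : 0 ≤ K * C₃ ^ 2 := by positivity
  have hc0 : δ ≤ ‖c₀ - a₀‖ := by simpa using hcd 0 le_rfl zero_le_one
  rcases lt_or_ge ‖c₁ - c₀‖ (1 / 2) with hL | hL
  · -- one step
    have h1 := far_step hK hC hc hS hQ hT h0 hδ hδ1 hδ2 hc0 (by linarith)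
      (v := c₁ - c₀) (by linarith)
    rw [add_sub_cancel] at h1
    refine h1.trans (le_trans (mul_le_mul_of_nonneg_left ?_ hKC) hδ3)
    have hc00 : 0 < ‖c₀ - a₀‖ := by linarith
    rw [div_le_div_iff₀ (by positivity) hδ0]
    nlinarith
  · set L := ‖c₁ - c₀‖ with hLdef
    set n : ℕ := ⌈L⌉₊ with hn
    have hL0 : 0 < L := by linarith
    have hn0 : 0 < n := Nat.ceil_pos.mpr hL0
    have hn0' : (0 : ℝ) < n := by exact_mod_cast hn0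
    have hnL : L ≤ n := Nat.le_ceil L
    have hnL' : (n : ℝ) < L + 1 := Nat.ceil_lt_add_one hL0.le
    have hn2 : (n : ℝ) ≤ 2 * L := by
      rcases le_or_gt L 1 with h | h
      · have : n ≤ 1 := by
          rw [hn]; exact Nat.ceil_le.mpr (by simpa using h)
        have : (n : ℝ) ≤ 1 := by exact_mod_cast this
        linarith
      · linarith
    set v : E m := (1 / (n : ℝ)) • (c₁ - c₀) with hv
    have hvn : ‖v‖ = L / n := by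
      rw [hv, norm_smul, Real.norm_eq_abs, abs_of_pos (by positivity), ← hLdef]
      ring
    have hv1 : ‖v‖ ≤ 1 := by rw [hvn, div_le_one hn0']; exact hnL
    have hv2 : 1 / 2 ≤ ‖v‖ := by
      rw [hvn, le_div_iff₀ hn0']; linarith
    have hseg : ∀ j : ℕ, j ≤ n → δ ≤ ‖c₀ + (j : ℝ) • v - a₀‖ := by
      intro j hj
      have hj' : (j : ℝ) ≤ n := by exact_mod_cast hj
      have := hcd ((j : ℝ) / n) (by positivity) (by rw [div_le_one hn0']; exact hj')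
      have e : ((j : ℝ) / n) • (c₁ - c₀) = (j : ℝ) • v := by
        rw [hv, smul_smul]
        congr 1
        ring
      rwa [e] at this
    have hsum : ∀ N, N ≤ n → ∑ i ∈ Finset.range N, 1 / ‖c₀ + (i : ℝ) • v - a₀‖ ^ 2 ≤ 40 / δ :=
      fun N hN => line_sum_le a₀ c₀ v hv2 δ hδ N (fun i hi => hseg i (by omega))
    have hind : ∀ N, N ≤ n → ‖φ (c₀ + (N : ℝ) • v) - φ c₀‖ ≤
        K * C₃ ^ 2 * ∑ i ∈ Finset.range N, 1 / ‖c₀ + (i : ℝ) • v - a₀‖ ^ 2 := by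
      intro N
      induction N with
      | zero => intro _; simp
      | succ N ih =>
        intro hN
        have ih1 := ih (by omega)
        have hb : ‖φ (c₀ + (N : ℝ) • v) - φ c₀‖ ≤ 1 / 2 :=
          ih1.trans (le_trans (mul_le_mul_of_nonneg_left (hsum N (by omega)) hKC) hδ3)
        have hb' : ‖φ (c₀ + (N : ℝ) • v) - φ b₀‖ ≤ 1 := by
          have e : φ (c₀ + (N : ℝ) • v) - φ b₀ =
            (φ (c₀ + (N : ℝ) • v) - φ c₀) + (φ c₀ - φ b₀) := by abel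
          rw [e]
          refine (norm_add_le _ _).trans ?_
          linarith
        have h2 := far_step hK hC hc hS hQ hT h0 hδ hδ1 hδ2 (hseg N (by omega)) hb' hv1
        have e2 : c₀ + ((N + 1 : ℕ) : ℝ) • v = c₀ + (N : ℝ) • v + v := by
          push_cast
          rw [add_smul, one_smul]; abel
        rw [e2, Finset.sum_range_succ, mul_add]
        have e3 : φ (c₀ + (N : ℝ) • v + v) - φ c₀ =
            (φ (c₀ + (N : ℝ) • v) - φ c₀) + (φ (c₀ + (N : ℝ) • v + v) - φ (c₀ + (N : ℝ) • v)) := by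
          abel
        rw [e3]
        refine (norm_add_le _ _).trans ?_
        linarith
    have hfin := hind n le_rfl
    have e4 : c₀ + (n : ℝ) • v = c₁ := by
      rw [hv, smul_smul, mul_one_div_cancel hn0'.ne', one_smul]; abel
    rw [e4] at hfin
    exact hfin.trans (le_trans (mul_le_mul_of_nonneg_left (hsum n le_rfl) hKC) hδ3)

theorem far_case {m : ℕ} (hm : 2 ≤ m) {K R₁ C₃ c₂ : ℝ} (hK : 1 ≤ K) (hR : 1 ≤ R₁) (hC : 1 ≤ C₃)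
    (hc : 0 < c₂) (hS : SegProp m K R₁ C₃ c₂) :
    ∃ D : ℝ, 1 ≤ D ∧ ∀ (r : E m → ℝ) (φ : E m → E m), QH r φ K → ∀ a₀ b₀, Touch r R₁ a₀ b₀ →
      D ≤ ‖b₀ - a₀‖ → ∀ x, D ≤ ‖x - a₀‖ → R₁ < r x := by
  obtain ⟨C₄, hC4, hT⟩ := touch_bound hK hR hC hc hS
  set C₇ : ℝ := K * (2 + 2 * R₁ + 2 * C₄) + 1 with hC7
  have hC70 : 0 < C₇ := by positivity
  set δ : ℝ := 1 + C₃ * R₁ + C₇ + (C₇ + 1) / c₂ + 80 * (K * C₃ ^ 2) with hδdef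
  have hCR : 1 ≤ C₃ * R₁ := by nlinarith
  have hpos1 : 0 < (C₇ + 1) / c₂ := by positivity
  have hpos2 : 0 < 80 * (K * C₃ ^ 2) := by positivity
  have hδ : 1 ≤ δ := by linarith
  have hδ0 : 0 < δ := by linarith
  have hδ1 : C₃ * R₁ ≤ δ := by linarith
  have hδ2 : C₇ < c₂ * δ := by
    have h1 : (C₇ + 1) / c₂ ≤ δ := by linarith
    rw [div_le_iff₀ hc] at h1
    linarith
  have hδ3 : K * C₃ ^ 2 * (40 / δ) ≤ 1 / 2 := by
    rw [mul_div_assoc', div_le_div_iff₀ hδ0 (by norm_num)]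
    linarith
  have hδ7 : C₇ < δ := by linarith
  refine ⟨4 * δ, by linarith, ?_⟩
  intro r φ hQ a₀ b₀ h0 hb x hx
  obtain ⟨z, hz1, hz2⟩ := detour hm a₀ b₀ x (δ := 4 * δ) (by linarith) hb hx
  have hz1' : ∀ s : ℝ, 0 ≤ s → s ≤ 1 → δ ≤ ‖b₀ + s • (z - b₀) - a₀‖ := by
    intro s hs hs'
    have := hz1 s hs hs'
    linarith
  have hz2' : ∀ s : ℝ, 0 ≤ s → s ≤ 1 → δ ≤ ‖z + s • (x - z) - a₀‖ := by
    intro s hs hs'
    have := hz2 s hs hs'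
    linarith
  have h1 := far_segment hK hC hc hS hQ (hT r φ hQ) h0 hδ hδ1 hδ2 hδ3 hz1' (by simp)
  have h2 := far_segment hK hC hc hS hQ (hT r φ hQ) h0 hδ hδ1 hδ2 hδ3 hz2' h1
  have h3 : ‖φ x - φ b₀‖ ≤ 1 := by
    have e : φ x - φ b₀ = (φ x - φ z) + (φ z - φ b₀) := by abel
    rw [e]
    refine (norm_add_le _ _).trans ?_
    linarith
  by_contra hcon
  push Not at hcon
  have h4 := far_two hK hQ (hT r φ hQ) h0 h3 hcon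
  simp only [sub_self, norm_zero] at h4
  linarith

end QIG
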