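import Pool.Agent.W_a51130_h62.LQDefs

/-!
Lemma Q, step 1 (segment property).

PROOF.  Choose `R₁ ≥ 1` with `2K²·... `: precisely such that `K/(1+R₁)² ≤ 1/(16K)` (e.g. `R₁ = 4K`), then `C₃`
with `C₃ ≥ 8K` (so that `L ≥ C₃ρ`, `ρ ≥ R₁ ≥ 1` imply `K(1+2ρ) ≤ L/2` and `L ≥ 8`).
Let `L = ‖y-x‖`.  By `far`, `L ≤ K(1 + 2ρ + ‖φ x - φ y‖)`, hence `‖φ x - φ y‖ ≥ L/K - 1 - 2ρ ≥ L/(2K)`.
Let `n = ⌈L⌉`, `x_j = x + (j/n)(y-x)`, `j = 0..n`, steps of length `L/n ∈ [1/2, 1]`.  By `phi`,
`‖φ x_j - φ x_(j+1)‖ ≤ K/(1+r x_j)²`, which is `≤ K` always and `≤ K/(1+R₁)² ≤ 1/(16K)` if `r x_j > R₁`.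
Let `J = {j < n : r x_j ≤ R₁}`.  If `J = ∅`: `‖φ x - φ y‖ ≤ n/(16K) ≤ L/(8K)`, contradiction.  Otherwise
`j₀ = min J`, `j₁ = max J`: `L/(2K) ≤ ‖φ x - φ y‖ ≤ n/(16K) + (j₁-j₀+1)K ≤ L/(8K) + (j₁-j₀+1)K`, so
`j₁ - j₀ ≥ 3L/(8K²) - 1 ≥ L/(8K²)` when `L ≥ 4K²` (take `C₃ ≥ 8K²`).  Take `s = j₀/n`, `t = j₁/n`,
`t - s ≥ L/(8K² n) ≥ 1/(16K²) =: c₂`.
-/

namespace QIG

theorem exists_segProp (m : ℕ) {K : ℝ} (hK : 1 ≤ K) :
    ∃ R₁ C₃ c₂ : ℝ, 1 ≤ R₁ ∧ 1 ≤ C₃ ∧ 0 < c₂ ∧ SegProp m K R₁ C₃ c₂ := by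
  have hK0 : 0 < K := by linarith
  refine ⟨4 * K, 8 * K ^ 2, 1 / (16 * K ^ 2), by linarith, by nlinarith, by positivity, ?_⟩
  intro r φ h x y ρ hρ hx hy hL
  set L : ℝ := ‖y - x‖ with hLdef
  have hρ1 : 4 ≤ ρ := by linarith
  have hK2 : 1 ≤ K ^ 2 := by nlinarith
  have hKK2 : K ≤ K ^ 2 := by nlinarith
  have hL8 : 8 * K ^ 2 ≤ L := by nlinarith
  have hL1 : 1 ≤ L := by linarith
  have hLpos : 0 < L := by linarith
  -- the number of steps
  set n : ℕ := ⌈L⌉₊ with hn
  have hn1 : L ≤ n := Nat.le_ceil L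
  have hn2 : (n : ℝ) ≤ 2 * L := by
    have := (Nat.ceil_lt_add_one hLpos.le)
    rw [← hn] at this
    linarith
  have hnpos : (0 : ℝ) < n := by linarith
  set p : ℕ → E m := fun j => x + ((j : ℝ) / n) • (y - x) with hp
  have hstep : ∀ j, ‖p j - p (j + 1)‖ ≤ 1 := by
    intro j
    have e : p j - p (j + 1) = (-(1 / (n : ℝ))) • (y - x) := by
      simp only [hp]
      rw [add_sub_add_left_eq_sub, ← sub_smul]
      congr 1
      push_cast
      ring
    rw [e, norm_smul, norm_neg, Real.norm_of_nonneg (by positivity), ← hLdef, one_div,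
      inv_mul_le_iff₀ hnpos, mul_one]
    exact hn1
  have hp0 : p 0 = x := by simp [hp]
  have hpn : p n = y := by
    simp only [hp]
    rw [div_self hnpos.ne', one_smul, add_sub_cancel]
  -- the distance of the end points under the projection
  set D : ℝ := ‖φ x - φ y‖ with hD
  have hfar := h.far x y
  have hLD : L ≤ K * (1 + 2 * ρ + D) := by
    have e : ‖x - y‖ = L := by rw [hLdef, norm_sub_rev]
    rw [e] at hfar
    refine hfar.trans (mul_le_mul_of_nonneg_left ?_ hK0.le)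
    linarith
  have hKD : L / 2 ≤ K * D := by nlinarith
  have hsum : D ≤ ∑ j ∈ Finset.range n, ‖φ (p j) - φ (p (j + 1))‖ := by
    have := dist_le_range_sum_dist (fun j => φ (p j)) n
    simp only [dist_eq_norm] at this
    rwa [hp0, hpn] at this
  -- the steps
  have hb1 : ∀ j, ‖φ (p j) - φ (p (j + 1))‖ ≤ K := by
    intro j
    refine (h.phi _ _ (hstep j)).trans ?_
    have h1 : (1 : ℝ) ≤ (1 + r (p j)) ^ 2 := by
      have := h.nonneg (p j)
      nlinarith
    exact div_le_self hK0.le h1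
  have hb2 : ∀ j, 4 * K < r (p j) → ‖φ (p j) - φ (p (j + 1))‖ ≤ 1 / (16 * K) := by
    intro j hj
    refine (h.phi _ _ (hstep j)).trans ?_
    have h1 : 16 * K ^ 2 ≤ (1 + r (p j)) ^ 2 := by nlinarith
    calc K / (1 + r (p j)) ^ 2 ≤ K / (16 * K ^ 2) :=
          div_le_div_of_nonneg_left hK0.le (by positivity) h1
      _ = 1 / (16 * K) := by field_simp
  set J : Finset ℕ := (Finset.range n).filter fun j => r (p j) ≤ 4 * K with hJ
  have hnK : (n : ℝ) * (1 / (16 * K)) * K ≤ L / 8 := by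
    have e : (n : ℝ) * (1 / (16 * K)) * K = n / 16 := by field_simp
    rw [e]
    linarith
  by_cases hne : J.Nonempty
  · set a := J.min' hne with ha
    set b := J.max' hne with hb
    have haJ : a ∈ J := J.min'_mem hne
    have hbJ : b ∈ J := J.max'_mem hne
    have hab : a ≤ b := J.min'_le b hbJ
    have hterm : ∀ j ∈ Finset.range n, ‖φ (p j) - φ (p (j + 1))‖ ≤
        1 / (16 * K) + if j ∈ Finset.Icc a b then K else 0 := by
      intro j hj
      have hpos : 0 < 1 / (16 * K) := by positivity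
      split_ifs with hc
      · linarith [hb1 j]
      · have hjJ : j ∉ J := fun hjJ =>
          hc (Finset.mem_Icc.2 ⟨J.min'_le j hjJ, J.le_max' j hjJ⟩)
        have : 4 * K < r (p j) := by
          by_contra hcon
          exact hjJ (Finset.mem_filter.2 ⟨hj, not_lt.1 hcon⟩)
        linarith [hb2 j this]
    have hbn : b < n := Finset.mem_range.1 (Finset.mem_filter.1 hbJ).1
    have hS : D ≤ n * (1 / (16 * K)) + ((b : ℝ) - a + 1) * K := by
      refine hsum.trans ((Finset.sum_le_sum hterm).trans ?_)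
      rw [Finset.sum_add_distrib, Finset.sum_const, Finset.card_range, nsmul_eq_mul,
        ← Finset.sum_filter, Finset.sum_const, nsmul_eq_mul]
      have hcard : ((Finset.filter (fun j => j ∈ Finset.Icc a b) (Finset.range n)).card : ℝ) ≤
          (b : ℝ) - a + 1 := by
        have h1 : (Finset.filter (fun j => j ∈ Finset.Icc a b) (Finset.range n)).card ≤
            (Finset.Icc a b).card := by
          apply Finset.card_le_card
          intro j hj
          exact (Finset.mem_filter.1 hj).2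
        have h2 : (Finset.Icc a b).card = b + 1 - a := Nat.card_Icc a b
        have h3 : ((b + 1 - a : ℕ) : ℝ) = (b : ℝ) - a + 1 := by
          rw [Nat.cast_sub (by omega)]
          push_cast
          ring
        rw [← h3, ← h2]
        exact_mod_cast h1
      have := mul_le_mul_of_nonneg_right hcard hK0.le
      linarith
    have hba : L / 4 ≤ ((b : ℝ) - a) * K ^ 2 := by
      have h1 : K * D ≤ L / 8 + ((b : ℝ) - a + 1) * K ^ 2 := by
        have := mul_le_mul_of_nonneg_left hS hK0.le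
        nlinarith
      nlinarith
    refine ⟨(a : ℝ) / n, (b : ℝ) / n, by positivity, ?_, ?_, ?_, ?_, ?_⟩
    · exact div_le_div_of_nonneg_right (by exact_mod_cast hab) hnpos.le
    · rw [div_le_one hnpos]
      exact_mod_cast hbn.le
    · rw [← sub_div, le_div_iff₀ hnpos, one_div, inv_mul_le_iff₀ (by positivity)]
      nlinarith
    · exact (Finset.mem_filter.1 haJ).2
    · exact (Finset.mem_filter.1 hbJ).2
  · exfalso
    have hterm : ∀ j ∈ Finset.range n, ‖φ (p j) - φ (p (j + 1))‖ ≤ 1 / (16 * K) := by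
      intro j hj
      apply hb2
      by_contra hcon
      exact hne ⟨j, Finset.mem_filter.2 ⟨hj, not_lt.1 hcon⟩⟩
    have hS : D ≤ n * (1 / (16 * K)) := by
      refine hsum.trans ((Finset.sum_le_sum hterm).trans ?_)
      rw [Finset.sum_const, Finset.card_range, nsmul_eq_mul]
    have := mul_le_mul_of_nonneg_left hS hK0.le
    nlinarith

end QIG
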