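import Pool.Agent.W_a51130_h62.LQDefs

/-!
Lemma Q, step 4: if the set `A = {r ≤ R₁}` is empty or has bounded diameter, `r` grows linearly.

PROOF.  Case `A = ∅`: choose `b` with `r b ≤ r x + 1` for all `x` (`r ≥ 0`, infimum).  For `x` let `ρ = r x + 1`:
`r b ≤ ρ`, `r x ≤ ρ`, and `ρ ≥ R₁` because `r x > R₁`.  If `C₃ρ ≤ ‖x-b‖`, `SegProp` gives a point of `A`, a
contradiction.  So `‖x-b‖ ≤ C₃(1 + r x)`.
Case `b ∈ A`: for `x` let `ρ = max (r x) R₁`.  If `C₃ρ ≤ ‖x-b‖`, `SegProp` gives two points of `A` at distance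
`≥ c₂‖x-b‖`, so `‖x-b‖ ≤ D/c₂`.  Hence always `‖x-b‖ ≤ C₃(r x + R₁) + D/c₂`.
-/

namespace QIG

theorem small_case {m : ℕ} {K R₁ C₃ c₂ : ℝ} (hK : 1 ≤ K) (hR : 1 ≤ R₁) (hC : 1 ≤ C₃)
    (hc : 0 < c₂) (hS : SegProp m K R₁ C₃ c₂) (D : ℝ) (hD : 0 ≤ D) :
    ∃ R₂ : ℝ, 0 ≤ R₂ ∧ ∀ (r : E m → ℝ) (φ : E m → E m), QH r φ K →
      (∀ a a', r a ≤ R₁ → r a' ≤ R₁ → ‖a - a'‖ ≤ D) → ∃ b, ∀ x, ‖x - b‖ ≤ R₂ * (1 + r x) := by
  have hDc : 0 ≤ D / c₂ := div_nonneg hD hc.le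
  refine ⟨C₃ * (1 + R₁) + D / c₂, by positivity, ?_⟩
  intro r φ hQ hA
  by_cases hne : ∃ b, r b ≤ R₁
  · obtain ⟨b, hb⟩ := hne
    refine ⟨b, fun x => ?_⟩
    have hr := hQ.nonneg x
    by_cases hlt : C₃ * max (r x) R₁ ≤ ‖x - b‖
    · obtain ⟨s, t, hs, hst, ht, hct, h1, h2⟩ := hS r φ hQ b x (max (r x) R₁)
        (le_max_right _ _) (hb.trans (le_max_right _ _)) (le_max_left _ _) hlt
      have h3 := hA _ _ h2 h1
      have h4 : b + t • (x - b) - (b + s • (x - b)) = (t - s) • (x - b) := by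
        rw [sub_smul]; abel
      rw [h4, norm_smul, Real.norm_eq_abs, abs_of_nonneg (by linarith)] at h3
      have h5 : c₂ * ‖x - b‖ ≤ D :=
        (mul_le_mul_of_nonneg_right hct (norm_nonneg _)).trans h3
      have h6 : ‖x - b‖ ≤ D / c₂ := by
        rw [le_div_iff₀ hc]; linarith
      have h7 : 0 ≤ C₃ * (1 + R₁) * (1 + r x) := by positivity
      have h8 : 0 ≤ D / c₂ * r x := mul_nonneg hDc hr
      nlinarith
    · push Not at hlt
      have h1 : max (r x) R₁ ≤ r x + R₁ := max_le (by linarith) (by linarith)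
      have h2 : ‖x - b‖ ≤ C₃ * (r x + R₁) :=
        hlt.le.trans (mul_le_mul_of_nonneg_left h1 (by linarith))
      have h3 : 0 ≤ C₃ * R₁ * r x := by positivity
      have h8 : 0 ≤ D / c₂ * (1 + r x) := mul_nonneg hDc (by linarith)
      nlinarith
  · push Not at hne
    have hbdd : BddBelow (Set.range r) := ⟨0, by rintro _ ⟨x, rfl⟩; exact hQ.nonneg x⟩
    obtain ⟨b, hb⟩ := exists_lt_of_ciInf_lt (f := r) (lt_add_one (⨅ x, r x))
    refine ⟨b, fun x => ?_⟩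
    have hr := hQ.nonneg x
    have hbx : r b ≤ r x + 1 := by
      have := ciInf_le hbdd x
      linarith
    have hlt : ‖x - b‖ < C₃ * (r x + 1) := by
      by_contra hcon
      push Not at hcon
      have hx := hne x
      obtain ⟨s, t, hs, hst, ht, hct, h1, h2⟩ := hS r φ hQ b x (r x + 1) (by linarith) hbx
        (by linarith) hcon
      exact absurd h1 (not_le.2 (hne _))
    have h3 : 0 ≤ C₃ * R₁ * (1 + r x) := by positivity
    have h8 : 0 ≤ D / c₂ * (1 + r x) := mul_nonneg hDc (by linarith)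
    nlinarith

end QIG
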