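import Pool.Agent.W_a51130_h62.LQDefs

/-!
Lemma Q, step 2: inverse square sums along a line, and the detour lemma.

PROOF of `line_sum_le`.  Let `t₀` be the real number for which `c + t₀ v` is the point of the line nearest to
`a`; then `‖c + i v - a‖ ≥ |i - t₀| ‖v‖ ≥ |i-t₀|/2`, and also `≥ δ`.  So with `x = i - t₀` each term is at most
`5/(δ²+x²)`, and `1/(δ²+x²) ≤ (4/δ) (F (x+1) - F x)` with `F x = x/(δ+|x|)`, `|F| ≤ 1`; the sum telescopes.

PROOF of `detour`.  Translate: `a = 0`.  If the segment `[b,x]` avoids the open ball of radius `δ/4`, take `z = x`.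
Otherwise `y ∈ [b,x]` with `‖y‖ < δ/4`.  Let `e` be a unit vector orthogonal to `x - b` (`m ≥ 2`), `z = y + 2δ e`.
A point of `[b,z]` is `y + (1-s)(b - y) + 2 s δ e`, `s ∈ [0,1]`; as `b - y` is a multiple of `x - b`, its distance to
`y` has square `(1-s)²‖b-y‖² + 4s²δ² ≥ δ²((3/4)²(1-s)² + 4s²) ≥ δ²/4` (`‖b-y‖ ≥ δ - δ/4`), so its norm is
`≥ δ/2 - δ/4`.  The same for `[z,x]`.
-/

namespace QIG

/-- the function whose differences dominate the summands -/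
noncomputable def lqF (δ x : ℝ) : ℝ := x / (δ + |x|)

theorem lqF_abs_le {δ : ℝ} (hδ : 1 ≤ δ) (x : ℝ) : |lqF δ x| ≤ 1 := by
  unfold lqF
  have h1 : 0 < δ + |x| := by positivity
  rw [abs_div, abs_of_pos h1, div_le_one h1]
  linarith

theorem lq_step {δ : ℝ} (hδ : 1 ≤ δ) (x : ℝ) :
    1 / (δ ^ 2 + x ^ 2) ≤ 4 / δ * (lqF δ (x + 1) - lqF δ x) := by
  have hδ0 : 0 < δ := by linarith
  have hpos : 0 < δ ^ 2 + x ^ 2 := by positivity
  unfold lqF
  rcases le_or_gt 0 x with hx | hx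
  · have h1 : 4 / δ * ((x + 1) / (δ + |x + 1|) - x / (δ + |x|)) = 4 / ((δ + x) * (δ + x + 1)) := by
      rw [abs_of_nonneg hx, abs_of_nonneg (by linarith : (0 : ℝ) ≤ x + 1)]
      have h2 : δ + x ≠ 0 := by positivity
      have h3 : δ + x + 1 ≠ 0 := by positivity
      have h4 : δ + (x + 1) ≠ 0 := by positivity
      field_simp
      ring
    rw [h1, div_le_div_iff₀ hpos (by positivity)]
    nlinarith [sq_nonneg (δ - x)]
  · rcases le_or_gt x (-1) with hx1 | hx1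
    · have h1 : 4 / δ * ((x + 1) / (δ + |x + 1|) - x / (δ + |x|)) =
          4 / ((δ - x) * (δ - x - 1)) := by
        rw [abs_of_neg hx, abs_of_nonpos (by linarith : x + 1 ≤ 0)]
        have h2 : δ - x ≠ 0 := by
          have : 0 < δ - x := by linarith
          positivity
        have h3 : δ - x - 1 ≠ 0 := by
          have : 0 < δ - x - 1 := by linarith
          positivity
        have h4 : δ + -(x + 1) ≠ 0 := by
          intro h
          apply h3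
          linarith
        have h5 : δ + -x ≠ 0 := by
          intro h
          apply h2
          linarith
        field_simp
        ring
      have h6 : 0 < (δ - x) * (δ - x - 1) := mul_pos (by linarith) (by linarith)
      rw [h1, div_le_div_iff₀ hpos h6]
      nlinarith [sq_nonneg (δ + x)]
    · have h1 : 1 / (2 * δ) ≤ (x + 1) / (δ + |x + 1|) - x / (δ + |x|) := by
        rw [abs_of_neg hx, abs_of_pos (by linarith : (0 : ℝ) < x + 1)]
        have h2 : (x + 1) / (2 * δ) ≤ (x + 1) / (δ + (x + 1)) :=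
          div_le_div_of_nonneg_left (by linarith) (by linarith) (by linarith)
        have h3 : (-x) / (2 * δ) ≤ (-x) / (δ + -x) :=
          div_le_div_of_nonneg_left (by linarith) (by linarith) (by linarith)
        have h4 : 1 / (2 * δ) = (x + 1) / (2 * δ) + (-x) / (2 * δ) := by
          rw [← add_div]
          congr 1
          ring
        have h5 : (-x) / (δ + -x) = -(x / (δ + -x)) := by rw [neg_div]
        rw [h4]
        linarith
      have h2 : 4 / δ * (1 / (2 * δ)) = 2 / δ ^ 2 := by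
        field_simp
        ring
      calc 1 / (δ ^ 2 + x ^ 2) ≤ 1 / δ ^ 2 :=
            one_div_le_one_div_of_le (by positivity) (by nlinarith [sq_nonneg x])
        _ ≤ 2 / δ ^ 2 := by gcongr; norm_num
        _ = 4 / δ * (1 / (2 * δ)) := h2.symm
        _ ≤ 4 / δ * ((x + 1) / (δ + |x + 1|) - x / (δ + |x|)) :=
            mul_le_mul_of_nonneg_left h1 (by positivity)

theorem lq_line {m : ℕ} (a c v : E m) (hv1 : 1 / 2 ≤ ‖v‖) :
    ∃ t₀ : ℝ, ∀ i : ℝ, |i - t₀| / 2 ≤ ‖c + i • v - a‖ := by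
  have hv : 0 < ‖v‖ := by linarith
  refine ⟨inner ℝ (a - c) v / ‖v‖ ^ 2, fun i => ?_⟩
  have h1 : inner ℝ (c + i • v - a) v = (i - inner ℝ (a - c) v / ‖v‖ ^ 2) * ‖v‖ ^ 2 := by
    have h2 : c + i • v - a = i • v - (a - c) := by abel
    rw [h2, inner_sub_left, inner_smul_left, real_inner_self_eq_norm_sq]
    field_simp
    simp only [conj_trivial]
    ring
  have h3 := abs_real_inner_le_norm (c + i • v - a) v
  rw [h1, abs_mul, abs_of_nonneg (by positivity : (0 : ℝ) ≤ ‖v‖ ^ 2)] at h3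
  have h4 : |i - inner ℝ (a - c) v / ‖v‖ ^ 2| * ‖v‖ ≤ ‖c + i • v - a‖ := by
    refine le_of_mul_le_mul_right ?_ hv
    calc |i - inner ℝ (a - c) v / ‖v‖ ^ 2| * ‖v‖ * ‖v‖ =
          |i - inner ℝ (a - c) v / ‖v‖ ^ 2| * ‖v‖ ^ 2 := by ring
      _ ≤ _ := h3
  have h5 := abs_nonneg (i - inner ℝ (a - c) v / ‖v‖ ^ 2)
  nlinarith

theorem line_sum_le {m : ℕ} (a c v : E m) (hv1 : 1 / 2 ≤ ‖v‖) (δ : ℝ) (hδ : 1 ≤ δ)
    (N : ℕ) (h : ∀ i < N, δ ≤ ‖c + (i : ℝ) • v - a‖) :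
    ∑ i ∈ Finset.range N, 1 / ‖c + (i : ℝ) • v - a‖ ^ 2 ≤ 40 / δ := by
  obtain ⟨t₀, ht⟩ := lq_line a c v hv1
  have hδ0 : 0 < δ := by linarith
  have hterm : ∀ i ∈ Finset.range N, 1 / ‖c + (i : ℝ) • v - a‖ ^ 2 ≤
      20 / δ * (lqF δ (((i + 1 : ℕ) : ℝ) - t₀) - lqF δ ((i : ℝ) - t₀)) := by
    intro i hi
    have h1 := h i (Finset.mem_range.1 hi)
    have h2 := ht i
    set D := ‖c + (i : ℝ) • v - a‖ with hD
    set x : ℝ := (i : ℝ) - t₀ with hx
    have h3 : x ^ 2 ≤ 4 * D ^ 2 := by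
      have h4 : |x| ^ 2 ≤ (2 * D) ^ 2 := pow_le_pow_left₀ (abs_nonneg _) (by linarith) 2
      rw [sq_abs] at h4
      linarith
    have h4 : δ ^ 2 ≤ D ^ 2 := pow_le_pow_left₀ hδ0.le h1 2
    have h5 : 0 < D ^ 2 := lt_of_lt_of_le (by positivity) h4
    have h6 : 1 / D ^ 2 ≤ 5 * (1 / (δ ^ 2 + x ^ 2)) := by
      rw [mul_one_div, div_le_div_iff₀ h5 (by positivity)]
      linarith
    have h7 := lq_step hδ x
    have h8 : ((i + 1 : ℕ) : ℝ) - t₀ = x + 1 := by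
      rw [hx]
      push_cast
      ring
    rw [h8]
    calc 1 / D ^ 2 ≤ 5 * (1 / (δ ^ 2 + x ^ 2)) := h6
      _ ≤ 5 * (4 / δ * (lqF δ (x + 1) - lqF δ x)) := by linarith
      _ = 20 / δ * (lqF δ (x + 1) - lqF δ x) := by ring
  refine (Finset.sum_le_sum hterm).trans ?_
  rw [← Finset.mul_sum, Finset.sum_range_sub (fun i : ℕ => lqF δ ((i : ℝ) - t₀))]
  have h1 := lqF_abs_le hδ (((N : ℕ) : ℝ) - t₀)
  have h2 := lqF_abs_le hδ (((0 : ℕ) : ℝ) - t₀)
  have h3 : lqF δ (((N : ℕ) : ℝ) - t₀) - lqF δ (((0 : ℕ) : ℝ) - t₀) ≤ 2 := by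
    have := (abs_le.1 h1).2
    have := (abs_le.1 h2).1
    linarith
  calc 20 / δ * (lqF δ (((N : ℕ) : ℝ) - t₀) - lqF δ (((0 : ℕ) : ℝ) - t₀)) ≤ 20 / δ * 2 :=
        mul_le_mul_of_nonneg_left h3 (by positivity)
    _ = 40 / δ := by ring

theorem lq_half {m : ℕ} (a y b e : E m) {δ : ℝ} (hδ : 0 < δ) (he : ‖e‖ = 1)
    (horth : inner ℝ (b - y) e = 0) (hy : ‖y - a‖ ≤ δ / 4) (hb : δ ≤ ‖b - a‖) (s : ℝ) :
    δ / 4 ≤ ‖b + s • ((y + (2 * δ) • e) - b) - a‖ := by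
  have h1 : b + s • ((y + (2 * δ) • e) - b) - a =
      ((1 - s) • (b - y) + (2 * s * δ) • e) - (a - y) := by
    module
  have h2 : ‖b - a‖ ≤ ‖b - y‖ + ‖y - a‖ := by
    have : b - a = (b - y) + (y - a) := by abel
    rw [this]
    exact norm_add_le _ _
  have h3 : 3 / 4 * δ ≤ ‖b - y‖ := by linarith
  have h4 : ‖(1 - s) • (b - y) + (2 * s * δ) • e‖ ^ 2 =
      (1 - s) ^ 2 * ‖b - y‖ ^ 2 + 4 * s ^ 2 * δ ^ 2 := by
    rw [norm_add_sq_real, inner_smul_left, inner_smul_right, horth, norm_smul, norm_smul, he,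
      mul_pow, mul_pow, Real.norm_eq_abs, Real.norm_eq_abs, sq_abs, sq_abs]
    simp
    ring
  have h5 : δ / 2 ≤ ‖(1 - s) • (b - y) + (2 * s * δ) • e‖ := by
    refine le_of_sq_le_sq ?_ (norm_nonneg _)
    rw [h4]
    have h6 : (3 / 4 * δ) ^ 2 ≤ ‖b - y‖ ^ 2 := pow_le_pow_left₀ (by positivity) h3 2
    have h7 : (1 - s) ^ 2 * (3 / 4 * δ) ^ 2 ≤ (1 - s) ^ 2 * ‖b - y‖ ^ 2 :=
      mul_le_mul_of_nonneg_left h6 (sq_nonneg _)
    have h8 : (δ / 2) ^ 2 ≤ (1 - s) ^ 2 * (3 / 4 * δ) ^ 2 + 4 * s ^ 2 * δ ^ 2 := by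
      have h9 : 0 ≤ δ ^ 2 * ((1 - s) ^ 2 * (9 / 16) + 4 * s ^ 2 - 1 / 4) := by
        refine mul_nonneg (sq_nonneg _) ?_
        nlinarith [sq_nonneg (73 * s - 9)]
      nlinarith
    linarith
  have h6 : ‖a - y‖ ≤ δ / 4 := by rw [norm_sub_rev]; exact hy
  rw [h1]
  have h7 := norm_sub_norm_le ((1 - s) • (b - y) + (2 * s * δ) • e) (a - y)
  linarith

theorem lq_orth {m : ℕ} (hm : 2 ≤ m) (w : E m) : ∃ e : E m, ‖e‖ = 1 ∧ inner ℝ w e = 0 := by
  have h1 : Module.finrank ℝ ℝ < Module.finrank ℝ (E m) := by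
    rw [finrank_euclideanSpace_fin, Module.finrank_self]
    omega
  have h2 : LinearMap.ker ((innerSL ℝ w : E m →L[ℝ] ℝ) : E m →ₗ[ℝ] ℝ) ≠ ⊥ :=
    LinearMap.ker_ne_bot_of_finrank_lt h1
  obtain ⟨e, he, hne⟩ := Submodule.exists_mem_ne_zero_of_ne_bot h2
  have hn : ‖e‖ ≠ 0 := norm_ne_zero_iff.2 hne
  refine ⟨‖e‖⁻¹ • e, ?_, ?_⟩
  · rw [norm_smul, norm_inv, norm_norm, inv_mul_cancel₀ hn]
  · have h3 : inner ℝ w e = 0 := by simpa using he
    rw [inner_smul_right, h3, mul_zero]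

theorem detour {m : ℕ} (hm : 2 ≤ m) (a b x : E m) {δ : ℝ} (hδ : 0 < δ) (hb : δ ≤ ‖b - a‖)
    (hx : δ ≤ ‖x - a‖) :
    ∃ z : E m, (∀ s : ℝ, 0 ≤ s → s ≤ 1 → δ / 4 ≤ ‖b + s • (z - b) - a‖) ∧
      ∀ s : ℝ, 0 ≤ s → s ≤ 1 → δ / 4 ≤ ‖z + s • (x - z) - a‖ := by
  by_cases hav : ∀ s : ℝ, 0 ≤ s → s ≤ 1 → δ / 4 ≤ ‖b + s • (x - b) - a‖
  · refine ⟨x, hav, fun s _ _ => ?_⟩
    rw [sub_self, smul_zero, add_zero]
    linarith
  · push Not at hav
    obtain ⟨s₀, h0, h1, hlt⟩ := hav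
    obtain ⟨e, he, horth⟩ := lq_orth hm (x - b)
    set y : E m := b + s₀ • (x - b) with hy
    have hby : inner ℝ (b - y) e = 0 := by
      have h2 : b - y = (-s₀) • (x - b) := by
        rw [hy]
        module
      rw [h2, inner_smul_left, horth, mul_zero]
    have hxy : inner ℝ (x - y) e = 0 := by
      have h2 : x - y = (1 - s₀) • (x - b) := by
        rw [hy]
        module
      rw [h2, inner_smul_left, horth, mul_zero]
    refine ⟨y + (2 * δ) • e, fun s _ _ => lq_half a y b e hδ he hby hlt.le hb s, fun s _ _ => ?_⟩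
    have h3 := lq_half a y x e hδ he hxy hlt.le hx (1 - s)
    have h4 : (y + (2 * δ) • e) + s • (x - (y + (2 * δ) • e)) - a =
        x + (1 - s) • ((y + (2 * δ) • e) - x) - a := by
      module
    rw [h4]
    exact h3

end QIG
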