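import Pool.Agent.W_a51130_h62.LQSeg
import Pool.Agent.W_a51130_h62.LQSmall
import Pool.Agent.W_a51130_h62.LQFar

/-!
Lemma Q (dichotomy).

PROOF.  Take `R₁, C₃, c₂` from `exists_segProp`, `D` from `far_case`, `R₂` from `small_case` with `2D`.
`R* = max R₂ (R₁ + K(D+2))`.  If `r x ≤ R*` for all `x`, done.  Otherwise `r b₀ > R*`.  If `A = {r ≤ R₁}` is empty,
`small_case` applies.  Otherwise let `a₀` be a touching point of `b₀`; `r b₀ ≤ r a₀ + K(‖b₀-a₀‖+1)` gives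
`‖b₀-a₀‖ ≥ D`; by `far_case` every `a ∈ A` has `‖a-a₀‖ < D`, so `A` has diameter `≤ 2D`; `small_case`.
-/

namespace QIG

/-- touching points exist -/
theorem lemQ_exists_touch {m : ℕ} (r : E m → ℝ) (R₁ : ℝ) (b : E m) (h : ∃ a, r a ≤ R₁) :
    ∃ a, Touch r R₁ a b := by
  obtain ⟨a₁, ha₁⟩ := h
  have hne : (((fun a => ‖b - a‖) '' {a | r a ≤ R₁}) : Set ℝ).Nonempty := ⟨_, a₁, ha₁, rfl⟩
  have hbdd : BddBelow ((fun a => ‖b - a‖) '' {a | r a ≤ R₁}) := by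
    refine ⟨0, ?_⟩
    rintro _ ⟨a, -, rfl⟩
    exact norm_nonneg _
  obtain ⟨_, ⟨a, ha, rfl⟩, hlt⟩ := Real.lt_sInf_add_pos hne one_pos
  refine ⟨a, ha, fun a' ha' => ?_⟩
  have h1 : sInf ((fun a => ‖b - a‖) '' {a | r a ≤ R₁}) ≤ ‖b - a'‖ := csInf_le hbdd ⟨a', ha', rfl⟩
  simp only at hlt
  linarith

theorem lemma_Q {m : ℕ} (hm : 2 ≤ m) {K : ℝ} (hK : 1 ≤ K) :
    ∃ R : ℝ, 0 ≤ R ∧ ∀ (r : E m → ℝ) (φ : E m → E m), QH r φ K →
      (∀ x, r x ≤ R) ∨ ∃ b, ∀ x, ‖x - b‖ ≤ R * (1 + r x) := by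
  obtain ⟨R₁, C₃, c₂, hR₁, hC₃, hc₂, hS⟩ := exists_segProp m hK
  obtain ⟨D, hD, hfar⟩ := far_case hm hK hR₁ hC₃ hc₂ hS
  obtain ⟨R₂, hR₂, hsmall⟩ := small_case hK hR₁ hC₃ hc₂ hS (2 * D) (by linarith)
  refine ⟨max R₂ (R₁ + K * (D + 2)), le_max_of_le_left hR₂, fun r φ hQ => ?_⟩
  by_cases hall : ∀ x, r x ≤ max R₂ (R₁ + K * (D + 2))
  · exact Or.inl hall
  · right
    push Not at hall
    obtain ⟨b₀, hb₀⟩ := hall
    have hdiam : ∀ a a', r a ≤ R₁ → r a' ≤ R₁ → ‖a - a'‖ ≤ 2 * D := by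
      intro a a' ha ha'
      obtain ⟨a₀, ha₀⟩ := lemQ_exists_touch r R₁ b₀ ⟨a, ha⟩
      have h1 : D ≤ ‖b₀ - a₀‖ := by
        have h2 := (abs_le.mp (hQ.lip b₀ a₀)).2
        have h3 : R₁ + K * (D + 2) < r b₀ := lt_of_le_of_lt (le_max_right _ _) hb₀
        have h4 := ha₀.1
        have h5 : K * (D + 2) < K * (‖b₀ - a₀‖ + 1) := by linarith
        have h6 := lt_of_mul_lt_mul_left h5 (by linarith : (0 : ℝ) ≤ K)
        linarith
      have key : ∀ c, r c ≤ R₁ → ‖c - a₀‖ < D := by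
        intro c hc
        by_contra hge
        have := hfar r φ hQ a₀ b₀ ha₀ h1 c (not_lt.mp hge)
        linarith
      have k1 := key a ha
      have k2 := key a' ha'
      have k3 : ‖a - a'‖ ≤ ‖a - a₀‖ + ‖a' - a₀‖ := by
        have : a - a' = (a - a₀) - (a' - a₀) := by abel
        rw [this]; exact norm_sub_le _ _
      linarith
    obtain ⟨b, hb⟩ := hsmall r φ hQ hdiam
    refine ⟨b, fun x => (hb x).trans ?_⟩
    have := hQ.nonneg x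
    exact mul_le_mul_of_nonneg_right (le_max_left _ _) (by linarith)

end QIG
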