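import Pool.Agent.W_a51130_h62.Defs

/-!
Coarsely bi-Lipschitz maps of `R^m` have large scale linear approximations.

PROOF.  Let `U` be a non-principal ultrafilter on `ℕ` (`Filter.hyperfilter ℕ`), `G n x = ω (n x)/n`.  For every `x` the
sequence `G n x` is bounded (`‖G n x‖ ≤ (‖ω 0‖ + K(n‖x‖+1))/n`), so it converges along `U` (closed balls are compact) to
`G x`.  `G` is `K`-Lipschitz and `‖x-y‖ ≤ K‖G x-G y‖`.  By Rademacher (`LipschitzWith.ae_differentiableAt`) `G` is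
differentiable at some point `x₀`, with derivative `A`; `‖v‖ ≤ K‖A v‖`, so `A` is injective.
Given `δ, R₀`: choose `r > 0` with `‖G x - G x₀ - A(x-x₀)‖ ≤ (δ/4) r` for `‖x-x₀‖ ≤ r`.  Take a finite `ε`-net `N` of the
closed ball, `ε = δ r/(8(K+‖A‖+1))`.  For `U`-many `n` (in particular for some `n` with `n r ≥ R₀` and `2K/(n) ≤ δ r/8`...)
`‖G n x - G x‖ ≤ (δ/8) r` for all `x ∈ N`, hence `‖G n x - G x₀ - A(x-x₀)‖ ≤ δ r` for all `x` in the ball
(`‖G n x - G n y‖ ≤ K‖x-y‖ + K/n`).  Multiply by `n`: with center `n x₀`, `c = n G x₀`, `R = n r`.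
-/

open Filter Topology

namespace QIG

variable {m : ℕ}

/-- The rescaled map. -/
noncomputable def linResc (ω : E m → E m) (n : ℕ) (x : E m) : E m :=
  ((n : ℝ) + 1)⁻¹ • ω (((n : ℝ) + 1) • x)

theorem linResc_le {ω : E m → E m} {K : ℝ} (h1 : ∀ x y, ‖ω x - ω y‖ ≤ K * (‖x - y‖ + 1)) (n : ℕ)
    (x y : E m) : ‖linResc ω n x - linResc ω n y‖ ≤ K * ‖x - y‖ + K * ((n : ℝ) + 1)⁻¹ := by
  have hs : (0 : ℝ) < (n : ℝ) + 1 := by positivity
  unfold linResc
  rw [← smul_sub, norm_smul, norm_inv, Real.norm_of_nonneg hs.le]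
  have h := h1 (((n : ℝ) + 1) • x) (((n : ℝ) + 1) • y)
  rw [← smul_sub, norm_smul, Real.norm_of_nonneg hs.le] at h
  calc ((n : ℝ) + 1)⁻¹ * ‖ω (((n : ℝ) + 1) • x) - ω (((n : ℝ) + 1) • y)‖
      ≤ ((n : ℝ) + 1)⁻¹ * (K * (((n : ℝ) + 1) * ‖x - y‖ + 1)) :=
        mul_le_mul_of_nonneg_left h (inv_nonneg.2 hs.le)
    _ = K * ‖x - y‖ + K * ((n : ℝ) + 1)⁻¹ := by
        field_simp

theorem linResc_ge {ω : E m → E m} {K : ℝ} (h2 : ∀ x y, ‖x - y‖ ≤ K * (‖ω x - ω y‖ + 1)) (n : ℕ)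
    (x y : E m) : ‖x - y‖ ≤ K * ‖linResc ω n x - linResc ω n y‖ + K * ((n : ℝ) + 1)⁻¹ := by
  have hs : (0 : ℝ) < (n : ℝ) + 1 := by positivity
  unfold linResc
  rw [← smul_sub, norm_smul, norm_inv, Real.norm_of_nonneg hs.le]
  have h := h2 (((n : ℝ) + 1) • x) (((n : ℝ) + 1) • y)
  rw [← smul_sub, norm_smul, Real.norm_of_nonneg hs.le] at h
  have h3 : ‖x - y‖ = ((n : ℝ) + 1)⁻¹ * (((n : ℝ) + 1) * ‖x - y‖) := by
    field_simp
  rw [h3]
  calc ((n : ℝ) + 1)⁻¹ * (((n : ℝ) + 1) * ‖x - y‖)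
      ≤ ((n : ℝ) + 1)⁻¹ * (K * (‖ω (((n : ℝ) + 1) • x) - ω (((n : ℝ) + 1) • y)‖ + 1)) :=
        mul_le_mul_of_nonneg_left h (inv_nonneg.2 hs.le)
    _ = _ := by ring

theorem linResc_tendsto_inv :
    Tendsto (fun n : ℕ => ((n : ℝ) + 1)⁻¹) (hyperfilter ℕ : Filter ℕ) (𝓝 0) := by
  have h : Tendsto (fun n : ℕ => ((n : ℝ) + 1)⁻¹) atTop (𝓝 0) := by
    have := tendsto_one_div_add_atTop_nhds_zero_nat (𝕜 := ℝ)
    simpa [one_div] using this
  exact h.mono_left Nat.hyperfilter_le_atTop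

theorem linResc_limit {ω : E m → E m} {K : ℝ} (hK : 0 ≤ K)
    (h1 : ∀ x y, ‖ω x - ω y‖ ≤ K * (‖x - y‖ + 1)) (x : E m) :
    ∃ y, Tendsto (fun n => linResc ω n x) (hyperfilter ℕ : Filter ℕ) (𝓝 y) := by
  have hb : ∀ n : ℕ, linResc ω n x ∈ Metric.closedBall (0 : E m) (K * ‖x‖ + K + ‖ω 0‖) := by
    intro n
    have hs : (0 : ℝ) < (n : ℝ) + 1 := by positivity
    have hs1 : ((n : ℝ) + 1)⁻¹ ≤ 1 := by
      apply inv_le_one_of_one_le₀
      have : (0 : ℝ) ≤ n := Nat.cast_nonneg n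
      linarith
    rw [mem_closedBall_zero_iff]
    have h := linResc_le h1 n x 0
    have h0 : ‖linResc ω n 0‖ ≤ ‖ω 0‖ := by
      unfold linResc
      rw [smul_zero, norm_smul, norm_inv, Real.norm_of_nonneg hs.le]
      calc ((n : ℝ) + 1)⁻¹ * ‖ω 0‖ ≤ 1 * ‖ω 0‖ := mul_le_mul_of_nonneg_right hs1 (norm_nonneg _)
        _ = ‖ω 0‖ := one_mul _
    have h3 : ‖linResc ω n x‖ ≤ ‖linResc ω n x - linResc ω n 0‖ + ‖linResc ω n 0‖ := by
      calc ‖linResc ω n x‖ = ‖(linResc ω n x - linResc ω n 0) + linResc ω n 0‖ := by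
            rw [sub_add_cancel]
        _ ≤ _ := norm_add_le _ _
    rw [sub_zero] at h
    have h4 : K * ((n : ℝ) + 1)⁻¹ ≤ K * 1 := mul_le_mul_of_nonneg_left hs1 hK
    linarith
  have hc : IsCompact (Metric.closedBall (0 : E m) (K * ‖x‖ + K + ‖ω 0‖)) :=
    isCompact_closedBall _ _
  rw [isCompact_iff_ultrafilter_le_nhds] at hc
  obtain ⟨y, -, hy⟩ := hc ((hyperfilter ℕ).map (fun n => linResc ω n x)) (by
    rw [le_principal_iff]
    exact Filter.mem_map.2 (Filter.univ_mem' hb))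
  exact ⟨y, hy⟩

theorem linResc_diff {G : E m → E m} {A : E m →L[ℝ] E m} {x₀ : E m} (h : HasFDerivAt G A x₀)
    {ε : ℝ} (hε : 0 < ε) :
    ∃ r : ℝ, 0 < r ∧ ∀ x, ‖x - x₀‖ ≤ r → ‖G x - G x₀ - A (x - x₀)‖ ≤ ε * ‖x - x₀‖ := by
  have h1 := (h.isLittleO).def hε
  rw [Metric.eventually_nhds_iff] at h1
  obtain ⟨r, hr, h2⟩ := h1
  refine ⟨r / 2, by positivity, ?_⟩
  intro x hx
  apply h2
  rw [dist_eq_norm]
  linarith

theorem exists_linear_approx (ω : E m → E m) {K : ℝ}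
    (h1 : ∀ x y, ‖ω x - ω y‖ ≤ K * (‖x - y‖ + 1)) (h2 : ∀ x y, ‖x - y‖ ≤ K * (‖ω x - ω y‖ + 1)) :
    ∃ A : E m →L[ℝ] E m, Function.Injective A ∧ ∀ δ : ℝ, 0 < δ → ∀ R₀ : ℝ,
      ∃ (x₀ c : E m) (R : ℝ), 0 < R ∧ R₀ ≤ R ∧
        ∀ x, ‖x - x₀‖ ≤ R → ‖ω x - c - A (x - x₀)‖ ≤ δ * R := by
  have hK : 0 ≤ K := by simpa using h1 0 0
  choose G hG using fun x => linResc_limit hK h1 x
  have hG1 : ∀ x y, ‖G x - G y‖ ≤ K * ‖x - y‖ := by
    intro x y
    have ha : Tendsto (fun n => ‖linResc ω n x - linResc ω n y‖) (hyperfilter ℕ : Filter ℕ)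
        (𝓝 ‖G x - G y‖) := ((hG x).sub (hG y)).norm
    have hb : Tendsto (fun n : ℕ => K * ‖x - y‖ + K * ((n : ℝ) + 1)⁻¹)
        (hyperfilter ℕ : Filter ℕ) (𝓝 (K * ‖x - y‖ + K * 0)) :=
      (linResc_tendsto_inv.const_mul K).const_add _
    have := le_of_tendsto_of_tendsto' ha hb (fun n => linResc_le h1 n x y)
    simpa using this
  have hG2 : ∀ x y, ‖x - y‖ ≤ K * ‖G x - G y‖ := by
    intro x y
    have ha : Tendsto (fun n => K * ‖linResc ω n x - linResc ω n y‖ + K * ((n : ℝ) + 1)⁻¹)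
        (hyperfilter ℕ : Filter ℕ) (𝓝 (K * ‖G x - G y‖ + K * 0)) :=
      ((((hG x).sub (hG y)).norm).const_mul K).add (linResc_tendsto_inv.const_mul K)
    have := ge_of_tendsto' ha (fun n => linResc_ge h2 n x y)
    simpa using this
  have hLip : LipschitzWith ⟨K, hK⟩ G := by
    apply LipschitzWith.of_dist_le_mul
    intro x y
    rw [dist_eq_norm, dist_eq_norm]
    exact hG1 x y
  obtain ⟨x₀, hx₀⟩ := (hLip.ae_differentiableAt (μ := MeasureTheory.volume)).exists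
  set A := fderiv ℝ G x₀ with hA
  have hD : HasFDerivAt G A x₀ := hx₀.hasFDerivAt
  refine ⟨A, ?_, ?_⟩
  · -- injectivity
    rw [injective_iff_map_eq_zero]
    intro v hv
    by_contra hv0
    have hvp : 0 < ‖v‖ := norm_pos_iff.2 hv0
    have hε : 0 < 1 / (2 * (K + 1)) := by positivity
    obtain ⟨r, hr, hr2⟩ := linResc_diff hD hε
    have h3 := hr2 (x₀ + (r / ‖v‖) • v) (by
      rw [add_sub_cancel_left, norm_smul, norm_div, norm_norm, Real.norm_of_nonneg hr.le]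
      rw [div_mul_cancel₀ _ hvp.ne'])
    rw [add_sub_cancel_left, map_smul, hv, smul_zero, sub_zero] at h3
    have h4 := hG2 (x₀ + (r / ‖v‖) • v) x₀
    rw [add_sub_cancel_left] at h4
    have h5 : ‖(r / ‖v‖) • v‖ = r := by
      rw [norm_smul, norm_div, norm_norm, Real.norm_of_nonneg hr.le]
      rw [div_mul_cancel₀ _ hvp.ne']
    rw [h5] at h3 h4
    have h6 : K * ‖G (x₀ + (r / ‖v‖) • v) - G x₀‖ ≤ K * (1 / (2 * (K + 1)) * r) :=
      mul_le_mul_of_nonneg_left h3 hK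
    have h7 : K * (1 / (2 * (K + 1)) * r) < r := by
      have : K * (1 / (2 * (K + 1)) * r) = (K / (2 * (K + 1))) * r := by ring
      rw [this]
      have h8 : K / (2 * (K + 1)) < 1 := by
        rw [div_lt_one (by positivity)]
        linarith
      nlinarith
    linarith
  · intro δ hδ R₀
    obtain ⟨r, hr, hr2⟩ := linResc_diff hD (show 0 < δ / 4 by positivity)
    set ε : ℝ := δ * r / (8 * (K + ‖A‖ + 1)) with hε
    have hden : 0 < 8 * (K + ‖A‖ + 1) := by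
      have := norm_nonneg A
      positivity
    have hεp : 0 < ε := by
      rw [hε]
      positivity
    obtain ⟨t, htsub, htfin, htcov⟩ :=
      (isCompact_closedBall x₀ r).finite_cover_balls hεp
    have e1 : ∀ᶠ n in (hyperfilter ℕ : Filter ℕ), ∀ y ∈ t, ‖linResc ω n y - G y‖ ≤ δ * r / 8 := by
      rw [eventually_all_finite htfin]
      intro y _
      have h3 := (hG y)
      rw [Metric.tendsto_nhds] at h3
      have h4 := h3 (δ * r / 8) (by positivity)
      filter_upwards [h4] with n hn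
      rw [dist_eq_norm] at hn
      exact hn.le
    have e2 : ∀ᶠ n : ℕ in (hyperfilter ℕ : Filter ℕ), K * ((n : ℝ) + 1)⁻¹ ≤ δ * r / 8 := by
      have h3 : Tendsto (fun n : ℕ => K * ((n : ℝ) + 1)⁻¹) (hyperfilter ℕ : Filter ℕ)
          (𝓝 (K * 0)) := linResc_tendsto_inv.const_mul K
      rw [mul_zero] at h3
      exact h3.eventually (eventually_le_nhds (by positivity))
    have e3 : ∀ᶠ n : ℕ in (hyperfilter ℕ : Filter ℕ), R₀ ≤ ((n : ℝ) + 1) * r := by
      have h3 : ∀ᶠ n : ℕ in atTop, R₀ ≤ ((n : ℝ) + 1) * r := by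
        have h4 : Tendsto (fun n : ℕ => ((n : ℝ) + 1) * r) atTop atTop := by
          apply Tendsto.atTop_mul_const hr
          exact tendsto_atTop_add_const_right _ _ tendsto_natCast_atTop_atTop
        exact h4.eventually_ge_atTop R₀
      exact Nat.hyperfilter_le_atTop h3
    obtain ⟨n, hn1, hn2, hn3⟩ := (e1.and (e2.and e3)).exists
    have hs : (0 : ℝ) < (n : ℝ) + 1 := by positivity
    -- the estimate in the small ball
    have key : ∀ z, ‖z - x₀‖ ≤ r → ‖linResc ω n z - G x₀ - A (z - x₀)‖ ≤ δ * r := by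
      intro z hz
      have hz' : z ∈ Metric.closedBall x₀ r := by
        rw [Metric.mem_closedBall, dist_eq_norm]
        exact hz
      obtain ⟨y, hy, hzy⟩ := Set.mem_iUnion₂.1 (htcov hz')
      rw [Metric.mem_ball, dist_eq_norm] at hzy
      have hyb : ‖y - x₀‖ ≤ r := by
        have := htsub hy
        rw [Metric.mem_closedBall, dist_eq_norm] at this
        exact this
      have a1 := linResc_le h1 n z y
      have a2 := hn1 y hy
      have a3 := hr2 y hyb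
      have a4 : ‖A (y - z)‖ ≤ ‖A‖ * ‖y - z‖ := A.le_opNorm _
      have a5 : linResc ω n z - G x₀ - A (z - x₀) = (linResc ω n z - linResc ω n y) +
          (linResc ω n y - G y) + (G y - G x₀ - A (y - x₀)) + A (y - z) := by
        have : A (z - x₀) = A (y - x₀) - A (y - z) := by
          rw [← map_sub]
          congr 1
          abel
        rw [this]
        abel
      have a6 : ‖y - z‖ ≤ ε := by
        rw [norm_sub_rev]
        exact hzy.le
      have a7 : K * ‖z - y‖ ≤ K * ε := mul_le_mul_of_nonneg_left hzy.le hK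
      have a8 : ‖A‖ * ‖y - z‖ ≤ ‖A‖ * ε := mul_le_mul_of_nonneg_left a6 (norm_nonneg _)
      have a9 : (K + ‖A‖) * ε ≤ δ * r / 8 := by
        have : (K + ‖A‖ + 1) * ε = δ * r / 8 := by
          rw [hε]
          have h9 : (K + ‖A‖ + 1) ≠ 0 := by
            have := norm_nonneg A
            positivity
          field_simp
        nlinarith
      have a10 : δ / 4 * ‖y - x₀‖ ≤ δ / 4 * r := mul_le_mul_of_nonneg_left hyb (by positivity)
      have a11 : ‖linResc ω n z - G x₀ - A (z - x₀)‖ ≤ ‖linResc ω n z - linResc ω n y‖ +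
          ‖linResc ω n y - G y‖ + ‖G y - G x₀ - A (y - x₀)‖ + ‖A (y - z)‖ := by
        rw [a5]
        refine (norm_add_le _ _).trans ?_
        refine add_le_add ?_ le_rfl
        refine (norm_add_le _ _).trans ?_
        refine add_le_add ?_ le_rfl
        exact norm_add_le _ _
      have a12 : 0 < δ * r := by positivity
      nlinarith
    refine ⟨((n : ℝ) + 1) • x₀, ((n : ℝ) + 1) • G x₀, ((n : ℝ) + 1) * r, by positivity, hn3, ?_⟩
    intro x hx
    have hx1 : x = ((n : ℝ) + 1) • (((n : ℝ) + 1)⁻¹ • x) := by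
      rw [smul_smul, mul_inv_cancel₀ hs.ne', one_smul]
    set z := ((n : ℝ) + 1)⁻¹ • x with hz
    have hzb : ‖z - x₀‖ ≤ r := by
      rw [hx1, ← smul_sub, norm_smul, Real.norm_of_nonneg hs.le] at hx
      exact le_of_mul_le_mul_left hx hs
    have h3 := key z hzb
    have h4 : ω x = ((n : ℝ) + 1) • linResc ω n z := by
      unfold linResc
      rw [smul_smul, mul_inv_cancel₀ hs.ne', one_smul, ← hx1]
    rw [h4]
    have h5 : ((n : ℝ) + 1) • linResc ω n z - ((n : ℝ) + 1) • G x₀ - A (x - ((n : ℝ) + 1) • x₀) =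
        ((n : ℝ) + 1) • (linResc ω n z - G x₀ - A (z - x₀)) := by
      have h6 : x - ((n : ℝ) + 1) • x₀ = ((n : ℝ) + 1) • (z - x₀) := by
        rw [smul_sub, ← hx1]
      rw [h6, map_smul, smul_sub, smul_sub]
    rw [h5, norm_smul, Real.norm_of_nonneg hs.le]
    calc ((n : ℝ) + 1) * ‖linResc ω n z - G x₀ - A (z - x₀)‖ ≤ ((n : ℝ) + 1) * (δ * r) :=
          mul_le_mul_of_nonneg_left h3 hs.le
      _ = δ * (((n : ℝ) + 1) * r) := by ring

end QIG
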