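import Pool.Agent.W_a51130_h62.Rigid
import Pool.Agent.W_a51130_h62.CondN

/-!
The main theorems.

PROOFS.  `glue_fg`: `exists_Gl`, `exists_full`, `GSet.fg`.
`cnd_invariant`: `exists_Gl` for both, `rigidity`; if `τ = id`: `Ψ' 1 (A₀ x) = A₁ (Ψ 1 x)` (`Ψ' 0 = id`), `cnd_eq`;
if `τ` is the swap: `(Ψ' 1)⁻¹(A₀ x) = A₁(Ψ 1 x)` (as `Ψ' (τ 1) = Ψ' 0 = id`), `cnd_eq` with `(Ψ' 1).symm`, `cnd_symm`.
Linear extensions of `ψ` are unique (the lattice spans).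
-/

namespace QIG

variable {m : ℕ}

theorem glue_fg (P : Fin 2 → Piece m) (ψ : (P 0).lat ≃+ (P 1).lat) : Group.FG (Glue P ψ) := by
  obtain ⟨Ψ, h1, h2, -⟩ := exists_Gl P ψ
  let D : Gl m := ⟨P, ψ, Ψ, h1, h2⟩
  obtain ⟨X⟩ := exists_full D
  exact X.hS.fg

/-- Linear extensions from a cusp lattice are unique. -/
theorem mainthm_ext_unique (P : Piece m) {Ψ Ψ' : E m ≃L[ℝ] E m}
    (h : ∀ v : P.lat, Ψ (v : E m) = Ψ' (v : E m)) : Ψ = Ψ' := by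
  have h1 : (Ψ : E m →ₗ[ℝ] E m) = (Ψ' : E m →ₗ[ℝ] E m) := by
    apply LinearMap.ext_on P.span_lat
    intro v hv
    exact h ⟨v, hv⟩
  ext1
  ext1 x
  exact LinearMap.congr_fun h1 x

/-- Rigidity in the form: the gluing maps differ by similarities of the two walls (up to inversion). -/
theorem glue_rigid (hm : 2 ≤ m) (P P' : Fin 2 → Piece m) (ψ : (P 0).lat ≃+ (P 1).lat)
    (ψ' : (P' 0).lat ≃+ (P' 1).lat) (Ψ Ψ' : E m ≃L[ℝ] E m)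
    (hΨ : ∀ v : (P 0).lat, Ψ (v : E m) = (ψ v : E m))
    (hΨ' : ∀ v : (P' 0).lat, Ψ' (v : E m) = (ψ' v : E m))
    (h : QuasiIsom (Glue P ψ) (Glue P' ψ')) :
    ∃ (A₀ A₁ : E m →L[ℝ] E m) (σ₀ σ₁ : ℝ), 0 < σ₀ ∧ 0 < σ₁ ∧
      (∀ x, ‖A₀ x‖ = σ₀ * ‖x‖) ∧ (∀ x, ‖A₁ x‖ = σ₁ * ‖x‖) ∧
      ((∀ x, Ψ' (A₀ x) = A₁ (Ψ x)) ∨ ∀ x, Ψ'.symm (A₀ x) = A₁ (Ψ x)) := by
  obtain ⟨Θ, h1, h2, h3⟩ := exists_Gl P ψ
  obtain ⟨Θ', h1', h2', h3'⟩ := exists_Gl P' ψ'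
  have e : Θ 1 = Ψ := mainthm_ext_unique (P 0) (fun v => (h3 v).trans (hΨ v).symm)
  have e' : Θ' 1 = Ψ' := mainthm_ext_unique (P' 0) (fun v => (h3' v).trans (hΨ' v).symm)
  obtain ⟨τ, A₀, A₁, σ₀, σ₁, a1, a2, a3, a4, a5⟩ :=
    rigidity hm ⟨P, ψ, Θ, h1, h2⟩ ⟨P', ψ', Θ', h1', h2'⟩ h
  refine ⟨A₀, A₁, σ₀, σ₁, a1, a2, a3, a4, ?_⟩
  simp only at a5
  rw [e] at a5
  have hs : ∀ x, (Θ' 0).symm x = x := by
    intro x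
    rw [ContinuousLinearEquiv.symm_apply_eq]
    exact (h2' x).symm
  have hcase : (τ 0 = 0 ∧ τ 1 = 1) ∨ (τ 0 = 1 ∧ τ 1 = 0) := by
    have h01 : τ 0 ≠ τ 1 := fun hh => by
      have := τ.injective hh
      exact absurd this (by decide)
    revert h01
    generalize τ 0 = a
    generalize τ 1 = b
    revert a b
    decide
  rcases hcase with ⟨c0, c1⟩ | ⟨c0, c1⟩
  · left
    intro x
    have := a5 x
    rw [c0, c1, hs, e'] at this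
    exact this
  · right
    intro x
    have := a5 x
    rw [c0, c1, h2', e'] at this
    exact this

theorem many_gluings (hm : 2 ≤ m) (P : Fin 2 → Piece m) :
    ∃ ψ : ℕ → ((P 0).lat ≃+ (P 1).lat), ∀ i j, i ≠ j →
      ¬ QuasiIsom (Glue P (ψ i)) (Glue P (ψ j)) := by
  obtain ⟨ψ, Ψ, hΨ, hmono⟩ := exists_seq_cnd hm (P 0) (P 1)
  refine ⟨ψ, ?_⟩
  intro i j hij hQ
  have hne : cnd (Ψ j) ≠ cnd (Ψ i) := by
    rcases lt_or_gt_of_ne hij with h | h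
    · exact (hmono i j h).ne'
    · exact (hmono j i h).ne
  obtain ⟨A₀, A₁, σ₀, σ₁, a1, a2, a3, a4, a5⟩ :=
    glue_rigid hm P P (ψ i) (ψ j) (Ψ i) (Ψ j) (hΨ i) (hΨ j) hQ
  apply hne
  rcases a5 with h | h
  · exact cnd_eq (Ψ i) (Ψ j) a1 a2 a3 a4 h
  · rw [← cnd_symm]
    exact cnd_eq (Ψ i) (Ψ j).symm a1 a2 a3 a4 h

end QIG
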