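import Pool.Agent.W_a51130_h62.PcBasic
import Pool.Agent.W_a51130_h62.PcLat
import Pool.Agent.W_a51130_h62.LQSum

/-!
Low paths: any two walls `aΛ, bΛ ≠ Λ` of a piece can be joined by a path of orbit points of arbitrarily
small height (so far away from the wall `Λ`).

PROOF.
(A) Wall paths.  There are `r, C` such that for `g` not parabolic and lattice vectors `λ, λ'` with
`t(g tr λ o) ≤ ε`, `t(g tr λ' o) ≤ ε` there is a path in `gΛ` from `g tr λ` to `g tr λ'` with steps in `P.bal r`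
and all heights `≤ Cε`.  Indeed `t(g tr μ o) = s/(‖μ-b‖²+1)`, `s = bs g`, `b = bb g` (normal form).  Let `ρ` be the
covering radius.  If `s ≤ ε(64ρ²+2)` every height is `≤ s`, take lattice points near the straight segment.
Otherwise `δ² := s/ε - 1 ≥ 64ρ²`, `‖λ-b‖, ‖λ'-b‖ ≥ δ`; use `detour` (radius `δ`): two segments at distance
`≥ δ/4` from `b`; lattice points near them are at distance `≥ δ/4 - ρ ≥ δ/8` from `b`, so the heights are
`≤ s/(δ²/64+1) ≤ 128 ε`.  (Unit steps along segments, steps between nearest lattice points `≤ 1+2ρ`.)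
(B) Let `T = 4`, `r_T` from `near_or_deep 4`.  For `x` say that `γ` represents `x` if (N) `hd (γ o) x ≤ r_T`, or
(D) there is `g` with `(g⁻¹x).t > 4`, `g⁻¹γ` parabolic, and `t(γ o) ≤ x.t`; here `x.t < 4`, so `g` is not parabolic.
Every `x` with `x.t < 4` has a representative.
(C) Let `hd x x' ≤ 2`, `x.t = x'.t = ε₁`, `γ, γ'` representatives.  Then `γ, γ'` are joined by a path with steps in
`P.bal r` and heights `≤ C ε₁`.
(D) Given `ε, a, b`: choose `ε₁` small.  Horizontal chain from `(bp a, ε₁)` to `(bp b, ε₁)`.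
-/

namespace QIG

variable {m : ℕ} (P : Piece m)

theorem pcLow_tr_coe (v : P.lat) : (P.tr v).1 = transl (v : E m) := rfl

theorem pcLow_orb_mul (g h : P.Γ) : P.orb (g * h) = g.1 (P.orb h) := rfl

theorem pcLow_orb_tr (v : P.lat) : P.orb (P.tr v) = ⟨(v : E m), 1, one_pos⟩ := by
  unfold Piece.orb
  rw [pcLow_tr_coe]
  apply HPt.ext
  · simp [base]
  · simp [base]

theorem pcLow_height {g : P.Γ} (hg : ¬ P.Par g) (v : P.lat) :
    (P.orb (g * P.tr v)).t = bs g.1 / (‖(v : E m) - bb g.1‖ ^ 2 + 1) := by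
  rw [pcLow_orb_mul, pcLow_orb_tr, (P.isInv hg).t_eq]
  simp

/-- Low step. -/
def PLow (r ε : ℝ) (γ γ' : P.Γ) : Prop :=
  (P.orb γ).t ≤ ε ∧ (P.orb γ').t ≤ ε ∧ γ⁻¹ * γ' ∈ P.bal r

theorem pcLow_symm {r ε : ℝ} {γ γ' : P.Γ}
    (h : Relation.ReflTransGen (PLow P r ε) γ γ') :
    Relation.ReflTransGen (PLow P r ε) γ' γ := by
  have hs : ∀ a b, PLow P r ε a b → PLow P r ε b a := by
    intro a b hab
    refine ⟨hab.2.1, hab.1, ?_⟩
    have := P.bal_inv hab.2.2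
    rwa [mul_inv_rev, inv_inv] at this
  induction h with
  | refl => exact Relation.ReflTransGen.refl
  | tail hab hbc ih => exact Relation.ReflTransGen.head (hs _ _ hbc) ih

theorem pcLow_mono {r r' ε ε' : ℝ} (hr : r ≤ r') (hε : ε ≤ ε') {γ γ' : P.Γ}
    (h : Relation.ReflTransGen (PLow P r ε) γ γ') :
    Relation.ReflTransGen (PLow P r' ε') γ γ' :=
  Relation.ReflTransGen.mono (r := PLow P r ε) (p := PLow P r' ε') (fun _ _ hab =>
    ⟨hab.1.trans hε, hab.2.1.trans hε, P.bal_mono hr hab.2.2⟩) _ _ h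

theorem pcLow_path {r ε : ℝ} {a b : P.Γ} (h : Relation.ReflTransGen (PLow P r ε) a b)
    (ha : (P.orb a).t ≤ ε) : ∃ (n : ℕ) (p : ℕ → P.Γ), p 0 = a ∧ p n = b ∧
      (∀ i < n, (p i)⁻¹ * p (i + 1) ∈ P.bal r) ∧ ∀ i ≤ n, (P.orb (p i)).t ≤ ε := by
  induction h with
  | refl =>
    exact ⟨0, fun _ => a, rfl, rfl, fun i hi => absurd hi (Nat.not_lt_zero i), fun i _ => ha⟩
  | tail hab hbc ih =>
    rename_i b c
    obtain ⟨n, p, h0, hn, hs, hh⟩ := ih
    refine ⟨n + 1, fun i => if i ≤ n then p i else c, by simp [h0], by simp, ?_, ?_⟩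
    · intro i hi
      have hi' : i ≤ n := by omega
      simp only [hi', if_true]
      rcases Nat.lt_or_ge i n with h | h
      · have h' : i + 1 ≤ n := h
        simp only [h', if_true]
        exact hs i h
      · have hin : i = n := by omega
        subst hin
        simp only [show ¬ (i + 1 ≤ i) by omega, if_false]
        rw [hn]
        exact hbc.2.2
    · intro i hi
      by_cases h : i ≤ n
      · simp only [h, if_true]
        exact hh i h
      · simp only [h, if_false]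
        exact hbc.2.1

theorem pcLow_seg {ρ : ℝ} (hρ : ∀ x : E m, ∃ v : P.lat, ‖x - v‖ ≤ ρ) (G : P.lat → Prop)
    (x y : E m)
    (hG : ∀ s : ℝ, 0 ≤ s → s ≤ 1 → ∀ v : P.lat, ‖x + s • (y - x) - v‖ ≤ ρ → G v)
    (μ μ' : P.lat) (h0 : ‖x - μ‖ ≤ ρ) (h1 : ‖y - μ'‖ ≤ ρ) :
    Relation.ReflTransGen (fun v w : P.lat => G v ∧ G w ∧ ‖(v : E m) - w‖ ≤ 1 + 2 * ρ) μ μ' := by
  obtain ⟨N, hN⟩ := exists_nat_ge (‖y - x‖ + 1)
  have hN0 : (0 : ℝ) < N := by linarith [norm_nonneg (y - x)]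
  have key : ∀ i : ℕ, i ≤ N → ∀ ν : P.lat, ‖x + ((i : ℝ) / N) • (y - x) - ν‖ ≤ ρ →
      Relation.ReflTransGen (fun v w : P.lat => G v ∧ G w ∧ ‖(v : E m) - w‖ ≤ 1 + 2 * ρ) μ ν := by
    intro i
    induction i with
    | zero =>
      intro _ ν hν
      refine Relation.ReflTransGen.single ⟨hG 0 le_rfl zero_le_one μ (by simpa using h0),
        hG 0 le_rfl zero_le_one ν (by simpa using hν), ?_⟩
      have hν' : ‖x - ν‖ ≤ ρ := by simpa using hν
      have e : (μ : E m) - ν = (x - ν) - (x - μ) := by abel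
      rw [e]
      refine (norm_sub_le _ _).trans ?_
      linarith
    | succ i ih =>
      intro hi ν hν
      obtain ⟨ν', hν'⟩ := hρ (x + ((i : ℝ) / N) • (y - x))
      have hiN : (i : ℝ) + 1 ≤ N := by exact_mod_cast hi
      have hi0 : (0 : ℝ) ≤ i := Nat.cast_nonneg i
      push_cast at hν
      refine (ih (by omega) ν' hν').tail ⟨hG _ (by positivity) ?_ ν' hν',
        hG _ (by positivity) ?_ ν hν, ?_⟩
      · rw [div_le_one hN0]
        linarith
      · rw [div_le_one hN0]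
        exact hiN
      · have e : (ν' : E m) - ν = ((x + (((i : ℝ) + 1) / N) • (y - x) - ν) -
            (x + ((i : ℝ) / N) • (y - x) - ν')) - (1 / (N : ℝ)) • (y - x) := by
          rw [add_div, add_smul]
          abel
        rw [e]
        have h3 : ‖(1 / (N : ℝ)) • (y - x)‖ ≤ 1 := by
          rw [norm_smul, Real.norm_eq_abs, abs_of_pos (by positivity), one_div,
            inv_mul_le_iff₀ hN0]
          linarith
        refine (norm_sub_le _ _).trans ?_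
        have h4 := norm_sub_le (x + (((i : ℝ) + 1) / N) • (y - x) - ν)
          (x + ((i : ℝ) / N) • (y - x) - ν')
        linarith
  exact key N le_rfl μ' (by rw [div_self hN0.ne', one_smul]; simpa using h1)

theorem pcLow_step {g : P.Γ} (hg : ¬ P.Par g) {ρ ε : ℝ} (hρ : 0 < ρ) {v w : P.lat}
    (hv : bs g.1 / (‖(v : E m) - bb g.1‖ ^ 2 + 1) ≤ ε)
    (hw : bs g.1 / (‖(w : E m) - bb g.1‖ ^ 2 + 1) ≤ ε)
    (h : ‖(v : E m) - w‖ ≤ 1 + 2 * ρ) :
    PLow P (Real.log ((1 + 2 * ρ) ^ 2 + 2)) ε (g * P.tr v) (g * P.tr w) := by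
  refine ⟨by rw [pcLow_height P hg]; exact hv, by rw [pcLow_height P hg]; exact hw, ?_⟩
  rw [P.mem_bal_iff, pcLow_orb_mul, pcLow_orb_mul, hd_isom (P.isom' g), pcLow_orb_tr,
    pcLow_orb_tr]
  unfold hd q
  apply Real.log_le_log
  · simp only
    positivity
  · simp only [one_pow, mul_one, div_one]
    have : ‖(v : E m) - w‖ ^ 2 ≤ (1 + 2 * ρ) ^ 2 := by gcongr
    linarith

theorem pcLow_wall (hm : 2 ≤ m) : ∃ r C : ℝ, 0 ≤ r ∧ 1 ≤ C ∧ ∀ g : P.Γ, ¬ P.Par g →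
    ∀ ε : ℝ, 0 < ε → ∀ γ γ' : P.Γ, P.Par (g⁻¹ * γ) → P.Par (g⁻¹ * γ') →
      (P.orb γ).t ≤ ε → (P.orb γ').t ≤ ε → Relation.ReflTransGen (PLow P r (C * ε)) γ γ' := by
  obtain ⟨ρ, hρ0, hρ⟩ := P.lat_cover
  refine ⟨Real.log ((1 + 2 * ρ) ^ 2 + 2), 64 * ρ ^ 2 + 128, Real.log_nonneg (by nlinarith),
    by nlinarith [sq_nonneg ρ], ?_⟩
  intro g hg ε hε γ γ' hγ hγ' ht ht'
  obtain ⟨v, hv⟩ := (P.par_iff _).1 hγ
  obtain ⟨v', hv'⟩ := (P.par_iff _).1 hγ'
  have e1 : γ = g * P.tr v := by rw [← hv]; group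
  have e2 : γ' = g * P.tr v' := by rw [← hv']; group
  rw [e1, e2]
  rw [e1, pcLow_height P hg] at ht
  rw [e2, pcLow_height P hg] at ht'
  have hs := (P.isInv hg).pos
  set s := bs g.1 with hsdef
  set b := bb g.1 with hbdef
  set G : P.lat → Prop := fun u => s / (‖(u : E m) - b‖ ^ 2 + 1) ≤ (64 * ρ ^ 2 + 128) * ε with hG
  suffices h : Relation.ReflTransGen
      (fun v w : P.lat => G v ∧ G w ∧ ‖(v : E m) - w‖ ≤ 1 + 2 * ρ) v v' by
    exact Relation.ReflTransGen.lift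
      (r := fun v w : P.lat => G v ∧ G w ∧ ‖(v : E m) - w‖ ≤ 1 + 2 * ρ)
      (p := PLow P (Real.log ((1 + 2 * ρ) ^ 2 + 2)) ((64 * ρ ^ 2 + 128) * ε))
      (fun u => g * P.tr u)
      (fun a c hac => pcLow_step P hg hρ0 hac.1 hac.2.1 hac.2.2) _ _ h
  rcases le_or_gt s (ε * (64 * ρ ^ 2 + 2)) with hcase | hcase
  · have hall : ∀ u : P.lat, G u := by
      intro u
      have h1 : s / (‖(u : E m) - b‖ ^ 2 + 1) ≤ s := by
        rw [div_le_iff₀ (by positivity)]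
        nlinarith [sq_nonneg ‖(u : E m) - b‖]
      have h2 : ε * (64 * ρ ^ 2 + 2) ≤ (64 * ρ ^ 2 + 128) * ε := by nlinarith
      exact h1.trans (hcase.trans h2)
    exact pcLow_seg P hρ G v v' (fun _ _ _ u _ => hall u) v v' (by simpa using hρ0.le)
      (by simpa using hρ0.le)
  · have hse : 64 * ρ ^ 2 + 1 < s / ε - 1 := by
      rw [lt_sub_iff_add_lt, lt_div_iff₀ hε]
      linarith
    set δ := Real.sqrt (s / ε - 1) with hδ
    have hδ0 : 0 < s / ε - 1 := by nlinarith [sq_nonneg ρ]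
    have hδpos : 0 < δ := Real.sqrt_pos.2 hδ0
    have hδsq : δ ^ 2 = s / ε - 1 := Real.sq_sqrt hδ0.le
    have hδρ : 8 * ρ ≤ δ := by
      apply le_of_sq_le_sq _ hδpos.le
      rw [hδsq]
      nlinarith
    have hfar : ∀ u : P.lat, s / (‖(u : E m) - b‖ ^ 2 + 1) ≤ ε → δ ≤ ‖(u : E m) - b‖ := by
      intro u hu
      apply le_of_sq_le_sq _ (norm_nonneg _)
      rw [hδsq]
      rw [div_le_iff₀ (by positivity)] at hu
      have : s / ε ≤ ‖(u : E m) - b‖ ^ 2 + 1 := by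
        rw [div_le_iff₀ hε]
        linarith
      linarith
    obtain ⟨z, hz1, hz2⟩ := detour hm b (v : E m) (v' : E m) hδpos (hfar v ht) (hfar v' ht')
    have hgood : ∀ (y : E m) (u : P.lat), δ / 4 ≤ ‖y - b‖ → ‖y - u‖ ≤ ρ → G u := by
      intro y u hy hu
      have h1 : δ / 8 ≤ ‖(u : E m) - b‖ := by
        have e : y - b = (y - u) + ((u : E m) - b) := by abel
        have h2 : ‖y - b‖ ≤ ‖y - u‖ + ‖(u : E m) - b‖ := by
          rw [e]
          exact norm_add_le _ _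
        linarith
      have h2 : (δ / 8) ^ 2 ≤ ‖(u : E m) - b‖ ^ 2 := by gcongr
      have h3 : s = ε * (δ ^ 2 + 1) := by
        rw [hδsq]
        field_simp
        ring
      change s / (‖(u : E m) - b‖ ^ 2 + 1) ≤ (64 * ρ ^ 2 + 128) * ε
      rw [div_le_iff₀ (by positivity), h3]
      have h4 : ε * (δ ^ 2 + 1) ≤ ε * (64 * (‖(u : E m) - b‖ ^ 2 + 1)) := by
        gcongr
        nlinarith
      have h5 : 0 ≤ ε * (‖(u : E m) - b‖ ^ 2 + 1) := by positivity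
      nlinarith [sq_nonneg ρ, mul_nonneg (sq_nonneg ρ) h5]
    obtain ⟨ν, hν⟩ := hρ z
    refine (pcLow_seg P hρ G v z (fun t h0 h1 u hu => hgood _ u (hz1 t h0 h1) hu) v ν
      (by simpa using hρ0.le) hν).trans ?_
    exact pcLow_seg P hρ G z v' (fun t h0 h1 u hu => hgood _ u (hz2 t h0 h1) hu) ν v' hν
      (by simpa using hρ0.le)

/-- `γ` represents `x`. -/
def PRep (rT : ℝ) (γ : P.Γ) (x : HPt m) : Prop :=
  hd (P.orb γ) x ≤ rT ∨
    ∃ g : P.Γ, 4 < (g.1⁻¹ x).t ∧ P.Par (g⁻¹ * γ) ∧ (P.orb γ).t ≤ x.t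

theorem pcLow_notPar {g : P.Γ} {x : HPt m} (h : 4 < (g.1⁻¹ x).t) (hx : x.t < 4) :
    ¬ P.Par g := by
  rintro ⟨v, hv⟩
  rw [hv, ← transl_neg, transl_t] at h
  linarith

theorem pcLow_far (hm : 2 ≤ m) {g : P.Γ} (hg : ¬ P.Par g) {x : HPt m}
    (h : 4 < (g.1⁻¹ x).t) : ∃ γ : P.Γ, P.Par (g⁻¹ * γ) ∧ (P.orb γ).t ≤ x.t := by
  obtain ⟨ρ, hρ0, hρ⟩ := P.lat_cover
  obtain ⟨e, he, -⟩ := lq_orth hm (0 : E m)
  set y := g.1⁻¹ x with hy
  have hxy : g.1 y = x := by simp [hy]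
  have hs := (P.isInv hg).pos
  have ht := (P.isInv hg).t_eq y
  rw [hxy] at ht
  set b := bb g.1
  set s := bs g.1
  have hD : 0 ≤ ‖y.u - b‖ := norm_nonneg _
  obtain ⟨v, hv⟩ := hρ (b + (‖y.u - b‖ + y.t + ρ) • e)
  have hvb : ‖y.u - b‖ + y.t ≤ ‖(v : E m) - b‖ := by
    have e1 : (‖y.u - b‖ + y.t + ρ) • e =
        (b + (‖y.u - b‖ + y.t + ρ) • e - v) + ((v : E m) - b) := by abel
    have h1 : ‖(‖y.u - b‖ + y.t + ρ) • e‖ = ‖y.u - b‖ + y.t + ρ := by
      rw [norm_smul, he, mul_one, Real.norm_eq_abs, abs_of_nonneg (by linarith)]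
    have h2 : ‖(‖y.u - b‖ + y.t + ρ) • e‖ ≤
        ‖b + (‖y.u - b‖ + y.t + ρ) • e - v‖ + ‖(v : E m) - b‖ := by
      nth_rewrite 1 [e1]
      exact norm_add_le _ _
    linarith
  refine ⟨g * P.tr v, ?_, ?_⟩
  · rw [inv_mul_cancel_left]
    exact P.par_tr v
  · rw [pcLow_height P hg, ht]
    change s / (‖(v : E m) - b‖ ^ 2 + 1) ≤ s * y.t / (‖y.u - b‖ ^ 2 + y.t ^ 2)
    have hy0 := y.pos
    rw [div_le_div_iff₀ (by positivity) (by positivity)]
    have h3 : (‖y.u - b‖ + y.t) ^ 2 ≤ ‖(v : E m) - b‖ ^ 2 := by gcongr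
    have h4 : ‖y.u - b‖ ^ 2 + y.t ^ 2 ≤ y.t * (‖(v : E m) - b‖ ^ 2 + 1) := by
      nlinarith [mul_nonneg hD hy0.le, sq_nonneg ‖(v : E m) - b‖]
    calc s * (‖y.u - b‖ ^ 2 + y.t ^ 2) ≤ s * (y.t * (‖(v : E m) - b‖ ^ 2 + 1)) := by gcongr
      _ = s * y.t * (‖(v : E m) - b‖ ^ 2 + 1) := by ring

theorem pcLow_link (hm : 2 ≤ m) {rT : ℝ} (hrT : 0 ≤ rT) : ∃ r C : ℝ, 0 ≤ r ∧ 1 ≤ C ∧
    ∀ ε : ℝ, 0 < ε → ε < 4 → ∀ x x' : HPt m, x.t = ε → x'.t = ε → hd x x' ≤ 2 →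
      ∀ γ γ' : P.Γ, PRep P rT γ x → PRep P rT γ' x' →
        Relation.ReflTransGen (PLow P r (C * ε)) γ γ' := by
  obtain ⟨rA, CA, hrA, hCA, hA⟩ := pcLow_wall P hm
  obtain ⟨ρ, hρ0, hρ⟩ := P.lat_cover
  obtain ⟨rB, hrB, hB⟩ := exists_hd_le (2 * ρ + 2 + Real.exp rT)
  have hexp2 : Real.exp 2 < 8 := by
    have h1 := Real.exp_one_lt_d9
    have h2 : Real.exp 2 = Real.exp 1 * Real.exp 1 := by rw [← Real.exp_add]; norm_num
    have h3 := Real.exp_pos 1
    nlinarith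
  have hET : 1 ≤ Real.exp rT := Real.one_le_exp hrT
  have hEB : 1 ≤ Real.exp rB := Real.one_le_exp hrB
  -- height of a representative
  have hheight : ∀ ε : ℝ, 0 < ε → ∀ x : HPt m, x.t = ε → ∀ γ : P.Γ, PRep P rT γ x →
      (P.orb γ).t ≤ Real.exp rT * ε := by
    intro ε hε x hx γ hγ
    rcases hγ with h | ⟨g, -, -, h⟩
    · rw [hd_comm] at h
      have := t_le_of_hd h
      rwa [hx] at this
    · rw [hx] at h
      nlinarith
  -- deep transfer
  have hdeep : ∀ x x' : HPt m, hd x x' ≤ 2 → ∀ g : P.Γ, 4 < (g.1⁻¹ x').t →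
      1 / 2 < (g.1⁻¹ x).t := by
    intro x x' hxx g hg
    have h1 : hd (g.1⁻¹ x) (g.1⁻¹ x') ≤ 2 := by
      rw [hd_isom (P.isom' g).inv]
      exact hxx
    have h2 := t_le_of_hd h1
    have h3 := (g.1⁻¹ x).pos
    nlinarith
  -- near-deep link
  have hND : ∀ ε : ℝ, 0 < ε → ε < 4 → ∀ x x' : HPt m, x.t = ε → x'.t = ε → hd x x' ≤ 2 →
      ∀ γ γ' : P.Γ, hd (P.orb γ) x ≤ rT → PRep P rT γ' x' →
      (∃ g : P.Γ, 4 < (g.1⁻¹ x').t ∧ P.Par (g⁻¹ * γ') ∧ (P.orb γ').t ≤ x'.t) →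
        Relation.ReflTransGen (PLow P (rA + (2 * rT + 2) + (rT + rB))
          (CA * (Real.exp rT + Real.exp rB) * ε)) γ γ' := by
    intro ε hε hε4 x x' hx hx' hxx γ γ' hγ hγ' hD
    obtain ⟨g, hg, hpar, ht⟩ := hD
    have hgn : ¬ P.Par g := pcLow_notPar P hg (by rw [hx']; exact hε4)
    have hy := hdeep x x' hxx g hg
    set y := g.1⁻¹ x with hydef
    obtain ⟨v, hv⟩ := hρ y.u
    -- upper bound for the height of `y`
    have hyt : y.t ≤ Real.exp rT := by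
      have h1 : hd (P.orb (g⁻¹ * γ)) y ≤ rT := by
        have e : P.orb (g⁻¹ * γ) = g.1⁻¹ (P.orb γ) := rfl
        rw [e, hydef, hd_isom (P.isom' g).inv]
        exact hγ
      have h2 := t_le_of_hd h1
      have h3 := P.orb_t_le_one (g⁻¹ * γ)
      nlinarith
    have h4 : hd y (P.orb (P.tr v)) ≤ rB := by
      apply hB
      · rw [pcLow_orb_tr]
        simp only
        nlinarith [Real.exp_pos rT]
      · rw [pcLow_orb_tr]
        simp only
        nlinarith [Real.exp_pos rT]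
      · rw [pcLow_orb_tr]
        simp only
        nlinarith [Real.exp_pos rT]
    have h5 : hd x (P.orb (g * P.tr v)) ≤ rB := by
      have e : g.1 y = x := by simp [hydef]
      rw [pcLow_orb_mul, ← e, hd_isom (P.isom' g)]
      exact h4
    have h6 : hd (P.orb γ) (P.orb (g * P.tr v)) ≤ rT + rB :=
      (hd_triangle _ x _).trans (add_le_add hγ h5)
    have h7 : (P.orb (g * P.tr v)).t ≤ Real.exp rB * ε := by
      have := t_le_of_hd h5
      rwa [hx] at this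
    have h8 : (P.orb γ).t ≤ Real.exp rT * ε := hheight ε hε x hx γ (Or.inl hγ)
    have h9 : (P.orb γ').t ≤ Real.exp rT * ε := hheight ε hε x' hx' γ' hγ'
    have hpe : 0 ≤ Real.exp rT * ε := by positivity
    have hpb : 0 ≤ Real.exp rB * ε := by positivity
    have hC1 : Real.exp rT * ε ≤ CA * (Real.exp rT + Real.exp rB) * ε := by nlinarith
    have hC2 : Real.exp rB * ε ≤ CA * (Real.exp rT + Real.exp rB) * ε := by nlinarith
    refine Relation.ReflTransGen.head (b := g * P.tr v) ?_ ?_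
    · refine ⟨h8.trans hC1, h7.trans hC2, ?_⟩
      refine P.bal_mono ?_ ((P.mem_bal_iff _ _).2 h6)
      linarith
    · have h10 := hA g hgn ((Real.exp rT + Real.exp rB) * ε) (by positivity) (g * P.tr v) γ'
        (by rw [inv_mul_cancel_left]; exact P.par_tr v) hpar (by nlinarith) (by nlinarith)
      refine pcLow_mono P ?_ ?_ h10
      · linarith
      · rw [mul_assoc]
  refine ⟨rA + (2 * rT + 2) + (rT + rB), CA * (Real.exp rT + Real.exp rB), by positivity,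
    by nlinarith, ?_⟩
  intro ε hε hε4 x x' hx hx' hxx γ γ' hγ hγ'
  have hpe : 0 ≤ Real.exp rT * ε := by positivity
  have hpb : 0 ≤ Real.exp rB * ε := by positivity
  have hC1 : Real.exp rT * ε ≤ CA * (Real.exp rT + Real.exp rB) * ε := by nlinarith
  have h8 : (P.orb γ).t ≤ Real.exp rT * ε := hheight ε hε x hx γ hγ
  have h9 : (P.orb γ').t ≤ Real.exp rT * ε := hheight ε hε x' hx' γ' hγ'
  by_cases hγN : hd (P.orb γ) x ≤ rT
  · by_cases hγN' : hd (P.orb γ') x' ≤ rT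
    · refine Relation.ReflTransGen.single ⟨h8.trans hC1, h9.trans hC1, ?_⟩
      have h10 : hd (P.orb γ) (P.orb γ') ≤ 2 * rT + 2 := by
        have h1 := hd_triangle (P.orb γ) x (P.orb γ')
        have h2 := hd_triangle x x' (P.orb γ')
        rw [hd_comm x' (P.orb γ')] at h2
        linarith
      refine P.bal_mono ?_ ((P.mem_bal_iff _ _).2 h10)
      linarith
    · rcases hγ' with h | h
      · exact absurd h hγN'
      · exact hND ε hε hε4 x x' hx hx' hxx γ γ' hγN (Or.inr h) h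
  · have hD : ∃ g : P.Γ, 4 < (g.1⁻¹ x).t ∧ P.Par (g⁻¹ * γ) ∧ (P.orb γ).t ≤ x.t := by
      rcases hγ with h | h
      · exact absurd h hγN
      · exact h
    by_cases hγN' : hd (P.orb γ') x' ≤ rT
    · apply pcLow_symm
      exact hND ε hε hε4 x' x hx' hx (by rw [hd_comm]; exact hxx) γ' γ hγN' hγ hD
    · have hD' : ∃ g : P.Γ, 4 < (g.1⁻¹ x').t ∧ P.Par (g⁻¹ * γ') ∧ (P.orb γ').t ≤ x'.t := by
        rcases hγ' with h | h
        · exact absurd h hγN'
        · exact h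
      obtain ⟨g, hg, hpar, ht⟩ := hD
      obtain ⟨g', hg', hpar', ht'⟩ := hD'
      have hgn : ¬ P.Par g := pcLow_notPar P hg (by rw [hx]; exact hε4)
      have h1 := hdeep x x' hxx g' hg'
      have h2 : P.Par (g⁻¹ * g') := P.par_of_deep (x := x) (by linarith) h1
      have h3 : P.Par (g⁻¹ * γ') := by
        have e : g⁻¹ * γ' = (g⁻¹ * g') * (g'⁻¹ * γ') := by group
        rw [e]
        exact P.par_mul h2 hpar'
      have h10 := hA g hgn ((Real.exp rT + Real.exp rB) * ε) (by positivity) γ γ'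
        hpar h3 (by nlinarith) (by nlinarith)
      refine pcLow_mono P ?_ ?_ h10
      · linarith
      · rw [mul_assoc]

theorem Piece.low_path (hm : 2 ≤ m) : ∃ r : ℝ, ∀ ε : ℝ, 0 < ε → ∀ a b : P.Γ, ¬ P.Par a →
    ¬ P.Par b → ∃ (n : ℕ) (p : ℕ → P.Γ), P.Par (a⁻¹ * p 0) ∧ P.Par (b⁻¹ * p n) ∧
      (∀ i < n, (p i)⁻¹ * p (i + 1) ∈ P.bal r) ∧ ∀ i ≤ n, (P.orb (p i)).t ≤ ε := by
  obtain ⟨rT, hrT, hT⟩ := P.near_or_deep 4 (by norm_num)
  obtain ⟨r, C, hr, hC, hlink⟩ := pcLow_link P hm hrT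
  refine ⟨r, ?_⟩
  intro ε hε a b ha hb
  have hsa := (P.isInv ha).pos
  have hsb := (P.isInv hb).pos
  -- choice of the height
  obtain ⟨ε₁, h0, h1, h2, h3, h4⟩ : ∃ ε₁ : ℝ, 0 < ε₁ ∧ C * ε₁ ≤ ε ∧ ε₁ < 4 ∧
      4 < bs a.1 / ε₁ ∧ 4 < bs b.1 / ε₁ := by
    refine ⟨min (min (ε / C) 1) (min (bs a.1 / 8) (bs b.1 / 8)), ?_, ?_, ?_, ?_, ?_⟩
    · have : 0 < ε / C := by positivity
      positivity
    · have h : min (min (ε / C) 1) (min (bs a.1 / 8) (bs b.1 / 8)) ≤ ε / C :=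
        (min_le_left _ _).trans (min_le_left _ _)
      calc C * min (min (ε / C) 1) (min (bs a.1 / 8) (bs b.1 / 8)) ≤ C * (ε / C) := by gcongr
        _ = ε := by field_simp
    · have h : min (min (ε / C) 1) (min (bs a.1 / 8) (bs b.1 / 8)) ≤ 1 :=
        (min_le_left _ _).trans (min_le_right _ _)
      linarith
    · have h : min (min (ε / C) 1) (min (bs a.1 / 8) (bs b.1 / 8)) ≤ bs a.1 / 8 :=
        (min_le_right _ _).trans (min_le_left _ _)
      have hp : 0 < min (min (ε / C) 1) (min (bs a.1 / 8) (bs b.1 / 8)) := by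
        have : 0 < ε / C := by positivity
        positivity
      rw [lt_div_iff₀ hp]
      linarith
    · have h : min (min (ε / C) 1) (min (bs a.1 / 8) (bs b.1 / 8)) ≤ bs b.1 / 8 :=
        (min_le_right _ _).trans (min_le_right _ _)
      have hp : 0 < min (min (ε / C) 1) (min (bs a.1 / 8) (bs b.1 / 8)) := by
        have : 0 < ε / C := by positivity
        positivity
      rw [lt_div_iff₀ hp]
      linarith
  -- representatives
  have hdeep : ∀ g : P.Γ, ¬ P.Par g → 4 < bs g.1 / ε₁ →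
      4 < (g.1⁻¹ (⟨bp g.1, ε₁, h0⟩ : HPt m)).t := by
    intro g hg h
    rw [(P.isInv hg).inv.t_eq]
    simp only [sub_self, norm_zero]
    have e : bs g.1 * ε₁ / (0 ^ 2 + ε₁ ^ 2) = bs g.1 / ε₁ := by
      field_simp
      ring
    rw [e]
    exact h
  have hrep : ∀ x : HPt m, x.t = ε₁ → ∃ γ : P.Γ, PRep P rT γ x := by
    intro x hx
    rcases hT x with ⟨g, hg⟩ | ⟨g, hg⟩
    · exact ⟨g, Or.inl (by rw [hd_comm]; exact hg)⟩
    · obtain ⟨γ, h5, h6⟩ := pcLow_far P hm (pcLow_notPar P hg (by rw [hx]; exact h2)) hg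
      exact ⟨γ, Or.inr ⟨g, hg, h5, h6⟩⟩
  obtain ⟨γa, hγa, hta⟩ := pcLow_far P hm ha (hdeep a ha h3)
  obtain ⟨γb, hγb, htb⟩ := pcLow_far P hm hb (hdeep b hb h4)
  -- the horizontal chain
  obtain ⟨N, hN⟩ := exists_nat_ge (‖bp b.1 - bp a.1‖ / ε₁ + 1)
  have hN0 : (0 : ℝ) < N := by
    have : 0 ≤ ‖bp b.1 - bp a.1‖ / ε₁ := by positivity
    linarith
  set z : ℕ → HPt m := fun i => ⟨bp a.1 + ((i : ℝ) / N) • (bp b.1 - bp a.1), ε₁, h0⟩ with hz
  have hlog3 : Real.log 3 ≤ 2 := by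
    have := Real.log_le_sub_one_of_pos (show (0 : ℝ) < 3 by norm_num)
    linarith
  have hstep : ∀ i : ℕ, hd (z i) (z (i + 1)) ≤ 2 := by
    intro i
    refine le_trans ?_ hlog3
    unfold hd
    apply Real.log_le_log (q_pos _ _)
    unfold q
    simp only [hz]
    rw [div_le_iff₀ (by positivity)]
    have e : bp a.1 + ((i : ℝ) / N) • (bp b.1 - bp a.1) -
        (bp a.1 + (((i + 1 : ℕ) : ℝ) / N) • (bp b.1 - bp a.1)) =
        -((1 / (N : ℝ)) • (bp b.1 - bp a.1)) := by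
      push_cast
      rw [add_div, add_smul]
      abel
    have h5 : ‖bp a.1 + ((i : ℝ) / N) • (bp b.1 - bp a.1) -
        (bp a.1 + (((i + 1 : ℕ) : ℝ) / N) • (bp b.1 - bp a.1))‖ ≤ ε₁ := by
      rw [e, norm_neg, norm_smul, Real.norm_eq_abs, abs_of_pos (by positivity), one_div,
        inv_mul_le_iff₀ hN0]
      have h6 : ‖bp b.1 - bp a.1‖ / ε₁ ≤ N := by linarith
      rwa [div_le_iff₀ h0] at h6
    have h7 : ‖bp a.1 + ((i : ℝ) / N) • (bp b.1 - bp a.1) -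
        (bp a.1 + (((i + 1 : ℕ) : ℝ) / N) • (bp b.1 - bp a.1))‖ ^ 2 ≤ ε₁ ^ 2 := by gcongr
    nlinarith
  have hz0 : z 0 = ⟨bp a.1, ε₁, h0⟩ := by
    apply HPt.ext
    · simp [hz]
    · rfl
  have hzN : z N = ⟨bp b.1, ε₁, h0⟩ := by
    apply HPt.ext
    · simp only [hz]
      rw [div_self hN0.ne', one_smul]
      abel
    · rfl
  have hrepa : PRep P rT γa (z 0) := by
    rw [hz0]
    exact Or.inr ⟨a, hdeep a ha h3, hγa, hta⟩
  have hrepb : PRep P rT γb (z N) := by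
    rw [hzN]
    exact Or.inr ⟨b, hdeep b hb h4, hγb, htb⟩
  have key : ∀ i : ℕ, ∀ γ : P.Γ, PRep P rT γ (z i) →
      Relation.ReflTransGen (PLow P r (C * ε₁)) γa γ := by
    intro i
    induction i with
    | zero =>
      intro γ hγ
      refine hlink ε₁ h0 h2 (z 0) (z 0) rfl rfl ?_ γa γ hrepa hγ
      rw [hd_self]
      have := Real.log_le_sub_one_of_pos (show (0 : ℝ) < 2 by norm_num)
      linarith
    | succ i ih =>
      intro γ hγ
      obtain ⟨γ', hγ'⟩ := hrep (z i) rfl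
      exact (ih γ' hγ').trans (hlink ε₁ h0 h2 (z i) (z (i + 1)) rfl rfl (hstep i) γ' γ hγ' hγ)
  have hfin := pcLow_mono P le_rfl h1 (key N γb hrepb)
  have hta' : (P.orb γa).t ≤ ε := by
    have h5 : (P.orb γa).t ≤ ε₁ := hta
    nlinarith
  obtain ⟨n, p, hp0, hpn, hps, hph⟩ := pcLow_path P hfin hta'
  exact ⟨n, p, by rw [hp0]; exact hγa, by rw [hpn]; exact hγb, hps, hph⟩

end QIG
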