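import Pool.Agent.W_a51130_h62.WMap
import Pool.Agent.W_a51130_h62.PcLow
import Pool.Agent.W_a51130_h62.PcPack

/-!
Coarse separation of walls.

`exists_sep`: let `h = g₁⁻¹g₂`, `h = of i γ * h'`, `γ` not parabolic, `side h' ≠ some i`.  If `side h' = none` then
`h = of i (γ φ_i(v))` and `Adj g₁ g₂`.  So `side h' = some j`, `j ≠ i`; `g₃ = g₁ of i γ`:
`g₃⁻¹g₁ = of i γ⁻¹` has side `some i`, `g₃⁻¹g₂ = h'` has side `some j`.

`nsep`: let `g₁⁻¹g₂ = of i γ`, `h = g₃⁻¹g₁` (not in the wall), `h (of i γ)` not in the wall.  Consider paths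
`g₁ · of i (p_k)`, where `p` is a path in `Γ_i` from `φ_i(lattice)` to `γ φ_i(lattice)`; then
`g₃⁻¹ g₁ of i (p_k) = h of i (p_k)`.
Case A: `h = of i α`, `α, αγ` not parabolic (`h, h of i γ` are not in the wall).  `Piece.low_path` for
`a = α`, `b = αγ`, `ε` from `Gl.low_far R`, gives `p'`; put `p_k = α⁻¹p'_k`; `dW (of i p'_k) > R`.
Case B: `h` is not in `of i Γ_i`.  The set `B = {p ∈ Γ_i : dW (h of i p) ≤ R}` is finite.  Indeed write
`h⁻¹ = of i γ₁ * h₁` with `side h₁ ≠ some i` (`γ₁ = 1` if `side h⁻¹ ≠ some i`), and `side h₁ ≠ none` (otherwise `h ∈ of i Γ_i`).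
Let `p ∈ B`: there is `v` with `wd (of i p) (h⁻¹ ba v) ≤ R`.  `of i (γ₁⁻¹p)` has side `some i` or `none`, while
`of i γ₁⁻¹ h⁻¹ ba v = h₁ ba v` has side `some j ≠ some i`.  By `Gl.cross` (from `h₁ ba v`, side `some j`, to
`of i (γ₁⁻¹ p)`), there is `w` with `wd (ba w)(h₁ ba v) ≤ R`, so `dW (h₁ ba v) ≤ R`; by `wall_inter` these `v` are
in a bounded, hence finite set; so `of i p` is in a finite union of balls, and `of i` is injective.
Choose `β ∈ Γ_i` with `β` not parabolic and `γ⁻¹β` not parabolic (`bp β ≠ bp γ`; `P.Q` is dense, so infinite).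
`Piece.low_path` for `a = β⁻¹`, `b = β⁻¹γ` (not parabolic) and `ε < min_{p ∈ B} t(β⁻¹p o)` gives `p'`; put
`p_k = β p'_k`: it starts in `β β⁻¹ Λ = Λ`, ends in `γΛ` and avoids `B`.
Steps: `(p_k)⁻¹p_(k+1) ∈ (P i).bal r`, `Gl.wd_of_bal`.
-/

namespace QIG

variable {m : ℕ}

theorem nsep_par_phi (D : Gl m) (i : Fin 2) (v : (D.P 0).lat) :
    (D.P i).Par (D.φ i (Multiplicative.ofAdd v)) :=
  (D.mem_range_iff i _).1 ⟨_, rfl⟩

theorem exists_sep {D : Gl m} (X : Full D) {g₁ g₂ : D.G} (h : X.A.side (g₁⁻¹ * g₂) ≠ none)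
    (hA : ¬ D.Adj g₁ g₂) : ∃ g₃ : D.G, X.A.side (g₃⁻¹ * g₁) ≠ none ∧
      X.A.side (g₃⁻¹ * g₂) ≠ none ∧ X.A.side (g₃⁻¹ * g₁) ≠ X.A.side (g₃⁻¹ * g₂) := by
  obtain ⟨i, hi⟩ := Option.ne_none_iff_exists'.1 h
  obtain ⟨γ, h', hγ, hh', he⟩ := D.exists_cons X.A hi
  have hγ' : ¬ (D.P i).Par γ⁻¹ := fun hp => hγ (by simpa using (D.P i).par_inv hp)
  have hs : X.A.side h' ≠ none := by
    intro hn
    obtain ⟨v, hv⟩ := (D.side_none X.A h').1 hn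
    apply hA
    refine ⟨i, γ * D.φ i (Multiplicative.ofAdd v), ?_, ?_⟩
    · intro hp
      apply hγ
      have h1 : γ = (γ * D.φ i (Multiplicative.ofAdd v)) * (D.φ i (Multiplicative.ofAdd v))⁻¹ := by
        group
      rw [h1]
      exact (D.P i).par_mul hp ((D.P i).par_inv (nsep_par_phi D i v))
    · rw [he, hv, map_mul, D.of_par]
  have e1 : (g₁ * D.of i γ)⁻¹ * g₁ = D.of i γ⁻¹ := by
    rw [map_inv]
    group
  have e2 : (g₁ * D.of i γ)⁻¹ * g₂ = h' := by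
    have : (g₁ * D.of i γ)⁻¹ * g₂ = (D.of i γ)⁻¹ * (g₁⁻¹ * g₂) := by group
    rw [this, he]
    group
  refine ⟨g₁ * D.of i γ, ?_, ?_, ?_⟩
  · rw [e1, D.side_of X.A hγ']
    simp
  · rw [e2]
    exact hs
  · rw [e1, e2, D.side_of X.A hγ']
    exact fun h2 => hh' h2.symm

/-- A path in a piece from the wall at infinity to another wall avoiding a finite set. -/
theorem nsep_avoid (hm : 2 ≤ m) (P : Piece m) : ∃ r : ℝ, ∀ (B : Set P.Γ), B.Finite →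
    ∀ γ : P.Γ, ¬ P.Par γ → ∃ (n : ℕ) (p : ℕ → P.Γ), P.Par (p 0) ∧ P.Par (γ⁻¹ * p n) ∧
      (∀ i < n, (p i)⁻¹ * p (i + 1) ∈ P.bal r) ∧ ∀ i ≤ n, p i ∉ B := by
  obtain ⟨r, hr⟩ := P.low_path hm
  refine ⟨r, ?_⟩
  intro B hB γ hγ
  -- choice of `β`
  obtain ⟨β, hβ, hβγ⟩ : ∃ β : P.Γ, ¬ P.Par β ∧ ¬ P.Par (γ⁻¹ * β) := by
    have : Nonempty (Fin m) := ⟨⟨0, by omega⟩⟩
    obtain ⟨y, hy⟩ : ∃ y : E m, y ≠ bp γ.1 := exists_ne _
    obtain ⟨q, hq1, hq2⟩ := (P.Q_dense (by omega)).exists_mem_open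
      (isOpen_compl_singleton (x := bp γ.1)) ⟨y, hy⟩
    obtain ⟨β, hβ, rfl⟩ := hq1
    exact ⟨β, hβ, fun h => hq2 (P.coset hγ h).2.1⟩
  have hβ' : ¬ P.Par β⁻¹ := fun hp => hβ (by simpa using P.par_inv hp)
  have hβγ' : ¬ P.Par (β⁻¹ * γ) := fun hp => hβγ (by
    have := P.par_inv hp
    rwa [mul_inv_rev, inv_inv] at this)
  obtain ⟨ε, hε, hεB⟩ : ∃ ε : ℝ, 0 < ε ∧ ∀ b ∈ B, ε < (P.orb (β⁻¹ * b)).t := by
    by_cases hne : B.Nonempty
    · obtain ⟨b₀, hb₀, hmin⟩ := hB.exists_minimalFor (fun b => (P.orb (β⁻¹ * b)).t) B hne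
      refine ⟨(P.orb (β⁻¹ * b₀)).t / 2, half_pos (P.orb (β⁻¹ * b₀)).pos, ?_⟩
      intro b hb
      have h1 : (P.orb (β⁻¹ * b₀)).t ≤ (P.orb (β⁻¹ * b)).t := by
        by_contra hlt
        push Not at hlt
        exact absurd (hmin hb hlt.le) (not_le.2 hlt)
      have := (P.orb (β⁻¹ * b₀)).pos
      linarith
    · refine ⟨1, one_pos, ?_⟩
      intro b hb
      exact absurd ⟨b, hb⟩ hne
  obtain ⟨n, p, h0, hn, hstep, hlow⟩ := hr ε hε β⁻¹ (β⁻¹ * γ) hβ' hβγ'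
  refine ⟨n, fun k => β * p k, ?_, ?_, ?_, ?_⟩
  · simpa using h0
  · have e : (β⁻¹ * γ)⁻¹ * p n = γ⁻¹ * (β * p n) := by group
    rwa [e] at hn
  · intro k hk
    have e : (β * p k)⁻¹ * (β * p (k + 1)) = (p k)⁻¹ * p (k + 1) := by group
    rw [e]
    exact hstep k hk
  · intro k hk hmem
    have h1 := hεB _ hmem
    rw [inv_mul_cancel_left] at h1
    have h2 := hlow k hk
    linarith

/-- The elements of a piece near another wall, not a wall of the piece. -/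
theorem nsep_finite {D : Gl m} (X : Full D) (R : ℕ) (i : Fin 2) (h : D.G)
    (hh : ∀ α : (D.P i).Γ, h ≠ D.of i α) :
    {p : (D.P i).Γ | D.dW X.S (h * D.of i p) ≤ R}.Finite := by
  classical
  have hinv : ∀ α : (D.P i).Γ, h⁻¹ ≠ D.of i α := by
    intro α hα
    apply hh α⁻¹
    rw [map_inv, ← hα, inv_inv]
  obtain ⟨γ₁, h₁, j, hji, hj, he⟩ : ∃ (γ₁ : (D.P i).Γ) (h₁ : D.G) (j : Fin 2), j ≠ i ∧
      X.A.side h₁ = some j ∧ h⁻¹ = D.of i γ₁ * h₁ := by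
    by_cases hs : X.A.side h⁻¹ = some i
    · obtain ⟨γ₁, h₁, hγ₁, hh₁, he⟩ := D.exists_cons X.A hs
      have hn : X.A.side h₁ ≠ none := by
        intro hn
        obtain ⟨v, hv⟩ := (D.side_none X.A h₁).1 hn
        apply hinv (γ₁ * D.φ i (Multiplicative.ofAdd v))
        rw [he, hv, map_mul, D.of_par]
      obtain ⟨j, hj⟩ := Option.ne_none_iff_exists'.1 hn
      exact ⟨γ₁, h₁, j, fun hji => hh₁ (by rw [hj, hji]), hj, he⟩
    · have hn : X.A.side h⁻¹ ≠ none := by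
        intro hn
        obtain ⟨v, hv⟩ := (D.side_none X.A h⁻¹).1 hn
        apply hinv (D.φ i (Multiplicative.ofAdd v))
        rw [hv, D.of_par]
      obtain ⟨j, hj⟩ := Option.ne_none_iff_exists'.1 hn
      exact ⟨1, h⁻¹, j, fun hji => hs (by rw [hj, hji]), hj, by rw [map_one, one_mul]⟩
  obtain ⟨C, hC⟩ := wall_inter X R
  have hsn : X.A.side h₁ ≠ none := by rw [hj]; simp
  -- the finite set of `v`
  have hV : {v : (D.P 0).lat | D.dW X.S (h₁ * D.ba v) ≤ R}.Finite := by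
    by_cases hne : {v : (D.P 0).lat | D.dW X.S (h₁ * D.ba v) ≤ R}.Nonempty
    · obtain ⟨v₀, hv₀⟩ := hne
      refine (((D.P 0).lat_finite C).image (fun w => v₀ + w)).subset ?_
      intro v hv
      refine ⟨v - v₀, ?_, by simp⟩
      have := hC h₁ hsn v v₀ hv hv₀
      simpa using this
    · rw [Set.not_nonempty_iff_eq_empty] at hne
      rw [hne]
      exact Set.finite_empty
  have hU : (⋃ v ∈ {v : (D.P 0).lat | D.dW X.S (h₁ * D.ba v) ≤ R},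
      {p : (D.P i).Γ | wl X.S ((h₁ * D.ba v)⁻¹ * D.of i (γ₁⁻¹ * p)) ≤ R}).Finite := by
    refine hV.biUnion (fun v _ => ?_)
    refine (ball_finite X.hS R).preimage (f := fun p : (D.P i).Γ =>
      (h₁ * D.ba v)⁻¹ * D.of i (γ₁⁻¹ * p)) ?_
    intro p _ q _ hpq
    have h1 := D.of_injective i (mul_left_cancel hpq)
    exact mul_left_cancel h1
  refine hU.subset ?_
  intro p hp
  obtain ⟨v, hv⟩ := D.exists_dW X.hS (h * D.of i p)
  have hp' : D.dW X.S (h * D.of i p) ≤ R := hp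
  have h1 : wd X.S (h₁ * D.ba v) (D.of i (γ₁⁻¹ * p)) ≤ R := by
    have e1 : wd X.S (D.ba v) (h * D.of i p) =
        wd X.S (h₁ * D.ba v) (D.of i (γ₁⁻¹ * p)) := by
      have e2 : h₁ = (D.of i γ₁)⁻¹ * h⁻¹ := by rw [he]; group
      rw [← wd_mul_left X.S ((D.of i γ₁)⁻¹ * h⁻¹) (D.ba v), e2]
      congr 1
      rw [map_mul, map_inv]
      group
    rw [← e1, hv]
    exact hp'
  have h2 : X.A.side (h₁ * D.ba v) = some j := by
    rw [D.side_mul_ba, hj]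
  have h3 : X.A.side (D.of i (γ₁⁻¹ * p)) ≠ some j := by
    by_cases hpar : (D.P i).Par (γ₁⁻¹ * p)
    · obtain ⟨w, hw, -⟩ := D.exists_ba i hpar
      have : X.A.side (D.of i (γ₁⁻¹ * p)) = none := (D.side_none X.A _).2 ⟨w, hw⟩
      rw [this]
      simp
    · rw [D.side_of X.A hpar]
      intro h4
      exact hji (Option.some.inj h4).symm
  obtain ⟨w, hw⟩ := D.cross X.hS X.A X.hgen h2 h3
  have h4 : D.dW X.S (h₁ * D.ba v) ≤ R := by
    have h5 := D.dW_le X.hS w (h₁ * D.ba v)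
    rw [wd_comm X.hS] at h5
    omega
  simp only [Set.mem_iUnion]
  exact ⟨v, h4, h1⟩

theorem nsep (hm : 2 ≤ m) {D : Gl m} (X : Full D) : ∃ C : ℕ, ∀ (R : ℕ) (g₁ g₂ g₃ : D.G),
    D.Adj g₁ g₂ → X.A.side (g₃⁻¹ * g₁) ≠ none → X.A.side (g₃⁻¹ * g₂) ≠ none →
      ∃ (n : ℕ) (p : ℕ → D.G), (∃ v, p 0 = g₁ * D.ba v) ∧ (∃ v, p n = g₂ * D.ba v) ∧
        (∀ i < n, wd X.S (p i) (p (i + 1)) ≤ C) ∧ ∀ i ≤ n, R < D.dW X.S (g₃⁻¹ * p i) := by
  have h1 : ∀ i : Fin 2, ∃ r : ℝ, (∀ (B : Set (D.P i).Γ), B.Finite →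
      ∀ γ : (D.P i).Γ, ¬ (D.P i).Par γ → ∃ (n : ℕ) (p : ℕ → (D.P i).Γ), (D.P i).Par (p 0) ∧
        (D.P i).Par (γ⁻¹ * p n) ∧ (∀ k < n, (p k)⁻¹ * p (k + 1) ∈ (D.P i).bal r) ∧
          ∀ k ≤ n, p k ∉ B) ∧
      ∀ ε : ℝ, 0 < ε → ∀ a b : (D.P i).Γ, ¬ (D.P i).Par a →
        ¬ (D.P i).Par b → ∃ (n : ℕ) (p : ℕ → (D.P i).Γ), (D.P i).Par (a⁻¹ * p 0) ∧
          (D.P i).Par (b⁻¹ * p n) ∧ (∀ k < n, (p k)⁻¹ * p (k + 1) ∈ (D.P i).bal r) ∧
            ∀ k ≤ n, ((D.P i).orb (p k)).t ≤ ε := by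
    intro i
    obtain ⟨r₁, hr₁⟩ := nsep_avoid hm (D.P i)
    obtain ⟨r₂, hr₂⟩ := (D.P i).low_path hm
    refine ⟨max r₁ r₂, ?_, ?_⟩
    · intro B hB γ hγ
      obtain ⟨n, p, a1, a2, a3, a4⟩ := hr₁ B hB γ hγ
      exact ⟨n, p, a1, a2, fun k hk => (D.P i).bal_mono (le_max_left _ _) (a3 k hk), a4⟩
    · intro ε hε a b ha hb
      obtain ⟨n, p, a1, a2, a3, a4⟩ := hr₂ ε hε a b ha hb
      exact ⟨n, p, a1, a2, fun k hk => (D.P i).bal_mono (le_max_right _ _) (a3 k hk), a4⟩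
  choose r hr using h1
  obtain ⟨C, hC⟩ := D.wd_of_bal X.hS (max (r 0) (r 1))
  have hrr : ∀ i : Fin 2, r i ≤ max (r 0) (r 1) := by
    intro i
    fin_cases i
    · exact le_max_left _ _
    · exact le_max_right _ _
  refine ⟨C, ?_⟩
  intro R g₁ g₂ g₃ hadj hs1 hs2
  obtain ⟨i, γ, hγ, hγe⟩ := hadj
  have hg₂ : g₂ = g₁ * D.of i γ := by rw [← hγe]; group
  -- reduction to paths in the piece
  suffices hsuff : ∃ (n : ℕ) (p : ℕ → (D.P i).Γ), (D.P i).Par (p 0) ∧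
        (D.P i).Par (γ⁻¹ * p n) ∧ (∀ k < n, (p k)⁻¹ * p (k + 1) ∈ (D.P i).bal (r i)) ∧
          ∀ k ≤ n, R < D.dW X.S ((g₃⁻¹ * g₁) * D.of i (p k)) by
    obtain ⟨n, p, b1, b2, b3, b4⟩ := hsuff
    refine ⟨n, fun k => g₁ * D.of i (p k), ?_, ?_, ?_, ?_⟩
    · obtain ⟨v, hv, -⟩ := D.exists_ba i b1
      exact ⟨v, by simp only [hv]⟩
    · obtain ⟨v, hv, -⟩ := D.exists_ba i b2
      refine ⟨v, ?_⟩
      rw [hg₂, ← hv, map_mul, map_inv]
      group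
    · intro k hk
      simp only [wd_mul_left]
      exact hC i _ _ ((D.P i).bal_mono (hrr i) (b3 k hk))
    · intro k hk
      have := b4 k hk
      rwa [mul_assoc] at this
  by_cases hA : ∃ α : (D.P i).Γ, g₃⁻¹ * g₁ = D.of i α
  · obtain ⟨α, hα⟩ := hA
    have hα1 : ¬ (D.P i).Par α := by
      intro hp
      apply hs1
      obtain ⟨v, hv, -⟩ := D.exists_ba i hp
      exact (D.side_none X.A _).2 ⟨v, by rw [hα, hv]⟩
    have hα2 : ¬ (D.P i).Par (α * γ) := by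
      intro hp
      apply hs2
      obtain ⟨v, hv, -⟩ := D.exists_ba i hp
      refine (D.side_none X.A _).2 ⟨v, ?_⟩
      rw [hg₂, ← mul_assoc, hα, ← map_mul, hv]
    obtain ⟨ε, hε, hfar⟩ := D.low_far X.hS R
    obtain ⟨n, p, b1, b2, b3, b4⟩ := (hr i).2 ε hε α (α * γ) hα1 hα2
    refine ⟨n, fun k => α⁻¹ * p k, b1, ?_, ?_, ?_⟩
    · have e : (α * γ)⁻¹ * p n = γ⁻¹ * (α⁻¹ * p n) := by group
      rwa [e] at b2
    · intro k hk
      have e : (α⁻¹ * p k)⁻¹ * (α⁻¹ * p (k + 1)) = (p k)⁻¹ * p (k + 1) := by group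
      rw [e]
      exact b3 k hk
    · intro k hk
      rw [hα, ← map_mul, mul_inv_cancel_left]
      exact hfar i _ (b4 k hk)
  · push Not at hA
    obtain ⟨n, p, b1, b2, b3, b4⟩ := (hr i).1 _ (nsep_finite X R i _ hA) γ hγ
    refine ⟨n, p, b1, b2, b3, ?_⟩
    intro k hk
    have := b4 k hk
    simp only [Set.mem_ofPred_eq, not_le] at this
    exact this

end QIG
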