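import Pool.Agent.W_a51130_h62.Word

/-!
From the statement-level definition `QuasiIsom` to `QI` for prescribed generating sets; quasi-inverses.

PROOFS.
`wordLen_eq`: for a finite set `A` with `closure A = ⊤` let `A' = {g | g ∈ A ∨ g⁻¹ ∈ A} ∪ {1}`; `GSet A'`, and
`wordLen A g = wl A' g` (a product of `n` elements of `A'` is a product of at most `n` elements of `A ∪ A⁻¹`, by
dropping the factors `1`; conversely immediate; both are least lengths).
`QuasiIsom.exists_qi`: combine with `exists_wl_le` in both groups, constants rounded up to a natural number.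
`QI.exists_inv`: choose `f' y` with `wd S' y (f (f' y)) ≤ K`; the usual computation.
-/

namespace QIG

open scoped Pointwise

variable {G G' : Type} [Group G] [Group G']

/-- the symmetric generating set with `1` added -/
def wordQI_sym (A : Set G) : Set G := {g | (g ∈ A ∨ g⁻¹ ∈ A) ∨ g = 1}

theorem wordQI_inv_mem {T : Set G} (hT : ∀ g ∈ T, g⁻¹ ∈ T) :
    ∀ (n : ℕ) (g : G), g ∈ T ^ n → g⁻¹ ∈ T ^ n := by
  intro n
  induction n with
  | zero =>
    intro g hg
    rw [pow_zero, Set.mem_one] at hg ⊢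
    rw [hg, inv_one]
  | succ n ih =>
    intro g hg
    rw [pow_succ] at hg
    obtain ⟨a, ha, b, hb, rfl⟩ := Set.mem_mul.1 hg
    rw [pow_succ', mul_inv_rev]
    exact Set.mul_mem_mul (hT b hb) (ih a ha)

theorem wordQI_list_mem {A : Set G} : ∀ l : List G, (∀ s ∈ l, s ∈ A ∨ s⁻¹ ∈ A) →
    l.prod ∈ (wordQI_sym A) ^ l.length := by
  intro l
  induction l with
  | nil =>
    intro _
    simp
  | cons a l ih =>
    intro h
    rw [List.prod_cons, List.length_cons, pow_succ']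
    exact Set.mul_mem_mul (Or.inl (h a (List.mem_cons_self ..)))
      (ih fun s hs => h s (List.mem_cons_of_mem _ hs))

theorem wordQI_exists_list {A : Set G} : ∀ (n : ℕ) (g : G), g ∈ (wordQI_sym A) ^ n →
    ∃ l : List G, l.length ≤ n ∧ (∀ s ∈ l, s ∈ A ∨ s⁻¹ ∈ A) ∧ l.prod = g := by
  intro n
  induction n with
  | zero =>
    intro g hg
    rw [pow_zero, Set.mem_one] at hg
    exact ⟨[], by simp, by simp, by simp [hg]⟩
  | succ n ih =>
    intro g hg
    rw [pow_succ'] at hg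
    obtain ⟨a, ha, b, hb, rfl⟩ := Set.mem_mul.1 hg
    obtain ⟨l, hl, hl2, rfl⟩ := ih b hb
    rcases ha with ha | ha
    · refine ⟨a :: l, by simpa using hl, ?_, by simp⟩
      intro s hs
      rcases List.mem_cons.1 hs with rfl | hs
      · exact ha
      · exact hl2 s hs
    · exact ⟨l, by omega, hl2, by rw [ha, one_mul]⟩

theorem wordQI_gset {A : Set G} (hA : A.Finite) (h : Subgroup.closure A = ⊤) :
    GSet (wordQI_sym A) := by
  have hinv : ∀ g ∈ wordQI_sym A, g⁻¹ ∈ wordQI_sym A := by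
    intro g hg
    rcases hg with (hg | hg) | hg
    · exact Or.inl (Or.inr (by rwa [inv_inv]))
    · exact Or.inl (Or.inl hg)
    · exact Or.inr (by rw [hg, inv_one])
  refine ⟨?_, Or.inr rfl, hinv, ?_⟩
  · have h1 : wordQI_sym A ⊆ (A ∪ A⁻¹) ∪ {1} := by
      intro g hg
      rcases hg with (hg | hg) | hg
      · exact Or.inl (Or.inl hg)
      · exact Or.inl (Or.inr (Set.mem_inv.2 hg))
      · exact Or.inr hg
    exact ((hA.union hA.inv).union (Set.finite_singleton 1)).subset h1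
  · intro g
    have hg : g ∈ Subgroup.closure A := by rw [h]; exact Subgroup.mem_top g
    induction hg using Subgroup.closure_induction with
    | mem x hx =>
      refine ⟨1, ?_⟩
      rw [pow_one]
      exact Or.inl (Or.inl hx)
    | one => exact ⟨0, by simp⟩
    | mul x y _ _ hx hy =>
      obtain ⟨n, hn⟩ := hx
      obtain ⟨k, hk⟩ := hy
      refine ⟨n + k, ?_⟩
      rw [pow_add]
      exact Set.mul_mem_mul hn hk
    | inv x _ hx =>
      obtain ⟨n, hn⟩ := hx
      exact ⟨n, wordQI_inv_mem hinv n x hn⟩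

theorem exists_gset_of_closure {A : Set G} (hA : A.Finite) (h : Subgroup.closure A = ⊤) :
    ∃ A' : Set G, GSet A' ∧ ∀ g, wordLen A g = wl A' g := by
  have hG := wordQI_gset hA h
  refine ⟨wordQI_sym A, hG, fun g => ?_⟩
  unfold wordLen wl
  have hne2 : {n : ℕ | g ∈ (wordQI_sym A) ^ n}.Nonempty := hG.gen g
  have hle : ∀ n, g ∈ (wordQI_sym A) ^ n →
      ∃ n' ≤ n, n' ∈ {n | ∃ l : List G, l.length = n ∧ (∀ s ∈ l, s ∈ A ∨ s⁻¹ ∈ A) ∧
        l.prod = g} := by
    intro n hn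
    obtain ⟨l, hl, hl2, hl3⟩ := wordQI_exists_list n g hn
    exact ⟨l.length, hl, l, rfl, hl2, hl3⟩
  have hne1 : {n | ∃ l : List G, l.length = n ∧ (∀ s ∈ l, s ∈ A ∨ s⁻¹ ∈ A) ∧
      l.prod = g}.Nonempty := by
    obtain ⟨n, hn⟩ := hne2
    obtain ⟨n', _, hn'⟩ := hle n hn
    exact ⟨n', hn'⟩
  apply le_antisymm
  · obtain ⟨n', h1, h2⟩ := hle _ (Nat.sInf_mem hne2)
    exact (Nat.sInf_le h2).trans h1
  · obtain ⟨l, hl, hl2, hl3⟩ := Nat.sInf_mem hne1
    apply Nat.sInf_le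
    rw [← hl]
    change g ∈ (wordQI_sym A) ^ l.length
    have h4 := wordQI_list_mem l hl2
    rwa [hl3] at h4

theorem QuasiIsom.exists_qi (h : QuasiIsom G G') {S : Set G} {S' : Set G'} (hS : GSet S)
    (hS' : GSet S') : ∃ (f : G → G') (K : ℕ), QI S S' f K := by
  obtain ⟨A, A', hA, hcA, hA', hcA', f, K, hup, hlow, hsurj⟩ := h
  obtain ⟨T, hT, hTl⟩ := exists_gset_of_closure hA hcA
  obtain ⟨T', hT', hTl'⟩ := exists_gset_of_closure hA' hcA'
  obtain ⟨N1, hN1⟩ := exists_wl_le hT' hS'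
  obtain ⟨N2, hN2⟩ := exists_wl_le hS hT
  obtain ⟨N3, hN3⟩ := exists_wl_le hT hS
  obtain ⟨N4, hN4⟩ := exists_wl_le hS' hT'
  obtain ⟨k, hk⟩ : ∃ k : ℕ, K ≤ k := exists_nat_ge K
  have hup' : ∀ x y, wl T' ((f x)⁻¹ * f y) ≤ k * wl T (x⁻¹ * y) + k := by
    intro x y
    have h1 := hup x y
    rw [hTl, hTl'] at h1
    have h2 : (wl T' ((f x)⁻¹ * f y) : ℝ) ≤ k * wl T (x⁻¹ * y) + k :=
      h1.trans (add_le_add (mul_le_mul_of_nonneg_right hk (Nat.cast_nonneg _)) hk)
    exact_mod_cast h2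
  have hlow' : ∀ x y, wl T (x⁻¹ * y) ≤ k * wl T' ((f x)⁻¹ * f y) + k := by
    intro x y
    have h1 := hlow x y
    rw [hTl, hTl'] at h1
    have h2 : (wl T (x⁻¹ * y) : ℝ) ≤ k * wl T' ((f x)⁻¹ * f y) + k :=
      h1.trans (add_le_add (mul_le_mul_of_nonneg_right hk (Nat.cast_nonneg _)) hk)
    exact_mod_cast h2
  have hsurj' : ∀ z, ∃ x, wl T' (z⁻¹ * f x) ≤ k := by
    intro z
    obtain ⟨x, hx⟩ := hsurj z
    rw [hTl'] at hx
    refine ⟨x, ?_⟩
    have h2 : (wl T' (z⁻¹ * f x) : ℝ) ≤ k := hx.trans hk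
    exact_mod_cast h2
  refine ⟨f, N1 * k * N2 + N1 * k + N3 * k * N4 + N3 * k, ?_, ?_, ?_⟩
  · intro x y
    change wl S' ((f x)⁻¹ * f y) ≤ _ * wl S (x⁻¹ * y) + _
    have h1 : wl S' ((f x)⁻¹ * f y) ≤ N1 * (k * (N2 * wl S (x⁻¹ * y)) + k) := by
      refine (hN1 _).trans (Nat.mul_le_mul_left _ ?_)
      refine (hup' x y).trans (Nat.add_le_add_right (Nat.mul_le_mul_left _ (hN2 _)) _)
    refine h1.trans ?_
    have h2 : N1 * (k * (N2 * wl S (x⁻¹ * y)) + k) = N1 * k * N2 * wl S (x⁻¹ * y) + N1 * k := by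
      ring
    rw [h2]
    refine Nat.add_le_add (Nat.mul_le_mul_right _ ?_) ?_ <;> omega
  · intro x y
    change wl S (x⁻¹ * y) ≤ _ * wl S' ((f x)⁻¹ * f y) + _
    have h1 : wl S (x⁻¹ * y) ≤ N3 * (k * (N4 * wl S' ((f x)⁻¹ * f y)) + k) := by
      refine (hN3 _).trans (Nat.mul_le_mul_left _ ?_)
      refine (hlow' x y).trans (Nat.add_le_add_right (Nat.mul_le_mul_left _ (hN4 _)) _)
    refine h1.trans ?_
    have h2 : N3 * (k * (N4 * wl S' ((f x)⁻¹ * f y)) + k) =
        N3 * k * N4 * wl S' ((f x)⁻¹ * f y) + N3 * k := by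
      ring
    rw [h2]
    refine Nat.add_le_add (Nat.mul_le_mul_right _ ?_) ?_ <;> omega
  · intro z
    obtain ⟨x, hx⟩ := hsurj' z
    refine ⟨x, ?_⟩
    change wl S' (z⁻¹ * f x) ≤ _
    have h1 : wl S' (z⁻¹ * f x) ≤ N1 * k := (hN1 _).trans (Nat.mul_le_mul_left _ hx)
    omega

theorem QI.exists_inv {S : Set G} {S' : Set G'} (hS : GSet S) (hS' : GSet S') {f : G → G'} {K : ℕ}
    (hf : QI S S' f K) : ∃ (f' : G' → G) (K' : ℕ), QI S' S f' K' ∧ (∀ x, wd S x (f' (f x)) ≤ K') ∧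
      ∀ y, wd S' y (f (f' y)) ≤ K' := by
  choose f' hf' using hf.surj
  have hfx : ∀ x, wd S x (f' (f x)) ≤ K * K + K := by
    intro x
    refine (hf.low x (f' (f x))).trans ?_
    exact Nat.add_le_add_right (Nat.mul_le_mul_left _ (hf' (f x))) _
  refine ⟨f', 2 * (K * K) + 3 * K, ⟨?_, ?_, ?_⟩, ?_, ?_⟩
  · intro y z
    have h1 := hf.low (f' y) (f' z)
    have h2 : wd S' (f (f' y)) (f (f' z)) ≤ wd S' y z + 2 * K := by
      have h3 := wd_triangle hS' (f (f' y)) y (f (f' z))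
      have h4 := wd_triangle hS' y z (f (f' z))
      have h5 := wd_comm hS' (f (f' y)) y
      have h6 := hf' y
      have h7 := hf' z
      omega
    refine h1.trans ?_
    have h3 : K * wd S' (f (f' y)) (f (f' z)) + K ≤ K * (wd S' y z + 2 * K) + K :=
      Nat.add_le_add_right (Nat.mul_le_mul_left _ h2) _
    refine h3.trans ?_
    have h4 : K * (wd S' y z + 2 * K) + K = K * wd S' y z + (2 * (K * K) + K) := by ring
    rw [h4]
    refine Nat.add_le_add (Nat.mul_le_mul_right _ ?_) ?_ <;> omega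
  · intro y z
    have h1 := hf.up (f' y) (f' z)
    have h3 := wd_triangle hS' y (f (f' y)) z
    have h4 := wd_triangle hS' (f (f' y)) (f (f' z)) z
    have h5 := wd_comm hS' (f (f' z)) z
    have h6 := hf' y
    have h7 := hf' z
    have h8 : wd S' y z ≤ K * wd S (f' y) (f' z) + 3 * K := by omega
    refine h8.trans ?_
    refine Nat.add_le_add (Nat.mul_le_mul_right _ ?_) ?_ <;> omega
  · intro x
    refine ⟨f x, (hfx x).trans ?_⟩
    omega
  · intro x
    refine (hfx x).trans ?_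
    omega
  · intro y
    refine (hf' y).trans ?_
    omega

end QIG
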