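import Pool.Agent.W_a51130_h62.AdjMap
import Pool.Agent.W_a51130_h62.WordQI

/-!
Piece maps.

PROOF.  `QuasiIsom.exists_qi`, `QI.exists_inv` give `f, f'`; `exists_near` (both directions, common `R`) gives
`F₀, F₀'`.  Replace `f` by `x ↦ (F₀ 1)⁻¹ f x` and `f'` by `y ↦ f' (F₀ 1 * y)` (left translations are isometries) so that we
may take `F 1 = 1` (`NearW f R 1 1`), and `F' 1` is in the wall (`near_inv`), so also take `F' 1 = 1`.
For `γ ∈ Γ_i` not parabolic: `Adj 1 (of i γ)`, so `Adj' 1 (F (of i γ))`: `F (of i γ) = of j γ'`, `γ'` not parabolic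
(`F 1 = 1`), and `j = j(i,γ)` is well defined (`side`).  If `γ₁, γ₂ ∈ Γ_i` are not parabolic and in different
cosets, then `Adj (of i γ₁)(of i γ₂)` so `Adj'`: `of j₁ γ₁'⁻¹ * of j₂ γ₂' = of k γ''`, impossible for `j₁ ≠ j₂`
(`Gl.of_mul_of_ne`); same coset: same wall (`near_unique`), same side.  So `j = τ i`.  The same for `f'`: `τ'`.
`F' (F g)` is the wall of `g` (`near_inv`), so `τ' (τ i) = i` (there are non-parabolic elements), and `τ` is a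
permutation of `Fin 2`.
`F_i(γ)`: `f (of i γ)` is within `R` of the wall `F (of i γ)` (`NearW` with `v = 0`), which for `γ` not parabolic is
`of (τ i) γ' Λ'`, and for `γ` parabolic is `Λ'`: choose `F_i(γ) ∈ Γ'_(τ i)` in this wall with
`wd (f (of i γ)) (of (τ i) (F_i γ)) ≤ R`.  Similarly `F'_i` from `f'`.
`PieceMap`: `bal`: `Gl.wd_of_bal` in `D`, `QI.up`, triangle inequality, `Gl.bal_of_wd` in `D'`.
`lat`: `γ tr v` is in the same coset, so `F_i(γ tr v)`, `F_i(γ)` are in the same wall (`near_unique`), their quotient is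
parabolic, `= tr v'`; the bound: `wd (of i γ)(of i (γ tr v)) ≤ C(1+‖v‖)` (`wall_lattice`, `Ψ_i` bounded), QI, and
`‖v'‖ ≤ C(1 + wd')` (`wall_lattice`).  `par`: `F 1 = 1`.  `inv`: `near_inv` (coset) and distances
(`Gl.bal_of_wd`).
`ω`: `F_i(φ_i v)` is parabolic, `of (τ i)(F_i (φ_i v)) = ba' (w_i)`, within `R` of `f (ba v)` for `i = 0, 1`; so
`wd (ba' w_0)(ba' w_1) ≤ 2R`, `‖w_0 - w_1‖ ≤ C`; put `ω v = w_0`; the translation vector of `F_i(φ_i v)` is `Ψ'_(τ i) w_i`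
(`Gl.exists_ba`).
-/

namespace QIG

variable {m : ℕ}

/-- A quasi-isometry with a quasi-inverse and the corresponding wall maps, normalised at `1`. -/
structure PMData (D D' : Gl m) where
  X : Full D
  X' : Full D'
  f : D.G → D'.G
  f' : D'.G → D.G
  K : ℕ
  R : ℕ
  hf : QI X.S X'.S f K
  hf' : QI X'.S X.S f' K
  h1 : ∀ x, wd X.S x (f' (f x)) ≤ K
  h2 : ∀ y, wd X'.S y (f (f' y)) ≤ K
  F : D.G → D'.G
  F' : D'.G → D.G
  hF : ∀ g, NearW D D' X'.S f R g (F g)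
  hF' : ∀ g, NearW D' D X.S f' R g (F' g)
  F1 : F 1 = 1
  F1' : F' 1 = 1

/-- The same data in the other direction. -/
def PMData.symm {D D' : Gl m} (Y : PMData D D') : PMData D' D where
  X := Y.X'
  X' := Y.X
  f := Y.f'
  f' := Y.f
  K := Y.K
  R := Y.R
  hf := Y.hf'
  hf' := Y.hf
  h1 := Y.h2
  h2 := Y.h1
  F := Y.F'
  F' := Y.F
  hF := Y.hF'
  hF' := Y.hF
  F1 := Y.F1'
  F1' := Y.F1

theorem pmap_qi_mono {G G' : Type} [Group G] [Group G'] {S : Set G} {S' : Set G'} {f : G → G'}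
    {K K' : ℕ} (h : QI S S' f K) (hK : K ≤ K') : QI S S' f K' := by
  refine ⟨fun x y => (h.up x y).trans ?_, fun x y => (h.low x y).trans ?_, fun z => ?_⟩
  · exact Nat.add_le_add (Nat.mul_le_mul_right _ hK) hK
  · exact Nat.add_le_add (Nat.mul_le_mul_right _ hK) hK
  · obtain ⟨x, hx⟩ := h.surj z
    exact ⟨x, hx.trans hK⟩

theorem pmap_near_ba {D D' : Gl m} {S' : Set D'.G} {f : D.G → D'.G} {R : ℕ} {g : D.G}
    {g' : D'.G} (v : (D.P 0).lat) (h : NearW D D' S' f R (g * D.ba v) g') :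
    NearW D D' S' f R g g' := by
  intro w
  have h1 := h (-v + w)
  have h2 : g * D.ba v * D.ba (-v + w) = g * D.ba w := by
    rw [mul_assoc, ← D.ba_add, add_neg_cancel_left]
  rwa [h2] at h1

theorem exists_pmdata (hm : 2 ≤ m) (D D' : Gl m) (h : QuasiIsom D.G D'.G) :
    Nonempty (PMData D D') := by
  obtain ⟨X⟩ := exists_full D
  obtain ⟨X'⟩ := exists_full D'
  obtain ⟨f, K, hf⟩ := h.exists_qi X.hS X'.hS
  obtain ⟨f', K', hf', h1, h2⟩ := QI.exists_inv X.hS X'.hS hf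
  obtain ⟨R, hR⟩ := exists_near hm X X' hf
  obtain ⟨R', hR'⟩ := exists_near hm X' X hf'
  choose F₀ hF₀ using hR
  choose F₀' hF₀' using hR'
  set c : D'.G := F₀ 1 with hc
  -- the translated maps
  set f₁ : D.G → D'.G := fun x => c⁻¹ * f x with hf₁
  set f₁' : D'.G → D.G := fun y => f' (c * y) with hf₁'
  have hwd : ∀ x y, wd X'.S (c⁻¹ * x) y = wd X'.S x (c * y) := by
    intro x y
    rw [← wd_mul_left X'.S c (c⁻¹ * x) y, mul_inv_cancel_left]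
  have hwd2 : ∀ x y, wd X'.S x (c⁻¹ * y) = wd X'.S (c * x) y := by
    intro x y
    rw [← wd_mul_left X'.S c x (c⁻¹ * y), mul_inv_cancel_left]
  have q1 : QI X.S X'.S f₁ (max K K') := by
    apply pmap_qi_mono (K := K) _ (le_max_left _ _)
    refine ⟨fun x y => ?_, fun x y => ?_, fun z => ?_⟩
    · change wd X'.S (c⁻¹ * f x) (c⁻¹ * f y) ≤ _
      rw [wd_mul_left]
      exact hf.up x y
    · change _ ≤ K * wd X'.S (c⁻¹ * f x) (c⁻¹ * f y) + K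
      rw [wd_mul_left]
      exact hf.low x y
    · obtain ⟨x, hx⟩ := hf.surj (c * z)
      refine ⟨x, ?_⟩
      change wd X'.S z (c⁻¹ * f x) ≤ K
      rw [hwd2]
      exact hx
  have q2 : QI X'.S X.S f₁' (max K K') := by
    apply pmap_qi_mono (K := K') _ (le_max_right _ _)
    refine ⟨fun x y => ?_, fun x y => ?_, fun z => ?_⟩
    · have h3 := hf'.up (c * x) (c * y)
      rwa [wd_mul_left] at h3
    · have h3 := hf'.low (c * x) (c * y)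
      rwa [wd_mul_left] at h3
    · obtain ⟨x, hx⟩ := hf'.surj z
      refine ⟨c⁻¹ * x, ?_⟩
      change wd X.S z (f' (c * (c⁻¹ * x))) ≤ K'
      rw [mul_inv_cancel_left]
      exact hx
  have q3 : ∀ x, wd X.S x (f₁' (f₁ x)) ≤ max K K' := by
    intro x
    change wd X.S x (f' (c * (c⁻¹ * f x))) ≤ _
    rw [mul_inv_cancel_left]
    exact (h1 x).trans (le_max_right _ _)
  have q4 : ∀ y, wd X'.S y (f₁ (f₁' y)) ≤ max K K' := by
    intro y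
    change wd X'.S y (c⁻¹ * f (f' (c * y))) ≤ _
    rw [hwd2]
    exact (h2 (c * y)).trans (le_max_right _ _)
  have q5 : ∀ g, NearW D D' X'.S f₁ (max R R') g (c⁻¹ * F₀ g) := by
    intro g v
    change D'.dW X'.S ((c⁻¹ * F₀ g)⁻¹ * (c⁻¹ * f (g * D.ba v))) ≤ _
    have h3 : (c⁻¹ * F₀ g)⁻¹ * (c⁻¹ * f (g * D.ba v)) = (F₀ g)⁻¹ * f (g * D.ba v) := by group
    rw [h3]
    exact (hF₀ g v).trans (le_max_left _ _)
  have q6 : ∀ g, NearW D' D X.S f₁' (max R R') g (F₀' (c * g)) := by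
    intro g v
    change D.dW X.S ((F₀' (c * g))⁻¹ * f' (c * (g * D'.ba v))) ≤ _
    rw [← mul_assoc c]
    exact (hF₀' (c * g) v).trans (le_max_right _ _)
  have q7 : c⁻¹ * F₀ 1 = 1 := by rw [← hc, inv_mul_cancel]
  have q8 : NearW D D' X'.S f₁ (max R R') 1 1 := by
    have := q5 1
    rwa [q7] at this
  have q9 : NearW D' D X.S f₁' (max R R') 1 1 := by
    obtain ⟨w, hw⟩ := near_inv (by omega) X X' q1 q2 q3 q8 (q6 1)
    intro v
    have h3 := q6 1 v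
    rw [hw] at h3
    have h4 := D.dW_ba_mul X.hS w ((1 * D.ba w)⁻¹ * f₁' (1 * D'.ba v))
    have h5 : D.ba w * ((1 * D.ba w)⁻¹ * f₁' (1 * D'.ba v)) =
        (1 : D.G)⁻¹ * f₁' (1 * D'.ba v) := by group
    rw [h5] at h4
    rw [h4]
    exact h3
  classical
  exact ⟨{ X := X, X' := X', f := f₁, f' := f₁', K := max K K', R := max R R', hf := q1,
           hf' := q2, h1 := q3, h2 := q4, F := fun g => c⁻¹ * F₀ g,
           F' := fun g => if g = 1 then 1 else F₀' (c * g), hF := q5,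
           hF' := fun g => by
             by_cases hg : g = 1
             · rw [hg, if_pos rfl]; exact q9
             · rw [if_neg hg]; exact q6 g,
           F1 := q7, F1' := if_pos rfl }⟩

section

variable {D D' : Gl m} (Y : PMData D D')

theorem PMData.adj (hm : 2 ≤ m) {g₁ g₂ : D.G} (h : D.Adj g₁ g₂) : D'.Adj (Y.F g₁) (Y.F g₂) :=
  adj_map hm Y.X Y.X' Y.hf Y.hf' Y.h1 Y.h2 Y.hF Y.hF' h

theorem PMData.inv (hm : 2 ≤ m) (g : D.G) : ∃ w, Y.F' (Y.F g) = g * D.ba w :=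
  near_inv (by omega) Y.X Y.X' Y.hf Y.hf' Y.h1 (Y.hF g) (Y.hF' (Y.F g))

theorem PMData.same (hm : 2 ≤ m) (g : D.G) (v : (D.P 0).lat) :
    ∃ w, Y.F (g * D.ba v) = Y.F g * D'.ba w :=
  near_unique (by omega) Y.X Y.X' Y.hf (Y.hF g) (pmap_near_ba v (Y.hF (g * D.ba v)))

theorem PMData.ba (hm : 2 ≤ m) (v : (D.P 0).lat) : ∃ w, Y.F (D.ba v) = D'.ba w := by
  obtain ⟨w, hw⟩ := Y.same hm 1 v
  rw [one_mul, Y.F1, one_mul] at hw
  exact ⟨w, hw⟩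

/-- The pieces `i` and `j` correspond to each other. -/
def PMData.Rel (i j : Fin 2) : Prop := ∃ (γ : (D.P i).Γ) (γ' : (D'.P j).Γ), ¬ (D.P i).Par γ ∧
  ¬ (D'.P j).Par γ' ∧ Y.F (D.of i γ) = D'.of j γ'

theorem Gl.pm_of_mul_ba (D : Gl m) (i : Fin 2) (γ : (D.P i).Γ) (v : (D.P 0).lat) :
    D.of i γ * D.ba v = D.of i (γ * D.φ i (Multiplicative.ofAdd v)) := by
  rw [map_mul, D.of_par]

theorem Gl.pm_par_phi (D : Gl m) (i : Fin 2) (v : (D.P 0).lat) :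
    (D.P i).Par (D.φ i (Multiplicative.ofAdd v)) := (D.mem_range_iff i _).1 ⟨_, rfl⟩

theorem Gl.pm_not_par (D : Gl m) {i : Fin 2} {γ : (D.P i).Γ} (h : ¬ (D.P i).Par γ)
    (v : (D.P 0).lat) : ¬ (D.P i).Par (γ * D.φ i (Multiplicative.ofAdd v)) := by
  intro hp
  apply h
  have h1 := (D.P i).par_mul hp ((D.P i).par_inv (D.pm_par_phi i v))
  rwa [mul_inv_cancel_right] at h1

theorem PMData.exists_of (hm : 2 ≤ m) {i : Fin 2} {γ : (D.P i).Γ} (h : ¬ (D.P i).Par γ) :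
    ∃ (j : Fin 2) (γ' : (D'.P j).Γ), ¬ (D'.P j).Par γ' ∧ Y.F (D.of i γ) = D'.of j γ' := by
  have h1 : D.Adj 1 (D.of i γ) := ⟨i, γ, h, by rw [inv_one, one_mul]⟩
  obtain ⟨j, γ', h2, h3⟩ := Y.adj hm h1
  rw [Y.F1, inv_one, one_mul] at h3
  exact ⟨j, γ', h2, h3⟩

theorem PMData.rel_all (hm : 2 ≤ m) {i j : Fin 2} (hR : Y.Rel i j) {γ : (D.P i).Γ}
    (h : ¬ (D.P i).Par γ) : ∃ γ' : (D'.P j).Γ, ¬ (D'.P j).Par γ' ∧
      Y.F (D.of i γ) = D'.of j γ' := by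
  obtain ⟨γ₀, γ₀', h0, h0', h0F⟩ := hR
  by_cases hc : (D.P i).Par (γ₀⁻¹ * γ)
  · obtain ⟨v, hv, -, -⟩ := D.exists_ba i hc
    have h1 : D.of i γ = D.of i γ₀ * D.ba v := by
      rw [← hv, ← map_mul, mul_inv_cancel_left]
    obtain ⟨w, hw⟩ := Y.same hm (D.of i γ₀) v
    rw [h1, hw, h0F, D'.pm_of_mul_ba]
    exact ⟨_, D'.pm_not_par h0' w, rfl⟩
  · obtain ⟨k, γ', hk, hkF⟩ := Y.exists_of hm h
    have h1 : D.Adj (D.of i γ₀) (D.of i γ) := ⟨i, γ₀⁻¹ * γ, hc, by rw [map_mul, map_inv]⟩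
    obtain ⟨l, γ'', -, h3⟩ := Y.adj hm h1
    rw [h0F, hkF, ← map_inv] at h3
    by_cases hjk : j = k
    · subst hjk
      exact ⟨γ', hk, hkF⟩
    · exact absurd h3 (D'.of_mul_of_ne Y.X'.A hjk
        (fun hp => h0' (by have := (D'.P j).par_inv hp; rwa [inv_inv] at this)) hk)

theorem Gl.pm_side_eq (D : Gl m) (A : AmalStr D.φ) {i j : Fin 2} {γ : (D.P i).Γ}
    {γ' : (D.P j).Γ} (h : ¬ (D.P i).Par γ) (h' : ¬ (D.P j).Par γ')
    (he : D.of i γ = D.of j γ') : i = j := by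
  have h1 := D.side_of A h
  rw [he, D.side_of A h'] at h1
  exact (Option.some.inj h1).symm

theorem PMData.rel_unique (hm : 2 ≤ m) {i j k : Fin 2} (h : Y.Rel i j) (h' : Y.Rel i k) :
    j = k := by
  obtain ⟨γ, γ', h1, h2, h3⟩ := h'
  obtain ⟨δ, h4, h5⟩ := Y.rel_all hm h h1
  rw [h3] at h5
  exact (D'.pm_side_eq Y.X'.A h2 h4 h5).symm

theorem PMData.rel_exists (hm : 2 ≤ m) (i : Fin 2) : ∃ j, Y.Rel i j := by
  obtain ⟨γ, hγ⟩ := (D.P i).exists_not_par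
  obtain ⟨j, γ', h1, h2⟩ := Y.exists_of hm hγ
  exact ⟨j, γ, γ', hγ, h1, h2⟩

theorem PMData.rel_symm (hm : 2 ≤ m) {i j : Fin 2} (h : Y.Rel i j) : Y.symm.Rel j i := by
  obtain ⟨γ, γ', h1, h2, h3⟩ := h
  obtain ⟨w, hw⟩ := Y.inv hm (D.of i γ)
  rw [h3, D.pm_of_mul_ba] at hw
  exact ⟨γ', _, h2, D.pm_not_par h1 w, hw⟩

theorem PMData.exists_perm (hm : 2 ≤ m) : ∃ τ : Equiv.Perm (Fin 2), ∀ i, Y.Rel i (τ i) := by
  choose τ hτ using Y.rel_exists hm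
  have hinj : Function.Injective τ := by
    intro i i' hii
    have h1 := Y.rel_symm hm (hτ i)
    have h2 := Y.rel_symm hm (hτ i')
    rw [← hii] at h2
    exact Y.symm.rel_unique hm h1 h2
  exact ⟨Equiv.ofBijective τ (Finite.injective_iff_bijective.1 hinj), hτ⟩

/-- The wall image of an element of a piece is represented in the corresponding piece. -/
theorem PMData.exists_img (hm : 2 ≤ m) {i j : Fin 2} (hR : Y.Rel i j) (γ : (D.P i).Γ) :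
    ∃ γ' : (D'.P j).Γ, Y.F (D.of i γ) = D'.of j γ' := by
  by_cases h : (D.P i).Par γ
  · obtain ⟨v, hv, -, -⟩ := D.exists_ba i h
    obtain ⟨w, hw⟩ := Y.ba hm v
    rw [hv, hw, ← D'.of_par j w]
    exact ⟨_, rfl⟩
  · obtain ⟨γ', -, h2⟩ := Y.rel_all hm hR h
    exact ⟨γ', h2⟩

theorem PMData.exists_map (hm : 2 ≤ m) {i j : Fin 2} (hR : Y.Rel i j) (γ : (D.P i).Γ) :
    ∃ δ : (D'.P j).Γ, (∃ w, D'.of j δ = Y.F (D.of i γ) * D'.ba w) ∧
      wd Y.X'.S (Y.f (D.of i γ)) (D'.of j δ) ≤ Y.R := by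
  obtain ⟨γ', hγ'⟩ := Y.exists_img hm hR γ
  have h1 := Y.hF (D.of i γ) 0
  rw [D.ba_zero, mul_one] at h1
  obtain ⟨v, hv⟩ := D'.exists_dW Y.X'.hS ((Y.F (D.of i γ))⁻¹ * Y.f (D.of i γ))
  refine ⟨γ' * D'.φ j (Multiplicative.ofAdd v), ⟨v, ?_⟩, ?_⟩
  · rw [hγ', D'.pm_of_mul_ba]
  · rw [← D'.pm_of_mul_ba, ← hγ', wd_comm Y.X'.hS]
    have h2 := wd_mul_left Y.X'.S (Y.F (D.of i γ)) (D'.ba v)
      ((Y.F (D.of i γ))⁻¹ * Y.f (D.of i γ))
    rw [mul_inv_cancel_left] at h2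
    rw [h2, hv]
    exact h1

/-- The defining properties of a piece map. -/
structure PMData.Good (i j : Fin 2) (G : (D.P i).Γ → (D'.P j).Γ) : Prop where
  wall : ∀ γ, ∃ w, D'.of j (G γ) = Y.F (D.of i γ) * D'.ba w
  dist : ∀ γ, wd Y.X'.S (Y.f (D.of i γ)) (D'.of j (G γ)) ≤ Y.R

variable {Y} {i j : Fin 2} {G : (D.P i).Γ → (D'.P j).Γ} {G' : (D'.P j).Γ → (D.P i).Γ}

theorem PMData.Good.wd_le (hG : Y.Good i j G) (g h : (D.P i).Γ) :
    wd Y.X'.S (D'.of j (G g)) (D'.of j (G h)) ≤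
      Y.K * wd Y.X.S (D.of i g) (D.of i h) + Y.K + 2 * Y.R := by
  have h1 := hG.dist g
  have h2 := hG.dist h
  have h3 := Y.hf.up (D.of i g) (D.of i h)
  have h4 := wd_triangle Y.X'.hS (D'.of j (G g)) (Y.f (D.of i g)) (D'.of j (G h))
  have h5 := wd_triangle Y.X'.hS (Y.f (D.of i g)) (Y.f (D.of i h)) (D'.of j (G h))
  have h6 := wd_comm Y.X'.hS (D'.of j (G g)) (Y.f (D.of i g))
  omega

theorem PMData.Good.bal (hG : Y.Good i j G) (r : ℝ) : ∃ r' : ℝ, ∀ g h,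
    g⁻¹ * h ∈ (D.P i).bal r → (G g)⁻¹ * G h ∈ (D'.P j).bal r' := by
  obtain ⟨N, hN⟩ := D.wd_of_bal Y.X.hS r
  obtain ⟨r', hr'⟩ := D'.bal_of_wd Y.X'.hS (Y.K * N + Y.K + 2 * Y.R)
  refine ⟨r', fun g h hgh => hr' j _ _ ?_⟩
  refine (hG.wd_le g h).trans ?_
  have h1 := Nat.mul_le_mul_left Y.K (hN i g h hgh)
  omega

theorem PMData.Good.same (hm : 2 ≤ m) (hG : Y.Good i j G) (g : (D.P i).Γ) (v : (D.P 0).lat) :
    ∃ w, D'.of j (G (g * D.φ i (Multiplicative.ofAdd v))) = D'.of j (G g) * D'.ba w := by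
  obtain ⟨w1, h1⟩ := hG.wall (g * D.φ i (Multiplicative.ofAdd v))
  obtain ⟨w2, h2⟩ := hG.wall g
  rw [← D.pm_of_mul_ba] at h1
  obtain ⟨w3, h3⟩ := Y.same hm (D.of i g) v
  refine ⟨-w2 + (w3 + w1), ?_⟩
  rw [h1, h3, h2, D'.ba_add, D'.ba_add, D'.ba_neg]
  group

theorem Gl.pm_lat (D : Gl m) (i : Fin 2) (v : (D.P 0).lat) :
    ∃ w : (D.P i).lat, (w : E m) = D.Ψ i (v : E m) ∧
      (D.P i).tr w = D.φ i (Multiplicative.ofAdd v) := by
  have h1 : transl (D.Ψ i (v : E m)) ∈ (D.P i).Γ := by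
    rw [← D.hΨ i v]
    exact (glueMap D.P D.ψ i (Multiplicative.ofAdd v)).2
  refine ⟨⟨D.Ψ i (v : E m), h1⟩, rfl, ?_⟩
  apply Subtype.ext
  exact (D.hΨ i v).symm

theorem Gl.pm_tr (D : Gl m) (i : Fin 2) (v : (D.P i).lat) :
    ∃ u : (D.P 0).lat, (v : E m) = D.Ψ i (u : E m) ∧
      (D.P i).tr v = D.φ i (Multiplicative.ofAdd u) := by
  obtain ⟨u, -, h2, h3⟩ := D.exists_ba i ((D.P i).par_tr v)
  refine ⟨u, ?_, h2⟩
  have h4 : transl (v : E m) = transl (D.Ψ i (u : E m)) := h3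
  exact transl_injective h4

theorem PMData.Good.lat (hm : 2 ≤ m) (hG : Y.Good i j G) : ∃ K : ℝ, ∀ (g : (D.P i).Γ)
    (v : (D.P i).lat), ∃ v' : (D'.P j).lat, G (g * (D.P i).tr v) = G g * (D'.P j).tr v' ∧
      ‖(v' : E m)‖ ≤ K * (1 + ‖(v : E m)‖) := by
  obtain ⟨C, hC1, hC⟩ := wall_lattice Y.X
  obtain ⟨C', hC1', hC'⟩ := wall_lattice Y.X'
  set κ : ℝ := ‖((D.Ψ i).symm : E m →L[ℝ] E m)‖ with hκ
  set κ' : ℝ := ‖((D'.Ψ j) : E m →L[ℝ] E m)‖ with hκ'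
  have hκ0 : 0 ≤ κ := norm_nonneg _
  have hκ0' : 0 ≤ κ' := norm_nonneg _
  refine ⟨κ' * (C' * (2 * Y.R + Y.K + Y.K * (C * (1 + κ)))), fun g v => ?_⟩
  obtain ⟨u, hu, hu2⟩ := D.pm_tr i v
  rw [hu2]
  obtain ⟨w, hw⟩ := hG.same hm g u
  obtain ⟨v', hv', hv2'⟩ := D'.pm_lat j w
  refine ⟨v', ?_, ?_⟩
  · rw [hv2']
    apply D'.of_injective j
    rw [hw, D'.pm_of_mul_ba]
  · have h1 := hG.wd_le g (g * D.φ i (Multiplicative.ofAdd u))
    have h2 : wd Y.X.S (D.of i g) (D.of i (g * D.φ i (Multiplicative.ofAdd u))) =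
        wd Y.X.S (D.ba 0) (D.ba u) := by
      rw [← D.pm_of_mul_ba, D.ba_zero, ← wd_mul_left Y.X.S (D.of i g) 1 (D.ba u), mul_one]
    have h3 : wd Y.X'.S (D'.of j (G g))
        (D'.of j (G (g * D.φ i (Multiplicative.ofAdd u)))) = wd Y.X'.S (D'.ba 0) (D'.ba w) := by
      rw [hw, D'.ba_zero, ← wd_mul_left Y.X'.S (D'.of j (G g)) 1 (D'.ba w), mul_one]
    rw [h2, h3] at h1
    have h4 := (hC 0 u).1
    have h5 := (hC' 0 w).2
    have e1 : ‖((0 : (D.P 0).lat) : E m) - (u : E m)‖ = ‖(u : E m)‖ := by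
      rw [ZeroMemClass.coe_zero, zero_sub, norm_neg]
    have e2 : ‖((0 : (D'.P 0).lat) : E m) - (w : E m)‖ = ‖(w : E m)‖ := by
      rw [ZeroMemClass.coe_zero, zero_sub, norm_neg]
    rw [e1] at h4
    rw [e2] at h5
    have h6 : ‖(u : E m)‖ ≤ κ * ‖(v : E m)‖ := by
      have : (u : E m) = (D.Ψ i).symm (v : E m) := by
        rw [hu, ContinuousLinearEquiv.symm_apply_apply]
      rw [this]
      exact ContinuousLinearMap.le_opNorm ((D.Ψ i).symm : E m →L[ℝ] E m) (v : E m)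
    have h7 : ‖(v' : E m)‖ ≤ κ' * ‖(w : E m)‖ := by
      rw [hv']
      exact ContinuousLinearMap.le_opNorm ((D'.Ψ j) : E m →L[ℝ] E m) (w : E m)
    have h8 : (wd Y.X'.S (D'.ba 0) (D'.ba w) : ℝ) ≤
        Y.K * (wd Y.X.S (D.ba 0) (D.ba u) : ℝ) + Y.K + 2 * Y.R := by
      exact_mod_cast h1
    have hK0 : (0 : ℝ) ≤ Y.K := Nat.cast_nonneg _
    have hR0 : (0 : ℝ) ≤ Y.R := Nat.cast_nonneg _
    have hv0 : 0 ≤ ‖(v : E m)‖ := norm_nonneg _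
    have hC0 : 0 ≤ C := by linarith
    have hC0' : 0 ≤ C' := by linarith
    have h9 : (wd Y.X.S (D.ba 0) (D.ba u) : ℝ) ≤ C * (1 + κ) * (1 + ‖(v : E m)‖) := by
      refine h4.trans ?_
      have : C * (1 + ‖(u : E m)‖) ≤ C * (1 + κ * ‖(v : E m)‖) := by gcongr
      refine this.trans ?_
      have : 0 ≤ C * (κ + ‖(v : E m)‖) := by positivity
      nlinarith
    have h10 : (wd Y.X'.S (D'.ba 0) (D'.ba w) : ℝ) ≤
        (2 * Y.R + Y.K + Y.K * (C * (1 + κ))) * (1 + ‖(v : E m)‖) := by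
      refine h8.trans ?_
      have h11 : (Y.K : ℝ) * (wd Y.X.S (D.ba 0) (D.ba u) : ℝ) ≤
          Y.K * (C * (1 + κ) * (1 + ‖(v : E m)‖)) := mul_le_mul_of_nonneg_left h9 hK0
      have h12 : 0 ≤ (2 * (Y.R : ℝ) + Y.K) * ‖(v : E m)‖ := by positivity
      nlinarith
    calc ‖(v' : E m)‖ ≤ κ' * ‖(w : E m)‖ := h7
      _ ≤ κ' * (C' * ((2 * Y.R + Y.K + Y.K * (C * (1 + κ))) * (1 + ‖(v : E m)‖))) := by
          apply mul_le_mul_of_nonneg_left _ hκ0'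
          exact h5.trans (mul_le_mul_of_nonneg_left h10 hC0')
      _ = κ' * (C' * (2 * Y.R + Y.K + Y.K * (C * (1 + κ)))) * (1 + ‖(v : E m)‖) := by ring

theorem PMData.Good.par (hG : Y.Good i j G) : (D'.P j).Par (G 1) := by
  obtain ⟨w, hw⟩ := hG.wall 1
  rw [map_one, Y.F1, one_mul, ← D'.of_par j w] at hw
  rw [D'.of_injective j hw]
  exact D'.pm_par_phi j w

theorem PMData.Good.inv (hm : 2 ≤ m) (hG : Y.Good i j G) (hG' : Y.symm.Good j i G') :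
    ∃ r : ℝ, ∀ g, (D.P i).Par (g⁻¹ * G' (G g)) ∧ g⁻¹ * G' (G g) ∈ (D.P i).bal r := by
  obtain ⟨r, hr⟩ := D.bal_of_wd Y.X.hS (Y.K + (Y.K * Y.R + Y.K) + Y.R)
  refine ⟨r, fun g => ⟨?_, hr i _ _ ?_⟩⟩
  · obtain ⟨w1, h1⟩ := hG'.wall (G g)
    obtain ⟨w2, h2⟩ := hG.wall g
    obtain ⟨w3, h3⟩ := Y.symm.same hm (Y.F (D.of i g)) w2
    obtain ⟨w4, h4⟩ := Y.inv hm (D.of i g)
    have h5 : D.of i (G' (G g)) = D.of i (g * D.φ i (Multiplicative.ofAdd (w4 + (w3 + w1)))) := by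
      rw [h1, h2, h3]
      change Y.F' (Y.F (D.of i g)) * D.ba w3 * D.ba w1 = _
      rw [h4, ← D.pm_of_mul_ba, D.ba_add, D.ba_add]
      group
    rw [D.of_injective i h5, inv_mul_cancel_left]
    exact D.pm_par_phi i _
  · have h1 := Y.h1 (D.of i g)
    have h2 := hG.dist g
    have h3 : wd Y.X.S (Y.f' (D'.of j (G g))) (D.of i (G' (G g))) ≤ Y.R := hG'.dist (G g)
    have h4 := Y.hf'.up (Y.f (D.of i g)) (D'.of j (G g))
    have h5 := Nat.mul_le_mul_left Y.K h2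
    have h6 := wd_triangle Y.X.hS (D.of i g) (Y.f' (Y.f (D.of i g))) (D.of i (G' (G g)))
    have h7 := wd_triangle Y.X.hS (Y.f' (Y.f (D.of i g))) (Y.f' (D'.of j (G g)))
      (D.of i (G' (G g)))
    omega

theorem PMData.Good.pieceMap (hm : 2 ≤ m) (hG : Y.Good i j G) (hG' : Y.symm.Good j i G') :
    PieceMap (D.P i) (D'.P j) G G' where
  bal := hG.bal
  bal' := hG'.bal
  lat := hG.lat hm
  lat' := hG'.lat hm
  par := hG.par
  par' := hG'.par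
  inv := hG.inv hm hG'
  inv' := hG'.inv hm hG

end

theorem exists_piece_maps (hm : 2 ≤ m) (D D' : Gl m) (h : QuasiIsom D.G D'.G) :
    ∃ (τ : Equiv.Perm (Fin 2)) (F : ∀ i, (D.P i).Γ → (D'.P (τ i)).Γ)
      (F' : ∀ i, (D'.P (τ i)).Γ → (D.P i).Γ) (ω : (D.P 0).lat → E m) (C : ℝ),
      (∀ i, PieceMap (D.P i) (D'.P (τ i)) (F i) (F' i)) ∧
      ∀ (i : Fin 2) (v : (D.P 0).lat), ∃ w : E m,
        (F i (D.φ i (Multiplicative.ofAdd v))).1 = transl w ∧ ‖w - D'.Ψ (τ i) (ω v)‖ ≤ C := by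
  obtain ⟨Y⟩ := exists_pmdata hm D D' h
  obtain ⟨τ, hτ⟩ := Y.exists_perm hm
  have hG0 : ∀ i, ∀ γ : (D.P i).Γ, ∃ δ : (D'.P (τ i)).Γ,
      (∃ w, D'.of (τ i) δ = Y.F (D.of i γ) * D'.ba w) ∧
      wd Y.X'.S (Y.f (D.of i γ)) (D'.of (τ i) δ) ≤ Y.R :=
    fun i γ => Y.exists_map hm (hτ i) γ
  have hG0' : ∀ i, ∀ γ : (D'.P (τ i)).Γ, ∃ δ : (D.P i).Γ,
      (∃ w, D.of i δ = Y.symm.F (D'.of (τ i) γ) * D.ba w) ∧
      wd Y.symm.X'.S (Y.symm.f (D'.of (τ i) γ)) (D.of i δ) ≤ Y.symm.R :=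
    fun i γ => Y.symm.exists_map hm (Y.rel_symm hm (hτ i)) γ
  choose F hF1 hF2 using hG0
  choose F' hF1' hF2' using hG0'
  have hG : ∀ i, Y.Good i (τ i) (F i) := fun i => ⟨hF1 i, hF2 i⟩
  have hG' : ∀ i, Y.symm.Good (τ i) i (F' i) := fun i => ⟨hF1' i, hF2' i⟩
  -- the wall
  have hW : ∀ (i : Fin 2) (v : (D.P 0).lat), ∃ w : (D'.P 0).lat,
      D'.of (τ i) (F i (D.φ i (Multiplicative.ofAdd v))) = D'.ba w := by
    intro i v
    obtain ⟨w1, h1⟩ := (hG i).wall (D.φ i (Multiplicative.ofAdd v))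
    obtain ⟨w2, h2⟩ := Y.ba hm v
    rw [D.of_par, h2, ← D'.ba_add] at h1
    exact ⟨_, h1⟩
  choose W hW using hW
  obtain ⟨C', hC1', hC'⟩ := wall_lattice Y.X'
  have hC0' : 0 ≤ C' := by linarith
  have hdist : ∀ (i : Fin 2) (v : (D.P 0).lat), ‖(W i v : E m) - (W 0 v : E m)‖ ≤
      C' * (2 * Y.R) := by
    intro i v
    refine ((hC' (W i v) (W 0 v)).2).trans ?_
    apply mul_le_mul_of_nonneg_left _ hC0'
    have h1 := (hG i).dist (D.φ i (Multiplicative.ofAdd v))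
    have h2 := (hG 0).dist (D.φ 0 (Multiplicative.ofAdd v))
    rw [D.of_par, hW] at h1 h2
    have h3 := wd_triangle Y.X'.hS (D'.ba (W i v)) (Y.f (D.ba v)) (D'.ba (W 0 v))
    have h4 := wd_comm Y.X'.hS (D'.ba (W i v)) (Y.f (D.ba v))
    have h5 : wd Y.X'.S (D'.ba (W i v)) (D'.ba (W 0 v)) ≤ 2 * Y.R := by omega
    exact_mod_cast h5
  refine ⟨τ, F, F', fun v => (W 0 v : E m),
    max ‖((D'.Ψ 0) : E m →L[ℝ] E m)‖ ‖((D'.Ψ 1) : E m →L[ℝ] E m)‖ * (C' * (2 * Y.R)),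
    fun i => (hG i).pieceMap hm (hG' i), fun i v => ?_⟩
  refine ⟨D'.Ψ (τ i) (W i v : E m), ?_, ?_⟩
  · have h1 : F i (D.φ i (Multiplicative.ofAdd v)) =
        D'.φ (τ i) (Multiplicative.ofAdd (W i v)) := by
      apply D'.of_injective (τ i)
      rw [hW, D'.of_par]
    rw [h1]
    exact D'.hΨ (τ i) (W i v)
  · rw [← map_sub]
    have h1 : ‖((D'.Ψ (τ i)) : E m →L[ℝ] E m)‖ ≤
        max ‖((D'.Ψ 0) : E m →L[ℝ] E m)‖ ‖((D'.Ψ 1) : E m →L[ℝ] E m)‖ := by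
      match τ i with
      | 0 => exact le_max_left _ _
      | 1 => exact le_max_right _ _
    refine (ContinuousLinearMap.le_opNorm ((D'.Ψ (τ i)) : E m →L[ℝ] E m) _).trans ?_
    exact mul_le_mul h1 (hdist i v) (norm_nonneg _) (le_max_of_le_left (norm_nonneg _))

end QIG
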