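import Pool.Agent.W_a51130_h62.AnDefs

/-! MP_a51130_gt: abstract packings (base points and sizes of horoballs seen on the boundary). -/

namespace QIG

variable {m : ℕ}

/-- Coordinates of `q` seen from `p` (the inversion at `p`, scaled by the size of `p`). -/
noncomputable def wc (s : E m → ℝ) (p q : E m) : E m := s p • inv1 (q - p)

/-- `q ≠ p` are `D`-neighbours. -/
def Nbr (s : E m → ℝ) (D : ℝ) (p q : E m) : Prop := q ≠ p ∧ ‖q - p‖ ^ 2 ≤ D * (s p * s q)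

/-- Source packing: seen from each point `p`, the neighbours contain a translate of a rotated copy of the
lattice spanned by `b`. -/
structure ShiftPack (Q : Set (E m)) (s : E m → ℝ) (b : Module.Basis (Fin m) ℝ (E m)) : Prop where
  pos : ∀ p ∈ Q, 0 < s p
  shift : ∃ D₀ C₀ : ℝ, ∀ p ∈ Q, ∃ (A : E m ≃ₗᵢ[ℝ] E m) (w₀ : E m), ‖w₀‖ ≤ C₀ ∧
    ∀ k : Fin m → ℤ, w₀ + A (∑ i, (k i : ℝ) • b i) ≠ 0 →
      ∃ q ∈ Q, Nbr s D₀ p q ∧ wc s p q = w₀ + A (∑ i, (k i : ℝ) • b i)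
  thick : ∃ M : ℝ, 0 < M ∧ ∀ x, x ∉ Q → ∀ r₀ : ℝ, 0 < r₀ → ∃ r, 0 < r ∧ r < r₀ ∧
    ∃ p ∈ Q, ‖p - x‖ ≤ M * r ∧ r ≤ M * s p ∧ s p ≤ M * r

/-- Target packing: seen from each point `p`, second differences of neighbours are `0` or not small. -/
structure GapPack (Q : Set (E m)) (s : E m → ℝ) : Prop where
  pos : ∀ p ∈ Q, 0 < s p
  gap : ∀ D : ℝ, ∃ μ : ℝ, 0 < μ ∧ ∀ p ∈ Q, ∀ q₁ ∈ Q, ∀ q₂ ∈ Q, ∀ q₃ ∈ Q,
    Nbr s D p q₁ → Nbr s D p q₂ → Nbr s D p q₃ →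
      wc s p q₁ + wc s p q₂ - (2 : ℝ) • wc s p q₃ = 0 ∨
      μ ≤ ‖wc s p q₁ + wc s p q₂ - (2 : ℝ) • wc s p q₃‖

/-- Compatibility of a map with two packings. -/
structure PackMap (Q : Set (E m)) (s : E m → ℝ) (Q' : Set (E m)) (s' : E m → ℝ)
    (f : E m → E m) : Prop where
  maps : ∀ p ∈ Q, f p ∈ Q'
  nbr : ∀ D : ℝ, ∃ D' : ℝ, ∀ p ∈ Q, ∀ q ∈ Q, Nbr s D p q → Nbr s' D' (f p) (f q)
  size : ∃ C : ℝ, 0 < C ∧ ∀ p ∈ Q, ∀ x, ‖x - p‖ = s p →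
    ‖f x - f p‖ ≤ C * s' (f p) ∧ s' (f p) ≤ C * ‖f x - f p‖

/-- Power quasisymmetry on a set. -/
def PQS (Q : Set (E m)) (h : E m → E m) (C K : ℝ) : Prop :=
  ∀ p ∈ Q, ∀ a ∈ Q, ∀ b ∈ Q, ∀ σ : ℝ, 0 < σ → ‖a - p‖ ≤ σ * ‖b - p‖ →
    ‖h a - h p‖ ≤ C * max (σ ^ (1 / K)) (σ ^ K) * ‖h b - h p‖

end QIG
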