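import Pool.Agent.W_a51130_h62.Defs

/-! MP_a51130_gt: word metrics, definitions. -/

namespace QIG

open scoped Pointwise

variable {G G' : Type} [Group G] [Group G']

/-- A finite symmetric generating set containing `1`. -/
structure GSet (S : Set G) : Prop where
  fin : S.Finite
  one : (1 : G) ∈ S
  inv : ∀ g ∈ S, g⁻¹ ∈ S
  gen : ∀ g : G, ∃ n : ℕ, g ∈ S ^ n

/-- Word length with respect to `S` (`S` symmetric, containing `1`). -/
noncomputable def wl (S : Set G) (g : G) : ℕ := sInf {n : ℕ | g ∈ S ^ n}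

/-- Word distance (left invariant). -/
noncomputable def wd (S : Set G) (x y : G) : ℕ := wl S (x⁻¹ * y)

/-- Quasi-isometry with constant `K`. -/
structure QI (S : Set G) (S' : Set G') (f : G → G') (K : ℕ) : Prop where
  up : ∀ x y, wd S' (f x) (f y) ≤ K * wd S x y + K
  low : ∀ x y, wd S x y ≤ K * wd S' (f x) (f y) + K
  surj : ∀ z, ∃ x, wd S' z (f x) ≤ K

end QIG
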