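import Pool.Agent.W_a51130_h62.PackDefs
import Pool.Agent.W_a51130_h62.GeoDefs
import Pool.Agent.W_a51130_h62.WordDefs

/-! MP_a51130_gt: pieces, definitions used in the proofs. -/

namespace QIG

variable {m : ℕ}

/-- `g` is in the cusp subgroup (fixes infinity). -/
def Piece.Par (P : Piece m) (g : P.Γ) : Prop := ∃ v, g.1 = transl v

/-- Orbit point `g (0,1)`. -/
def Piece.orb (P : Piece m) (g : P.Γ) : HPt m := g.1 (base m)

/-- Elements moving the base point by at most `r`. -/
def Piece.bal (P : Piece m) (r : ℝ) : Set P.Γ := {g | hd (P.orb g) (base m) ≤ r}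

/-- Base points of the horoballs other than the one at infinity. -/
def Piece.Q (P : Piece m) : Set (E m) := {p | ∃ g : P.Γ, ¬ P.Par g ∧ bp g.1 = p}

open Classical in
/-- Size of the horoball based at `p`. -/
noncomputable def Piece.sz (P : Piece m) (p : E m) : ℝ :=
  if h : ∃ g : P.Γ, ¬ P.Par g ∧ bp g.1 = p then bs h.choose.1 else 1

/-- `b` is a `ℤ`-basis of the cusp lattice. -/
def Piece.IsBasis (P : Piece m) (b : Module.Basis (Fin m) ℝ (E m)) : Prop :=
  ∀ v, v ∈ P.lat ↔ ∃ k : Fin m → ℤ, v = ∑ i, (k i : ℝ) • b i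

/-- The cusp element of `Γ` belonging to a lattice vector. -/
def Piece.tr (P : Piece m) (v : P.lat) : P.Γ := P.emb (Multiplicative.ofAdd v)

/-- Vertices: points of the horoballs above orbit points. -/
noncomputable def Piece.vx (P : Piece m) (g : P.Γ) (n : ℕ) : HPt m :=
  g.1 ⟨0, Real.exp n, Real.exp_pos _⟩

end QIG
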