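import Pool.Agent.W_a51130_h62.PcBasic
import Pool.Agent.W_a51130_h62.PcLat
import Pool.Agent.W_a51130_h62.Word

/-!
Escape estimate.

`lat_word`: `v` can be reached from `0` in at most `‖v‖ + 1` steps: take points `(i/n) v`, `n = ⌈‖v‖⌉ + 1`, and
nearest lattice points (`lat_cover`, `lat`-points `0` and `v` at the ends); consecutive lattice points differ by at
most `1 + 2ρ`, hence the corresponding elements are in `P.bal r` with `r = log ((1+2ρ)² + 2)`.

`escape`.  Claim: for `g ∈ Γ` with `z = P.orb g = (u,t)` and `v ∈ lat` with `‖u - v‖ ≤ ρ`, the element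
`(P.tr v)⁻¹ g` is a product of at most `C/√t` elements of `P.bal r`.
PROOF.  Let `T = 1` and let `r₀` be given by `near_or_deep 1` (so a point with all `(g⁻¹x).t ≤ 1` is within `r₀` of the
orbit).  Enlarging `ρ` assume `ρ ≥` covering radius.  Let `a₀ = r₀ + 2` and `a₁ > a₀` large (to be chosen).  Induction on
`k` where `t ≥ e^(-k)`; equivalently strong induction with the statement for all `g'` with
`t(g' o) ≥ e t(g o)`.
Base case `t ≥ t₀ := e^(-a₁)`: `hd (u,t) (v,1)` is bounded (`exists_hd_le`), so `(P.tr v)⁻¹ g ∈ P.bal r` (one step).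
Inductive step `t < t₀`, so all points `(u,t')`, `t ≤ t' ≤ e^(a₁) t`, have `t' ≤ 1`.
Case 1: some `t' ∈ [e^(a₀) t, e^(a₁) t]` such that `(u,t')` is not in any horoball `{(h⁻¹x).t > 1}`.  Then
`hd (u,t') (h o) ≤ r₀` for some `h`; `t(h o) ≥ e^(-r₀) t' ≥ e² t`, `‖u(h o) - u‖ ≤ e^(r₀)`, and
`hd (g o) (h o) ≤ a₁ + log 2 + r₀`.  Take a lattice vector `w` with `‖u(h o) - w‖ ≤ ρ`; `P.tr v⁻¹ P.tr w` is in `P.bal r`
(bounded), so the length for `g` is at most `2 +` length for `h` `≤ 2 + C/(e √t) ≤ C/√t` if `C ≥ 4`.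
Case 2: all `(u,t')`, `t' ∈ [e^(a₀) t, e^(a₁) t]`, are in such horoballs.  Let `h` be one containing
`(u, e^(a₀) t)`; `h` is not parabolic (`t' ≤ 1`).  With `p, s` the base and size of `h` (normal form of `h⁻¹`), membership is
`s t' > ‖u-p‖² + t'²`, i.e. `α < t' < β` where `α ≤ β` are the roots of `t'² - s t' + ‖u-p‖² = 0`; `β ≤ s ≤ 1/4`.
At `(u,β)` one has `(h⁻¹(u,β)).t = 1`, and no other horoball contains it (`par_of_deep`, `1 > 1/2`; parabolic
multiples of `h` give the same height), so `(u,β)` is in no horoball: hence `β > e^(a₁) t`.  The same at `(u,t)`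
(`orb_t_le_one`: `g o` is in no horoball): `α ≥ t` and `α < e^(a₀) t`.  (If `‖u-p‖ = 0` then `α = 0 < t`, impossible.)
Both `h⁻¹(u,α)`, `h⁻¹(u,β)` have height `1`, and `chd ((u,α),(u,β)) = (β-α)²/(2αβ)` is invariant, so their horizontal
distance is `≤ √(β/α) ≤ √(β/t)`.  Lattice points near them: `h P.tr λ₁`, `h P.tr λ₂` with
`hd ((u,α),(h tr λ₁) o) ≤ r₁`, `hd ((u,β),(h tr λ₂) o) ≤ r₁`, `‖λ₁-λ₂‖ ≤ √(β/t) + 2ρ`.  So the word distance between them is
at most `C₁(1 + √(β/t))` (`lat_word`), the distance of `g` and `h tr λ₁` is `≤ 1` step (bounded `hd`: `α ≤ e^(a₀)t`), and for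
`g₂ = h tr λ₂`, `t(g₂ o) ≥ e^(-r₁) β ≥ e^(a₁-r₁) t ≥ e² t`, the inductive hypothesis applies:
total `≤ 3 + C₁(1+√(β/t)) + C e^(r₁/2)/√β ≤ 3 + 2C₁√(β/t) + C e^(r₁/2)/√β`.  With `β ≤ 1/4`, `√(β/t) ≤ 1/(2√t)`, and
`1/√β ≤ e^(-a₁/2)/√t`: total `≤ (3 + C₁ + C e^((r₁-a₁)/2))/√t ≤ C/√t` if `e^((r₁-a₁)/2) ≤ 1/2` and
`C ≥ 2(3 + C₁)`.  (`r₁` depends on `r₀, a₀, ρ` only, not on `a₁`; `C₁` does not depend on `a₁`; then `r` is chosen
last, large.)

`exists_gset`: `1 ∈ P.bal r` for `r ≥ log 2`, `bal_inv`, `bal_finite`, and every `g` is `P.tr v` times a word.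
-/

namespace QIG

open scoped Pointwise

variable {m : ℕ} (P : Piece m)

/-- word distance at most `L` -/
def PeLe {G : Type} [Group G] (S : Set G) (x y : G) (L : ℝ) : Prop :=
  ∃ n : ℕ, (n : ℝ) ≤ L ∧ x⁻¹ * y ∈ S ^ n

theorem PeLe.trans {G : Type} [Group G] {S : Set G} {x y z : G} {L M : ℝ} (h : PeLe S x y L)
    (h' : PeLe S y z M) : PeLe S x z (L + M) := by
  obtain ⟨n, hn, h1⟩ := h
  obtain ⟨k, hk, h2⟩ := h'
  refine ⟨n + k, by push_cast; linarith, ?_⟩
  rw [pow_add, show x⁻¹ * z = x⁻¹ * y * (y⁻¹ * z) by group]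
  exact Set.mul_mem_mul h1 h2

theorem PeLe.mono {G : Type} [Group G] {S : Set G} {x y : G} {L M : ℝ} (h : PeLe S x y L)
    (hLM : L ≤ M) : PeLe S x y M := by
  obtain ⟨n, hn, h1⟩ := h
  exact ⟨n, hn.trans hLM, h1⟩

theorem PeLe.of_mem {G : Type} [Group G] {S : Set G} {x y : G} (h : x⁻¹ * y ∈ S) :
    PeLe S x y 1 :=
  ⟨1, by norm_num, by rwa [pow_one]⟩

theorem PeLe.mul_left {G : Type} [Group G] {S : Set G} {x y : G} {L : ℝ} (g : G)
    (h : PeLe S x y L) : PeLe S (g * x) (g * y) L := by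
  obtain ⟨n, hn, h1⟩ := h
  refine ⟨n, hn, ?_⟩
  rwa [show (g * x)⁻¹ * (g * y) = x⁻¹ * y by group]

theorem PeLe.mem {G : Type} [Group G] {S : Set G} (h1 : (1 : G) ∈ S) {x y : G} {L : ℝ}
    (h : PeLe S x y L) {n : ℕ} (hn : L ≤ n) : x⁻¹ * y ∈ S ^ n := by
  obtain ⟨k, hk, h2⟩ := h
  exact Set.pow_subset_pow_right h1 (by exact_mod_cast hk.trans hn) h2

theorem pe_hd_one (a b : E m) :
    hd (⟨a, 1, one_pos⟩ : HPt m) ⟨b, 1, one_pos⟩ = Real.log (‖a - b‖ ^ 2 + 2) := by
  unfold hd q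
  congr 1
  simp only [one_pow, mul_one, div_one]
  ring

theorem pe_orb_tr (v : P.lat) : P.orb (P.tr v) = ⟨(v : E m), 1, one_pos⟩ := by
  apply HPt.ext
  · change (0 : E m) + v = v
    rw [zero_add]
  · rfl

theorem pe_hd_base : hd (base m) (base m) = Real.log 2 := hd_self _

theorem pe_one_mem {r : ℝ} (hr : Real.log 2 ≤ r) : (1 : P.Γ) ∈ P.bal r := by
  change hd (base m) (base m) ≤ r
  rw [pe_hd_base]
  exact hr

theorem pe_tr_mem {r R : ℝ} (v : P.lat) (hv : ‖(v : E m)‖ ≤ R)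
    (hr : Real.log (R ^ 2 + 2) ≤ r) : P.tr v ∈ P.bal r := by
  change hd (P.orb (P.tr v)) (base m) ≤ r
  rw [pe_orb_tr]
  change hd (⟨(v : E m), 1, one_pos⟩ : HPt m) ⟨0, 1, one_pos⟩ ≤ r
  rw [pe_hd_one, sub_zero]
  refine (Real.log_le_log (by positivity) ?_).trans hr
  have := pow_le_pow_left₀ (norm_nonneg _) hv 2
  linarith

theorem pe_tr_sub (v w : P.lat) : (P.tr v)⁻¹ * P.tr w = P.tr (w - v) := by
  rw [← P.tr_neg, ← P.tr_add]
  congr 1
  abel

theorem pe_log_two_le {R : ℝ} : Real.log 2 ≤ Real.log (R ^ 2 + 2) :=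
  Real.log_le_log (by norm_num) (by nlinarith [sq_nonneg R])

theorem pe_lat_word : ∃ r : ℝ, Real.log 2 ≤ r ∧ ∀ r', r ≤ r' → ∀ (v : P.lat),
    PeLe (P.bal r') 1 (P.tr v) (2 + ‖(v : E m)‖) := by
  obtain ⟨ρ, hρ, hcov⟩ := P.lat_cover
  refine ⟨Real.log ((1 + 2 * ρ) ^ 2 + 2), pe_log_two_le, fun r' hr' v => ?_⟩
  have key : ∀ (N : ℕ) (x : E m) (w : P.lat), ‖x‖ ≤ N → ‖x - w‖ ≤ ρ →
      P.tr w ∈ (P.bal r') ^ (N + 1) := by
    intro N
    induction N with
    | zero =>
      intro x w hx hw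
      rw [zero_add, pow_one]
      have hx0 : x = 0 := by simpa using hx
      refine pe_tr_mem P w (R := 1 + 2 * ρ) ?_ hr'
      rw [hx0, zero_sub, norm_neg] at hw
      linarith
    | succ N ih =>
      intro x w hx hw
      have hN : (0 : ℝ) < (N : ℝ) + 1 := by positivity
      set x' : E m := ((N : ℝ) / ((N : ℝ) + 1)) • x with hx'
      obtain ⟨w', hw'⟩ := hcov x'
      have h1 : ‖x'‖ ≤ N := by
        rw [hx', norm_smul, Real.norm_eq_abs, abs_of_nonneg (by positivity), div_mul_eq_mul_div,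
          div_le_iff₀ hN]
        push_cast at hx
        exact mul_le_mul_of_nonneg_left hx (by positivity)
      have h2 : ‖x - x'‖ ≤ 1 := by
        have e : x - x' = (1 / ((N : ℝ) + 1)) • x := by
          have e1 : 1 / ((N : ℝ) + 1) + (N : ℝ) / ((N : ℝ) + 1) = 1 := by
            field_simp
            ring
          rw [hx', sub_eq_iff_eq_add, ← add_smul, e1, one_smul]
        rw [e, norm_smul, Real.norm_eq_abs, abs_of_nonneg (by positivity), div_mul_eq_mul_div,
          div_le_iff₀ hN]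
        push_cast at hx
        linarith
      have h3 := ih x' w' h1 hw'
      have h4 : ‖((w - w' : P.lat) : E m)‖ ≤ 1 + 2 * ρ := by
        have e : ((w - w' : P.lat) : E m) = -(x - w) + (x - x') + (x' - w') := by
          push_cast
          abel
        rw [e]
        refine (norm_add_le _ _).trans ?_
        have := norm_add_le (-(x - (w : E m))) (x - x')
        rw [norm_neg] at this
        linarith
      have h5 := pe_tr_mem P (w - w') h4 hr'
      have e : P.tr w = P.tr w' * P.tr (w - w') := by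
        rw [← P.tr_add]
        congr 1
        abel
      rw [e, pow_succ]
      exact Set.mul_mem_mul h3 h5
  refine ⟨⌈‖(v : E m)‖⌉₊ + 1, ?_, ?_⟩
  · have := (Nat.ceil_lt_add_one (norm_nonneg (v : E m))).le
    push_cast
    linarith
  · rw [inv_one, one_mul]
    refine key _ (v : E m) v (Nat.le_ceil _) ?_
    rw [sub_self, norm_zero]
    exact hρ.le

theorem Piece.lat_word : ∃ r C : ℝ, 0 < C ∧ ∀ r', r ≤ r' → ∀ (v : P.lat) (n : ℕ),
    C * (1 + ‖(v : E m)‖) ≤ n → P.tr v ∈ (P.bal r') ^ n := by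
  obtain ⟨r, hr, h⟩ := pe_lat_word P
  refine ⟨r, 2, by norm_num, fun r' hr' v n hn => ?_⟩
  have h1 := (h r' hr' v).mem (pe_one_mem P (hr.trans hr')) (n := n)
    (by linarith [norm_nonneg (v : E m)])
  rwa [inv_one, one_mul] at h1

theorem pe_par_t {h : P.Γ} (hp : P.Par h) (x : HPt m) : (h.1⁻¹ x).t = x.t := by
  obtain ⟨v, hv⟩ := hp
  rw [hv, ← transl_neg]
  rfl

theorem pe_inv_par_t {h k : P.Γ} (hp : P.Par (h⁻¹ * k)) (x : HPt m) :
    (k.1⁻¹ x).t = (h.1⁻¹ x).t := by
  have h1 := pe_par_t P hp (h.1⁻¹ x)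
  rw [← h1]
  congr 1
  have e : k.1⁻¹ = ((h⁻¹ * k : P.Γ) : Equiv.Perm (HPt m))⁻¹ * h.1⁻¹ := by
    rw [Subgroup.coe_mul, Subgroup.coe_inv]
    group
  rw [e, Equiv.Perm.mul_apply]

/-- The two intersection points of a vertical line with the boundary of a horoball. -/
theorem pe_horo {s d t τ : ℝ} (hs : 0 < s) (htτ : t < τ)
    (h1 : d ^ 2 + τ ^ 2 < s * τ) (h2 : s * t ≤ d ^ 2 + t ^ 2) :
    ∃ α β : ℝ, t ≤ α ∧ α < τ ∧ τ < β ∧ β ≤ s ∧ s * α = d ^ 2 + α ^ 2 ∧
      s * β = d ^ 2 + β ^ 2 := by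
  have hΔ : 0 < s ^ 2 - 4 * d ^ 2 := by nlinarith [sq_nonneg (s - 2 * τ)]
  set D : ℝ := Real.sqrt (s ^ 2 - 4 * d ^ 2) with hD
  have hD2 : D ^ 2 = s ^ 2 - 4 * d ^ 2 := Real.sq_sqrt hΔ.le
  have hD0 : 0 ≤ D := Real.sqrt_nonneg _
  have hDs : D ≤ s := by
    refine Real.sqrt_le_iff.2 ⟨hs.le, ?_⟩
    nlinarith [sq_nonneg d]
  have e1 : ((s - D) / 2) * ((s + D) / 2) = d ^ 2 := by
    have : ((s - D) / 2) * ((s + D) / 2) = (s ^ 2 - D ^ 2) / 4 := by ring
    rw [this, hD2]
    ring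
  have e2 : ∀ x : ℝ, (x - (s - D) / 2) * (x - (s + D) / 2) = x ^ 2 - s * x + d ^ 2 := by
    intro x
    rw [← e1]
    ring
  have h3 : (τ - (s - D) / 2) * (τ - (s + D) / 2) < 0 := by
    rw [e2]
    linarith
  have h4 : 0 ≤ (t - (s - D) / 2) * (t - (s + D) / 2) := by
    rw [e2]
    linarith
  have h5 : (s - D) / 2 < τ ∧ τ < (s + D) / 2 := by
    constructor
    · by_contra h
      push Not at h
      have : 0 ≤ ((s - D) / 2 - τ) * ((s + D) / 2 - τ) :=
        mul_nonneg (by linarith) (by linarith)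
      nlinarith
    · by_contra h
      push Not at h
      have : 0 ≤ (τ - (s - D) / 2) * (τ - (s + D) / 2) :=
        mul_nonneg (by linarith) (by linarith)
      linarith
  refine ⟨(s - D) / 2, (s + D) / 2, ?_, h5.1, h5.2, by linarith, ?_, ?_⟩
  · by_contra h
    push Not at h
    have h6 : 0 < t - (s - D) / 2 := by linarith
    have h7 : t - (s + D) / 2 < 0 := by linarith [h5.2]
    have := mul_neg_of_pos_of_neg h6 h7
    linarith
  · have := e2 ((s - D) / 2)
    rw [sub_self, zero_mul] at this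
    linarith
  · have := e2 ((s + D) / 2)
    rw [sub_self, mul_zero] at this
    linarith

theorem pe_hd_vert (u : E m) {t t' c : ℝ} (ht : 0 < t) (h1 : t ≤ t')
    (h2 : t' ≤ Real.exp c * t) :
    hd (⟨u, t, ht⟩ : HPt m) ⟨u, t', ht.trans_le h1⟩ ≤ c + Real.log 2 := by
  refine (hd_vert u ht (ht.trans_le h1)).trans ?_
  have h3 : Real.log t ≤ Real.log t' := Real.log_le_log ht h1
  rw [abs_of_nonneg (by linarith)]
  have h4 := Real.log_le_log (ht.trans_le h1) h2
  rw [Real.log_mul (Real.exp_pos _).ne' ht.ne', Real.log_exp] at h4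
  linarith

theorem Piece.escape (ρ : ℝ) : ∃ r C : ℝ, 0 < C ∧ ∀ r', r ≤ r' → ∀ (g : P.Γ) (v : P.lat),
    ‖(P.orb g).u - v‖ ≤ ρ → ∀ n : ℕ, C / Real.sqrt (P.orb g).t ≤ n →
      (P.tr v)⁻¹ * g ∈ (P.bal r') ^ n := by
  obtain ⟨ρ₀, hρ₀, hcov₀⟩ := P.lat_cover
  set ρ₁ : ℝ := max ρ ρ₀ with hρ₁
  have hρ₁pos : 0 < ρ₁ := lt_of_lt_of_le hρ₀ (le_max_right _ _)
  have hcov : ∀ x : E m, ∃ v : P.lat, ‖x - v‖ ≤ ρ₁ := fun x => by
    obtain ⟨v, hv⟩ := hcov₀ x
    exact ⟨v, hv.trans (le_max_right _ _)⟩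
  obtain ⟨r₀, hr₀, hnear⟩ := P.near_or_deep 1 le_rfl
  obtain ⟨rw, hrw, hword⟩ := pe_lat_word P
  have hl2 : 0 < Real.log 2 := Real.log_pos (by norm_num)
  set r₁ : ℝ := Real.log (ρ₁ ^ 2 + 2) with hr₁
  have hr₁pos : 0 < r₁ := hl2.trans_le pe_log_two_le
  set a₀ : ℝ := r₀ + 2 with ha₀
  set a₁ : ℝ := a₀ + r₁ + 2 with ha₁
  set A : ℝ := ρ₁ + Real.exp a₁ + 1 with hA
  obtain ⟨rb, hrb, hbase⟩ := exists_hd_le A
  -- the constants
  set R₁ : ℝ := Real.log ((2 * ρ₁ + Real.exp r₀) ^ 2 + 2) with hR₁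
  set R₂ : ℝ := Real.log ((2 * ρ₁ + Real.exp r₁) ^ 2 + 2) with hR₂
  have hR₁pos : 0 < R₁ := hl2.trans_le pe_log_two_le
  have hR₂pos : 0 < R₂ := hl2.trans_le pe_log_two_le
  set C₁ : ℝ := 2 + 2 * ρ₁ with hC₁
  set C : ℝ := 4 + 3 * C₁ with hC
  have hC₁pos : 0 < C₁ := by positivity
  have hCpos : 0 < C := by positivity
  refine ⟨rw + rb + R₁ + R₂ + (a₁ + Real.log 2 + r₀) + (a₀ + Real.log 2 + r₁), C, hCpos,
    fun r' hr' => ?_⟩
  have ha₀pos : 0 < a₀ := by positivity
  have ha₁pos : 0 < a₁ := by positivity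
  have hr'w : rw ≤ r' := by linarith
  have hrwpos : 0 < rw := hl2.trans_le hrw
  have hone := pe_one_mem P (hrw.trans hr'w)
  have hsq : ∀ g : P.Γ, 0 < Real.sqrt (P.orb g).t ∧ Real.sqrt (P.orb g).t ≤ 1 := fun g =>
    ⟨Real.sqrt_pos.2 (P.orb g).pos, Real.sqrt_le_one.2 (P.orb_t_le_one g)⟩
  have hbaseCase : ∀ (g : P.Γ) (v : P.lat), ‖(P.orb g).u - v‖ ≤ ρ₁ →
      Real.exp (-a₁) ≤ (P.orb g).t →
      PeLe (P.bal r') (P.tr v) g (C / Real.sqrt (P.orb g).t) := by
    intro g v hv ht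
    have hE := Real.exp_pos a₁
    have hmem : (P.tr v)⁻¹ * g ∈ P.bal r' := by
      rw [P.mem_bal_iff, pe_orb_tr]
      refine (hbase ⟨(v : E m), 1, one_pos⟩ (P.orb g) ?_ ?_ ?_).trans (by linarith)
      · rw [norm_sub_rev]
        dsimp only
        rw [hA]
        linarith
      · have := P.orb_t_le_one g
        dsimp only
        rw [hA]
        linarith
      · have h1 : 1 = Real.exp a₁ * Real.exp (-a₁) := by
          rw [← Real.exp_add, add_neg_cancel, Real.exp_zero]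
        have h2 : Real.exp a₁ * Real.exp (-a₁) ≤ A * (P.orb g).t :=
          mul_le_mul (by rw [hA]; linarith) ht (Real.exp_pos _).le (by positivity)
        dsimp only
        linarith
    refine (PeLe.of_mem hmem).mono ?_
    rw [le_div_iff₀ (hsq g).1]
    linarith [(hsq g).2]
  have htr : ∀ (v w : P.lat) (R : ℝ), ‖((v : E m) - w)‖ ≤ R → Real.log (R ^ 2 + 2) ≤ r' →
      PeLe (P.bal r') (P.tr v) (P.tr w) 1 := by
    intro v w R hR hr
    refine PeLe.of_mem ?_
    rw [pe_tr_sub]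
    refine pe_tr_mem P (w - v) (R := R) ?_ hr
    push_cast
    rwa [norm_sub_rev]
  have hstep : ∀ (g : P.Γ) (v : P.lat), ‖(P.orb g).u - v‖ ≤ ρ₁ →
      (P.orb g).t < Real.exp (-a₁) →
      (∀ (g' : P.Γ) (v' : P.lat), ‖(P.orb g').u - v'‖ ≤ ρ₁ →
        Real.exp 1 * (P.orb g).t ≤ (P.orb g').t →
        PeLe (P.bal r') (P.tr v') g' (C / Real.sqrt (P.orb g').t)) →
      PeLe (P.bal r') (P.tr v) g (C / Real.sqrt (P.orb g).t) := by
    intro g v hv ht ih
    obtain ⟨hs0, hs1⟩ := hsq g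
    set u : E m := (P.orb g).u with hu
    set t : ℝ := (P.orb g).t with htdef
    have ht0 : 0 < t := (P.orb g).pos
    have horbg : P.orb g = ⟨u, t, ht0⟩ := rfl
    have hexp2 : (4 : ℝ) ≤ Real.exp 2 := by
      have h1 : (2 : ℝ) ≤ Real.exp 1 := by
        have := Real.add_one_le_exp (1 : ℝ)
        linarith
      have h2 : Real.exp 2 = Real.exp 1 * Real.exp 1 := by
        rw [← Real.exp_add]
        norm_num
      rw [h2]
      have h3 := mul_le_mul h1 h1 (by norm_num) (Real.exp_pos 1).le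
      linarith
    have hexp12 : Real.exp 1 ≤ Real.exp 2 := Real.exp_le_exp.2 (by norm_num)
    have he1 : Real.exp a₁ * t < 1 := by
      have h1 : Real.exp a₁ * t < Real.exp a₁ * Real.exp (-a₁) :=
        mul_lt_mul_of_pos_left ht (Real.exp_pos _)
      rwa [← Real.exp_add, add_neg_cancel, Real.exp_zero] at h1
    have he01 : Real.exp a₀ ≤ Real.exp a₁ := Real.exp_le_exp.2 (by linarith)
    have hhalf : ∀ g' : P.Γ, Real.exp 2 * t ≤ (P.orb g').t →
        C / Real.sqrt (P.orb g').t ≤ C / (2 * Real.sqrt t) := by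
      intro g' h
      refine div_le_div_of_nonneg_left hCpos.le (by positivity) ?_
      have h1 : 2 * Real.sqrt t = Real.sqrt (4 * t) := by
        rw [Real.sqrt_mul (by norm_num), show (4 : ℝ) = 2 ^ 2 by norm_num,
          Real.sqrt_sq (by norm_num)]
      rw [h1]
      refine Real.sqrt_le_sqrt (le_trans ?_ h)
      exact mul_le_mul_of_nonneg_right hexp2 ht0.le
    have hone2 : 1 ≤ 1 / Real.sqrt t := by
      rw [le_div_iff₀ hs0]
      linarith
    have hCd : C / (2 * Real.sqrt t) = C / 2 * (1 / Real.sqrt t) := by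
      field_simp
    have hCd2 : C / Real.sqrt t = C * (1 / Real.sqrt t) := by
      field_simp
    by_cases hcase : ∃ (t' : ℝ) (ht' : 0 < t'), Real.exp a₀ * t ≤ t' ∧ t' ≤ Real.exp a₁ * t ∧
        ∀ k : P.Γ, (k.1⁻¹ (⟨u, t', ht'⟩ : HPt m)).t ≤ 1
    · obtain ⟨t', ht', h1, h2, h3⟩ := hcase
      rcases hnear ⟨u, t', ht'⟩ with ⟨h, hh⟩ | ⟨h, hh⟩
      · have ht'1 : t' ≤ 1 := by linarith
        have h4 : t' ≤ Real.exp r₀ * (P.orb h).t := by
          have := t_le_of_hd (x := P.orb h) (y := ⟨u, t', ht'⟩) (r := r₀) (by rwa [hd_comm])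
          exact this
        have h5 : Real.exp 2 * t ≤ (P.orb h).t := by
          have h6 : Real.exp r₀ * (Real.exp 2 * t) ≤ Real.exp r₀ * (P.orb h).t := by
            rw [← mul_assoc, ← Real.exp_add, ← ha₀]
            linarith
          exact le_of_mul_le_mul_left h6 (Real.exp_pos _)
        have h7 : ‖u - (P.orb h).u‖ ≤ Real.exp r₀ := by
          have := norm_le_of_hd hh
          refine this.trans ?_
          exact mul_le_of_le_one_right (Real.exp_pos r₀).le ht'1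
        obtain ⟨w, hw⟩ := hcov (P.orb h).u
        have h8 : PeLe (P.bal r') (P.tr v) (P.tr w) 1 := by
          refine htr v w (2 * ρ₁ + Real.exp r₀) ?_ (by linarith)
          have e : (v : E m) - w = -(u - v) + (u - (P.orb h).u) + ((P.orb h).u - w) := by abel
          rw [e]
          refine (norm_add_le _ _).trans ?_
          have := norm_add_le (-(u - (v : E m))) (u - (P.orb h).u)
          rw [norm_neg] at this
          linarith
        have h9 := ih h w hw (le_trans (mul_le_mul_of_nonneg_right hexp12 ht0.le) h5)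
        have h10 : PeLe (P.bal r') h g 1 := by
          refine PeLe.of_mem ?_
          rw [P.mem_bal_iff]
          have h11 : hd (⟨u, t', ht'⟩ : HPt m) (P.orb g) ≤ a₁ + Real.log 2 := by
            rw [hd_comm, horbg]
            have htt' : t ≤ t' := by
              refine le_trans ?_ h1
              exact le_mul_of_one_le_left ht0.le (Real.one_le_exp ha₀pos.le)
            exact pe_hd_vert u ht0 htt' h2
          have h12 := hd_triangle (P.orb h) (⟨u, t', ht'⟩ : HPt m) (P.orb g)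
          rw [hd_comm (P.orb h) (⟨u, t', ht'⟩ : HPt m)] at h12
          linarith
        refine ((h8.trans h9).trans h10).mono ?_
        have h13 := hhalf h h5
        rw [hCd] at h13
        rw [hCd2]
        have h14 : 4 ≤ C := by
          rw [hC]
          linarith
        have h15 := mul_le_mul h14 hone2 zero_le_one hCpos.le
        linarith
      · exact absurd hh (not_lt.2 (h3 h))
    · push Not at hcase
      have hτ0 : 0 < Real.exp a₀ * t := by positivity
      obtain ⟨h, hh⟩ := hcase (Real.exp a₀ * t) hτ0 le_rfl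
        (mul_le_mul_of_nonneg_right he01 ht0.le)
      have hτ1 : Real.exp a₀ * t < 1 :=
        lt_of_le_of_lt (mul_le_mul_of_nonneg_right he01 ht0.le) he1
      have hnp : ¬ P.Par h := by
        intro hp
        rw [pe_par_t P hp] at hh
        exact absurd hh (not_lt.2 hτ1.le)
      have hnp' : ¬ P.Par h⁻¹ := by
        intro hp
        have := P.par_inv hp
        rw [inv_inv] at this
        exact hnp this
      have hI := P.isInv hnp'
      have hbs := P.bs_le hnp'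
      set pb : E m := bb (h⁻¹ : P.Γ).1 with hpb
      set sz : ℝ := bs (h⁻¹ : P.Γ).1 with hsz
      have hsz0 : 0 < sz := hI.pos
      have hteq : ∀ x : HPt m, (h.1⁻¹ x).t = sz * x.t / (‖x.u - pb‖ ^ 2 + x.t ^ 2) := hI.t_eq
      set d : ℝ := ‖u - pb‖ with hd'
      have hg1 : sz * t ≤ d ^ 2 + t ^ 2 := by
        have h1 := P.orb_t_le_one (h⁻¹ * g)
        have h2 : (P.orb (h⁻¹ * g)).t = sz * t / (d ^ 2 + t ^ 2) := hteq (P.orb g)
        rw [h2, div_le_one (by positivity)] at h1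
        exact h1
      have hg2 : d ^ 2 + (Real.exp a₀ * t) ^ 2 < sz * (Real.exp a₀ * t) := by
        rw [hteq] at hh
        change 1 < sz * (Real.exp a₀ * t) / (d ^ 2 + (Real.exp a₀ * t) ^ 2) at hh
        rwa [one_lt_div (by positivity)] at hh
      have htτ : t < Real.exp a₀ * t := by
        have := Real.add_one_lt_exp ha₀pos.ne'
        exact lt_mul_of_one_lt_left ht0 (by linarith)
      obtain ⟨α, β, hα1, hα2, hβ1, hβ2, hα3, hβ3⟩ := pe_horo hsz0 htτ hg2 hg1
      have hα0 : 0 < α := ht0.trans_le hα1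
      have hβ0 : 0 < β := hτ0.trans hβ1
      have hαt : (h.1⁻¹ (⟨u, α, hα0⟩ : HPt m)).t = 1 := by
        rw [hteq]
        change sz * α / (d ^ 2 + α ^ 2) = 1
        rw [hα3]
        exact div_self (by positivity)
      have hβt : (h.1⁻¹ (⟨u, β, hβ0⟩ : HPt m)).t = 1 := by
        rw [hteq]
        change sz * β / (d ^ 2 + β ^ 2) = 1
        rw [hβ3]
        exact div_self (by positivity)
      have hβbig : Real.exp a₁ * t < β := by
        by_contra hcon
        push Not at hcon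
        obtain ⟨k, hk⟩ := hcase β hβ0 hβ1.le hcon
        have hpar : P.Par (h⁻¹ * k) := P.par_of_deep (x := ⟨u, β, hβ0⟩)
          (by rw [hβt]; norm_num) (by linarith)
        rw [pe_inv_par_t P hpar, hβt] at hk
        exact lt_irrefl _ hk
      -- points at height one
      set ya : E m := (h.1⁻¹ (⟨u, α, hα0⟩ : HPt m)).u with hya
      set yb : E m := (h.1⁻¹ (⟨u, β, hβ0⟩ : HPt m)).u with hyb
      have hXa : h.1⁻¹ (⟨u, α, hα0⟩ : HPt m) = ⟨ya, 1, one_pos⟩ := HPt.ext rfl hαt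
      have hXb : h.1⁻¹ (⟨u, β, hβ0⟩ : HPt m) = ⟨yb, 1, one_pos⟩ := HPt.ext rfl hβt
      have hdist : ‖ya - yb‖ ≤ Real.sqrt (β / t) := by
        have h1 := P.isom' h⁻¹ (⟨u, α, hα0⟩ : HPt m) ⟨u, β, hβ0⟩
        change chd (h.1⁻¹ (⟨u, α, hα0⟩ : HPt m)) (h.1⁻¹ ⟨u, β, hβ0⟩) = _ at h1
        rw [hXa, hXb] at h1
        unfold chd at h1
        simp only [sub_self, norm_zero, mul_one] at h1
        have h2 : ‖ya - yb‖ ^ 2 = (α - β) ^ 2 / (α * β) := by
          have h3 : ‖ya - yb‖ ^ 2 = 2 * ((‖ya - yb‖ ^ 2 + 0 ^ 2) / 2) := by ring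
          rw [h3, h1]
          field_simp
          ring
        refine Real.le_sqrt_of_sq_le ?_
        rw [h2, div_le_div_iff₀ (by positivity) ht0]
        have h4 : (α - β) ^ 2 ≤ β ^ 2 := by
          have h5 : α < β := hα2.trans hβ1
          have h6 := mul_nonneg hα0.le (by linarith : 0 ≤ 2 * β - α)
          have h7 : β ^ 2 - (α - β) ^ 2 = α * (2 * β - α) := by ring
          linarith
        calc (α - β) ^ 2 * t ≤ β ^ 2 * α := mul_le_mul h4 hα1 ht0.le (by positivity)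
          _ = β * (α * β) := by ring
      obtain ⟨la, hla⟩ := hcov ya
      obtain ⟨lb, hlb⟩ := hcov yb
      have hnear2 : ∀ (X : HPt m) (y : E m) (l : P.lat), h.1⁻¹ X = ⟨y, 1, one_pos⟩ →
          ‖y - l‖ ≤ ρ₁ → hd X (P.orb (h * P.tr l)) ≤ r₁ := by
        intro X y l hX hl
        have e1 : P.orb (h * P.tr l) = h.1 ⟨(l : E m), 1, one_pos⟩ := by
          rw [← pe_orb_tr]
          rfl
        have e2 : X = h.1 (h.1⁻¹ X) := (h.1.apply_symm_apply X).symm
        rw [e1, e2, hd_isom (P.isom' h), hX, pe_hd_one, hr₁]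
        refine Real.log_le_log (by positivity) ?_
        have := pow_le_pow_left₀ (norm_nonneg _) hl 2
        linarith
      have hna := hnear2 _ ya la hXa hla
      have hnb := hnear2 _ yb lb hXb hlb
      -- from `h tr la` to `g`
      have s4 : PeLe (P.bal r') (h * P.tr la) g 1 := by
        refine PeLe.of_mem ?_
        rw [P.mem_bal_iff]
        have h11 : hd (⟨u, α, hα0⟩ : HPt m) (P.orb g) ≤ a₀ + Real.log 2 := by
          rw [hd_comm, horbg]
          exact pe_hd_vert u ht0 hα1 hα2.le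
        have h12 := hd_triangle (P.orb (h * P.tr la)) (⟨u, α, hα0⟩ : HPt m) (P.orb g)
        rw [hd_comm (P.orb (h * P.tr la)) (⟨u, α, hα0⟩ : HPt m)] at h12
        linarith
      have s3 : PeLe (P.bal r') (h * P.tr lb) (h * P.tr la)
          (C₁ * (1 + Real.sqrt (β / t))) := by
        refine PeLe.mul_left h ?_
        have h1 : PeLe (P.bal r') (P.tr lb) (P.tr la) (2 + ‖((la - lb : P.lat) : E m)‖) := by
          obtain ⟨n, hn, h2⟩ := hword r' hr'w (la - lb)
          refine ⟨n, hn, ?_⟩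
          rw [pe_tr_sub]
          rwa [inv_one, one_mul] at h2
        refine h1.mono ?_
        have h3 : ‖((la - lb : P.lat) : E m)‖ ≤ Real.sqrt (β / t) + 2 * ρ₁ := by
          have e : ((la - lb : P.lat) : E m) = -(ya - la) + (ya - yb) + (yb - lb) := by
            push_cast
            abel
          rw [e]
          refine (norm_add_le _ _).trans ?_
          have := norm_add_le (-(ya - (la : E m))) (ya - yb)
          rw [norm_neg] at this
          linarith
        have h4 := Real.sqrt_nonneg (β / t)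
        have h5 := mul_nonneg hρ₁pos.le h4
        have e5 : C₁ * (1 + Real.sqrt (β / t)) =
            2 + 2 * ρ₁ + 2 * Real.sqrt (β / t) + 2 * (ρ₁ * Real.sqrt (β / t)) := by
          rw [hC₁]
          ring
        rw [e5]
        linarith
      have htb : Real.exp 2 * t ≤ (P.orb (h * P.tr lb)).t := by
        have h1 : β ≤ Real.exp r₁ * (P.orb (h * P.tr lb)).t :=
          t_le_of_hd (x := P.orb (h * P.tr lb)) (y := ⟨u, β, hβ0⟩) (r := r₁) (by rwa [hd_comm])
        have h2 : Real.exp r₁ * (Real.exp 2 * t) ≤ Real.exp a₁ * t := by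
          rw [← mul_assoc, ← Real.exp_add]
          refine mul_le_mul_of_nonneg_right (Real.exp_le_exp.2 ?_) ht0.le
          rw [ha₁]
          linarith
        have h3 : Real.exp r₁ * (Real.exp 2 * t) ≤ Real.exp r₁ * (P.orb (h * P.tr lb)).t := by
          linarith
        exact le_of_mul_le_mul_left h3 (Real.exp_pos _)
      obtain ⟨w, hw⟩ := hcov (P.orb (h * P.tr lb)).u
      have hβ4 : β ≤ 1 / 4 := hβ2.trans hbs
      have s1 : PeLe (P.bal r') (P.tr v) (P.tr w) 1 := by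
        refine htr v w (2 * ρ₁ + Real.exp r₁) ?_ (by linarith)
        have h7 : ‖u - (P.orb (h * P.tr lb)).u‖ ≤ Real.exp r₁ := by
          have := norm_le_of_hd hnb
          refine this.trans ?_
          exact mul_le_of_le_one_right (Real.exp_pos r₁).le (by linarith)
        have e : (v : E m) - w = -(u - v) + (u - (P.orb (h * P.tr lb)).u) +
            ((P.orb (h * P.tr lb)).u - w) := by abel
        rw [e]
        refine (norm_add_le _ _).trans ?_
        have := norm_add_le (-(u - (v : E m))) (u - (P.orb (h * P.tr lb)).u)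
        rw [norm_neg] at this
        linarith
      have s2 := ih (h * P.tr lb) w hw
        (le_trans (mul_le_mul_of_nonneg_right hexp12 ht0.le) htb)
      refine (((s1.trans s2).trans s3).trans s4).mono ?_
      have h13 := hhalf _ htb
      rw [hCd] at h13
      rw [hCd2]
      have h15 : Real.sqrt (β / t) ≤ 1 / 2 * (1 / Real.sqrt t) := by
        rw [Real.sqrt_div hβ0.le]
        have h16 : Real.sqrt β ≤ 1 / 2 := by
          refine Real.sqrt_le_iff.2 ⟨by norm_num, ?_⟩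
          linarith
        rw [div_eq_mul_one_div]
        exact mul_le_mul_of_nonneg_right h16 (by positivity)
      have h17 : 1 + C / Real.sqrt (P.orb (h * P.tr lb)).t + C₁ * (1 + Real.sqrt (β / t)) + 1 ≤
          2 * (1 / Real.sqrt t) + C / 2 * (1 / Real.sqrt t) +
            C₁ * ((1 / Real.sqrt t) + 1 / 2 * (1 / Real.sqrt t)) := by
        have := mul_le_mul_of_nonneg_left (add_le_add hone2 h15) hC₁pos.le
        linarith
      refine h17.trans (le_of_eq ?_)
      rw [hC]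
      ring
  have main : ∀ (k : ℕ) (g : P.Γ) (v : P.lat), ‖(P.orb g).u - v‖ ≤ ρ₁ →
      Real.exp (-(k : ℝ)) ≤ (P.orb g).t →
      PeLe (P.bal r') (P.tr v) g (C / Real.sqrt (P.orb g).t) := by
    intro k
    induction k with
    | zero =>
      intro g v hv hk
      refine hbaseCase g v hv (le_trans (Real.exp_le_exp.2 ?_) hk)
      push_cast
      linarith
    | succ k ih =>
      intro g v hv hk
      by_cases ht : Real.exp (-a₁) ≤ (P.orb g).t
      · exact hbaseCase g v hv ht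
      · push Not at ht
        refine hstep g v hv ht fun g' v' hv' hg' => ih g' v' hv' (le_trans ?_ hg')
        have h1 : Real.exp (-(k : ℝ)) = Real.exp 1 * Real.exp (-((k + 1 : ℕ) : ℝ)) := by
          rw [← Real.exp_add]
          congr 1
          push_cast
          ring
        rw [h1]
        exact mul_le_mul_of_nonneg_left hk (Real.exp_pos _).le
  intro g v hv n hn
  obtain ⟨k, hk⟩ : ∃ k : ℕ, Real.exp (-(k : ℝ)) ≤ (P.orb g).t := by
    obtain ⟨k, hk⟩ := exists_nat_ge (-Real.log (P.orb g).t)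
    refine ⟨k, ?_⟩
    rw [← Real.exp_log (P.orb g).pos]
    exact Real.exp_le_exp.2 (by linarith)
  exact (main k g v (hv.trans (le_max_left _ _)) hk).mem hone hn

theorem Piece.exists_gset : ∃ r : ℝ, ∀ r', r ≤ r' → GSet (P.bal r') := by
  obtain ⟨ρ, hρ, hcov⟩ := P.lat_cover
  obtain ⟨r₁, C₁, hC₁, h₁⟩ := P.escape ρ
  obtain ⟨r₂, hr₂, h₂⟩ := pe_lat_word P
  refine ⟨max r₁ r₂, fun r' hr' => ?_⟩
  have hr1 : r₁ ≤ r' := (le_max_left _ _).trans hr'
  have hr2 : r₂ ≤ r' := (le_max_right _ _).trans hr'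
  refine ⟨P.bal_finite r', pe_one_mem P (hr₂.trans hr2), fun g hg => P.bal_inv hg, fun g => ?_⟩
  obtain ⟨v, hv⟩ := hcov (P.orb g).u
  obtain ⟨n, hn⟩ := exists_nat_ge (C₁ / Real.sqrt (P.orb g).t)
  have a1 := h₁ r' hr1 g v hv n hn
  obtain ⟨k, -, hk⟩ := h₂ r' hr2 v
  rw [inv_one, one_mul] at hk
  refine ⟨k + n, ?_⟩
  rw [pow_add, show g = P.tr v * ((P.tr v)⁻¹ * g) by group]
  exact Set.mul_mem_mul hk a1

end QIG
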