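import Pool.Agent.W_a51130_h62.PcBasic
import Pool.Agent.W_a51130_h62.PcLat
import Pool.Agent.W_a51130_h62.GeoFour
import Pool.Agent.W_a51130_h62.GeoPath
import Pool.Agent.W_a51130_h62.Word

/-!
No quasi-flat of dimension at least 2 stays in a piece with bounded projections to all walls.

PROOF.
(1) `shallow_word`: points `z_i` of a chain with all depths `≤ T` are within `r_T` of orbit points `g_i o`
(`near_or_deep (max T 1)`), consecutive ones satisfy `hd (g_i o) (g_(i+1) o) ≤ 2 r_T + c`, so `g_i⁻¹ g_(i+1)` is in a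
finite set, whose word lengths are bounded.
(2) Bounded depth: let `Z = g o, Z' = g' o` be orbit points with `‖u(γ⁻¹Z) - u(γ⁻¹Z')‖ ≤ C` for all `γ`, and `z` a point with
`hd Z z + hd z Z' ≤ hd Z Z' + C'`.  For `γ ∈ Γ` let `γ⁻¹z` have height `h`; `γ⁻¹Z, γ⁻¹Z'` have heights `t,t' ≤ 1`
(`orb_t_le_one`).  `q(γ⁻¹Z,γ⁻¹z) q(γ⁻¹z,γ⁻¹Z') ≥ (h/t)(h/t')` and it is `≤ e^(C') q(γ⁻¹Z,γ⁻¹Z') ≤ e^(C') (C²+2)/(tt')`.
So `h² ≤ e^(C')(C²+2)`.
(3) By (2), (1) and `exists_rough_geod`, for all `x,y`: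
`wd (Z x) (Z y) ≤ C₂(1 + hd (Z x o) (Z y o))`, so `‖x-y‖ ≤ C₃(1 + hd (Zx o)(Zy o))`; and `hd (Zx o)(Zy o) ≤ C(‖x-y‖+1)` by
chaining unit steps.
(4) Contradiction: let `R = 2^N` large, `e₁, e₂` orthonormal, `x₀ = 0`, `x₁ = R e₁`.  Rough geodesic from
`Z x₀ o` to `Z x₁ o`, `w` a point of it with `|hd (Z x₀ o) w - hd (Z x₀ o)(Z x₁ o)/2| ≤ C₄` (exists by the index bounds).
`chain_log` for the chain `Z(j e₁) o`, `0 ≤ j ≤ R`, gives `p = j e₁` with `hd w (Z p o) ≤ C₅(1+N)`; and for the chain along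
the other three sides `0 → R e₂ → R e₁ + R e₂ → R e₁` (`3R ≤ 2^(N+2)` steps) it gives `p'` on these sides with
`hd w (Z p' o) ≤ C₅(1+N)`.  So `‖p-p'‖ ≤ C₆(1+N)`.  Since `p` is on the bottom side and `p'` on the other sides,
`min(‖p - x₀‖, ‖p - x₁‖) ≤ ‖p-p'‖` (horizontal distance to the vertical sides, or `R ≤ ‖p-p'‖` for the top side, impossible
for large `N`).  Say `‖p-x₀‖ ≤ C₆(1+N)`: then `hd (Zx₀ o) w ≤ hd (Z x₀ o)(Z p o) + hd (Zp o) w ≤ C₇(1+N)`, but
`hd (Zx₀ o) w ≥ hd(Zx₀ o)(Zx₁ o)/2 - C₄ ≥ (R/C₃ - 1)/2 - C₄`.  Contradiction for large `N`; the case `x₁` is symmetric.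
-/

namespace QIG

variable {m : ℕ} (P : Piece m)

theorem pcFlat_chain (y : ℕ → HPt m) {c : ℝ} (n : ℕ) (hy : ∀ i < n, hd (y i) (y (i + 1)) ≤ c)
    (i k : ℕ) (hik : i + k ≤ n) : hd (y i) (y (i + k)) ≤ c * k + 1 := by
  induction k with
  | zero =>
    have := Real.log_two_lt_d9
    rw [add_zero, hd_self]
    push_cast
    linarith
  | succ k ih =>
    have h1 := ih (by omega)
    have h2 := hy (i + k) (by omega)
    have h3 := hd_triangle (y i) (y (i + k)) (y (i + (k + 1)))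
    rw [show i + k + 1 = i + (k + 1) by ring] at h2
    push_cast
    linarith

theorem Piece.shallow_word {r : ℝ} (hr : GSet (P.bal r)) (T c : ℝ) : ∃ C : ℝ, ∀ (n : ℕ)
    (z : ℕ → HPt m) (g g' : P.Γ), z 0 = P.orb g → z n = P.orb g' →
    (∀ i < n, hd (z i) (z (i + 1)) ≤ c) → (∀ i ≤ n, ∀ γ : P.Γ, (γ.1⁻¹ (z i)).t ≤ T) →
      (wd (P.bal r) g g' : ℝ) ≤ C * (n + 1) := by
  obtain ⟨r0, hr0, hnear⟩ := P.near_or_deep (max T 1) (le_max_right _ _)
  obtain ⟨n0, hn0⟩ := finite_bdd (P.bal r) (P.bal_finite (2 * r0 + |c|))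
  refine ⟨2 * n0, ?_⟩
  intro n z g g' hz0 hzn hstep hT
  have hex : ∀ i, ∃ a : P.Γ, i ≤ n → hd (z i) (P.orb a) ≤ r0 := by
    intro i
    by_cases hi : i ≤ n
    · rcases hnear (z i) with ⟨a, ha⟩ | ⟨a, ha⟩
      · exact ⟨a, fun _ => ha⟩
      · exfalso
        have h1 := hT i hi a
        have h2 := le_max_left T 1
        linarith
    · exact ⟨1, fun h => absurd h hi⟩
  choose a ha using hex
  have key : ∀ b b' : P.Γ, hd (P.orb b) (P.orb b') ≤ 2 * r0 + |c| → wd (P.bal r) b b' ≤ n0 := by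
    intro b b' hb
    exact hn0 _ ((P.mem_bal_iff b b').2 hb)
  have hc0 := abs_nonneg c
  have h0 : wd (P.bal r) g (a 0) ≤ n0 := by
    apply key
    rw [← hz0]
    have := ha 0 (Nat.zero_le n)
    linarith
  have hn : wd (P.bal r) (a n) g' ≤ n0 := by
    apply key
    rw [← hzn, hd_comm]
    have := ha n le_rfl
    linarith
  have hmid : ∀ k ≤ n, wd (P.bal r) (a 0) (a k) ≤ n0 * k := by
    intro k
    induction k with
    | zero =>
      intro _
      rw [wd_self]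
      omega
    | succ k ih =>
      intro hk
      have h1 := ih (by omega)
      have h2 : wd (P.bal r) (a k) (a (k + 1)) ≤ n0 := by
        apply key
        have h3 := ha k (by omega)
        have h4 := ha (k + 1) hk
        have h5 := hstep k (by omega)
        have h6 := hd_triangle (P.orb (a k)) (z k) (P.orb (a (k + 1)))
        have h7 := hd_triangle (z k) (z (k + 1)) (P.orb (a (k + 1)))
        rw [hd_comm (P.orb (a k)) (z k)] at h6
        have h8 := le_abs_self c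
        linarith
      have h3 := wd_triangle hr (a 0) (a k) (a (k + 1))
      calc wd (P.bal r) (a 0) (a (k + 1)) ≤ n0 * k + n0 := by omega
        _ = n0 * (k + 1) := by ring
  have h1 := hmid n le_rfl
  have h2 := wd_triangle hr g (a 0) g'
  have h3 := wd_triangle hr (a 0) (a n) g'
  have h4 : wd (P.bal r) g g' ≤ n0 + (n0 * n + n0) := by omega
  have h5 : (wd (P.bal r) g g' : ℝ) ≤ n0 + (n0 * n + n0) := by exact_mod_cast h4
  have h6 : (0 : ℝ) ≤ n0 := Nat.cast_nonneg _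
  have h7 : (0 : ℝ) ≤ n := Nat.cast_nonneg _
  nlinarith [mul_nonneg h6 h7]

/-- Points on a rough geodesic between orbit points with bounded projections are not deep. -/
theorem Piece.pcFlat_depth {C C' : ℝ} (g g' : P.Γ)
    (h3 : ∀ γ : P.Γ, ‖(γ.1⁻¹ (P.orb g)).u - (γ.1⁻¹ (P.orb g')).u‖ ≤ C) (z : HPt m)
    (hz : hd (P.orb g) z + hd z (P.orb g') ≤ hd (P.orb g) (P.orb g') + C') (γ : P.Γ) :
    (γ.1⁻¹ z).t ≤ Real.sqrt (Real.exp C' * (C ^ 2 + 2)) := by
  have hI : Isom γ.1⁻¹ := (P.isom' γ).inv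
  have horb : ∀ b : P.Γ, (γ.1⁻¹ (P.orb b)).t ≤ 1 := by
    intro b
    have h := P.orb_t_le_one (γ⁻¹ * b)
    exact h
  set Z := γ.1⁻¹ (P.orb g) with hZ
  set Z' := γ.1⁻¹ (P.orb g') with hZ'
  set w := γ.1⁻¹ z with hw
  have h1 : hd Z w + hd w Z' ≤ hd Z Z' + C' := by
    rw [hZ, hZ', hw, hd_isom hI, hd_isom hI, hd_isom hI]
    exact hz
  have h2 : q Z w * q w Z' ≤ Real.exp C' * q Z Z' := by
    rw [← exp_hd, ← exp_hd, ← exp_hd, ← Real.exp_add, ← Real.exp_add]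
    apply Real.exp_le_exp.2
    linarith
  have h4 := t_le_q Z w
  have h5 := t_le_q Z' w
  rw [q_comm Z' w] at h5
  have hwp := w.pos
  have hZp := Z.pos
  have hZp' := Z'.pos
  have q1 := q_pos Z w
  have q2 := q_pos w Z'
  have h6 : w.t * w.t ≤ (q Z w * Z.t) * (q w Z' * Z'.t) := by
    apply mul_le_mul h4 h5 hwp.le (by positivity)
  have h7 : q Z Z' * (Z.t * Z'.t) = ‖Z.u - Z'.u‖ ^ 2 + Z.t ^ 2 + Z'.t ^ 2 := by
    unfold q
    field_simp
  have h8 : ‖Z.u - Z'.u‖ ^ 2 + Z.t ^ 2 + Z'.t ^ 2 ≤ C ^ 2 + 2 := by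
    have a1 := h3 γ
    have a2 := norm_nonneg (Z.u - Z'.u)
    have a3 : Z.t ≤ 1 := horb g
    have a4 : Z'.t ≤ 1 := horb g'
    have a5 : ‖Z.u - Z'.u‖ ^ 2 ≤ C ^ 2 := by
      apply pow_le_pow_left₀ a2 a1
    nlinarith
  apply Real.le_sqrt_of_sq_le
  calc w.t ^ 2 = w.t * w.t := by ring
    _ ≤ (q Z w * Z.t) * (q w Z' * Z'.t) := h6
    _ = (q Z w * q w Z') * (Z.t * Z'.t) := by ring
    _ ≤ (Real.exp C' * q Z Z') * (Z.t * Z'.t) := by
        apply mul_le_mul_of_nonneg_right h2 (by positivity)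
    _ = Real.exp C' * (q Z Z' * (Z.t * Z'.t)) := by ring
    _ ≤ Real.exp C' * (C ^ 2 + 2) := by
        rw [h7]
        apply mul_le_mul_of_nonneg_left h8 (Real.exp_pos _).le

/-- `2^N ≤ K (1 + N)` fails for large `N`. -/
theorem pcFlat_exp_lin (K : ℝ) : ∃ N : ℕ, K * (1 + N) < 2 ^ N := by
  have h := tendsto_pow_const_div_const_pow_of_one_lt 1 (one_lt_two : (1 : ℝ) < 2)
  have h' : Filter.Tendsto (fun n : ℕ => (K * (1 + n)) / (2 : ℝ) ^ n) Filter.atTop (nhds 0) := by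
    have h1 : Filter.Tendsto (fun n : ℕ => K * (((n : ℝ) ^ 0 / 2 ^ n) + ((n : ℝ) ^ 1 / 2 ^ n)))
        Filter.atTop (nhds (K * (0 + 0))) := by
      refine Filter.Tendsto.const_mul K (Filter.Tendsto.add ?_ h)
      exact tendsto_pow_const_div_const_pow_of_one_lt 0 (one_lt_two : (1 : ℝ) < 2)
    rw [add_zero, mul_zero] at h1
    refine h1.congr (fun n => ?_)
    rw [pow_zero, pow_one]
    ring
  have h2 := (h'.eventually (gt_mem_nhds (one_pos : (0 : ℝ) < 1))).exists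
  obtain ⟨N, hN⟩ := h2
  refine ⟨N, ?_⟩
  rwa [div_lt_one (by positivity)] at hN

theorem Piece.pcFlat_lower {r : ℝ} (hr : GSet (P.bal r)) (Z : E m → P.Γ) (C : ℝ) (hC : 0 ≤ C)
    (h2 : ∀ x y, ‖x - y‖ ≤ C * (1 + wd (P.bal r) (Z x) (Z y)))
    (h3 : ∀ (γ : P.Γ) (x y : E m),
      ‖(γ.1⁻¹ (P.orb (Z x))).u - (γ.1⁻¹ (P.orb (Z y))).u‖ ≤ C) :
    ∃ C3 : ℝ, 0 < C3 ∧ ∀ x y, ‖x - y‖ ≤ C3 * (1 + hd (P.orb (Z x)) (P.orb (Z y))) := by
  obtain ⟨Cg, hCg, hgeod⟩ := exists_rough_geod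
  obtain ⟨Cs, hCs⟩ := P.shallow_word hr (Real.sqrt (Real.exp Cg * (C ^ 2 + 2))) Cg
  refine ⟨C * (1 + |Cs| * (Cg + 1)) + 1, by positivity, ?_⟩
  intro x y
  obtain ⟨n, z, hz0, hzn, hstep, hn, hz⟩ := hgeod (P.orb (Z x)) (P.orb (Z y))
  have h4 := hCs n z (Z x) (Z y) hz0 hzn hstep (fun i hi γ =>
    P.pcFlat_depth (Z x) (Z y) (fun γ => h3 γ x y) (z i) (hz i hi).1 γ)
  have h5 := h2 x y
  set D := hd (P.orb (Z x)) (P.orb (Z y)) with hD
  have hD0 : 0 ≤ D := (hd_pos _ _).le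
  have h6 : Cs * (n + 1) ≤ |Cs| * (D + Cg + 1) := by
    have a1 : Cs * (n + 1) ≤ |Cs| * (n + 1) := by
      apply mul_le_mul_of_nonneg_right (le_abs_self _) (by positivity)
    have a2 : |Cs| * ((n : ℝ) + 1) ≤ |Cs| * (D + Cg + 1) := by
      apply mul_le_mul_of_nonneg_left _ (abs_nonneg _)
      linarith
    linarith
  have h7 : C * (1 + (wd (P.bal r) (Z x) (Z y) : ℝ)) ≤ C * (1 + |Cs| * (D + Cg + 1)) := by
    apply mul_le_mul_of_nonneg_left _ hC
    linarith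
  have h8 : 1 + |Cs| * (D + Cg + 1) ≤ (1 + |Cs| * (Cg + 1)) * (1 + D) := by
    have := abs_nonneg Cs
    nlinarith [mul_nonneg this (mul_nonneg hCg.le hD0)]
  have h9 : C * (1 + |Cs| * (D + Cg + 1)) ≤ C * ((1 + |Cs| * (Cg + 1)) * (1 + D)) :=
    mul_le_mul_of_nonneg_left h8 hC
  nlinarith

/-- A point in the middle of a rough geodesic. -/
theorem pcFlat_mid (x y : HPt m) {C : ℝ} (hC : 0 ≤ C) (n : ℕ) (z : ℕ → HPt m) (hz0 : z 0 = x)
    (hzn : z n = y) (hstep : ∀ i < n, hd (z i) (z (i + 1)) ≤ C) :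
    ∃ i ≤ n, hd x y / 2 ≤ hd x (z i) ∧ hd x (z i) ≤ hd x y / 2 + C + 1 := by
  classical
  have hex : ∃ i, hd x y / 2 ≤ hd x (z i) := by
    refine ⟨n, ?_⟩
    rw [hzn]
    have := hd_pos x y
    linarith
  have h1 := Nat.find_spec hex
  have hle : Nat.find hex ≤ n := by
    apply Nat.find_min' hex
    rw [hzn]
    have := hd_pos x y
    linarith
  refine ⟨Nat.find hex, hle, h1, ?_⟩
  have hpos := hd_pos x y
  rcases Nat.eq_zero_or_pos (Nat.find hex) with h0 | h0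
  · rw [h0, hz0, hd_self]
    have := Real.log_two_lt_d9
    linarith
  · obtain ⟨k, hk⟩ : ∃ k, Nat.find hex = k + 1 := ⟨Nat.find hex - 1, by omega⟩
    rw [hk]
    have h2 : ¬ hd x y / 2 ≤ hd x (z k) := Nat.find_min hex (by omega)
    have h3 := hstep k (by omega)
    have h4 := hd_triangle x (z k) (z (k + 1))
    push Not at h2
    linarith

/-- The detour around the other three sides of the square of side `R`. -/
noncomputable def pcFlatDet (e₁ e₂ : E m) (R : ℕ) (i : ℕ) : E m :=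
  if i ≤ R then (i : ℝ) • e₂
  else if i ≤ 2 * R then (R : ℝ) • e₂ + ((i : ℝ) - R) • e₁
  else (R : ℝ) • e₁ + (3 * (R : ℝ) - i) • e₂

theorem pcFlatDet_step (e₁ e₂ : E m) (h1 : ‖e₁‖ = 1) (h2 : ‖e₂‖ = 1) (R : ℕ) (i : ℕ) :
    ‖pcFlatDet e₁ e₂ R i - pcFlatDet e₁ e₂ R (i + 1)‖ ≤ 1 := by
  unfold pcFlatDet
  rcases lt_trichotomy i R with h | h | h
  · have a1 : i ≤ R := h.le
    have a2 : i + 1 ≤ R := h
    rw [if_pos a1, if_pos a2, ← sub_smul, norm_smul, h2]
    push_cast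
    rw [show (i : ℝ) - (i + 1) = -1 by ring]
    norm_num
  · subst h
    by_cases h0 : i = 0
    · subst h0
      simp only [le_refl, if_true]
      norm_num
      exact h2.le
    · have a1 : i ≤ i := le_refl i
      have a2 : ¬ i + 1 ≤ i := by omega
      have a3 : i + 1 ≤ 2 * i := by omega
      rw [if_pos a1, if_neg a2, if_pos a3]
      have : (i : ℝ) • e₂ - ((i : ℝ) • e₂ + (((i + 1 : ℕ) : ℝ) - i) • e₁) = (-1 : ℝ) • e₁ := by
        push_cast
        module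
      rw [this, norm_smul, h1]
      norm_num
  · have b1 : ¬ i ≤ R := by omega
    have b2 : ¬ i + 1 ≤ R := by omega
    rw [if_neg b1, if_neg b2]
    rcases lt_trichotomy i (2 * R) with h' | h' | h'
    · have a1 : i ≤ 2 * R := h'.le
      have a2 : i + 1 ≤ 2 * R := h'
      rw [if_pos a1, if_pos a2]
      have : (R : ℝ) • e₂ + ((i : ℝ) - R) • e₁ - ((R : ℝ) • e₂ + (((i + 1 : ℕ) : ℝ) - R) • e₁) =
          (-1 : ℝ) • e₁ := by
        push_cast
        module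
      rw [this, norm_smul, h1]
      norm_num
    · have a1 : i ≤ 2 * R := h'.le
      have a2 : ¬ i + 1 ≤ 2 * R := by omega
      rw [if_pos a1, if_neg a2]
      have hi : (i : ℝ) = 2 * R := by exact_mod_cast h'
      have : (R : ℝ) • e₂ + ((i : ℝ) - R) • e₁ -
          ((R : ℝ) • e₁ + (3 * (R : ℝ) - ((i + 1 : ℕ) : ℝ)) • e₂) = (1 : ℝ) • e₂ := by
        push_cast
        rw [hi]
        module
      rw [this, norm_smul, h2]
      norm_num
    · have a1 : ¬ i ≤ 2 * R := by omega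
      have a2 : ¬ i + 1 ≤ 2 * R := by omega
      rw [if_neg a1, if_neg a2]
      have : (R : ℝ) • e₁ + (3 * (R : ℝ) - i) • e₂ -
          ((R : ℝ) • e₁ + (3 * (R : ℝ) - ((i + 1 : ℕ) : ℝ)) • e₂) = (1 : ℝ) • e₂ := by
        push_cast
        module
      rw [this, norm_smul, h2]
      norm_num

/-- A point of the bottom side is far from the other sides unless it is close to a corner. -/
theorem pcFlatDet_far (e₁ e₂ : E m) (h1 : ‖e₁‖ = 1) (h2 : ‖e₂‖ = 1) (h12 : inner ℝ e₁ e₂ = (0 : ℝ))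
    (R j i : ℕ) (hj : j ≤ R) (B : ℝ) (hB : ‖(j : ℝ) • e₁ - pcFlatDet e₁ e₂ R i‖ ≤ B) :
    (j : ℝ) ≤ B ∨ ((R - j : ℕ) : ℝ) ≤ B := by
  have h11 : inner ℝ e₁ e₁ = (1 : ℝ) := by
    rw [real_inner_self_eq_norm_sq, h1]
    norm_num
  have h22 : inner ℝ e₂ e₂ = (1 : ℝ) := by
    rw [real_inner_self_eq_norm_sq, h2]
    norm_num
  have h21 : inner ℝ e₂ e₁ = (0 : ℝ) := by
    rw [real_inner_comm]
    exact h12
  have k1 : ∀ v : E m, ‖v‖ ≤ B → |inner ℝ e₁ v| ≤ B := by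
    intro v hv
    have := abs_real_inner_le_norm e₁ v
    rw [h1, one_mul] at this
    exact this.trans hv
  have k2 : ∀ v : E m, ‖v‖ ≤ B → |inner ℝ e₂ v| ≤ B := by
    intro v hv
    have := abs_real_inner_le_norm e₂ v
    rw [h2, one_mul] at this
    exact this.trans hv
  have hjR : (j : ℝ) ≤ R := by exact_mod_cast hj
  unfold pcFlatDet at hB
  split_ifs at hB with c1 c2
  · left
    have := k1 _ hB
    rw [inner_sub_right, inner_smul_right, inner_smul_right, h11, h12] at this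
    rw [mul_one, mul_zero, sub_zero] at this
    exact (le_abs_self _).trans this
  · left
    have := k2 _ hB
    rw [inner_sub_right, inner_add_right, inner_smul_right, inner_smul_right, inner_smul_right, h21,
      h22] at this
    rw [mul_zero, mul_zero, mul_one, add_zero, zero_sub, abs_neg] at this
    exact hjR.trans ((le_abs_self _).trans this)
  · right
    have := k1 _ hB
    rw [inner_sub_right, inner_add_right, inner_smul_right, inner_smul_right, inner_smul_right, h11,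
      h12] at this
    rw [mul_zero, mul_one, mul_one, add_zero, abs_sub_comm] at this
    rw [Nat.cast_sub hj]
    exact (le_abs_self _).trans this

theorem Piece.no_flat (hm : 2 ≤ m) {r : ℝ} (hr : GSet (P.bal r)) (Z : E m → P.Γ) (C : ℝ)
    (h1 : ∀ x y, ‖x - y‖ ≤ 1 → hd (P.orb (Z x)) (P.orb (Z y)) ≤ C)
    (h2 : ∀ x y, ‖x - y‖ ≤ C * (1 + wd (P.bal r) (Z x) (Z y)))
    (h3 : ∀ (γ : P.Γ) (x y : E m),
      ‖(γ.1⁻¹ (P.orb (Z x))).u - (γ.1⁻¹ (P.orb (Z y))).u‖ ≤ C) : False := by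
  have hC : 0 ≤ C := by
    have a1 := h1 0 0 (by simp)
    have a2 := hd_pos (P.orb (Z 0)) (P.orb (Z 0))
    linarith
  obtain ⟨C3, hC3, hlow⟩ := P.pcFlat_lower hr Z C hC h2 h3
  obtain ⟨Cg, hCg, hgeod⟩ := exists_rough_geod
  obtain ⟨Cl, hCl, hchain⟩ := chain_log
  let e₁ : E m := EuclideanSpace.single ⟨0, by omega⟩ 1
  let e₂ : E m := EuclideanSpace.single ⟨1, by omega⟩ 1
  have n1 : ‖e₁‖ = 1 := by simp [e₁]
  have n2 : ‖e₂‖ = 1 := by simp [e₂]
  have n12 : inner ℝ e₁ e₂ = (0 : ℝ) := by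
    simp [e₁, e₂, EuclideanSpace.inner_single_left]
  -- constants
  let c : ℝ := C + Cg
  have hc : 0 ≤ c := by positivity
  -- bound
  suffices key : ∀ N : ℕ, ((2 : ℝ) ^ N) ≤ (C3 * (3 + 2 * Cg + 2 * (C * (C3 * (1 + 2 * (Cl * (3 + c)))) + 1
      + Cl * (3 + c)) + 2)) * (1 + N) by
    obtain ⟨N, hN⟩ := pcFlat_exp_lin (C3 * (3 + 2 * Cg + 2 * (C * (C3 * (1 + 2 * (Cl * (3 + c)))) + 1
      + Cl * (3 + c)) + 2))
    linarith [key N]
  intro N
  set R : ℕ := 2 ^ N with hR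
  -- bottom side
  let y : ℕ → HPt m := fun j => P.orb (Z ((j : ℝ) • e₁))
  let y' : ℕ → HPt m := fun j => P.orb (Z (pcFlatDet e₁ e₂ R j))
  have hy : ∀ i < R, hd (y i) (y (i + 1)) ≤ C := by
    intro i _
    apply h1
    rw [← sub_smul, norm_smul, n1]
    push_cast
    rw [show (i : ℝ) - (i + 1) = -1 by ring]
    norm_num
  have hy' : ∀ i < 3 * R, hd (y' i) (y' (i + 1)) ≤ C := by
    intro i _
    exact h1 _ _ (pcFlatDet_step e₁ e₂ n1 n2 R i)
  have hRpos : 0 < R := by positivity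
  have hy0 : y 0 = y' 0 := by
    simp only [y, y', pcFlatDet, Nat.cast_zero, zero_smul, Nat.zero_le, if_true]
  have hyR : y R = y' (3 * R) := by
    have a1 : ¬ 3 * R ≤ R := by omega
    have a2 : ¬ 3 * R ≤ 2 * R := by omega
    simp only [y, y', pcFlatDet, a1, a2, if_false]
    congr 2
    push_cast
    rw [sub_self, zero_smul, add_zero]
  set D := hd (y 0) (y R) with hD
  obtain ⟨n, z, hz0, hzn, hstep, hn, hz⟩ := hgeod (y 0) (y R)
  obtain ⟨i, hi, hw1, hw2⟩ := pcFlat_mid (y 0) (y R) hCg.le n z hz0 hzn hstep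
  set w := z i with hw
  have hw3 : hd (y 0) w + hd w (y R) ≤ hd (y 0) (y R) + c := by
    have := (hz i hi).1
    have : hd (y 0) w + hd w (y R) ≤ hd (y 0) (y R) + Cg := this
    have hcc : c = C + Cg := rfl
    linarith
  have hNR : (0 : ℝ) ≤ N := Nat.cast_nonneg N
  have hccC : C ≤ c := by
    have hcc : c = C + Cg := rfl
    linarith
  obtain ⟨j, hjR, hj⟩ := hchain y w c R N hc (fun i hi => (hy i hi).trans hccC) hw3 le_rfl
  obtain ⟨j', hj'R, hj'⟩ := hchain y' w c (3 * R) (N + 2) hc (fun i hi => (hy' i hi).trans hccC)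
    (by rw [← hy0, ← hyR]; exact hw3) (by rw [pow_add]; omega)
  -- distance between the two points
  have hclose : hd (y j) (y' j') ≤ 2 * (Cl * (3 + c) * (1 + N)) := by
    have a1 := hd_triangle (y j) w (y' j')
    rw [hd_comm (y j) w] at a1
    push_cast at hj'
    have a2 : Cl * (1 + c + N) ≤ Cl * (3 + c) * (1 + N) := by
      rw [mul_assoc]
      apply mul_le_mul_of_nonneg_left _ hCl.le
      nlinarith [mul_nonneg hc hNR]
    have a3 : Cl * (1 + c + (N + 2)) ≤ Cl * (3 + c) * (1 + N) := by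
      rw [mul_assoc]
      apply mul_le_mul_of_nonneg_left _ hCl.le
      nlinarith [mul_nonneg hc hNR]
    linarith
  have hjw : hd w (y j) ≤ Cl * (3 + c) * (1 + N) := by
    refine hj.trans ?_
    rw [mul_assoc]
    apply mul_le_mul_of_nonneg_left _ hCl.le
    nlinarith [mul_nonneg hc hNR]
  have hdist : ‖(j : ℝ) • e₁ - pcFlatDet e₁ e₂ R j'‖ ≤
      (C3 * (1 + 2 * (Cl * (3 + c)))) * (1 + N) := by
    refine (hlow _ _).trans ?_
    rw [mul_assoc]
    apply mul_le_mul_of_nonneg_left _ hC3.le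
    have a1 : hd (P.orb (Z ((j : ℝ) • e₁))) (P.orb (Z (pcFlatDet e₁ e₂ R j'))) ≤
      2 * (Cl * (3 + c) * (1 + N)) := hclose
    have a2 : 0 ≤ Cl * (3 + c) := by positivity
    nlinarith
  have hcase := pcFlatDet_far e₁ e₂ n1 n2 n12 R j j' hjR _ hdist
  have hRD : (R : ℝ) ≤ C3 * (1 + D) := by
    have a1 := hlow (((0 : ℕ) : ℝ) • e₁) ((R : ℝ) • e₁)
    rw [← sub_smul, norm_smul, n1] at a1
    rw [Nat.cast_zero, zero_sub, norm_neg, mul_one, Real.norm_natCast] at a1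
    have a2 : D = hd (P.orb (Z (((0 : ℕ) : ℝ) • e₁))) (P.orb (Z ((R : ℝ) • e₁))) := rfl
    rw [a2, Nat.cast_zero]
    exact a1
  have hDpos : 0 < D := hd_pos _ _
  set F := C3 * (1 + 2 * (Cl * (3 + c))) with hF
  have hF0 : 0 ≤ F := by positivity
  have hmain : D / 2 ≤ C * (F * (1 + N)) + 1 + Cl * (3 + c) * (1 + N) + Cg + 1 := by
    rcases hcase with h | h
    · -- close to the left corner
      have a1 := pcFlat_chain y R hy 0 j (by omega)
      rw [zero_add] at a1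
      have a2 := hd_triangle (y 0) (y j) w
      rw [hd_comm (y j) w] at a2
      have a3 : C * (j : ℝ) ≤ C * (F * (1 + N)) := mul_le_mul_of_nonneg_left h hC
      linarith
    · have a1 := pcFlat_chain y R hy j (R - j) (by omega)
      rw [show j + (R - j) = R by omega] at a1
      have a2 := hd_triangle w (y j) (y R)
      have a3 : C * ((R - j : ℕ) : ℝ) ≤ C * (F * (1 + N)) := mul_le_mul_of_nonneg_left h hC
      have a4 := hd_triangle (y 0) w (y R)
      linarith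
  have hfin : D ≤ (2 + 2 * Cg + 2 * (C * F + 1 + Cl * (3 + c)) + 2) * (1 + N) := by
    nlinarith [mul_nonneg hC hF0, mul_nonneg hCg.le hNR]
  have hRr : (R : ℝ) = 2 ^ N := by
    rw [hR]
    push_cast
    rfl
  rw [← hRr]
  calc (R : ℝ) ≤ C3 * (1 + D) := hRD
    _ ≤ C3 * ((3 + 2 * Cg + 2 * (C * F + 1 + Cl * (3 + c)) + 2) * (1 + N)) := by
        apply mul_le_mul_of_nonneg_left _ hC3.le
        nlinarith
    _ = _ := by ring

end QIG
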