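import Pool.Agent.W_a51130_h62.PcBasic
import Pool.Agent.W_a51130_h62.PcLat

/-!
Vertices of the horoballs.

PROOFS.  `vx_dense`: `near_or_deep 1`; if `x` is near `g o = vx g 0` (`e^0 = 1`), done.  Otherwise `g⁻¹x = (w,t)` with
`t > 1`; `λ` a lattice vector with `‖w-λ‖ ≤ ρ`, `n = ⌊log t⌋`; `vx (g tr λ) n = g (λ, e^n)` is within bounded distance
of `x` (`exists_hd_le`).
`vx_close`: `hd ((0,e^n), γ(0,e^(n'))) ≤ r`, `γ = g⁻¹g'`.  If `γ` is parabolic, `γ = tr v`: `‖v‖ ≤ e^r e^n` and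
`|n-n'| ≤ r` (`norm_le_of_hd`, `log_sub_log_le_hd`).  Otherwise `t(γ(0,e^(n'))) ≤ e^(-n')/4` (`height_le`) and it is
`≥ e^(-r) e^n`: so `n, n' ≤ r`, hence `hd (γ o) o ≤ C`.
-/

namespace QIG

variable {m : ℕ} (P : Piece m)

/-- The vertical point `(0, e^n)`. -/
noncomputable def pcvPt (m n : ℕ) : HPt m := ⟨0, Real.exp n, Real.exp_pos _⟩

theorem pcv_vx (g : P.Γ) (n : ℕ) : P.vx g n = g.1 (pcvPt m n) := rfl

theorem pcv_base (n : ℕ) : hd (base m) (pcvPt m n) ≤ n + Real.log 2 := by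
  have h := hd_vert (0 : E m) one_pos (Real.exp_pos (n : ℝ))
  rw [Real.log_exp, Real.log_one, sub_zero, abs_of_nonneg (Nat.cast_nonneg n)] at h
  exact h

theorem pcv_hd (g g' : P.Γ) (n n' : ℕ) : hd (P.vx g n) (P.vx g' n') =
    hd (pcvPt m n) ((g⁻¹ * g').1 (pcvPt m n')) := by
  rw [pcv_vx, pcv_vx, ← hd_isom (P.isom g.1 g.2) (pcvPt m n)]
  congr 1
  have h : g.1 * (g⁻¹ * g').1 = g'.1 := by
    have h1 : g * (g⁻¹ * g') = g' := by group
    exact congrArg Subtype.val h1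
  rw [← Equiv.Perm.mul_apply, h]

theorem pcv_tr (g : P.Γ) (v : P.lat) (n : ℕ) : (P.tr v).1 (pcvPt m n) =
    ⟨(v : E m), Real.exp n, Real.exp_pos _⟩ := by
  apply HPt.ext
  · show (0 : E m) + (v : E m) = v
    rw [zero_add]
  · rfl

theorem pcv_hd_tr (g : P.Γ) (v : P.lat) (n n' : ℕ) : hd (P.vx g n) (P.vx (g * P.tr v) n') =
    hd (pcvPt m n) ⟨(v : E m), Real.exp n', Real.exp_pos _⟩ := by
  rw [pcv_hd]
  have h1 : g⁻¹ * (g * P.tr v) = P.tr v := by group
  rw [h1, pcv_tr P g]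

theorem Piece.vx_dense : ∃ C : ℝ, ∀ x : HPt m, ∃ (g : P.Γ) (n : ℕ), hd x (P.vx g n) ≤ C := by
  obtain ⟨r, -, hr⟩ := P.near_or_deep 1 le_rfl
  obtain ⟨ρ, hρ, hcov⟩ := P.lat_cover
  obtain ⟨r', -, hr'⟩ := exists_hd_le (max ρ (Real.exp 1))
  refine ⟨max r r', fun x => ?_⟩
  rcases hr x with ⟨g, hg⟩ | ⟨g, hg⟩
  · refine ⟨g, 0, le_trans ?_ (le_max_left _ _)⟩
    have h1 : P.vx g 0 = P.orb g := by
      rw [pcv_vx]
      unfold Piece.orb
      congr 1
      apply HPt.ext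
      · rfl
      · show Real.exp ((0 : ℕ) : ℝ) = 1
        rw [Nat.cast_zero, Real.exp_zero]
    rw [h1]
    exact hg
  · set y : HPt m := g.1⁻¹ x with hy
    have hgy : g.1 y = x := g.1.apply_symm_apply x
    obtain ⟨v, hv⟩ := hcov y.u
    have ht0 : 0 < Real.log y.t := Real.log_pos hg
    set n : ℕ := ⌊Real.log y.t⌋₊ with hn
    have h1 : (n : ℝ) ≤ Real.log y.t := Nat.floor_le ht0.le
    have h2 : Real.log y.t < n + 1 := Nat.lt_floor_add_one _
    have h3 : Real.exp n ≤ y.t := by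
      rw [← Real.exp_log y.pos]
      exact Real.exp_le_exp.2 h1
    have h4 : y.t ≤ Real.exp 1 * Real.exp n := by
      rw [← Real.exp_add]
      nth_rewrite 1 [← Real.exp_log y.pos]
      exact Real.exp_le_exp.2 (by linarith)
    have h5 : 1 ≤ Real.exp 1 := Real.one_le_exp zero_le_one
    have hypos := y.pos
    refine ⟨g * P.tr v, n, le_trans ?_ (le_max_right _ _)⟩
    have h6 : hd x (P.vx (g * P.tr v) n) = hd y ⟨(v : E m), Real.exp n, Real.exp_pos _⟩ := by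
      rw [← hd_isom (P.isom g.1 g.2) y, hgy]
      congr 1
      rw [pcv_vx, ← pcv_tr P g]
      rfl
    rw [h6]
    refine hr' _ _ ?_ ?_ ?_
    · calc ‖y.u - (v : E m)‖ ≤ ρ := hv
        _ ≤ max ρ (Real.exp 1) * 1 := by rw [mul_one]; exact le_max_left _ _
        _ ≤ max ρ (Real.exp 1) * y.t := by
          apply mul_le_mul_of_nonneg_left hg.le
          exact hρ.le.trans (le_max_left _ _)
    · calc Real.exp n ≤ y.t := h3
        _ = 1 * y.t := (one_mul _).symm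
        _ ≤ max ρ (Real.exp 1) * y.t :=
          mul_le_mul_of_nonneg_right (h5.trans (le_max_right _ _)) y.pos.le
    · calc y.t ≤ Real.exp 1 * Real.exp n := h4
        _ ≤ max ρ (Real.exp 1) * Real.exp n :=
          mul_le_mul_of_nonneg_right (le_max_right _ _) (Real.exp_pos _).le

theorem Piece.vx_close (r : ℝ) : ∃ C : ℝ, ∀ (g g' : P.Γ) (n n' : ℕ),
    hd (P.vx g n) (P.vx g' n') ≤ r →
      (∃ v : P.lat, g' = g * P.tr v ∧ ‖(v : E m)‖ ≤ C * Real.exp n ∧ |(n : ℝ) - n'| ≤ C) ∨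
      ((n : ℝ) ≤ C ∧ (n' : ℝ) ≤ C ∧ g⁻¹ * g' ∈ P.bal C) := by
  have hlog2 : 0 ≤ Real.log 2 := Real.log_nonneg one_le_two
  refine ⟨Real.exp |r| + 3 * |r| + 2 * Real.log 2, fun g g' n n' h => ?_⟩
  have hr1 : r ≤ |r| := le_abs_self r
  have hr0 : 0 ≤ |r| := abs_nonneg r
  have hexp : 0 < Real.exp |r| := Real.exp_pos _
  rw [pcv_hd] at h
  by_cases hpar : P.Par (g⁻¹ * g')
  · left
    obtain ⟨v, hv⟩ := (P.par_iff _).1 hpar
    have hg' : g' = g * P.tr v := by rw [← hv]; group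
    rw [hv, pcv_tr P g] at h
    refine ⟨v, hg', ?_, ?_⟩
    · have h1 := norm_le_of_hd h
      have h2 : ‖(v : E m)‖ ≤ Real.exp r * Real.exp n := by
        have h3 : ‖(0 : E m) - (v : E m)‖ ≤ Real.exp r * Real.exp n := h1
        rwa [zero_sub, norm_neg] at h3
      refine h2.trans (mul_le_mul_of_nonneg_right ?_ (Real.exp_pos _).le)
      have := Real.exp_le_exp.2 hr1
      linarith
    · have h1 := (log_sub_log_le_hd _ _).trans h
      have h2 : |Real.log (Real.exp n') - Real.log (Real.exp n)| ≤ r := h1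
      rw [Real.log_exp, Real.log_exp, abs_sub_comm] at h2
      linarith
  · right
    have h1 : ((g⁻¹ * g').1 (pcvPt m n')).t ≤ 1 / (4 * Real.exp n') := P.height_le hpar _
    have h2 : Real.exp n ≤ Real.exp r * ((g⁻¹ * g').1 (pcvPt m n')).t := by
      rw [hd_comm] at h
      exact t_le_of_hd h
    have hn' : 0 < Real.exp (n' : ℝ) := Real.exp_pos _
    have h3 : Real.exp n * Real.exp n' ≤ Real.exp r := by
      have h4 : Real.exp n ≤ Real.exp r * (1 / (4 * Real.exp n')) :=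
        h2.trans (mul_le_mul_of_nonneg_left h1 (Real.exp_pos _).le)
      have h5 := mul_le_mul_of_nonneg_right h4 hn'.le
      have h6 : Real.exp r * (1 / (4 * Real.exp n')) * Real.exp n' = Real.exp r / 4 := by
        field_simp
      rw [h6] at h5
      have h7 := Real.exp_pos r
      linarith
    rw [← Real.exp_add, Real.exp_le_exp] at h3
    have hn0 : (0 : ℝ) ≤ n := Nat.cast_nonneg n
    have hn0' : (0 : ℝ) ≤ n' := Nat.cast_nonneg n'
    refine ⟨by linarith, by linarith, ?_⟩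
    show hd ((g⁻¹ * g').1 (base m)) (base m) ≤ _
    have h4 := hd_triangle ((g⁻¹ * g').1 (base m)) ((g⁻¹ * g').1 (pcvPt m n')) (base m)
    have h5 := hd_triangle ((g⁻¹ * g').1 (pcvPt m n')) (pcvPt m n) (base m)
    rw [hd_isom (P.isom _ (g⁻¹ * g').2)] at h4
    have h6 := pcv_base (m := m) n
    have h7 := pcv_base (m := m) n'
    rw [hd_comm] at h6 h
    linarith

/-- Conversely. -/
theorem Piece.vx_hd_le (C : ℝ) : ∃ r : ℝ, ∀ (g g' : P.Γ) (n n' : ℕ),
    ((∃ v : P.lat, g' = g * P.tr v ∧ ‖(v : E m)‖ ≤ C * Real.exp n ∧ |(n : ℝ) - n'| ≤ C) ∨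
      ((n : ℝ) ≤ C ∧ (n' : ℝ) ≤ C ∧ g⁻¹ * g' ∈ P.bal C)) → hd (P.vx g n) (P.vx g' n') ≤ r := by
  obtain ⟨r, -, hr⟩ := exists_hd_le (max C (Real.exp C))
  refine ⟨max r (3 * C + 2 * Real.log 2), fun g g' n n' h => ?_⟩
  rcases h with ⟨v, rfl, hv, hn⟩ | ⟨h1, h2, h3⟩
  · refine le_trans ?_ (le_max_left _ _)
    rw [pcv_hd_tr]
    rw [abs_le] at hn
    refine hr _ _ ?_ ?_ ?_
    · show ‖(0 : E m) - (v : E m)‖ ≤ max C (Real.exp C) * Real.exp n
      rw [zero_sub, norm_neg]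
      exact hv.trans (mul_le_mul_of_nonneg_right (le_max_left _ _) (Real.exp_pos _).le)
    · show Real.exp n' ≤ max C (Real.exp C) * Real.exp n
      refine le_trans ?_ (mul_le_mul_of_nonneg_right (le_max_right C (Real.exp C))
        (Real.exp_pos _).le)
      rw [← Real.exp_add]
      exact Real.exp_le_exp.2 (by linarith)
    · show Real.exp n ≤ max C (Real.exp C) * Real.exp n'
      refine le_trans ?_ (mul_le_mul_of_nonneg_right (le_max_right C (Real.exp C))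
        (Real.exp_pos _).le)
      rw [← Real.exp_add]
      exact Real.exp_le_exp.2 (by linarith)
  · refine le_trans ?_ (le_max_right _ _)
    rw [pcv_hd]
    have h4 : hd ((g⁻¹ * g').1 (base m)) (base m) ≤ C := h3
    have h5 := hd_triangle (pcvPt m n) ((g⁻¹ * g').1 (base m)) ((g⁻¹ * g').1 (pcvPt m n'))
    have h6 := hd_triangle (pcvPt m n) (base m) ((g⁻¹ * g').1 (base m))
    rw [hd_isom (P.isom _ (g⁻¹ * g').2)] at h5
    have h7 := pcv_base (m := m) n
    have h8 := pcv_base (m := m) n'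
    rw [hd_comm] at h7 h4
    linarith

end QIG
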