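import Pool.Agent.W_a51130_h62.PhiT

/-!
(4a): displacement of the projection along a generator.

CLAIM.  For every `r` there is `C` such that for all `i`, `γ ∈ (P i).bal r` and all `h`:
`‖Φ h - Φ (h γ)‖² ≤ C T(h) T(h γ)`.
PROOF.  Induction on `h` (`AmalStr.ind`), the claim being for all `i, γ`.
(a) `h = ba v`.  `T h = 1`.  If `γ` is parabolic, `γ = φ_i w`, `Φ(hγ) = v + w`, `T = 1`, `‖w‖` bounded.  Otherwise
`Φ(hγ) = v + Φ(of i γ)`, `T(hγ) = T(of i γ)`; finitely many `γ`, `T > 0`: take `C` large.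
(b) `h = of j g * h'`, `g` not parabolic, `side h' ≠ some j`.
(b1) `side (h' γ) ≠ some j`: then `h γ = of j g * (h' γ)`, and with `w = Ψ_j Φ(h')`, `w' = Ψ_j Φ(h'γ)`,
`t = t(g(w,κ))`, `t' = t(g(w',κ))`: `‖Φ h - Φ(hγ)‖² ≤ κ² ‖u(g(w,κ)) - u(g(w',κ))‖² ≤ κ² t t' ‖w-w'‖²/κ²`
(`isom_horizontal`) `≤ t t' κ² ‖Φ h' - Φ(h'γ)‖² ≤ (κt)(κt') C T(h')T(h'γ) = C T(h) T(hγ)`.
(b2) `side (h'γ) = some j`.  By `side_mul_of` applied to `h'` (if `side h' = some k`, `k ≠ j`, the side of `h'γ` is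
`some k` or `none`) we must have `side h' = none`, `h' = ba v`, and then `i = j` (otherwise `φ_i(v)γ ∈ Γ_i` has side
`some i` or none).  So `h = of j (g φ_j(v))`, `h γ = of j (g φ_j(v) γ)`; write `g` for `g φ_j(v)` (not parabolic).
If `gγ` is parabolic we are in case (a) for `hγ` and `γ⁻¹`.  Otherwise `Φ h = Ψ_j⁻¹ u(g(0,κ))`,
`T h = κ t(g(0,κ))`, `Φ(hγ) = Ψ_j⁻¹ u(gγ(0,κ))`, `T(hγ) = κ t(gγ(0,κ))`, and `hd(g(0,κ), gγ(0,κ)) = hd((0,κ),γ(0,κ))` is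
bounded, so `‖u - u'‖² ≤ e^C t t'`.
-/

namespace QIG

open Monoid

variable {m : ℕ}

theorem four_a_bdd {α : Type} {s : Set α} (hs : s.Finite) (f : α → ℝ) :
    ∃ C : ℝ, 0 ≤ C ∧ ∀ a ∈ s, f a ≤ C := by
  obtain ⟨C, hC⟩ := (hs.image f).bddAbove
  refine ⟨max C 0, le_max_right _ _, fun a ha => ?_⟩
  exact (hC ⟨a, ha, rfl⟩).trans (le_max_left _ _)

theorem four_a_q_sq {x y : HPt m} {c : ℝ} (h : q x y ≤ c) :
    ‖x.u - y.u‖ ^ 2 ≤ c * (x.t * y.t) := by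
  have h1 := x.pos
  have h2 := y.pos
  have h3 : ‖x.u - y.u‖ ^ 2 + x.t ^ 2 + y.t ^ 2 = q x y * (x.t * y.t) := by
    unfold q
    field_simp
  have h4 : q x y * (x.t * y.t) ≤ c * (x.t * y.t) := by gcongr
  nlinarith [sq_nonneg x.t, sq_nonneg y.t]

theorem PT.four_a_base {D : Gl m} {A : AmalStr D.φ} (X : PT D A) {C : ℝ} {i : Fin 2}
    {γ : (D.P i).Γ} (h : ‖X.Φ (D.of i γ)‖ ^ 2 ≤ C * X.T (D.of i γ)) (v : (D.P 0).lat) :
    ‖X.Φ (D.ba v) - X.Φ (D.ba v * D.of i γ)‖ ^ 2 ≤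
      C * (X.T (D.ba v) * X.T (D.ba v * D.of i γ)) := by
  rw [X.Φ_ba, X.Φ_mul, X.T_ba, X.T_mul, one_mul]
  have h1 : (v : E m) - (v + X.Φ (D.of i γ)) = -X.Φ (D.of i γ) := by abel
  rw [h1, norm_neg]
  exact h

theorem PT.four_a_single {D : Gl m} {A : AmalStr D.φ} (X : PT D A) {j : Fin 2}
    {g : (D.P j).Γ} (hg : ¬ (D.P j).Par g) :
    X.Φ (D.of j g) = (D.Ψ j).symm (g.1 ⟨0, X.κ, lt_of_lt_of_le one_pos X.hκ⟩).u ∧
      X.T (D.of j g) = X.κ * (g.1 ⟨0, X.κ, lt_of_lt_of_le one_pos X.hκ⟩).t := by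
  have h0 : D.ba 0 = 1 := D.ba_zero
  have h1 : A.side (1 : D.G) ≠ some j := by
    rw [(D.side_none A 1).2 ⟨0, h0.symm⟩]
    simp
  have h2 : X.Φ (1 : D.G) = 0 := by
    rw [← h0, X.Φ_ba]
    rfl
  have h3 : X.T (1 : D.G) = 1 := by
    rw [← h0, X.T_ba]
  have e1 := X.Φ_cons j g hg 1 h1
  have e2 := X.T_cons j g hg 1 h1
  simp only [mul_one, h2, map_zero] at e1
  simp only [mul_one, h2, h3, map_zero, one_mul] at e2
  exact ⟨e1, e2⟩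

theorem PT.four_a {D : Gl m} {A : AmalStr D.φ} (X : PT D A) (r : ℝ) : ∃ C : ℝ,
    ∀ (i : Fin 2), ∀ γ ∈ (D.P i).bal r, ∀ h,
      ‖X.Φ h - X.Φ (h * D.of i γ)‖ ^ 2 ≤ C * (X.T h * X.T (h * D.of i γ)) := by
  have hκ0 : 0 < X.κ := lt_of_lt_of_le one_pos X.hκ
  -- the constant
  have hC1 : ∀ i : Fin 2, ∃ C : ℝ, 0 ≤ C ∧ ∀ γ ∈ (D.P i).bal r,
      ‖X.Φ (D.of i γ)‖ ^ 2 / X.T (D.of i γ) ≤ C := fun i =>
    four_a_bdd ((D.P i).bal_finite r) _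
  have hC2 : ∀ i : Fin 2, ∃ C : ℝ, 0 ≤ C ∧ ∀ γ ∈ (D.P i).bal r,
      q (⟨0, X.κ, hκ0⟩ : HPt m) (γ.1 ⟨0, X.κ, hκ0⟩) ≤ C := fun i =>
    four_a_bdd ((D.P i).bal_finite r) _
  choose C1 hC10 hC1 using hC1
  choose C2 hC20 hC2 using hC2
  obtain ⟨C, hC0, hCa, hCb⟩ : ∃ C : ℝ, 0 ≤ C ∧ (∀ i, C1 i ≤ C) ∧ ∀ i, C2 i ≤ C := by
    refine ⟨C1 0 + C1 1 + C2 0 + C2 1, ?_, ?_, ?_⟩
    · linarith [hC10 0, hC10 1, hC20 0, hC20 1]
    · intro i
      fin_cases i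
      · show C1 0 ≤ _
        linarith [hC10 0, hC10 1, hC20 0, hC20 1]
      · show C1 1 ≤ _
        linarith [hC10 0, hC10 1, hC20 0, hC20 1]
    · intro i
      fin_cases i
      · show C2 0 ≤ _
        linarith [hC10 0, hC10 1, hC20 0, hC20 1]
      · show C2 1 ≤ _
        linarith [hC10 0, hC10 1, hC20 0, hC20 1]
  have ha : ∀ (i : Fin 2), ∀ γ ∈ (D.P i).bal r,
      ‖X.Φ (D.of i γ)‖ ^ 2 ≤ C * X.T (D.of i γ) := by
    intro i γ hγ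
    have h1 := (hC1 i γ hγ).trans (hCa i)
    rwa [div_le_iff₀ (X.T_pos _)] at h1
  refine ⟨C, ?_⟩
  suffices H : ∀ h : D.G, ∀ (i : Fin 2), ∀ γ ∈ (D.P i).bal r,
      ‖X.Φ h - X.Φ (h * D.of i γ)‖ ^ 2 ≤ C * (X.T h * X.T (h * D.of i γ)) by
    intro i γ hγ h
    exact H h i γ hγ
  refine A.ind ?_ ?_
  · intro l i γ hγ
    exact X.four_a_base (ha i γ hγ) (Multiplicative.toAdd l)
  · intro j g hg h' hh' ih i γ hγ
    have hgP : ¬ (D.P j).Par g := fun hp => hg ((D.mem_range_iff j g).2 hp)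
    have hofj : (PushoutI.of j g : D.G) = D.of j g := rfl
    rw [hofj]
    by_cases hs : A.side (h' * D.of i γ) = some j
    · -- the product reaches the wall
      have hnone : A.side h' = none := by
        by_contra hne
        obtain ⟨k, hk⟩ := Option.ne_none_iff_exists'.1 hne
        have hkj : k ≠ j := fun h => hh' (by rw [hk, h])
        rcases A.side_mul_of hk i γ with h1 | h1
        · have h2 : A.side (h' * D.of i γ) = some k := h1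
          rw [hs] at h2
          exact hkj (Option.some.inj h2).symm
        · have h2 : A.side (h' * D.of i γ) = none := h1
          rw [hs] at h2
          simp at h2
      obtain ⟨v, rfl⟩ := (D.side_none A h').1 hnone
      have hij : i = j := by
        by_contra hne
        rw [D.side_ba_mul A] at hs
        exact A.side_of_ne hne γ hs
      subst hij
      set w := D.φ i (Multiplicative.ofAdd v) with hw
      have hwP : (D.P i).Par w := (D.mem_range_iff i w).1 ⟨_, rfl⟩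
      have hba : D.ba v = D.of i w := (D.of_par i v).symm
      set g₁ := g * w with hg₁
      have hg₁P : ¬ (D.P i).Par g₁ := by
        intro hp
        apply hgP
        have := (D.P i).par_mul hp ((D.P i).par_inv hwP)
        rwa [hg₁, mul_inv_cancel_right] at this
      have e1 : D.of i g * D.ba v = D.of i g₁ := by rw [hba, ← map_mul]
      have e2 : D.of i g * D.ba v * D.of i γ = D.of i (g₁ * γ) := by rw [e1, ← map_mul]
      rw [e2, e1]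
      by_cases hP : (D.P i).Par (g₁ * γ)
      · obtain ⟨u, hu, -, -⟩ := D.exists_ba i hP
        have e3 : D.of i g₁ = D.ba u * D.of i γ⁻¹ := by
          rw [← hu, ← map_mul, mul_inv_cancel_right]
        rw [hu, e3, norm_sub_rev, mul_comm (X.T (D.ba u * D.of i γ⁻¹))]
        exact X.four_a_base (ha i _ ((D.P i).bal_inv hγ)) u
      · obtain ⟨f1, f2⟩ := X.four_a_single hg₁P
        obtain ⟨f3, f4⟩ := X.four_a_single hP
        rw [f1, f2, f3, f4, ← map_sub]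
        have f5 : q (g₁.1 ⟨0, X.κ, hκ0⟩) ((g₁ * γ).1 ⟨0, X.κ, hκ0⟩) ≤ C := by
          have f6 : (g₁ * γ).1 ⟨0, X.κ, hκ0⟩ = g₁.1 (γ.1 ⟨0, X.κ, hκ0⟩) := rfl
          rw [f6, q_isom ((D.P i).isom' g₁)]
          exact (hC2 i γ hγ).trans (hCb i)
        have f7 := four_a_q_sq f5
        have f8 := X.le2 i ((g₁.1 ⟨0, X.κ, hκ0⟩).u - ((g₁ * γ).1 ⟨0, X.κ, hκ0⟩).u)
        set Y := g₁.1 ⟨0, X.κ, hκ0⟩
        set Y' := (g₁ * γ).1 ⟨0, X.κ, hκ0⟩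
        calc ‖(D.Ψ i).symm (Y.u - Y'.u)‖ ^ 2 ≤ (X.κ * ‖Y.u - Y'.u‖) ^ 2 := by gcongr
          _ = X.κ ^ 2 * ‖Y.u - Y'.u‖ ^ 2 := by ring
          _ ≤ X.κ ^ 2 * (C * (Y.t * Y'.t)) := by gcongr
          _ = C * (X.κ * Y.t * (X.κ * Y'.t)) := by ring
    · -- both decompositions begin with `g`
      have e1 : D.of j g * h' * D.of i γ = D.of j g * (h' * D.of i γ) := mul_assoc _ _ _
      rw [e1, X.Φ_cons j g hgP h' hh', X.Φ_cons j g hgP _ hs, X.T_cons j g hgP h' hh',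
        X.T_cons j g hgP _ hs, ← map_sub]
      have f1 := isom_horizontal ((D.P j).isom' g) (D.Ψ j (X.Φ h'))
        (D.Ψ j (X.Φ (h' * D.of i γ))) hκ0
      have f2 := X.le2 j ((g.1 ⟨D.Ψ j (X.Φ h'), X.κ, hκ0⟩).u -
        (g.1 ⟨D.Ψ j (X.Φ (h' * D.of i γ)), X.κ, hκ0⟩).u)
      have f3 := X.le1 j (X.Φ h' - X.Φ (h' * D.of i γ))
      rw [map_sub] at f3
      have f4 := ih i γ hγ
      have f5 := (g.1 ⟨D.Ψ j (X.Φ h'), X.κ, hκ0⟩).pos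
      have f6 := (g.1 ⟨D.Ψ j (X.Φ (h' * D.of i γ)), X.κ, hκ0⟩).pos
      set Y := g.1 ⟨D.Ψ j (X.Φ h'), X.κ, hκ0⟩
      set Y' := g.1 ⟨D.Ψ j (X.Φ (h' * D.of i γ)), X.κ, hκ0⟩
      set a := ‖D.Ψ j (X.Φ h') - D.Ψ j (X.Φ (h' * D.of i γ))‖
      set b := ‖X.Φ h' - X.Φ (h' * D.of i γ)‖
      have hb0 : 0 ≤ b := norm_nonneg _
      have ha0 : 0 ≤ a := norm_nonneg _
      calc ‖(D.Ψ j).symm (Y.u - Y'.u)‖ ^ 2 ≤ (X.κ * ‖Y.u - Y'.u‖) ^ 2 := by gcongr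
        _ = X.κ ^ 2 * ‖Y.u - Y'.u‖ ^ 2 := by ring
        _ ≤ X.κ ^ 2 * (Y.t * Y'.t * a ^ 2 / X.κ ^ 2) := by gcongr
        _ = Y.t * Y'.t * a ^ 2 := by field_simp
        _ ≤ Y.t * Y'.t * (X.κ * b) ^ 2 := by gcongr
        _ = Y.t * Y'.t * X.κ ^ 2 * b ^ 2 := by ring
        _ ≤ Y.t * Y'.t * X.κ ^ 2 * (C * (X.T h' * X.T (h' * D.of i γ))) := by gcongr
        _ = C * (X.T h' * (X.κ * Y.t) * (X.T (h' * D.of i γ) * (X.κ * Y'.t))) := by ring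

end QIG
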