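import Pool.Agent.W_a51130_h62.PhiT
import Pool.Agent.W_a51130_h62.PcEscape

/-!
(4b): `h` can be reached from the wall point below its projection in `C/√(T h)` steps.

PROOF.  Let `ρ` be given (enlarge it: `ρ ≥` the covering radius of `(P 0).lat`).  Claim: there are `r, C` with
`(ba v)⁻¹ h ∈ (gen r')^n` whenever `r' ≥ r`, `‖Φ h - v‖ ≤ ρ`, `n ≥ C/√(T h)`.  Induction on `h`
(`AmalStr.ind`), for all `v`.
`h = ba w`: `‖w - v‖ ≤ ρ`, so `ba (w-v) = of 0 (tr (w-v))` is one generator (`r` large); `n ≥ C ≥ 1`.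
`h = of i g * h'`, `side h' ≠ some i`, `g` not parabolic.  Let `λ` be a lattice vector with `‖Φ h' - λ‖ ≤ ρ`; by
induction `(ba λ)⁻¹ h'` has length `≤ C/√T'`, `T' = T h'` (rounding up costs `1`).  Let
`y = g(Ψ_i Φ h', κ)`, `t = y.t`; `Φ h = Ψ_i⁻¹ y.u`, `T h = T' κ t`.  The element `g' = g φ_i(λ) ∈ Γ_i` has
`g' o = g(Ψ_i λ, 1)`, at bounded `hd` from `y` (`≤ r₁`: `(Ψ_iλ,1)` and `(Ψ_iΦh',κ)`), so
`t(g' o) ≥ e^(-r₁) t` and `‖u(g' o) - y.u‖ ≤ e^(r₁) t ≤ e^(r₁)`, hence `‖u(g' o) - Ψ_i v‖ ≤ ρ₁ := κρ + e^(r₁)`.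
By `Piece.escape ρ₁` for the piece `i`, `(φ_i v)⁻¹ g'` has length `≤ C₁/√(t(g' o)) ≤ C₁ e^(r₁/2)/√t` (`+1` for rounding)
in `(P i).bal r'`, so `(ba v)⁻¹ * of i g' ∈ (gen r')^..`.  As `h = ba v · [(ba v)⁻¹ of i g'] · [(ba λ)⁻¹ h']`
(`of i (φ_i λ) = ba λ`), the length of `(ba v)⁻¹ h` is at most `C X + C₂ Y + 2`, `X = 1/√T' ≥ 1`,
`Y = 1/√(κ t) ≥ 2` (`κ t ≤ 1/4`), `C₂ = C₁ e^(r₁/2) √κ`.  Since `1/√(T h) = X Y` and
`C X Y - C X = C X (Y-1) ≥ C Y/2`, it is `≤ C X Y` when `C ≥ 2C₂ + 4`... (take care of the rounding: choose the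
integers `⌈·⌉`, total `≤ CX + C₂Y + 2 ≤ C X Y`).
-/

namespace QIG

open Monoid
open scoped Pointwise

variable {m : ℕ}

/-- Lattice vectors of the wall, seen in the piece `i`. -/
theorem Gl.four_b_lat (D : Gl m) (i : Fin 2) (v : (D.P 0).lat) :
    ∃ w : (D.P i).lat, (w : E m) = D.Ψ i (v : E m) ∧
      (D.P i).tr w = D.φ i (Multiplicative.ofAdd v) := by
  have h1 : transl (D.Ψ i (v : E m)) ∈ (D.P i).Γ := by
    rw [← D.hΨ i v]
    exact (glueMap D.P D.ψ i (Multiplicative.ofAdd v)).2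
  refine ⟨⟨D.Ψ i (v : E m), h1⟩, rfl, ?_⟩
  apply Subtype.ext
  exact (D.hΨ i v).symm

theorem Gl.four_b_one (D : Gl m) {r : ℝ} (hr : 1 ≤ r) : (1 : D.G) ∈ D.gen r := by
  refine ⟨0, 1, ?_, (map_one _).symm⟩
  change hd (((1 : (D.P 0).Γ) : Equiv.Perm (HPt m)) (base m)) (base m) ≤ r
  rw [OneMemClass.coe_one, Equiv.Perm.one_apply, hd_self]
  have := Real.log_two_lt_d9
  linarith

theorem Gl.four_b_mono (D : Gl m) {r : ℝ} (hr : 1 ≤ r) {n n' : ℕ} (h : n ≤ n') {g : D.G}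
    (hg : g ∈ (D.gen r) ^ n) : g ∈ (D.gen r) ^ n' :=
  Set.pow_subset_pow_right (D.four_b_one hr) h hg

/-- Wall elements of bounded translation length are generators. -/
theorem Gl.four_b_base (D : Gl m) (ρ : ℝ) (hρ : 0 ≤ ρ) : ∃ r : ℝ, ∀ r', r ≤ r' →
    ∀ v : (D.P 0).lat, ‖(v : E m)‖ ≤ ρ → D.ba v ∈ D.gen r' := by
  obtain ⟨r, -, hr⟩ := exists_hd_le (ρ + 1)
  refine ⟨r, fun r' hr' v hv => ⟨0, D.φ 0 (Multiplicative.ofAdd v), ?_, (D.of_par 0 v).symm⟩⟩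
  refine le_trans ?_ hr'
  change hd (((glueMap D.P D.ψ 0 (Multiplicative.ofAdd v)).1) (base m)) (base m) ≤ r
  rw [D.hΨ 0 v]
  apply hr
  · rw [D.hΨ0]
    simp only [transl_u, transl_t, base, zero_add, sub_zero, mul_one]
    linarith
  · simp only [transl_t, base, mul_one]
    linarith
  · simp only [transl_t, base, mul_one]
    linarith

/-- The escape estimate in both pieces simultaneously. -/
theorem Gl.four_b_escape (D : Gl m) (ρ : ℝ) : ∃ r C : ℝ, 0 < C ∧ ∀ r', r ≤ r' →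
    ∀ (i : Fin 2) (g : (D.P i).Γ) (v : (D.P i).lat), ‖((D.P i).orb g).u - v‖ ≤ ρ → ∀ n : ℕ,
      C / Real.sqrt ((D.P i).orb g).t ≤ n → ((D.P i).tr v)⁻¹ * g ∈ ((D.P i).bal r') ^ n := by
  obtain ⟨r0, C0, hC0, h0⟩ := (D.P 0).escape ρ
  obtain ⟨r1, C1, hC1, h1⟩ := (D.P 1).escape ρ
  refine ⟨max r0 r1, max C0 C1, lt_max_of_lt_left hC0, ?_⟩
  intro r' hr' i
  have hr0 : r0 ≤ r' := (le_max_left _ _).trans hr'
  have hr1 : r1 ≤ r' := (le_max_right _ _).trans hr'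
  match i with
  | 0 =>
    intro g v hv n hn
    refine h0 r' hr0 g v hv n (le_trans ?_ hn)
    exact div_le_div_of_nonneg_right (le_max_left _ _) (Real.sqrt_nonneg _)
  | 1 =>
    intro g v hv n hn
    refine h1 r' hr1 g v hv n (le_trans ?_ hn)
    exact div_le_div_of_nonneg_right (le_max_right _ _) (Real.sqrt_nonneg _)

theorem four_b_arith {C C₂ X Y : ℝ} (hC₂ : 0 ≤ C₂) (hC : C = 2 * C₂ + 2) (hX : 1 ≤ X)
    (hY : 2 ≤ Y) : C₂ * Y + 1 + (C * X + 1) ≤ C * (X * Y) := by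
  subst hC
  have h1 : 0 ≤ (X - 1) * (Y - 1) := mul_nonneg (by linarith) (by linarith)
  have h2 : 0 ≤ (2 * C₂ + 2) * ((X - 1) * (Y - 1)) := mul_nonneg (by linarith) h1
  have h3 : 0 ≤ C₂ * (Y - 2) := mul_nonneg hC₂ (by linarith)
  nlinarith

theorem PT.four_b {D : Gl m} {A : AmalStr D.φ} (X : PT D A) (ρ : ℝ) : ∃ r C : ℝ, 0 < C ∧
    ∀ r', r ≤ r' → ∀ (h : D.G) (v : (D.P 0).lat), ‖X.Φ h - v‖ ≤ ρ → ∀ n : ℕ,
      C / Real.sqrt (X.T h) ≤ n → (D.ba v)⁻¹ * h ∈ (D.gen r') ^ n := by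
  obtain ⟨ρ0, hρ0, hcov⟩ := (D.P 0).lat_cover
  obtain ⟨ρ', hρ', hρρ', hρ0ρ'⟩ : ∃ ρ' : ℝ, 0 ≤ ρ' ∧ ρ ≤ ρ' ∧ ρ0 ≤ ρ' :=
    ⟨max ρ ρ0, le_max_of_le_right hρ0.le, le_max_left _ _, le_max_right _ _⟩
  have hκ := X.hκ
  have hκ0 : 0 < X.κ := lt_of_lt_of_le one_pos hκ
  obtain ⟨rb, hrb⟩ := D.four_b_base ρ' hρ'
  obtain ⟨r1, hr1, hhd⟩ := exists_hd_le (X.κ * (ρ' + 1))
  obtain ⟨re, C1, hC1, hesc⟩ := D.four_b_escape (X.κ * ρ' + Real.exp r1)
  set C₂ : ℝ := C1 * Real.sqrt (Real.exp r1 * X.κ) with hC₂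
  have hC₂0 : 0 ≤ C₂ := mul_nonneg hC1.le (Real.sqrt_nonneg _)
  refine ⟨max 1 (max rb re), 2 * C₂ + 2, by linarith, ?_⟩
  intro r' hr'
  have h1r : 1 ≤ r' := (le_max_left _ _).trans hr'
  have hbr : rb ≤ r' := ((le_max_left _ _).trans (le_max_right _ _)).trans hr'
  have her : re ≤ r' := ((le_max_right _ _).trans (le_max_right _ _)).trans hr'
  have key : ∀ h : D.G, ∀ v : (D.P 0).lat, ‖X.Φ h - v‖ ≤ ρ' → ∀ n : ℕ,
      (2 * C₂ + 2) / Real.sqrt (X.T h) ≤ n → (D.ba v)⁻¹ * h ∈ (D.gen r') ^ n := by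
    refine A.ind ?_ ?_
    · intro l v hv n hn
      obtain ⟨w, rfl⟩ : ∃ w, Multiplicative.ofAdd w = l := ⟨Multiplicative.toAdd l, rfl⟩
      change ‖X.Φ (D.ba w) - v‖ ≤ ρ' at hv
      change (2 * C₂ + 2) / Real.sqrt (X.T (D.ba w)) ≤ n at hn
      change (D.ba v)⁻¹ * D.ba w ∈ (D.gen r') ^ n
      rw [X.Φ_ba] at hv
      rw [X.T_ba, Real.sqrt_one, div_one] at hn
      have h1 : (D.ba v)⁻¹ * D.ba w = D.ba (-v + w) := by
        rw [D.ba_add, D.ba_neg]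
      have h2 : (1 : ℕ) ≤ n := by
        have : (1 : ℝ) ≤ (n : ℝ) := by linarith
        exact_mod_cast this
      refine D.four_b_mono h1r h2 ?_
      rw [pow_one, h1]
      refine hrb r' hbr _ ?_
      have h3 : ((-v + w : (D.P 0).lat) : E m) = (w : E m) - (v : E m) := by
        push_cast
        abel
      rw [h3]
      exact hv
    · intro i g hg h hh ih v hv n hn
      have hpar : ¬ (D.P i).Par g := fun hp => hg ((D.mem_range_iff i g).2 hp)
      obtain ⟨l, hl⟩ := hcov (X.Φ h)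
      have hl' : ‖X.Φ h - l‖ ≤ ρ' := hl.trans hρ0ρ'
      have hΦ := X.Φ_cons i g hpar h hh
      have hT := X.T_cons i g hpar h hh
      change ‖X.Φ (D.of i g * h) - v‖ ≤ ρ' at hv
      change (2 * C₂ + 2) / Real.sqrt (X.T (D.of i g * h)) ≤ n at hn
      change (D.ba v)⁻¹ * (D.of i g * h) ∈ (D.gen r') ^ n
      rw [hΦ] at hv
      rw [hT] at hn
      set y0 : HPt m := ⟨D.Ψ i (X.Φ h), X.κ, lt_of_lt_of_le one_pos X.hκ⟩ with hy0
      set y : HPt m := g.1 y0 with hy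
      have hyt : 0 < y.t := y.pos
      -- the point of the orbit
      set g' : (D.P i).Γ := g * D.φ i (Multiplicative.ofAdd l) with hg'
      have horb : (D.P i).orb g' = g.1 (transl (D.Ψ i (l : E m)) (base m)) := by
        change (g * D.φ i (Multiplicative.ofAdd l)).1 (base m) = _
        rw [← D.hΨ i l]
        rfl
      have hdy : hd ((D.P i).orb g') y ≤ r1 := by
        rw [horb, hy, hd_isom ((D.P i).isom' g)]
        apply hhd
        · simp only [transl_u, transl_t, base, zero_add, mul_one, hy0]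
          rw [← map_sub]
          refine (X.le1 i _).trans ?_
          rw [norm_sub_rev]
          exact mul_le_mul_of_nonneg_left (by linarith) hκ0.le
        · simp only [transl_t, base, mul_one, hy0]
          nlinarith
        · simp only [transl_t, base, hy0]
          have : 1 ≤ X.κ * (ρ' + 1) := by nlinarith
          nlinarith
      set z : HPt m := (D.P i).orb g' with hz
      have hzt : 0 < z.t := z.pos
      have hz1 : z.t ≤ 1 := (D.P i).orb_t_le_one g'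
      have ht1 : y.t ≤ Real.exp r1 * z.t := t_le_of_hd hdy
      have hn1 : ‖z.u - y.u‖ ≤ Real.exp r1 := by
        refine (norm_le_of_hd hdy).trans ?_
        have := Real.exp_pos r1
        nlinarith
      obtain ⟨w, hw1, hw2⟩ := D.four_b_lat i v
      have hn2 : ‖y.u - (w : E m)‖ ≤ X.κ * ρ' := by
        have h1 : y.u - (w : E m) = D.Ψ i ((D.Ψ i).symm y.u - (v : E m)) := by
          rw [map_sub, ContinuousLinearEquiv.apply_symm_apply, hw1]
        rw [h1]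
        exact (X.le1 i _).trans (mul_le_mul_of_nonneg_left hv hκ0.le)
      have hn3 : ‖z.u - (w : E m)‖ ≤ X.κ * ρ' + Real.exp r1 := by
        have h1 : z.u - (w : E m) = (z.u - y.u) + (y.u - (w : E m)) := by abel
        rw [h1]
        refine (norm_add_le _ _).trans ?_
        linarith
      -- numbers
      have hTh : 0 < X.T h := X.T_pos h
      have hTh1 : X.T h ≤ 1 := X.T_le h
      have hκt : 0 < X.κ * y.t := mul_pos hκ0 hyt
      have hκt4 : X.κ * y.t ≤ 1 / 4 := by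
        have h1 : y.t ≤ 1 / (4 * X.κ) := (D.P i).height_le hpar y0
        calc X.κ * y.t ≤ X.κ * (1 / (4 * X.κ)) := mul_le_mul_of_nonneg_left h1 hκ0.le
          _ = 1 / 4 := by field_simp
      set x1 : ℝ := 1 / Real.sqrt (X.T h) with hx1
      set y1 : ℝ := 1 / Real.sqrt (X.κ * y.t) with hy1
      have hx1' : 1 ≤ x1 := by
        rw [hx1, le_div_iff₀ (Real.sqrt_pos.2 hTh), one_mul]
        exact Real.sqrt_le_one.2 hTh1
      have hy1' : 2 ≤ y1 := by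
        rw [hy1, le_div_iff₀ (Real.sqrt_pos.2 hκt)]
        have h1 : Real.sqrt (X.κ * y.t) ≤ 1 / 2 := by
          rw [Real.sqrt_le_left (by norm_num)]
          linarith
        linarith
      have hxy : 1 / Real.sqrt (X.T h * (X.κ * y.t)) = x1 * y1 := by
        rw [Real.sqrt_mul hTh.le, hx1, hy1]
        field_simp
      have hn' : (2 * C₂ + 2) * (x1 * y1) ≤ n := by
        rw [← hxy]
        calc (2 * C₂ + 2) * (1 / Real.sqrt (X.T h * (X.κ * y.t)))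
            = (2 * C₂ + 2) / Real.sqrt (X.T h * (X.κ * y.t)) := by ring
          _ ≤ n := hn
      have hcost : C1 / Real.sqrt z.t ≤ C₂ * y1 := by
        have h1 : Real.sqrt (X.κ * y.t) ≤ Real.sqrt (Real.exp r1 * X.κ) * Real.sqrt z.t := by
          rw [← Real.sqrt_mul (by positivity)]
          apply Real.sqrt_le_sqrt
          calc X.κ * y.t ≤ X.κ * (Real.exp r1 * z.t) := mul_le_mul_of_nonneg_left ht1 hκ0.le
            _ = Real.exp r1 * X.κ * z.t := by ring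
        have hs1 : 0 < Real.sqrt z.t := Real.sqrt_pos.2 hzt
        have hs2 : 0 < Real.sqrt (X.κ * y.t) := Real.sqrt_pos.2 hκt
        rw [hy1, hC₂, mul_one_div, div_le_div_iff₀ hs1 hs2, mul_assoc]
        exact mul_le_mul_of_nonneg_left h1 hC1.le
      have hA : ((D.P i).tr w)⁻¹ * g' ∈ ((D.P i).bal r') ^ ⌈C₂ * y1⌉₊ :=
        hesc r' her i g' w hn3 _ (hcost.trans (Nat.le_ceil _))
      have hB : (D.ba l)⁻¹ * h ∈ (D.gen r') ^ ⌈(2 * C₂ + 2) * x1⌉₊ := by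
        refine ih l hl' _ ?_
        have h1 : (2 * C₂ + 2) / Real.sqrt (X.T h) = (2 * C₂ + 2) * x1 := by
          rw [hx1]
          ring
        rw [h1]
        exact Nat.le_ceil _
      have hC := D.of_pow_mem hA
      have hD : (D.ba v)⁻¹ * (D.of i g * h) =
          D.of i (((D.P i).tr w)⁻¹ * g') * ((D.ba l)⁻¹ * h) := by
        rw [map_mul, map_inv, hw2, D.of_par, hg', map_mul, D.of_par]
        group
      rw [hD]
      have hsum : ⌈C₂ * y1⌉₊ + ⌈(2 * C₂ + 2) * x1⌉₊ ≤ n := by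
        have h1 : (⌈C₂ * y1⌉₊ : ℝ) ≤ C₂ * y1 + 1 :=
          (Nat.ceil_lt_add_one (mul_nonneg hC₂0 (by linarith))).le
        have h2 : (⌈(2 * C₂ + 2) * x1⌉₊ : ℝ) ≤ (2 * C₂ + 2) * x1 + 1 :=
          (Nat.ceil_lt_add_one (mul_nonneg (by linarith) (by linarith))).le
        have h3 := four_b_arith hC₂0 rfl hx1' hy1'
        have h4 : ((⌈C₂ * y1⌉₊ + ⌈(2 * C₂ + 2) * x1⌉₊ : ℕ) : ℝ) ≤ (n : ℝ) := by
          push_cast
          linarith
        exact_mod_cast h4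
      refine D.four_b_mono h1r hsum ?_
      rw [pow_add]
      exact Set.mul_mem_mul hC hB
  intro h v hv n hn
  exact key h v (hv.trans hρρ') n hn

end QIG
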