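import Pool.Agent.W_a51130_h62.GlBasic

/-!
Existence of the projection `Φ` and the height `T`.

PROOF.  `κ ≥ 1` a common bound of the norms of `Ψ i`, `(Ψ i)⁻¹`.  Apply `AmalStr.exists_rec` with
`X = E m × ℝ`, `Multiplicative lat` acting by translation on the first factor (define the `MulAction` locally:
`l • (x, c) = (toAdd l + x, c)`), `x₀ = (0, 1)`,
`F i g (x, c) = ((Ψ i)⁻¹ u(g(Ψ i x, κ)), c · κ · t(g(Ψ i x, κ)))`.
`hF1`: `φ i l = transl (Ψ i l)` by `D.hΨ`, so `(g φ_i(l))(Ψ i x, κ) = g(Ψ i (x + l), κ)`; `hF2`: translation after `g`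
adds `Ψ i l` to `u`.
`T_pos`, `T_le`: induction (`AmalStr.ind`); for `g` not parabolic `κ t(g(·,κ)) ≤ κ/(4κ) = 1/4`
(`Piece.height_le`).
-/

namespace QIG

open Monoid

variable {m : ℕ}

/-- Values of the recursion: projection and height. -/
structure PTX (m : ℕ) : Type where
  x : E m
  c : ℝ

/-- The cusp lattice acts by translations on the projections. -/
@[reducible] def ptxAct (P : Piece m) : MulAction (Multiplicative P.lat) (PTX m) where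
  smul l y := ⟨((Multiplicative.toAdd l : P.lat) : E m) + y.x, y.c⟩
  one_smul y := by
    change (⟨((0 : P.lat) : E m) + y.x, y.c⟩ : PTX m) = y
    rw [ZeroMemClass.coe_zero, zero_add]
  mul_smul l l' y := by
    change (⟨((Multiplicative.toAdd l + Multiplicative.toAdd l' : P.lat) : E m) + y.x, y.c⟩ : PTX m) =
      ⟨((Multiplicative.toAdd l : P.lat) : E m) +
        (((Multiplicative.toAdd l' : P.lat) : E m) + y.x), y.c⟩
    rw [AddSubgroup.coe_add, add_assoc]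

theorem pt_exists_kappa (D : Gl m) : ∃ κ : ℝ, 1 ≤ κ ∧ (∀ i x, ‖D.Ψ i x‖ ≤ κ * ‖x‖) ∧
    ∀ i x, ‖(D.Ψ i).symm x‖ ≤ κ * ‖x‖ := by
  have h1 : ∀ i : Fin 2, ∃ c : ℝ, 0 ≤ c ∧ (∀ x, ‖D.Ψ i x‖ ≤ c * ‖x‖) ∧
      ∀ x, ‖(D.Ψ i).symm x‖ ≤ c * ‖x‖ := by
    intro i
    refine ⟨‖((D.Ψ i : E m ≃L[ℝ] E m) : E m →L[ℝ] E m)‖ +
      ‖(((D.Ψ i).symm : E m ≃L[ℝ] E m) : E m →L[ℝ] E m)‖, by positivity, fun x => ?_, fun x => ?_⟩
    · refine (((D.Ψ i : E m ≃L[ℝ] E m) : E m →L[ℝ] E m).le_opNorm x).trans ?_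
      exact mul_le_mul_of_nonneg_right (le_add_of_nonneg_right (norm_nonneg _)) (norm_nonneg _)
    · refine ((((D.Ψ i).symm : E m ≃L[ℝ] E m) : E m →L[ℝ] E m).le_opNorm x).trans ?_
      exact mul_le_mul_of_nonneg_right (le_add_of_nonneg_left (norm_nonneg _)) (norm_nonneg _)
  choose c hc0 hc1 hc2 using h1
  have hle : ∀ i : Fin 2, c i ≤ 1 + c 0 + c 1 := by
    intro i
    have h0 := hc0 0
    have h1 := hc0 1
    fin_cases i
    · change c 0 ≤ _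
      linarith
    · change c 1 ≤ _
      linarith
  refine ⟨1 + c 0 + c 1, by linarith [hc0 0, hc0 1], fun i x => ?_, fun i x => ?_⟩
  · exact (hc1 i x).trans (mul_le_mul_of_nonneg_right (hle i) (norm_nonneg _))
  · exact (hc2 i x).trans (mul_le_mul_of_nonneg_right (hle i) (norm_nonneg _))

/-- One step of the recursion. -/
noncomputable def ptxStep (D : Gl m) {κ : ℝ} (hκ : 0 < κ) (i : Fin 2) (g : (D.P i).Γ)
    (y : PTX m) : PTX m :=
  ⟨(D.Ψ i).symm (g.1 ⟨D.Ψ i y.x, κ, hκ⟩).u, y.c * (κ * (g.1 ⟨D.Ψ i y.x, κ, hκ⟩).t)⟩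

theorem exists_PT (D : Gl m) (A : AmalStr D.φ) : Nonempty (PT D A) := by
  obtain ⟨κ, hκ, h1, h2⟩ := pt_exists_kappa D
  have hκ0 : 0 < κ := lt_of_lt_of_le one_pos hκ
  let _ := ptxAct (D.P 0)
  obtain ⟨f, hf0, hf1, hf2⟩ := A.exists_rec (fun i => D.φ_injective i) (X := PTX m) ⟨0, 1⟩
    (fun i g y => ptxStep D hκ0 i g y) (by
      intro i g _ l y
      have e1 : (g * D.φ i l).1 ⟨D.Ψ i y.x, κ, hκ0⟩ =
          g.1 ⟨D.Ψ i (((Multiplicative.toAdd l : (D.P 0).lat) : E m) + y.x), κ, hκ0⟩ := by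
        have e2 : (g * D.φ i l).1 ⟨D.Ψ i y.x, κ, hκ0⟩ =
            g.1 ((D.φ i l).1 ⟨D.Ψ i y.x, κ, hκ0⟩) := rfl
        have e3 : (D.φ i l).1 = transl (D.Ψ i ((Multiplicative.toAdd l : (D.P 0).lat) : E m)) :=
          D.hΨ i (Multiplicative.toAdd l)
        rw [e2, e3]
        congr 1
        apply HPt.ext
        · rw [transl_u, map_add, add_comm]
        · rfl
      unfold ptxStep
      rw [e1]
      rfl) (by
      intro i g _ l y
      have e1 : (D.φ i l * g).1 ⟨D.Ψ i y.x, κ, hκ0⟩ =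
          transl (D.Ψ i ((Multiplicative.toAdd l : (D.P 0).lat) : E m))
            (g.1 ⟨D.Ψ i y.x, κ, hκ0⟩) := by
        have e2 : (D.φ i l * g).1 ⟨D.Ψ i y.x, κ, hκ0⟩ =
            (D.φ i l).1 (g.1 ⟨D.Ψ i y.x, κ, hκ0⟩) := rfl
        have e3 : (D.φ i l).1 = transl (D.Ψ i ((Multiplicative.toAdd l : (D.P 0).lat) : E m)) :=
          D.hΨ i (Multiplicative.toAdd l)
        rw [e2, e3]
      unfold ptxStep
      rw [e1, transl_u, transl_t, map_add, ContinuousLinearEquiv.symm_apply_apply, add_comm]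
      rfl)
  refine ⟨⟨κ, hκ, h1, h2, fun h => (f h).x, fun h => (f h).c, ?_, ?_, ?_, ?_, ?_, ?_⟩⟩
  · intro v
    have h3 := hf0 (Multiplicative.ofAdd v)
    have h4 : (f (D.ba v)).x = (v : E m) + 0 := congrArg PTX.x h3
    change (f (D.ba v)).x = v
    rw [h4, add_zero]
  · intro v
    have h3 := hf0 (Multiplicative.ofAdd v)
    exact congrArg PTX.c h3
  · intro v h
    exact congrArg PTX.x (hf1 (Multiplicative.ofAdd v) h)
  · intro v h
    have h3 := congrArg PTX.c (hf1 (Multiplicative.ofAdd v) h)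
    have h4 : (Multiplicative.ofAdd v • f h).c = (f h).c := rfl
    exact h3.trans h4
  · intro i g hg h hh
    have hg' : g ∉ (D.φ i).range := fun h => hg ((D.mem_range_iff i g).1 h)
    exact congrArg PTX.x (hf2 i g hg' h hh)
  · intro i g hg h hh
    have hg' : g ∉ (D.φ i).range := fun h => hg ((D.mem_range_iff i g).1 h)
    exact congrArg PTX.c (hf2 i g hg' h hh)

theorem PT.T_pos {D : Gl m} {A : AmalStr D.φ} (X : PT D A) (h : D.G) : 0 < X.T h := by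
  refine A.ind (p := fun h => 0 < X.T h) ?_ ?_ h
  · intro l
    have h1 : X.T (D.ba (Multiplicative.toAdd l)) = 1 := X.T_ba _
    have h2 : X.T (PushoutI.base D.φ l) = 1 := h1
    rw [h2]
    exact one_pos
  · intro i g hg h' hh' ih
    have hg' : ¬ (D.P i).Par g := fun hp => hg ((D.mem_range_iff i g).2 hp)
    have h1 := X.T_cons i g hg' h' hh'
    have h2 : X.T (PushoutI.of i g * h') = _ := h1
    rw [h2]
    exact mul_pos ih (mul_pos (lt_of_lt_of_le one_pos X.hκ) (HPt.pos _))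

theorem PT.T_le {D : Gl m} {A : AmalStr D.φ} (X : PT D A) (h : D.G) : X.T h ≤ 1 := by
  refine A.ind (p := fun h => X.T h ≤ 1) ?_ ?_ h
  · intro l
    have h1 : X.T (D.ba (Multiplicative.toAdd l)) = 1 := X.T_ba _
    exact h1.le
  · intro i g hg h' hh' ih
    have hg' : ¬ (D.P i).Par g := fun hp => hg ((D.mem_range_iff i g).2 hp)
    have h1 := X.T_cons i g hg' h' hh'
    have h2 : X.T (PushoutI.of i g * h') = _ := h1
    have hκ0 : 0 < X.κ := lt_of_lt_of_le one_pos X.hκ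
    have h3 := (D.P i).height_le hg' ⟨D.Ψ i (X.Φ h'), X.κ, hκ0⟩
    have h4 : X.κ * (g.1 ⟨D.Ψ i (X.Φ h'), X.κ, hκ0⟩).t ≤ 1 := by
      calc X.κ * (g.1 ⟨D.Ψ i (X.Φ h'), X.κ, hκ0⟩).t ≤ X.κ * (1 / (4 * X.κ)) :=
            mul_le_mul_of_nonneg_left h3 hκ0.le
        _ = 1 / 4 := by field_simp
        _ ≤ 1 := by norm_num
    have h5 := X.T_pos h'
    have h6 : 0 < X.κ * (g.1 ⟨D.Ψ i (X.Φ h'), X.κ, hκ0⟩).t := mul_pos hκ0 (HPt.pos _)
    rw [h2]
    exact mul_le_one₀ ih h6.le h4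

/-- `Φ` is bounded along each wall different from `Λ`. -/
theorem PT.proj {D : Gl m} {A : AmalStr D.φ} (X : PT D A) : ∃ C : ℝ, ∀ h, A.side h ≠ none →
    ∀ v, ‖X.Φ (h * D.ba v) - X.Φ h‖ ≤ C := by
  have hκ0 : 0 < X.κ := lt_of_lt_of_le one_pos X.hκ
  refine ⟨X.κ, fun h hh v => ?_⟩
  obtain ⟨i, hi⟩ := Option.ne_none_iff_exists'.1 hh
  obtain ⟨g, h', hg, hh', rfl⟩ := D.exists_cons A hi
  have hh2 : A.side (h' * D.ba v) ≠ some i := by
    rw [D.side_mul_ba A h' v]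
    exact hh'
  have hb := (D.P i).bs_le hg
  have hI := (D.P i).isInv hg
  have key : ∀ y : E m, ‖(g.1 ⟨y, X.κ, hκ0⟩).u - bp g.1‖ ≤ 1 / 8 := by
    intro y
    refine (hI.norm_u_sub ⟨y, X.κ, hκ0⟩).trans ?_
    change bs g.1 / (2 * X.κ) ≤ 1 / 8
    rw [div_le_div_iff₀ (by positivity) (by norm_num)]
    linarith [X.hκ]
  rw [mul_assoc, X.Φ_cons i g hg _ hh2, X.Φ_cons i g hg _ hh', ← map_sub]
  refine (X.le2 i _).trans ?_
  have h1 := key (D.Ψ i (X.Φ (h' * D.ba v)))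
  have h2 := key (D.Ψ i (X.Φ h'))
  have h3 : ‖(g.1 ⟨D.Ψ i (X.Φ (h' * D.ba v)), X.κ, hκ0⟩).u -
      (g.1 ⟨D.Ψ i (X.Φ h'), X.κ, hκ0⟩).u‖ ≤ 1 := by
    have e : (g.1 ⟨D.Ψ i (X.Φ (h' * D.ba v)), X.κ, hκ0⟩).u -
        (g.1 ⟨D.Ψ i (X.Φ h'), X.κ, hκ0⟩).u =
        ((g.1 ⟨D.Ψ i (X.Φ (h' * D.ba v)), X.κ, hκ0⟩).u - bp g.1) -
        ((g.1 ⟨D.Ψ i (X.Φ h'), X.κ, hκ0⟩).u - bp g.1) := by abel
    rw [e]
    refine (norm_sub_le _ _).trans ?_
    linarith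
  calc X.κ * ‖(g.1 ⟨D.Ψ i (X.Φ (h' * D.ba v)), X.κ, hκ0⟩).u -
      (g.1 ⟨D.Ψ i (X.Φ h'), X.κ, hκ0⟩).u‖ ≤ X.κ * 1 := mul_le_mul_of_nonneg_left h3 hκ0.le
    _ = X.κ := mul_one _

end QIG
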