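import Pool.Agent.W_a51130_h62.Short
import Pool.Agent.W_a51130_h62.Fin

/-!
MP_a51130_gt: comparison of the notions of the final statement with those used in the proofs.
-/

namespace QIG

open Monoid

/-! ### Invariance of `QuasiIsom` and `FG` under isomorphisms -/

theorem wordLen_map {G H : Type} [Group G] [Group H] (e : G ≃* H) (S : Set G) (g : G) :
    wordLen (e '' S) (e g) = wordLen S g := by
  unfold wordLen
  congr 1
  ext n
  constructor
  · rintro ⟨l, hl, hs, hp⟩
    refine ⟨l.map e.symm, by simpa using hl, ?_, ?_⟩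
    · intro s hs'
      obtain ⟨t, ht, rfl⟩ := List.mem_map.1 hs'
      rcases hs t ht with ⟨x, hx, rfl⟩ | ⟨x, hx, hxt⟩
      · left
        simpa using hx
      · right
        have : (e.symm t)⁻¹ = x := by
          rw [← map_inv, ← hxt]
          simp
        rw [this]
        exact hx
    · rw [← map_list_prod, hp]
      simp
  · rintro ⟨l, hl, hs, hp⟩
    refine ⟨l.map e, by simpa using hl, ?_, ?_⟩
    · intro s hs'
      obtain ⟨t, ht, rfl⟩ := List.mem_map.1 hs'
      rcases hs t ht with h | h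
      · left
        exact ⟨t, h, rfl⟩
      · right
        exact ⟨t⁻¹, h, by rw [map_inv]⟩
    · rw [← map_list_prod, hp]

theorem closure_map_top {G H : Type} [Group G] [Group H] (e : G ≃* H) {S : Set G}
    (h : Subgroup.closure S = ⊤) : Subgroup.closure (e '' S) = ⊤ := by
  have h1 := MonoidHom.map_closure e.toMonoidHom S
  rw [h] at h1
  have h2 : (Subgroup.map e.toMonoidHom ⊤ : Subgroup H) = ⊤ := by
    rw [← MonoidHom.range_eq_map]
    exact MonoidHom.range_eq_top.2 e.surjective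
  rw [h2] at h1
  exact h1.symm

theorem quasiIsom_congr {G H G' H' : Type} [Group G] [Group H] [Group G'] [Group H']
    (e : G ≃* H) (e' : G' ≃* H') (h : QuasiIsom G G') : QuasiIsom H H' := by
  obtain ⟨S, S', hS, hc, hS', hc', f, K, h1, h2, h3⟩ := h
  refine ⟨e '' S, e' '' S', hS.image _, closure_map_top e hc, hS'.image _, closure_map_top e' hc',
    fun x => e' (f (e.symm x)), K, ?_, ?_, ?_⟩
  · intro x y
    have h4 := h1 (e.symm x) (e.symm y)
    have h5 : wordLen (e '' S) (x⁻¹ * y) = wordLen S ((e.symm x)⁻¹ * e.symm y) := by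
      rw [← wordLen_map e S, map_mul, map_inv]
      simp
    have h6 : wordLen (e' '' S') ((e' (f (e.symm x)))⁻¹ * e' (f (e.symm y))) =
        wordLen S' ((f (e.symm x))⁻¹ * f (e.symm y)) := by
      rw [← wordLen_map e' S', map_mul, map_inv]
    rw [h5, h6]
    exact h4
  · intro x y
    have h4 := h2 (e.symm x) (e.symm y)
    have h5 : wordLen (e '' S) (x⁻¹ * y) = wordLen S ((e.symm x)⁻¹ * e.symm y) := by
      rw [← wordLen_map e S, map_mul, map_inv]
      simp
    have h6 : wordLen (e' '' S') ((e' (f (e.symm x)))⁻¹ * e' (f (e.symm y))) =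
        wordLen S' ((f (e.symm x))⁻¹ * f (e.symm y)) := by
      rw [← wordLen_map e' S', map_mul, map_inv]
    rw [h5, h6]
    exact h4
  · intro z
    obtain ⟨x, hx⟩ := h3 (e'.symm z)
    refine ⟨e x, ?_⟩
    have h6 : wordLen (e' '' S') (z⁻¹ * e' (f (e.symm (e x)))) =
        wordLen S' ((e'.symm z)⁻¹ * f x) := by
      rw [← wordLen_map e' S', map_mul, map_inv]
      simp
    rw [h6]
    exact hx

/-! ### Isomorphic amalgams -/

section push

variable {G G' : Fin 2 → Type} [∀ i, Group (G i)] [∀ i, Group (G' i)] {H H' : Type} [Group H]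
  [Group H'] {φ : ∀ i, H →* G i} {φ' : ∀ i, H' →* G' i}

noncomputable def pushHom (f : ∀ i, G i ≃* G' i) (e : H ≃* H')
    (h : ∀ i x, φ' i (e x) = f i (φ i x)) : PushoutI φ →* PushoutI φ' :=
  PushoutI.lift (fun i => (PushoutI.of i).comp (f i).toMonoidHom)
    ((PushoutI.base φ').comp e.toMonoidHom) (by
      intro i
      ext x
      change PushoutI.of i (f i (φ i x)) = PushoutI.base φ' (e x)
      rw [← h, PushoutI.of_apply_eq_base])

theorem pushHom_of (f : ∀ i, G i ≃* G' i) (e : H ≃* H')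
    (h : ∀ i x, φ' i (e x) = f i (φ i x)) (i : Fin 2) (g : G i) :
    pushHom f e h (PushoutI.of i g) = PushoutI.of i (f i g) := by
  unfold pushHom
  rw [PushoutI.lift_of]
  rfl

noncomputable def pushEquiv (f : ∀ i, G i ≃* G' i) (e : H ≃* H')
    (h : ∀ i x, φ' i (e x) = f i (φ i x)) : PushoutI φ ≃* PushoutI φ' :=
  MonoidHom.toMulEquiv (pushHom f e h)
    (pushHom (fun i => (f i).symm) e.symm (by
      intro i x
      rw [MulEquiv.eq_symm_apply, ← h, MulEquiv.apply_symm_apply]))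
    (by
      apply PushoutI.hom_ext_nonempty
      intro i
      ext g
      simp only [MonoidHom.comp_apply, MonoidHom.id_apply, pushHom_of, MulEquiv.symm_apply_apply])
    (by
      apply PushoutI.hom_ext_nonempty
      intro i
      ext g
      simp only [MonoidHom.comp_apply, MonoidHom.id_apply, pushHom_of, MulEquiv.apply_symm_apply])

end push

/-! ### Cusp groups and lattices -/

variable {m : ℕ}

theorem Piece.isTr_unique (P : Piece m) {g : P.Grp} {v w : E m} (h1 : P.IsTr g v)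
    (h2 : P.IsTr g w) : v = w := transl_injective (h1.symm.trans h2)

/-- The identity. -/
def Piece.grpEquiv (P : Piece m) : P.Grp ≃* P.Γ where
  toFun g := g
  invFun g := g
  left_inv _ := rfl
  right_inv _ := rfl
  map_mul' _ _ := rfl

theorem Piece.exists_tv (P : Piece m) (g : P.Cusp) : ∃ v : P.lat, P.IsTr (P.incl g) v := by
  obtain ⟨v, hv⟩ : ∃ v, P.IsTr (P.incl g) v := g.2
  refine ⟨⟨v, ?_⟩, hv⟩
  change transl v ∈ P.Γ
  have : transl v = (P.incl g).1 := hv.symm
  rw [this]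
  exact (P.incl g).2

/-- The translation vector. -/
noncomputable def Piece.tvec (P : Piece m) (g : P.Cusp) : P.lat := (P.exists_tv g).choose

theorem Piece.tvec_spec (P : Piece m) (g : P.Cusp) : P.IsTr (P.incl g) (P.tvec g) :=
  (P.exists_tv g).choose_spec

/-- The translation as an element of the cusp group. -/
def Piece.ofVec (P : Piece m) (v : P.lat) : P.Cusp := ⟨⟨transl (v : E m), v.2⟩, ⟨v, rfl⟩⟩

theorem Piece.ofVec_spec (P : Piece m) (v : P.lat) : P.IsTr (P.incl (P.ofVec v)) (v : E m) := rfl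

noncomputable def Piece.cuspEquiv (P : Piece m) : P.Cusp ≃* Multiplicative P.lat where
  toFun g := Multiplicative.ofAdd (P.tvec g)
  invFun v := P.ofVec (Multiplicative.toAdd v)
  left_inv g := by
    apply Subtype.ext
    apply Subtype.ext
    exact (P.tvec_spec g).symm
  right_inv v := by
    change Multiplicative.ofAdd (P.tvec (P.ofVec (Multiplicative.toAdd v))) = v
    have h : P.tvec (P.ofVec (Multiplicative.toAdd v)) = Multiplicative.toAdd v :=
      Subtype.ext (P.isTr_unique (P.tvec_spec _) (P.ofVec_spec _))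
    rw [h]
    rfl
  map_mul' g h := by
    have h1 : P.tvec (g * h) = P.tvec g + P.tvec h := by
      apply Subtype.ext
      apply P.isTr_unique (P.tvec_spec (g * h))
      change (P.incl g).1 * (P.incl h).1 = transl ((P.tvec g : E m) + (P.tvec h : E m))
      rw [transl_add, ← show (P.incl g).1 = transl (P.tvec g : E m) from P.tvec_spec g,
        ← show (P.incl h).1 = transl (P.tvec h : E m) from P.tvec_spec h]
    rw [h1]
    rfl

/-- The isomorphism of lattices belonging to an isomorphism of cusp groups. -/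
noncomputable def latIso {P Q : Piece m} (ψ : P.Cusp ≃* Q.Cusp) : P.lat ≃+ Q.lat :=
  AddEquiv.toMultiplicative.symm (P.cuspEquiv.symm.trans (ψ.trans Q.cuspEquiv))

theorem latIso_tvec {P Q : Piece m} (ψ : P.Cusp ≃* Q.Cusp) (g : P.Cusp) :
    latIso ψ (P.tvec g) = Q.tvec (ψ g) := by
  change Multiplicative.toAdd (Q.cuspEquiv (ψ (P.cuspEquiv.symm (P.cuspEquiv g)))) = _
  rw [MulEquiv.symm_apply_apply]
  rfl

/-- The isomorphism of cusp groups belonging to an isomorphism of lattices. -/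
noncomputable def cuspIso {P Q : Piece m} (ψ : P.lat ≃+ Q.lat) : P.Cusp ≃* Q.Cusp :=
  P.cuspEquiv.trans ((AddEquiv.toMultiplicative ψ).trans Q.cuspEquiv.symm)

theorem latIso_cuspIso {P Q : Piece m} (ψ : P.lat ≃+ Q.lat) : latIso (cuspIso ψ) = ψ := by
  apply AddEquiv.ext
  intro v
  change Multiplicative.toAdd (Q.cuspEquiv (Q.cuspEquiv.symm (AddEquiv.toMultiplicative ψ
    (P.cuspEquiv (P.cuspEquiv.symm (Multiplicative.ofAdd v)))))) = ψ v
  rw [MulEquiv.apply_symm_apply, MulEquiv.apply_symm_apply]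
  rfl

theorem glueMap_cusp (P : Fin 2 → Piece m) (ψ : (P 0).Cusp ≃* (P 1).Cusp) (i : Fin 2)
    (g : (P 0).Cusp) :
    glueMap P (latIso ψ) i ((P 0).cuspEquiv g) = (P i).grpEquiv (gluing P ψ i g) := by
  match i with
  | 0 =>
    apply Subtype.ext
    exact ((P 0).tvec_spec g).symm
  | 1 =>
    apply Subtype.ext
    change transl ((latIso ψ ((P 0).tvec g) : (P 1).lat) : E m) = ((P 1).incl (ψ g)).1
    rw [latIso_tvec]
    exact ((P 1).tvec_spec (ψ g)).symm

noncomputable def amalgamEquiv (P : Fin 2 → Piece m) (ψ : (P 0).Cusp ≃* (P 1).Cusp) :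
    Amalgam P ψ ≃* Glue P (latIso ψ) :=
  pushEquiv (φ := gluing P ψ) (φ' := glueMap P (latIso ψ)) (fun i => (P i).grpEquiv)
    (P 0).cuspEquiv (fun i x => glueMap_cusp P ψ i x)

theorem quasiIsom_amalgam (P P' : Fin 2 → Piece m) (ψ : (P 0).Cusp ≃* (P 1).Cusp)
    (ψ' : (P' 0).Cusp ≃* (P' 1).Cusp) (h : QuasiIsom (Amalgam P ψ) (Amalgam P' ψ')) :
    QuasiIsom (Glue P (latIso ψ)) (Glue P' (latIso ψ')) :=
  quasiIsom_congr (amalgamEquiv P ψ) (amalgamEquiv P' ψ') h

/-! ### The results -/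

theorem extends_of {P Q : Piece m} {ψ : P.Cusp ≃* Q.Cusp} {Ψ : Lin m} (h : ExtendsTo ψ Ψ) :
    Extends (latIso ψ) (Ψ : E m ≃ₗ[ℝ] E m) := by
  intro v
  have h1 := h (P.ofVec v) v (P.ofVec_spec v)
  have h2 : P.tvec (P.ofVec v) = v :=
    Subtype.ext (P.isTr_unique (P.tvec_spec _) (P.ofVec_spec _))
  have h3 := Q.isTr_unique h1 (Q.tvec_spec _)
  rw [← latIso_tvec, h2] at h3
  exact h3

theorem of_extends {P Q : Piece m} {ψ : P.Cusp ≃* Q.Cusp} {Ψ : Lin m}
    (h : Extends (latIso ψ) (Ψ : E m ≃ₗ[ℝ] E m)) : ExtendsTo ψ Ψ := by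
  intro g v hv
  have h1 : v = P.tvec g := P.isTr_unique hv (P.tvec_spec g)
  have h2 : Ψ.ev v = (Q.tvec (ψ g) : E m) := by
    rw [h1, ← latIso_tvec]
    exact h (P.tvec g)
  rw [h2]
  exact Q.tvec_spec _

theorem fg_amalgam (P : Fin 2 → Piece m) (ψ : (P 0).Cusp ≃* (P 1).Cusp) :
    Group.FG (Amalgam P ψ) := by
  haveI := glue_fg P (latIso ψ)
  exact Group.fg_of_surjective (f := (amalgamEquiv P ψ).symm.toMonoidHom)
    (amalgamEquiv P ψ).symm.surjective

theorem exists_extendsTo (P Q : Piece m) (ψ : P.Cusp ≃* Q.Cusp) : ∃ Ψ, ExtendsTo ψ Ψ := by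
  obtain ⟨Ψ, h⟩ := exists_ext P Q (latIso ψ)
  exact ⟨Ψ, of_extends h⟩

theorem injective_of_simil {A : E m →ₗ[ℝ] E m} (h : IsSimil A) : Function.Injective A := by
  obtain ⟨σ, hσ, h⟩ := h
  intro x y hxy
  have := h (x - y)
  rw [map_sub, hxy, sub_self, norm_zero] at this
  rcases mul_eq_zero.1 this.symm with h3 | h3
  · exact absurd h3 hσ.ne'
  · exact sub_eq_zero.1 (norm_eq_zero.1 h3)

theorem rigid_amalgam (hm : 2 ≤ m) (P P' : Fin 2 → Piece m) (ψ : (P 0).Cusp ≃* (P 1).Cusp)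
    (ψ' : (P' 0).Cusp ≃* (P' 1).Cusp) (Ψ Ψ' : Lin m) (h1 : ExtendsTo ψ Ψ)
    (h2 : ExtendsTo ψ' Ψ') (h : QuasiIsom (Amalgam P ψ) (Amalgam P' ψ')) : SimilarTo Ψ Ψ' := by
  obtain ⟨A₀, A₁, hA₀, hA₁, hh⟩ := simRel hm P P' (latIso ψ) (latIso ψ') Ψ Ψ' (extends_of h1)
    (extends_of h2) (quasiIsom_amalgam P P' ψ ψ' h)
  refine ⟨LinearEquiv.ofInjectiveEndo A₀ (injective_of_simil hA₀),
    LinearEquiv.ofInjectiveEndo A₁ (injective_of_simil hA₁), ?_, ?_, ?_⟩
  · obtain ⟨σ, hσ, h⟩ := hA₀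
    exact ⟨σ, hσ, h⟩
  · obtain ⟨σ, hσ, h⟩ := hA₁
    exact ⟨σ, hσ, h⟩
  · rcases hh with hh | hh
    · left
      exact hh
    · right
      exact hh

theorem many_amalgams (hm : 2 ≤ m) (P : Fin 2 → Piece m) :
    ∃ ψ : ℕ → ((P 0).Cusp ≃* (P 1).Cusp), ∀ i j, i ≠ j →
      ¬ QuasiIsom (Amalgam P (ψ i)) (Amalgam P (ψ j)) := by
  obtain ⟨ψ, h⟩ := many_gluings hm P
  refine ⟨fun n => cuspIso (ψ n), fun i j hij hq => h i j hij ?_⟩
  have h1 := quasiIsom_amalgam P P _ _ hq
  rw [latIso_cuspIso, latIso_cuspIso] at h1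
  exact h1

theorem two_amalgams : ∃ (P : Piece 2) (ψ : P.Cusp ≃* P.Cusp), Sister P ∧ Shear P ψ ∧
    ¬ QuasiIsom (Amalgam (fun _ => P) (MulEquiv.refl P.Cusp)) (Amalgam (fun _ => P) ψ) := by
  obtain ⟨P, ψ, h1, h2, h3⟩ := two_gluings
  refine ⟨P, cuspIso ψ, h1, ?_, ?_⟩
  · intro g v p q hv hpq
    refine ⟨ψ (P.tvec g), ?_, ?_⟩
    · have h4 := P.tvec_spec (cuspIso ψ g)
      rw [← latIso_tvec, latIso_cuspIso] at h4
      exact h4
    · apply h2
      rw [← P.isTr_unique hv (P.tvec_spec g)]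
      exact hpq
  · intro hq
    apply h3
    have h4 := quasiIsom_amalgam (fun _ => P) (fun _ => P) _ _ hq
    rw [latIso_cuspIso] at h4
    have h5 : latIso (MulEquiv.refl P.Cusp) = AddEquiv.refl P.lat := by
      apply AddEquiv.ext
      intro v
      change Multiplicative.toAdd (P.cuspEquiv (P.cuspEquiv.symm (Multiplicative.ofAdd v))) = v
      rw [MulEquiv.apply_symm_apply]
      rfl
    rw [h5] at h4
    exact h4

end QIG
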