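import Pool.Agent.W_a51130_h62.GlDefs
import Pool.Agent.W_a51130_h62.LQDefs

/-! MP_a51130_gt: quasi-flats in a gluing, definitions. -/

namespace QIG

variable {m : ℕ}

/-- `F` is a `K`-quasi-flat of dimension `m`. -/
structure QFlat (D : Gl m) (S : Set D.G) (F : E m → D.G) (K : ℝ) : Prop where
  up : ∀ x y, (wd S (F x) (F y) : ℝ) ≤ K * (‖x - y‖ + 1)
  low : ∀ x y, ‖x - y‖ ≤ K * (1 + (wd S (F x) (F y) : ℝ))

end QIG
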