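import Pool.Agent.W_a51130_h62.QFDefs
import Pool.Agent.W_a51130_h62.GlBasic

/-!
The projection is Lipschitz, and the distance and the projection to a wall satisfy the hypotheses of
Lemma Q along a quasi-flat.

PROOFS.  `lip`: shortest path (`exists_path`), each step `≤ C` by `step`.
`qf_QH`: `r x = dW (g⁻¹ F x)`, `φ x = Φ (g⁻¹ F x)`.  `nonneg` clear; `lip`: `Gl.dW_lip`, `wd_mul_left`.
`phi`: `‖x-y‖ ≤ 1`: shortest path of length `n ≤ 2K` from `g⁻¹Fx` to `g⁻¹Fy`, at each of its points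
`dW ≥ r x - 2K`; each step is at most `C/(1+dW)² ≤ C (1+2K)²/(1+r x)²` (because `1 + dW ≥ (1 + r x)/(1+2K)`, as
`dW ≥ 0` and `dW ≥ r x - 2K`), in total `≤ 2K C (1+2K)²/(1+r x)²`.
`far`: `‖x-y‖ ≤ K(1+wd) ≤ K(1 + C(1+r x+r y+‖φ x-φ y‖))`.
-/

namespace QIG

variable {m : ℕ} {D : Gl m} {A : AmalStr D.φ} {S : Set D.G}

/-- Summing the steps along a shortest path. -/
theorem qfa_path (hS : GSet S) (W : WallFn D A S) (h h' : D.G) (B : ℝ)
    (hB : ∀ g : D.G, wd S h g ≤ wd S h h' → ∀ s ∈ S, ‖W.Φ g - W.Φ (g * s)‖ ≤ B) :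
    ‖W.Φ h - W.Φ h'‖ ≤ B * wd S h h' := by
  obtain ⟨p, h0, h1, hp, hd⟩ := exists_path hS h h'
  have key : ∀ i : ℕ, i ≤ wd S h h' → ‖W.Φ h - W.Φ (p i)‖ ≤ B * i := by
    intro i
    induction i with
    | zero =>
      intro _
      rw [h0, sub_self, norm_zero]
      simp
    | succ i ih =>
      intro hi
      have hi' : i ≤ wd S h h' := by omega
      have h2 := ih hi'
      have h3 : ‖W.Φ (p i) - W.Φ (p i * ((p i)⁻¹ * p (i + 1)))‖ ≤ B := by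
        refine hB (p i) ?_ _ (hp i)
        rw [(hd i hi').1]
        exact hi'
      rw [mul_inv_cancel_left] at h3
      have h4 : ‖W.Φ h - W.Φ (p (i + 1))‖ ≤
          ‖W.Φ h - W.Φ (p i)‖ + ‖W.Φ (p i) - W.Φ (p (i + 1))‖ := by
        have h5 : W.Φ h - W.Φ (p (i + 1)) =
            (W.Φ h - W.Φ (p i)) + (W.Φ (p i) - W.Φ (p (i + 1))) := by abel
        rw [h5]
        exact norm_add_le _ _
      push_cast
      linarith
  have h2 := key _ le_rfl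
  rwa [h1] at h2

theorem WallFn.lip (hS : GSet S) (W : WallFn D A S) (h h' : D.G) :
    ‖W.Φ h - W.Φ h'‖ ≤ W.C * wd S h h' := by
  refine qfa_path hS W h h' W.C fun g _ s hs => ?_
  refine (W.step g s hs).trans ?_
  have hC := W.hC
  have h1 : (1 : ℝ) ≤ (1 + (D.dW S g : ℝ)) ^ 2 := by
    have h2 : (0 : ℝ) ≤ (D.dW S g : ℝ) := Nat.cast_nonneg _
    nlinarith
  exact div_le_self (by linarith) h1

theorem qf_QH (hS : GSet S) (W : WallFn D A S) {K : ℝ} (hK : 1 ≤ K) : ∃ K' : ℝ, 1 ≤ K' ∧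
    ∀ F : E m → D.G, QFlat D S F K → ∀ g : D.G,
      QH (fun x => (D.dW S (g⁻¹ * F x) : ℝ)) (fun x => W.Φ (g⁻¹ * F x)) K' := by
  have hC := W.hC
  have hKC : 1 ≤ K * W.C := by nlinarith
  have hsq : 1 ≤ (1 + 2 * K) ^ 2 := by nlinarith
  have hK2 : 2 * (K * W.C) ≤ 2 * (K * W.C) * (1 + 2 * K) ^ 2 := by
    nlinarith
  have hK1 : K ≤ 2 * (K * W.C) * (1 + 2 * K) ^ 2 := by
    have h1 : K ≤ K * W.C := by nlinarith
    linarith
  refine ⟨2 * (K * W.C) * (1 + 2 * K) ^ 2, by linarith, ?_⟩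
  intro F hF g
  refine ⟨fun x => Nat.cast_nonneg _, ?_, ?_, ?_⟩
  · intro x y
    have h1 := D.dW_lip hS (g⁻¹ * F x) (g⁻¹ * F y)
    have h2 := D.dW_lip hS (g⁻¹ * F y) (g⁻¹ * F x)
    rw [wd_mul_left] at h1 h2
    rw [wd_comm hS] at h2
    have h3 : (D.dW S (g⁻¹ * F x) : ℝ) ≤ D.dW S (g⁻¹ * F y) + wd S (F x) (F y) := by
      exact_mod_cast h1
    have h4 : (D.dW S (g⁻¹ * F y) : ℝ) ≤ D.dW S (g⁻¹ * F x) + wd S (F x) (F y) := by
      exact_mod_cast h2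
    have h5 := hF.up x y
    have h6 : K * (‖x - y‖ + 1) ≤ 2 * (K * W.C) * (1 + 2 * K) ^ 2 * (‖x - y‖ + 1) := by
      refine mul_le_mul_of_nonneg_right hK1 ?_
      have := norm_nonneg (x - y)
      linarith
    refine le_trans ?_ (h5.trans h6)
    rw [abs_le]
    constructor <;> linarith
  · intro x y hxy
    have h5 : (wd S (F x) (F y) : ℝ) ≤ 2 * K := by
      refine (hF.up x y).trans ?_
      nlinarith
    have hr : (0 : ℝ) ≤ (D.dW S (g⁻¹ * F x) : ℝ) := Nat.cast_nonneg _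
    have hB : ∀ h : D.G, wd S (g⁻¹ * F x) h ≤ wd S (g⁻¹ * F x) (g⁻¹ * F y) → ∀ s ∈ S,
        ‖W.Φ h - W.Φ (h * s)‖ ≤ W.C * (1 + 2 * K) ^ 2 / (1 + (D.dW S (g⁻¹ * F x) : ℝ)) ^ 2 := by
      intro h hh s hs
      refine (W.step h s hs).trans ?_
      rw [wd_mul_left] at hh
      have h6 := D.dW_lip hS (g⁻¹ * F x) h
      have h7 : (D.dW S (g⁻¹ * F x) : ℝ) ≤ D.dW S h + 2 * K := by
        have h8 : (D.dW S (g⁻¹ * F x) : ℝ) ≤ D.dW S h + wd S (F x) (F y) := by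
          exact_mod_cast h6.trans (Nat.add_le_add_left hh _)
        linarith
      have h8 : (0 : ℝ) ≤ (D.dW S h : ℝ) := Nat.cast_nonneg _
      rw [div_le_div_iff₀ (by positivity) (by positivity)]
      have h9 : 1 + (D.dW S (g⁻¹ * F x) : ℝ) ≤ (1 + 2 * K) * (1 + D.dW S h) := by
        nlinarith
      have h10 : (1 + (D.dW S (g⁻¹ * F x) : ℝ)) ^ 2 ≤ ((1 + 2 * K) * (1 + D.dW S h)) ^ 2 :=
        pow_le_pow_left₀ (by linarith) h9 2
      calc W.C * (1 + (D.dW S (g⁻¹ * F x) : ℝ)) ^ 2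
          ≤ W.C * ((1 + 2 * K) * (1 + D.dW S h)) ^ 2 :=
            mul_le_mul_of_nonneg_left h10 (by linarith)
        _ = W.C * (1 + 2 * K) ^ 2 * (1 + D.dW S h) ^ 2 := by ring
    have h6 := qfa_path hS W (g⁻¹ * F x) (g⁻¹ * F y) _ hB
    rw [wd_mul_left] at h6
    refine h6.trans ?_
    have h7 : 0 ≤ W.C * (1 + 2 * K) ^ 2 / (1 + (D.dW S (g⁻¹ * F x) : ℝ)) ^ 2 := by
      have : 0 ≤ W.C := by linarith
      positivity
    calc W.C * (1 + 2 * K) ^ 2 / (1 + (D.dW S (g⁻¹ * F x) : ℝ)) ^ 2 * (wd S (F x) (F y) : ℝ)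
        ≤ W.C * (1 + 2 * K) ^ 2 / (1 + (D.dW S (g⁻¹ * F x) : ℝ)) ^ 2 * (2 * K) :=
          mul_le_mul_of_nonneg_left h5 h7
      _ = 2 * (K * W.C) * (1 + 2 * K) ^ 2 / (1 + (D.dW S (g⁻¹ * F x) : ℝ)) ^ 2 := by ring
  · intro x y
    have h1 := hF.low x y
    have h2 := W.far (g⁻¹ * F x) (g⁻¹ * F y)
    rw [wd_mul_left] at h2
    have hr : (0 : ℝ) ≤ (D.dW S (g⁻¹ * F x) : ℝ) := Nat.cast_nonneg _
    have hr' : (0 : ℝ) ≤ (D.dW S (g⁻¹ * F y) : ℝ) := Nat.cast_nonneg _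
    have hn := norm_nonneg (W.Φ (g⁻¹ * F x) - W.Φ (g⁻¹ * F y))
    have h3 : 1 ≤ 1 + (D.dW S (g⁻¹ * F x) : ℝ) + D.dW S (g⁻¹ * F y) +
        ‖W.Φ (g⁻¹ * F x) - W.Φ (g⁻¹ * F y)‖ := by linarith
    generalize 1 + (D.dW S (g⁻¹ * F x) : ℝ) + D.dW S (g⁻¹ * F y) +
        ‖W.Φ (g⁻¹ * F x) - W.Φ (g⁻¹ * F y)‖ = M at h2 h3 ⊢
    have h4 : 1 ≤ W.C * M := by nlinarith
    calc ‖x - y‖ ≤ K * (1 + (wd S (F x) (F y) : ℝ)) := h1
      _ ≤ K * (W.C * M + W.C * M) := by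
          refine mul_le_mul_of_nonneg_left ?_ (by linarith)
          linarith
      _ = 2 * (K * W.C) * M := by ring
      _ ≤ 2 * (K * W.C) * (1 + 2 * K) ^ 2 * M :=
          mul_le_mul_of_nonneg_right hK2 (by linarith)

end QIG
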