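import Pool.Agent.W_a51130_h62.QFa
import Pool.Agent.W_a51130_h62.LQSum

/-!
Walls seen as bounded sets from a quasi-flat: essential side and bounded projection.

PROOF.  Hypothesis: `‖x - b‖ ≤ R(1 + r x)` for all `x`, `r x = dW (g⁻¹Fx)`.
Side: let `ρ₀` be such that `‖x-b‖ ≥ ρ₀` implies `r x > 2K` (`ρ₀ = R(1+2K)+1`), and `ρ = 4ρ₀`.  If
`‖x-b‖ ≥ ρ₀`, `‖y-b‖ ≥ ρ₀`, `‖x-y‖ ≤ 1` then the sides of `g⁻¹Fx` and `g⁻¹Fy` agree: both are not `none`
(`r > 0`), and if they were different `Gl.cross` would give `r x ≤ wd ≤ 2K`.  For `x, y` with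
`‖x-b‖, ‖y-b‖ ≥ ρ` use `detour` (radius `ρ`, segments at distance `≥ ρ/4 = ρ₀` from `b`) and subdivide both segments
in steps of length `≤ 1`.  So the side is constant outside the ball of radius `ρ`.
Projection: by `qf_QH`, `‖φ x - φ y‖ ≤ K'/(1+r x)²` for `‖x-y‖ ≤ 1`.  Along the segment from `b` to `x` (`n = ⌈‖x-b‖⌉`
steps, `x_j = b + (j/n)(x-b)`, `‖x_j-b‖ ≥ j/2`), `1 + r x_j ≥ (1+j)/(4R)`; so
`‖φ x - φ b‖ ≤ ∑_j 16K'R²/(j+1)² ≤ 32K'R²`.  (`R` may be assumed `≥ 1`.)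
-/

namespace QIG

variable {m : ℕ} {D : Gl m} {A : AmalStr D.φ} {S : Set D.G}

/-- A property that propagates along steps of length at most `1` outside the ball of radius `ρ₀`
propagates along segments outside this ball. -/
theorem qfb_seg {b : E m} {ρ₀ : ℝ} {σ : E m → Prop}
    (hσ : ∀ p q : E m, ρ₀ ≤ ‖p - b‖ → ρ₀ ≤ ‖q - b‖ → ‖p - q‖ ≤ 1 → σ p → σ q) (x z : E m)
    (h : ∀ s : ℝ, 0 ≤ s → s ≤ 1 → ρ₀ ≤ ‖x + s • (z - x) - b‖) (hx : σ x) : σ z := by
  set n : ℕ := ⌈‖z - x‖⌉₊ + 1 with hn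
  have hn0 : (0 : ℝ) < n := by positivity
  have hnle : ‖z - x‖ ≤ n := by
    rw [hn]
    push_cast
    linarith [Nat.le_ceil ‖z - x‖]
  have hs : ∀ k : ℕ, k ≤ n → 0 ≤ (k : ℝ) / n ∧ (k : ℝ) / n ≤ 1 := by
    intro k hk
    refine ⟨by positivity, ?_⟩
    rw [div_le_one hn0]
    exact_mod_cast hk
  have key : ∀ k : ℕ, k ≤ n → σ (x + ((k : ℝ) / n) • (z - x)) := by
    intro k
    induction k with
    | zero =>
      intro _
      simpa using hx
    | succ k ih =>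
      intro hk
      have hk' : k ≤ n := by omega
      refine hσ _ _ (h _ (hs k hk').1 (hs k hk').2) (h _ (hs (k + 1) hk).1 (hs (k + 1) hk).2) ?_
        (ih hk')
      have e : x + ((k : ℝ) / n) • (z - x) - (x + (((k + 1 : ℕ) : ℝ) / n) • (z - x)) =
          (-(1 / (n : ℝ))) • (z - x) := by
        rw [add_sub_add_left_eq_sub, ← sub_smul]
        congr 1
        push_cast
        ring
      rw [e, norm_smul, norm_neg, Real.norm_eq_abs, abs_of_nonneg (by positivity),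
        div_mul_eq_mul_div, one_mul, div_le_one hn0]
      exact hnle
  have h1 := key n le_rfl
  rw [div_self hn0.ne', one_smul, add_sub_cancel] at h1
  exact h1

theorem qfb_sum (n : ℕ) : ∑ j ∈ Finset.range n, 1 / ((j : ℝ) + 1) ^ 2 ≤ 2 := by
  have key : ∀ n : ℕ, ∑ j ∈ Finset.range (n + 1), 1 / ((j : ℝ) + 1) ^ 2 ≤ 2 - 1 / ((n : ℝ) + 1) := by
    intro n
    induction n with
    | zero => norm_num
    | succ n ih =>
      rw [Finset.sum_range_succ]
      push_cast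
      have h1 : 1 / ((n : ℝ) + 1 + 1) ^ 2 ≤ 1 / ((n : ℝ) + 1) - 1 / ((n : ℝ) + 1 + 1) := by
        have hn : (0 : ℝ) ≤ n := Nat.cast_nonneg n
        have e : 1 / ((n : ℝ) + 1) - 1 / ((n : ℝ) + 1 + 1) =
            1 / (((n : ℝ) + 1) * ((n : ℝ) + 1 + 1)) := by
          field_simp
          ring
        rw [e]
        apply one_div_le_one_div_of_le (by positivity)
        nlinarith
      linarith
  rcases n with _ | n
  · simp
  · refine (key n).trans ?_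
    have : (0 : ℝ) ≤ 1 / ((n : ℝ) + 1) := by positivity
    linarith

/-- Total displacement along a segment from `b`. -/
theorem qfb_proj {r : E m → ℝ} {φ : E m → E m} {K' : ℝ} (hK' : 1 ≤ K') (hQ : QH r φ K') {R' : ℝ}
    (hR' : 1 ≤ R') (b : E m) (hb : ∀ x, ‖x - b‖ ≤ R' * (1 + r x)) (x : E m) :
    ‖φ x - φ b‖ ≤ 32 * K' * R' ^ 2 := by
  set n : ℕ := ⌈‖x - b‖⌉₊ with hn
  rcases Nat.eq_zero_or_pos n with h0 | hpos
  · have h1 : ‖x - b‖ ≤ 0 := Nat.ceil_eq_zero.1 (hn ▸ h0)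
    have h2 : x = b := by
      rw [← sub_eq_zero, ← norm_eq_zero]
      exact le_antisymm h1 (norm_nonneg _)
    rw [h2, sub_self, norm_zero]
    positivity
  have hn0 : (0 : ℝ) < n := by exact_mod_cast hpos
  have hnle : ‖x - b‖ ≤ n := Nat.le_ceil _
  set p : ℕ → E m := fun j => b + ((j : ℝ) / n) • (x - b) with hp
  have hstep : ∀ j, ‖p j - p (j + 1)‖ ≤ 1 := by
    intro j
    have e : p j - p (j + 1) = (-(1 / (n : ℝ))) • (x - b) := by
      simp only [hp]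
      rw [add_sub_add_left_eq_sub, ← sub_smul]
      congr 1
      push_cast
      ring
    rw [e, norm_smul, norm_neg, Real.norm_eq_abs, abs_of_nonneg (by positivity),
      div_mul_eq_mul_div, one_mul, div_le_one hn0]
    exact hnle
  have hdist : ∀ j < n, (j : ℝ) / 2 ≤ ‖p j - b‖ := by
    intro j hj
    have e : p j - b = ((j : ℝ) / n) • (x - b) := by
      simp only [hp]
      abel
    rw [e, norm_smul, Real.norm_eq_abs, abs_of_nonneg (by positivity)]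
    rcases Nat.eq_zero_or_pos j with hj0 | hj0
    · subst hj0
      simp
    · have h2 : (n : ℝ) < ‖x - b‖ + 1 := Nat.ceil_lt_add_one (norm_nonneg _)
      have h3 : (2 : ℝ) ≤ n := by
        have : 2 ≤ n := by omega
        exact_mod_cast this
      have h4 : (n : ℝ) / 2 ≤ ‖x - b‖ := by linarith
      calc (j : ℝ) / 2 = (j : ℝ) / n * (n / 2) := by field_simp
        _ ≤ (j : ℝ) / n * ‖x - b‖ := mul_le_mul_of_nonneg_left h4 (by positivity)
  have hterm : ∀ j ∈ Finset.range n, ‖φ (p j) - φ (p (j + 1))‖ ≤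
      16 * K' * R' ^ 2 * (1 / ((j : ℝ) + 1) ^ 2) := by
    intro j hj
    have hj' := Finset.mem_range.1 hj
    have h1 := hQ.phi (p j) (p (j + 1)) (hstep j)
    have h2 : (j : ℝ) / 2 ≤ R' * (1 + r (p j)) := (hdist j hj').trans (hb (p j))
    have h3 : 0 ≤ r (p j) := hQ.nonneg (p j)
    have h4 : ((j : ℝ) + 1) / (4 * R') ≤ 1 + r (p j) := by
      rw [div_le_iff₀ (by positivity)]
      nlinarith
    have h5 : (((j : ℝ) + 1) / (4 * R')) ^ 2 ≤ (1 + r (p j)) ^ 2 :=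
      pow_le_pow_left₀ (by positivity) h4 2
    refine h1.trans ?_
    calc K' / (1 + r (p j)) ^ 2 ≤ K' / (((j : ℝ) + 1) / (4 * R')) ^ 2 :=
          div_le_div_of_nonneg_left (by linarith) (by positivity) h5
      _ = 16 * K' * R' ^ 2 * (1 / ((j : ℝ) + 1) ^ 2) := by
          field_simp
          ring
  have hp0 : p 0 = b := by simp [hp]
  have hpn : p n = x := by
    simp only [hp]
    rw [div_self hn0.ne', one_smul, add_sub_cancel]
  have htel : φ b - φ x = ∑ j ∈ Finset.range n, (φ (p j) - φ (p (j + 1))) := by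
    rw [Finset.sum_range_sub' (fun j => φ (p j)), hp0, hpn]
  rw [norm_sub_rev, htel]
  refine (norm_sum_le _ _).trans ((Finset.sum_le_sum hterm).trans ?_)
  rw [← Finset.mul_sum]
  have h6 := qfb_sum n
  have h7 : (0 : ℝ) ≤ 16 * K' * R' ^ 2 := by positivity
  nlinarith

theorem qf_side (hm : 2 ≤ m) (hS : GSet S)
    (hgen : ∀ s ∈ S, ∃ (i : Fin 2) (γ : (D.P i).Γ), s = D.of i γ) (W : WallFn D A S)
    {K : ℝ} (hK : 1 ≤ K) (R : ℝ) : ∃ ρ C : ℝ, 0 ≤ ρ ∧ ∀ F : E m → D.G, QFlat D S F K →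
      ∀ (g : D.G) (b : E m), (∀ x, ‖x - b‖ ≤ R * (1 + (D.dW S (g⁻¹ * F x) : ℝ))) →
        (∃ i : Fin 2, ∀ x, ρ < ‖x - b‖ → A.side (g⁻¹ * F x) = some i) ∧
        ∀ x y, ‖W.Φ (g⁻¹ * F x) - W.Φ (g⁻¹ * F y)‖ ≤ C := by
  obtain ⟨K', hK', hQF⟩ := qf_QH hS W hK
  set R' : ℝ := max R 1 with hR'
  have hR1 : 1 ≤ R' := le_max_right _ _
  set ρ₀ : ℝ := R' * (1 + 2 * K) + 1 with hρ₀
  have hρ₀pos : 0 < ρ₀ := by positivity
  refine ⟨4 * ρ₀, 32 * K' * R' ^ 2 + 32 * K' * R' ^ 2, by positivity, ?_⟩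
  intro F hF g b hb
  have hb' : ∀ x, ‖x - b‖ ≤ R' * (1 + (D.dW S (g⁻¹ * F x) : ℝ)) := by
    intro x
    refine (hb x).trans (mul_le_mul_of_nonneg_right (le_max_left _ _) (by positivity))
  have hfar : ∀ x, ρ₀ ≤ ‖x - b‖ → 2 * K < (D.dW S (g⁻¹ * F x) : ℝ) := by
    intro x hx
    by_contra hcon
    push Not at hcon
    have h1 := hb' x
    have h2 : R' * (1 + (D.dW S (g⁻¹ * F x) : ℝ)) ≤ R' * (1 + 2 * K) :=
      mul_le_mul_of_nonneg_left (by linarith) (by linarith)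
    linarith
  have hnone : ∀ x, ρ₀ ≤ ‖x - b‖ → A.side (g⁻¹ * F x) ≠ none := by
    intro x hx h0
    obtain ⟨v, hv⟩ := (D.side_none A _).1 h0
    have h1 := hfar x hx
    rw [hv, D.dW_ba hS v] at h1
    simp at h1
    linarith
  have hstep : ∀ (i : Fin 2) (p q : E m), ρ₀ ≤ ‖p - b‖ → ρ₀ ≤ ‖q - b‖ → ‖p - q‖ ≤ 1 →
      A.side (g⁻¹ * F p) = some i → A.side (g⁻¹ * F q) = some i := by
    intro i p q hp _ hpq hside
    by_contra hcon
    obtain ⟨v, hv⟩ := D.cross hS A hgen hside hcon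
    have h1 : D.dW S (g⁻¹ * F p) ≤ wd S (g⁻¹ * F p) (D.ba v) := by
      rw [wd_comm hS]
      exact D.dW_le hS v _
    have h2 : D.dW S (g⁻¹ * F p) ≤ wd S (g⁻¹ * F p) (g⁻¹ * F q) := by omega
    rw [wd_mul_left] at h2
    have h3 : (D.dW S (g⁻¹ * F p) : ℝ) ≤ wd S (F p) (F q) := by exact_mod_cast h2
    have h4 := hF.up p q
    have h5 := hfar p hp
    nlinarith
  have hconst : ∀ (i : Fin 2) (x y : E m), 4 * ρ₀ ≤ ‖x - b‖ → 4 * ρ₀ ≤ ‖y - b‖ →
      A.side (g⁻¹ * F x) = some i → A.side (g⁻¹ * F y) = some i := by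
    intro i x y hx hy hside
    obtain ⟨z, hz1, hz2⟩ := detour hm b x y (δ := 4 * ρ₀) (by positivity) hx hy
    have e : 4 * ρ₀ / 4 = ρ₀ := by ring
    rw [e] at hz1 hz2
    have h1 := qfb_seg (σ := fun w => A.side (g⁻¹ * F w) = some i) (hstep i) x z hz1 hside
    exact qfb_seg (σ := fun w => A.side (g⁻¹ * F w) = some i) (hstep i) z y hz2 h1
  constructor
  · obtain ⟨e, he, -⟩ := lq_orth hm (0 : E m)
    have hx0 : ‖b + (4 * ρ₀) • e - b‖ = 4 * ρ₀ := by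
      rw [add_sub_cancel_left, norm_smul, he, mul_one, Real.norm_eq_abs,
        abs_of_nonneg (by positivity)]
    have h1 := hnone (b + (4 * ρ₀) • e) (by rw [hx0]; linarith)
    obtain ⟨i, hi⟩ := Option.ne_none_iff_exists'.1 h1
    exact ⟨i, fun x hx => hconst i _ x hx0.ge hx.le hi⟩
  · intro x y
    have h1 := qfb_proj hK' (hQF F hF g) hR1 b hb' x
    have h2 := qfb_proj hK' (hQF F hF g) hR1 b hb' y
    have h3 : W.Φ (g⁻¹ * F x) - W.Φ (g⁻¹ * F y) =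
        (W.Φ (g⁻¹ * F x) - W.Φ (g⁻¹ * F b)) - (W.Φ (g⁻¹ * F y) - W.Φ (g⁻¹ * F b)) := by abel
    rw [h3]
    exact (norm_sub_le _ _).trans (add_le_add h1 h2)

end QIG
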