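import Pool.Agent.W_a51130_h62.QFb

/-!
A quasi-flat all of whose walls are bounded stays near a piece.

PROOF.  For every `g` let `b_g` be as in the hypothesis and `e(g)` the essential side of `qf_side`:
`side (g⁻¹Fx) = some e(g)` if `‖x-b_g‖ > ρ`.  `e(g)` is characterised by: for all `x` outside some ball,
`side(g⁻¹Fx) = some e(g)` (so it only depends on the coset: `Gl.side_ba_mul`).
Call `g` bad if `side (g⁻¹ F 0) ≠ some e(g)`.  `g = F 0` is bad (`side 1 = none`).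
If `g` is bad then `‖b_g‖ ≤ ρ`; take `x` with `‖x‖ = 2ρ+1` (`m ≥ 1`), `‖x-b_g‖ > ρ`; `Gl.cross` from `g⁻¹Fx` (side
`some e(g)`) to `g⁻¹F0` gives `dW (g⁻¹ F 0) ≤ wd (F x)(F 0) ≤ K(2ρ+2)`; so `g⁻¹ F 0 = ba v * s`, with `s` in a finite
ball, and `len (g⁻¹ F 0) = len s` takes finitely many values on bad `g`.  Choose `g` bad with `len (g⁻¹ F 0)` maximal,
`i = e(g)`, `h = g⁻¹ F 0`, `side h ≠ some i`.
Claim: `e (g * of i γ) = i` for all `γ ∈ Γ_i`.  For `γ` parabolic, same coset.  Otherwise, if it is `j ≠ i`: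
`(g of i γ)⁻¹ F 0 = of i γ⁻¹ * h` has side `some i ≠ some j` and length `len h + 1` (`Gl.side_cons`); so
`g of i γ` is bad with bigger length, contradiction.
Now let `x` be arbitrary, `y = g⁻¹Fx`.  If `side y = none`, `y = ba v ∈ of i Γ_i`.  If `side y = some i`,
`y = of i γ * y'`, `side y' ≠ some i`; if `side y' = none` then `y ∈ of i Γ_i`.  If `side y ≠ some i` put `γ = 1`, `y' = y`.
In the remaining cases `side y' = some j`, `j ≠ i`, and `(g of i γ)⁻¹ F x = y'`, so `‖x - b‖ ≤ ρ` for `b = b_(g of i γ)`;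
take `x'` with `‖x'-x‖ = 2ρ+1`: `side ((g of i γ)⁻¹Fx') = some i`, and `Gl.cross` (from `some i`) gives `v` with
`wd (ba v) y' ≤ wd (Fx')(Fx) ≤ K(2ρ+2)`, so `wd (of i γ * ba v) y ≤ K(2ρ+2)` and
`of i γ * ba v = of i (γ φ_i(v))` (`Gl.of_par`).
-/

namespace QIG

variable {m : ℕ} {D : Gl m} {A : AmalStr D.φ} {S : Set D.G}

/-- There are points at every distance from a given point. -/
theorem qfc_exists_far (hm : 2 ≤ m) (x : E m) {r : ℝ} (hr : 0 ≤ r) : ∃ x' : E m, ‖x' - x‖ = r := by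
  have : Nonempty (Fin m) := ⟨⟨0, by omega⟩⟩
  have : Nontrivial (E m) := inferInstance
  obtain ⟨y, hy⟩ := exists_norm_eq (E m) hr
  exact ⟨x + y, by rw [add_sub_cancel_left]; exact hy⟩

/-- Crossing a wall along a quasi-flat: from a point near the bad ball to a point at distance `2ρ+1`. -/
theorem qfc_cross (hm : 2 ≤ m) (hS : GSet S)
    (hgen : ∀ s ∈ S, ∃ (i : Fin 2) (γ : (D.P i).Γ), s = D.of i γ)
    {K ρ : ℝ} (hρ : 0 ≤ ρ) {F : E m → D.G} (hF : QFlat D S F K) {g : D.G} {b : E m}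
    {i : Fin 2} (he : ∀ x, ρ < ‖x - b‖ → A.side (g⁻¹ * F x) = some i) (x : E m)
    (hx : A.side (g⁻¹ * F x) ≠ some i) :
    ∃ v : (D.P 0).lat, wd S (D.ba v) (g⁻¹ * F x) ≤ ⌊K * (2 * ρ + 2)⌋₊ := by
  have h1 : ‖x - b‖ ≤ ρ := by
    by_contra hcon
    push Not at hcon
    exact hx (he x hcon)
  obtain ⟨x', hx'⟩ := qfc_exists_far hm x (r := 2 * ρ + 1) (by linarith)
  have h2 : ρ < ‖x' - b‖ := by
    have h3 : ‖x' - x‖ ≤ ‖x' - b‖ + ‖x - b‖ := by
      have h4 := norm_sub_le (x' - b) (x - b)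
      rwa [sub_sub_sub_cancel_right] at h4
    linarith
  obtain ⟨v, hv⟩ := D.cross hS A hgen (he x' h2) hx
  refine ⟨v, Nat.le_floor ?_⟩
  have h5 : wd S (g⁻¹ * F x') (g⁻¹ * F x) = wd S (F x') (F x) := wd_mul_left S _ _ _
  have h6 : wd S (D.ba v) (g⁻¹ * F x) ≤ wd S (F x') (F x) := by
    rw [← h5, ← hv]
    exact Nat.le_add_left _ _
  have h7 := hF.up x' x
  rw [hx'] at h7
  have h8 : ((wd S (D.ba v) (g⁻¹ * F x) : ℕ) : ℝ) ≤ (wd S (F x') (F x) : ℕ) := by exact_mod_cast h6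
  have h9 : K * (2 * ρ + 1 + 1) = K * (2 * ρ + 2) := by ring
  linarith

theorem qf_piece (hm : 2 ≤ m) (hS : GSet S)
    (hgen : ∀ s ∈ S, ∃ (i : Fin 2) (γ : (D.P i).Γ), s = D.of i γ) (W : WallFn D A S)
    {K : ℝ} (hK : 1 ≤ K) (R : ℝ) : ∃ C : ℕ, ∀ F : E m → D.G, QFlat D S F K →
      (∀ g : D.G, ∃ b : E m, ∀ x, ‖x - b‖ ≤ R * (1 + (D.dW S (g⁻¹ * F x) : ℝ))) →
        ∃ (g : D.G) (i : Fin 2), ∀ x, ∃ γ : (D.P i).Γ, wd S (g⁻¹ * F x) (D.of i γ) ≤ C := by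
  classical
  obtain ⟨ρ, C₀, hρ, hside⟩ := qf_side hm hS hgen W hK R
  refine ⟨⌊K * (2 * ρ + 2)⌋₊, ?_⟩
  intro F hF hb
  choose b hb' using hb
  have hex : ∀ g : D.G, ∃ i : Fin 2, ∀ x, ρ < ‖x - b g‖ → A.side (g⁻¹ * F x) = some i :=
    fun g => (hside F hF g (b g) (hb' g)).1
  choose e he using hex
  -- the essential side only depends on the coset
  have hcoset : ∀ (g : D.G) (v : (D.P 0).lat), e (g * D.ba v) = e g := by
    intro g v
    obtain ⟨x, hx⟩ := qfc_exists_far hm (0 : E m) (r := ρ + ‖b g‖ + ‖b (g * D.ba v)‖ + 1)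
      (by positivity)
    rw [sub_zero] at hx
    have h1 : ρ < ‖x - b g‖ := by
      have := norm_sub_norm_le x (b g)
      have := norm_nonneg (b (g * D.ba v))
      linarith
    have h2 : ρ < ‖x - b (g * D.ba v)‖ := by
      have := norm_sub_norm_le x (b (g * D.ba v))
      have := norm_nonneg (b g)
      linarith
    have h3 := he _ x h1
    have h4 := he _ x h2
    have h5 : (g * D.ba v)⁻¹ * F x = D.ba (-v) * (g⁻¹ * F x) := by
      rw [D.ba_neg]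
      group
    rw [h5, D.side_ba_mul A, h3] at h4
    exact (Option.some.inj h4).symm
  -- the lengths of the bad elements are bounded
  obtain ⟨L, hL⟩ := ((ball_finite hS ⌊K * (2 * ρ + 2)⌋₊).image A.len).bddAbove
  have hbd : ∀ g : D.G, A.side (g⁻¹ * F 0) ≠ some (e g) → A.len (g⁻¹ * F 0) ≤ L := by
    intro g hg
    obtain ⟨v, hv⟩ := qfc_cross hm hS hgen hρ hF (he g) 0 hg
    have h1 : A.len (D.ba v * ((D.ba v)⁻¹ * (g⁻¹ * F 0))) = A.len ((D.ba v)⁻¹ * (g⁻¹ * F 0)) :=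
      A.len_base_mul _ _
    rw [mul_inv_cancel_left] at h1
    rw [h1]
    exact hL ⟨_, hv, rfl⟩
  have hne : {n : ℕ | ∃ g : D.G, A.side (g⁻¹ * F 0) ≠ some (e g) ∧ A.len (g⁻¹ * F 0) = n}.Nonempty := by
    refine ⟨_, F 0, ?_, rfl⟩
    rw [inv_mul_cancel, (D.side_none A 1).2 ⟨0, D.ba_zero.symm⟩]
    simp
  have hbdd : BddAbove {n : ℕ | ∃ g : D.G, A.side (g⁻¹ * F 0) ≠ some (e g) ∧
      A.len (g⁻¹ * F 0) = n} := by
    refine ⟨L, ?_⟩
    rintro n ⟨g, hg, rfl⟩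
    exact hbd g hg
  obtain ⟨g, hg, hglen⟩ := Nat.sSup_mem hne hbdd
  have hmax : ∀ g' : D.G, A.side (g'⁻¹ * F 0) ≠ some (e g') →
      A.len (g'⁻¹ * F 0) ≤ A.len (g⁻¹ * F 0) := by
    intro g' hg'
    rw [hglen]
    exact le_csSup hbdd ⟨g', hg', rfl⟩
  -- the essential side of the adjacent walls of the piece
  have hclaim : ∀ γ : (D.P (e g)).Γ, e (g * D.of (e g) γ) = e g := by
    intro γ
    by_cases hp : (D.P (e g)).Par γ
    · obtain ⟨v, hv, -⟩ := D.exists_ba (e g) hp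
      rw [hv]
      exact hcoset g v
    · by_contra hcon
      have hp' : ¬ (D.P (e g)).Par γ⁻¹ := by
        rintro ⟨v, hv⟩
        apply hp
        refine ⟨-v, ?_⟩
        rw [transl_neg, ← hv]
        simp
      have h1 := D.side_cons A hp' hg
      have h2 : (g * D.of (e g) γ)⁻¹ * F 0 = D.of (e g) γ⁻¹ * (g⁻¹ * F 0) := by
        rw [map_inv]
        group
      have h3 := hmax (g * D.of (e g) γ) (by
        rw [h2, h1.1]
        intro h4
        exact hcon (Option.some.inj h4).symm)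
      rw [h2, h1.2] at h3
      omega
  refine ⟨g, e g, fun x => ?_⟩
  obtain ⟨γ₀, y', hy, hy'⟩ : ∃ (γ₀ : (D.P (e g)).Γ) (y' : D.G), g⁻¹ * F x = D.of (e g) γ₀ * y' ∧
      A.side y' ≠ some (e g) := by
    by_cases hs : A.side (g⁻¹ * F x) = some (e g)
    · obtain ⟨g', h', -, h2, h3⟩ := D.exists_cons A hs
      exact ⟨g', h', h3, h2⟩
    · exact ⟨1, g⁻¹ * F x, by rw [map_one, one_mul], hs⟩
  have h1 : (g * D.of (e g) γ₀)⁻¹ * F x = y' := by
    rw [mul_inv_rev, mul_assoc, hy, inv_mul_cancel_left]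
  have h2 := he (g * D.of (e g) γ₀)
  rw [hclaim γ₀] at h2
  obtain ⟨v, hv⟩ := qfc_cross hm hS hgen hρ hF h2 x (by rw [h1]; exact hy')
  refine ⟨γ₀ * D.φ (e g) (Multiplicative.ofAdd v), ?_⟩
  rw [map_mul, D.of_par, hy, wd_mul_left, wd_comm hS, ← h1]
  exact hv

end QIG
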