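import Pool.Agent.W_a51130_h62.AnDefs

/-!
Weakly quasisymmetric homeomorphisms of `R^m`: images of balls contain round balls.

PROOFS.
`qs_ball_subset`: let `y ∈ ball (f x) (‖f (x+v) - f x‖ / H)`, `y = f z` (surjectivity).  If `z ∉ ball x ‖v‖`
then `‖v‖ ≤ ‖z - x‖`, so `‖f (x+v) - f x‖ ≤ H ‖f z - f x‖ < ‖f (x+v) - f x‖`, a contradiction.
`qs_pow_le`: take volumes, `vol (ball c r) = ofReal (r^m) * vol (ball 0 1)`
(`MeasureTheory.Measure.addHaar_ball`).
-/

namespace QIG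

open MeasureTheory Metric Set Filter Topology

theorem qs_ball_subset {m : ℕ} (f : E m ≃ₜ E m) {H : ℝ} (hH : 1 ≤ H) (hf : WQS f H) (x v : E m) :
    ball (f x) (‖f (x + v) - f x‖ / H) ⊆ f '' ball x ‖v‖ := by
  intro y hy
  refine ⟨f.symm y, ?_, f.apply_symm_apply y⟩
  set z := f.symm y with hz
  have hfz : f z = y := f.apply_symm_apply y
  by_contra hnot
  have h1 : ‖v‖ ≤ ‖z - x‖ := by
    rw [mem_ball, dist_eq_norm] at hnot
    exact not_lt.mp hnot
  have h2 : ‖f (x + v) - f x‖ ≤ H * ‖f z - f x‖ := by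
    apply hf x (x + v) z
    simpa using h1
  rw [mem_ball, dist_eq_norm, ← hfz] at hy
  have hHpos : 0 < H := by linarith
  rw [lt_div_iff₀ hHpos] at hy
  nlinarith

theorem qs_pow_le {m : ℕ} (hm : 1 ≤ m) (f : E m ≃ₜ E m) {H : ℝ} (hH : 1 ≤ H) (hf : WQS f H)
    (x v : E m) :
    ENNReal.ofReal (‖f (x + v) - f x‖ ^ m) * volume (ball (0 : E m) 1) ≤
      ENNReal.ofReal (H ^ m) * volume (f '' ball x ‖v‖) := by
  have hHpos : 0 < H := by linarith
  have hfr : Module.finrank ℝ (E m) = m := by simp [E]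
  have h0 : 0 ≤ ‖f (x + v) - f x‖ / H := by positivity
  have h1 := measure_mono (μ := (volume : Measure (E m))) (qs_ball_subset f hH hf x v)
  haveI : Nonempty (Fin m) := ⟨⟨0, hm⟩⟩
  haveI : Nontrivial (E m) := by
    unfold E; infer_instance
  rw [Measure.addHaar_ball _ _ h0, hfr] at h1
  calc ENNReal.ofReal (‖f (x + v) - f x‖ ^ m) * volume (ball (0 : E m) 1)
      = ENNReal.ofReal (H ^ m) * (ENNReal.ofReal ((‖f (x + v) - f x‖ / H) ^ m)
          * volume (ball (0 : E m) 1)) := by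
        rw [← mul_assoc, ← ENNReal.ofReal_mul (by positivity), ← mul_pow,
          mul_div_cancel₀ _ hHpos.ne']
    _ ≤ ENNReal.ofReal (H ^ m) * volume (f '' ball x ‖v‖) := by gcongr

end QIG
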