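import Pool.Agent.W_a51130_h62.AnDefs

/-!
Hoelder inequality and area formula.

PROOFS.
`abs_det_of_sim`: if `‖L v‖ = σ ‖v‖` for all `v`, then `|det L| = σ^m` (if `σ = 0` then `L = 0`, `m ≥ 1`;
otherwise `σ⁻¹ L` is a linear isometry of a finite dimensional space and has determinant `±1`;
alternatively compare volumes: `MeasureTheory.Measure.addHaar_image_continuousLinearMap` for the unit ball).
`hoelder_area`: Let `Q = closedBall x₀ R`, `h x = ‖fderiv ℝ f x e‖` (measurable).  Hoelder:
`(∫_Q h)^m ≤ vol(Q)^(m-1) ∫_Q h^m`; `h^m = |det (fderiv ℝ f x)|` a.e. (similarity with factor `σ`,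
`h x = σ`).  With `D` = set of differentiability points (measurable:
`measurableSet_of_differentiableAt`), off `D` `fderiv = 0` has determinant 0, and on `Q ∩ D`
`∫⁻ ofReal |det fderiv| = vol (f '' (Q ∩ D)) ≤ vol (f '' Q) < ∞` by
`lintegral_abs_det_fderiv_eq_addHaar_image` (`f` injective).
-/

namespace QIG

open MeasureTheory Metric Set Filter Topology

theorem det_zero_map {m : ℕ} (hm : 1 ≤ m) : (0 : E m →L[ℝ] E m).det = 0 := by
  have : Nonempty (Fin m) := ⟨⟨0, by omega⟩⟩
  simp [ContinuousLinearMap.det]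

theorem abs_det_of_sim {m : ℕ} (hm : 1 ≤ m) (L : E m →L[ℝ] E m) {σ : ℝ} (hσ : 0 ≤ σ)
    (h : ∀ v, ‖L v‖ = σ * ‖v‖) : |L.det| = σ ^ m := by
  have hV0 : (volume (ball (0 : E m) 1)) ≠ 0 := (measure_ball_pos _ _ one_pos).ne'
  have hVt : (volume (ball (0 : E m) 1)) ≠ ⊤ := measure_ball_lt_top.ne
  rcases hσ.eq_or_lt with h0 | hpos
  · have hL : L = 0 := by
      ext v
      have := h v
      rw [← h0, zero_mul, norm_eq_zero] at this
      simp [this]
    subst hL
    rw [← h0, zero_pow (by omega)]
    rw [det_zero_map hm, abs_zero]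
  · have hinj : Function.Injective L := by
      intro v w hvw
      have h1 : ‖L (v - w)‖ = 0 := by rw [map_sub, hvw, sub_self, norm_zero]
      rw [h] at h1
      have h2 : ‖v - w‖ = 0 := by
        rcases mul_eq_zero.1 h1 with h3 | h3
        · exact absurd h3 hpos.ne'
        · exact h3
      exact sub_eq_zero.1 (norm_eq_zero.1 h2)
    have hsurj : Function.Surjective L :=
      LinearMap.surjective_of_injective (f := (L : E m →ₗ[ℝ] E m)) hinj
    have himg : L '' closedBall 0 1 = closedBall 0 σ := by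
      ext w
      simp only [mem_image, mem_closedBall, dist_zero_right]
      constructor
      · rintro ⟨v, hv, rfl⟩
        rw [h]
        nlinarith
      · intro hw
        obtain ⟨v, rfl⟩ := hsurj w
        refine ⟨v, ?_, rfl⟩
        rw [h] at hw
        nlinarith
    have h1 := Measure.addHaar_image_continuousLinearMap (volume : Measure (E m)) L (closedBall 0 1)
    rw [himg, Measure.addHaar_closedBall _ _ hpos.le, Measure.addHaar_closedBall _ _ zero_le_one,
      one_pow, ENNReal.ofReal_one, one_mul, finrank_euclideanSpace_fin,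
      ENNReal.mul_left_inj hV0 hVt] at h1
    have h2 := congrArg ENNReal.toReal h1
    rw [ENNReal.toReal_ofReal (by positivity), ENNReal.toReal_ofReal (abs_nonneg _)] at h2
    exact h2.symm

theorem hoelder_area {m : ℕ} (hm : 2 ≤ m) (f : E m ≃ₜ E m)
    (hsim : ∀ᵐ x ∂(volume : Measure (E m)), Sim (fderiv ℝ f x))
    (x₀ : E m) {R : ℝ} (hR : 0 < R) (e : E m) (he : ‖e‖ = 1)
    (hint : IntegrableOn (fun x => ‖fderiv ℝ f x e‖ ^ m) (closedBall x₀ R)) :
    (∫ x in closedBall x₀ R, ‖fderiv ℝ f x e‖) ^ m ≤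
      (volume (closedBall x₀ R)).toReal ^ (m - 1) * (volume (f '' closedBall x₀ R)).toReal := by
  set Q := closedBall x₀ R with hQ
  have hQm : MeasurableSet Q := measurableSet_closedBall
  have hV0 : volume Q ≠ 0 := (measure_closedBall_pos _ _ hR).ne'
  have hVt : volume Q ≠ ⊤ := measure_closedBall_lt_top.ne
  have hm1 : 1 ≤ m := by omega
  have hmeas : Measurable (fun x => ‖fderiv ℝ f x e‖) :=
    (measurable_fderiv_apply_const ℝ f e).norm
  have hintQ : IntegrableOn (fun x => ‖fderiv ℝ f x e‖) Q := by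
    refine Integrable.mono' (g := fun x => 1 + ‖fderiv ℝ f x e‖ ^ m) ?_
      hmeas.aestronglyMeasurable ?_
    · exact (integrableOn_const hVt).add hint
    · refine Eventually.of_forall fun x => ?_
      rw [norm_norm]
      rcases le_total ‖fderiv ℝ f x e‖ 1 with h | h
      · have : 0 ≤ ‖fderiv ℝ f x e‖ ^ m := by positivity
        linarith
      · have := le_self_pow₀ h (by omega : m ≠ 0)
        linarith
  -- Hoelder (Jensen)
  have hJ := (convexOn_pow (𝕜 := ℝ) m).map_set_average_le (by fun_prop) isClosed_Ici hV0 hVt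
    (f := fun x => ‖fderiv ℝ f x e‖) (Eventually.of_forall fun x => norm_nonneg _) hintQ hint
  rw [setAverage_eq, setAverage_eq] at hJ
  set V := (volume Q).toReal with hV
  have hVpos : 0 < V := ENNReal.toReal_pos hV0 hVt
  have hVr : volume.real Q = V := rfl
  rw [hVr, smul_eq_mul, smul_eq_mul, mul_pow] at hJ
  -- the area formula
  have hdet : ∀ᵐ x ∂(volume.restrict Q), ‖fderiv ℝ f x e‖ ^ m = |(fderiv ℝ f x).det| := by
    filter_upwards [ae_restrict_of_ae hsim] with x hx
    obtain ⟨σ, hσ, hx⟩ := hx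
    rw [abs_det_of_sim hm1 _ hσ hx, hx e, he, mul_one]
  have harea : ∫ x in Q, ‖fderiv ℝ f x e‖ ^ m ≤ (volume (f '' Q)).toReal := by
    have hfin : volume (f '' Q) ≠ ⊤ :=
      ((isCompact_closedBall x₀ R).image f.continuous).measure_lt_top.ne
    rw [integral_eq_lintegral_of_nonneg_ae (Eventually.of_forall fun x => by positivity)
      (hmeas.pow_const m).aestronglyMeasurable]
    refine ENNReal.toReal_mono hfin ?_
    set D : Set (E m) := {x | DifferentiableAt ℝ f x} with hD
    have hDm : MeasurableSet D := measurableSet_of_differentiableAt ℝ f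
    calc ∫⁻ x in Q, ENNReal.ofReal (‖fderiv ℝ f x e‖ ^ m)
        = ∫⁻ x in Q, ENNReal.ofReal |(fderiv ℝ f x).det| := by
          refine lintegral_congr_ae ?_
          filter_upwards [hdet] with x hx
          rw [hx]
      _ = ∫⁻ x in Q ∩ D, ENNReal.ofReal |(fderiv ℝ f x).det| := by
          rw [← lintegral_inter_add_sdiff _ Q hDm]
          have h0 : ∫⁻ x in Q \ D, ENNReal.ofReal |(fderiv ℝ f x).det| = 0 := by
            rw [← lintegral_zero (μ := volume.restrict (Q \ D))]
            refine setLIntegral_congr_fun (hQm.diff hDm) ?_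
            intro x hx
            have hx2 : ¬ DifferentiableAt ℝ f x := hx.2
            simp only [fderiv_zero_of_not_differentiableAt hx2, det_zero_map hm1, abs_zero,
              ENNReal.ofReal_zero]
          rw [h0, add_zero]
      _ = volume (f '' (Q ∩ D)) := by
          refine lintegral_abs_det_fderiv_eq_addHaar_image volume (hQm.inter hDm) ?_
            f.injective.injOn
          intro x hx
          have hx2 : DifferentiableAt ℝ f x := hx.2
          exact hx2.hasFDerivAt.hasFDerivWithinAt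
      _ ≤ volume (f '' Q) := measure_mono (image_mono inter_subset_left)
  calc (∫ x in Q, ‖fderiv ℝ f x e‖) ^ m
      = V ^ m * (V⁻¹ ^ m * (∫ x in Q, ‖fderiv ℝ f x e‖) ^ m) := by
        rw [← mul_assoc, ← mul_pow, mul_inv_cancel₀ hVpos.ne', one_pow, one_mul]
    _ ≤ V ^ m * (V⁻¹ * ∫ x in Q, ‖fderiv ℝ f x e‖ ^ m) := by
        exact mul_le_mul_of_nonneg_left hJ (by positivity)
    _ = V ^ (m - 1) * ∫ x in Q, ‖fderiv ℝ f x e‖ ^ m := by
        have : V ^ m = V ^ (m - 1) * V := by
          rw [← pow_succ]; congr 1; omega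
        rw [this, mul_assoc, ← mul_assoc V, mul_inv_cancel₀ hVpos.ne', one_mul]
    _ ≤ V ^ (m - 1) * (volume (f '' Q)).toReal :=
        mul_le_mul_of_nonneg_left harea (by positivity)

end QIG
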