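import Pool.Agent.W_a51130_h62.QSLm

/-!
Convergence of the `L¹` norms of difference quotients (Vitali).

PROOF.  Let `μ = volume.restrict (closedBall x₀ R)` (finite), `r n = ρ/(n+1)`,
`g n x = ‖f (x + r n • e) - f x‖ / r n` (continuous), `g x = ‖fderiv ℝ f x e‖`.  At a differentiability
point `g n x → g x` (`HasFDerivAt` along the line).  By `qs_lintegral_pow_le`,
`∫⁻ (g n)^m dμ ≤ B := ofReal (H^m) vol (f '' closedBall x₀ (R + ρ)) < ∞` for all `n` (compactness, `m ≥ 2`).
Hence the family `g n` is uniformly integrable in `L¹(μ)`: for measurable `s`, Hoelder gives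
`∫⁻_s g n dμ ≤ B^(1/m) μ(s)^(1-1/m)`.  Fatou: `g ∈ L^m ⊆ L¹`.  Conclude by
`tendsto_Lp_finite_of_tendsto_ae` with `p = 1`.
-/

namespace QIG

open MeasureTheory Metric Set Filter Topology

/-- Uniform integrability in `L¹` from a uniform `L^m` bound, `m ≥ 2`. -/
theorem qslim_unifIntegrable {α : Type*} [MeasurableSpace α] {μ : Measure α} {m : ℕ} (hm : 2 ≤ m)
    {g : ℕ → α → ℝ} (hg : ∀ n, AEStronglyMeasurable (g n) μ) {B : ENNReal} (hB : B ≠ ⊤)
    (hgB : ∀ n, eLpNorm (g n) (m : ENNReal) μ ≤ B) : UnifIntegrable g 1 μ := by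
  have hm0 : (0 : ℝ) < m := by exact_mod_cast (by omega : 0 < m)
  have hm1 : (1 : ℝ) < m := by exact_mod_cast (by omega : 1 < m)
  set a : ℝ := 1 - 1 / (m : ℝ) with ha
  have ha0 : 0 < a := by
    rw [ha, sub_pos, div_lt_one hm0]
    exact hm1
  intro ε hε
  -- choose δ with B * δ^a ≤ ε
  obtain ⟨b, hb0, hBb⟩ : ∃ b : ℝ, 0 < b ∧ B ≤ ENNReal.ofReal b := by
    refine ⟨B.toReal + 1, by positivity, ?_⟩
    rw [← ENNReal.ofReal_toReal hB]
    apply ENNReal.ofReal_le_ofReal
    rw [ENNReal.toReal_ofReal ENNReal.toReal_nonneg]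
    linarith
  refine ⟨(ε / b) ^ (1 / a), by positivity, ?_⟩
  intro i s hs hμs
  rw [eLpNorm_indicator_eq_eLpNorm_restrict hs]
  have h1 : eLpNorm (g i) 1 (μ.restrict s) ≤
      eLpNorm (g i) (m : ENNReal) (μ.restrict s) *
        (μ.restrict s) Set.univ ^ (1 / (1 : ENNReal).toReal - 1 / ((m : ENNReal)).toReal) := by
    apply eLpNorm_le_eLpNorm_mul_rpow_measure_univ
    · exact_mod_cast (by omega : 1 ≤ m)
    · exact (hg i).restrict
  have h2 : eLpNorm (g i) (m : ENNReal) (μ.restrict s) ≤ B :=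
    (eLpNorm_mono_measure _ Measure.restrict_le_self).trans (hgB i)
  have h3 : (1 / (1 : ENNReal).toReal - 1 / ((m : ENNReal)).toReal) = a := by
    simp [ha]
  rw [h3, Measure.restrict_apply_univ] at h1
  calc eLpNorm (g i) 1 (μ.restrict s)
      ≤ eLpNorm (g i) (m : ENNReal) (μ.restrict s) * μ s ^ a := h1
    _ ≤ ENNReal.ofReal b * (ENNReal.ofReal ((ε / b) ^ (1 / a))) ^ a := by
        gcongr
        exact h2.trans hBb
    _ = ENNReal.ofReal b * ENNReal.ofReal (ε / b) := by
        rw [ENNReal.ofReal_rpow_of_pos (by positivity), ← Real.rpow_mul (by positivity)]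
        rw [one_div_mul_cancel ha0.ne', Real.rpow_one]
    _ = ENNReal.ofReal ε := by
        rw [← ENNReal.ofReal_mul hb0.le]
        congr 1
        field_simp

theorem qs_tendsto_integral {m : ℕ} (hm : 2 ≤ m) (f : E m ≃ₜ E m) {H : ℝ} (hH : 1 ≤ H)
    (hf : WQS f H) (hd : ∀ᵐ x ∂(volume : Measure (E m)), DifferentiableAt ℝ f x)
    (x₀ : E m) {R ρ : ℝ} (hR : 0 < R) (hρ : 0 < ρ) (e : E m) (he : ‖e‖ = 1) :
    Tendsto (fun n : ℕ => ∫ x in closedBall x₀ R,
        ‖f (x + (ρ / (n + 1)) • e) - f x‖ / (ρ / (n + 1))) atTop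
      (𝓝 (∫ x in closedBall x₀ R, ‖fderiv ℝ f x e‖)) ∧
    IntegrableOn (fun x => ‖fderiv ℝ f x e‖ ^ m) (closedBall x₀ R) := by
  have hm0 : m ≠ 0 := by omega
  set μ : Measure (E m) := volume.restrict (closedBall x₀ R) with hμ
  have : IsFiniteMeasure μ := by
    refine ⟨?_⟩
    rw [hμ, Measure.restrict_apply_univ]
    exact (isCompact_closedBall x₀ R).measure_lt_top
  set r : ℕ → ℝ := fun n => ρ / (n + 1) with hr
  have hrpos : ∀ n, 0 < r n := fun n => by
    simp only [hr]
    positivity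
  have hrle : ∀ n, r n ≤ ρ := fun n => by
    simp only [hr]
    apply div_le_self hρ.le
    have : (0 : ℝ) ≤ n := Nat.cast_nonneg n
    linarith
  set g : ℕ → E m → ℝ := fun n x => ‖f (x + r n • e) - f x‖ / r n with hg
  set gl : E m → ℝ := fun x => ‖fderiv ℝ f x e‖ with hgl
  have hgc : ∀ n, Continuous (g n) := fun n => by
    simp only [hg]
    have := f.continuous
    fun_prop
  have hgm : ∀ n, AEStronglyMeasurable (g n) μ := fun n => (hgc n).aestronglyMeasurable
  have hglm : AEStronglyMeasurable gl μ :=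
    ((measurable_fderiv_apply_const ℝ f e).norm).aestronglyMeasurable
  -- the bound
  set B : ENNReal := ENNReal.ofReal (H ^ m) * volume (f '' closedBall x₀ (R + ρ)) with hB
  have hBtop : B ≠ ⊤ := by
    apply ENNReal.mul_ne_top ENNReal.ofReal_ne_top
    exact ((isCompact_closedBall x₀ (R + ρ)).image f.continuous).measure_lt_top.ne
  have hlint : ∀ n, ∫⁻ x, ‖g n x‖ₑ ^ (m : ℝ) ∂μ ≤ B := by
    intro n
    have h1 := qs_lintegral_pow_le (by omega : 1 ≤ m) f hH hf x₀ hR (r n • e)
    have hnorm : ‖r n • e‖ = r n := by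
      rw [norm_smul, he, mul_one, Real.norm_eq_abs, abs_of_pos (hrpos n)]
    rw [hnorm] at h1
    have h2 : ∀ x, ‖g n x‖ₑ ^ (m : ℝ) =
        ENNReal.ofReal ((r n ^ m)⁻¹) * ENNReal.ofReal (‖f (x + r n • e) - f x‖ ^ m) := by
      intro x
      rw [ENNReal.rpow_natCast, ← ENNReal.ofReal_mul (by have := hrpos n; positivity)]
      have h3 : ‖g n x‖ₑ = ENNReal.ofReal (g n x) := by
        rw [← ofReal_norm, Real.norm_eq_abs, abs_of_nonneg]
        simp only [hg]
        have := hrpos n
        positivity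
      rw [h3, ← ENNReal.ofReal_pow (by simp only [hg]; have := hrpos n; positivity)]
      congr 1
      simp only [hg]
      rw [div_pow, div_eq_inv_mul]
    simp_rw [h2]
    rw [lintegral_const_mul' _ _ ENNReal.ofReal_ne_top]
    calc ENNReal.ofReal ((r n ^ m)⁻¹) *
          ∫⁻ x, ENNReal.ofReal (‖f (x + r n • e) - f x‖ ^ m) ∂μ
        ≤ ENNReal.ofReal ((r n ^ m)⁻¹) *
          (ENNReal.ofReal (H ^ m * r n ^ m) * volume (f '' closedBall x₀ (R + r n))) := by
          gcongr
      _ = ENNReal.ofReal (H ^ m) * volume (f '' closedBall x₀ (R + r n)) := by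
          rw [← mul_assoc, ← ENNReal.ofReal_mul (by have := hrpos n; positivity)]
          congr 2
          have := hrpos n
          field_simp
      _ ≤ B := by
          rw [hB]
          gcongr
          exact hrle n
  have heLp : ∀ n, eLpNorm (g n) (m : ENNReal) μ ≤ B ^ (1 / (m : ℝ)) := by
    intro n
    rw [eLpNorm_eq_lintegral_rpow_enorm_toReal (by exact_mod_cast hm0) (ENNReal.natCast_ne_top m)]
    rw [ENNReal.toReal_natCast]
    gcongr
    exact hlint n
  have hBtop' : B ^ (1 / (m : ℝ)) ≠ ⊤ :=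
    ENNReal.rpow_ne_top_of_nonneg (by positivity) hBtop
  -- a.e. convergence
  have hae : ∀ᵐ x ∂μ, Tendsto (fun n => g n x) atTop (𝓝 (gl x)) := by
    refine ae_restrict_of_ae ?_
    filter_upwards [hd] with x hx
    have hder := hx.hasFDerivAt
    have hc : Tendsto (fun n : ℕ => ‖(r n)⁻¹‖) atTop atTop := by
      have h1 : Tendsto (fun n : ℕ => ((n : ℝ) + 1) / ρ) atTop atTop := by
        apply Tendsto.atTop_div_const hρ
        exact tendsto_atTop_add_const_right _ _ tendsto_natCast_atTop_atTop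
      refine h1.congr (fun n => ?_)
      rw [norm_inv, Real.norm_eq_abs, abs_of_pos (hrpos n)]
      simp only [hr]
      rw [inv_div]
    have hlim : Tendsto (fun n => (r n)⁻¹ • (f (x + r n • e) - f x)) atTop
        (𝓝 (fderiv ℝ f x e)) := by
      have h := hder.lim e hc
      simpa only [inv_inv] using h
    have h2 := hlim.norm
    refine h2.congr (fun n => ?_)
    simp only [hg]
    rw [norm_smul, norm_inv, Real.norm_eq_abs, abs_of_pos (hrpos n), div_eq_inv_mul]
  have hglLp : MemLp gl (m : ENNReal) μ := by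
    refine ⟨hglm, ?_⟩
    have h1 := Lp.eLpNorm_lim_le_liminf_eLpNorm (p := (m : ENNReal)) hgm gl hae
    refine lt_of_le_of_lt (h1.trans ?_) (lt_top_iff_ne_top.mpr hBtop')
    refine Filter.liminf_le_of_le (by isBoundedDefault) (fun b hb => ?_)
    obtain ⟨n, hn⟩ := hb.exists
    exact hn.trans (heLp n)
  have hglint : Integrable gl μ := by
    have : MemLp gl 1 μ := hglLp.mono_exponent (by exact_mod_cast (by omega : 1 ≤ m))
    exact memLp_one_iff_integrable.mp this
  have hui : UnifIntegrable g 1 μ := qslim_unifIntegrable hm hgm hBtop' heLp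
  have hconv := tendsto_Lp_finite_of_tendsto_ae (p := 1) le_rfl (by simp) hgm
    (memLp_one_iff_integrable.mpr hglint) hui hae
  refine ⟨?_, ?_⟩
  · apply tendsto_integral_of_L1' gl hglm _ hconv
    refine Eventually.of_forall (fun n => ?_)
    exact (hgc n).continuousOn.integrableOn_compact (isCompact_closedBall x₀ R)
  · have h := hglLp.integrable_norm_pow hm0
    simp only [hgl, norm_norm] at h
    exact h

end QIG
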