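import Pool.Agent.W_a51130_h62.AnDefs

/-!
Telescoping: the difference at distance `ρ` is controlled by differences at distance `ρ/(n+1)`.

PROOF.  Let `r = ρ/(n+1)`.  For `x ∈ Q = closedBall x₀ R`,
`‖f (x + ρ e) - f x‖ ≤ ∑_{k ≤ n} ‖f (x + (k+1) r e) - f (x + k r e)‖`; integrate over `Q`; by translation
invariance the `k`-th term is the integral of `‖f (y + r e) - f y‖` over `closedBall (x₀ + k r e) R`, which
is contained in `closedBall x₀ (R + ρ)`.  Divide by `ρ = (n+1) r`.
-/

namespace QIG

open MeasureTheory Metric Set Filter Topology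

theorem integral_diff_le {m : ℕ} (f : E m → E m) (hf : Continuous f)
    (x₀ : E m) {R ρ : ℝ} (hR : 0 < R) (hρ : 0 < ρ) (e : E m) (he : ‖e‖ = 1) (n : ℕ) :
    ∫ x in closedBall x₀ R, ‖f (x + ρ • e) - f x‖ / ρ ≤
      ∫ x in closedBall x₀ (R + ρ), ‖f (x + (ρ / (n + 1)) • e) - f x‖ / (ρ / (n + 1)) := by
  set r : ℝ := ρ / (n + 1) with hr
  have hn : (0 : ℝ) < n + 1 := by positivity
  have hr0 : 0 < r := div_pos hρ hn
  have hrn : (n + 1 : ℝ) * r = ρ := by rw [hr]; field_simp
  set g : E m → ℝ := fun y => ‖f (y + r • e) - f y‖ with hg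
  have hgc : Continuous g := by
    have h1 : Continuous fun y : E m => f (y + r • e) := hf.comp (by fun_prop)
    exact (h1.sub hf).norm
  have hg0 : ∀ y, 0 ≤ g y := fun y => norm_nonneg _
  have hint : ∀ v : E m, ∀ s : Set (E m), IsCompact s → IntegrableOn (fun x => g (x + v)) s :=
    fun v s hs => ((hgc.comp (by fun_prop : Continuous fun x : E m => x + v)).continuousOn).integrableOn_compact hs
  have hpt : ∀ x : E m, ‖f (x + ρ • e) - f x‖ ≤
      ∑ k ∈ Finset.range (n + 1), g (x + ((k : ℝ) * r) • e) := by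
    intro x
    have h1 := dist_le_range_sum_dist (fun k : ℕ => f (x + ((k : ℝ) * r) • e)) (n + 1)
    have h2 : dist (f (x + (((0 : ℕ) : ℝ) * r) • e)) (f (x + (((n + 1 : ℕ) : ℝ) * r) • e)) =
        ‖f (x + ρ • e) - f x‖ := by
      rw [dist_comm, dist_eq_norm]
      push_cast
      rw [hrn, zero_mul, zero_smul, add_zero]
    rw [h2] at h1
    refine h1.trans (Finset.sum_le_sum fun k _ => ?_)
    rw [dist_comm, dist_eq_norm]
    show _ ≤ ‖f (x + ((k : ℝ) * r) • e + r • e) - f (x + ((k : ℝ) * r) • e)‖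
    have h3 : x + ((k : ℝ) * r) • e + r • e = x + (((k + 1 : ℕ) : ℝ) * r) • e := by
      rw [add_assoc, ← add_smul]
      congr 2
      push_cast
      ring
    rw [h3]
  have htr : ∀ k ∈ Finset.range (n + 1),
      ∫ x in closedBall x₀ R, g (x + ((k : ℝ) * r) • e) ≤ ∫ x in closedBall x₀ (R + ρ), g x := by
    intro k hk
    set v : E m := ((k : ℝ) * r) • e with hv
    have hvn : ‖v‖ ≤ ρ := by
      rw [hv, norm_smul, he, mul_one, Real.norm_of_nonneg (by positivity)]
      have hk' : (k : ℝ) ≤ n := by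
        have := Finset.mem_range.mp hk
        exact_mod_cast Nat.lt_succ_iff.mp this
      rw [← hrn]
      exact mul_le_mul_of_nonneg_right (by linarith) hr0.le
    have hmp := measurePreserving_add_right (volume : Measure (E m)) v
    have hme := measurableEmbedding_addRight v
    have hsub : closedBall x₀ R ⊆ (fun x => x + v) ⁻¹' closedBall x₀ (R + ρ) := by
      intro x hx
      rw [Set.mem_preimage, mem_closedBall, dist_eq_norm] at *
      calc ‖x + v - x₀‖ = ‖(x - x₀) + v‖ := by congr 1; abel
        _ ≤ ‖x - x₀‖ + ‖v‖ := norm_add_le _ _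
        _ ≤ R + ρ := add_le_add hx hvn
    have hI : IntegrableOn (fun x => g (x + v)) ((fun x => x + v) ⁻¹' closedBall x₀ (R + ρ)) := by
      have h4 := (hmp.integrableOn_comp_preimage hme (f := g) (s := closedBall x₀ (R + ρ))).2
        (hgc.continuousOn.integrableOn_compact (isCompact_closedBall _ _))
      exact h4
    calc ∫ x in closedBall x₀ R, g (x + v)
        ≤ ∫ x in (fun x => x + v) ⁻¹' closedBall x₀ (R + ρ), g (x + v) :=
          setIntegral_mono_set hI (Filter.Eventually.of_forall fun x => hg0 _)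
            (Filter.Eventually.of_forall hsub)
      _ = ∫ x in closedBall x₀ (R + ρ), g x := hmp.setIntegral_preimage_emb hme g _
  have hA : ∫ x in closedBall x₀ R, ‖f (x + ρ • e) - f x‖ ≤
      (n + 1) * ∫ x in closedBall x₀ (R + ρ), g x := by
    calc ∫ x in closedBall x₀ R, ‖f (x + ρ • e) - f x‖
        ≤ ∫ x in closedBall x₀ R, ∑ k ∈ Finset.range (n + 1), g (x + ((k : ℝ) * r) • e) := by
          refine integral_mono ?_ ?_ hpt
          · have h5 : Continuous fun x : E m => f (x + ρ • e) := hf.comp (by fun_prop)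
            exact ((h5.sub hf).norm).continuousOn.integrableOn_compact
              (isCompact_closedBall _ _)
          · exact integrable_finset_sum _ fun k _ => hint _ _ (isCompact_closedBall _ _)
      _ = ∑ k ∈ Finset.range (n + 1), ∫ x in closedBall x₀ R, g (x + ((k : ℝ) * r) • e) :=
          integral_finset_sum _ fun k _ => hint _ _ (isCompact_closedBall _ _)
      _ ≤ ∑ k ∈ Finset.range (n + 1), ∫ x in closedBall x₀ (R + ρ), g x :=
          Finset.sum_le_sum htr
      _ = (n + 1) * ∫ x in closedBall x₀ (R + ρ), g x := by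
          rw [Finset.sum_const, Finset.card_range, nsmul_eq_mul]
          push_cast
          ring
  rw [integral_div, integral_div, div_le_div_iff₀ hρ hr0]
  calc (∫ x in closedBall x₀ R, ‖f (x + ρ • e) - f x‖) * r
      ≤ ((n + 1) * ∫ x in closedBall x₀ (R + ρ), g x) * r :=
        mul_le_mul_of_nonneg_right hA hr0.le
    _ = (∫ x in closedBall x₀ (R + ρ), g x) * ((n + 1) * r) := by ring
    _ = (∫ x in closedBall x₀ (R + ρ), g x) * ρ := by rw [hrn]

end QIG
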