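import Pool.Agent.W_a51130_h62.QSae
import Pool.Agent.W_a51130_h62.QSLim
import Pool.Agent.W_a51130_h62.QSTel
import Pool.Agent.W_a51130_h62.QSHol

/-!
The main length-area inequality for quasisymmetric maps which are infinitesimally conformal a.e.

PROOF.  `qs_ae_differentiable`, then for every `n`: `integral_diff_le`, let `n → ∞` with
`qs_tendsto_integral` on `closedBall x₀ (R + ρ)` (`ge_of_tendsto'`), and `hoelder_area` on the same ball
(monotonicity of `x ↦ x^m` on nonnegative reals).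
-/

namespace QIG

open MeasureTheory Metric Set Filter Topology

theorem length_area {m : ℕ} (hm : 2 ≤ m) (f : E m ≃ₜ E m) {H : ℝ} (hH : 1 ≤ H)
    (hf : WQS f H) (hsim : ∀ᵐ x ∂(volume : Measure (E m)), Sim (fderiv ℝ f x))
    (x₀ : E m) {R ρ : ℝ} (hR : 0 < R) (hρ : 0 < ρ) (e : E m) (he : ‖e‖ = 1) :
    (∫ x in closedBall x₀ R, ‖f (x + ρ • e) - f x‖ / ρ) ^ m ≤
      (volume (closedBall x₀ (R + ρ))).toReal ^ (m - 1) *
        (volume (f '' closedBall x₀ (R + ρ))).toReal := by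
  have hRρ : 0 < R + ρ := add_pos hR hρ
  have hd := qs_ae_differentiable (by omega) f hH hf
  obtain ⟨ht, hi⟩ := qs_tendsto_integral hm f hH hf hd x₀ hRρ hρ e he
  have hle : ∫ x in closedBall x₀ R, ‖f (x + ρ • e) - f x‖ / ρ ≤
      ∫ x in closedBall x₀ (R + ρ), ‖fderiv ℝ f x e‖ :=
    ge_of_tendsto' ht fun n => integral_diff_le f f.continuous x₀ hR hρ e he n
  have h0 : 0 ≤ ∫ x in closedBall x₀ R, ‖f (x + ρ • e) - f x‖ / ρ :=
    integral_nonneg fun x => div_nonneg (norm_nonneg _) hρ.le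
  exact (pow_le_pow_left₀ h0 hle m).trans (hoelder_area hm f hsim x₀ hRρ e he hi)

end QIG
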