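import Pool.Agent.W_a51130_h62.QSBall

/-!
`L^m` bound for difference quotients of a weakly quasisymmetric homeomorphism.

PROOF.  Let `r = ‖v‖ > 0`, `Q = closedBall x₀ R`, `Q' = closedBall x₀ (R + r)`, `ν A = vol (f '' A)`
(`ν = volume.map f.symm`, an s-finite Borel measure).  By `qs_pow_le`, for all `x`,
`ofReal (‖f (x+v) - f x‖^m) vol(B_1) ≤ ofReal (H^m) ν (ball x r)`.  Integrate over `Q` and use Tonelli:
`∫⁻_{x ∈ Q} ν (ball x r) = ∫⁻_y ν(dy) vol (Q ∩ ball y r) ≤ ν(Q') vol (ball 0 r) = ν(Q') r^m vol(B_1)`
(if `x ∈ Q`, `y ∈ ball x r` then `y ∈ Q'`).  Divide by `vol(B_1) ∈ (0,∞)`.  The case `v = 0` is trivial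
(`m ≥ 1`).
-/

namespace QIG

open MeasureTheory Metric Set Filter Topology

/-- Tonelli for a measure of balls. -/
theorem qslm_lintegral_ball_le {m : ℕ} (ν : Measure (E m)) [SFinite ν] (x₀ : E m) (R r : ℝ) :
    ∫⁻ x in closedBall x₀ R, ν (ball x r) ≤
      ν (closedBall x₀ (R + r)) * volume (ball (0 : E m) r) := by
  have h1 : ∀ x : E m, ν (ball x r) = ∫⁻ y, (if dist x y < r then 1 else 0) ∂ν := by
    intro x
    rw [← lintegral_indicator_one measurableSet_ball]
    apply lintegral_congr
    intro y
    simp only [indicator, mem_ball, Pi.one_apply, dist_comm y x]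
  have hmeas : Measurable (fun p : E m × E m => (if dist p.1 p.2 < r then (1 : ENNReal) else 0)) := by
    apply Measurable.ite _ measurable_const measurable_const
    exact measurableSet_lt (measurable_fst.dist measurable_snd) measurable_const
  simp_rw [h1]
  rw [lintegral_lintegral_swap hmeas.aemeasurable]
  calc ∫⁻ y, (∫⁻ x in closedBall x₀ R, (if dist x y < r then (1 : ENNReal) else 0)) ∂ν
      ≤ ∫⁻ y, (closedBall x₀ (R + r)).indicator (fun _ => volume (ball (0 : E m) r)) y ∂ν := by
        apply lintegral_mono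
        intro y
        have h2 : (∫⁻ x in closedBall x₀ R, (if dist x y < r then (1 : ENNReal) else 0)) =
            volume (ball y r ∩ closedBall x₀ R) := by
          rw [← Measure.restrict_apply measurableSet_ball, ← lintegral_indicator_one measurableSet_ball]
          apply lintegral_congr
          intro x
          simp only [indicator, mem_ball, Pi.one_apply]
        simp only
        rw [h2]
        by_cases hy : y ∈ closedBall x₀ (R + r)
        · rw [indicator_of_mem hy]
          calc volume (ball y r ∩ closedBall x₀ R) ≤ volume (ball y r) :=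
                measure_mono inter_subset_left
            _ = volume (ball (0 : E m) r) := Measure.addHaar_ball_center _ y r
        · rw [indicator_of_notMem hy]
          have : ball y r ∩ closedBall x₀ R = ∅ := by
            rw [eq_empty_iff_forall_notMem]
            rintro x ⟨hx1, hx2⟩
            apply hy
            rw [mem_closedBall] at hx2 ⊢
            rw [mem_ball, dist_comm] at hx1
            linarith [dist_triangle y x x₀]
          rw [this, measure_empty]
    _ = ν (closedBall x₀ (R + r)) * volume (ball (0 : E m) r) := by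
        rw [lintegral_indicator_const isClosed_closedBall.measurableSet, mul_comm]

theorem qs_lintegral_pow_le {m : ℕ} (hm : 1 ≤ m) (f : E m ≃ₜ E m) {H : ℝ} (hH : 1 ≤ H)
    (hf : WQS f H) (x₀ : E m) {R : ℝ} (hR : 0 < R) (v : E m) :
    ∫⁻ x in closedBall x₀ R, ENNReal.ofReal (‖f (x + v) - f x‖ ^ m) ≤
      ENNReal.ofReal (H ^ m * ‖v‖ ^ m) * volume (f '' closedBall x₀ (R + ‖v‖)) := by
  set ω : ENNReal := volume (ball (0 : E m) 1) with hω
  have hω0 : ω ≠ 0 := (measure_ball_pos volume (0 : E m) one_pos).ne'
  have hωt : ω ≠ ⊤ := measure_ball_lt_top.ne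
  set ν : Measure (E m) := volume.map f.symm with hν
  have hνA : ∀ A : Set (E m), ν A = volume (f '' A) := by
    intro A
    rw [hν]
    have h := f.symm.toMeasurableEquiv.map_apply (μ := (volume : Measure (E m))) A
    simp only [Homeomorph.toMeasurableEquiv_coe] at h
    rw [h, Homeomorph.preimage_symm]
  have hpt : ∀ x, ENNReal.ofReal (‖f (x + v) - f x‖ ^ m) * ω ≤
      ENNReal.ofReal (H ^ m) * ν (ball x ‖v‖) := by
    intro x
    rw [hνA]
    exact qs_pow_le hm f hH hf x v
  have hfv : Measurable fun x => ENNReal.ofReal (‖f (x + v) - f x‖ ^ m) := by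
    have := f.continuous
    apply ENNReal.measurable_ofReal.comp
    apply Continuous.measurable
    fun_prop
  have h1 : (∫⁻ x in closedBall x₀ R, ENNReal.ofReal (‖f (x + v) - f x‖ ^ m)) * ω ≤
      (ENNReal.ofReal (H ^ m * ‖v‖ ^ m) * volume (f '' closedBall x₀ (R + ‖v‖))) * ω := by
    rw [← lintegral_mul_const _ hfv]
    calc ∫⁻ x in closedBall x₀ R, ENNReal.ofReal (‖f (x + v) - f x‖ ^ m) * ω
        ≤ ∫⁻ x in closedBall x₀ R, ENNReal.ofReal (H ^ m) * ν (ball x ‖v‖) := lintegral_mono hpt
      _ = ENNReal.ofReal (H ^ m) * ∫⁻ x in closedBall x₀ R, ν (ball x ‖v‖) :=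
          lintegral_const_mul' _ _ ENNReal.ofReal_ne_top
      _ ≤ ENNReal.ofReal (H ^ m) *
            (ν (closedBall x₀ (R + ‖v‖)) * volume (ball (0 : E m) ‖v‖)) := by
          gcongr
          exact qslm_lintegral_ball_le ν x₀ R ‖v‖
      _ = (ENNReal.ofReal (H ^ m * ‖v‖ ^ m) * volume (f '' closedBall x₀ (R + ‖v‖))) * ω := by
          have hvol : volume (ball (0 : E m) ‖v‖) = ENNReal.ofReal (‖v‖ ^ m) * ω := by
            have hne : Nonempty (Fin m) := ⟨⟨0, hm⟩⟩
            have : Nontrivial (E m) := inferInstance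
            rw [Measure.addHaar_ball _ _ (norm_nonneg v), hω]
            simp
          rw [hνA, hvol, ENNReal.ofReal_mul (by positivity)]
          ring
  exact (ENNReal.mul_le_mul_iff_left hω0 hωt).mp h1

end QIG
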