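import Pool.Agent.W_a51130_h62.AnDefs

/-!
Stepanov's theorem (a consequence of Rademacher's theorem, which is in Mathlib).

PROOF.  For `k : ℕ` let `A k = {x | ∀ y, ‖y - x‖ < 1/(k+1) → ‖f y - f x‖ ≤ k ‖y - x‖}`.  By hypothesis
a.e. `x` is in some `A k`.  Cover each `A k` by the countably many sets `s = A k ∩ ball q (1/(2(k+1)))`,
`q` in a countable dense set; on `s` the function `f` is `k`-Lipschitz.  By
`LipschitzOnWith.ae_differentiableWithinAt_of_mem` a.e. `x ∈ s` has `DifferentiableWithinAt ℝ f s x`, and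
by `Besicovitch.ae_tendsto_measure_inter_div volume s` (with `ae_imp_of_ae_restrict`) a.e. `x ∈ s` is a
density point of `s`.  At such a point let `L = fderivWithin`-derivative (`HasFDerivWithinAt f L s x`).
Claim `HasFDerivAt f L x`: given `ε ∈ (0,1)`, density gives `δ` such that for all `y` with `‖y - x‖ < δ`
there is `y' ∈ s` with `‖y - y'‖ ≤ ε ‖y - x‖` (otherwise the ball `B(y, ε r)`, `r = ‖y - x‖`, misses `s`
and it is contained in `closedBall x (2r)`, so `vol (s ∩ closedBall x (2r)) / vol (closedBall x (2r)) ≤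
1 - (ε/2)^m`, which contradicts the density for small `r`).  For `‖y - x‖` small,
`‖y - y'‖ < 1/(k+1)` and `y' ∈ A k`, so `‖f y - f y'‖ ≤ k ε ‖y - x‖`, and
`‖f y - f x - L (y - x)‖ ≤ ‖f y - f y'‖ + ‖f y' - f x - L (y' - x)‖ + ‖L‖ ‖y' - y‖
  ≤ k ε ‖y - x‖ + ε ‖y' - x‖ + ‖L‖ ε ‖y - x‖ ≤ (k + 2 + ‖L‖) ε ‖y - x‖`.
-/

namespace QIG

open MeasureTheory Metric Set Filter Topology

/-- near a density point `x` of `s` every point is relatively close to `s` -/
theorem stepanov_density {m : ℕ} {s : Set (E m)} {x : E m} (hx : x ∈ s)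
    (h : Tendsto (fun r => (volume : Measure (E m)) (s ∩ closedBall x r) /
      (volume : Measure (E m)) (closedBall x r)) (𝓝[>] 0) (𝓝 1))
    {ε : ℝ} (h0 : 0 < ε) (h1 : ε ≤ 1) :
    ∃ δ : ℝ, 0 < δ ∧ ∀ y, ‖y - x‖ < δ → ∃ y' ∈ s, ‖y - y'‖ ≤ ε * ‖y - x‖ := by
  set c : ℝ := (ε / 2) ^ m with hc
  have hc0 : 0 < c := by positivity
  have h2 : Tendsto (fun r => (volume : Measure (E m)).real (s ∩ closedBall x r) /
      (volume : Measure (E m)).real (closedBall x r)) (𝓝[>] 0) (𝓝 1) := by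
    have h3 := (ENNReal.tendsto_toReal ENNReal.one_ne_top).comp h
    simp only [ENNReal.toReal_one] at h3
    refine h3.congr ?_
    intro r
    simp only [Function.comp_apply, ENNReal.toReal_div, Measure.real]
  have h3 : ∀ᶠ r in 𝓝[>] (0 : ℝ), 1 - c < (volume : Measure (E m)).real (s ∩ closedBall x r) /
      (volume : Measure (E m)).real (closedBall x r) :=
    h2.eventually_const_lt (by linarith)
  rw [eventually_nhdsWithin_iff, Metric.eventually_nhds_iff] at h3
  obtain ⟨δ, hδ, h4⟩ := h3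
  refine ⟨δ / 2, by positivity, ?_⟩
  intro y hy
  by_contra hcon
  push Not at hcon
  have hr : 0 < ‖y - x‖ := by
    rcases (norm_nonneg (y - x)).lt_or_eq with h5 | h5
    · exact h5
    · exfalso
      have h6 : y - x = 0 := by rw [← norm_eq_zero]; exact h5.symm
      have h7 := hcon x hx
      rw [h6] at h7
      simp at h7
  set r : ℝ := ‖y - x‖ with hrdef
  have h5 := h4 (y := 2 * r) (by rw [Real.dist_eq, sub_zero, abs_of_pos (by positivity)]; linarith)
    (by simp only [mem_Ioi]; positivity)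
  have hV : 0 < (volume : Measure (E m)).real (ball (0 : E m) 1) := by
    rw [Measure.real, ENNReal.toReal_pos_iff]
    exact ⟨measure_ball_pos _ _ one_pos, measure_ball_lt_top⟩
  have h6 : (volume : Measure (E m)).real (closedBall x (2 * r)) =
      (2 * r) ^ m * (volume : Measure (E m)).real (ball (0 : E m) 1) := by
    rw [Measure.addHaar_real_closedBall _ _ (by positivity), finrank_euclideanSpace_fin]
  have h7 : (volume : Measure (E m)).real (closedBall y (ε * r)) =
      (ε * r) ^ m * (volume : Measure (E m)).real (ball (0 : E m) 1) := by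
    rw [Measure.addHaar_real_closedBall _ _ (by positivity), finrank_euclideanSpace_fin]
  have hB : 0 < (volume : Measure (E m)).real (closedBall x (2 * r)) := by
    rw [h6]; positivity
  have hsub : closedBall y (ε * r) ⊆ closedBall x (2 * r) := by
    intro z hz
    rw [mem_closedBall, dist_eq_norm] at hz ⊢
    calc ‖z - x‖ = ‖(z - y) + (y - x)‖ := by congr 1; abel
      _ ≤ ‖z - y‖ + ‖y - x‖ := norm_add_le _ _
      _ ≤ ε * r + r := by rw [← hrdef]; linarith
      _ ≤ 2 * r := by nlinarith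
  have h8 : s ∩ closedBall x (2 * r) ⊆ closedBall x (2 * r) \ closedBall y (ε * r) := by
    rintro z ⟨hz, hz'⟩
    refine ⟨hz', ?_⟩
    intro h9
    rw [mem_closedBall, dist_eq_norm] at h9
    have h10 := hcon z hz
    rw [norm_sub_rev] at h10
    linarith
  have h9 : (volume : Measure (E m)).real (s ∩ closedBall x (2 * r)) ≤
      (volume : Measure (E m)).real (closedBall x (2 * r)) -
        (volume : Measure (E m)).real (closedBall y (ε * r)) := by
    rw [← measureReal_sdiff hsub measurableSet_closedBall measure_closedBall_lt_top.ne]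
    exact measureReal_mono h8 (by
      exact ne_top_of_le_ne_top (measure_closedBall_lt_top (x := x) (r := 2 * r)).ne
        (measure_mono sdiff_subset))
  rw [lt_div_iff₀ hB] at h5
  have h10 : (volume : Measure (E m)).real (closedBall y (ε * r)) =
      c * (volume : Measure (E m)).real (closedBall x (2 * r)) := by
    rw [h6, h7, hc, ← mul_assoc, ← mul_pow]
    congr 2
    ring
  rw [h10] at h9
  nlinarith

theorem stepanov {m : ℕ} (f : E m → E m)
    (hf : ∀ᵐ x ∂(volume : Measure (E m)), ∃ C δ : ℝ, 0 < δ ∧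
      ∀ y, ‖y - x‖ < δ → ‖f y - f x‖ ≤ C * ‖y - x‖) :
    ∀ᵐ x ∂(volume : Measure (E m)), DifferentiableAt ℝ f x := by
  -- the sets `A k`
  set A : ℕ → Set (E m) := fun k => {x | ∀ y, ‖y - x‖ < 1 / ((k : ℝ) + 1) →
    ‖f y - f x‖ ≤ (k : ℝ) * ‖y - x‖} with hA
  set S : ℕ → ℕ → Set (E m) := fun k n =>
    A k ∩ ball (TopologicalSpace.denseSeq (E m) n) (1 / (2 * ((k : ℝ) + 1))) with hS
  have hcov : ∀ᵐ x ∂(volume : Measure (E m)), ∃ k n, x ∈ S k n := by
    filter_upwards [hf] with x hx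
    obtain ⟨C, δ, hδ, h⟩ := hx
    obtain ⟨k1, hk1⟩ := exists_nat_ge C
    obtain ⟨k2, hk2⟩ := exists_nat_one_div_lt hδ
    have hk1' : C ≤ ((max k1 k2 : ℕ) : ℝ) := by
      refine hk1.trans ?_
      exact_mod_cast le_max_left k1 k2
    have hk2' : 1 / (((max k1 k2 : ℕ) : ℝ) + 1) < δ := by
      refine lt_of_le_of_lt ?_ hk2
      apply one_div_le_one_div_of_le (by positivity)
      have : (k2 : ℝ) ≤ ((max k1 k2 : ℕ) : ℝ) := by exact_mod_cast le_max_right k1 k2
      linarith
    have hxA : x ∈ A (max k1 k2) := by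
      intro y hy
      refine (h y (hy.trans hk2')).trans ?_
      exact mul_le_mul_of_nonneg_right hk1' (norm_nonneg _)
    have hpos : (0 : ℝ) < 1 / (2 * (((max k1 k2 : ℕ) : ℝ) + 1)) := by positivity
    obtain ⟨n, hn⟩ := (TopologicalSpace.denseRange_denseSeq (E m)).exists_dist_lt x hpos
    exact ⟨max k1 k2, n, hxA, hn⟩
  have hlip : ∀ k n : ℕ, LipschitzOnWith (k : NNReal) f (S k n) := by
    intro k n
    apply LipschitzOnWith.of_dist_le_mul
    intro x hx y hy
    have hd : dist x y < 1 / ((k : ℝ) + 1) := by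
      have h1 := hx.2
      have h2 := hy.2
      rw [mem_ball] at h1 h2
      have h3 : dist x y ≤ dist x (TopologicalSpace.denseSeq (E m) n) +
        dist y (TopologicalSpace.denseSeq (E m) n) := dist_triangle_right _ _ _
      have h4 : (1 : ℝ) / (2 * ((k : ℝ) + 1)) + 1 / (2 * ((k : ℝ) + 1)) = 1 / ((k : ℝ) + 1) := by
        field_simp
        norm_num
      linarith
    have h5 := hy.1 x (by rw [← dist_eq_norm]; exact hd)
    rw [dist_eq_norm, dist_eq_norm]
    simpa using h5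
  have hae : ∀ᵐ x ∂(volume : Measure (E m)), ∀ k n, x ∈ S k n →
      DifferentiableWithinAt ℝ f (S k n) x ∧
      Tendsto (fun r => (volume : Measure (E m)) (S k n ∩ closedBall x r) /
      (volume : Measure (E m)) (closedBall x r)) (𝓝[>] 0) (𝓝 1) := by
    rw [ae_all_iff]
    intro k
    rw [ae_all_iff]
    intro n
    have h1 := (hlip k n).ae_differentiableWithinAt_of_mem (μ := (volume : Measure (E m)))
    have h2 := ae_imp_of_ae_restrict
      (Besicovitch.ae_tendsto_measure_inter_div (volume : Measure (E m)) (S k n))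
    filter_upwards [h1, h2] with x h3 h4 h5 using ⟨h3 h5, h4 h5⟩
  filter_upwards [hcov, hae] with x h1 h2
  obtain ⟨k, n, hx⟩ := h1
  obtain ⟨hd, ht⟩ := h2 k n hx
  set s := S k n with hs
  set L := fderivWithin ℝ f s x with hL
  have hL' : HasFDerivWithinAt f L s x := hd.hasFDerivWithinAt
  suffices HasFDerivAt f L x from this.differentiableAt
  rw [hasFDerivAt_iff_isLittleO, Asymptotics.isLittleO_iff]
  intro c hc
  have hK : (0 : ℝ) < (k : ℝ) + 2 + ‖L‖ := by positivity
  set ε : ℝ := min 1 (c / ((k : ℝ) + 2 + ‖L‖)) with hε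
  have hε0 : 0 < ε := lt_min one_pos (by positivity)
  have hε1 : ε ≤ 1 := min_le_left _ _
  have hε2 : ((k : ℝ) + 2 + ‖L‖) * ε ≤ c := by
    have h3 : ε ≤ c / ((k : ℝ) + 2 + ‖L‖) := min_le_right _ _
    rw [le_div_iff₀ hK] at h3
    linarith
  obtain ⟨δ1, hδ1, h3⟩ := stepanov_density hx ht hε0 hε1
  rw [hasFDerivWithinAt_iff_isLittleO, Asymptotics.isLittleO_iff] at hL'
  have h4 := hL' hε0
  rw [eventually_nhdsWithin_iff, Metric.eventually_nhds_iff] at h4
  obtain ⟨δ2, hδ2, h5⟩ := h4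
  rw [Metric.eventually_nhds_iff]
  refine ⟨min δ1 (min (δ2 / 2) (1 / ((k : ℝ) + 1))), by positivity, ?_⟩
  intro y hy
  rw [dist_eq_norm] at hy
  have hy1 : ‖y - x‖ < δ1 := lt_of_lt_of_le hy (min_le_left _ _)
  have hy2 : ‖y - x‖ < δ2 / 2 :=
    lt_of_lt_of_le hy ((min_le_right _ _).trans (min_le_left _ _))
  have hy3 : ‖y - x‖ < 1 / ((k : ℝ) + 1) :=
    lt_of_lt_of_le hy ((min_le_right _ _).trans (min_le_right _ _))
  obtain ⟨y', hy's, hyy⟩ := h3 y hy1
  have hyy' : ‖y - y'‖ ≤ ‖y - x‖ := by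
    refine hyy.trans ?_
    have := mul_le_mul_of_nonneg_right hε1 (norm_nonneg (y - x))
    linarith
  have hy'x : ‖y' - x‖ ≤ 2 * ‖y - x‖ := by
    calc ‖y' - x‖ = ‖(y - x) - (y - y')‖ := by congr 1; abel
      _ ≤ ‖y - x‖ + ‖y - y'‖ := norm_sub_le _ _
      _ ≤ 2 * ‖y - x‖ := by linarith
  have h6 : ‖f y' - f x - L (y' - x)‖ ≤ ε * ‖y' - x‖ := by
    refine h5 ?_ hy's
    rw [dist_eq_norm]
    linarith
  have h7 : ‖f y - f y'‖ ≤ (k : ℝ) * ‖y - y'‖ := hy's.1 y (by linarith)
  have h8 : ‖L (y' - y)‖ ≤ ‖L‖ * ‖y - y'‖ := by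
    refine (L.le_opNorm _).trans ?_
    rw [norm_sub_rev]
  have h9 : f y - f x - L (y - x) = (f y - f y') + (f y' - f x - L (y' - x)) + L (y' - y) := by
    have h10 : L (y - x) = L (y' - x) - L (y' - y) := by
      rw [← map_sub]
      congr 1
      abel
    rw [h10]
    abel
  have hk0 : (0 : ℝ) ≤ k := Nat.cast_nonneg k
  have hn0 : 0 ≤ ‖y - x‖ := norm_nonneg _
  calc ‖f y - f x - L (y - x)‖ ≤ ‖f y - f y'‖ + ‖f y' - f x - L (y' - x)‖ + ‖L (y' - y)‖ := by
        rw [h9]
        exact norm_add₃_le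
    _ ≤ (k : ℝ) * (ε * ‖y - x‖) + ε * (2 * ‖y - x‖) + ‖L‖ * (ε * ‖y - x‖) := by
        refine add_le_add (add_le_add ?_ ?_) ?_
        · exact h7.trans (mul_le_mul_of_nonneg_left hyy hk0)
        · exact h6.trans (mul_le_mul_of_nonneg_left hy'x hε0.le)
        · exact h8.trans (mul_le_mul_of_nonneg_left hyy (norm_nonneg _))
    _ = (((k : ℝ) + 2 + ‖L‖) * ε) * ‖y - x‖ := by ring
    _ ≤ c * ‖y - x‖ := mul_le_mul_of_nonneg_right hε2 hn0

end QIG
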