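import Pool.Agent.W_a51130_h62.QSBall
import Pool.Agent.W_a51130_h62.Stepanov

/-!
A weakly quasisymmetric homeomorphism of `R^m` is differentiable almost everywhere.

PROOF.  Let `ν = volume.map f.symm`, so `ν A = volume (f '' A)` (homeomorphism; `ν` is locally finite,
since images of compact sets are compact).  By `Besicovitch.ae_tendsto_rnDeriv ν volume` and
`Measure.rnDeriv_lt_top`, for a.e. `x` the quotient `ν (closedBall x r) / vol (closedBall x r)` has a finite
limit as `r → 0+`, so it is `≤ M < ∞` for `0 < r < δ`.  By `qs_pow_le`,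
`‖f (x+v) - f x‖^m vol(B_1) ≤ H^m vol (f '' ball x ‖v‖) ≤ H^m M vol (closedBall x ‖v‖)
  = H^m M ‖v‖^m vol(B_1)` for `0 < ‖v‖ < δ`, hence `‖f (x+v) - f x‖ ≤ C ‖v‖` with `C = H M^(1/m)`.
Apply `stepanov`.
-/

namespace QIG

open MeasureTheory Metric Set Filter Topology

theorem qs_ae_differentiable {m : ℕ} (hm : 1 ≤ m) (f : E m ≃ₜ E m) {H : ℝ} (hH : 1 ≤ H)
    (hf : WQS f H) : ∀ᵐ x ∂(volume : Measure (E m)), DifferentiableAt ℝ f x := by
  set ν : Measure (E m) := (volume : Measure (E m)).map f.symm with hν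
  have hνA : ∀ A : Set (E m), MeasurableSet A → ν A = volume (f '' A) := by
    intro A hA
    rw [hν, Measure.map_apply f.symm.continuous.measurable hA]
    congr 1
    exact (f.image_eq_preimage_symm A).symm
  have : IsLocallyFiniteMeasure ν := by
    constructor
    intro x
    refine ⟨closedBall x 1, closedBall_mem_nhds x one_pos, ?_⟩
    rw [hνA _ measurableSet_closedBall]
    exact ((isCompact_closedBall x 1).image f.continuous).measure_lt_top
  have h1 := Besicovitch.ae_tendsto_rnDeriv ν (volume : Measure (E m))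
  have h2 := Measure.rnDeriv_lt_top ν (volume : Measure (E m))
  apply stepanov
  filter_upwards [h1, h2] with x hx1 hx2
  set M : ENNReal := ν.rnDeriv volume x + 1 with hM
  have hMtop : M ≠ ⊤ := by
    rw [hM]
    exact ENNReal.add_ne_top.2 ⟨hx2.ne, ENNReal.one_ne_top⟩
  have h3 : ∀ᶠ r in 𝓝[>] (0 : ℝ), ν (closedBall x r) / volume (closedBall x r) < M := by
    refine hx1.eventually_lt_const ?_
    exact ENNReal.lt_add_right hx2.ne one_ne_zero
  rw [eventually_nhdsWithin_iff, Metric.eventually_nhds_iff] at h3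
  obtain ⟨δ, hδ, h4⟩ := h3
  refine ⟨H * (M.toReal + 1), δ, hδ, ?_⟩
  intro y hy
  have hMr : 0 ≤ M.toReal := ENNReal.toReal_nonneg
  have hH0 : 0 ≤ H := by linarith
  rcases (norm_nonneg (y - x)).lt_or_eq with hr | hr
  swap
  · have h6 : y - x = 0 := by rw [← norm_eq_zero]; exact hr.symm
    have h7 : y = x := sub_eq_zero.1 h6
    rw [h7]
    simp
  set r : ℝ := ‖y - x‖ with hrdef
  have h5 : ν (closedBall x r) / volume (closedBall x r) < M :=
    h4 (by rw [Real.dist_eq, sub_zero, abs_of_pos hr]; exact hy) hr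
  have hV0 : volume (ball (0 : E m) 1) ≠ 0 := (measure_ball_pos _ _ one_pos).ne'
  have hVt : volume (ball (0 : E m) 1) ≠ ⊤ := measure_ball_lt_top.ne
  have hcb : volume (closedBall x r) = ENNReal.ofReal (r ^ m) * volume (ball (0 : E m) 1) := by
    rw [Measure.addHaar_closedBall _ _ hr.le, finrank_euclideanSpace_fin]
  have hcb0 : volume (closedBall x r) ≠ 0 := (measure_closedBall_pos _ _ hr).ne'
  have hcbt : volume (closedBall x r) ≠ ⊤ := measure_closedBall_lt_top.ne
  have h6 : ν (closedBall x r) ≤ M * volume (closedBall x r) := by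
    rw [← ENNReal.div_le_iff hcb0 hcbt]
    exact h5.le
  have h7 := qs_pow_le hm f hH hf x (y - x)
  rw [add_sub_cancel] at h7
  have h8 : volume (f '' ball x ‖y - x‖) ≤ ν (closedBall x r) := by
    rw [hνA _ measurableSet_closedBall]
    exact measure_mono (image_mono ball_subset_closedBall)
  have h9 : ENNReal.ofReal (‖f y - f x‖ ^ m) * volume (ball (0 : E m) 1) ≤
      ENNReal.ofReal (H ^ m * M.toReal * r ^ m) * volume (ball (0 : E m) 1) := by
    calc ENNReal.ofReal (‖f y - f x‖ ^ m) * volume (ball (0 : E m) 1)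
        ≤ ENNReal.ofReal (H ^ m) * (M * volume (closedBall x r)) :=
          h7.trans (mul_le_mul_right (h8.trans h6) _)
      _ = ENNReal.ofReal (H ^ m * M.toReal * r ^ m) * volume (ball (0 : E m) 1) := by
          rw [hcb, ENNReal.ofReal_mul (by positivity), ENNReal.ofReal_mul (by positivity),
            ENNReal.ofReal_toReal hMtop]
          ring
  have h10 : ‖f y - f x‖ ^ m ≤ H ^ m * M.toReal * r ^ m := by
    have h11 := (ENNReal.mul_le_mul_iff_left hV0 hVt).1 h9
    exact (ENNReal.ofReal_le_ofReal_iff (by positivity)).1 h11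
  have h12 : ‖f y - f x‖ ^ m ≤ (H * (M.toReal + 1) * r) ^ m := by
    refine h10.trans ?_
    rw [mul_pow, mul_pow]
    have h13 : M.toReal ≤ (M.toReal + 1) ^ m := by
      have h14 : (M.toReal + 1) ≤ (M.toReal + 1) ^ m :=
        le_self_pow₀ (by linarith) (by omega)
      linarith
    have h15 : H ^ m * M.toReal ≤ H ^ m * (M.toReal + 1) ^ m :=
      mul_le_mul_of_nonneg_left h13 (by positivity)
    exact mul_le_mul_of_nonneg_right h15 (by positivity)
  exact le_of_pow_le_pow_left₀ (by omega) (by positivity) h12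

end QIG
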