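import Pool.Agent.W_a51130_h62.QFc
import Pool.Agent.W_a51130_h62.LemQ
import Pool.Agent.W_a51130_h62.PcFlat
import Pool.Agent.W_a51130_h62.PcEscape

/-!
Quasi-flat theorem: every quasi-flat is uniformly close to one wall.

PROOF.  `K'` from `qf_QH`, `R` from `lemma_Q K'`.  Let `F` be a `K`-quasi-flat.  If for some `g` the first
alternative of Lemma Q holds we are done (with `⌈R⌉`).  Otherwise for all `g` the second alternative holds;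
`qf_piece` gives `g, i` and `γ_x ∈ Γ_i` with `wd (g⁻¹Fx) (of i γ_x) ≤ C`.  Apply `Piece.no_flat` to `D.P i`,
`Z x = γ_x` (with `r` from `Piece.exists_gset`): `h1`: `Gl.bal_of_wd`, `Piece.mem_bal_iff`; `h2`: `QFlat.low` and
`Gl.wd_of_le`; `h3`: `γ⁻¹ orb (Z x) = orb (γ⁻¹ Z x)`, `W.piece` for `of i (γ⁻¹ Z x)`, `W.lip`, `wd_mul_left` and the
projection bound of `qf_side` for the wall `g * of i γ`; `Ψ i` is bounded.
-/

namespace QIG

variable {m : ℕ} {D : Gl m} {A : AmalStr D.φ} {S : Set D.G}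

theorem quasi_flat (hm : 2 ≤ m) (hS : GSet S)
    (hgen : ∀ s ∈ S, ∃ (i : Fin 2) (γ : (D.P i).Γ), s = D.of i γ) (W : WallFn D A S)
    {K : ℝ} (hK : 1 ≤ K) : ∃ R : ℕ, ∀ F : E m → D.G, QFlat D S F K →
      ∃ g : D.G, ∀ x, D.dW S (g⁻¹ * F x) ≤ R := by
  obtain ⟨K', hK', hQF⟩ := qf_QH hS W hK
  obtain ⟨R, hR, hdich⟩ := lemma_Q hm hK'
  refine ⟨⌈R⌉₊, fun F hF => ?_⟩
  by_contra hcon
  push Not at hcon
  have hb : ∀ g : D.G, ∃ b : E m, ∀ x, ‖x - b‖ ≤ R * (1 + (D.dW S (g⁻¹ * F x) : ℝ)) := by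
    intro g
    rcases hdich _ _ (hQF F hF g) with h | h
    · exfalso
      obtain ⟨x, hx⟩ := hcon g
      have h1 : (D.dW S (g⁻¹ * F x) : ℝ) ≤ R := h x
      have h2 : D.dW S (g⁻¹ * F x) ≤ ⌈R⌉₊ := by
        exact_mod_cast h1.trans (Nat.le_ceil R)
      omega
    · exact h
  obtain ⟨C, hC⟩ := qf_piece hm hS hgen W hK R
  obtain ⟨g, i, hgi⟩ := hC F hF hb
  choose Z hZ using hgi
  obtain ⟨r, hr⟩ := (D.P i).exists_gset
  have hGr := hr r le_rfl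
  obtain ⟨N, hN⟩ := D.wd_of_le hS hGr
  obtain ⟨rb, hrb⟩ := D.bal_of_wd hS (C + ⌊2 * K⌋₊ + C)
  obtain ⟨ρ, C₀, -, hside⟩ := qf_side hm hS hgen W hK R
  have hZ' : ∀ x, wd S (D.of i (Z x)) (g⁻¹ * F x) ≤ C := fun x => by
    rw [wd_comm hS]
    exact hZ x
  have hWC := W.hC
  -- constants
  set C₁ : ℝ := K * (1 + 2 * C + N) with hC₁
  set C₂ : ℝ := ‖(D.Ψ i : E m →L[ℝ] E m)‖ * (2 * W.C + 2 * (W.C * C) + C₀) with hC₂
  refine (D.P i).no_flat hm hGr Z (max rb (max C₁ C₂)) ?_ ?_ ?_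
  · intro x y hxy
    refine le_trans ?_ (le_max_left _ _)
    rw [← (D.P i).mem_bal_iff]
    refine hrb i _ _ ?_
    have h1 := wd_triangle hS (D.of i (Z x)) (g⁻¹ * F x) (D.of i (Z y))
    have h2 := wd_triangle hS (g⁻¹ * F x) (g⁻¹ * F y) (D.of i (Z y))
    have h3 : wd S (g⁻¹ * F x) (g⁻¹ * F y) ≤ ⌊2 * K⌋₊ := by
      rw [wd_mul_left]
      refine Nat.le_floor ((hF.up x y).trans ?_)
      nlinarith
    have h4 := hZ' x
    have h5 := hZ y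
    omega
  · intro x y
    have h1 := wd_triangle hS (g⁻¹ * F x) (D.of i (Z x)) (g⁻¹ * F y)
    have h2 := wd_triangle hS (D.of i (Z x)) (D.of i (Z y)) (g⁻¹ * F y)
    have h3 := hZ x
    have h4 := hZ' y
    have h5 := hN (Z x) (Z y)
    have h6 : wd S (F x) (F y) ≤ 2 * C + N * wd ((D.P i).bal r) (Z x) (Z y) := by
      rw [← wd_mul_left S g⁻¹ (F x) (F y)]
      omega
    have h7 : (wd S (F x) (F y) : ℝ) ≤ 2 * C + N * wd ((D.P i).bal r) (Z x) (Z y) := by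
      exact_mod_cast h6
    have h8 : (0 : ℝ) ≤ (wd ((D.P i).bal r) (Z x) (Z y) : ℝ) := Nat.cast_nonneg _
    have h9 : (0 : ℝ) ≤ (C : ℝ) := Nat.cast_nonneg _
    have h10 : (0 : ℝ) ≤ (N : ℝ) := Nat.cast_nonneg _
    calc ‖x - y‖ ≤ K * (1 + (wd S (F x) (F y) : ℝ)) := hF.low x y
      _ ≤ K * ((1 + 2 * C + N) * (1 + wd ((D.P i).bal r) (Z x) (Z y))) := by
          refine mul_le_mul_of_nonneg_left ?_ (by linarith)
          nlinarith [mul_nonneg h9 h8]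
      _ = C₁ * (1 + wd ((D.P i).bal r) (Z x) (Z y)) := by rw [hC₁]; ring
      _ ≤ max rb (max C₁ C₂) * (1 + wd ((D.P i).bal r) (Z x) (Z y)) := by
          refine mul_le_mul_of_nonneg_right ?_ (by linarith)
          exact (le_max_left _ _).trans (le_max_right _ _)
  · intro γ x y
    refine le_trans ?_ ((le_max_right C₁ C₂).trans (le_max_right _ _))
    have horb : ∀ z, γ.1⁻¹ ((D.P i).orb (Z z)) = (D.P i).orb (γ⁻¹ * Z z) := fun z => rfl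
    rw [horb, horb]
    obtain ⟨b, hb'⟩ := hb (g * D.of i γ)
    have h1 := (hside F hF (g * D.of i γ) b hb').2 x y
    have h2 : ∀ z, ‖W.Φ (D.of i (γ⁻¹ * Z z)) - W.Φ ((g * D.of i γ)⁻¹ * F z)‖ ≤ W.C * C := by
      intro z
      refine (W.lip hS _ _).trans ?_
      have h3 : wd S (D.of i (γ⁻¹ * Z z)) ((g * D.of i γ)⁻¹ * F z) ≤ C := by
        have e : (g * D.of i γ)⁻¹ * F z = D.of i γ⁻¹ * (g⁻¹ * F z) := by
          rw [map_inv]
          group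
        rw [e, map_mul, wd_mul_left]
        exact hZ' z
      have h4 : (wd S (D.of i (γ⁻¹ * Z z)) ((g * D.of i γ)⁻¹ * F z) : ℝ) ≤ C := by
        exact_mod_cast h3
      exact mul_le_mul_of_nonneg_left h4 (by linarith)
    have h3 := fun z => W.piece i (γ⁻¹ * Z z)
    have h4 : ‖(D.Ψ i).symm ((D.P i).orb (γ⁻¹ * Z x)).u -
        (D.Ψ i).symm ((D.P i).orb (γ⁻¹ * Z y)).u‖ ≤ 2 * W.C + 2 * (W.C * C) + C₀ := by
      have e : (D.Ψ i).symm ((D.P i).orb (γ⁻¹ * Z x)).u -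
          (D.Ψ i).symm ((D.P i).orb (γ⁻¹ * Z y)).u =
          -(W.Φ (D.of i (γ⁻¹ * Z x)) - (D.Ψ i).symm ((D.P i).orb (γ⁻¹ * Z x)).u) +
          (W.Φ (D.of i (γ⁻¹ * Z x)) - W.Φ ((g * D.of i γ)⁻¹ * F x)) +
          (W.Φ ((g * D.of i γ)⁻¹ * F x) - W.Φ ((g * D.of i γ)⁻¹ * F y)) +
          -(W.Φ (D.of i (γ⁻¹ * Z y)) - W.Φ ((g * D.of i γ)⁻¹ * F y)) +
          (W.Φ (D.of i (γ⁻¹ * Z y)) - (D.Ψ i).symm ((D.P i).orb (γ⁻¹ * Z y)).u) := by abel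
      rw [e]
      refine (norm_add_le _ _).trans ?_
      have a1 := norm_add_le (-(W.Φ (D.of i (γ⁻¹ * Z x)) -
          (D.Ψ i).symm ((D.P i).orb (γ⁻¹ * Z x)).u) +
          (W.Φ (D.of i (γ⁻¹ * Z x)) - W.Φ ((g * D.of i γ)⁻¹ * F x)) +
          (W.Φ ((g * D.of i γ)⁻¹ * F x) - W.Φ ((g * D.of i γ)⁻¹ * F y)))
          (-(W.Φ (D.of i (γ⁻¹ * Z y)) - W.Φ ((g * D.of i γ)⁻¹ * F y)))
      have a2 := norm_add_le (-(W.Φ (D.of i (γ⁻¹ * Z x)) -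
          (D.Ψ i).symm ((D.P i).orb (γ⁻¹ * Z x)).u) +
          (W.Φ (D.of i (γ⁻¹ * Z x)) - W.Φ ((g * D.of i γ)⁻¹ * F x)))
          (W.Φ ((g * D.of i γ)⁻¹ * F x) - W.Φ ((g * D.of i γ)⁻¹ * F y))
      have a3 := norm_add_le (-(W.Φ (D.of i (γ⁻¹ * Z x)) -
          (D.Ψ i).symm ((D.P i).orb (γ⁻¹ * Z x)).u))
          (W.Φ (D.of i (γ⁻¹ * Z x)) - W.Φ ((g * D.of i γ)⁻¹ * F x))
      rw [norm_neg] at a1 a3
      have b1 := h2 x
      have b2 := h2 y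
      have b3 := h3 x
      have b4 := h3 y
      linarith
    have h5 : ((D.P i).orb (γ⁻¹ * Z x)).u - ((D.P i).orb (γ⁻¹ * Z y)).u =
        (D.Ψ i : E m →L[ℝ] E m) ((D.Ψ i).symm ((D.P i).orb (γ⁻¹ * Z x)).u -
        (D.Ψ i).symm ((D.P i).orb (γ⁻¹ * Z y)).u) := by
      rw [map_sub]
      simp
    rw [h5]
    refine (ContinuousLinearMap.le_opNorm _ _).trans ?_
    exact mul_le_mul_of_nonneg_left h4 (norm_nonneg _)

end QIG
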