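import Pool.Agent.W_a51130_h62.PMap
import Pool.Agent.W_a51130_h62.BdPack
import Pool.Agent.W_a51130_h62.ConfThm
import Pool.Agent.W_a51130_h62.Lin

/-!
Rigidity of the gluing map.

PROOF.  `exists_piece_maps`: `τ, F, F', ω, C`.  Let `w_i(v)` be the translation vector of `F_i(φ_i v)`,
`‖w_i(v) - Ψ'_(τ i)(ω v)‖ ≤ C`.  From `PieceMap.lat`: `F_i(φ_i v') = F_i(φ_i v · φ_i(v'-v))`, and `φ_i u = (P i).tr (..)`, gives
`‖w_i v - w_i v'‖ ≤ K(1+‖Ψ_i(v-v')‖)`; so `ω` is coarsely Lipschitz; from `PieceMap.inv`, `lat'` (apply `F'_0`) it is coarsely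
bi-Lipschitz.  Extend to `ω̃ : E m → E m`, `ω̃ x = ω [x]` with `[x]` a nearest lattice vector, and apply
`exists_linear_approx`: `A`.
`i = 0`: `f_0` from `exists_boundary` for `F_0`.  `‖f_0 x - w_0([x])‖ ≤ C`, so `f_0` is close to `Ψ'_(τ 0) ω̃`, and satisfies
the hypothesis `happ` of `conformality` for `Ψ'_(τ 0) A` (given `δ`, take `δ' = δ/(2(‖Ψ'‖+1))` and `R₀` large to absorb
the constants).  So `A₀ := Ψ'_(τ 0) A` is a similarity (`shiftPack` with a lattice basis, `gapPack`, `Q_countable`).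
`i = 1`: `f_1(Ψ_1 v) ≈ w_1(v) ≈ Ψ'_(τ 1) ω v`, so `f_1` is close to `Ψ'_(τ 1) A Ψ_1⁻¹` on the images under `Ψ_1` of large
balls (which contain balls of comparable radius): `A₁ := Ψ'_(τ 1) A Ψ_1⁻¹` is a similarity.
`A₁ Ψ_1 = Ψ'_(τ 1) A = Ψ'_(τ 1) Ψ'_(τ 0)⁻¹ A₀`.
-/

namespace QIG

variable {m : ℕ}

/-- the lattice vector of the `i`-th piece belonging to a lattice vector of the wall -/
def Gl.rgdLat (D : Gl m) (i : Fin 2) (v : (D.P 0).lat) : (D.P i).lat :=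
  ⟨D.Ψ i (v : E m), by
    change transl (D.Ψ i (v : E m)) ∈ (D.P i).Γ
    rw [← D.hΨ i v]
    exact (glueMap D.P D.ψ i (Multiplicative.ofAdd v)).2⟩

theorem Gl.rgd_φ (D : Gl m) (i : Fin 2) (v : (D.P 0).lat) :
    D.φ i (Multiplicative.ofAdd v) = (D.P i).tr (D.rgdLat i v) := by
  apply Subtype.ext
  exact D.hΨ i v

/-- a coarse bi-Lipschitz estimate for the translation vectors of a piece map -/
theorem rgd_piece {P P' : Piece m} {F : P.Γ → P'.Γ} {F' : P'.Γ → P.Γ} (hF : PieceMap P P' F F') :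
    ∃ K : ℝ, 0 ≤ K ∧ ∀ (v v' : P.lat) (w w' : E m), (F (P.tr v)).1 = transl w →
      (F (P.tr v')).1 = transl w' → ‖w - w'‖ ≤ K * (1 + ‖(v : E m) - v'‖) ∧
        ‖(v : E m) - v'‖ ≤ K * (1 + ‖w - w'‖) := by
  obtain ⟨K, hK⟩ := hF.lat
  obtain ⟨K', hK'⟩ := hF.lat'
  obtain ⟨r, hr⟩ := hF.inv
  have hv1 : ∀ (v v' : P.lat) (w w' : E m), (F (P.tr v)).1 = transl w →
      (F (P.tr v')).1 = transl w' → ∃ u : P'.lat, F (P.tr v) = F (P.tr v') * P'.tr u ∧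
        (u : E m) = w - w' ∧ ‖(u : E m)‖ ≤ K * (1 + ‖(v : E m) - v'‖) := by
    intro v v' w w' hw hw'
    obtain ⟨u, hu, hun⟩ := hK (P.tr v') (v - v')
    have h1 : P.tr v' * P.tr (v - v') = P.tr v := by
      rw [← P.tr_add]
      congr 1
      abel
    rw [h1] at hu
    refine ⟨u, hu, ?_, by simpa using hun⟩
    have h2 := congrArg Subtype.val hu
    rw [hw, Subgroup.coe_mul, hw'] at h2
    have h3 : (P'.tr u).1 = transl (u : E m) := rfl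
    rw [h3, ← transl_add] at h2
    have h4 := transl_injective h2
    rw [h4]
    abel
  have hv2 : ∀ g : P.Γ, ∃ e : P.lat, F' (F g) = g * P.tr e ∧ ‖(e : E m)‖ ≤ Real.exp r := by
    intro g
    obtain ⟨h1, h2⟩ := hr g
    obtain ⟨e, he⟩ := (P.par_iff _).mp h1
    refine ⟨e, by rw [← he]; group, ?_⟩
    rw [he] at h2
    have h3 : hd (P.orb (P.tr e)) (base m) ≤ r := h2
    have h4 : P.orb (P.tr e) = ⟨(e : E m), 1, one_pos⟩ := by
      apply HPt.ext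
      · change (0 : E m) + (e : E m) = e
        simp
      · rfl
    rw [h4] at h3
    unfold hd q base at h3
    simp only [sub_zero, one_pow, mul_one, div_one] at h3
    have h5 : (0 : ℝ) < ‖(e : E m)‖ ^ 2 + 1 + 1 := by positivity
    have h6 := (Real.log_le_iff_le_exp h5).mp h3
    nlinarith [sq_nonneg (‖(e : E m)‖ - 1), norm_nonneg (e : E m)]
  refine ⟨|K| + |K'| + 2 * Real.exp r, by positivity, ?_⟩
  intro v v' w w' hw hw'
  obtain ⟨u, hu, huw, hun⟩ := hv1 v v' w w' hw hw'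
  have hn0 : 0 ≤ ‖(v : E m) - v'‖ := norm_nonneg _
  have hn1 : 0 ≤ ‖w - w'‖ := norm_nonneg _
  have he0 : 0 < Real.exp r := Real.exp_pos r
  refine ⟨?_, ?_⟩
  · rw [← huw]
    refine hun.trans ?_
    have := le_abs_self K
    have h2 := abs_nonneg K'
    exact mul_le_mul_of_nonneg_right (by linarith) (by linarith)
  · obtain ⟨u', hu', hun'⟩ := hK' (F (P.tr v')) u
    rw [← hu] at hu'
    obtain ⟨e, he, hen⟩ := hv2 (P.tr v)
    obtain ⟨e', he', hen'⟩ := hv2 (P.tr v')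
    rw [he, he', ← P.tr_add, ← P.tr_add, ← P.tr_add] at hu'
    have h2 := congrArg Subtype.val hu'
    have h3 : (v : E m) + e = v' + e' + u' := transl_injective h2
    have h4 : (v : E m) - v' = u' + e' - e := by
      have : (v : E m) = v' + e' + u' - e := by rw [← h3]; abel
      rw [this]; abel
    rw [h4]
    rw [huw] at hun'
    have h5 := norm_sub_le ((u' : E m) + e') e
    have h6 := norm_add_le (u' : E m) e'
    have h7 := le_abs_self K'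
    have h8 := abs_nonneg K
    have h9 : K' * (1 + ‖w - w'‖) ≤ |K'| * (1 + ‖w - w'‖) :=
      mul_le_mul_of_nonneg_right h7 (by linarith)
    nlinarith [mul_nonneg h8 hn1, mul_nonneg he0.le hn1]

/-- The linear approximations of the boundary map of a piece. -/
theorem rgd_sim (hm : 2 ≤ m) {P P' : Piece m} {F : P.Γ → P'.Γ} {F' : P'.Γ → P.Γ}
    (hF : PieceMap P P' F F') {L₀ : AddSubgroup (E m)} (Ψ Ψ' : E m ≃L[ℝ] E m)
    (e : L₀ → P.lat) (he : ∀ v, (e v : E m) = Ψ v) (ω : L₀ → E m) {C₀ : ℝ}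
    (hω : ∀ v, ∃ w : E m, (F (P.tr (e v))).1 = transl w ∧ ‖w - Ψ' (ω v)‖ ≤ C₀)
    (nv : E m → L₀) {ρ : ℝ} (hρ : ∀ x, ‖x - nv x‖ ≤ ρ) (A : E m →L[ℝ] E m)
    (hA : Function.Injective A)
    (happ : ∀ δ : ℝ, 0 < δ → ∀ R₀ : ℝ,
      ∃ (x₀ c : E m) (R : ℝ), 0 < R ∧ R₀ ≤ R ∧
        ∀ x, ‖x - x₀‖ ≤ R → ‖ω (nv x) - c - A (x - x₀)‖ ≤ δ * R) :
    ∃ σ : ℝ, 0 < σ ∧ ∀ x, ‖Ψ' (A (Ψ.symm x))‖ = σ * ‖x‖ := by
  obtain ⟨f, H, hH, hf, hp, hb⟩ := exists_boundary (by omega) hF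
  obtain ⟨b, hbb⟩ := P.exists_basis
  set L : ℝ := ‖(Ψ : E m →L[ℝ] E m)‖ + ‖(Ψ.symm : E m →L[ℝ] E m)‖ +
    ‖(Ψ' : E m →L[ℝ] E m)‖ + 1 with hL
  have hL1 : 1 ≤ L := by
    rw [hL]
    have h1 := norm_nonneg (Ψ : E m →L[ℝ] E m)
    have h2 := norm_nonneg (Ψ.symm : E m →L[ℝ] E m)
    have h3 := norm_nonneg (Ψ' : E m →L[ℝ] E m)
    linarith
  have hΨ1 : ∀ x, ‖Ψ x‖ ≤ L * ‖x‖ := fun x => by
    refine ((Ψ : E m →L[ℝ] E m).le_opNorm x).trans (mul_le_mul_of_nonneg_right ?_ (norm_nonneg _))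
    have h2 := norm_nonneg (Ψ.symm : E m →L[ℝ] E m)
    have h3 := norm_nonneg (Ψ' : E m →L[ℝ] E m)
    linarith
  have hΨ2 : ∀ x, ‖Ψ.symm x‖ ≤ L * ‖x‖ := fun x => by
    refine ((Ψ.symm : E m →L[ℝ] E m).le_opNorm x).trans
      (mul_le_mul_of_nonneg_right ?_ (norm_nonneg _))
    have h2 := norm_nonneg (Ψ : E m →L[ℝ] E m)
    have h3 := norm_nonneg (Ψ' : E m →L[ℝ] E m)
    linarith
  have hΨ3 : ∀ x, ‖Ψ' x‖ ≤ L * ‖x‖ := fun x => by
    refine ((Ψ' : E m →L[ℝ] E m).le_opNorm x).trans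
      (mul_le_mul_of_nonneg_right ?_ (norm_nonneg _))
    have h2 := norm_nonneg (Ψ : E m →L[ℝ] E m)
    have h3 := norm_nonneg (Ψ.symm : E m →L[ℝ] E m)
    linarith
  have hL0 : 0 < L := by linarith
  obtain ⟨C₁, hC₁⟩ := hb (L * ρ)
  let B : E m →L[ℝ] E m := ((Ψ' : E m →L[ℝ] E m).comp A).comp (Ψ.symm : E m →L[ℝ] E m)
  have hB : ∀ x, B x = Ψ' (A (Ψ.symm x)) := fun x => rfl
  have hBi : Function.Injective B := by
    intro x y hxy
    rw [hB, hB] at hxy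
    exact Ψ.symm.injective (hA (Ψ'.injective hxy))
  obtain ⟨σ, hσ, hs⟩ := conformality hm P.Q_countable b (P.shiftPack (by omega) b hbb) P'.gapPack f hH hf hp
    B hBi (by
      intro δ hδ
      obtain ⟨x₀, c, R, hR, hR₀, hx⟩ := happ (δ / (2 * L ^ 2)) (by positivity)
        (2 * L * (C₀ + C₁) / δ)
      refine ⟨Ψ x₀, Ψ' c, R / L, by positivity, ?_⟩
      intro y hy
      have e1 : ‖Ψ.symm y - x₀‖ ≤ R := by
        have e2 : Ψ.symm y - x₀ = Ψ.symm (y - Ψ x₀) := by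
          rw [map_sub, ContinuousLinearEquiv.symm_apply_apply]
        rw [e2]
        refine (hΨ2 _).trans ?_
        calc L * ‖y - Ψ x₀‖ ≤ L * (R / L) := mul_le_mul_of_nonneg_left hy hL0.le
          _ = R := by field_simp
      have e3 := hx _ e1
      obtain ⟨w, hw, hwn⟩ := hω (nv (Ψ.symm y))
      have e4 : ‖f y - w‖ ≤ C₁ := by
        refine hC₁ (e (nv (Ψ.symm y))) y ?_ w hw
        rw [he]
        have e5 : y - Ψ (nv (Ψ.symm y) : E m) = Ψ (Ψ.symm y - (nv (Ψ.symm y) : E m)) := by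
          rw [map_sub, ContinuousLinearEquiv.apply_symm_apply]
        rw [e5]
        exact (hΨ1 _).trans (mul_le_mul_of_nonneg_left (hρ _) hL0.le)
      have e6 : f y - Ψ' c - B (y - Ψ x₀) = (f y - w) + (w - Ψ' (ω (nv (Ψ.symm y)))) +
          Ψ' (ω (nv (Ψ.symm y)) - c - A (Ψ.symm y - x₀)) := by
        rw [hB, map_sub Ψ.symm, ContinuousLinearEquiv.symm_apply_apply]
        simp only [map_sub]
        abel
      rw [e6]
      have e7 := norm_add_le ((f y - w) + (w - Ψ' (ω (nv (Ψ.symm y)))))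
        (Ψ' (ω (nv (Ψ.symm y)) - c - A (Ψ.symm y - x₀)))
      have e8 := norm_add_le (f y - w) (w - Ψ' (ω (nv (Ψ.symm y))))
      have e9 : ‖Ψ' (ω (nv (Ψ.symm y)) - c - A (Ψ.symm y - x₀))‖ ≤ δ * (R / L) / 2 := by
        refine (hΨ3 _).trans ((mul_le_mul_of_nonneg_left e3 hL0.le).trans (le_of_eq ?_))
        field_simp
      have e10 : C₀ + C₁ ≤ δ * (R / L) / 2 := by
        rw [div_le_iff₀ hδ] at hR₀
        have e11 : δ * (R / L) / 2 = R * δ / (2 * L) := by field_simp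
        rw [e11, le_div_iff₀ (by positivity)]
        linarith
      linarith)
  exact ⟨σ, hσ, fun x => by rw [← hB]; exact hs x⟩

theorem rigidity (hm : 2 ≤ m) (D D' : Gl m) (h : QuasiIsom D.G D'.G) :
    ∃ (τ : Equiv.Perm (Fin 2)) (A₀ A₁ : E m →L[ℝ] E m) (σ₀ σ₁ : ℝ), 0 < σ₀ ∧ 0 < σ₁ ∧
      (∀ x, ‖A₀ x‖ = σ₀ * ‖x‖) ∧ (∀ x, ‖A₁ x‖ = σ₁ * ‖x‖) ∧
      ∀ x, D'.Ψ (τ 1) ((D'.Ψ (τ 0)).symm (A₀ x)) = A₁ (D.Ψ 1 x) := by
  obtain ⟨τ, F, F', ω, C₀, hPM, hω⟩ := exists_piece_maps hm D D' h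
  have hω' : ∀ (i : Fin 2) (v : (D.P 0).lat), ∃ w : E m,
      (F i ((D.P i).tr (D.rgdLat i v))).1 = transl w ∧ ‖w - D'.Ψ (τ i) (ω v)‖ ≤ C₀ := by
    intro i v
    have := hω i v
    rwa [D.rgd_φ i v] at this
  -- coarse bi-Lipschitz estimate for `ω`
  obtain ⟨K, hK0, hK⟩ := rgd_piece (hPM 0)
  set M : ℝ := ‖(D'.Ψ (τ 0) : E m →L[ℝ] E m)‖ + ‖((D'.Ψ (τ 0)).symm : E m →L[ℝ] E m)‖ with hM
  have hM1 : ∀ x, ‖D'.Ψ (τ 0) x‖ ≤ M * ‖x‖ := fun x => by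
    refine ((D'.Ψ (τ 0) : E m →L[ℝ] E m).le_opNorm x).trans
      (mul_le_mul_of_nonneg_right ?_ (norm_nonneg _))
    have h2 := norm_nonneg ((D'.Ψ (τ 0)).symm : E m →L[ℝ] E m)
    linarith
  have hM2 : ∀ x, ‖x‖ ≤ M * ‖D'.Ψ (τ 0) x‖ := fun x => by
    have h1 := ((D'.Ψ (τ 0)).symm : E m →L[ℝ] E m).le_opNorm (D'.Ψ (τ 0) x)
    have h3 : ((D'.Ψ (τ 0)).symm : E m →L[ℝ] E m) (D'.Ψ (τ 0) x) = x :=
      (D'.Ψ (τ 0)).symm_apply_apply x
    rw [h3] at h1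
    refine h1.trans (mul_le_mul_of_nonneg_right ?_ (norm_nonneg _))
    have h2 := norm_nonneg (D'.Ψ (τ 0) : E m →L[ℝ] E m)
    linarith
  have hM0 : 0 ≤ M := by positivity
  have hC₀ : 0 ≤ C₀ := by
    obtain ⟨w, -, hw⟩ := hω' 0 0
    exact (norm_nonneg _).trans hw
  have hbi : ∃ K₁ : ℝ, 0 ≤ K₁ ∧ ∀ v v' : (D.P 0).lat,
      ‖ω v - ω v'‖ ≤ K₁ * (‖(v : E m) - v'‖ + 1) ∧ ‖(v : E m) - v'‖ ≤ K₁ * (‖ω v - ω v'‖ + 1) := by
    refine ⟨M * (K + 2 * C₀) + K * (1 + M + 2 * C₀), by positivity, ?_⟩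
    intro v v'
    obtain ⟨w, hw, hwn⟩ := hω' 0 v
    obtain ⟨w', hw', hwn'⟩ := hω' 0 v'
    obtain ⟨h1, h2⟩ := hK _ _ w w' hw hw'
    have h3 : (D.rgdLat 0 v : E m) = v := D.hΨ0 _
    have h4 : (D.rgdLat 0 v' : E m) = v' := D.hΨ0 _
    rw [h3, h4] at h1 h2
    have n1 : 0 ≤ ‖(v : E m) - v'‖ := norm_nonneg _
    have n2 : 0 ≤ ‖ω v - ω v'‖ := norm_nonneg _
    have h5 : ‖D'.Ψ (τ 0) (ω v - ω v')‖ ≤ ‖w - w'‖ + 2 * C₀ := by
      have e1 : D'.Ψ (τ 0) (ω v - ω v') = (w - w') - (w - D'.Ψ (τ 0) (ω v)) +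
          (w' - D'.Ψ (τ 0) (ω v')) := by
        rw [map_sub]; abel
      rw [e1]
      have e2 := norm_add_le ((w - w') - (w - D'.Ψ (τ 0) (ω v))) (w' - D'.Ψ (τ 0) (ω v'))
      have e3 := norm_sub_le (w - w') (w - D'.Ψ (τ 0) (ω v))
      linarith
    have h6 : ‖w - w'‖ ≤ M * ‖ω v - ω v'‖ + 2 * C₀ := by
      have e1 : w - w' = D'.Ψ (τ 0) (ω v - ω v') + (w - D'.Ψ (τ 0) (ω v)) -
          (w' - D'.Ψ (τ 0) (ω v')) := by
        rw [map_sub]; abel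
      rw [e1]
      have e2 := norm_sub_le (D'.Ψ (τ 0) (ω v - ω v') + (w - D'.Ψ (τ 0) (ω v)))
        (w' - D'.Ψ (τ 0) (ω v'))
      have e3 := norm_add_le (D'.Ψ (τ 0) (ω v - ω v')) (w - D'.Ψ (τ 0) (ω v))
      have e4 := hM1 (ω v - ω v')
      linarith
    constructor
    · have e1 := hM2 (ω v - ω v')
      have e2 : M * ‖D'.Ψ (τ 0) (ω v - ω v')‖ ≤ M * (K * (1 + ‖(v : E m) - v'‖) + 2 * C₀) :=
        mul_le_mul_of_nonneg_left (by linarith) hM0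
      refine (e1.trans e2).trans ?_
      have e3 : 0 ≤ M * C₀ * ‖(v : E m) - v'‖ := by positivity
      have e4 : 0 ≤ K * (1 + M + 2 * C₀) * (‖(v : E m) - v'‖ + 1) := by positivity
      nlinarith
    · have e2 : K * (1 + ‖w - w'‖) ≤ K * (1 + (M * ‖ω v - ω v'‖ + 2 * C₀)) :=
        mul_le_mul_of_nonneg_left (by linarith) hK0
      refine (h2.trans e2).trans ?_
      have e3 : 0 ≤ M * (K + 2 * C₀) * (‖ω v - ω v'‖ + 1) := by positivity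
      have e4 : 0 ≤ K * (1 + 2 * C₀) * ‖ω v - ω v'‖ := by positivity
      have e5 : 0 ≤ K * M := by positivity
      nlinarith
  obtain ⟨K₁, hK₁, hbi⟩ := hbi
  obtain ⟨ρ, hρ0, hρ⟩ := (D.P 0).lat_cover
  choose nv hnv using hρ
  have hnn : ∀ x y : E m, ‖(nv x : E m) - nv y‖ ≤ ‖x - y‖ + 2 * ρ ∧
      ‖x - y‖ ≤ ‖(nv x : E m) - nv y‖ + 2 * ρ := by
    intro x y
    have h1 := hnv x
    have h2 := hnv y
    constructor
    · have e1 : (nv x : E m) - nv y = (x - y) - (x - nv x) + (y - nv y) := by abel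
      rw [e1]
      have e2 := norm_add_le ((x - y) - (x - nv x)) (y - nv y)
      have e3 := norm_sub_le (x - y) (x - nv x)
      linarith
    · have e1 : x - y = ((nv x : E m) - nv y) + (x - nv x) - (y - nv y) := by abel
      have e2 := norm_sub_le (((nv x : E m) - nv y) + (x - nv x)) (y - nv y)
      have e3 := norm_add_le ((nv x : E m) - nv y) (x - nv x)
      rw [← e1] at e2
      linarith
  obtain ⟨A, hAi, happ⟩ := exists_linear_approx (fun x => ω (nv x))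
    (K := K₁ * (2 * ρ + 1) + 2 * ρ)
    (by
      intro x y
      have h1 := (hbi (nv x) (nv y)).1
      have h2 := (hnn x y).1
      have h3 : K₁ * (‖(nv x : E m) - nv y‖ + 1) ≤ K₁ * (‖x - y‖ + 2 * ρ + 1) :=
        mul_le_mul_of_nonneg_left (by linarith) hK₁
      refine (h1.trans h3).trans ?_
      have n1 : 0 ≤ ‖x - y‖ := norm_nonneg _
      have e3 : 0 ≤ K₁ * ρ * ‖x - y‖ := by positivity
      have e4 : 0 ≤ ρ * (‖x - y‖ + 1) := by positivity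
      nlinarith)
    (by
      intro x y
      have h1 := (hbi (nv x) (nv y)).2
      have h2 := (hnn x y).2
      have n1 : 0 ≤ ‖ω (nv x) - ω (nv y)‖ := norm_nonneg _
      have e3 : 0 ≤ K₁ * ρ * (‖ω (nv x) - ω (nv y)‖ + 1) := by positivity
      have e4 : 0 ≤ ρ * ‖ω (nv x) - ω (nv y)‖ := by positivity
      nlinarith)
  have key : ∀ i : Fin 2, ∃ σ : ℝ, 0 < σ ∧ ∀ x, ‖D'.Ψ (τ i) (A ((D.Ψ i).symm x))‖ = σ * ‖x‖ :=
    fun i => rgd_sim hm (hPM i) (D.Ψ i) (D'.Ψ (τ i)) (D.rgdLat i) (fun v => rfl) ω (hω' i) nv hnv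
      A hAi happ
  obtain ⟨σ₀, hσ₀, h0⟩ := key 0
  obtain ⟨σ₁, hσ₁, h1⟩ := key 1
  refine ⟨τ, (((D'.Ψ (τ 0) : E m →L[ℝ] E m)).comp A).comp ((D.Ψ 0).symm : E m →L[ℝ] E m),
    (((D'.Ψ (τ 1) : E m →L[ℝ] E m)).comp A).comp ((D.Ψ 1).symm : E m →L[ℝ] E m),
    σ₀, σ₁, hσ₀, hσ₁, h0, h1, ?_⟩
  intro x
  have e0 : (D.Ψ 0).symm x = x := by
    rw [ContinuousLinearEquiv.symm_apply_eq]
    exact (D.hΨ0 x).symm
  simp only [ContinuousLinearMap.comp_apply, ContinuousLinearEquiv.coe_coe,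
    ContinuousLinearEquiv.symm_apply_apply, e0]

end QIG
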