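import Pool.Agent.W_a51130_h62.Defs

/-!
MP_a51130_gt: the notions of the final statement (besides `HPt`, `chd`, `transl`, `Piece` and
`QuasiIsom` of `Defs.lean`).
-/

namespace QIG

open Monoid ComplexConjugate

variable {m : ℕ}

/-- The group `Γ` of a piece. -/
def Piece.Grp (P : Piece m) : Type := P.Γ

noncomputable instance Piece.grpGroup (P : Piece m) : Group P.Grp := P.Γ.toGroup

/-- `g` acts on the upper half space as the translation by `v`. -/
def Piece.IsTr (P : Piece m) (g : P.Grp) (v : E m) : Prop := g.1 = transl v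

theorem Piece.isTr_mul (P : Piece m) {g h : P.Grp} (hg : ∃ v, P.IsTr g v)
    (hh : ∃ v, P.IsTr h v) : ∃ v, P.IsTr (g * h) v := by
  obtain ⟨v, hv⟩ := hg
  obtain ⟨w, hw⟩ := hh
  refine ⟨v + w, ?_⟩
  change g.1 * h.1 = transl (v + w)
  rw [hv, hw, transl_add]

theorem Piece.isTr_one (P : Piece m) : ∃ v, P.IsTr 1 v := ⟨0, transl_zero.symm⟩

theorem Piece.isTr_inv (P : Piece m) {g : P.Grp} (hg : ∃ v, P.IsTr g v) :
    ∃ v, P.IsTr g⁻¹ v := by
  obtain ⟨v, hv⟩ := hg
  refine ⟨-v, ?_⟩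
  change g.1⁻¹ = transl (-v)
  rw [hv, transl_neg]

/-- The cusp subgroup of a piece: the elements of `Γ` which are translations, i.e. the fundamental
group of the boundary torus of the truncated manifold. -/
def Piece.cuspGroup (P : Piece m) : Subgroup P.Grp where
  carrier := {g | ∃ v, P.IsTr g v}
  mul_mem' := P.isTr_mul
  one_mem' := P.isTr_one
  inv_mem' := P.isTr_inv

/-- The cusp subgroup as a type. -/
def Piece.Cusp (P : Piece m) : Type := P.cuspGroup

noncomputable instance Piece.cuspInst (P : Piece m) : Group P.Cusp := P.cuspGroup.toGroup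

/-- The inclusion of the cusp subgroup. -/
noncomputable def Piece.incl (P : Piece m) : P.Cusp →* P.Grp := P.cuspGroup.subtype

/-- The two inclusions of the cusp subgroup of `P 0` defined by a gluing map `ψ`. -/
noncomputable def gluing (P : Fin 2 → Piece m) (ψ : (P 0).Cusp ≃* (P 1).Cusp) :
    ∀ i : Fin 2, (P 0).Cusp →* (P i).Grp
  | 0 => (P 0).incl
  | 1 => (P 1).incl.comp ψ.toMonoidHom

/-- The amalgamated product `Γ₀ *_ψ Γ₁`: by van Kampen's theorem the fundamental group of the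
closed manifold obtained by gluing the two truncated manifolds along their boundary tori by a
diffeomorphism inducing `ψ`. -/
noncomputable def Amalgam (P : Fin 2 → Piece m) (ψ : (P 0).Cusp ≃* (P 1).Cusp) : Type := PushoutI (gluing P ψ)

noncomputable instance amalgamGroup (P : Fin 2 → Piece m) (ψ : (P 0).Cusp ≃* (P 1).Cusp) :
    Group (Amalgam P ψ) := (inferInstance : Group (PushoutI (gluing P ψ)))

/-- Linear automorphisms of `R^m`. -/
def Lin (m : ℕ) : Type := E m ≃ₗ[ℝ] E m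

/-- Evaluation. -/
def Lin.ev (A : Lin m) (x : E m) : E m := A.toFun x

/-- The inverse automorphism. -/
def Lin.inv (A : Lin m) : Lin m := LinearEquiv.symm A

/-- The Euclidean norm. -/
noncomputable def nrm (x : E m) : ℝ := ‖x‖

/-- `A` is a similarity of `R^m`. -/
def Lin.IsSimilarity (A : Lin m) : Prop := ∃ σ : ℝ, 0 < σ ∧ ∀ x, nrm (A.ev x) = σ * nrm x

/-- `Ψ` is the linear extension of the isomorphism `ψ` of cusp subgroups (lattices in `R^m`). -/
def ExtendsTo {P Q : Piece m} (ψ : P.Cusp ≃* Q.Cusp) (Ψ : Lin m) : Prop :=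
  ∀ (g : P.Cusp) (v : E m), P.IsTr (P.incl g) v → Q.IsTr (Q.incl (ψ g)) (Ψ.ev v)

/-- `Ψ' = A₁ Ψ A₀⁻¹` or `Ψ'⁻¹ = A₁ Ψ A₀⁻¹` with similarities `A₀`, `A₁`. -/
def SimilarTo (Ψ Ψ' : Lin m) : Prop :=
  ∃ A₀ A₁ : Lin m, A₀.IsSimilarity ∧ A₁.IsSimilarity ∧
    ((∀ x, Ψ'.ev (A₀.ev x) = A₁.ev (Ψ.ev x)) ∨ ∀ x, Ψ'.inv.ev (A₀.ev x) = A₁.ev (Ψ.ev x))

/-- `ω = -1/2 + i √3/2`. -/
noncomputable def omega : ℂ := ⟨-1 / 2, √3 / 2⟩

/-- `z` is in `ℤ[ω]`. -/
def Eisenstein (z : ℂ) : Prop := ∃ p q : ℤ, z = p + q * omega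

/-- The complex number of a point of the plane. -/
noncomputable def toC (v : E 2) : ℂ := ⟨v 0, v 1⟩

/-- `y` is the image of `x` under the Poincaré extension of the Moebius transformation with matrix
`(a, b; c, d)`, in coordinates divided by two. -/
def Poincare (a b c d : ℂ) (x y : HPt 2) : Prop :=
  2 * toC y.u * (Complex.normSq (c * (2 * toC x.u) + d) + Complex.normSq c * (2 * x.t) ^ 2 : ℝ) =
    (a * (2 * toC x.u) + b) * conj (c * (2 * toC x.u) + d) + a * conj c * (2 * x.t) ^ 2 ∧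
  2 * y.t * (Complex.normSq (c * (2 * toC x.u) + d) + Complex.normSq c * (2 * x.t) ^ 2) = 2 * x.t

/-- The group of `P` consists of the Poincaré extensions of the matrices `(a, b; c, d)` of
determinant `1` over `ℤ[ω]` with `c = b` and `d = a + ω b` modulo `2`. -/
def Sister (P : Piece 2) : Prop :=
  ∀ g : Equiv.Perm (HPt 2), g ∈ P.Γ ↔ ∃ a b c d : ℂ, Eisenstein a ∧ Eisenstein b ∧
    Eisenstein c ∧ Eisenstein d ∧ a * d - b * c = 1 ∧ Eisenstein ((c - b) / 2) ∧
      Eisenstein ((d - a - omega * b) / 2) ∧ ∀ x, Poincare a b c d x (g x)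

/-- `ψ` is the automorphism `p + q ω ↦ (p + q) + q ω` of the cusp lattice `ℤ[ω]`. -/
def Shear (P : Piece 2) (ψ : P.Cusp ≃* P.Cusp) : Prop :=
  ∀ (g : P.Cusp) (v : E 2) (p q : ℤ), P.IsTr (P.incl g) v → toC v = p + q * omega →
    ∃ w, P.IsTr (P.incl (ψ g)) w ∧ toC w = (p + q : ℤ) + q * omega

end QIG
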