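import Pool.Agent.W_a51130_h62.AnDefs

/-!
Elementary estimates for the inversion `inv1 v = v/|v|²` and for `T_L w = |w|² L w/|L w|²`.

Throughout `c ‖v‖ ≤ ‖L v‖ ≤ C ‖v‖` for all `v`, `0 < c`.

PROOFS.
`norm_inv1_sub`: `‖inv1 v - inv1 w‖² = ‖v-w‖²/(‖v‖²‖w‖²)` by expanding.
`TL_smul`: homogeneity.  `TL_eq`: `T_L = inv1 ∘ L ∘ inv1` off `0`.
`TL_lip`: from the two previous ones: `‖T v - T v'‖ = ‖L(inv1 v) - L(inv1 v')‖/(‖L(inv1 v)‖‖L(inv1 v')‖)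
 ≤ (C/c²) ‖inv1 v - inv1 v'‖/(‖inv1 v‖‖inv1 v'‖) = (C/c²)‖v - v'‖`.
`TL_second`: let `a = ‖w‖²`, `b = ‖L w‖²`, `φ = a/b` and `a±, b±, φ±` the values at `w ± v`, `‖v‖ ≤ ‖w‖/2`.
`T(w+v) + T(w-v) - 2T(w) = (φ₊+φ₋-2φ) L w + (φ₊-φ₋) L v`.
-/

namespace QIG

variable {m : ℕ}

theorem norm_inv1 (v : E m) : ‖inv1 v‖ = ‖v‖⁻¹ := by
  unfold inv1
  rw [norm_smul, norm_inv, norm_pow, norm_norm]
  by_cases h : ‖v‖ = 0
  · simp [h]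
  · field_simp

theorem norm_inv1_sub {v w : E m} (hv : v ≠ 0) (hw : w ≠ 0) :
    ‖inv1 v - inv1 w‖ = ‖v - w‖ / (‖v‖ * ‖w‖) := by
  have h := dist_div_norm_sq_smul hv hw 1
  rw [dist_eq_norm, dist_eq_norm] at h
  unfold inv1
  have e1 : ∀ u : E m, (1 / ‖u‖) ^ 2 = (‖u‖ ^ 2)⁻¹ := by
    intro u
    rw [one_div, inv_pow]
  rw [e1, e1] at h
  rw [h]
  ring

theorem TL_smul (L : E m →L[ℝ] E m) {s : ℝ} (w : E m) : TL L (s • w) = s • TL L w := by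
  unfold TL
  by_cases hs : s = 0
  · subst hs
    simp
  · rw [map_smul, norm_smul, norm_smul, smul_smul, smul_smul]
    congr 1
    have h1 : ‖s‖ ≠ 0 := norm_ne_zero_iff.mpr hs
    rw [mul_pow, mul_pow, mul_div_mul_left _ _ (pow_ne_zero 2 h1)]
    ring

theorem TL_eq (L : E m →L[ℝ] E m) (w : E m) : TL L w = inv1 (L (inv1 w)) := by
  unfold TL inv1
  by_cases hw : w = 0
  · subst hw
    simp
  · have h1 : ‖w‖ ≠ 0 := norm_ne_zero_iff.mpr hw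
    rw [map_smul, norm_smul, norm_inv, norm_pow, norm_norm, smul_smul]
    congr 1
    by_cases h2 : ‖L w‖ = 0
    · simp [h2]
    · field_simp

theorem TL_lip (L : E m →L[ℝ] E m) {c C : ℝ} (hc : 0 < c) (h1 : ∀ v, c * ‖v‖ ≤ ‖L v‖)
    (h2 : ∀ v, ‖L v‖ ≤ C * ‖v‖) {v w : E m} (hv : v ≠ 0) (hw : w ≠ 0) :
    ‖TL L v - TL L w‖ ≤ (C / c ^ 2) * ‖v - w‖ := by
  have hinv : ∀ u : E m, u ≠ 0 → inv1 u ≠ 0 := by
    intro u hu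
    rw [← norm_ne_zero_iff, norm_inv1]
    exact inv_ne_zero (norm_ne_zero_iff.mpr hu)
  have hL : ∀ u : E m, u ≠ 0 → L u ≠ 0 := by
    intro u hu hLu
    have := h1 u
    rw [hLu, norm_zero] at this
    have h3 : 0 < c * ‖u‖ := mul_pos hc (norm_pos_iff.mpr hu)
    linarith
  rw [TL_eq, TL_eq, norm_inv1_sub (hL _ (hinv v hv)) (hL _ (hinv w hw))]
  have hvp : 0 < ‖v‖ := norm_pos_iff.mpr hv
  have hwp : 0 < ‖w‖ := norm_pos_iff.mpr hw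
  have a1 : ‖L (inv1 v) - L (inv1 w)‖ ≤ C * (‖v - w‖ / (‖v‖ * ‖w‖)) := by
    rw [← map_sub, ← norm_inv1_sub hv hw]
    exact h2 _
  have a2 : c * ‖v‖⁻¹ ≤ ‖L (inv1 v)‖ := by
    rw [← norm_inv1]; exact h1 _
  have a3 : c * ‖w‖⁻¹ ≤ ‖L (inv1 w)‖ := by
    rw [← norm_inv1]; exact h1 _
  have b2 : 0 < c * ‖v‖⁻¹ := by positivity
  have b3 : 0 < c * ‖w‖⁻¹ := by positivity
  have a4 : (c * ‖v‖⁻¹) * (c * ‖w‖⁻¹) ≤ ‖L (inv1 v)‖ * ‖L (inv1 w)‖ :=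
    mul_le_mul a2 a3 b3.le (b2.le.trans a2)
  have hn : 0 ≤ C * (‖v - w‖ / (‖v‖ * ‖w‖)) := (norm_nonneg _).trans a1
  calc ‖L (inv1 v) - L (inv1 w)‖ / (‖L (inv1 v)‖ * ‖L (inv1 w)‖)
      ≤ (C * (‖v - w‖ / (‖v‖ * ‖w‖))) / ((c * ‖v‖⁻¹) * (c * ‖w‖⁻¹)) :=
        div_le_div₀ hn a1 (mul_pos b2 b3) a4
    _ = (C / c ^ 2) * ‖v - w‖ := by
        field_simp

/-- The scalar estimates behind `TL_second`. -/
theorem TMap_scalar {c C n r p q s t b bp bm : ℝ} (hc : 0 < c) (hC : 0 < C) (hn : 0 < n)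
    (hr : 0 ≤ r) (hrn : r ≤ n / 2) (hp : |p| ≤ n * r) (hq : |q| ≤ C ^ 2 * n * r)
    (hs : s = r ^ 2) (ht0 : 0 ≤ t) (ht : t ≤ C ^ 2 * r ^ 2) (hb : b ≤ C ^ 2 * n ^ 2)
    (hb1 : c ^ 2 * n ^ 2 ≤ b) (hbp : bp = b + 2 * q + t) (hbm : bm = b - 2 * q + t)
    (hbp1 : c ^ 2 * n ^ 2 / 4 ≤ bp) (hbm1 : c ^ 2 * n ^ 2 / 4 ≤ bm) :
    |(n ^ 2 + 2 * p + s) / bp + (n ^ 2 - 2 * p + s) / bm - 2 * (n ^ 2 / b)| ≤
        336 * C ^ 4 / c ^ 6 * (r ^ 2 / n ^ 2) ∧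
    |(n ^ 2 + 2 * p + s) / bp - (n ^ 2 - 2 * p + s) / bm| ≤
        192 * C ^ 4 / c ^ 6 * (r / n) := by
  have hb0 : 0 < b := lt_of_lt_of_le (by positivity) hb1
  have hbp0 : 0 < bp := lt_of_lt_of_le (by positivity) hbp1
  have hbm0 : 0 < bm := lt_of_lt_of_le (by positivity) hbm1
  set α : ℝ := 2 * p * b - 2 * n ^ 2 * q with hα
  set β : ℝ := s * b - n ^ 2 * t with hβ
  have hαb : |α| ≤ 4 * C ^ 2 * n ^ 3 * r := by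
    calc |α| ≤ |2 * p * b| + |2 * n ^ 2 * q| := abs_sub _ _
      _ = 2 * |p| * b + 2 * n ^ 2 * |q| := by
          rw [abs_mul, abs_mul, abs_of_pos hb0, abs_of_pos (show (0:ℝ) < 2 by norm_num),
            abs_mul, abs_of_pos (show (0:ℝ) < 2 * n ^ 2 by positivity)]
      _ ≤ 2 * (n * r) * (C ^ 2 * n ^ 2) + 2 * n ^ 2 * (C ^ 2 * n * r) := by
          gcongr
      _ = 4 * C ^ 2 * n ^ 3 * r := by ring
  have hβb : |β| ≤ 2 * C ^ 2 * n ^ 2 * r ^ 2 := by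
    calc |β| ≤ |s * b| + |n ^ 2 * t| := abs_sub _ _
      _ = r ^ 2 * b + n ^ 2 * t := by
          rw [hs, abs_of_nonneg (show (0:ℝ) ≤ r ^ 2 * b by positivity),
            abs_of_nonneg (show (0:ℝ) ≤ n ^ 2 * t by positivity)]
      _ ≤ r ^ 2 * (C ^ 2 * n ^ 2) + n ^ 2 * (C ^ 2 * r ^ 2) := by gcongr
      _ = 2 * C ^ 2 * n ^ 2 * r ^ 2 := by ring
  have hsum : |bm + bp| ≤ 5 / 2 * C ^ 2 * n ^ 2 := by
    rw [abs_of_pos (by positivity), hbm, hbp]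
    have : r ^ 2 ≤ n ^ 2 / 4 := by nlinarith
    have h3 : C ^ 2 * r ^ 2 ≤ C ^ 2 * (n ^ 2 / 4) := by gcongr
    linarith
  have hdif : |bm - bp| ≤ 4 * C ^ 2 * n * r := by
    have : bm - bp = -(4 * q) := by rw [hbm, hbp]; ring
    rw [this, abs_neg, abs_mul, abs_of_pos (show (0:ℝ) < 4 by norm_num)]
    linarith
  have hden : c ^ 6 * n ^ 6 / 16 ≤ bp * bm * b := by
    calc c ^ 6 * n ^ 6 / 16 = (c ^ 2 * n ^ 2 / 4) * (c ^ 2 * n ^ 2 / 4) * (c ^ 2 * n ^ 2) := by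
          ring
      _ ≤ bp * bm * b := by gcongr
  have hden0 : 0 < c ^ 6 * n ^ 6 / 16 := by positivity
  have hD : 0 < bp * bm * b := by positivity
  have key : ∀ N B : ℝ, |N| ≤ B → |N / (bp * bm * b)| ≤ B / (c ^ 6 * n ^ 6 / 16) := by
    intro N B h
    rw [abs_div, abs_of_pos hD]
    exact div_le_div₀ ((abs_nonneg _).trans h) h hden0 hden
  constructor
  · have e : (n ^ 2 + 2 * p + s) / bp + (n ^ 2 - 2 * p + s) / bm - 2 * (n ^ 2 / b) =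
        (α * (bm - bp) + β * (bm + bp)) / (bp * bm * b) := by
      have e1 : (n ^ 2 + 2 * p + s) / bp - n ^ 2 / b = (α + β) / (bp * b) := by
        rw [div_sub_div _ _ hbp0.ne' hb0.ne']
        congr 1
        rw [hα, hβ, hbp]; ring
      have e2 : (n ^ 2 - 2 * p + s) / bm - n ^ 2 / b = (-α + β) / (bm * b) := by
        rw [div_sub_div _ _ hbm0.ne' hb0.ne']
        congr 1
        rw [hα, hβ, hbm]; ring
      have e3 : (n ^ 2 + 2 * p + s) / bp + (n ^ 2 - 2 * p + s) / bm - 2 * (n ^ 2 / b) =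
          (α + β) / (bp * b) + (-α + β) / (bm * b) := by
        rw [← e1, ← e2]; ring
      rw [e3]
      field_simp
      ring
    rw [e]
    refine (key _ (21 * C ^ 4 * n ^ 4 * r ^ 2) ?_).trans (le_of_eq ?_)
    · calc |α * (bm - bp) + β * (bm + bp)| ≤ |α * (bm - bp)| + |β * (bm + bp)| := abs_add_le _ _
        _ = |α| * |bm - bp| + |β| * |bm + bp| := by rw [abs_mul, abs_mul]
        _ ≤ (4 * C ^ 2 * n ^ 3 * r) * (4 * C ^ 2 * n * r) +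
            (2 * C ^ 2 * n ^ 2 * r ^ 2) * (5 / 2 * C ^ 2 * n ^ 2) := by gcongr
        _ = 21 * C ^ 4 * n ^ 4 * r ^ 2 := by ring
    · field_simp
      ring
  · have e : (n ^ 2 + 2 * p + s) / bp - (n ^ 2 - 2 * p + s) / bm =
        (α * (bm + bp) + β * (bm - bp)) / (bp * bm * b) := by
      have e1 : (n ^ 2 + 2 * p + s) / bp - n ^ 2 / b = (α + β) / (bp * b) := by
        rw [div_sub_div _ _ hbp0.ne' hb0.ne']
        congr 1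
        rw [hα, hβ, hbp]; ring
      have e2 : (n ^ 2 - 2 * p + s) / bm - n ^ 2 / b = (-α + β) / (bm * b) := by
        rw [div_sub_div _ _ hbm0.ne' hb0.ne']
        congr 1
        rw [hα, hβ, hbm]; ring
      have e3 : (n ^ 2 + 2 * p + s) / bp - (n ^ 2 - 2 * p + s) / bm =
          (α + β) / (bp * b) - (-α + β) / (bm * b) := by
        rw [← e1, ← e2]; ring
      rw [e3]
      field_simp
      ring
    rw [e]
    refine (key _ (12 * C ^ 4 * n ^ 5 * r) ?_).trans (le_of_eq ?_)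
    · calc |α * (bm + bp) + β * (bm - bp)| ≤ |α * (bm + bp)| + |β * (bm - bp)| := abs_add_le _ _
        _ = |α| * |bm + bp| + |β| * |bm - bp| := by rw [abs_mul, abs_mul]
        _ ≤ (4 * C ^ 2 * n ^ 3 * r) * (5 / 2 * C ^ 2 * n ^ 2) +
            (2 * C ^ 2 * n ^ 2 * r ^ 2) * (4 * C ^ 2 * n * r) := by gcongr
        _ = 10 * C ^ 4 * n ^ 5 * r + 8 * C ^ 4 * n ^ 3 * r * r ^ 2 := by ring
        _ ≤ 10 * C ^ 4 * n ^ 5 * r + 8 * C ^ 4 * n ^ 3 * r * (n / 2) ^ 2 := by gcongr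
        _ = 12 * C ^ 4 * n ^ 5 * r := by ring
    · field_simp
      ring

theorem TL_second (L : E m →L[ℝ] E m) {c C : ℝ} (hc : 0 < c) (h1 : ∀ v, c * ‖v‖ ≤ ‖L v‖)
    (h2 : ∀ v, ‖L v‖ ≤ C * ‖v‖) :
    ∃ K : ℝ, 0 < K ∧ ∀ w v : E m, w ≠ 0 → ‖v‖ ≤ ‖w‖ / 2 →
      ‖TL L (w + v) + TL L (w - v) - (2 : ℝ) • TL L w‖ ≤ K * ‖v‖ ^ 2 / ‖w‖ := by
  have hC : 0 < |C| + 1 := by positivity
  set D : ℝ := |C| + 1 with hDdef
  have h2' : ∀ v, ‖L v‖ ≤ D * ‖v‖ := by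
    intro v
    refine (h2 v).trans ?_
    gcongr
    rw [hDdef]
    linarith [le_abs_self C]
  refine ⟨528 * D ^ 5 / c ^ 6, by positivity, ?_⟩
  intro w v hw hvw
  have hn : 0 < ‖w‖ := norm_pos_iff.mpr hw
  have hr : 0 ≤ ‖v‖ := norm_nonneg v
  have hp : |inner ℝ w v| ≤ ‖w‖ * ‖v‖ := abs_real_inner_le_norm w v
  have hq : |inner ℝ (L w) (L v)| ≤ D ^ 2 * ‖w‖ * ‖v‖ := by
    refine (abs_real_inner_le_norm _ _).trans ?_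
    calc ‖L w‖ * ‖L v‖ ≤ (D * ‖w‖) * (D * ‖v‖) := by
          gcongr
          · exact h2' w
          · exact h2' v
      _ = D ^ 2 * ‖w‖ * ‖v‖ := by ring
  have ht : ‖L v‖ ^ 2 ≤ D ^ 2 * ‖v‖ ^ 2 := by
    rw [← mul_pow]
    exact pow_le_pow_left₀ (norm_nonneg _) (h2' v) 2
  have hb : ‖L w‖ ^ 2 ≤ D ^ 2 * ‖w‖ ^ 2 := by
    rw [← mul_pow]
    exact pow_le_pow_left₀ (norm_nonneg _) (h2' w) 2
  have hb1 : c ^ 2 * ‖w‖ ^ 2 ≤ ‖L w‖ ^ 2 := by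
    rw [← mul_pow]
    exact pow_le_pow_left₀ (by positivity) (h1 w) 2
  have hlow : ∀ u : E m, ‖w‖ / 2 ≤ ‖u‖ → c ^ 2 * ‖w‖ ^ 2 / 4 ≤ ‖L u‖ ^ 2 := by
    intro u hu
    calc c ^ 2 * ‖w‖ ^ 2 / 4 = (c * (‖w‖ / 2)) ^ 2 := by ring
      _ ≤ (c * ‖u‖) ^ 2 := by gcongr
      _ ≤ ‖L u‖ ^ 2 := pow_le_pow_left₀ (by positivity) (h1 u) 2
  have hup : ‖w‖ / 2 ≤ ‖w + v‖ := by
    have := norm_sub_norm_le w (-v)
    rw [sub_neg_eq_add, norm_neg] at this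
    linarith
  have hum : ‖w‖ / 2 ≤ ‖w - v‖ := by
    have := norm_sub_norm_le w v
    linarith
  have hbp : ‖L (w + v)‖ ^ 2 = ‖L w‖ ^ 2 + 2 * inner ℝ (L w) (L v) + ‖L v‖ ^ 2 := by
    rw [map_add, norm_add_sq_real]
  have hbm : ‖L (w - v)‖ ^ 2 = ‖L w‖ ^ 2 - 2 * inner ℝ (L w) (L v) + ‖L v‖ ^ 2 := by
    rw [map_sub, norm_sub_sq_real]
  obtain ⟨k1, k2⟩ := TMap_scalar hc hC hn hr hvw hp hq rfl (sq_nonneg _) ht hb hb1 hbp hbm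
    (hlow _ hup) (hlow _ hum)
  rw [← norm_add_sq_real, ← norm_sub_sq_real] at k1 k2
  have e : TL L (w + v) + TL L (w - v) - (2 : ℝ) • TL L w =
      (‖w + v‖ ^ 2 / ‖L (w + v)‖ ^ 2 + ‖w - v‖ ^ 2 / ‖L (w - v)‖ ^ 2 -
        2 * (‖w‖ ^ 2 / ‖L w‖ ^ 2)) • L w +
      (‖w + v‖ ^ 2 / ‖L (w + v)‖ ^ 2 - ‖w - v‖ ^ 2 / ‖L (w - v)‖ ^ 2) • L v := by
    unfold TL
    generalize ‖w + v‖ ^ 2 / ‖L (w + v)‖ ^ 2 = x
    generalize ‖w - v‖ ^ 2 / ‖L (w - v)‖ ^ 2 = y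
    generalize ‖w‖ ^ 2 / ‖L w‖ ^ 2 = z
    rw [map_add, map_sub]
    module
  rw [e]
  calc _ ≤ |‖w + v‖ ^ 2 / ‖L (w + v)‖ ^ 2 + ‖w - v‖ ^ 2 / ‖L (w - v)‖ ^ 2 -
        2 * (‖w‖ ^ 2 / ‖L w‖ ^ 2)| * ‖L w‖ +
      |‖w + v‖ ^ 2 / ‖L (w + v)‖ ^ 2 - ‖w - v‖ ^ 2 / ‖L (w - v)‖ ^ 2| * ‖L v‖ := by
        refine (norm_add_le _ _).trans (le_of_eq ?_)
        rw [norm_smul, norm_smul, Real.norm_eq_abs, Real.norm_eq_abs]
    _ ≤ (336 * D ^ 4 / c ^ 6 * (‖v‖ ^ 2 / ‖w‖ ^ 2)) * (D * ‖w‖) +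
        (192 * D ^ 4 / c ^ 6 * (‖v‖ / ‖w‖)) * (D * ‖v‖) := by
        gcongr
        · exact h2' w
        · exact h2' v
    _ = 528 * D ^ 5 / c ^ 6 * ‖v‖ ^ 2 / ‖w‖ := by
        field_simp
        ring

end QIG
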