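import Pool.Agent.W_a51130_h62.PackDefs
import Pool.Agent.W_a51130_h62.TMap

/-!
Step gamma: at a differentiability point outside the packing, the derivative is almost a similarity
(for every `N`, up to `K/N`, after a rotation of the lattice basis).

PROOF.  `L` is injective, so `c‖v‖ ≤ ‖L v‖ ≤ C‖v‖`, `c > 0`.  Let `b` be the basis; there are `β > 0` with
`‖α b_i + γ b_j‖ ≥ β max(|α|,|γ|)` for `i ≠ j`, and `B ≥ ‖b_i‖`.  Let `M, D₀, C₀` be the constants of the source,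
`D'` the neighbour constant for `D₀`, `C_s` the size constant, `μ` the gap for `D'`.  Fix `N` large
(`β N ≥ 4 C₀ + 4B` and (*) below; it is enough to treat `N ≥ N₀`, by enlarging `K`: for `N < N₀` use the
estimate for `N₀`).  For small `ε > 0` take `r₀` with `‖f(x+v) - f x - L v‖ ≤ ε‖v‖` for `‖v‖ ≤ K₁ r₀`
(differentiability), a thick scale `r < r₀` and its `p`, with `A, w₀`.  Put `w_a = w₀ + A(a b_i + N b_j)`
for integers `|a| ≤ N`; `‖w_a‖ ≥ βN - C₀ ≥ βN/2` and `‖w_a‖ ≤ C₀ + 2BN`.  Let `q_a ∈ Q` with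
`wc s p q_a = w_a`, so `q_a - p = s_p inv1 w_a`, `‖q_a - p‖ = s_p/‖w_a‖`, comparable (constants dep. on
`N`) to `s_p`, which is comparable to `r`; all points are within `K₁ r` of `x` (`K₁` independent of `N`:
`‖q_a - p‖ ≤ 2 s_p/(βN) ≤ M r`).  So `f q_a - f p = L(q_a - p) + O(ε r)`, and with
`‖L(q_a-p)‖ ≥ c s_p/(C₀+2BN)` and `norm_inv1_sub`:
`inv1(f q_a - f p) = inv1(L(q_a-p)) + O(ε C_N/s_p)` for `ε ≤ ε_N`.  Now
`inv1(L(q_a - p)) = inv1(s_p L (inv1 w_a)) = s_p⁻¹ TL L w_a` (`TL_eq`).  Let `s' = s'_(f p)`; comparing with a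
point `y`, `‖y - p‖ = s_p` (exists, `m ≥ 1`), `f y - f p = L(y-p) + O(ε r)`, we get
`1/C'' ≤ s'/s_p ≤ C''` with `C''` independent of `N` (for `ε ≤ ε₀`).  Therefore
`w'_a := wc s' (f p) (f q_a) = (s'/s_p) TL L w_a + O(ε C_N)`.
By `TL_second` (`v = A b_i`, `w = w_a`), `‖w'_(a+1) + w'_(a-1) - 2w'_a‖ ≤ C'' K B² /(βN/2) + 4 ε C_N < μ`
if `N ≥ N₀` (*) and `ε` small, so it is `= 0` by the gap property (`q_a` is a `D₀`-neighbour of `p`, so `f q_a` is
a `D'`-neighbour of `f p`) for `|a| < N`.  Hence `a ↦ w'_a` is affine on `[-N,N]` and `w'_N + w'_(-N) - 2w'_0 = 0`,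
so `‖TL L w_N + TL L w_(-N) - 2 TL L w_0‖ ≤ C'' 4 ε C_N`.  Divide by `N` (`TL_smul`) and use `TL_lip` to remove
`w₀/N`: the quantity of the theorem is `≤ 4 C'' ε C_N/N + 4 (C/c²) C₀/N`.  Choose `ε` with
`ε C_N ≤ 1`.  (The rotation `A` depends on `N` and `ε` but not on `i, j`: `A, w₀, p` are chosen before
`i, j`.)
-/

namespace QIG

/-- A sequence with vanishing second differences is symmetric about its centre. -/
theorem sg1_affine {V : Type*} [AddCommGroup V] [Module ℝ V] (g : ℤ → V) (N : ℕ)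
    (h : ∀ a : ℤ, |a| < N → g (a + 1) + g (a - 1) - (2 : ℝ) • g a = 0) :
    g N + g (-N) - (2 : ℝ) • g 0 = 0 := by
  have key : ∀ n : ℕ, (n ≤ N → g n + g (-n) - (2 : ℝ) • g 0 = 0) ∧
      (n + 1 ≤ N → g ((n : ℤ) + 1) + g (-((n : ℤ) + 1)) - (2 : ℝ) • g 0 = 0) := by
    intro n
    induction n with
    | zero =>
      refine ⟨fun _ => ?_, fun hN => ?_⟩
      · simp only [Nat.cast_zero, neg_zero, two_smul]
        abel
      · have := h 0 (by simp; omega)
        simpa using this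
    | succ n ih =>
      obtain ⟨ih1, ih2⟩ := ih
      refine ⟨fun hN => ?_, fun hN => ?_⟩
      · have := ih2 hN
        push_cast
        exact this
      · have e1 := ih1 (by omega)
        have e2 := ih2 (by omega)
        have h1 := h ((n : ℤ) + 1) (by rw [abs_of_nonneg (by positivity)]; omega)
        have h2 := h (-((n : ℤ) + 1)) (by rw [abs_neg, abs_of_nonneg (by positivity)]; omega)
        have r1 : (n : ℤ) + 1 - 1 = n := by ring
        have r2 : -((n : ℤ) + 1) + 1 = -n := by ring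
        have r3 : -((n : ℤ) + 1) - 1 = -((n : ℤ) + 1 + 1) := by ring
        rw [r1] at h1
        rw [r2, r3] at h2
        have r4 : (((n + 1 : ℕ) : ℤ)) = (n : ℤ) + 1 := by push_cast; ring
        rw [r4]
        rw [two_smul] at *
        have : g ((n : ℤ) + 1 + 1) + g (-((n : ℤ) + 1 + 1)) - (g 0 + g 0)
            = (g ((n : ℤ) + 1 + 1) + g n - (2 : ℝ) • g ((n : ℤ) + 1))
              + (g (-n) + g (-((n : ℤ) + 1 + 1)) - (2 : ℝ) • g (-((n : ℤ) + 1)))
              - (g n + g (-n) - (g 0 + g 0))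
              + (2 : ℝ) • (g ((n : ℤ) + 1) + g (-((n : ℤ) + 1)) - (g 0 + g 0)) := by
          simp only [two_smul]
          abel
        rw [this]
        rw [two_smul] at *
        simp only [two_smul] at *
        rw [h1, h2, e1, e2]
        simp
  exact (key N).1 le_rfl

/-- Lower and upper bounds for a basis. -/
theorem sg1_basis {m : ℕ} (b : Module.Basis (Fin m) ℝ (E m)) :
    ∃ β B : ℝ, 0 < β ∧ 0 < B ∧ (∀ i, ‖b i‖ ≤ B) ∧
      ∀ i j : Fin m, i ≠ j → ∀ α γ : ℝ,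
        β * |α| ≤ ‖α • b i + γ • b j‖ ∧ β * |γ| ≤ ‖α • b i + γ • b j‖ := by
  have hB : ∃ B : ℝ, 0 < B ∧ ∀ i, ‖b i‖ ≤ B := by
    refine ⟨1 + ∑ i, ‖b i‖, by positivity, fun i => ?_⟩
    have := Finset.single_le_sum (f := fun i => ‖b i‖) (fun j _ => norm_nonneg _)
      (Finset.mem_univ i)
    linarith
  obtain ⟨B, hB0, hB⟩ := hB
  set F := b.equivFunL
  set κ : ℝ := ‖(F : E m →L[ℝ] (Fin m → ℝ))‖ + 1
  have hκ : 0 < κ := by positivity
  have hF : ∀ v : E m, ∀ l, |b.repr v l| ≤ κ * ‖v‖ := by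
    intro v l
    have h1 : ‖F v‖ ≤ ‖(F : E m →L[ℝ] (Fin m → ℝ))‖ * ‖v‖ :=
      (F : E m →L[ℝ] (Fin m → ℝ)).le_opNorm v
    have h2 : ‖F v l‖ ≤ ‖F v‖ := norm_le_pi_norm (F v) l
    have h3 : F v l = b.repr v l := rfl
    rw [h3, Real.norm_eq_abs] at h2
    calc |b.repr v l| ≤ ‖(F : E m →L[ℝ] (Fin m → ℝ))‖ * ‖v‖ := h2.trans h1
      _ ≤ κ * ‖v‖ := by gcongr; simp [κ]
  refine ⟨κ⁻¹, B, inv_pos.2 hκ, hB0, hB, fun i j hij α γ => ?_⟩
  have h1 := hF (α • b i + γ • b j) i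
  have h2 := hF (α • b i + γ • b j) j
  have e1 : b.repr (α • b i + γ • b j) i = α := by
    simp [hij.symm]
  have e2 : b.repr (α • b i + γ • b j) j = γ := by
    simp [hij]
  rw [e1] at h1
  rw [e2] at h2
  constructor
  · rw [inv_mul_le_iff₀ hκ]; exact h1
  · rw [inv_mul_le_iff₀ hκ]; exact h2

theorem sg1_inv1_smul {m : ℕ} {t : ℝ} (ht : t ≠ 0) (v : E m) : inv1 (t • v) = t⁻¹ • inv1 v := by
  unfold inv1
  rw [norm_smul, smul_smul, smul_smul]
  congr 1
  rw [mul_pow, Real.norm_eq_abs, sq_abs, mul_inv]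
  field_simp

theorem sg1_inv1_inv1 {m : ℕ} (v : E m) : inv1 (inv1 v) = v := by
  by_cases hv : v = 0
  · subst hv; simp [inv1]
  have hn : ‖v‖ ≠ 0 := norm_ne_zero_iff.2 hv
  have h1 : inv1 (inv1 v) = (‖inv1 v‖ ^ 2)⁻¹ • inv1 v := rfl
  rw [h1, norm_inv1, inv1, smul_smul]
  have : ((‖v‖⁻¹) ^ 2)⁻¹ * (‖v‖ ^ 2)⁻¹ = 1 := by field_simp
  rw [this, one_smul]

/-- The one point estimate. -/
theorem sg1_point {m : ℕ} (L : E m →L[ℝ] E m) {c : ℝ} (hc : 0 < c)
    (h1 : ∀ v, c * ‖v‖ ≤ ‖L v‖) {s s' e R : ℝ} (hs : 0 < s) (hs' : 0 < s') (he : 0 ≤ e)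
    (hR : 0 < R) (heR : e ≤ c / (2 * R)) {u w y : E m} (hw : w ≠ 0) (hwR : ‖w‖ ≤ R)
    (huw : s • inv1 u = w) (hy : ‖y - L u‖ ≤ e * s) :
    ‖s' • inv1 y - (s' / s) • TL L w‖ ≤ (s' / s) * (2 * e * R ^ 2 / c ^ 2) := by
  have hu : u = s • inv1 w := by
    rw [← huw, sg1_inv1_smul hs.ne', sg1_inv1_inv1, smul_smul, mul_inv_cancel₀ hs.ne', one_smul]
  have hwn : 0 < ‖w‖ := norm_pos_iff.2 hw
  have hun : ‖u‖ = s / ‖w‖ := by
    rw [hu, norm_smul, norm_inv1, Real.norm_eq_abs, abs_of_pos hs]; rfl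
  have hLu : c * s / R ≤ ‖L u‖ := by
    have := h1 u
    rw [hun] at this
    calc c * s / R ≤ c * (s / ‖w‖) := by
          rw [mul_div_assoc]
          gcongr
      _ ≤ _ := this
  have hLupos : 0 < ‖L u‖ := lt_of_lt_of_le (by positivity) hLu
  have hyn : c * s / (2 * R) ≤ ‖y‖ := by
    have h2 : ‖L u‖ ≤ ‖y‖ + ‖y - L u‖ := by
      have : L u = y - (y - L u) := by abel
      calc ‖L u‖ = ‖y - (y - L u)‖ := by rw [← this]
        _ ≤ _ := norm_sub_le _ _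
    have h3 : e * s ≤ c / (2 * R) * s := by gcongr
    have h4 : c / (2 * R) * s = c * s / (2 * R) := by ring
    have h5 : c * s / R = 2 * (c * s / (2 * R)) := by field_simp
    linarith
  have hypos : 0 < ‖y‖ := lt_of_lt_of_le (by positivity) hyn
  have key := norm_inv1_sub (norm_pos_iff.1 hypos) (norm_pos_iff.1 hLupos)
  have hTL : inv1 (L u) = s⁻¹ • TL L w := by
    rw [hu, map_smul, sg1_inv1_smul hs.ne', TL_eq]
  have hb : ‖inv1 y - inv1 (L u)‖ ≤ 2 * e * R ^ 2 / (c ^ 2 * s) := by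
    rw [key]
    calc ‖y - L u‖ / (‖y‖ * ‖L u‖) ≤ (e * s) / ((c * s / (2 * R)) * (c * s / R)) := by
          gcongr
      _ = 2 * e * R ^ 2 / (c ^ 2 * s) := by field_simp
  have e1 : s' • inv1 y - (s' / s) • TL L w = s' • (inv1 y - inv1 (L u)) := by
    rw [smul_sub, hTL, smul_smul]; rfl
  rw [e1, norm_smul, Real.norm_eq_abs, abs_of_pos hs']
  calc s' * ‖inv1 y - inv1 (L u)‖ ≤ s' * (2 * e * R ^ 2 / (c ^ 2 * s)) := by gcongr
    _ = _ := by field_simp

/-- Second differences of approximate values. -/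
theorem sg1_second {m : ℕ} {x1 x2 x3 y1 y2 y3 : E m} {η : ℝ} (h1 : ‖x1 - y1‖ ≤ η)
    (h2 : ‖x2 - y2‖ ≤ η) (h3 : ‖x3 - y3‖ ≤ η) :
    ‖(x1 + x2 - (2 : ℝ) • x3) - (y1 + y2 - (2 : ℝ) • y3)‖ ≤ 4 * η := by
  have e : (x1 + x2 - (2 : ℝ) • x3) - (y1 + y2 - (2 : ℝ) • y3)
      = (x1 - y1) + (x2 - y2) - (2 : ℝ) • (x3 - y3) := by
    rw [smul_sub]; abel
  rw [e]
  calc ‖(x1 - y1) + (x2 - y2) - (2 : ℝ) • (x3 - y3)‖
      ≤ ‖x1 - y1‖ + ‖x2 - y2‖ + ‖(2 : ℝ) • (x3 - y3)‖ :=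
        (norm_sub_le _ _).trans (by gcongr; exact norm_add_le _ _)
    _ = ‖x1 - y1‖ + ‖x2 - y2‖ + 2 * ‖x3 - y3‖ := by
        rw [norm_smul]; norm_num
    _ ≤ 4 * η := by linarith

theorem step_gamma_approx {m : ℕ} (hm : 2 ≤ m) {Q Q' : Set (E m)} {s s' : E m → ℝ}
    (b : Module.Basis (Fin m) ℝ (E m)) (hQ : ShiftPack Q s b) (hQ' : GapPack Q' s')
    {f : E m → E m} (hf : PackMap Q s Q' s' f) {x : E m} (hx : x ∉ Q)
    {L : E m →L[ℝ] E m} (hL : HasFDerivAt f L x) (hLi : Function.Injective L) :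
    ∃ K : ℝ, ∀ N : ℕ, 1 ≤ N → ∃ A : E m ≃ₗᵢ[ℝ] E m, ∀ i j : Fin m, i ≠ j →
      ‖TL L (A (b j + b i)) + TL L (A (b j - b i)) - (2 : ℝ) • TL L (A (b j))‖ ≤ K / N := by
  -- constants of `L`
  obtain ⟨c, hc, hc1⟩ : ∃ c : ℝ, 0 < c ∧ ∀ v, c * ‖v‖ ≤ ‖L v‖ := by
    obtain ⟨k, hk, hk2⟩ := LinearMap.exists_antilipschitzWith (L : E m →ₗ[ℝ] E m)
      (LinearMap.ker_eq_bot.2 hLi)
    refine ⟨(k : ℝ)⁻¹, by positivity, fun v => ?_⟩
    have := hk2.le_mul_dist v 0
    simp only [dist_zero_right, map_zero] at this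
    rw [inv_mul_le_iff₀ (by positivity)]
    exact this
  obtain ⟨C, hC, hC1⟩ : ∃ C : ℝ, 0 < C ∧ ∀ v, ‖L v‖ ≤ C * ‖v‖ := by
    refine ⟨‖L‖ + 1, by positivity, fun v => (L.le_opNorm v).trans ?_⟩
    gcongr
    linarith
  obtain ⟨β, B, hβ, hB, hbB, hbβ⟩ := sg1_basis b
  obtain ⟨D₀, C₀, hshift⟩ := hQ.shift
  obtain ⟨M, hM, hthick⟩ := hQ.thick
  obtain ⟨D', hD'⟩ := hf.nbr D₀
  obtain ⟨Cs, hCs, hsize⟩ := hf.size
  obtain ⟨μ, hμ, hgap⟩ := hQ'.gap D'
  obtain ⟨KT, hKT, hTL2⟩ := TL_second L hc hc1 hC1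
  set ρM : ℝ := Cs * (C + c) with hρM
  have hρMpos : 0 < ρM := by positivity
  set C1 : ℝ := |C₀| with hC1def
  have hC1nn : 0 ≤ C1 := abs_nonneg _
  -- the threshold
  obtain ⟨N₀, hN₀⟩ : ∃ N₀ : ℕ, 1 ≤ N₀ ∧ 4 * C1 + 4 * B + 4 ≤ β * N₀ ∧
      ρM * (2 * KT * B ^ 2 / (β * N₀)) ≤ μ / 2 := by
    obtain ⟨n1, hn1⟩ := exists_nat_ge ((4 * C1 + 4 * B + 4) / β)
    obtain ⟨n2, hn2⟩ := exists_nat_ge (ρM * (2 * KT * B ^ 2) / (β * (μ / 2)))
    refine ⟨n1 + n2 + 1, by omega, ?_, ?_⟩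
    · rw [div_le_iff₀ hβ] at hn1
      push_cast
      have : (0 : ℝ) ≤ n2 := by positivity
      nlinarith
    · have hpos : (0 : ℝ) < ((n1 + n2 + 1 : ℕ) : ℝ) := by positivity
      have h2 : ρM * (2 * KT * B ^ 2) / (β * (μ / 2)) ≤ ((n1 + n2 + 1 : ℕ) : ℝ) := by
        push_cast
        have : (0 : ℝ) ≤ n1 := by positivity
        linarith
      rw [div_le_iff₀ (by positivity)] at h2
      rw [← mul_div_assoc, div_le_iff₀ (by positivity)]
      calc ρM * (2 * KT * B ^ 2) ≤ ((n1 + n2 + 1 : ℕ) : ℝ) * (β * (μ / 2)) := h2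
        _ = _ := by ring
  obtain ⟨hN₀1, hN₀2, hN₀3⟩ := hN₀
  -- reduction to large `N`
  suffices hmain : ∀ N : ℕ, N₀ ≤ N → ∃ A : E m ≃ₗᵢ[ℝ] E m, ∀ i j : Fin m, i ≠ j →
      ‖TL L (A (b j + b i)) + TL L (A (b j - b i)) - (2 : ℝ) • TL L (A (b j))‖
        ≤ (1 + 4 * (C / c ^ 2 * C1)) / N by
    refine ⟨1 + 4 * (C / c ^ 2 * C1), fun N hN => ?_⟩
    obtain ⟨A, hA⟩ := hmain (max N N₀) (le_max_right _ _)
    refine ⟨A, fun i j hij => (hA i j hij).trans ?_⟩
    have h1 : (N : ℝ) ≤ ((max N N₀ : ℕ) : ℝ) := by exact_mod_cast le_max_left _ _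
    have h2 : (0 : ℝ) < N := by exact_mod_cast hN
    gcongr
  intro N hN
  have hN1 : 1 ≤ N := hN₀1.trans hN
  have hNpos : (0 : ℝ) < N := by exact_mod_cast hN1
  have hNN₀ : (N₀ : ℝ) ≤ N := by exact_mod_cast hN
  have hN₀pos : (0 : ℝ) < N₀ := by exact_mod_cast hN₀1
  have hβN : 4 * C1 + 4 * B + 4 ≤ β * N := hN₀2.trans (by gcongr)
  have hβN3 : ρM * (2 * KT * B ^ 2 / (β * N)) ≤ μ / 2 := by
    refine le_trans ?_ hN₀3
    gcongr
  set R : ℝ := C1 + 2 * B * N + 1 with hR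
  have hRpos : 0 < R := by positivity
  have hR1 : 1 ≤ R := by
    have : 0 ≤ 2 * B * N := by positivity
    linarith
  -- the error level
  obtain ⟨e, he, he1, he2, he3⟩ : ∃ e : ℝ, 0 < e ∧ e ≤ c / (2 * R) ∧ 8 * e * R ^ 2 / c ^ 2 ≤ 1 ∧
      ρM * (8 * e * R ^ 2 / c ^ 2) ≤ μ / 4 := by
    refine ⟨min (c / (2 * R)) (min (c ^ 2 / (8 * R ^ 2)) (μ * c ^ 2 / (4 * ρM * (8 * R ^ 2)))),
      ?_, min_le_left _ _, ?_, ?_⟩
    · refine lt_min (by positivity) (lt_min (by positivity) (by positivity))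
    · have := (min_le_right (c / (2 * R)) (min (c ^ 2 / (8 * R ^ 2))
        (μ * c ^ 2 / (4 * ρM * (8 * R ^ 2))))).trans (min_le_left _ _)
      set e := min (c / (2 * R)) (min (c ^ 2 / (8 * R ^ 2)) (μ * c ^ 2 / (4 * ρM * (8 * R ^ 2))))
      rw [le_div_iff₀ (by positivity)] at this
      rw [div_le_one (by positivity)]
      linarith
    · have := (min_le_right (c / (2 * R)) (min (c ^ 2 / (8 * R ^ 2))
        (μ * c ^ 2 / (4 * ρM * (8 * R ^ 2))))).trans (min_le_right _ _)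
      set e := min (c / (2 * R)) (min (c ^ 2 / (8 * R ^ 2)) (μ * c ^ 2 / (4 * ρM * (8 * R ^ 2))))
      rw [le_div_iff₀ (by positivity)] at this
      rw [← mul_div_assoc, div_le_div_iff₀ (by positivity) (by norm_num)]
      nlinarith
  -- differentiability
  obtain ⟨δ, hδ, hdiff⟩ : ∃ δ : ℝ, 0 < δ ∧ ∀ z, ‖z - x‖ < δ →
      ‖f z - f x - L (z - x)‖ ≤ e / (4 * M ^ 2) * ‖z - x‖ := by
    have h1 := hL.isLittleO.def (c := e / (4 * M ^ 2)) (by positivity)
    obtain ⟨δ, hδ, h2⟩ := Metric.eventually_nhds_iff.1 h1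
    exact ⟨δ, hδ, fun z hz => h2 (by rwa [dist_eq_norm])⟩
  obtain ⟨r, hr, hrδ, p, hp, hpx, hrs, hsr⟩ := hthick x hx (δ / (4 * M)) (by positivity)
  have hs : 0 < s p := hQ.pos p hp
  have hs' : 0 < s' (f p) := hQ'.pos _ (hf.maps p hp)
  have hfp : f p ∈ Q' := hf.maps p hp
  -- linear approximation near `p`
  have hlin : ∀ z, ‖z - p‖ ≤ s p → ‖(f z - f p) - L (z - p)‖ ≤ e * s p := by
    intro z hz
    have hzx : ‖z - x‖ ≤ 2 * M * r := by
      calc ‖z - x‖ = ‖(z - p) + (p - x)‖ := by congr 1; abel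
        _ ≤ ‖z - p‖ + ‖p - x‖ := norm_add_le _ _
        _ ≤ M * r + M * r := add_le_add (hz.trans hsr) hpx
        _ = 2 * M * r := by ring
    have hrδ' : 4 * M * r < δ := by
      rw [lt_div_iff₀ (by positivity)] at hrδ
      linarith
    have hMr : 0 < M * r := by positivity
    have h1 := hdiff z (by linarith)
    have h2 := hdiff p (by linarith)
    have e0 : (f z - f p) - L (z - p) = (f z - f x - L (z - x)) - (f p - f x - L (p - x)) := by
      simp only [map_sub]; abel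
    rw [e0]
    calc ‖(f z - f x - L (z - x)) - (f p - f x - L (p - x))‖
        ≤ ‖f z - f x - L (z - x)‖ + ‖f p - f x - L (p - x)‖ := norm_sub_le _ _
      _ ≤ e / (4 * M ^ 2) * (2 * M * r) + e / (4 * M ^ 2) * (2 * M * r) := by
          refine add_le_add (h1.trans (by gcongr)) (h2.trans ?_)
          gcongr
          linarith
      _ = e * r / M := by field_simp; ring
      _ ≤ e * s p := by
          rw [div_le_iff₀ hM]
          calc e * r ≤ e * (M * s p) := by gcongr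
            _ = _ := by ring
  -- the ratio of the sizes
  have hρ : s' (f p) / s p ≤ ρM := by
    obtain ⟨v, hv⟩ : ∃ v : E m, ‖v‖ = s p := by
      have : Nontrivial (E m) := by
        have : Nonempty (Fin m) := ⟨⟨0, by omega⟩⟩
        infer_instance
      exact exists_norm_eq (E m) hs.le
    have h1 := (hsize p hp (p + v) (by simpa using hv)).2
    have h2 := hlin (p + v) (by simp [hv])
    have e0 : p + v - p = v := by abel
    rw [e0] at h2
    have h3 : ‖f (p + v) - f p‖ ≤ (C + c) * s p := by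
      have : f (p + v) - f p = ((f (p + v) - f p) - L v) + L v := by abel
      rw [this]
      have hec : e ≤ c := he1.trans (by
        rw [div_le_iff₀ (by positivity)]
        nlinarith)
      calc ‖((f (p + v) - f p) - L v) + L v‖ ≤ ‖(f (p + v) - f p) - L v‖ + ‖L v‖ :=
            norm_add_le _ _
        _ ≤ e * s p + C * s p := by
            refine add_le_add h2 ?_
            have := hC1 v
            rwa [hv] at this
        _ ≤ c * s p + C * s p := by gcongr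
        _ = _ := by ring
    rw [div_le_iff₀ hs, hρM]
    calc s' (f p) ≤ Cs * ‖f (p + v) - f p‖ := h1
      _ ≤ Cs * ((C + c) * s p) := by gcongr
      _ = _ := by ring
  have hρpos : 0 < s' (f p) / s p := by positivity
  obtain ⟨A, w₀, hw₀, hAw⟩ := hshift p hp
  have hw₀' : ‖w₀‖ ≤ C1 := hw₀.trans (le_abs_self _)
  refine ⟨A, fun i j hij => ?_⟩
  -- the points
  set w : ℤ → E m := fun a => w₀ + A ((a : ℝ) • b i + (N : ℝ) • b j) with hw
  have hwlow : ∀ a, β * N - C1 ≤ ‖w a‖ := by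
    intro a
    have h1 := (hbβ i j hij a N).2
    rw [abs_of_pos hNpos] at h1
    have h2 : ‖A ((a : ℝ) • b i + (N : ℝ) • b j)‖ ≤ ‖w a‖ + ‖w₀‖ := by
      have : A ((a : ℝ) • b i + (N : ℝ) • b j) = w a - w₀ := by simp [hw]
      rw [this]
      exact norm_sub_le _ _
    rw [A.norm_map] at h2
    linarith
  have hwhalf : ∀ a, β * N / 2 ≤ ‖w a‖ := fun a => by
    have := hwlow a
    linarith
  have hw1 : ∀ a, 1 ≤ ‖w a‖ := fun a => by
    have := hwlow a
    linarith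
  have hw0 : ∀ a, w a ≠ 0 := fun a h => by
    have := hw1 a
    rw [h, norm_zero] at this
    linarith
  have hwup : ∀ a : ℤ, |a| ≤ N → ‖w a‖ ≤ R := by
    intro a ha
    have ha' : |(a : ℝ)| ≤ N := by exact_mod_cast ha
    calc ‖w a‖ ≤ ‖w₀‖ + ‖A ((a : ℝ) • b i + (N : ℝ) • b j)‖ := norm_add_le _ _
      _ = ‖w₀‖ + ‖(a : ℝ) • b i + (N : ℝ) • b j‖ := by rw [A.norm_map]
      _ ≤ C1 + (‖(a : ℝ) • b i‖ + ‖(N : ℝ) • b j‖) := add_le_add hw₀' (norm_add_le _ _)
      _ = C1 + (|(a : ℝ)| * ‖b i‖ + N * ‖b j‖) := by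
          rw [norm_smul, norm_smul, Real.norm_eq_abs, Real.norm_eq_abs, abs_of_pos hNpos]
      _ ≤ C1 + (N * B + N * B) := by
          gcongr
          · exact hbB i
          · exact hbB j
      _ ≤ R := by rw [hR]; linarith
  -- neighbours
  have hq : ∀ a : ℤ, ∃ q ∈ Q, Nbr s D₀ p q ∧ wc s p q = w a := by
    intro a
    have h1 : (∑ l, (((if l = i then a else if l = j then (N : ℤ) else 0 : ℤ)) : ℝ) • b l)
        = (a : ℝ) • b i + (N : ℝ) • b j := by
      have h2 : ∀ l, (((if l = i then a else if l = j then (N : ℤ) else 0 : ℤ)) : ℝ) • b l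
          = (if l = i then (a : ℝ) • b i else 0) + (if l = j then (N : ℝ) • b j else 0) := by
        intro l
        by_cases hli : l = i
        · subst hli
          simp [hij]
        · by_cases hlj : l = j
          · subst hlj
            simp [hli]
          · simp [hli, hlj]
      rw [Finset.sum_congr rfl (fun l _ => h2 l), Finset.sum_add_distrib]
      simp
    have h3 := hAw (fun l => if l = i then a else if l = j then (N : ℤ) else 0)
    rw [h1] at h3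
    exact h3 (hw0 a)
  choose q hqQ hqN hqw using hq
  have hqdist : ∀ a, ‖q a - p‖ ≤ s p := by
    intro a
    have h1 : s p • inv1 (q a - p) = w a := hqw a
    have h2 : ‖w a‖ = s p * ‖q a - p‖⁻¹ := by
      rw [← h1, norm_smul, norm_inv1, Real.norm_eq_abs, abs_of_pos hs]
    have hne : q a - p ≠ 0 := sub_ne_zero.2 (hqN a).1
    have hpos : 0 < ‖q a - p‖ := norm_pos_iff.2 hne
    have h3 := hw1 a
    rw [h2, ← div_eq_mul_inv, le_div_iff₀ hpos] at h3
    linarith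
  set η : ℝ := (s' (f p) / s p) * (2 * e * R ^ 2 / c ^ 2) with hη
  set g : ℤ → E m := fun a => wc s' (f p) (f (q a)) with hg
  have hpt : ∀ a : ℤ, |a| ≤ N → ‖g a - (s' (f p) / s p) • TL L (w a)‖ ≤ η := by
    intro a ha
    exact sg1_point L hc hc1 hs hs' he.le hRpos he1 (hw0 a) (hwup a ha) (hqw a)
      (hlin (q a) (hqdist a))
  have hwsucc : ∀ a, w (a + 1) = w a + A (b i) := by
    intro a
    simp only [hw, Int.cast_add, Int.cast_one, add_smul, one_smul, map_add]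
    abel
  have hwpred : ∀ a, w (a - 1) = w a - A (b i) := by
    intro a
    simp only [hw, Int.cast_sub, Int.cast_one, sub_smul, one_smul, map_add, map_sub]
    abel
  have hsd : ∀ a : ℤ, |a| < N → g (a + 1) + g (a - 1) - (2 : ℝ) • g a = 0 := by
    intro a ha
    rw [abs_lt] at ha
    have h1 := hpt (a + 1) (by rw [abs_le]; omega)
    have h2 := hpt (a - 1) (by rw [abs_le]; omega)
    have h3 := hpt a (by rw [abs_le]; omega)
    have h4 := sg1_second h1 h2 h3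
    have h5 : ‖TL L (w a + A (b i)) + TL L (w a - A (b i)) - (2 : ℝ) • TL L (w a)‖
        ≤ KT * ‖A (b i)‖ ^ 2 / ‖w a‖ := by
      refine hTL2 (w a) (A (b i)) (hw0 a) ?_
      rw [A.norm_map]
      have := hbB i
      have := hwlow a
      linarith
    have h6 : KT * ‖A (b i)‖ ^ 2 / ‖w a‖ ≤ 2 * KT * B ^ 2 / (β * N) := by
      rw [A.norm_map]
      calc KT * ‖b i‖ ^ 2 / ‖w a‖ ≤ KT * B ^ 2 / (β * N / 2) := by
            gcongr
            · exact hbB i
            · exact hwhalf a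
        _ = _ := by field_simp
    have h7 : ‖(s' (f p) / s p) • TL L (w (a + 1)) + (s' (f p) / s p) • TL L (w (a - 1))
        - (2 : ℝ) • ((s' (f p) / s p) • TL L (w a))‖ ≤ μ / 2 := by
      have e0 : (s' (f p) / s p) • TL L (w (a + 1)) + (s' (f p) / s p) • TL L (w (a - 1))
          - (2 : ℝ) • ((s' (f p) / s p) • TL L (w a))
          = (s' (f p) / s p) • (TL L (w a + A (b i)) + TL L (w a - A (b i))
            - (2 : ℝ) • TL L (w a)) := by
        rw [hwsucc, hwpred, smul_sub, smul_add, smul_comm (2 : ℝ)]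
      rw [e0, norm_smul, Real.norm_eq_abs, abs_of_pos hρpos]
      calc (s' (f p) / s p) * ‖TL L (w a + A (b i)) + TL L (w a - A (b i))
            - (2 : ℝ) • TL L (w a)‖ ≤ ρM * (2 * KT * B ^ 2 / (β * N)) := by
            gcongr
            exact h5.trans h6
        _ ≤ μ / 2 := hβN3
    have h8 : 4 * η ≤ μ / 4 := by
      calc 4 * η = (s' (f p) / s p) * (8 * e * R ^ 2 / c ^ 2) := by rw [hη]; ring
        _ ≤ ρM * (8 * e * R ^ 2 / c ^ 2) := by gcongr
        _ ≤ μ / 4 := he3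
    have h9 : ‖g (a + 1) + g (a - 1) - (2 : ℝ) • g a‖ < μ := by
      have : g (a + 1) + g (a - 1) - (2 : ℝ) • g a
          = ((g (a + 1) + g (a - 1) - (2 : ℝ) • g a)
            - ((s' (f p) / s p) • TL L (w (a + 1)) + (s' (f p) / s p) • TL L (w (a - 1))
              - (2 : ℝ) • ((s' (f p) / s p) • TL L (w a))))
            + ((s' (f p) / s p) • TL L (w (a + 1)) + (s' (f p) / s p) • TL L (w (a - 1))
              - (2 : ℝ) • ((s' (f p) / s p) • TL L (w a))) := by abel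
      rw [this]
      refine lt_of_le_of_lt (norm_add_le _ _) ?_
      linarith
    have hn : ∀ a, Nbr s' D' (f p) (f (q a)) := fun a => hD' p hp _ (hqQ a) (hqN a)
    rcases hgap (f p) hfp (f (q (a + 1))) (hf.maps _ (hqQ _)) (f (q (a - 1)))
      (hf.maps _ (hqQ _)) (f (q a)) (hf.maps _ (hqQ _)) (hn _) (hn _) (hn _) with h | h
    · exact h
    · exact absurd h9 (not_lt.2 h)
  have haff := sg1_affine g N hsd
  have hfin : ‖TL L (w N) + TL L (w (-N)) - (2 : ℝ) • TL L (w 0)‖ ≤ 1 := by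
    have h1 := hpt N (by rw [abs_le]; omega)
    have h2 := hpt (-N) (by rw [abs_le]; omega)
    have h3 := hpt 0 (by rw [abs_le]; omega)
    have h4 := sg1_second h1 h2 h3
    rw [haff, zero_sub, norm_neg] at h4
    have e0 : (s' (f p) / s p) • TL L (w N) + (s' (f p) / s p) • TL L (w (-N))
          - (2 : ℝ) • ((s' (f p) / s p) • TL L (w 0))
          = (s' (f p) / s p) • (TL L (w N) + TL L (w (-N)) - (2 : ℝ) • TL L (w 0)) := by
        rw [smul_sub, smul_add, smul_comm (2 : ℝ)]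
    rw [e0, norm_smul, Real.norm_eq_abs, abs_of_pos hρpos] at h4
    have h5 : 4 * η = (s' (f p) / s p) * (8 * e * R ^ 2 / c ^ 2) := by rw [hη]; ring
    rw [h5] at h4
    exact (le_of_mul_le_mul_left h4 hρpos).trans he2
  -- divide by `N`
  have hNne : (N : ℝ) ≠ 0 := hNpos.ne'
  have hnz1 : A (b j + b i) ≠ 0 := by
    intro h
    have h1 := (hbβ i j hij 1 1).1
    rw [one_smul, one_smul, add_comm (b i), ← A.norm_map, h] at h1
    simp at h1
    linarith
  have hnz2 : A (b j - b i) ≠ 0 := by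
    intro h
    have h1 := (hbβ i j hij (-1) 1).1
    rw [neg_smul, one_smul, one_smul, add_comm (-b i), ← sub_eq_add_neg, ← A.norm_map, h] at h1
    simp at h1
    linarith
  have hnz3 : A (b j) ≠ 0 := by
    intro h
    have h1 := (hbβ i j hij 0 1).2
    rw [zero_smul, zero_add, one_smul, ← A.norm_map, h] at h1
    simp at h1
    linarith
  have hstep : ∀ (a : ℤ) (v : E m), v ≠ 0 → (N : ℝ)⁻¹ • w a = (N : ℝ)⁻¹ • w₀ + v →
      ‖TL L v - (N : ℝ)⁻¹ • TL L (w a)‖ ≤ C / c ^ 2 * C1 / N := by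
    intro a v hv hva
    rw [← TL_smul]
    have hne : (N : ℝ)⁻¹ • w a ≠ 0 := smul_ne_zero (inv_ne_zero hNne) (hw0 a)
    refine (TL_lip L hc hc1 hC1 hv hne).trans ?_
    have : v - (N : ℝ)⁻¹ • w a = -((N : ℝ)⁻¹ • w₀) := by rw [hva]; abel
    rw [this, norm_neg, norm_smul, norm_inv, Real.norm_eq_abs, abs_of_pos hNpos]
    calc C / c ^ 2 * ((N : ℝ)⁻¹ * ‖w₀‖) ≤ C / c ^ 2 * ((N : ℝ)⁻¹ * C1) := by gcongr
      _ = _ := by ring
  have k1 := hstep N (A (b j + b i)) hnz1 (by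
    simp only [hw, smul_add, map_add, map_smul, smul_smul, Int.cast_natCast,
      inv_mul_cancel₀ hNne, one_smul]
    abel)
  have k2 := hstep (-N) (A (b j - b i)) hnz2 (by
    simp only [hw, smul_add, map_add, map_sub, map_smul, smul_smul, Int.cast_neg,
      Int.cast_natCast, neg_smul, map_neg, smul_neg,
      inv_mul_cancel₀ hNne, one_smul]
    abel)
  have k3 := hstep 0 (A (b j)) hnz3 (by
    simp only [hw, smul_add, map_add, map_smul, smul_smul, Int.cast_zero, zero_smul, map_zero,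
      inv_mul_cancel₀ hNne, one_smul, smul_zero, zero_add])
  have k4 := sg1_second k1 k2 k3
  have k5 : ‖(N : ℝ)⁻¹ • TL L (w N) + (N : ℝ)⁻¹ • TL L (w (-N))
      - (2 : ℝ) • ((N : ℝ)⁻¹ • TL L (w 0))‖ ≤ 1 / N := by
    have e0 : (N : ℝ)⁻¹ • TL L (w N) + (N : ℝ)⁻¹ • TL L (w (-N))
        - (2 : ℝ) • ((N : ℝ)⁻¹ • TL L (w 0))
        = (N : ℝ)⁻¹ • (TL L (w N) + TL L (w (-N)) - (2 : ℝ) • TL L (w 0)) := by
      rw [smul_sub, smul_add, smul_comm (2 : ℝ)]
    rw [e0, norm_smul, norm_inv, Real.norm_eq_abs, abs_of_pos hNpos, inv_mul_le_iff₀ hNpos]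
    rw [mul_one_div_cancel hNne]
    exact hfin
  have k6 : ‖TL L (A (b j + b i)) + TL L (A (b j - b i)) - (2 : ℝ) • TL L (A (b j))‖
      ≤ 4 * (C / c ^ 2 * C1 / N) + 1 / N := by
    have : TL L (A (b j + b i)) + TL L (A (b j - b i)) - (2 : ℝ) • TL L (A (b j))
        = ((TL L (A (b j + b i)) + TL L (A (b j - b i)) - (2 : ℝ) • TL L (A (b j)))
          - ((N : ℝ)⁻¹ • TL L (w N) + (N : ℝ)⁻¹ • TL L (w (-N))
            - (2 : ℝ) • ((N : ℝ)⁻¹ • TL L (w 0))))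
          + ((N : ℝ)⁻¹ • TL L (w N) + (N : ℝ)⁻¹ • TL L (w (-N))
            - (2 : ℝ) • ((N : ℝ)⁻¹ • TL L (w 0))) := by abel
    rw [this]
    exact (norm_add_le _ _).trans (add_le_add k4 k5)
  calc _ ≤ 4 * (C / c ^ 2 * C1 / N) + 1 / N := k6
    _ = _ := by ring

end QIG
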