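import Pool.Agent.W_a51130_h62.AnDefs

/-!
If the second differences of `T_L` along a basis vanish then `L` is a similarity.

PROOF.  Put `c w = ‖w‖²/‖L w‖²`, so `T w = c w • L w`.  For `i ≠ j` and `a = b i`, `d = b j`,
`c(d+a)•L(d+a) + c(d-a)•L(d-a) = 2 c(d)•L d`.  `L` is injective, so
`c(d+a)•(d+a) + c(d-a)•(d-a) = 2c(d)•d`; `a, d` are linearly independent, hence `c(d+a) = c(d-a) = c(d)`.
Exchanging the roles: `c(a+d) = c(a)`.  So all `c (b i)` are equal to one constant `c > 0` (`m ≥ 2`), and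
`‖L(b i + b j)‖² = c⁻¹‖b i + b j‖²`, which gives `⟪L (b i), L (b j)⟫ = c⁻¹ ⟪b i, b j⟫` for all `i, j`.
By bilinearity `⟪L v, L w⟫ = c⁻¹⟪v, w⟫` for all `v, w`.
-/

namespace QIG

/-- two coefficients of a vanishing combination of two different basis vectors -/
theorem tsim_coeff {m : ℕ} (b : Module.Basis (Fin m) ℝ (E m)) {i j : Fin m} (hij : i ≠ j)
    {s t : ℝ} (h : s • b i + t • b j = 0) : s = 0 ∧ t = 0 := by
  have h1 : b.repr (s • b i + t • b j) = 0 := by rw [h]; simp
  constructor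
  · have h2 := congrArg (fun f : Fin m →₀ ℝ => f i) h1
    simpa [Finsupp.single_apply, hij, hij.symm] using h2
  · have h2 := congrArg (fun f : Fin m →₀ ℝ => f j) h1
    simpa [Finsupp.single_apply, hij, hij.symm] using h2

theorem sim_of_second_diff {m : ℕ} (hm : 2 ≤ m) (L : E m →L[ℝ] E m)
    (hL : Function.Injective L) (b : Module.Basis (Fin m) ℝ (E m))
    (h : ∀ i j, i ≠ j → TL L (b j + b i) + TL L (b j - b i) = (2 : ℝ) • TL L (b j)) :
    ∃ σ : ℝ, 0 < σ ∧ ∀ v, ‖L v‖ = σ * ‖v‖ := by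
  classical
  set c : E m → ℝ := fun w => ‖w‖ ^ 2 / ‖L w‖ ^ 2 with hc
  have hLne : ∀ w, w ≠ 0 → L w ≠ 0 := fun w hw h0 => hw (hL (by rw [h0, map_zero]))
  have hTL : ∀ w, TL L w = L (c w • w) := fun w => by rw [map_smul]; rfl
  -- equality of the constants
  have key : ∀ i j, i ≠ j → c (b j + b i) = c (b j) := by
    intro i j hij
    have h1 := h i j hij
    rw [hTL, hTL, hTL, ← map_smul, ← map_add] at h1
    have h2 := hL h1
    have h3 : (c (b j + b i) - c (b j - b i)) • b i +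
        (c (b j + b i) + c (b j - b i) - 2 * c (b j)) • b j = 0 := by
      have h4 : (c (b j + b i) - c (b j - b i)) • b i +
        (c (b j + b i) + c (b j - b i) - 2 * c (b j)) • b j =
        (c (b j + b i) • (b j + b i) + c (b j - b i) • (b j - b i)) - (2 : ℝ) • c (b j) • b j := by
        module
      rw [h4, h2, sub_self]
    obtain ⟨e1, e2⟩ := tsim_coeff b hij h3
    linarith
  have key2 : ∀ i j, c (b i) = c (b j) := by
    intro i j
    by_cases hij : i = j
    · rw [hij]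
    · rw [← key i j hij, add_comm, key j i (Ne.symm hij)]
  have i0 : Fin m := ⟨0, by omega⟩
  have hbne : ∀ i, b i ≠ 0 := fun i => b.ne_zero i
  set c0 : ℝ := c (b i0) with hc0
  have hcpos : ∀ w, w ≠ 0 → 0 < c w := fun w hw => by
    have h1 : 0 < ‖w‖ := norm_pos_iff.2 hw
    have h2 : 0 < ‖L w‖ := norm_pos_iff.2 (hLne w hw)
    simp only [hc]; positivity
  have hc0pos : 0 < c0 := hcpos _ (hbne i0)
  have hsq : ∀ w, w ≠ 0 → ‖w‖ ^ 2 = c w * ‖L w‖ ^ 2 := fun w hw => by
    have h2 : 0 < ‖L w‖ := norm_pos_iff.2 (hLne w hw)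
    simp only [hc]; field_simp
  have hdiag : ∀ i, ‖b i‖ ^ 2 = c0 * ‖L (b i)‖ ^ 2 := fun i => by
    rw [hsq _ (hbne i), key2 i i0]
  have hinner : ∀ i j, (innerₗ (E m)) (b i) (b j) =
      (c0 • (innerₗ (E m)).compl₁₂ (L : E m →ₗ[ℝ] E m) (L : E m →ₗ[ℝ] E m)) (b i) (b j) := by
    intro i j
    simp only [LinearMap.smul_apply, LinearMap.compl₁₂_apply, innerₗ_apply_apply, smul_eq_mul,
      ContinuousLinearMap.coe_coe]
    by_cases hij : i = j
    · subst hij
      rw [real_inner_self_eq_norm_sq, real_inner_self_eq_norm_sq, hdiag]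
    · have hne : b j + b i ≠ 0 := by
        intro h0
        have := tsim_coeff b hij (s := 1) (t := 1) (by rw [one_smul, one_smul, add_comm]; exact h0)
        exact one_ne_zero this.1
      have h1 := hsq _ hne
      rw [key i j hij, key2 j i0, ← hc0, map_add, norm_add_sq_real, norm_add_sq_real, hdiag i,
        hdiag j] at h1
      rw [real_inner_comm (b j) (b i), real_inner_comm (L (b j)) (L (b i))]
      linarith
  have hbil := LinearMap.ext_basis b b hinner
  have hall : ∀ v, ‖v‖ ^ 2 = c0 * ‖L v‖ ^ 2 := by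
    intro v
    have h1 := congrArg (fun B : E m →ₗ[ℝ] E m →ₗ[ℝ] ℝ => B v v) hbil
    simp only [LinearMap.smul_apply, LinearMap.compl₁₂_apply, innerₗ_apply_apply, smul_eq_mul,
      ContinuousLinearMap.coe_coe, real_inner_self_eq_norm_sq] at h1
    exact h1
  refine ⟨(Real.sqrt c0)⁻¹, inv_pos.2 (Real.sqrt_pos.2 hc0pos), fun v => ?_⟩
  have h1 : ‖v‖ = Real.sqrt c0 * ‖L v‖ := by
    rw [← Real.sqrt_sq (norm_nonneg v), hall v, Real.sqrt_mul hc0pos.le,
      Real.sqrt_sq (norm_nonneg _)]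
  rw [h1, ← mul_assoc, inv_mul_cancel₀ (Real.sqrt_pos.2 hc0pos).ne', one_mul]

end QIG
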