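import Pool.Agent.W_a51130_h62.StepG1
import Pool.Agent.W_a51130_h62.TSim

/-!
Step gamma, conclusion: the derivative is a similarity.

PROOF.  The set `O` of linear maps `A : E m →L[ℝ] E m` with `‖A v‖ = ‖v‖` for all `v` is compact (closed and
bounded in a finite dimensional normed space).  The function
`δ(A) = ∑_{i ≠ j} ‖TL L (A (b j + b i)) + TL L (A (b j - b i)) - 2 TL L (A (b j))‖` is continuous on `O`
(`TL L` is continuous off `0`, by `TL_lip`, and `b j ± b i, b j ≠ 0`), and by `step_gamma_approx` it takes values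
`≤ m² K/N` for every `N`; so it attains the value `0` at some `A ∈ O`, which is bijective (linear isometry of a
finite dimensional space).  Apply `sim_of_second_diff` to the basis `b.map A`.
-/

namespace QIG

open Filter Topology

theorem StepG2_TL_continuousAt {m : ℕ} {L : E m →L[ℝ] E m} (hL : Function.Injective L) {w : E m}
    (hw : w ≠ 0) : ContinuousAt (TL L) w := by
  have h0 : L w ≠ 0 := by
    intro h
    exact hw (hL (by rw [h, map_zero]))
  have h1 : ‖L w‖ ^ 2 ≠ 0 := pow_ne_zero 2 (norm_ne_zero_iff.mpr h0)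
  have ha : ContinuousAt (fun v : E m => ‖v‖ ^ 2) w := (continuous_norm.pow 2).continuousAt
  have hb : ContinuousAt (fun v : E m => ‖L v‖ ^ 2) w :=
    ((continuous_norm.comp L.continuous).pow 2).continuousAt
  have hc : ContinuousAt (fun v : E m => L v) w := L.continuous.continuousAt
  exact (ha.div hb h1).smul hc

theorem StepG2_compact (m : ℕ) :
    IsCompact {A : E m →L[ℝ] E m | ∀ v, ‖A v‖ = ‖v‖} := by
  have : ProperSpace (E m →L[ℝ] E m) := FiniteDimensional.proper ℝ _
  refine Metric.isCompact_of_isClosed_isBounded ?_ ?_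
  · have : {A : E m →L[ℝ] E m | ∀ v, ‖A v‖ = ‖v‖} = ⋂ v, {A : E m →L[ℝ] E m | ‖A v‖ = ‖v‖} := by
      ext A
      simp
    rw [this]
    refine isClosed_iInter fun v => isClosed_eq ?_ continuous_const
    exact continuous_norm.comp (ContinuousLinearMap.apply ℝ (E m) v).continuous
  · refine (Metric.isBounded_closedBall (x := (0 : E m →L[ℝ] E m)) (r := 1)).subset ?_
    intro A hA
    rw [mem_closedBall_zero_iff]
    refine A.opNorm_le_bound zero_le_one fun v => ?_
    rw [hA v, one_mul]

theorem step_gamma {m : ℕ} (hm : 2 ≤ m) {Q Q' : Set (E m)} {s s' : E m → ℝ}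
    (b : Module.Basis (Fin m) ℝ (E m)) (hQ : ShiftPack Q s b) (hQ' : GapPack Q' s')
    {f : E m → E m} (hf : PackMap Q s Q' s' f) {x : E m} (hx : x ∉ Q)
    {L : E m →L[ℝ] E m} (hL : HasFDerivAt f L x) (hLi : Function.Injective L) :
    ∃ σ : ℝ, 0 < σ ∧ ∀ v, ‖L v‖ = σ * ‖v‖ := by
  classical
  obtain ⟨K, hK⟩ := step_gamma_approx hm b hQ hQ' hf hx hL hLi
  set O : Set (E m →L[ℝ] E m) := {A : E m →L[ℝ] E m | ∀ v, ‖A v‖ = ‖v‖} with hO
  have hOc : IsCompact O := StepG2_compact m
  have hOne : O.Nonempty := ⟨ContinuousLinearMap.id ℝ (E m), fun v => rfl⟩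
  set δ : (E m →L[ℝ] E m) → ℝ := fun A => ∑ i, ∑ j, if i = j then 0 else
    ‖TL L (A (b j + b i)) + TL L (A (b j - b i)) - (2 : ℝ) • TL L (A (b j))‖ with hδ
  have hli : LinearIndependent ℝ b := b.linearIndependent
  have hne : ∀ i j, i ≠ j → b j + b i ≠ 0 ∧ b j - b i ≠ 0 := by
    intro i j hij
    constructor
    · intro h
      have h2 := congrArg (fun v => b.repr v j) h
      simp [hij.symm] at h2
    · intro h
      have h2 := congrArg (fun v => b.repr v j) h
      simp [hij.symm] at h2
  have hcont : ContinuousOn δ O := by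
    refine continuousOn_finsetSum _ fun i _ => continuousOn_finsetSum _ fun j _ => ?_
    by_cases hij : i = j
    · simp only [hij, if_true]
      exact continuousOn_const
    · simp only [hij, if_false]
      intro A hA
      have hA0 : ∀ v : E m, v ≠ 0 → A v ≠ 0 := by
        intro v hv
        rw [← norm_ne_zero_iff, hA v]
        exact norm_ne_zero_iff.mpr hv
      have happ : ∀ v : E m, v ≠ 0 → ContinuousAt (fun A : E m →L[ℝ] E m => TL L (A v)) A := by
        intro v hv
        exact ContinuousAt.comp (f := fun A : E m →L[ℝ] E m => A v)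
          (StepG2_TL_continuousAt hLi (hA0 v hv))
          (ContinuousLinearMap.apply ℝ (E m) v).continuous.continuousAt
      refine ContinuousAt.continuousWithinAt ?_
      refine ContinuousAt.norm ?_
      refine ContinuousAt.sub (ContinuousAt.add (happ _ (hne i j hij).1) (happ _ (hne i j hij).2)) ?_
      exact (happ _ (b.ne_zero j)).const_smul (2 : ℝ)
  obtain ⟨A, hAO, hAmin⟩ := hOc.exists_isMinOn hOne hcont
  have hδ0 : ∀ N : ℕ, 1 ≤ N → δ A ≤ ((m : ℝ) ^ 2 * |K|) / N := by
    intro N hN
    obtain ⟨R, hR⟩ := hK N hN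
    have hRO : (R.toContinuousLinearEquiv : E m →L[ℝ] E m) ∈ O := by
      intro v
      exact R.norm_map v
    refine (hAmin hRO).trans ?_
    have hNp : (0 : ℝ) < N := by exact_mod_cast hN
    have hterm : ∀ i j : Fin m, (if i = j then 0 else
        ‖TL L ((R.toContinuousLinearEquiv : E m →L[ℝ] E m) (b j + b i)) +
          TL L ((R.toContinuousLinearEquiv : E m →L[ℝ] E m) (b j - b i)) -
          (2 : ℝ) • TL L ((R.toContinuousLinearEquiv : E m →L[ℝ] E m) (b j))‖) ≤ |K| / N := by
      intro i j
      by_cases hij : i = j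
      · simp only [hij, if_true]
        positivity
      · simp only [hij, if_false]
        refine (hR i j hij).trans ?_
        exact div_le_div_of_nonneg_right (le_abs_self K) hNp.le
    calc δ (R.toContinuousLinearEquiv : E m →L[ℝ] E m) ≤ ∑ _i : Fin m, ∑ _j : Fin m, |K| / N :=
          Finset.sum_le_sum fun i _ => Finset.sum_le_sum fun j _ => hterm i j
      _ = ((m : ℝ) ^ 2 * |K|) / N := by
          simp only [Finset.sum_const, Finset.card_univ, Fintype.card_fin, nsmul_eq_mul]
          ring
  have hδle : δ A ≤ 0 := by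
    have ht : Tendsto (fun N : ℕ => ((m : ℝ) ^ 2 * |K|) / (N : ℝ)) atTop (𝓝 0) :=
      tendsto_const_div_atTop_nhds_zero_nat _
    refine ge_of_tendsto ht ?_
    filter_upwards [eventually_ge_atTop 1] with N hN
    exact hδ0 N hN
  have hnn : ∀ i j : Fin m, 0 ≤ (if i = j then (0 : ℝ) else
      ‖TL L (A (b j + b i)) + TL L (A (b j - b i)) - (2 : ℝ) • TL L (A (b j))‖) := by
    intro i j
    split_ifs
    · exact le_rfl
    · exact norm_nonneg _
  have hzero : ∀ i j, i ≠ j →
      TL L (A (b j + b i)) + TL L (A (b j - b i)) - (2 : ℝ) • TL L (A (b j)) = 0 := by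
    intro i j hij
    have h1 : (if i = j then (0 : ℝ) else
        ‖TL L (A (b j + b i)) + TL L (A (b j - b i)) - (2 : ℝ) • TL L (A (b j))‖) ≤ δ A := by
      calc _ ≤ ∑ j', (if i = j' then (0 : ℝ) else
            ‖TL L (A (b j' + b i)) + TL L (A (b j' - b i)) - (2 : ℝ) • TL L (A (b j'))‖) :=
            Finset.single_le_sum (f := fun j' => if i = j' then (0 : ℝ) else
              ‖TL L (A (b j' + b i)) + TL L (A (b j' - b i)) - (2 : ℝ) • TL L (A (b j'))‖)
              (fun j' _ => hnn i j') (Finset.mem_univ j)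
        _ ≤ δ A := Finset.single_le_sum (f := fun i' => ∑ j', (if i' = j' then (0 : ℝ) else
              ‖TL L (A (b j' + b i')) + TL L (A (b j' - b i')) - (2 : ℝ) • TL L (A (b j'))‖))
              (fun i' _ => Finset.sum_nonneg fun j' _ => hnn i' j') (Finset.mem_univ i)
    rw [if_neg hij] at h1
    have h2 := h1.trans hδle
    exact norm_le_zero_iff.mp h2
  set li : E m →ₗᵢ[ℝ] E m := ⟨A.toLinearMap, hAO⟩ with hli2
  set R : E m ≃ₗᵢ[ℝ] E m := li.toLinearIsometryEquiv rfl with hR
  have hRA : ∀ v, R v = A v := fun v => rfl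
  refine sim_of_second_diff hm L hLi (b.map R.toLinearEquiv) ?_
  intro i j hij
  have h := hzero i j hij
  rw [sub_eq_zero] at h
  simp only [Module.Basis.map_apply]
  have hR' : ∀ v, R.toLinearEquiv v = A v := fun v => rfl
  rw [hR', hR', ← map_add, ← map_sub]
  exact h

end QIG
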