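import Pool.Agent.W_a51130_h62.GlDefs
import Pool.Agent.W_a51130_h62.PcVert
import Pool.Agent.W_a51130_h62.GeoPath

/-!
A piece map extends to a quasi-isometry of the upper half spaces.

PROOF.  For `x` choose a vertex `(γ x, n x)` with `hd x (vx (γ x) (n x)) ≤ C₀` (`vx_dense`), and put
`Φ x = P'.vx (F (γ x)) (n x)`.
(1) If `hd (vx g n)(vx g' n') ≤ r` then `hd (vx (F g) n)(vx (F g') n') ≤ r'(r)`: `vx_close`; first case `g' = g tr v`,
`‖v‖ ≤ C e^n`, `|n-n'| ≤ C`: `F g' = F g tr v'`, `‖v'‖ ≤ K(1+‖v‖) ≤ 2KC e^n`; second case `F g⁻¹F g' ∈ bal r'`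
(`PieceMap.bal`).  Use `vx_hd_le`.
(2) So `hd x y ≤ r → hd (Φ x)(Φ y) ≤ r'`; with a chain (`exists_rough_geod`: at most `hd x y + C` steps of bounded
length) `hd (Φ x)(Φ y) ≤ K(hd x y + 1)`.
(3) The same for `F'`, with `Φ'`; `hd x (Φ' (Φ x))` is bounded: `Φ x` is a vertex `(F γ, n)`; its chosen vertex `(γ', n')`
is near it, so by (1) for `F'` `Φ'(Φ x) = vx (F' γ') n'` is near `vx (F'(F γ)) n`, and `F'(F γ) = γ·tr w`, with
`γ⁻¹F'(Fγ) ∈ bal r`, i.e. `‖w‖` bounded, so it is near `vx γ n` (`vx_hd_le`).  So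
`hd x y ≤ C + hd (Φ'Φx)(Φ'Φy) ≤ K'(hd (Φx)(Φy) + 1)`.  Similarly `hd y (Φ(Φ' y))` bounded: surjectivity.
-/

namespace QIG

variable {m : ℕ}

theorem PieceMap.symm {P P' : Piece m} {F : P.Γ → P'.Γ} {F' : P'.Γ → P.Γ}
    (hF : PieceMap P P' F F') : PieceMap P' P F' F where
  bal := hF.bal'
  bal' := hF.bal
  lat := hF.lat'
  lat' := hF.lat
  par := hF.par'
  par' := hF.par
  inv := hF.inv'
  inv' := hF.inv

/-- Nearby vertices are mapped to nearby vertices. -/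
theorem vmap_close {P P' : Piece m} {F : P.Γ → P'.Γ} {F' : P'.Γ → P.Γ}
    (hF : PieceMap P P' F F') (r : ℝ) : ∃ r' : ℝ, ∀ (g g' : P.Γ) (n n' : ℕ),
      hd (P.vx g n) (P.vx g' n') ≤ r → hd (P'.vx (F g) n) (P'.vx (F g') n') ≤ r' := by
  obtain ⟨C, hC⟩ := P.vx_close r
  obtain ⟨K, hK⟩ := hF.lat
  obtain ⟨r2, hr2⟩ := hF.bal C
  obtain ⟨r', hr'⟩ := P'.vx_hd_le (|K| * (1 + |C|) + |C| + |r2|)
  refine ⟨r', fun g g' n n' h => hr' _ _ _ _ ?_⟩
  have hK0 := abs_nonneg K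
  have hC0 := abs_nonneg C
  have hr20 := abs_nonneg r2
  have hKC : 0 ≤ |K| * (1 + |C|) := by positivity
  rcases hC g g' n n' h with ⟨v, hv, hv2, hv3⟩ | ⟨h1, h2, h3⟩
  · left
    obtain ⟨v', hv', hv'2⟩ := hK g v
    refine ⟨v', by rw [hv]; exact hv', ?_, ?_⟩
    · have he : 1 ≤ Real.exp (n : ℝ) := Real.one_le_exp (Nat.cast_nonneg n)
      have he0 : 0 < Real.exp (n : ℝ) := Real.exp_pos _
      have hn := norm_nonneg (v : E m)
      have a1 : ‖(v : E m)‖ ≤ |C| * Real.exp n :=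
        hv2.trans (mul_le_mul_of_nonneg_right (le_abs_self C) he0.le)
      have a2 : K * (1 + ‖(v : E m)‖) ≤ |K| * (1 + ‖(v : E m)‖) :=
        mul_le_mul_of_nonneg_right (le_abs_self K) (by positivity)
      have a3 : |K| * (1 + ‖(v : E m)‖) ≤ |K| * ((1 + |C|) * Real.exp n) := by
        apply mul_le_mul_of_nonneg_left _ hK0
        nlinarith
      have a4 : 0 ≤ |C| * Real.exp n := by positivity
      have a5 : 0 ≤ |r2| * Real.exp n := by positivity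
      nlinarith
    · have := le_abs_self C
      linarith
  · right
    have a1 := le_abs_self C
    have a2 := le_abs_self r2
    exact ⟨by linarith, by linarith, P'.bal_mono (by linarith) (hr2 g g' h3)⟩

/-- Coarse Lipschitz maps. -/
theorem vmap_lip (Φ : HPt m → HPt m) (h : ∀ r : ℝ, ∃ r' : ℝ, ∀ x y, hd x y ≤ r →
    hd (Φ x) (Φ y) ≤ r') : ∃ K : ℝ, 0 ≤ K ∧ ∀ x y, hd (Φ x) (Φ y) ≤ K * (hd x y + 1) := by
  obtain ⟨C, hC, hg⟩ := exists_rough_geod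
  obtain ⟨r', hr'⟩ := h C
  have hl2 : Real.log 2 ≤ 1 := by
    have := Real.log_two_lt_d9
    linarith
  refine ⟨(|r'| + 1) * (C + 1), by positivity, fun x y => ?_⟩
  obtain ⟨n, z, hz0, hzn, hstep, hn, -⟩ := hg x y
  have key : ∀ k ≤ n, hd (Φ (z 0)) (Φ (z k)) ≤ |r'| * k + 1 := by
    intro k
    induction k with
    | zero =>
      intro _
      rw [hd_self]
      push_cast
      linarith
    | succ k ih =>
      intro hk
      have h1 := ih (by omega)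
      have h2 := hr' _ _ (hstep k (by omega))
      have h3 := hd_triangle (Φ (z 0)) (Φ (z k)) (Φ (z (k + 1)))
      have h4 := le_abs_self r'
      push_cast
      linarith
  have h1 := key n le_rfl
  rw [hz0, hzn] at h1
  have hd0 := hd_pos x y
  have hr0 := abs_nonneg r'
  have h2 : |r'| * (n : ℝ) ≤ |r'| * (hd x y + C) := mul_le_mul_of_nonneg_left hn hr0
  have h3 : |r'| * (hd x y + C) + 1 ≤ (|r'| + 1) * ((C + 1) * (hd x y + 1)) := by
    have a1 : hd x y + C ≤ (C + 1) * (hd x y + 1) := by nlinarith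
    have a2 : |r'| * (hd x y + C) ≤ |r'| * ((C + 1) * (hd x y + 1)) :=
      mul_le_mul_of_nonneg_left a1 hr0
    have a3 : 1 ≤ (C + 1) * (hd x y + 1) := by nlinarith
    nlinarith
  calc hd (Φ x) (Φ y) ≤ |r'| * (n : ℝ) + 1 := h1
    _ ≤ (|r'| + 1) * ((C + 1) * (hd x y + 1)) := by linarith
    _ = (|r'| + 1) * (C + 1) * (hd x y + 1) := by ring

/-- `F' (F g)` is near `g`. -/
theorem vmap_inv {P P' : Piece m} {F : P.Γ → P'.Γ} {F' : P'.Γ → P.Γ}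
    (hF : PieceMap P P' F F') : ∃ r : ℝ, ∀ (g : P.Γ) (n : ℕ),
      hd (P.vx g n) (P.vx (F' (F g)) n) ≤ r := by
  obtain ⟨r, hr⟩ := hF.inv
  obtain ⟨r', hr'⟩ := P.vx_hd_le (Real.exp r)
  refine ⟨r', fun g n => hr' _ _ _ _ (Or.inl ?_)⟩
  obtain ⟨h1, h2⟩ := hr g
  obtain ⟨w, hw⟩ := (P.par_iff _).1 h1
  refine ⟨w, ?_, ?_, ?_⟩
  · rw [← hw]
    group
  · rw [hw] at h2
    have h3 : hd (base m) (P.orb (P.tr w)) ≤ r := by
      rw [hd_comm]
      exact h2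
    have h4 := norm_le_of_hd h3
    have h5 : (P.orb (P.tr w)).u = (w : E m) := by
      change (0 : E m) + (w : E m) = w
      rw [zero_add]
    rw [h5] at h4
    have h6 : ((base m).u : E m) = 0 := rfl
    have h7 : (base m).t = 1 := rfl
    rw [h6, h7, zero_sub, norm_neg, mul_one] at h4
    have h8 : 1 ≤ Real.exp (n : ℝ) := Real.one_le_exp (Nat.cast_nonneg n)
    have h9 := Real.exp_pos r
    nlinarith
  · rw [sub_self, abs_zero]
    exact (Real.exp_pos r).le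

theorem vmap_main {P P' : Piece m} {F : P.Γ → P'.Γ} {F' : P'.Γ → P.Γ}
    (hF : PieceMap P P' F F') (γ : HPt m → P.Γ) (N : HPt m → ℕ) (C₀ : ℝ)
    (hγ : ∀ x, hd x (P.vx (γ x) (N x)) ≤ C₀) : ∃ K : ℝ, 0 ≤ K ∧
      ∀ x y, hd (P'.vx (F (γ x)) (N x)) (P'.vx (F (γ y)) (N y)) ≤ K * (hd x y + 1) := by
  apply vmap_lip (fun x => P'.vx (F (γ x)) (N x))
  intro r
  obtain ⟨r', hr'⟩ := vmap_close hF (2 * C₀ + r)
  refine ⟨r', fun x y h => hr' _ _ _ _ ?_⟩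
  have h1 := hd_triangle (P.vx (γ x) (N x)) x (P.vx (γ y) (N y))
  have h2 := hd_triangle x y (P.vx (γ y) (N y))
  have h3 := hγ x
  have h4 := hγ y
  rw [hd_comm (P.vx (γ x) (N x)) x] at h1
  linarith

theorem exists_hmap {P P' : Piece m} {F : P.Γ → P'.Γ} {F' : P'.Γ → P.Γ}
    (hF : PieceMap P P' F F') : ∃ (Φ : HPt m → HPt m) (K : ℝ), 1 ≤ K ∧
      (∀ x y, hd (Φ x) (Φ y) ≤ K * (hd x y + 1)) ∧ (∀ x y, hd x y ≤ K * (hd (Φ x) (Φ y) + 1)) ∧
      (∀ g n, hd (Φ (P.vx g n)) (P'.vx (F g) n) ≤ K) := by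
  obtain ⟨C₀, hC₀⟩ := P.vx_dense
  choose γ N hγ using hC₀
  obtain ⟨C₁, hC₁⟩ := P'.vx_dense
  choose γ' N' hγ' using hC₁
  obtain ⟨K, hK0, hK⟩ := vmap_main hF γ N C₀ hγ
  obtain ⟨K', hK'0, hK'⟩ := vmap_main hF.symm γ' N' C₁ hγ'
  obtain ⟨r1, hr1⟩ := vmap_close hF.symm C₁
  obtain ⟨r2, hr2⟩ := vmap_inv hF
  obtain ⟨r3, hr3⟩ := vmap_close hF C₀
  set Φ : HPt m → HPt m := fun x => P'.vx (F (γ x)) (N x) with hΦ
  set Φ' : HPt m → HPt m := fun x => P.vx (F' (γ' x)) (N' x) with hΦ'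
  have hback : ∀ x, hd x (Φ' (Φ x)) ≤ C₀ + r2 + r1 := by
    intro x
    have h1 := hγ x
    have h2 := hr2 (γ x) (N x)
    have h3 := hr1 (F (γ x)) (γ' (Φ x)) (N x) (N' (Φ x)) (hγ' (Φ x))
    have h4 := hd_triangle x (P.vx (γ x) (N x)) (Φ' (Φ x))
    have h5 := hd_triangle (P.vx (γ x) (N x)) (P.vx (F' (F (γ x))) (N x)) (Φ' (Φ x))
    have h6 : hd (P.vx (F' (F (γ x))) (N x)) (Φ' (Φ x)) ≤ r1 := h3
    linarith
  have hB0 : 0 < C₀ + r2 + r1 := lt_of_lt_of_le (hd_pos _ _) (hback (base m))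
  refine ⟨Φ, K + K' + 2 * (C₀ + r2 + r1) + |r3| + 1, ?_, ?_, ?_, ?_⟩
  · have := abs_nonneg r3
    linarith
  · intro x y
    have h1 := hK x y
    have h2 := hd_pos x y
    have h3 := abs_nonneg r3
    have h4 : K * (hd x y + 1) ≤ (K + K' + 2 * (C₀ + r2 + r1) + |r3| + 1) * (hd x y + 1) := by
      apply mul_le_mul_of_nonneg_right _ (by linarith)
      linarith
    exact h1.trans h4
  · intro x y
    have h1 := hK' (Φ x) (Φ y)
    have h2 := hback x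
    have h3 := hback y
    have h4 := hd_triangle x (Φ' (Φ x)) y
    have h5 := hd_triangle (Φ' (Φ x)) (Φ' (Φ y)) y
    rw [hd_comm (Φ' (Φ y)) y] at h5
    have h6 : hd (Φ' (Φ x)) (Φ' (Φ y)) ≤ K' * (hd (Φ x) (Φ y) + 1) := h1
    have h7 := hd_pos (Φ x) (Φ y)
    have h8 := abs_nonneg r3
    have h9 : 0 ≤ (K + 2 * (C₀ + r2 + r1) + |r3| + 1) * hd (Φ x) (Φ y) := by
      apply mul_nonneg _ h7.le
      linarith
    nlinarith
  · intro g n
    have h1 := hr3 g (γ (P.vx g n)) n (N (P.vx g n)) (hγ (P.vx g n))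
    rw [hd_comm] at h1
    have h2 : hd (Φ (P.vx g n)) (P'.vx (F g) n) ≤ r3 := h1
    have h3 := le_abs_self r3
    linarith

theorem vmap_par {P P' : Piece m} {F : P.Γ → P'.Γ} {F' : P'.Γ → P.Γ}
    (hF : PieceMap P P' F F') {g h : P.Γ} (hp : P.Par (g⁻¹ * h)) : P'.Par ((F g)⁻¹ * F h) := by
  obtain ⟨v, hv⟩ := (P.par_iff _).1 hp
  obtain ⟨K, hK⟩ := hF.lat
  obtain ⟨v', hv', -⟩ := hK g v
  have h1 : h = g * P.tr v := by
    rw [← hv]
    group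
  rw [h1, hv']
  have h2 : (F g)⁻¹ * (F g * P'.tr v') = P'.tr v' := by group
  rw [h2]
  exact P'.par_tr v'

theorem PieceMap.coset_iff {P P' : Piece m} {F : P.Γ → P'.Γ} {F' : P'.Γ → P.Γ}
    (hF : PieceMap P P' F F') (g h : P.Γ) : P'.Par ((F g)⁻¹ * F h) ↔ P.Par (g⁻¹ * h) := by
  constructor
  · intro hp
    have h1 := vmap_par hF.symm hp
    obtain ⟨r, hr⟩ := hF.inv
    have h2 := (hr g).1
    have h3 := P.par_inv (hr h).1
    have h4 : g⁻¹ * h = (g⁻¹ * F' (F g)) * ((F' (F g))⁻¹ * F' (F h)) * (h⁻¹ * F' (F h))⁻¹ := by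
      group
    rw [h4]
    exact P.par_mul (P.par_mul h2 h1) h3
  · exact vmap_par hF

theorem PieceMap.par_iff {P P' : Piece m} {F : P.Γ → P'.Γ} {F' : P'.Γ → P.Γ}
    (hF : PieceMap P P' F F') (g : P.Γ) : P'.Par (F g) ↔ P.Par g := by
  have h1 := hF.coset_iff 1 g
  rw [inv_one, one_mul] at h1
  rw [← h1]
  constructor
  · intro h
    exact P'.par_mul (P'.par_inv hF.par) h
  · intro h
    have h2 : F g = F 1 * ((F 1)⁻¹ * F g) := by group
    rw [h2]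
    exact P'.par_mul hF.par h

end QIG
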