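import Pool.Agent.W_a51130_h62.Phi4a
import Pool.Agent.W_a51130_h62.Phi4b

/-!
Existence of the wall functions.

PROOF.  Let `X : PT D A`, `ρ` a covering radius of the lattice, `r` large, `S = gen r`.
`GSet S`: finite, `1`, symmetric (`gen_inv`), and generating by `four_b` (every `h` is `ba v` times a word, and
`ba v = of 0 (tr v)` is a word by `Piece.exists_gset`).
Let `C_a` be the constant of `four_a r` and `C_b` that of `four_b ρ`.
(i) `dW h ≤ wl ((ba v)⁻¹h) ≤ C_b/√(T h) + 1` for the lattice vector `v` nearest to `Φ h`; so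
`√(T h) (1 + dW h) ≤ C_b + 2`.
(ii) `step`: `‖Φ h - Φ(hs)‖ ≤ √C_a √(T h)√(T(hs)) ≤ C/((1+dW h)(1+dW(hs))) ≤ 2C/(1+dW h)²`
(`|dW h - dW (hs)| ≤ 1`).
(iii) Along a shortest path from a nearest point `ba v` (`exists_dW`) to `h` the `j`-th vertex has `dW = j`; by `step`,
`‖Φ h - v‖ ≤ ∑ C/(1+j)² ≤ 2C`.
(iv) `far`: `wd h h' ≤ dW h + wd (ba v)(ba v') + dW h'`, `wd (ba v)(ba v') ≤ C(1+‖v-v'‖)` (`Piece.lat_word` for
`P 0`) and `‖v-v'‖ ≤ ‖Φ h - Φ h'‖ + 4C`.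
(v) `piece`: for `g` parabolic, `Φ(of i g) = w`, `u(g o) = Ψ_i w`; otherwise `Φ(of i g) = Ψ_i⁻¹ u(g(0,κ))` (`Φ_cons` with
`h = 1`, `Φ 1 = 0`), and `hd(g(0,κ), g o)` is bounded, heights `≤ 1`.
(vi) `proj`: `PT.proj`.
-/

namespace QIG

open Monoid
open scoped Pointwise

variable {m : ℕ}

/-- `h` is at word distance at most `C / √(T h) + 1` of the wall. -/
theorem wallFn_height {D : Gl m} {A : AmalStr D.φ} (X : PT D A) {S : Set D.G} (hS : GSet S)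
    {ρ C₁ : ℝ} (hC₁ : 0 < C₁) (hρ : ∀ x : E m, ∃ v : (D.P 0).lat, ‖x - v‖ ≤ ρ)
    (h4b : ∀ (h : D.G) (v : (D.P 0).lat), ‖X.Φ h - v‖ ≤ ρ → ∀ n : ℕ,
      C₁ / Real.sqrt (X.T h) ≤ n → (D.ba v)⁻¹ * h ∈ S ^ n) (h : D.G) :
    Real.sqrt (X.T h) * (1 + D.dW S h) ≤ C₁ + 2 := by
  obtain ⟨v, hv⟩ := hρ (X.Φ h)
  have hT : 0 < Real.sqrt (X.T h) := Real.sqrt_pos.mpr (X.T_pos h)
  have hT1 : Real.sqrt (X.T h) ≤ 1 := Real.sqrt_le_one.mpr (X.T_le h)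
  have h1 := h4b h v hv ⌈C₁ / Real.sqrt (X.T h)⌉₊ (Nat.le_ceil _)
  have h2 : wd S (D.ba v) h ≤ ⌈C₁ / Real.sqrt (X.T h)⌉₊ := (mem_pow_iff hS _ _).1 h1
  have h3 := (D.dW_le hS v h).trans h2
  have h4 : (⌈C₁ / Real.sqrt (X.T h)⌉₊ : ℝ) < C₁ / Real.sqrt (X.T h) + 1 :=
    Nat.ceil_lt_add_one (by positivity)
  have h5 : (D.dW S h : ℝ) ≤ C₁ / Real.sqrt (X.T h) + 1 :=
    (Nat.cast_le.mpr h3).trans h4.le
  calc Real.sqrt (X.T h) * (1 + D.dW S h)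
      ≤ Real.sqrt (X.T h) * (1 + (C₁ / Real.sqrt (X.T h) + 1)) := by gcongr
    _ = C₁ + 2 * Real.sqrt (X.T h) := by
        field_simp
        ring
    _ ≤ C₁ + 2 := by linarith

/-- The displacement of the projection along a generator. -/
theorem wallFn_step {D : Gl m} {A : AmalStr D.φ} (X : PT D A) {S : Set D.G} (hS : GSet S)
    {B C₄ : ℝ} (hB : ∀ h : D.G, Real.sqrt (X.T h) * (1 + D.dW S h) ≤ B) (hC₄ : 0 ≤ C₄)
    {h s : D.G} (hs : s ∈ S)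
    (h4 : ‖X.Φ h - X.Φ (h * s)‖ ^ 2 ≤ C₄ * (X.T h * X.T (h * s))) :
    ‖X.Φ h - X.Φ (h * s)‖ ≤ (Real.sqrt C₄ * (2 * B ^ 2)) / (1 + D.dW S h) ^ 2 := by
  obtain ⟨a, ha⟩ : ∃ a, a = Real.sqrt (X.T h) := ⟨_, rfl⟩
  obtain ⟨b, hb⟩ : ∃ b, b = Real.sqrt (X.T (h * s)) := ⟨_, rfl⟩
  obtain ⟨d, hd⟩ : ∃ d : ℝ, d = 1 + D.dW S h := ⟨_, rfl⟩
  have ha0 : 0 < a := ha ▸ Real.sqrt_pos.mpr (X.T_pos h)
  have hb0 : 0 < b := hb ▸ Real.sqrt_pos.mpr (X.T_pos (h * s))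
  have hd0 : 1 ≤ d := by
    rw [hd]
    have : (0 : ℝ) ≤ D.dW S h := Nat.cast_nonneg _
    linarith
  have ha2 : X.T h = a ^ 2 := by rw [ha, Real.sq_sqrt (X.T_pos h).le]
  have hb2 : X.T (h * s) = b ^ 2 := by rw [hb, Real.sq_sqrt (X.T_pos (h * s)).le]
  have h1 : a * d ≤ B := by
    rw [ha, hd]
    exact hB h
  have hB0 : 0 ≤ B := le_trans (by positivity) h1
  have h2 : b * d ≤ 2 * B := by
    have h3 := hB (h * s)
    rw [← hb] at h3
    have h5 : D.dW S h ≤ D.dW S (h * s) + 1 :=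
      (D.dW_lip hS h (h * s)).trans (Nat.add_le_add_left (wd_mul_right_le h hs) _)
    have h6 : (D.dW S h : ℝ) ≤ D.dW S (h * s) + 1 := by exact_mod_cast h5
    have h7 : (0 : ℝ) ≤ D.dW S (h * s) := Nat.cast_nonneg _
    have h8 : d ≤ 2 * (1 + D.dW S (h * s)) := by
      rw [hd]
      linarith
    calc b * d ≤ b * (2 * (1 + D.dW S (h * s))) := by gcongr
      _ = 2 * (b * (1 + D.dW S (h * s))) := by ring
      _ ≤ 2 * B := by linarith
  have h9 : a * b ≤ 2 * B ^ 2 / d ^ 2 := by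
    rw [le_div_iff₀ (by positivity)]
    calc a * b * d ^ 2 = (a * d) * (b * d) := by ring
      _ ≤ B * (2 * B) := by
          apply mul_le_mul h1 h2 (by positivity) hB0
      _ = 2 * B ^ 2 := by ring
  have h10 : ‖X.Φ h - X.Φ (h * s)‖ ≤ Real.sqrt C₄ * (a * b) := by
    refine le_of_sq_le_sq ?_ (by positivity)
    rw [mul_pow, Real.sq_sqrt hC₄]
    rw [ha2, hb2] at h4
    calc ‖X.Φ h - X.Φ (h * s)‖ ^ 2 ≤ C₄ * (a ^ 2 * b ^ 2) := h4
      _ = C₄ * (a * b) ^ 2 := by ring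
  rw [← hd]
  calc ‖X.Φ h - X.Φ (h * s)‖ ≤ Real.sqrt C₄ * (a * b) := h10
    _ ≤ Real.sqrt C₄ * (2 * B ^ 2 / d ^ 2) := by gcongr
    _ = (Real.sqrt C₄ * (2 * B ^ 2)) / d ^ 2 := by ring

/-- The projection of `h` is near its nearest wall points. -/
theorem wallFn_near {D : Gl m} {A : AmalStr D.φ} (X : PT D A) {S : Set D.G} (hS : GSet S)
    {K : ℝ} (hK : 0 ≤ K)
    (hst : ∀ h, ∀ s ∈ S, ‖X.Φ h - X.Φ (h * s)‖ ≤ K / (1 + D.dW S h) ^ 2) (h : D.G) :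
    ∃ v : (D.P 0).lat, wd S (D.ba v) h = D.dW S h ∧ ‖X.Φ h - v‖ ≤ 2 * K := by
  obtain ⟨v, hv⟩ := D.exists_dW hS h
  refine ⟨v, hv, ?_⟩
  obtain ⟨p, hp0, hpn, hps, hpd⟩ := exists_path hS (D.ba v) h
  have key : ∀ i : ℕ, i ≤ wd S (D.ba v) h → ‖X.Φ (p i) - v‖ ≤ K * (2 - 2 / ((i : ℝ) + 1)) := by
    intro i
    induction i with
    | zero =>
      intro _
      rw [hp0, X.Φ_ba]
      simp
    | succ i ih =>
      intro hi
      have hi' : i ≤ wd S (D.ba v) h := by omega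
      have h1 := ih hi'
      have h2 := hst (p i) ((p i)⁻¹ * p (i + 1)) (hps i)
      rw [show p i * ((p i)⁻¹ * p (i + 1)) = p (i + 1) by group] at h2
      have h3 : i ≤ D.dW S (p i) := by
        have h4 := D.dW_lip hS h (p i)
        have h5 := (hpd i hi').2
        rw [wd_comm hS] at h5
        rw [← hv] at h4
        omega
      have h6 : ((i : ℝ) + 1) ≤ 1 + D.dW S (p i) := by
        have : (i : ℝ) ≤ D.dW S (p i) := by exact_mod_cast h3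
        linarith
      have hi0 : (0 : ℝ) < (i : ℝ) + 1 := by positivity
      have h7 : K / (1 + D.dW S (p i)) ^ 2 ≤ K / ((i : ℝ) + 1) ^ 2 := by
        gcongr
      have h8 : ‖X.Φ (p (i + 1)) - v‖ ≤ ‖X.Φ (p i) - X.Φ (p (i + 1))‖ + ‖X.Φ (p i) - v‖ := by
        rw [norm_sub_rev (X.Φ (p i)) (X.Φ (p (i + 1)))]
        exact norm_sub_le_norm_sub_add_norm_sub _ _ _
      have h9 : K / ((i : ℝ) + 1) ^ 2 ≤ K * (2 / ((i : ℝ) + 1) - 2 / ((i : ℝ) + 2)) := by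
        have h10 : 1 / ((i : ℝ) + 1) ^ 2 ≤ 2 / ((i : ℝ) + 1) - 2 / ((i : ℝ) + 2) := by
          have e : 2 / ((i : ℝ) + 1) - 2 / ((i : ℝ) + 2) = 2 / (((i : ℝ) + 1) * ((i : ℝ) + 2)) := by
            field_simp
            ring
          rw [e, div_le_div_iff₀ (by positivity) (by positivity)]
          nlinarith
        calc K / ((i : ℝ) + 1) ^ 2 = K * (1 / ((i : ℝ) + 1) ^ 2) := by ring
          _ ≤ _ := by gcongr
      have h11 : ((i + 1 : ℕ) : ℝ) + 1 = (i : ℝ) + 2 := by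
        push_cast
        ring
      rw [h11]
      have h12 : K * (2 - 2 / ((i : ℝ) + 2)) = K * (2 / ((i : ℝ) + 1) - 2 / ((i : ℝ) + 2)) +
          K * (2 - 2 / ((i : ℝ) + 1)) := by ring
      rw [h12]
      linarith
  have h1 := key _ le_rfl
  rw [hpn] at h1
  have h2 : K * (2 - 2 / ((wd S (D.ba v) h : ℝ) + 1)) ≤ 2 * K := by
    have h3 : 0 ≤ 2 / ((wd S (D.ba v) h : ℝ) + 1) := by positivity
    nlinarith
  exact h1.trans h2

/-- Wall elements of the first piece. -/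
theorem wallFn_tr (D : Gl m) (v : (D.P 0).lat) : D.of 0 ((D.P 0).tr v) = D.ba v :=
  D.of_par 0 v

/-- The projection on the pieces. -/
theorem wallFn_piece {D : Gl m} {A : AmalStr D.φ} (X : PT D A) (i : Fin 2) (g : (D.P i).Γ) :
    ‖X.Φ (D.of i g) - (D.Ψ i).symm ((D.P i).orb g).u‖ ≤
      X.κ * Real.exp (hd (⟨0, X.κ, lt_of_lt_of_le one_pos X.hκ⟩ : HPt m) (base m)) := by
  have hκ0 : 0 < X.κ := lt_of_lt_of_le one_pos X.hκ
  by_cases hg : (D.P i).Par g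
  · obtain ⟨v, h1, h2, h3⟩ := D.exists_ba i hg
    have h4 : ((D.P i).orb g).u = D.Ψ i (v : E m) := by
      unfold Piece.orb
      rw [h3]
      simp [base]
    rw [h1, X.Φ_ba, h4]
    simp only [ContinuousLinearEquiv.symm_apply_apply, sub_self, norm_zero]
    positivity
  · have hs : A.side (1 : D.G) ≠ some i := by
      have h1 : A.side (1 : D.G) = none := (D.side_none A 1).2 ⟨0, D.ba_zero.symm⟩
      rw [h1]
      simp
    have h2 := X.Φ_cons i g hg 1 hs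
    have h3 : X.Φ 1 = 0 := by
      rw [← D.ba_zero, X.Φ_ba]
      simp
    rw [mul_one] at h2
    have h4 : (⟨D.Ψ i (X.Φ 1), X.κ, lt_of_lt_of_le one_pos X.hκ⟩ : HPt m) =
        ⟨0, X.κ, lt_of_lt_of_le one_pos X.hκ⟩ := by
      rw [HPt.mk.injEq]
      refine ⟨?_, rfl⟩
      rw [h3, map_zero]
    rw [h4] at h2
    rw [h2, ← map_sub]
    refine (X.le2 i _).trans ?_
    refine mul_le_mul_of_nonneg_left ?_ hκ0.le
    have h5 : hd ((D.P i).orb g) (g.1 ⟨0, X.κ, lt_of_lt_of_le one_pos X.hκ⟩) ≤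
        hd (⟨0, X.κ, lt_of_lt_of_le one_pos X.hκ⟩ : HPt m) (base m) := by
      unfold Piece.orb
      rw [hd_isom ((D.P i).isom' g), hd_comm]
    have h6 := norm_le_of_hd h5
    rw [norm_sub_rev] at h6
    refine h6.trans ?_
    have h7 := (D.P i).orb_t_le_one g
    calc _ ≤ Real.exp (hd (⟨0, X.κ, lt_of_lt_of_le one_pos X.hκ⟩ : HPt m) (base m)) * 1 := by
          gcongr
      _ = _ := mul_one _

theorem exists_wallFn (D : Gl m) (A : AmalStr D.φ) : ∃ r : ℝ, ∀ r', r ≤ r' →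
    GSet (D.gen r') ∧ Nonempty (WallFn D A (D.gen r')) := by
  obtain ⟨X⟩ := exists_PT D A
  obtain ⟨ρ, hρ0, hρ⟩ := (D.P 0).lat_cover
  obtain ⟨r₁, C₁, hC₁, h4b⟩ := X.four_b ρ
  obtain ⟨r₂, C₂, hC₂, hlw⟩ := (D.P 0).lat_word
  obtain ⟨C₅, hC₅⟩ := X.proj
  refine ⟨max (max r₁ r₂) (Real.log 2), fun r' hr' => ?_⟩
  have hr1 : r₁ ≤ r' := (le_max_left _ _).trans ((le_max_left _ _).trans hr')
  have hr2 : r₂ ≤ r' := (le_max_right _ _).trans ((le_max_left _ _).trans hr')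
  have hr3 : Real.log 2 ≤ r' := (le_max_right _ _).trans hr'
  have h4b' := h4b r' hr1
  -- wall elements
  have hwall : ∀ (v : (D.P 0).lat) (n : ℕ), C₂ * (1 + ‖(v : E m)‖) ≤ n →
      D.ba v ∈ (D.gen r') ^ n := by
    intro v n hn
    have h1 := hlw r' hr2 v n hn
    rw [← wallFn_tr]
    exact D.of_pow_mem h1
  have hS : GSet (D.gen r') := by
    refine ⟨D.gen_fin r', ?_, fun g hg => D.gen_inv hg, fun g => ?_⟩
    · refine ⟨0, 1, ?_, (map_one _).symm⟩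
      change hd ((D.P 0).orb 1) (base m) ≤ r'
      have h1 : (D.P 0).orb 1 = base m := rfl
      rw [h1, hd_self]
      exact hr3
    · obtain ⟨v, hv⟩ := hρ (X.Φ g)
      have h1 := h4b' g v hv ⌈C₁ / Real.sqrt (X.T g)⌉₊ (Nat.le_ceil _)
      have h2 := hwall v ⌈C₂ * (1 + ‖(v : E m)‖)⌉₊ (Nat.le_ceil _)
      refine ⟨⌈C₂ * (1 + ‖(v : E m)‖)⌉₊ + ⌈C₁ / Real.sqrt (X.T g)⌉₊, ?_⟩
      rw [pow_add]
      have h3 := Set.mul_mem_mul h2 h1
      rwa [mul_inv_cancel_left] at h3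
  refine ⟨hS, ?_⟩
  obtain ⟨C₄, hC₄⟩ := X.four_a r'
  have hB := wallFn_height X hS hC₁ hρ h4b'
  have hC4' : (0 : ℝ) ≤ |C₄| := abs_nonneg _
  obtain ⟨K, hK⟩ : ∃ K, K = Real.sqrt |C₄| * (2 * (C₁ + 2) ^ 2) := ⟨_, rfl⟩
  have hK0 : 0 ≤ K := by
    rw [hK]
    positivity
  have hst : ∀ h, ∀ s ∈ D.gen r', ‖X.Φ h - X.Φ (h * s)‖ ≤ K / (1 + D.dW (D.gen r') h) ^ 2 := by
    intro h s hs
    rw [hK]
    refine wallFn_step X hS hB hC4' hs ?_
    obtain ⟨i, γ, hγ, rfl⟩ := hs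
    refine (hC₄ i γ hγ h).trans ?_
    have h1 := X.T_pos h
    have h2 := X.T_pos (h * D.of i γ)
    exact mul_le_mul_of_nonneg_right (le_abs_self _) (by positivity)
  obtain ⟨M, hM⟩ : ∃ M, M = X.κ *
      Real.exp (hd (⟨0, X.κ, lt_of_lt_of_le one_pos X.hκ⟩ : HPt m) (base m)) := ⟨_, rfl⟩
  have hM0 : 0 ≤ M := by
    rw [hM]
    have := X.hκ
    positivity
  obtain ⟨C, hC⟩ : ∃ C, C = 1 + C₂ * (1 + 4 * K) + K + M + |C₅| := ⟨_, rfl⟩
  have h5 : 0 ≤ |C₅| := abs_nonneg _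
  have h6 : 0 ≤ C₂ * (1 + 4 * K) := by positivity
  refine ⟨{
    Φ := X.Φ
    C := C
    hC := ?_
    phi_ba := X.Φ_ba
    phi_mul := X.Φ_mul
    step := ?_
    far := ?_
    piece := ?_
    proj := ?_ }⟩
  · rw [hC]
    linarith
  · intro h s hs
    refine (hst h s hs).trans ?_
    have h7 : K ≤ C := by
      rw [hC]
      linarith
    gcongr
  · intro h h'
    obtain ⟨v, hv, hv2⟩ := wallFn_near X hS hK0 hst h
    obtain ⟨v', hv', hv2'⟩ := wallFn_near X hS hK0 hst h'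
    have h7 : D.ba (v' - v) ∈ (D.gen r') ^ ⌈C₂ * (1 + ‖((v' - v : (D.P 0).lat) : E m)‖)⌉₊ :=
      hwall _ _ (Nat.le_ceil _)
    have h8 : wd (D.gen r') (D.ba v) (D.ba v') ≤
        ⌈C₂ * (1 + ‖((v' - v : (D.P 0).lat) : E m)‖)⌉₊ := by
      have h9 : (D.ba v)⁻¹ * D.ba v' = D.ba (v' - v) := by
        rw [← D.ba_neg, ← D.ba_add]
        congr 1
        abel
      rw [wd, h9]
      exact (mem_pow_iff hS _ _).1 h7
    have h9 : (⌈C₂ * (1 + ‖((v' - v : (D.P 0).lat) : E m)‖)⌉₊ : ℝ) <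
        C₂ * (1 + ‖((v' - v : (D.P 0).lat) : E m)‖) + 1 :=
      Nat.ceil_lt_add_one (by positivity)
    have h10 : (wd (D.gen r') (D.ba v) (D.ba v') : ℝ) ≤
        C₂ * (1 + ‖((v' - v : (D.P 0).lat) : E m)‖) + 1 :=
      (Nat.cast_le.mpr h8).trans h9.le
    have h11 : ‖((v' - v : (D.P 0).lat) : E m)‖ ≤ ‖X.Φ h - X.Φ h'‖ + 4 * K := by
      have e : ((v' - v : (D.P 0).lat) : E m) =
          (X.Φ h - (v : E m)) - (X.Φ h' - (v' : E m)) - (X.Φ h - X.Φ h') := by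
        rw [AddSubgroup.coe_sub]
        abel
      rw [e]
      calc _ ≤ ‖(X.Φ h - (v : E m)) - (X.Φ h' - (v' : E m))‖ + ‖X.Φ h - X.Φ h'‖ := norm_sub_le _ _
        _ ≤ (‖X.Φ h - (v : E m)‖ + ‖X.Φ h' - (v' : E m)‖) + ‖X.Φ h - X.Φ h'‖ := by
            gcongr
            exact norm_sub_le _ _
        _ ≤ ‖X.Φ h - X.Φ h'‖ + 4 * K := by linarith
    have h12 : wd (D.gen r') h h' ≤ D.dW (D.gen r') h + wd (D.gen r') (D.ba v) (D.ba v') +
        D.dW (D.gen r') h' := by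
      have a1 := wd_triangle hS h (D.ba v) h'
      have a2 := wd_triangle hS (D.ba v) (D.ba v') h'
      rw [wd_comm hS h (D.ba v), hv] at a1
      rw [hv'] at a2
      omega
    have h13 : (wd (D.gen r') h h' : ℝ) ≤ D.dW (D.gen r') h +
        wd (D.gen r') (D.ba v) (D.ba v') + D.dW (D.gen r') h' := by exact_mod_cast h12
    obtain ⟨x, hx⟩ : ∃ x : ℝ, x = D.dW (D.gen r') h := ⟨_, rfl⟩
    obtain ⟨y, hy⟩ : ∃ y : ℝ, y = D.dW (D.gen r') h' := ⟨_, rfl⟩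
    obtain ⟨z, hz⟩ : ∃ z : ℝ, z = ‖X.Φ h - X.Φ h'‖ := ⟨_, rfl⟩
    have hx0 : 0 ≤ x := by
      rw [hx]
      positivity
    have hy0 : 0 ≤ y := by
      rw [hy]
      positivity
    have hz0 : 0 ≤ z := by
      rw [hz]
      positivity
    rw [← hx, ← hy] at h13
    rw [← hx, ← hy, ← hz]
    rw [← hz] at h11
    have h14 : (wd (D.gen r') (D.ba v) (D.ba v') : ℝ) ≤ C₂ * (1 + (z + 4 * K)) + 1 := by
      refine h10.trans ?_
      gcongr
    have h15 : C₂ * (1 + (z + 4 * K)) + 1 ≤ (1 + C₂ * (1 + 4 * K)) * (1 + z) := by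
      have e1 : 0 ≤ C₂ * (4 * K) * z := by positivity
      nlinarith
    have h16 : 1 + C₂ * (1 + 4 * K) ≤ C := by
      rw [hC]
      linarith
    have h17 : (1 : ℝ) ≤ C := by linarith
    calc (wd (D.gen r') h h' : ℝ) ≤ x + (C₂ * (1 + (z + 4 * K)) + 1) + y := by linarith
      _ ≤ x + (1 + C₂ * (1 + 4 * K)) * (1 + z) + y := by linarith
      _ ≤ x + C * (1 + z) + y := by gcongr
      _ ≤ C * (1 + x + y + z) := by nlinarith
  · intro i g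
    refine (wallFn_piece X i g).trans ?_
    rw [← hM, hC]
    linarith
  · intro h hh v
    refine (hC₅ h hh v).trans ?_
    have h7 := le_abs_self C₅
    rw [hC]
    linarith

end QIG
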