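import Pool.Agent.W_a51130_h62.WallDefs
import Pool.Agent.W_a51130_h62.QuasiFlat
import Pool.Agent.W_a51130_h62.WallFn

/-!
A quasi-isometry maps walls near walls; distinct walls have bounded coarse intersection.

PROOFS.
`exists_full`: `exists_amalStr`, `exists_wallFn`.
`wall_lattice`: `wd (ba v)(ba w) ≤ C(1+‖v-w‖)` (`Piece.lat_word` for `P 0` gives a word in `(P 0).bal r`, hence in `S` up
to a factor, `Gl.wd_of_le`), `‖v-w‖ ≤ C wd` (`WallFn.lip`, `phi_ba`).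
`exists_near`: for `g ∈ D.G` let `F x = f (g * ba [x])`, `[x]` a lattice vector with `‖x-[x]‖ ≤ ρ`; it is a quasi-flat
with a constant independent of `g`; `quasi_flat` in `D'`.
`wall_inter`: `wd (h ba v)(h ba w) ≥ ‖v-w‖/C` and by `W.far`, `≤ C(1+2R+‖Φ(h ba v)-Φ(h ba w)‖) ≤ C(1+2R+2C)` (`W.proj`).
`near_unique`: if `side (g₁⁻¹g₂) ≠ none`: for every `v`, `f(g ba v)` is within `R'` of `g₂ ba w_v` and within `R` of `g₁Λ`,
so `dW (g₁⁻¹g₂ ba w_v) ≤ R+R'`; by `wall_inter` the `w_v` stay in a bounded set, so `f(g ba v)` too, hence (`f`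
QI) `g ba v` too, hence `‖v‖` bounded: contradiction, the lattice is unbounded (`m ≥ 1`).
`near_inv`: for every `v`, `f(g ba v)` is within `R` of `g' ba w`, so `f'(f(g ba v))` is within a constant of
`f'(g' ba w)`, which is within `R'` of `g''Λ`; also it is within `K'` of `g ba v`.  So
`dW (g''⁻¹ g ba v)` is bounded for all `v`, and `wall_inter` gives `side (g''⁻¹g) = none`.
-/

namespace QIG

variable {m : ℕ}

theorem exists_full (D : Gl m) : Nonempty (Full D) := by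
  obtain ⟨A⟩ := exists_amalStr D.φ (fun i => D.φ_injective i)
  obtain ⟨r, hr⟩ := exists_wallFn D A
  obtain ⟨hS, ⟨W⟩⟩ := hr r le_rfl
  refine ⟨⟨A, D.gen r, hS, ?_, W⟩⟩
  rintro s ⟨i, γ, -, rfl⟩
  exact ⟨i, γ, rfl⟩

theorem wall_lattice {D : Gl m} (X : Full D) : ∃ C : ℝ, 1 ≤ C ∧ ∀ v w : (D.P 0).lat,
    (wd X.S (D.ba v) (D.ba w) : ℝ) ≤ C * (1 + ‖(v : E m) - w‖) ∧
      ‖(v : E m) - w‖ ≤ C * wd X.S (D.ba v) (D.ba w) := by
  refine ⟨X.W.C, X.W.hC, fun v w => ⟨?_, ?_⟩⟩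
  · have h1 := X.W.far (D.ba v) (D.ba w)
    rw [D.dW_ba X.hS, D.dW_ba X.hS, X.W.phi_ba, X.W.phi_ba] at h1
    simpa using h1
  · have h1 := X.W.lip X.hS (D.ba v) (D.ba w)
    rw [X.W.phi_ba, X.W.phi_ba] at h1
    exact h1

theorem lat_unbounded (hm : 1 ≤ m) (P : Piece m) (C : ℝ) : ∃ v : P.lat, C < ‖(v : E m)‖ := by
  by_contra hcon
  push Not at hcon
  obtain ⟨ρ, hρ, hcov⟩ := P.lat_cover
  obtain ⟨v, hv⟩ := hcov (EuclideanSpace.single (⟨0, hm⟩ : Fin m) (ρ + |C| + 1))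
  have h1 : ‖(EuclideanSpace.single (⟨0, hm⟩ : Fin m) (ρ + |C| + 1) : E m)‖ = ρ + |C| + 1 := by
    rw [PiLp.norm_single, Real.norm_eq_abs, abs_of_nonneg (by positivity)]
  have h2 := norm_sub_norm_le (EuclideanSpace.single (⟨0, hm⟩ : Fin m) (ρ + |C| + 1) : E m) (v : E m)
  have h3 := hcon v
  have h4 := le_abs_self C
  linarith

theorem wmap_arith {K C ρ a w : ℝ} (hK : 0 ≤ K) (hC : 1 ≤ C) (hρ : 0 < ρ) (ha : 0 ≤ a)
    (hw : 0 ≤ w) :
    K * (C * (1 + (a + 2 * ρ))) + K ≤ (K * C * (1 + 2 * ρ) + K + 2 * ρ + C * K + 1) * (a + 1) ∧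
    2 * ρ + C * (K * w + K) ≤ (K * C * (1 + 2 * ρ) + K + 2 * ρ + C * K + 1) * (1 + w) := by
  have hKC : 0 ≤ K * C := mul_nonneg hK (by linarith)
  have hKCρ : 0 ≤ K * C * ρ := mul_nonneg hKC hρ.le
  have e1 : 0 ≤ K * C * a := mul_nonneg hKC ha
  have e2 : 0 ≤ K * C * ρ * a := mul_nonneg hKCρ ha
  have e3 : 0 ≤ K * a := mul_nonneg hK ha
  have e4 : 0 ≤ ρ * a := mul_nonneg hρ.le ha
  have e5 : 0 ≤ K * C * w := mul_nonneg hKC hw
  have e6 : 0 ≤ K * C * ρ * w := mul_nonneg hKCρ hw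
  have e7 : 0 ≤ K * w := mul_nonneg hK hw
  have e8 : 0 ≤ ρ * w := mul_nonneg hρ.le hw
  constructor
  · nlinarith
  · nlinarith

theorem exists_near (hm : 2 ≤ m) {D D' : Gl m} (X : Full D) (X' : Full D') {f : D.G → D'.G}
    {K : ℕ} (hf : QI X.S X'.S f K) : ∃ R : ℕ, ∀ g : D.G, ∃ g' : D'.G, NearW D D' X'.S f R g g' := by
  classical
  obtain ⟨ρ, hρ, hcov⟩ := (D.P 0).lat_cover
  obtain ⟨C, hC, hlat⟩ := wall_lattice X
  have hcov' : ∀ x : E m, ∃ v : (D.P 0).lat, ‖x - v‖ ≤ ρ ∧ (x ∈ (D.P 0).lat → (v : E m) = x) := by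
    intro x
    by_cases hx : x ∈ (D.P 0).lat
    · exact ⟨⟨x, hx⟩, by simpa using hρ.le, fun _ => rfl⟩
    · obtain ⟨v, hv⟩ := hcov x
      exact ⟨v, hv, fun h => absurd h hx⟩
  choose c hc hc' using hcov'
  have hK0 : (0 : ℝ) ≤ (K : ℝ) := Nat.cast_nonneg _
  obtain ⟨K₂, hK₂⟩ : ∃ K₂ : ℝ, K₂ = (K : ℝ) * C * (1 + 2 * ρ) + K + 2 * ρ + C * K + 1 := ⟨_, rfl⟩
  have hK₂1 : 1 ≤ K₂ := by
    rw [hK₂]
    have h1 : (0 : ℝ) ≤ (K : ℝ) * C * (1 + 2 * ρ) := by positivity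
    have h2 : (0 : ℝ) ≤ C * K := by positivity
    linarith
  obtain ⟨R, hR⟩ := quasi_flat hm X'.hS X'.hgen X'.W hK₂1
  refine ⟨R, fun g => ?_⟩
  have hdist : ∀ x y : E m, ‖(c x : E m) - c y‖ ≤ ‖x - y‖ + 2 * ρ ∧
      ‖x - y‖ ≤ ‖(c x : E m) - c y‖ + 2 * ρ := by
    intro x y
    have h1 := hc x
    have h2 := hc y
    constructor
    · have e : (c x : E m) - c y = -(x - c x) + (x - y) + (y - c y) := by abel
      rw [e]
      refine (norm_add_le _ _).trans ?_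
      have h3 := norm_add_le (-(x - (c x : E m))) (x - y)
      rw [norm_neg] at h3
      linarith
    · have e : x - y = (x - c x) + ((c x : E m) - c y) + -(y - c y) := by abel
      rw [e]
      refine (norm_add_le _ _).trans ?_
      have h3 := norm_add_le (x - (c x : E m)) ((c x : E m) - c y)
      rw [norm_neg]
      linarith
  have hflat : QFlat D' X'.S (fun x => f (g * D.ba (c x))) K₂ := by
    constructor
    · intro x y
      have h1 : (wd X'.S (f (g * D.ba (c x))) (f (g * D.ba (c y))) : ℝ) ≤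
          K * wd X.S (D.ba (c x)) (D.ba (c y)) + K := by
        have h2 := hf.up (g * D.ba (c x)) (g * D.ba (c y))
        rw [wd_mul_left] at h2
        exact_mod_cast h2
      have h3 := (hlat (c x) (c y)).1
      have h4 := (hdist x y).1
      have h5 : (wd X.S (D.ba (c x)) (D.ba (c y)) : ℝ) ≤ C * (1 + (‖x - y‖ + 2 * ρ)) :=
        h3.trans (mul_le_mul_of_nonneg_left (by linarith) (by linarith))
      have h6 := (wmap_arith (w := 0) hK0 hC hρ (norm_nonneg (x - y)) le_rfl).1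
      rw [← hK₂] at h6
      have h7 := mul_le_mul_of_nonneg_left h5 hK0
      linarith
    · intro x y
      have h1 : (wd X.S (D.ba (c x)) (D.ba (c y)) : ℝ) ≤
          K * wd X'.S (f (g * D.ba (c x))) (f (g * D.ba (c y))) + K := by
        have h2 := hf.low (g * D.ba (c x)) (g * D.ba (c y))
        rw [wd_mul_left] at h2
        exact_mod_cast h2
      have h3 := (hlat (c x) (c y)).2
      have h4 := (hdist x y).2
      have h6 := (wmap_arith (a := 0) hK0 hC hρ le_rfl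
        (Nat.cast_nonneg (wd X'.S (f (g * D.ba (c x))) (f (g * D.ba (c y)))))).2
      rw [← hK₂] at h6
      have h7 := mul_le_mul_of_nonneg_left h1 (show (0 : ℝ) ≤ C by linarith)
      change ‖x - y‖ ≤ K₂ * (1 + (wd X'.S (f (g * D.ba (c x))) (f (g * D.ba (c y))) : ℝ))
      linarith
  obtain ⟨g', hg'⟩ := hR _ hflat
  refine ⟨g', fun v => ?_⟩
  have h1 := hg' (v : E m)
  have h2 : c (v : E m) = v := Subtype.ext (hc' _ v.2)
  simp only [h2] at h1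
  exact h1

theorem wall_inter {D : Gl m} (X : Full D) (R : ℕ) : ∃ C : ℝ, ∀ h : D.G, X.A.side h ≠ none →
    ∀ v w : (D.P 0).lat, D.dW X.S (h * D.ba v) ≤ R → D.dW X.S (h * D.ba w) ≤ R →
      ‖(v : E m) - w‖ ≤ C := by
  obtain ⟨C, hC, hlat⟩ := wall_lattice X
  have hW := X.W.hC
  refine ⟨C * (X.W.C * (1 + R + R + (X.W.C + X.W.C))), fun h hh v w hv hw => ?_⟩
  have h1 := (hlat v w).2
  have h2 := X.W.far (h * D.ba v) (h * D.ba w)
  rw [wd_mul_left] at h2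
  have h3 := X.W.proj h hh v
  have h4 := X.W.proj h hh w
  have h5 : ‖X.W.Φ (h * D.ba v) - X.W.Φ (h * D.ba w)‖ ≤ X.W.C + X.W.C := by
    have e : X.W.Φ (h * D.ba v) - X.W.Φ (h * D.ba w) =
        (X.W.Φ (h * D.ba v) - X.W.Φ h) - (X.W.Φ (h * D.ba w) - X.W.Φ h) := by abel
    rw [e]
    exact (norm_sub_le _ _).trans (add_le_add h3 h4)
  have hv' : (D.dW X.S (h * D.ba v) : ℝ) ≤ R := by exact_mod_cast hv
  have hw' : (D.dW X.S (h * D.ba w) : ℝ) ≤ R := by exact_mod_cast hw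
  refine h1.trans (mul_le_mul_of_nonneg_left (h2.trans ?_) (by linarith))
  exact mul_le_mul_of_nonneg_left (by linarith) (by linarith)

theorem near_unique (hm : 1 ≤ m) {D D' : Gl m} (X : Full D) (X' : Full D') {f : D.G → D'.G}
    {K : ℕ} (hf : QI X.S X'.S f K) {R R' : ℕ} {g : D.G} {g₁ g₂ : D'.G}
    (h1 : NearW D D' X'.S f R g g₁) (h2 : NearW D D' X'.S f R' g g₂) :
    ∃ w, g₂ = g₁ * D'.ba w := by
  by_contra hcon
  have hside : X'.A.side (g₁⁻¹ * g₂) ≠ none := by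
    intro h
    obtain ⟨v, hv⟩ := (D'.side_none X'.A _).1 h
    exact hcon ⟨v, by rw [← hv]; group⟩
  obtain ⟨C, hC, hlat⟩ := wall_lattice X
  obtain ⟨C', hC', hlat'⟩ := wall_lattice X'
  obtain ⟨C₁, hC₁⟩ := wall_inter X' (R + R')
  have hex : ∀ v : (D.P 0).lat, ∃ w : (D'.P 0).lat,
      wd X'.S (g₂ * D'.ba w) (f (g * D.ba v)) ≤ R' := by
    intro v
    obtain ⟨w, hw⟩ := D'.exists_dW X'.hS (g₂⁻¹ * f (g * D.ba v))
    refine ⟨w, ?_⟩
    have h3 := h2 v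
    rw [← hw] at h3
    rw [← wd_mul_left X'.S g₂⁻¹]
    rw [show g₂⁻¹ * (g₂ * D'.ba w) = D'.ba w by group]
    exact h3
  choose w hw using hex
  have hnear : ∀ v, D'.dW X'.S (g₁⁻¹ * g₂ * D'.ba (w v)) ≤ R + R' := by
    intro v
    have h3 := D'.dW_lip X'.hS (g₁⁻¹ * g₂ * D'.ba (w v)) (g₁⁻¹ * f (g * D.ba v))
    have h4 := h1 v
    have h5 := hw v
    rw [mul_assoc, wd_mul_left] at h3
    rw [mul_assoc]
    omega
  obtain ⟨v, hv⟩ := lat_unbounded hm (D.P 0)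
    (C * (K * (R' + C' * (1 + C₁) + R') + K))
  have hb := hC₁ _ hside (w v) (w 0) (hnear v) (hnear 0)
  have h3 := (hlat v 0).2
  have h4 : (wd X.S (D.ba v) (D.ba 0) : ℝ) ≤
      K * wd X'.S (f (g * D.ba v)) (f (g * D.ba 0)) + K := by
    have h5 := hf.low (g * D.ba v) (g * D.ba 0)
    rw [wd_mul_left] at h5
    exact_mod_cast h5
  have h5 : wd X'.S (f (g * D.ba v)) (f (g * D.ba 0)) ≤
      R' + wd X'.S (D'.ba (w v)) (D'.ba (w 0)) + R' := by
    have a1 := wd_triangle X'.hS (f (g * D.ba v)) (g₂ * D'.ba (w v)) (f (g * D.ba 0))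
    have a2 := wd_triangle X'.hS (g₂ * D'.ba (w v)) (g₂ * D'.ba (w 0)) (f (g * D.ba 0))
    rw [wd_mul_left] at a2
    rw [wd_comm X'.hS (f (g * D.ba v)) (g₂ * D'.ba (w v))] at a1
    have a3 := hw v
    have a4 := hw 0
    omega
  have h6 : (wd X'.S (f (g * D.ba v)) (f (g * D.ba 0)) : ℝ) ≤
      R' + wd X'.S (D'.ba (w v)) (D'.ba (w 0)) + R' := by exact_mod_cast h5
  have h7 := (hlat' (w v) (w 0)).1
  have h8 : (wd X'.S (D'.ba (w v)) (D'.ba (w 0)) : ℝ) ≤ C' * (1 + C₁) :=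
    h7.trans (mul_le_mul_of_nonneg_left (by linarith) (by linarith))
  have hK0 : (0 : ℝ) ≤ (K : ℝ) := Nat.cast_nonneg _
  have h9 : (wd X.S (D.ba v) (D.ba 0) : ℝ) ≤ K * (R' + C' * (1 + C₁) + R') + K := by
    refine h4.trans ?_
    have := mul_le_mul_of_nonneg_left (h6.trans (by linarith :
      (R' : ℝ) + wd X'.S (D'.ba (w v)) (D'.ba (w 0)) + R' ≤ R' + C' * (1 + C₁) + R')) hK0
    linarith
  have h10 : ‖(v : E m)‖ ≤ C * (K * (R' + C' * (1 + C₁) + R') + K) := by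
    have h11 : ‖(v : E m) - ((0 : (D.P 0).lat) : E m)‖ = ‖(v : E m)‖ := by simp
    rw [h11] at h3
    exact h3.trans (mul_le_mul_of_nonneg_left h9 (by linarith))
  linarith

theorem near_inv (hm : 1 ≤ m) {D D' : Gl m} (X : Full D) (X' : Full D') {f : D.G → D'.G}
    {f' : D'.G → D.G} {K K' : ℕ} (hf : QI X.S X'.S f K) (hf' : QI X'.S X.S f' K')
    (hff : ∀ x, wd X.S x (f' (f x)) ≤ K') {R R' : ℕ} {g g'' : D.G} {g' : D'.G}
    (h1 : NearW D D' X'.S f R g g') (h2 : NearW D' D X.S f' R' g' g'') :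
    ∃ w, g'' = g * D.ba w := by
  by_contra hcon
  have hside : X.A.side (g''⁻¹ * g) ≠ none := by
    intro h
    obtain ⟨v, hv⟩ := (D.side_none X.A _).1 h
    refine hcon ⟨-v, ?_⟩
    rw [D.ba_neg, ← hv]
    group
  obtain ⟨C₁, hC₁⟩ := wall_inter X (R' + (K' * R + K') + K')
  have hnear : ∀ v : (D.P 0).lat, D.dW X.S (g''⁻¹ * g * D.ba v) ≤ R' + (K' * R + K') + K' := by
    intro v
    obtain ⟨w, hw⟩ := D'.exists_dW X'.hS (g'⁻¹ * f (g * D.ba v))
    have h3 : wd X'.S (g' * D'.ba w) (f (g * D.ba v)) ≤ R := by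
      have h4 := h1 v
      rw [← hw] at h4
      rw [← wd_mul_left X'.S g'⁻¹]
      rw [show g'⁻¹ * (g' * D'.ba w) = D'.ba w by group]
      exact h4
    have h4 := hf'.up (g' * D'.ba w) (f (g * D.ba v))
    have h5 : K' * wd X'.S (g' * D'.ba w) (f (g * D.ba v)) ≤ K' * R := Nat.mul_le_mul_left _ h3
    have h6 := h2 w
    have h7 := hff (g * D.ba v)
    have h8 := wd_triangle X.hS (f' (g' * D'.ba w)) (f' (f (g * D.ba v))) (g * D.ba v)
    rw [wd_comm X.hS (f' (f (g * D.ba v)))] at h8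
    have h9 := D.dW_lip X.hS (g''⁻¹ * g * D.ba v) (g''⁻¹ * f' (g' * D'.ba w))
    rw [mul_assoc, wd_mul_left, wd_comm X.hS] at h9
    rw [mul_assoc]
    omega
  obtain ⟨v, hv⟩ := lat_unbounded hm (D.P 0) C₁
  have hb := hC₁ _ hside v 0 (hnear v) (hnear 0)
  have h11 : ‖(v : E m) - ((0 : (D.P 0).lat) : E m)‖ = ‖(v : E m)‖ := by simp
  rw [h11] at hb
  linarith

end QIG
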