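import Pool.Agent.W_a51130_h62.GlDefs

/-! MP_a51130_gt: quasi-isometries and walls, definitions. -/

namespace QIG

variable {m : ℕ}

/-- A gluing with everything needed: normal forms, a generating set of elements of the pieces, wall
functions. -/
structure Full (D : Gl m) where
  A : AmalStr D.φ
  S : Set D.G
  hS : GSet S
  hgen : ∀ s ∈ S, ∃ (i : Fin 2) (γ : (D.P i).Γ), s = D.of i γ
  W : WallFn D A S

/-- The image of the wall `gΛ` is within `R` of the wall `g'Λ'`. -/
def NearW (D D' : Gl m) (S' : Set D'.G) (f : D.G → D'.G) (R : ℕ) (g : D.G) (g' : D'.G) : Prop :=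
  ∀ v : (D.P 0).lat, D'.dW S' (g'⁻¹ * f (g * D.ba v)) ≤ R

end QIG
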